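import Pool.Agent.MQV.Cmp
import Pool.Agent.MPV.Exa

/-!
# MQV EXM : the lower bound `A_n ≥ c n^(2p-1)`, from `(1-z)^(-2p)`

`f z = exp (-(2p) log (1-z))`, `L z = -(2p) log (1-z)`, `MPV.exa_cls : Cls p L`.
* `exm_mv`: `‖deriv f z‖² = e^{2 Re L} ‖deriv L z‖²`, `{‖f z‖ < R} = {Re L z < log R}` (`R > 0`), so
  `MV (ball 0 1) p f` is `Cls.area` at `U = log R`.
* `exm_coef`: as in `Pool/Agent/MPV/Exa.lean` (private `exa_iter`, copy it; `exa_coef` contains the
  computation): `coef f n = ∏_{j<n} (2p+j)/(j+1)`.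
* `exm_lower`: with `s = 2p`, `Real.GammaSeq s n = n^s n!/∏_{j=0}^{n} (s+j)` (`n ≥ 1`)
  converges to `Γ(s)` (`Real.GammaSeq_tendsto_Gamma`), hence is bounded by some `B > 0` for all `n ≥ 1`;
  `∏_{j<n} (s+j)/n! = n^s/((s+n) GammaSeq s n) ≥ n^s/((s+1) n B)`.
* `A_lower`: `μ = mu p f ≥ ‖coef f 0‖ = 1` (finite supremum), `g = μ⁻¹ f ∈ S p`
  (`mu p g = 1`: `mu` is homogeneous, `MPV.coef_const_mul`-type identity; mean valent by
  `MV.const_mul` and `meanValent_iff`), so `A p n ≥ ‖coef g n‖ = μ⁻¹ coef f n`.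
-/

set_option autoImplicit false

open MeasureTheory Metric Set

namespace MQV

private theorem coef_const_mul' (c : ℂ) {f : ℂ → ℂ} (hf : DifferentiableOn ℂ f (ball 0 1)) (n : ℕ) :
    MPV.coef (fun z => c * f z) n = c * MPV.coef f n := by
  have hfa : AnalyticAt ℂ f 0 :=
    hf.analyticAt (isOpen_ball.mem_nhds (mem_ball_self one_pos))
  unfold MPV.coef
  rw [iteratedDeriv_const_mul c (hfa.contDiffAt)]
  ring

/-- homogeneity of the normalisation -/
theorem mu_smul {p : ℝ} {f : ℂ → ℂ} (hf : DifferentiableOn ℂ f (ball 0 1)) (c : ℂ) :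
    MPV.mu p (fun z => c * f z) = ‖c‖ * MPV.mu p f := by
  unfold MPV.mu
  rw [Real.mul_iSup_of_nonneg (norm_nonneg c)]
  congr 1
  ext ν
  rw [coef_const_mul' c hf, norm_mul]

/-- normalising a mean valent function -/
theorem smul_mem_S {p : ℝ} (hp : 0 ≤ p) {f : ℂ → ℂ} (hf : MV (ball 0 1) p f)
    (h : 0 < MPV.mu p f) : (fun z => ((MPV.mu p f)⁻¹ : ℝ) * f z) ∈ MPV.S p := by
  have h1 := hf.const_mul isOpen_ball hp (((MPV.mu p f)⁻¹ : ℝ) : ℂ)
  refine ⟨h1.diff, (meanValent_iff h1.diff).mpr h1, ?_⟩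
  rw [mu_smul hf.diff, Complex.norm_real, Real.norm_of_nonneg (inv_nonneg.mpr h.le),
    inv_mul_cancel₀ h.ne']

theorem exm_mv {p : ℝ} (hp : 0 < p) :
    MV (ball 0 1) p (fun z => Complex.exp (-(2 * p) * Complex.log (1 - z))) := by
  have hC := MPV.exa_cls hp
  obtain ⟨L, hL⟩ : ∃ L : ℂ → ℂ, L = fun z => -(2 * (p : ℂ)) * Complex.log (1 - z) := ⟨_, rfl⟩
  have hgoal : (fun z => Complex.exp (-(2 * (p : ℂ)) * Complex.log (1 - z))) =
      fun z => Complex.exp (L z) := by rw [hL]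
  rw [← hL] at hC
  rw [hgoal]
  refine ⟨hC.diff.cexp, fun R hR => ?_⟩
  have h1 := hC.area (Real.log R)
  have hR2 : Real.exp (2 * Real.log R) = R ^ 2 := by
    rw [two_mul, Real.exp_add, Real.exp_log hR, sq]
  rw [hR2] at h1
  refine le_trans (le_of_eq ?_) h1
  have hset : {z | z ∈ ball (0 : ℂ) 1 ∧ 0 ≤ ‖Complex.exp (L z)‖ ∧ ‖Complex.exp (L z)‖ < R} =
      {z | z ∈ ball (0 : ℂ) 1 ∧ (L z).re < Real.log R} := by
    ext z
    simp only [Set.mem_ofPred_eq, Complex.norm_exp]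
    constructor
    · rintro ⟨h2, -, h3⟩
      exact ⟨h2, (Real.lt_log_iff_exp_lt hR).mpr h3⟩
    · rintro ⟨h2, h3⟩
      exact ⟨h2, (Real.exp_pos _).le, (Real.lt_log_iff_exp_lt hR).mp h3⟩
  have hm : MeasurableSet {z | z ∈ ball (0 : ℂ) 1 ∧ (L z).re < Real.log R} := by
    have hcont : ContinuousOn (fun z => (L z).re) (ball (0 : ℂ) 1) :=
      Complex.continuous_re.comp_continuousOn hC.diff.continuousOn
    exact (hcont.isOpen_inter_preimage isOpen_ball isOpen_Iio).measurableSet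
  unfold ar
  rw [hset]
  refine setLIntegral_congr_fun hm fun z hz => ?_
  have hd : DifferentiableAt ℂ L z := hC.diff.differentiableAt (isOpen_ball.mem_nhds hz.1)
  have h2 : deriv (fun z => Complex.exp (L z)) z = Complex.exp (L z) * deriv L z :=
    hd.hasDerivAt.cexp.deriv
  show ENNReal.ofReal (‖deriv (fun z => Complex.exp (L z)) z‖ ^ 2) = _
  rw [h2, norm_mul, Complex.norm_exp, mul_pow, two_mul, Real.exp_add, sq (Real.exp _)]

private lemma exa_deriv' (a : ℂ) {z : ℂ} (hz : 0 < (1 - z).re) :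
    HasDerivAt (fun z => -a * Complex.log (1 - z)) (a / (1 - z)) z := by
  have h1 : HasDerivAt (fun z : ℂ => 1 - z) (-1) z := by
    simpa using (hasDerivAt_id z).const_sub 1
  have h2 := (h1.clog (Or.inl hz)).const_mul (-a)
  refine HasDerivAt.congr_deriv h2 ?_
  ring

private lemma exa_exp_deriv' (a b : ℂ) {z : ℂ} (hz : 0 < (1 - z).re) :
    HasDerivAt (fun z => a * Complex.exp (-b * Complex.log (1 - z)))
      (a * b * Complex.exp (-(b + 1) * Complex.log (1 - z))) z := by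
  have h1 := ((exa_deriv' b hz).cexp).const_mul a
  refine HasDerivAt.congr_deriv h1 ?_
  have hne : 1 - z ≠ 0 := Complex.slitPlane_ne_zero (Or.inl hz)
  have h2 : -(b + 1) * Complex.log (1 - z) = -b * Complex.log (1 - z) - Complex.log (1 - z) := by
    ring
  rw [h2, Complex.exp_sub, Complex.exp_log hne]
  field_simp

private lemma exa_iter' (a : ℂ) (k : ℕ) : ∀ z : ℂ, 0 < (1 - z).re →
    iteratedDeriv k (fun z => Complex.exp (-a * Complex.log (1 - z))) z =
      (∏ j ∈ Finset.range k, (a + j)) * Complex.exp (-(a + k) * Complex.log (1 - z)) := by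
  induction k with
  | zero => intro z _; simp
  | succ k ih =>
    intro z hz
    rw [iteratedDeriv_succ]
    have hopen : IsOpen {z : ℂ | 0 < (1 - z).re} :=
      isOpen_lt continuous_const (Complex.continuous_re.comp (continuous_const.sub continuous_id))
    have h1 : iteratedDeriv k (fun z => Complex.exp (-a * Complex.log (1 - z))) =ᶠ[nhds z]
        fun z => (∏ j ∈ Finset.range k, (a + j)) * Complex.exp (-(a + k) * Complex.log (1 - z)) := by
      filter_upwards [hopen.mem_nhds hz] with w hw using ih w hw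
    rw [h1.deriv_eq, (exa_exp_deriv' _ _ hz).deriv, Finset.prod_range_succ]
    push_cast
    rw [add_assoc a]

theorem exm_coef {p : ℝ} (hp : 0 < p) (n : ℕ) :
    MPV.coef (fun z => Complex.exp (-(2 * p) * Complex.log (1 - z))) n =
      ((∏ j ∈ Finset.range n, (2 * p + j) / ((j : ℝ) + 1) : ℝ) : ℂ) := by
  have _ := hp
  unfold MPV.coef
  rw [exa_iter' (2 * p) n 0 (by simp)]
  rw [sub_zero, Complex.log_one, mul_zero, Complex.exp_zero, mul_one,
    ← Finset.prod_range_add_one_eq_factorial]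
  push_cast
  rw [← Finset.prod_div_distrib]

theorem exm_lower {s : ℝ} (hs : 0 < s) : ∃ c : ℝ, 0 < c ∧ ∀ n : ℕ, 1 ≤ n →
    c * (n : ℝ) ^ (s - 1) ≤ ∏ j ∈ Finset.range n, (s + j) / ((j : ℝ) + 1) := by
  obtain ⟨B₀, hB₀⟩ := (Real.GammaSeq_tendsto_Gamma s).bddAbove_range
  obtain ⟨B, hB, hBpos⟩ : ∃ B : ℝ, (∀ n, Real.GammaSeq s n ≤ B) ∧ 0 < B :=
    ⟨max B₀ 1, fun n => (hB₀ ⟨n, rfl⟩).trans (le_max_left _ _), lt_max_of_lt_right one_pos⟩
  refine ⟨1 / ((s + 1) * B), by positivity, fun n hn => ?_⟩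
  have hn0 : (0 : ℝ) < n := by exact_mod_cast hn
  have hn1 : (1 : ℝ) ≤ n := by exact_mod_cast hn
  have hfac : (0 : ℝ) < (n.factorial : ℝ) := by exact_mod_cast n.factorial_pos
  have hP : (∏ j ∈ Finset.range n, (s + j) / ((j : ℝ) + 1)) =
      (∏ j ∈ Finset.range n, (s + j)) / n.factorial := by
    rw [Finset.prod_div_distrib, ← Finset.prod_range_add_one_eq_factorial]
    push_cast
    rfl
  have hQpos : 0 < ∏ j ∈ Finset.range n, (s + j) := Finset.prod_pos fun j _ => by positivity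
  set Q : ℝ := ∏ j ∈ Finset.range n, (s + j) with hQ
  have hG : Real.GammaSeq s n = (n : ℝ) ^ s * n.factorial / (Q * (s + n)) := by
    unfold Real.GammaSeq
    rw [Finset.prod_range_succ]
  have h1 := hB n
  rw [hG, div_le_iff₀ (by positivity)] at h1
  rw [hP, Real.rpow_sub_one hn0.ne', le_div_iff₀ hfac]
  have h2 : Q * (s + n) ≤ Q * ((s + 1) * n) := by
    apply mul_le_mul_of_nonneg_left _ hQpos.le
    nlinarith
  have h3 : (n : ℝ) ^ s * n.factorial ≤ B * (Q * ((s + 1) * n)) :=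
    h1.trans (mul_le_mul_of_nonneg_left h2 hBpos.le)
  have h4 : 1 / ((s + 1) * B) * ((n : ℝ) ^ s / n) * n.factorial =
      ((n : ℝ) ^ s * n.factorial) / (B * ((s + 1) * n)) := by
    field_simp
  rw [h4, div_le_iff₀ (by positivity)]
  linarith

theorem A_lower {p : ℝ} (hp : 0 < p) : ∃ c : ℝ, 0 < c ∧ ∀ n : ℕ, 1 ≤ n →
    ENNReal.ofReal (c * (n : ℝ) ^ (2 * p - 1)) ≤ MPV.A p n := by
  obtain ⟨c, hc, hc'⟩ := exm_lower (s := 2 * p) (by positivity)
  have hf := exm_mv hp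
  obtain ⟨f, hfdef⟩ : ∃ f : ℂ → ℂ,
      f = fun z => Complex.exp (-(2 * (p : ℂ)) * Complex.log (1 - z)) := ⟨_, rfl⟩
  have hcoef : ∀ n : ℕ, MPV.coef f n =
      ((∏ j ∈ Finset.range n, (2 * p + j) / ((j : ℝ) + 1) : ℝ) : ℂ) := by
    intro n
    rw [hfdef]
    exact exm_coef hp n
  rw [← hfdef] at hf
  have hmu : 0 < MPV.mu p f := by
    have h1 : ‖MPV.coef f ((0 : Fin (⌊p⌋₊ + 1)) : ℕ)‖ ≤ MPV.mu p f :=
      le_ciSup (f := fun ν : Fin (⌊p⌋₊ + 1) => ‖MPV.coef f ν‖) (Set.finite_range _).bddAbove 0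
    refine lt_of_lt_of_le ?_ h1
    rw [hcoef]
    simp
  refine ⟨(MPV.mu p f)⁻¹ * c, by positivity, fun n hn => ?_⟩
  have hmem := smul_mem_S hp.le hf hmu
  refine le_trans ?_ (le_iSup₂_of_le (f := fun g (_ : g ∈ MPV.S p) =>
    ENNReal.ofReal ‖MPV.coef g n‖) _ hmem le_rfl)
  apply ENNReal.ofReal_le_ofReal
  rw [coef_const_mul' _ hf.diff, norm_mul, Complex.norm_real,
    Real.norm_of_nonneg (inv_nonneg.mpr hmu.le), hcoef, Complex.norm_real, mul_assoc]
  exact mul_le_mul_of_nonneg_left ((hc' n hn).trans (le_abs_self _)) (inv_nonneg.mpr hmu.le)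

end MQV
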