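import Pool.Agent.MQV.Cmp

set_option autoImplicit false

/-!
# MQV DFC : the weighted identity on a rectangle of the strip

`x₀ + 1 ≤ T`.  Trapezoid weight `w(ξ) = 0` for `ξ ≤ x₀` or `ξ ≥ T+1`, `= ξ - x₀` on `[x₀, x₀+1]`,
`= 1` on `[x₀+1, T]`, `= T + 1 - ξ` on `[T, T+1]`.  With `v = lv F a b` (smooth, values in
`[log a, log b]`), `∂_ξ v = Re (dv F a b)`, and for each height `η`:
`∫ w ∂_ξ v dξ = ∫_T^{T+1} v - ∫_{x₀}^{x₀+1} v = (log b - log a) - ∫_T^{T+1} (log b - v) - ∫_{x₀}^{x₀+1} (v - log a)`.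
Integrate over `|η| < π/2` (all integrands are integrable: `v` is bounded, `dv ∈ L²` of a set of
finite measure): with `c₁, c₂` the bounds of the two end integrals and `L = log (b/a)`
`∫∫ w ∂_ξ v ≥ π L - c₁ - c₂`.

* `strip_lower` : Cauchy-Schwarz, `∫∫ w² ≤ π (T + 1 - x₀)`.
* `strip_deficit` :
  `∫∫_{x₀+1<ξ<T} |dv - 2p|² ≤ ∫∫ w |dv - 2p|² = ∫∫ w |dv|² - 4p ∫∫ w ∂_ξ v + 4p² π (T - x₀)
     ≤ E - 4p (π L - c₁ - c₂) + 4 p² π (T - x₀)` (`∫ w = T - x₀`); in particular the right hand side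
  is `≥ 0`.
-/

open MeasureTheory Metric Set

namespace MQV

/-- open rectangle of the strip -/
private def Rc (x y : ℝ) : Set ℂ := {ζ | ζ ∈ Str ∧ x < ζ.re ∧ ζ.re < y}

private theorem Rc_eq (x y : ℝ) : Rc x y = Complex.measurableEquivRealProd ⁻¹'
    (Ioo x y ×ˢ Ioo (-(Real.pi / 2)) (Real.pi / 2)) := by
  ext ζ
  simp only [Rc, Str, mem_ofPred_eq, mem_preimage, mem_prod, mem_Ioo, abs_lt,
    Complex.measurableEquivRealProd_apply]
  tauto

private theorem Rc_meas (x y : ℝ) : MeasurableSet (Rc x y) := by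
  rw [Rc_eq]
  exact Complex.measurableEquivRealProd.measurable (measurableSet_Ioo.prod measurableSet_Ioo)

private theorem Rc_mp (x y : ℝ) : MeasurePreserving Complex.measurableEquivRealProd
    (volume.restrict (Rc x y))
    ((volume.restrict (Ioo x y)).prod (volume.restrict (Ioo (-(Real.pi / 2)) (Real.pi / 2)))) := by
  rw [Rc_eq, Measure.prod_restrict, ← Measure.volume_eq_prod]
  exact Complex.volume_preserving_equiv_real_prod.restrict_preimage
    (measurableSet_Ioo.prod measurableSet_Ioo)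

private theorem reim (ζ : ℂ) : ((Complex.measurableEquivRealProd ζ).1 : ℂ) +
    ((Complex.measurableEquivRealProd ζ).2 : ℂ) * Complex.I = ζ := by
  simp [Complex.measurableEquivRealProd_apply, Complex.re_add_im]

private theorem Rc_fubini {x y : ℝ} {f : ℂ → ℝ} (hf : IntegrableOn f (Rc x y)) :
    ∫ ζ in Rc x y, f ζ = ∫ η in Ioo (-(Real.pi / 2)) (Real.pi / 2), ∫ ξ in Ioo x y,
      f (ξ + η * Complex.I) := by
  have h1 : ∫ ζ in Rc x y, f ζ = ∫ p, f ((p.1 : ℂ) + (p.2 : ℂ) * Complex.I)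
      ∂((volume.restrict (Ioo x y)).prod (volume.restrict (Ioo (-(Real.pi / 2)) (Real.pi / 2)))) := by
    rw [← (Rc_mp x y).integral_comp' (fun p : ℝ × ℝ => f ((p.1 : ℂ) + (p.2 : ℂ) * Complex.I))]
    refine integral_congr_ae (ae_of_all _ fun ζ => ?_)
    simp only [reim]
  have h2 : Integrable (fun p : ℝ × ℝ => f ((p.1 : ℂ) + (p.2 : ℂ) * Complex.I))
      ((volume.restrict (Ioo x y)).prod (volume.restrict (Ioo (-(Real.pi / 2)) (Real.pi / 2)))) := by
    rw [← (Rc_mp x y).integrable_comp_emb Complex.measurableEquivRealProd.measurableEmbedding]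
    refine Integrable.congr hf (ae_of_all _ fun ζ => ?_)
    simp only [Function.comp, reim]
  rw [h1, integral_prod_symm _ h2]

private theorem Rc_vol {x y : ℝ} (hxy : x ≤ y) :
    volume (Rc x y) = ENNReal.ofReal (Real.pi * (y - x)) := by
  have h := (Rc_mp x y).measure_preimage (s := univ) (MeasurableSet.univ.nullMeasurableSet)
  rw [preimage_univ, Measure.restrict_apply_univ, ← univ_prod_univ, Measure.prod_prod,
    Measure.restrict_apply_univ,
    Measure.restrict_apply_univ, Real.volume_Ioo, Real.volume_Ioo,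
    ← ENNReal.ofReal_mul (by linarith)] at h
  rw [h]
  congr 1
  ring

private theorem trap {u u' : ℝ → ℝ} (hu : ∀ x, HasDerivAt u (u' x) x) (hc : Continuous u')
    {x₀ T : ℝ} (hT : x₀ + 1 ≤ T) :
    ∫ ξ in x₀..(T + 1), min 1 (min (ξ - x₀) (T + 1 - ξ)) * u' ξ =
      (∫ ξ in T..(T + 1), u ξ) - ∫ ξ in x₀..(x₀ + 1), u ξ := by
  have hcw : Continuous fun ξ : ℝ => min 1 (min (ξ - x₀) (T + 1 - ξ)) * u' ξ := by fun_prop
  have hi : ∀ a b : ℝ, IntervalIntegrable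
      (fun ξ : ℝ => min 1 (min (ξ - x₀) (T + 1 - ξ)) * u' ξ) volume a b :=
    fun a b => hcw.intervalIntegrable a b
  rw [← intervalIntegral.integral_add_adjacent_intervals (hi x₀ (x₀ + 1)) (hi (x₀ + 1) (T + 1)),
    ← intervalIntegral.integral_add_adjacent_intervals (hi (x₀ + 1) T) (hi T (T + 1))]
  have e1 : ∫ ξ in x₀..(x₀ + 1), min 1 (min (ξ - x₀) (T + 1 - ξ)) * u' ξ =
      u (x₀ + 1) - ∫ ξ in x₀..(x₀ + 1), u ξ := by
    have h1 : ∫ ξ in x₀..(x₀ + 1), min 1 (min (ξ - x₀) (T + 1 - ξ)) * u' ξ =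
        ∫ ξ in x₀..(x₀ + 1), (ξ - x₀) * u' ξ := by
      refine intervalIntegral.integral_congr fun ξ hξ => ?_
      rw [uIcc_of_le (by linarith)] at hξ
      have h2 : min (ξ - x₀) (T + 1 - ξ) = ξ - x₀ := min_eq_left (by linarith [hξ.1, hξ.2])
      simp only [h2]
      rw [min_eq_right (by linarith [hξ.1, hξ.2])]
    rw [h1, intervalIntegral.integral_mul_deriv_eq_deriv_mul (u := fun ξ : ℝ => ξ - x₀)
      (u' := fun _ => 1) (v := u) (v' := u') (fun x _ => (hasDerivAt_id x).sub_const x₀)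
      (fun x _ => hu x) (continuous_const.intervalIntegrable _ _) (hc.intervalIntegrable _ _)]
    simp
  have e2 : ∫ ξ in (x₀ + 1)..T, min 1 (min (ξ - x₀) (T + 1 - ξ)) * u' ξ = u T - u (x₀ + 1) := by
    rw [← intervalIntegral.integral_eq_sub_of_hasDerivAt (fun x _ => hu x)
      (hc.intervalIntegrable _ _)]
    refine intervalIntegral.integral_congr fun ξ hξ => ?_
    rw [uIcc_of_le hT] at hξ
    have h2 : min 1 (min (ξ - x₀) (T + 1 - ξ)) = 1 :=
      min_eq_left (le_min (by linarith [hξ.1]) (by linarith [hξ.2]))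
    simp only [h2, one_mul]
  have e3 : ∫ ξ in T..(T + 1), min 1 (min (ξ - x₀) (T + 1 - ξ)) * u' ξ =
      -u T + ∫ ξ in T..(T + 1), u ξ := by
    have h1 : ∫ ξ in T..(T + 1), min 1 (min (ξ - x₀) (T + 1 - ξ)) * u' ξ =
        ∫ ξ in T..(T + 1), (T + 1 - ξ) * u' ξ := by
      refine intervalIntegral.integral_congr fun ξ hξ => ?_
      rw [uIcc_of_le (by linarith)] at hξ
      have h2 : min (ξ - x₀) (T + 1 - ξ) = T + 1 - ξ := min_eq_right (by linarith [hξ.1, hξ.2])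
      simp only [h2]
      rw [min_eq_right (by linarith [hξ.1, hξ.2])]
    rw [h1, intervalIntegral.integral_mul_deriv_eq_deriv_mul (u := fun ξ : ℝ => T + 1 - ξ)
      (u' := fun _ => -1) (v := u) (v' := u') (fun x _ => by
        simpa using (hasDerivAt_id x).const_sub (T + 1))
      (fun x _ => hu x) (continuous_const.intervalIntegrable _ _) (hc.intervalIntegrable _ _)]
    simp
  rw [e1, e2, e3]
  ring

private theorem lv_hasDerivAt {F : ℂ → ℂ} (hF : DifferentiableOn ℂ F Str) {a b : ℝ} (ha : 0 < a)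
    (hb : 0 < b) {η : ℝ} (hη : |η| < Real.pi / 2) (ξ : ℝ) :
    HasDerivAt (fun ξ : ℝ => lv F a b (ξ + η * Complex.I))
      (dv F a b (ξ + η * Complex.I)).re ξ := by
  have hmem : ((ξ : ℂ) + η * Complex.I) ∈ Str := by
    simpa [Str] using hη
  have hFd : HasDerivAt F (deriv F (ξ + η * Complex.I)) (ξ + η * Complex.I) :=
    (hF.differentiableAt (isOpen_Str.mem_nhds hmem)).hasDerivAt
  have h1 : HasDerivAt (fun z : ℂ => F (z + η * Complex.I)) (deriv F (ξ + η * Complex.I)) (ξ : ℂ) := by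
    have := HasDerivAt.comp_add_const (ξ : ℂ) (η * Complex.I) hFd
    exact this
  have h2 : HasDerivAt (fun t : ℝ => F (t + η * Complex.I)) (deriv F (ξ + η * Complex.I)) ξ :=
    h1.comp_ofReal
  have h3 := h2.norm_sq
  set z : ℂ := (ξ : ℂ) + η * Complex.I with hz
  set q : ℝ := 2 * inner ℝ (F z) (deriv F z) with hq
  have h4 : HasDerivAt (fun t : ℝ => ‖F (t + η * Complex.I)‖ ^ 2) q ξ := h3
  have ha2 : a ^ 2 + ‖F z‖ ^ 2 ≠ 0 := by positivity
  have hb2 : 1 + ‖F z‖ ^ 2 / b ^ 2 ≠ 0 := by positivity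
  have hb3 : b ^ 2 + ‖F z‖ ^ 2 ≠ 0 := by positivity
  have h5 := ((h4.const_add (a ^ 2)).log ha2).div_const 2
  have h6 := ((((h4.div_const (b ^ 2)).const_add 1).log hb2).div_const 2)
  have h7 := h5.sub h6
  refine h7.congr_deriv ?_
  have hinner : q = 2 * (deriv F z * (starRingEnd ℂ) (F z)).re := by
    rw [hq, Complex.inner]
  have hdv : (dv F a b z).re = (deriv F z * (starRingEnd ℂ) (F z)).re *
      (1 / (a ^ 2 + ‖F z‖ ^ 2) - 1 / (b ^ 2 + ‖F z‖ ^ 2)) := by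
    rw [dv, Complex.re_mul_ofReal]
  rw [hdv, hinner, ← hz]
  set s : ℝ := ‖F z‖ ^ 2 with hs
  set m : ℝ := (deriv F z * (starRingEnd ℂ) (F z)).re with hm
  have hb0 : b ≠ 0 := hb.ne'
  have e1 : 1 + s / b ^ 2 = (b ^ 2 + s) / b ^ 2 := by
    field_simp
  rw [e1]
  have e2 : 2 * m / b ^ 2 / ((b ^ 2 + s) / b ^ 2) / 2 = m * (1 / (b ^ 2 + s)) := by
    field_simp
  rw [e2]
  ring

private theorem lv_bounds {F : ℂ → ℂ} {a b : ℝ} (ha : 0 < a) (hab : a ≤ b) (ζ : ℂ) :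
    Real.log a ≤ lv F a b ζ ∧ lv F a b ζ ≤ Real.log b := by
  have hb : 0 < b := ha.trans_le hab
  set s : ℝ := ‖F ζ‖ ^ 2 with hs
  have hs0 : 0 ≤ s := by positivity
  have h1 : lv F a b ζ = Real.log ((a ^ 2 + s) / (1 + s / b ^ 2)) / 2 := by
    rw [lv, Real.log_div (by positivity) (by positivity)]
    ring
  have h2 : Real.log a = Real.log (a ^ 2) / 2 := by
    rw [Real.log_pow]; push_cast; ring
  have h3 : Real.log b = Real.log (b ^ 2) / 2 := by
    rw [Real.log_pow]; push_cast; ring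
  have hab2 : a ^ 2 ≤ b ^ 2 := pow_le_pow_left₀ ha.le hab 2
  have h4 : 0 < 1 + s / b ^ 2 := by positivity
  rw [h1, h2, h3]
  constructor
  · refine div_le_div_of_nonneg_right (Real.log_le_log (by positivity) ?_) zero_le_two
    rw [le_div_iff₀ h4]
    have : a ^ 2 * (s / b ^ 2) ≤ s := by
      rw [← mul_div_assoc, div_le_iff₀ (by positivity)]
      nlinarith
    linarith
  · refine div_le_div_of_nonneg_right (Real.log_le_log (by positivity) ?_) zero_le_two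
    rw [div_le_iff₀ h4]
    have : b ^ 2 * (s / b ^ 2) = s := by
      field_simp
    nlinarith

private theorem dv_cont {F : ℂ → ℂ} (hF : DifferentiableOn ℂ F Str) {a b : ℝ} (ha : 0 < a)
    (hb : 0 < b) : ContinuousOn (dv F a b) Str := by
  have h1 : ContinuousOn F Str := hF.continuousOn
  have h2 : ContinuousOn (deriv F) Str := (hF.deriv isOpen_Str).continuousOn
  unfold dv
  refine (h2.mul (Complex.continuous_conj.comp_continuousOn h1)).mul
    (Complex.continuous_ofReal.comp_continuousOn ?_)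
  refine ContinuousOn.sub (continuousOn_const.div (continuousOn_const.add (h1.norm.pow 2))
    (fun z _ => by positivity)) (continuousOn_const.div (continuousOn_const.add (h1.norm.pow 2))
    (fun z _ => by positivity))

private theorem lv_cont {F : ℂ → ℂ} (hF : DifferentiableOn ℂ F Str) {a b : ℝ} (ha : 0 < a)
    (hb : 0 < b) : ContinuousOn (lv F a b) Str := by
  have h1 : ContinuousOn F Str := hF.continuousOn
  unfold lv
  have e1 : ContinuousOn (fun ζ => Real.log (a ^ 2 + ‖F ζ‖ ^ 2)) Str :=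
    ContinuousOn.log (continuousOn_const.add (h1.norm.pow 2)) (fun z _ => by
      have : 0 < a ^ 2 + ‖F z‖ ^ 2 := by positivity
      exact this.ne')
  have e2 : ContinuousOn (fun ζ => Real.log (1 + ‖F ζ‖ ^ 2 / b ^ 2)) Str :=
    ContinuousOn.log (continuousOn_const.add ((h1.norm.pow 2).div_const (b ^ 2))) (fun z _ => by
      have : 0 < 1 + ‖F z‖ ^ 2 / b ^ 2 := by positivity
      exact this.ne')
  exact (e1.div_const 2).sub (e2.div_const 2)

private theorem Rc_sub (x y : ℝ) : Rc x y ⊆ Str := fun _ h => h.1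

private theorem dv_sq_int {F : ℂ → ℂ} (hF : DifferentiableOn ℂ F Str) {a b : ℝ} (ha : 0 < a)
    (hb : 0 < b) {x y E : ℝ}
    (h3 : ∫⁻ ζ in Rc x y, ENNReal.ofReal (‖dv F a b ζ‖ ^ 2) ≤ ENNReal.ofReal E) :
    IntegrableOn (fun ζ => ‖dv F a b ζ‖ ^ 2) (Rc x y) := by
  have hc : ContinuousOn (fun ζ => ‖dv F a b ζ‖ ^ 2) (Rc x y) :=
    ((dv_cont hF ha hb).mono (Rc_sub x y)).norm.pow 2
  refine ⟨hc.aestronglyMeasurable (Rc_meas x y), ?_⟩
  rw [hasFiniteIntegral_iff_ofReal (ae_of_all _ fun ζ => by positivity)]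
  exact lt_of_le_of_lt h3 ENNReal.ofReal_lt_top

private theorem dv_int {F : ℂ → ℂ} (hF : DifferentiableOn ℂ F Str) {a b : ℝ} (ha : 0 < a)
    (hb : 0 < b) {x y E : ℝ} (hxy : x ≤ y)
    (h3 : ∫⁻ ζ in Rc x y, ENNReal.ofReal (‖dv F a b ζ‖ ^ 2) ≤ ENNReal.ofReal E) :
    IntegrableOn (dv F a b) (Rc x y) := by
  have hfin : volume (Rc x y) ≠ ⊤ := by
    rw [Rc_vol hxy]; exact ENNReal.ofReal_ne_top
  have h1 := dv_sq_int hF ha hb h3
  have h2 : IntegrableOn (fun ζ => 1 + ‖dv F a b ζ‖ ^ 2) (Rc x y) :=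
    (integrableOn_const hfin).add h1
  refine Integrable.mono' h2 (((dv_cont hF ha hb).mono (Rc_sub x y)).aestronglyMeasurable
    (Rc_meas x y)) (ae_of_all _ fun ζ => ?_)
  nlinarith [sq_nonneg (‖dv F a b ζ‖ - 1 / 2)]

private theorem wt_bound {x₀ T ξ : ℝ} (h1 : x₀ < ξ) (h2 : ξ < T + 1) :
    0 ≤ min 1 (min (ξ - x₀) (T + 1 - ξ)) ∧ min 1 (min (ξ - x₀) (T + 1 - ξ)) ≤ 1 :=
  ⟨le_min zero_le_one (le_min (by linarith) (by linarith)), min_le_left _ _⟩

private theorem wt_mul_int {x₀ T : ℝ} {g : ℂ → ℝ} (hg : IntegrableOn g (Rc x₀ (T + 1))) :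
    IntegrableOn (fun ζ => min 1 (min (ζ.re - x₀) (T + 1 - ζ.re)) * g ζ) (Rc x₀ (T + 1)) := by
  have hc : Continuous fun ζ : ℂ => min 1 (min (ζ.re - x₀) (T + 1 - ζ.re)) := by fun_prop
  refine Integrable.mono' hg.norm (hc.aestronglyMeasurable.mul hg.aestronglyMeasurable)
    ((ae_restrict_iff' (Rc_meas _ _)).2 (ae_of_all _ fun ζ hζ => ?_))
  obtain ⟨h1, h2⟩ := wt_bound hζ.2.1 hζ.2.2
  rw [norm_mul, Real.norm_eq_abs, abs_of_nonneg h1]
  exact mul_le_of_le_one_left (norm_nonneg _) h2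

private theorem wt_int {x₀ T : ℝ} (hT : x₀ + 1 ≤ T) :
    ∫ ζ in Rc x₀ (T + 1), min 1 (min (ζ.re - x₀) (T + 1 - ζ.re)) = Real.pi * (T - x₀) := by
  have hfin : volume (Rc x₀ (T + 1)) ≠ ⊤ := by
    rw [Rc_vol (by linarith)]; exact ENNReal.ofReal_ne_top
  have h1 : IntegrableOn (fun ζ : ℂ => min 1 (min (ζ.re - x₀) (T + 1 - ζ.re)))
      (Rc x₀ (T + 1)) := by
    simpa using wt_mul_int (x₀ := x₀) (T := T) (g := fun _ => (1 : ℝ)) (integrableOn_const hfin)
  rw [Rc_fubini h1]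
  have h2 : ∀ η : ℝ, ∫ ξ in Ioo x₀ (T + 1), min 1 (min (((ξ : ℂ) + η * Complex.I).re - x₀)
      (T + 1 - ((ξ : ℂ) + η * Complex.I).re)) = T - x₀ := by
    intro η
    have h3 := trap (u := fun ξ => ξ) (u' := fun _ => 1) (fun x => hasDerivAt_id x)
      continuous_const hT
    simp only [mul_one, integral_id] at h3
    rw [← integral_Ioc_eq_integral_Ioo, ← intervalIntegral.integral_of_le (by linarith)]
    simp only [Complex.add_re, Complex.ofReal_re, Complex.mul_re, Complex.I_re, mul_zero,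
      Complex.ofReal_im, Complex.I_im, mul_one, sub_self, add_zero]
    rw [h3]
    ring
  simp only [h2]
  rw [integral_const, smul_eq_mul]
  simp only [Measure.real, Measure.restrict_apply_univ, Real.volume_Ioo]
  rw [ENNReal.toReal_ofReal (by linarith [Real.pi_pos])]
  ring

theorem strip_key {F : ℂ → ℂ} (hF : DifferentiableOn ℂ F Str) {a b x₀ T c₁ c₂ E : ℝ} (ha : 0 < a)
    (hab : a ≤ b) (hT : x₀ + 1 ≤ T) (hc₁ : 0 ≤ c₁) (hc₂ : 0 ≤ c₂) (hE : 0 ≤ E)
    (h1 : ∫⁻ ζ in {ζ | ζ ∈ Str ∧ x₀ < ζ.re ∧ ζ.re < x₀ + 1},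
      ENNReal.ofReal (lv F a b ζ - Real.log a) ≤ ENNReal.ofReal c₁)
    (h2 : ∫⁻ ζ in {ζ | ζ ∈ Str ∧ T < ζ.re ∧ ζ.re < T + 1},
      ENNReal.ofReal (Real.log b - lv F a b ζ) ≤ ENNReal.ofReal c₂)
    (h3 : ∫⁻ ζ in {ζ | ζ ∈ Str ∧ x₀ < ζ.re ∧ ζ.re < T + 1},
      ENNReal.ofReal (‖dv F a b ζ‖ ^ 2) ≤ ENNReal.ofReal E) :
    Real.pi * Real.log (b / a) - c₁ - c₂ ≤
      ∫ ζ in {ζ | ζ ∈ Str ∧ x₀ < ζ.re ∧ ζ.re < T + 1},
        min 1 (min (ζ.re - x₀) (T + 1 - ζ.re)) * (dv F a b ζ).re := by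
  have hb : 0 < b := ha.trans_le hab
  change ∫⁻ ζ in Rc x₀ (x₀ + 1), _ ≤ _ at h1
  change ∫⁻ ζ in Rc T (T + 1), _ ≤ _ at h2
  change ∫⁻ ζ in Rc x₀ (T + 1), _ ≤ _ at h3
  change _ ≤ ∫ ζ in Rc x₀ (T + 1), _
  have hbd : ∀ x y : ℝ, x ≤ y → ∀ g : ℂ → ℝ, ContinuousOn g Str →
      (∀ ζ, 0 ≤ g ζ ∧ g ζ ≤ Real.log b - Real.log a) → IntegrableOn g (Rc x y) := by
    intro x y hxy g hg hgb
    have hfin : volume (Rc x y) ≠ ⊤ := by
      rw [Rc_vol hxy]; exact ENNReal.ofReal_ne_top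
    refine Integrable.mono' (g := fun _ => Real.log b - Real.log a) (integrableOn_const hfin)
      ((hg.mono (Rc_sub x y)).aestronglyMeasurable (Rc_meas x y)) (ae_of_all _ fun ζ => ?_)
    rw [Real.norm_eq_abs, abs_of_nonneg (hgb ζ).1]
    exact (hgb ζ).2
  have hg1c : ContinuousOn (fun ζ => Real.log b - lv F a b ζ) Str :=
    continuousOn_const.sub (lv_cont hF ha hb)
  have hg2c : ContinuousOn (fun ζ => lv F a b ζ - Real.log a) Str :=
    (lv_cont hF ha hb).sub continuousOn_const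
  have hb1 : ∀ ζ, 0 ≤ Real.log b - lv F a b ζ ∧
      Real.log b - lv F a b ζ ≤ Real.log b - Real.log a := fun ζ => by
    have := lv_bounds (F := F) ha hab ζ
    constructor <;> linarith [this.1, this.2]
  have hb2 : ∀ ζ, 0 ≤ lv F a b ζ - Real.log a ∧
      lv F a b ζ - Real.log a ≤ Real.log b - Real.log a := fun ζ => by
    have := lv_bounds (F := F) ha hab ζ
    constructor <;> linarith [this.1, this.2]
  -- real forms of the two end estimates
  have hr1 : ∫ ζ in Rc x₀ (x₀ + 1), (lv F a b ζ - Real.log a) ≤ c₁ := by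
    rw [← ofReal_integral_eq_lintegral_ofReal (hbd _ _ (by linarith) _ hg2c hb2)
      (ae_of_all _ fun ζ => (hb2 ζ).1)] at h1
    exact (ENNReal.ofReal_le_ofReal_iff hc₁).1 h1
  have hr2 : ∫ ζ in Rc T (T + 1), (Real.log b - lv F a b ζ) ≤ c₂ := by
    rw [← ofReal_integral_eq_lintegral_ofReal (hbd _ _ (by linarith) _ hg1c hb1)
      (ae_of_all _ fun ζ => (hb1 ζ).1)] at h2
    exact (ENNReal.ofReal_le_ofReal_iff hc₂).1 h2
  have hdi := dv_int hF ha hb (by linarith : x₀ ≤ T + 1) h3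
  have hdre : IntegrableOn (fun ζ => (dv F a b ζ).re) (Rc x₀ (T + 1)) := hdi.re
  have hw := wt_mul_int hdre
  -- the two end functions on the whole rectangle
  have hsub1 : Rc T (T + 1) ⊆ Rc x₀ (T + 1) := fun ζ h => ⟨h.1, by linarith [h.2.1], h.2.2⟩
  have hsub2 : Rc x₀ (x₀ + 1) ⊆ Rc x₀ (T + 1) := fun ζ h => ⟨h.1, h.2.1, by linarith [h.2.2]⟩
  have hi1 : IntegrableOn ((Rc T (T + 1)).indicator (fun ζ => Real.log b - lv F a b ζ))
      (Rc x₀ (T + 1)) := (hbd x₀ (T + 1) (by linarith) _ hg1c hb1).indicator (Rc_meas _ _)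
  have hi2 : IntegrableOn ((Rc x₀ (x₀ + 1)).indicator (fun ζ => lv F a b ζ - Real.log a))
      (Rc x₀ (T + 1)) := (hbd x₀ (T + 1) (by linarith) _ hg2c hb2).indicator (Rc_meas _ _)
  have hI1 : ∫ ζ in Rc x₀ (T + 1),
      (Rc T (T + 1)).indicator (fun ζ => Real.log b - lv F a b ζ) ζ =
      ∫ ζ in Rc T (T + 1), (Real.log b - lv F a b ζ) := by
    rw [setIntegral_indicator (Rc_meas _ _), inter_eq_self_of_subset_right hsub1]
  have hI2 : ∫ ζ in Rc x₀ (T + 1),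
      (Rc x₀ (x₀ + 1)).indicator (fun ζ => lv F a b ζ - Real.log a) ζ =
      ∫ ζ in Rc x₀ (x₀ + 1), (lv F a b ζ - Real.log a) := by
    rw [setIntegral_indicator (Rc_meas _ _), inter_eq_self_of_subset_right hsub2]
  -- the sum
  have hsum : ∫ ζ in Rc x₀ (T + 1),
      ((min 1 (min (ζ.re - x₀) (T + 1 - ζ.re)) * (dv F a b ζ).re +
        (Rc T (T + 1)).indicator (fun ζ => Real.log b - lv F a b ζ) ζ) +
        (Rc x₀ (x₀ + 1)).indicator (fun ζ => lv F a b ζ - Real.log a) ζ) =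
      Real.pi * Real.log (b / a) := by
    have hint : IntegrableOn (fun ζ =>
        ((min 1 (min (ζ.re - x₀) (T + 1 - ζ.re)) * (dv F a b ζ).re +
        (Rc T (T + 1)).indicator (fun ζ => Real.log b - lv F a b ζ) ζ) +
        (Rc x₀ (x₀ + 1)).indicator (fun ζ => lv F a b ζ - Real.log a) ζ)) (Rc x₀ (T + 1)) :=
      (hw.add hi1).add hi2
    rw [Rc_fubini hint]
    have hin : ∀ η ∈ Ioo (-(Real.pi / 2)) (Real.pi / 2), ∫ ξ in Ioo x₀ (T + 1),
        ((min 1 (min (((ξ : ℂ) + η * Complex.I).re - x₀) (T + 1 - ((ξ : ℂ) + η * Complex.I).re)) *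
          (dv F a b ((ξ : ℂ) + η * Complex.I)).re +
        (Rc T (T + 1)).indicator (fun ζ => Real.log b - lv F a b ζ)
          ((ξ : ℂ) + η * Complex.I)) +
        (Rc x₀ (x₀ + 1)).indicator (fun ζ => lv F a b ζ - Real.log a)
          ((ξ : ℂ) + η * Complex.I)) = Real.log (b / a) := by
      intro η hη
      have hη' : |η| < Real.pi / 2 := abs_lt.2 ⟨hη.1, hη.2⟩
      have hmem : ∀ ξ : ℝ, ((ξ : ℂ) + η * Complex.I) ∈ Str := fun ξ => by
        simpa [Str] using hη'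
      have hre : ∀ ξ : ℝ, ((ξ : ℂ) + η * Complex.I).re = ξ := fun ξ => by simp
      have huc : Continuous fun ξ : ℝ => lv F a b ((ξ : ℂ) + η * Complex.I) :=
        (lv_cont hF ha hb).comp_continuous (by fun_prop) hmem
      have hu'c : Continuous fun ξ : ℝ => (dv F a b ((ξ : ℂ) + η * Complex.I)).re :=
        Complex.continuous_re.comp ((dv_cont hF ha hb).comp_continuous (by fun_prop) hmem)
      have hind1 : ∀ ξ : ℝ, (Rc T (T + 1)).indicator (fun ζ => Real.log b - lv F a b ζ)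
          ((ξ : ℂ) + η * Complex.I) = (Ioo T (T + 1)).indicator
          (fun ξ : ℝ => Real.log b - lv F a b ((ξ : ℂ) + η * Complex.I)) ξ := by
        intro ξ
        by_cases h : ξ ∈ Ioo T (T + 1)
        · rw [indicator_of_mem h, indicator_of_mem]
          exact ⟨hmem ξ, by rw [hre]; exact h.1, by rw [hre]; exact h.2⟩
        · rw [indicator_of_notMem h, indicator_of_notMem]
          rintro ⟨_, h5, h6⟩
          rw [hre] at h5 h6
          exact h ⟨h5, h6⟩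
      have hind2 : ∀ ξ : ℝ, (Rc x₀ (x₀ + 1)).indicator (fun ζ => lv F a b ζ - Real.log a)
          ((ξ : ℂ) + η * Complex.I) = (Ioo x₀ (x₀ + 1)).indicator
          (fun ξ : ℝ => lv F a b ((ξ : ℂ) + η * Complex.I) - Real.log a) ξ := by
        intro ξ
        by_cases h : ξ ∈ Ioo x₀ (x₀ + 1)
        · rw [indicator_of_mem h, indicator_of_mem]
          exact ⟨hmem ξ, by rw [hre]; exact h.1, by rw [hre]; exact h.2⟩
        · rw [indicator_of_notMem h, indicator_of_notMem]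
          rintro ⟨_, h5, h6⟩
          rw [hre] at h5 h6
          exact h ⟨h5, h6⟩
      simp only [hind1, hind2, hre]
      have hc1 : Continuous fun ξ : ℝ => min 1 (min (ξ - x₀) (T + 1 - ξ)) *
          (dv F a b ((ξ : ℂ) + η * Complex.I)).re := by fun_prop
      have hc2 : Continuous fun ξ : ℝ => Real.log b - lv F a b ((ξ : ℂ) + η * Complex.I) := by
        fun_prop
      have hc3 : Continuous fun ξ : ℝ => lv F a b ((ξ : ℂ) + η * Complex.I) - Real.log a := by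
        fun_prop
      have hIo : ∀ g : ℝ → ℝ, Continuous g → ∀ x y : ℝ, IntegrableOn g (Ioo x y) :=
        fun g hg x y => (hg.integrableOn_Icc (a := x) (b := y)).mono_set Ioo_subset_Icc_self
      have j1 := hIo _ hc1 x₀ (T + 1)
      have j2 := (hIo _ hc2 x₀ (T + 1)).indicator (measurableSet_Ioo (a := T) (b := T + 1))
      have j3 := (hIo _ hc3 x₀ (T + 1)).indicator (measurableSet_Ioo (a := x₀) (b := x₀ + 1))
      have j12 : IntegrableOn (fun ξ : ℝ => min 1 (min (ξ - x₀) (T + 1 - ξ)) *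
          (dv F a b ((ξ : ℂ) + η * Complex.I)).re + (Ioo T (T + 1)).indicator
          (fun ξ : ℝ => Real.log b - lv F a b ((ξ : ℂ) + η * Complex.I)) ξ) (Ioo x₀ (T + 1)) :=
        j1.add j2
      rw [integral_add j12 j3, integral_add j1 j2,
        setIntegral_indicator measurableSet_Ioo, setIntegral_indicator measurableSet_Ioo,
        inter_eq_self_of_subset_right (Ioo_subset_Ioo (by linarith) le_rfl),
        inter_eq_self_of_subset_right (Ioo_subset_Ioo le_rfl (by linarith)),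
        ← integral_Ioc_eq_integral_Ioo, ← integral_Ioc_eq_integral_Ioo,
        ← integral_Ioc_eq_integral_Ioo,
        ← intervalIntegral.integral_of_le (by linarith),
        ← intervalIntegral.integral_of_le (by linarith),
        ← intervalIntegral.integral_of_le (by linarith),
        trap (fun ξ => lv_hasDerivAt hF ha hb hη' ξ) hu'c hT,
        intervalIntegral.integral_sub (continuous_const.intervalIntegrable _ _)
          (huc.intervalIntegrable _ _),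
        intervalIntegral.integral_sub (huc.intervalIntegrable _ _)
          (continuous_const.intervalIntegrable _ _),
        intervalIntegral.integral_const, intervalIntegral.integral_const,
        Real.log_div hb.ne' ha.ne']
      simp only [smul_eq_mul]
      ring
    rw [setIntegral_congr_fun measurableSet_Ioo hin, integral_const, smul_eq_mul]
    simp only [Measure.real, Measure.restrict_apply_univ, Real.volume_Ioo]
    rw [ENNReal.toReal_ofReal (by linarith [Real.pi_pos])]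
    ring
  have hadd : IntegrableOn (fun ζ => min 1 (min (ζ.re - x₀) (T + 1 - ζ.re)) * (dv F a b ζ).re +
        (Rc T (T + 1)).indicator (fun ζ => Real.log b - lv F a b ζ) ζ) (Rc x₀ (T + 1)) :=
    hw.add hi1
  rw [integral_add hadd hi2, integral_add hw hi1, hI1, hI2] at hsum
  linarith

theorem strip_lower {F : ℂ → ℂ} (hF : DifferentiableOn ℂ F Str) {a b x₀ T c₁ c₂ : ℝ} (ha : 0 < a)
    (hab : a ≤ b) (hT : x₀ + 1 ≤ T) (hc₁ : 0 ≤ c₁) (hc₂ : 0 ≤ c₂)
    (hL : c₁ + c₂ ≤ Real.pi * Real.log (b / a))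
    (h1 : ∫⁻ ζ in {ζ | ζ ∈ Str ∧ x₀ < ζ.re ∧ ζ.re < x₀ + 1},
      ENNReal.ofReal (lv F a b ζ - Real.log a) ≤ ENNReal.ofReal c₁)
    (h2 : ∫⁻ ζ in {ζ | ζ ∈ Str ∧ T < ζ.re ∧ ζ.re < T + 1},
      ENNReal.ofReal (Real.log b - lv F a b ζ) ≤ ENNReal.ofReal c₂) :
    ENNReal.ofReal ((Real.pi * Real.log (b / a) - c₁ - c₂) ^ 2 / (Real.pi * (T + 1 - x₀))) ≤
      ∫⁻ ζ in {ζ | ζ ∈ Str ∧ x₀ < ζ.re ∧ ζ.re < T + 1}, ENNReal.ofReal (‖dv F a b ζ‖ ^ 2) := by
  have hb : 0 < b := ha.trans_le hab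
  have hpi := Real.pi_pos
  rcases eq_or_ne (∫⁻ ζ in {ζ | ζ ∈ Str ∧ x₀ < ζ.re ∧ ζ.re < T + 1},
    ENNReal.ofReal (‖dv F a b ζ‖ ^ 2)) ⊤ with htop | htop
  · rw [htop]; exact le_top
  set E : ℝ := (∫⁻ ζ in {ζ | ζ ∈ Str ∧ x₀ < ζ.re ∧ ζ.re < T + 1},
    ENNReal.ofReal (‖dv F a b ζ‖ ^ 2)).toReal with hE
  have hE0 : 0 ≤ E := ENNReal.toReal_nonneg
  have hEe : ∫⁻ ζ in {ζ | ζ ∈ Str ∧ x₀ < ζ.re ∧ ζ.re < T + 1},
    ENNReal.ofReal (‖dv F a b ζ‖ ^ 2) = ENNReal.ofReal E := (ENNReal.ofReal_toReal htop).symm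
  have hkey := strip_key hF ha hab hT hc₁ hc₂ hE0 h1 h2 hEe.le
  rw [hEe]
  refine ENNReal.ofReal_le_ofReal ?_
  have hEe' : ∫⁻ ζ in Rc x₀ (T + 1), ENNReal.ofReal (‖dv F a b ζ‖ ^ 2) ≤ ENNReal.ofReal E :=
    hEe.le
  change _ ≤ ∫ ζ in Rc x₀ (T + 1), _ at hkey
  have hdi := dv_int hF ha hb (by linarith : x₀ ≤ T + 1) hEe'
  have hdre : IntegrableOn (fun ζ => (dv F a b ζ).re) (Rc x₀ (T + 1)) := hdi.re
  have hw := wt_mul_int hdre
  have hsq := dv_sq_int hF ha hb hEe'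
  have hIsq : ∫ ζ in Rc x₀ (T + 1), ‖dv F a b ζ‖ ^ 2 = E := by
    have h5 := ofReal_integral_eq_lintegral_ofReal hsq (ae_of_all _ fun ζ => by positivity)
    have h6 : ENNReal.ofReal (∫ ζ in Rc x₀ (T + 1), ‖dv F a b ζ‖ ^ 2) = ENNReal.ofReal E :=
      h5.trans hEe
    have h7 : 0 ≤ ∫ ζ in Rc x₀ (T + 1), ‖dv F a b ζ‖ ^ 2 :=
      integral_nonneg fun ζ => by positivity
    exact (ENNReal.ofReal_eq_ofReal_iff h7 hE0).1 h6
  set K : ℝ := Real.pi * Real.log (b / a) - c₁ - c₂ with hK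
  have hK0 : 0 ≤ K := by rw [hK]; linarith
  have hm : 0 < Real.pi * (T + 1 - x₀) := by
    have : 0 < T + 1 - x₀ := by linarith
    positivity
  rcases hK0.eq_or_lt with hK1 | hK1
  · rw [← hK1]
    simpa using hE0
  have hfin : volume (Rc x₀ (T + 1)) ≠ ⊤ := by
    rw [Rc_vol (by linarith)]; exact ENNReal.ofReal_ne_top
  -- AM-GM with parameter
  set lam : ℝ := K / (Real.pi * (T + 1 - x₀)) with hlam
  have hlam0 : 0 < lam := by positivity
  have hAG : ∫ ζ in Rc x₀ (T + 1), min 1 (min (ζ.re - x₀) (T + 1 - ζ.re)) * (dv F a b ζ).re ≤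
      ∫ ζ in Rc x₀ (T + 1), (lam / 2 + ‖dv F a b ζ‖ ^ 2 * (1 / (2 * lam))) := by
    refine setIntegral_mono_on hw ((integrableOn_const hfin).add (hsq.mul_const _))
      (Rc_meas _ _) fun ζ hζ => ?_
    obtain ⟨h5, h6⟩ := wt_bound hζ.2.1 hζ.2.2
    have h7 : |(dv F a b ζ).re| ≤ ‖dv F a b ζ‖ := Complex.abs_re_le_norm _
    have h8 : min 1 (min (ζ.re - x₀) (T + 1 - ζ.re)) * (dv F a b ζ).re ≤ ‖dv F a b ζ‖ := by
      calc min 1 (min (ζ.re - x₀) (T + 1 - ζ.re)) * (dv F a b ζ).re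
          ≤ min 1 (min (ζ.re - x₀) (T + 1 - ζ.re)) * ‖dv F a b ζ‖ :=
            mul_le_mul_of_nonneg_left ((le_abs_self _).trans h7) h5
        _ ≤ ‖dv F a b ζ‖ := mul_le_of_le_one_left (norm_nonneg _) h6
    refine h8.trans ?_
    have h9 : lam / 2 + ‖dv F a b ζ‖ ^ 2 * (1 / (2 * lam)) - ‖dv F a b ζ‖ =
        (lam - ‖dv F a b ζ‖) ^ 2 / (2 * lam) := by
      field_simp
      ring
    have h10 : 0 ≤ (lam - ‖dv F a b ζ‖) ^ 2 / (2 * lam) := by positivity
    linarith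
  have hcst : IntegrableOn (fun _ : ℂ => lam / 2) (Rc x₀ (T + 1)) := integrableOn_const hfin
  have hsqc : IntegrableOn (fun ζ => ‖dv F a b ζ‖ ^ 2 * (1 / (2 * lam))) (Rc x₀ (T + 1)) :=
    hsq.mul_const _
  rw [integral_add hcst hsqc, integral_mul_const, hIsq,
    integral_const, smul_eq_mul] at hAG
  simp only [Measure.real, Measure.restrict_apply_univ] at hAG
  rw [Rc_vol (by linarith), ENNReal.toReal_ofReal (by
    have : 0 < T + 1 - x₀ := by linarith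
    positivity)] at hAG
  have h11 := hkey.trans hAG
  have hne : T + 1 - x₀ ≠ 0 := by
    have : 0 < T + 1 - x₀ := by linarith
    exact this.ne'
  have h12 : Real.pi * (T + 1 - x₀) * (lam / 2) = K / 2 := by
    rw [hlam]
    field_simp
  rw [h12] at h11
  have h13 : E * (1 / (2 * lam)) = E * (Real.pi * (T + 1 - x₀)) / (2 * K) := by
    rw [hlam]
    field_simp
  rw [h13] at h11
  have h14 : K / 2 ≤ E * (Real.pi * (T + 1 - x₀)) / (2 * K) := by linarith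
  rw [div_le_div_iff₀ (by norm_num) (by positivity)] at h14
  rw [div_le_iff₀ hm]
  nlinarith

theorem strip_deficit {F : ℂ → ℂ} (hF : DifferentiableOn ℂ F Str) {p a b x₀ T c₁ c₂ E : ℝ}
    (hp : 0 < p) (ha : 0 < a) (hab : a ≤ b) (hT : x₀ + 1 ≤ T) (hc₁ : 0 ≤ c₁) (hc₂ : 0 ≤ c₂)
    (hE : 0 ≤ E)
    (h1 : ∫⁻ ζ in {ζ | ζ ∈ Str ∧ x₀ < ζ.re ∧ ζ.re < x₀ + 1},
      ENNReal.ofReal (lv F a b ζ - Real.log a) ≤ ENNReal.ofReal c₁)
    (h2 : ∫⁻ ζ in {ζ | ζ ∈ Str ∧ T < ζ.re ∧ ζ.re < T + 1},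
      ENNReal.ofReal (Real.log b - lv F a b ζ) ≤ ENNReal.ofReal c₂)
    (h3 : ∫⁻ ζ in Str, ENNReal.ofReal (‖dv F a b ζ‖ ^ 2) ≤ ENNReal.ofReal E) :
    0 ≤ E - 4 * p * (Real.pi * Real.log (b / a) - c₁ - c₂) + 4 * p ^ 2 * Real.pi * (T - x₀) ∧
    ∫⁻ ζ in {ζ | ζ ∈ Str ∧ x₀ + 1 < ζ.re ∧ ζ.re < T},
      ENNReal.ofReal (‖dv F a b ζ - 2 * p‖ ^ 2) ≤
      ENNReal.ofReal (E - 4 * p * (Real.pi * Real.log (b / a) - c₁ - c₂) +
        4 * p ^ 2 * Real.pi * (T - x₀)) := by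
  have hb : 0 < b := ha.trans_le hab
  have h3' : ∫⁻ ζ in Rc x₀ (T + 1), ENNReal.ofReal (‖dv F a b ζ‖ ^ 2) ≤ ENNReal.ofReal E :=
    (lintegral_mono_set (Rc_sub _ _)).trans h3
  have hkey := strip_key hF ha hab hT hc₁ hc₂ hE h1 h2 h3'
  change _ ≤ ∫ ζ in Rc x₀ (T + 1), _ at hkey
  have hdi := dv_int hF ha hb (by linarith : x₀ ≤ T + 1) h3'
  have hdre : IntegrableOn (fun ζ => (dv F a b ζ).re) (Rc x₀ (T + 1)) := hdi.re
  have hw := wt_mul_int hdre
  have hsq := dv_sq_int hF ha hb h3'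
  have hwsq := wt_mul_int hsq
  have hIsq : ∫ ζ in Rc x₀ (T + 1), ‖dv F a b ζ‖ ^ 2 ≤ E := by
    have h5 := ofReal_integral_eq_lintegral_ofReal hsq (ae_of_all _ fun ζ => by positivity)
    rw [← h5] at h3'
    exact (ENNReal.ofReal_le_ofReal_iff hE).1 h3'
  have hfin : volume (Rc x₀ (T + 1)) ≠ ⊤ := by
    rw [Rc_vol (by linarith)]; exact ENNReal.ofReal_ne_top
  have hwi : IntegrableOn (fun ζ : ℂ => min 1 (min (ζ.re - x₀) (T + 1 - ζ.re)))
      (Rc x₀ (T + 1)) := by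
    simpa using wt_mul_int (x₀ := x₀) (T := T) (g := fun _ => (1 : ℝ)) (integrableOn_const hfin)
  have hexp : ∀ ζ : ℂ, min 1 (min (ζ.re - x₀) (T + 1 - ζ.re)) * ‖dv F a b ζ - 2 * p‖ ^ 2 =
      (min 1 (min (ζ.re - x₀) (T + 1 - ζ.re)) * ‖dv F a b ζ‖ ^ 2 +
        (-(4 * p)) * (min 1 (min (ζ.re - x₀) (T + 1 - ζ.re)) * (dv F a b ζ).re)) +
        (4 * p ^ 2) * min 1 (min (ζ.re - x₀) (T + 1 - ζ.re)) := by
    intro ζ
    have h5 : ‖dv F a b ζ - 2 * p‖ ^ 2 = ‖dv F a b ζ‖ ^ 2 - 4 * p * (dv F a b ζ).re + 4 * p ^ 2 := by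
      rw [← Complex.normSq_eq_norm_sq, ← Complex.normSq_eq_norm_sq, Complex.normSq_apply,
        Complex.normSq_apply]
      simp only [Complex.sub_re, Complex.sub_im, Complex.mul_re, Complex.mul_im,
        Complex.ofReal_re, Complex.ofReal_im, Complex.re_ofNat, Complex.im_ofNat]
      ring
    rw [h5]
    ring
  have hD : ∫ ζ in Rc x₀ (T + 1),
      min 1 (min (ζ.re - x₀) (T + 1 - ζ.re)) * ‖dv F a b ζ - 2 * p‖ ^ 2 ≤
      E - 4 * p * (Real.pi * Real.log (b / a) - c₁ - c₂) + 4 * p ^ 2 * Real.pi * (T - x₀) := by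
    simp only [hexp]
    have k1 : IntegrableOn (fun ζ : ℂ => (-(4 * p)) *
        (min 1 (min (ζ.re - x₀) (T + 1 - ζ.re)) * (dv F a b ζ).re)) (Rc x₀ (T + 1)) :=
      hw.const_mul _
    have k2 : IntegrableOn (fun ζ : ℂ => (4 * p ^ 2) * min 1 (min (ζ.re - x₀) (T + 1 - ζ.re)))
        (Rc x₀ (T + 1)) := hwi.const_mul _
    have k3 : IntegrableOn (fun ζ : ℂ =>
        min 1 (min (ζ.re - x₀) (T + 1 - ζ.re)) * ‖dv F a b ζ‖ ^ 2 + (-(4 * p)) *
        (min 1 (min (ζ.re - x₀) (T + 1 - ζ.re)) * (dv F a b ζ).re)) (Rc x₀ (T + 1)) :=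
      hwsq.add k1
    rw [integral_add k3 k2,
      integral_add hwsq k1, integral_const_mul, integral_const_mul, wt_int hT]
    have h6 : ∫ ζ in Rc x₀ (T + 1),
        min 1 (min (ζ.re - x₀) (T + 1 - ζ.re)) * ‖dv F a b ζ‖ ^ 2 ≤ E := by
      refine le_trans (setIntegral_mono_on hwsq hsq (Rc_meas _ _) fun ζ hζ => ?_) hIsq
      obtain ⟨h5, h6⟩ := wt_bound hζ.2.1 hζ.2.2
      exact mul_le_of_le_one_left (by positivity) h6
    have h7 := mul_le_mul_of_nonneg_left hkey (by positivity : (0 : ℝ) ≤ 4 * p)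
    linarith
  have hDi : IntegrableOn (fun ζ : ℂ =>
      min 1 (min (ζ.re - x₀) (T + 1 - ζ.re)) * ‖dv F a b ζ - 2 * p‖ ^ 2) (Rc x₀ (T + 1)) := by
    simp only [hexp]
    exact (hwsq.add (hw.const_mul _)).add (hwi.const_mul _)
  have hnn : ∀ ζ ∈ Rc x₀ (T + 1),
      0 ≤ min 1 (min (ζ.re - x₀) (T + 1 - ζ.re)) * ‖dv F a b ζ - 2 * p‖ ^ 2 := fun ζ hζ =>
    mul_nonneg (wt_bound hζ.2.1 hζ.2.2).1 (by positivity)
  refine ⟨le_trans (setIntegral_nonneg (Rc_meas _ _) hnn) hD, ?_⟩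
  refine le_trans ?_ (ENNReal.ofReal_le_ofReal hD)
  rw [ofReal_integral_eq_lintegral_ofReal hDi
    ((ae_restrict_iff' (Rc_meas _ _)).2 (ae_of_all _ hnn))]
  change ∫⁻ ζ in Rc (x₀ + 1) T, _ ≤ _
  have hsub : Rc (x₀ + 1) T ⊆ Rc x₀ (T + 1) := fun ζ h =>
    ⟨h.1, by linarith [h.2.1], by linarith [h.2.2]⟩
  refine le_trans ?_ (lintegral_mono_set hsub)
  refine setLIntegral_mono' (Rc_meas _ _) fun ζ hζ => ?_
  refine ENNReal.ofReal_le_ofReal (le_of_eq ?_)
  rw [min_eq_left (le_min (by linarith [hζ.2.1]) (by linarith [hζ.2.2])), one_mul]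

end MQV
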