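import Pool.Agent.MQV.Cmp

set_option autoImplicit false

/-!
# MQV LAY : layer cake estimates for mean `p`-valent functions

`ν = |F'|² dA` on `Ω` satisfies `ν {|F| < R} ≤ π p R²` for all `R > 0`.
For a decreasing weight `K(ρ) = ∫_ρ^∞ κ(x) dx`, `κ ≥ 0`:
`∫_Ω K(|F|) dν = ∫_0^∞ κ(x) ν{|F| < x} dx ≤ π p ∫_0^∞ κ(x) x² dx = 2 π p ∫_0^∞ x K(x) dx`
(Tonelli; compare `Cls.sph`, `layer` in `Pool/Agent/MPV/Sph.lean`, `Pow.lean`).

* `lay_sph`: `K(ρ) = a⁴/(a²+ρ²)²`, `κ(x) = 4 a⁴ x/(a²+x²)³`, `∫ κ(x) x² dx = a²`.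
* `lay_energy`: `|dv F a b|² = |F'|² |F|² (1/(a²+|F|²) - 1/(b²+|F|²))²
   ≤ |F'|² K(|F|)`, `K(ρ) = 1/((a²+ρ²)(1+ρ²/b²))`
  (because `0 ≤ ρ² (1/(a²+ρ²) - 1/(b²+ρ²)) ≤ ρ²/(a²+ρ²) · b²/(b²+ρ²)`, so
  `ρ² (…)² ≤ ρ²/(a²+ρ²)² · (b²/(b²+ρ²))²  ≤ K(ρ)`);
  `2 ∫_0^∞ x K(x) dx = ∫_0^∞ ds/((a²+s)(1+s/b²)) = b²/(b²-a²) · log (b²/a²)`, and for `b ≥ 2a`
  this is `≤ 2 log (b/a) + 2` (`x = b/a ≥ 2`: `2 log x/(x²-1) ≤ 2`).
* `lay_pow`: on `{|F| < M}`, `K(ρ) = (1+ρ²)^{-l/2}` truncated at `M`: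
  `∫_{|F|<M} (1+|F|²)^{-l/2} dν ≤ π p (M² (1+M²)^{-l/2} + ∫_0^M x² l x (1+x²)^{-l/2-1} dx)
   ≤ C M^{2-l}`.
-/

open MeasureTheory Metric Set

namespace MQV

/-- the layer cake estimate -/
private theorem gen42 {Ω : Set ℂ} (hΩ : IsOpen Ω) {p : ℝ} {F : ℂ → ℂ} (h : MV Ω p F)
    {κ : ℝ → ENNReal} (hκ : Measurable κ) :
    ∫⁻ z in Ω, ENNReal.ofReal (‖deriv F z‖ ^ 2) * ∫⁻ x in Ioi ‖F z‖, κ x ≤
      ∫⁻ x in Ioi (0 : ℝ), κ x * ENNReal.ofReal (Real.pi * p * x ^ 2) := by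
  classical
  set u : ℂ → ℝ := fun z => ‖Ω.piecewise F (fun _ => 0) z‖ with hu
  have huM : Measurable u := by
    refine Measurable.norm ?_
    exact (h.diff.continuousOn).measurable_piecewise continuousOn_const hΩ.measurableSet
  have huB : ∀ z ∈ Ω, u z = ‖F z‖ := by
    intro z hz
    simp only [hu]
    rw [Set.piecewise_eq_of_mem _ _ _ hz]
  set w : ℂ → ENNReal := fun z => ENNReal.ofReal (‖deriv F z‖ ^ 2) with hw
  have hwM : Measurable w := by
    have h1 : Measurable (deriv F) := measurable_deriv F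
    simp only [hw]
    fun_prop
  have h1 : ∫⁻ z in Ω, ENNReal.ofReal (‖deriv F z‖ ^ 2) * ∫⁻ x in Ioi ‖F z‖, κ x =
      ∫⁻ z in Ω, ∫⁻ x : ℝ, (if u z < x then w z * κ x else 0) := by
    refine setLIntegral_congr_fun hΩ.measurableSet (fun z hz => ?_)
    show w z * ∫⁻ x in Ioi ‖F z‖, κ x = ∫⁻ x : ℝ, (if u z < x then w z * κ x else 0)
    rw [← huB z hz, ← lintegral_indicator measurableSet_Ioi,
      ← lintegral_const_mul _ (hκ.indicator measurableSet_Ioi)]
    refine lintegral_congr (fun x => ?_)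
    by_cases hx : u z < x
    · rw [if_pos hx, Set.indicator_of_mem (show x ∈ Set.Ioi (u z) from hx)]
    · rw [if_neg hx, Set.indicator_of_notMem (show x ∉ Set.Ioi (u z) from hx), mul_zero]
  rw [h1, lintegral_lintegral_swap]
  · rw [← lintegral_indicator measurableSet_Ioi]
    refine lintegral_mono (fun x => ?_)
    show ∫⁻ z in Ω, (if u z < x then w z * κ x else 0) ≤ _
    have hset : MeasurableSet {z : ℂ | u z < x} := measurableSet_lt huM measurable_const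
    have h5 : ∫⁻ z in Ω, (if u z < x then w z * κ x else 0) = ar Ω F 0 x * κ x := by
      have h6 : ∀ z, (if u z < x then w z * κ x else 0) =
          {z : ℂ | u z < x}.indicator (fun z => w z * κ x) z := by
        intro z
        by_cases hz : u z < x
        · rw [if_pos hz, Set.indicator_of_mem (show z ∈ {z : ℂ | u z < x} from hz)]
        · rw [if_neg hz, Set.indicator_of_notMem (show z ∉ {z : ℂ | u z < x} from hz)]
      simp_rw [h6]
      rw [lintegral_indicator hset, Measure.restrict_restrict hset,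
        lintegral_mul_const _ hwM]
      have h7 : {z : ℂ | u z < x} ∩ Ω = {z | z ∈ Ω ∧ 0 ≤ ‖F z‖ ∧ ‖F z‖ < x} := by
        ext z
        constructor
        · rintro ⟨h8, h9⟩
          refine ⟨h9, norm_nonneg _, ?_⟩
          rw [← huB z h9]; exact h8
        · rintro ⟨h8, -, h9⟩
          refine ⟨?_, h8⟩
          show u z < x
          rw [huB z h8]; exact h9
      rw [h7]
      rfl
    rw [h5]
    by_cases hx : 0 < x
    · rw [Set.indicator_of_mem (show x ∈ Ioi (0 : ℝ) from hx), mul_comm (κ x)]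
      exact mul_le_mul_left (h.area x hx) _
    · have h8 : ar Ω F 0 x = 0 := by
        unfold ar
        have h9 : {z | z ∈ Ω ∧ 0 ≤ ‖F z‖ ∧ ‖F z‖ < x} = ∅ := by
          ext z
          simp only [mem_ofPred_eq, mem_empty_iff_false, iff_false]
          rintro ⟨-, h10, h11⟩
          exact hx (h10.trans_lt h11)
        rw [h9]
        simp
      rw [h8, zero_mul]
      exact bot_le
  · refine Measurable.aemeasurable ?_
    refine Measurable.ite ?_ ?_ measurable_const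
    · exact measurableSet_lt (huM.comp measurable_fst) measurable_snd
    · exact (hwM.comp measurable_fst).mul (hκ.comp measurable_snd)

private theorem ioi42 {f f' : ℝ → ℝ} {a l : ℝ} (hd : ∀ x ∈ Ici a, HasDerivAt f (f' x) x)
    (hpos : ∀ x ∈ Ioi a, 0 ≤ f' x) (ht : Filter.Tendsto f Filter.atTop (nhds l)) :
    ∫⁻ x in Ioi a, ENNReal.ofReal (f' x) = ENNReal.ofReal (l - f a) := by
  have hint := integrableOn_Ioi_deriv_of_nonneg' hd hpos ht
  have hval := integral_Ioi_of_hasDerivAt_of_nonneg' hd hpos ht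
  rw [← ofReal_integral_eq_lintegral_ofReal hint]
  · rw [hval]
  · rw [Filter.EventuallyLE, ae_restrict_iff' measurableSet_Ioi]
    exact Filter.Eventually.of_forall hpos

private theorem dsq42 (c x : ℝ) : HasDerivAt (fun x : ℝ => c + x ^ 2) (2 * x) x := by
  have := (hasDerivAt_pow 2 x).const_add c
  simpa using this

private theorem tsq42 (c : ℝ) : Filter.Tendsto (fun x : ℝ => c + x ^ 2) Filter.atTop
    Filter.atTop :=
  Filter.tendsto_atTop_add_const_left _ _ (Filter.tendsto_pow_atTop (by norm_num))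

theorem lay_sph {Ω : Set ℂ} (hΩ : IsOpen Ω) {p a : ℝ} (hp : 0 ≤ p) (ha : 0 < a) {F : ℂ → ℂ}
    (h : MV Ω p F) :
    ∫⁻ z in Ω, ENNReal.ofReal (‖deriv F z‖ ^ 2 * (a ^ 4 / (a ^ 2 + ‖F z‖ ^ 2) ^ 2)) ≤
      ENNReal.ofReal (Real.pi * p * a ^ 2) := by
  have hpi := Real.pi_pos
  have hκM : Measurable fun x : ℝ => ENNReal.ofReal (4 * a ^ 4 * x / (a ^ 2 + x ^ 2) ^ 3) := by
    fun_prop
  have h1 : ∀ ρ : ℝ, 0 ≤ ρ → ∫⁻ x in Ioi ρ, ENNReal.ofReal (4 * a ^ 4 * x / (a ^ 2 + x ^ 2) ^ 3) =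
      ENNReal.ofReal (a ^ 4 / (a ^ 2 + ρ ^ 2) ^ 2) := by
    intro ρ hρ
    have h2 : ∀ x ∈ Ici ρ, HasDerivAt (fun x : ℝ => -(a ^ 4 / (a ^ 2 + x ^ 2) ^ 2))
        (4 * a ^ 4 * x / (a ^ 2 + x ^ 2) ^ 3) x := by
      intro x _
      have hne : a ^ 2 + x ^ 2 ≠ 0 := by positivity
      have h3 := (((dsq42 (a ^ 2) x).pow 2).inv (pow_ne_zero 2 hne)).const_mul (-a ^ 4)
      refine HasDerivAt.congr_deriv (h3.congr_of_eventuallyEq ?_) ?_
      · refine Filter.Eventually.of_forall (fun w => ?_)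
        simp [div_eq_mul_inv]
      · simp only [Nat.cast_ofNat, Pi.pow_apply]
        field_simp
        ring
    have h3 : ∀ x ∈ Ioi ρ, 0 ≤ 4 * a ^ 4 * x / (a ^ 2 + x ^ 2) ^ 3 := by
      intro x hx
      have : 0 < x := hρ.trans_lt hx
      positivity
    have h4 : Filter.Tendsto (fun x : ℝ => -(a ^ 4 / (a ^ 2 + x ^ 2) ^ 2)) Filter.atTop
        (nhds 0) := by
      have h5 : Filter.Tendsto (fun x : ℝ => a ^ 4 / (a ^ 2 + x ^ 2) ^ 2) Filter.atTop (nhds 0) :=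
        Filter.Tendsto.div_atTop tendsto_const_nhds
          ((Filter.tendsto_pow_atTop (by norm_num)).comp (tsq42 (a ^ 2)))
      simpa using h5.neg
    rw [ioi42 h2 h3 h4]
    congr 1
    ring
  have h6 : ∫⁻ x in Ioi (0 : ℝ), ENNReal.ofReal (4 * a ^ 4 * x / (a ^ 2 + x ^ 2) ^ 3) *
      ENNReal.ofReal (Real.pi * p * x ^ 2) = ENNReal.ofReal (Real.pi * p * a ^ 2) := by
    have h2 : ∀ x ∈ Ici (0 : ℝ), HasDerivAt
        (fun x : ℝ => Real.pi * p * a ^ 2 * (1 - a ^ 2 / (a ^ 2 + x ^ 2)) ^ 2)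
        (4 * a ^ 4 * x / (a ^ 2 + x ^ 2) ^ 3 * (Real.pi * p * x ^ 2)) x := by
      intro x _
      have hne : a ^ 2 + x ^ 2 ≠ 0 := by positivity
      have h3 := (((((dsq42 (a ^ 2) x).inv hne).const_mul (a ^ 2)).const_sub 1).pow 2).const_mul
        (Real.pi * p * a ^ 2)
      refine HasDerivAt.congr_deriv (h3.congr_of_eventuallyEq ?_) ?_
      · refine Filter.Eventually.of_forall (fun w => ?_)
        simp [div_eq_mul_inv]
      · simp only [Nat.cast_ofNat, Nat.add_one_sub_one, pow_one, Pi.inv_apply]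
        field_simp
        ring
    have h3 : ∀ x ∈ Ioi (0 : ℝ),
        0 ≤ 4 * a ^ 4 * x / (a ^ 2 + x ^ 2) ^ 3 * (Real.pi * p * x ^ 2) := by
      intro x hx
      have : 0 < x := hx
      positivity
    have h4 : Filter.Tendsto
        (fun x : ℝ => Real.pi * p * a ^ 2 * (1 - a ^ 2 / (a ^ 2 + x ^ 2)) ^ 2) Filter.atTop
        (nhds (Real.pi * p * a ^ 2)) := by
      have h5 : Filter.Tendsto (fun x : ℝ => a ^ 2 / (a ^ 2 + x ^ 2)) Filter.atTop (nhds 0) :=
        Filter.Tendsto.div_atTop tendsto_const_nhds (tsq42 (a ^ 2))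
      have h6 := ((h5.const_sub 1).pow 2).const_mul (Real.pi * p * a ^ 2)
      simpa using h6
    have h7 : ∀ x ∈ Ioi (0 : ℝ), ENNReal.ofReal (4 * a ^ 4 * x / (a ^ 2 + x ^ 2) ^ 3) *
        ENNReal.ofReal (Real.pi * p * x ^ 2) =
        ENNReal.ofReal (4 * a ^ 4 * x / (a ^ 2 + x ^ 2) ^ 3 * (Real.pi * p * x ^ 2)) := by
      intro x hx
      have : 0 < x := hx
      exact (ENNReal.ofReal_mul (by positivity)).symm
    rw [setLIntegral_congr_fun measurableSet_Ioi h7, ioi42 h2 h3 h4]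
    congr 1
    have : a ≠ 0 := ha.ne'
    have h8 : a ^ 2 / (a ^ 2 + 0 ^ 2) = 1 := by
      rw [zero_pow two_ne_zero, add_zero, div_self (pow_ne_zero 2 this)]
    rw [h8]
    ring
  rw [← h6]
  refine le_trans (le_of_eq ?_) (gen42 hΩ h hκM)
  refine lintegral_congr (fun z => ?_)
  rw [h1 _ (norm_nonneg _), ENNReal.ofReal_mul (by positivity)]

theorem lay_energy {Ω : Set ℂ} (hΩ : IsOpen Ω) {p a b : ℝ} (hp : 0 ≤ p) (ha : 0 < a)
    (hab : 2 * a ≤ b) {F : ℂ → ℂ} (h : MV Ω p F) :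
    ∫⁻ z in Ω, ENNReal.ofReal (‖dv F a b z‖ ^ 2) ≤
      ENNReal.ofReal (2 * Real.pi * p * Real.log (b / a) + 2 * Real.pi * p) := by
  have hpi := Real.pi_pos
  have hb : 0 < b := by linarith
  have hlt : a < b := by linarith
  have hD : 0 < b ^ 2 - a ^ 2 := by nlinarith
  set κ : ℝ → ℝ := fun x => b ^ 2 * (2 * x * (b ^ 2 + x ^ 2) + (a ^ 2 + x ^ 2) * (2 * x)) /
    ((a ^ 2 + x ^ 2) * (b ^ 2 + x ^ 2)) ^ 2 with hκ
  have hκM : Measurable fun x : ℝ => ENNReal.ofReal (κ x) := by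
    simp only [hκ]
    fun_prop
  have hκ0 : ∀ x, 0 ≤ x → 0 ≤ κ x := by
    intro x hx
    simp only [hκ]
    positivity
  have hK' : ∀ x : ℝ, HasDerivAt (fun x : ℝ => -(b ^ 2 / ((a ^ 2 + x ^ 2) * (b ^ 2 + x ^ 2))))
      (κ x) x := by
    intro x
    have hne : (a ^ 2 + x ^ 2) * (b ^ 2 + x ^ 2) ≠ 0 := by positivity
    have h3 := (((dsq42 (a ^ 2) x).mul (dsq42 (b ^ 2) x)).inv hne).const_mul (-b ^ 2)
    refine HasDerivAt.congr_deriv (h3.congr_of_eventuallyEq ?_) ?_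
    · refine Filter.Eventually.of_forall (fun w => ?_)
      simp [div_eq_mul_inv]
    · simp only [hκ, Pi.mul_apply]
      field_simp
  have h1 : ∀ ρ : ℝ, 0 ≤ ρ → ∫⁻ x in Ioi ρ, ENNReal.ofReal (κ x) =
      ENNReal.ofReal (b ^ 2 / ((a ^ 2 + ρ ^ 2) * (b ^ 2 + ρ ^ 2))) := by
    intro ρ hρ
    have h4 : Filter.Tendsto (fun x : ℝ => -(b ^ 2 / ((a ^ 2 + x ^ 2) * (b ^ 2 + x ^ 2))))
        Filter.atTop (nhds 0) := by
      have h5 : Filter.Tendsto (fun x : ℝ => b ^ 2 / ((a ^ 2 + x ^ 2) * (b ^ 2 + x ^ 2)))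
          Filter.atTop (nhds 0) :=
        Filter.Tendsto.div_atTop tendsto_const_nhds
          (Filter.Tendsto.atTop_mul_atTop₀ (tsq42 (a ^ 2)) (tsq42 (b ^ 2)))
      simpa using h5.neg
    rw [ioi42 (fun x _ => hK' x) (fun x hx => hκ0 x (hρ.trans (le_of_lt hx))) h4]
    congr 1
    ring
  have h6 : ∫⁻ x in Ioi (0 : ℝ), ENNReal.ofReal (κ x) * ENNReal.ofReal (Real.pi * p * x ^ 2) =
      ENNReal.ofReal (Real.pi * p * (b ^ 2 / (b ^ 2 - a ^ 2) *
        (Real.log (b ^ 2) - Real.log (a ^ 2)))) := by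
    have h2 : ∀ x ∈ Ici (0 : ℝ), HasDerivAt
        (fun x : ℝ => Real.pi * p * (x ^ 2 * (-(b ^ 2 / ((a ^ 2 + x ^ 2) * (b ^ 2 + x ^ 2)))) +
          b ^ 2 / (b ^ 2 - a ^ 2) * (Real.log (a ^ 2 + x ^ 2) - Real.log (b ^ 2 + x ^ 2))))
        (κ x * (Real.pi * p * x ^ 2)) x := by
      intro x _
      have hne1 : a ^ 2 + x ^ 2 ≠ 0 := by positivity
      have hne2 : b ^ 2 + x ^ 2 ≠ 0 := by positivity
      have h3 := ((((hasDerivAt_pow 2 x).mul (hK' x)).add
        ((((dsq42 (a ^ 2) x).log hne1).sub ((dsq42 (b ^ 2) x).log hne2)).const_mul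
          (b ^ 2 / (b ^ 2 - a ^ 2)))).const_mul (Real.pi * p))
      refine HasDerivAt.congr_deriv (h3.congr_of_eventuallyEq ?_) ?_
      · refine Filter.Eventually.of_forall (fun w => ?_)
        simp
      · have hD' : b ^ 2 - a ^ 2 ≠ 0 := hD.ne'
        have h8 : b ^ 2 / (b ^ 2 - a ^ 2) * (2 * x / (a ^ 2 + x ^ 2) - 2 * x / (b ^ 2 + x ^ 2)) =
            2 * x * (b ^ 2 / ((a ^ 2 + x ^ 2) * (b ^ 2 + x ^ 2))) := by
          field_simp
          ring
        rw [h8]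
        simp only [Nat.cast_ofNat, Nat.add_one_sub_one, pow_one]
        ring
    have h3 : ∀ x ∈ Ioi (0 : ℝ), 0 ≤ κ x * (Real.pi * p * x ^ 2) := by
      intro x hx
      exact mul_nonneg (hκ0 x (le_of_lt hx)) (by positivity)
    have h4 : Filter.Tendsto
        (fun x : ℝ => Real.pi * p * (x ^ 2 * (-(b ^ 2 / ((a ^ 2 + x ^ 2) * (b ^ 2 + x ^ 2)))) +
          b ^ 2 / (b ^ 2 - a ^ 2) * (Real.log (a ^ 2 + x ^ 2) - Real.log (b ^ 2 + x ^ 2))))
        Filter.atTop (nhds (Real.pi * p * (-0 + b ^ 2 / (b ^ 2 - a ^ 2) * 0))) := by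
      refine Filter.Tendsto.const_mul _ (Filter.Tendsto.add ?_ (Filter.Tendsto.const_mul _ ?_))
      · have h5 : Filter.Tendsto (fun x : ℝ => b ^ 2 / (b ^ 2 + x ^ 2)) Filter.atTop (nhds 0) :=
          Filter.Tendsto.div_atTop tendsto_const_nhds (tsq42 (b ^ 2))
        have h6 : Filter.Tendsto (fun x : ℝ => x ^ 2 * (b ^ 2 / ((a ^ 2 + x ^ 2) *
            (b ^ 2 + x ^ 2)))) Filter.atTop (nhds 0) := by
          refine squeeze_zero (fun x => by positivity) (fun x => ?_) h5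
          rw [div_mul_eq_div_div_swap, ← mul_div_assoc, mul_comm (x ^ 2), mul_div_assoc]
          refine mul_le_of_le_one_right (by positivity) ?_
          rw [div_le_one (by positivity)]
          nlinarith [sq_nonneg a]
        have h7 := h6.neg
        refine h7.congr (fun x => ?_)
        ring
      · have h5 : Filter.Tendsto (fun x : ℝ => (b ^ 2 - a ^ 2) / (b ^ 2 + x ^ 2)) Filter.atTop
            (nhds 0) :=
          Filter.Tendsto.div_atTop tendsto_const_nhds (tsq42 (b ^ 2))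
        have h6 : Filter.Tendsto (fun x : ℝ => Real.log (1 - (b ^ 2 - a ^ 2) / (b ^ 2 + x ^ 2)))
            Filter.atTop (nhds (Real.log (1 - 0))) :=
          (h5.const_sub 1).log (by norm_num)
        rw [sub_zero, Real.log_one] at h6
        refine h6.congr (fun x => ?_)
        rw [← Real.log_div (by positivity) (by positivity)]
        congr 1
        have : b ^ 2 + x ^ 2 ≠ 0 := by positivity
        field_simp
        ring
    have h7 : ∀ x ∈ Ioi (0 : ℝ), ENNReal.ofReal (κ x) * ENNReal.ofReal (Real.pi * p * x ^ 2) =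
        ENNReal.ofReal (κ x * (Real.pi * p * x ^ 2)) := by
      intro x hx
      rw [ENNReal.ofReal_mul (hκ0 x (le_of_lt hx))]
    rw [setLIntegral_congr_fun measurableSet_Ioi h7, ioi42 h2 h3 h4]
    congr 1
    simp only [zero_pow two_ne_zero, zero_mul, add_zero]
    ring
  have h9 : Real.pi * p * (b ^ 2 / (b ^ 2 - a ^ 2) * (Real.log (b ^ 2) - Real.log (a ^ 2))) ≤
      2 * Real.pi * p * Real.log (b / a) + 2 * Real.pi * p := by
    have h10 : Real.log (b ^ 2) - Real.log (a ^ 2) = 2 * Real.log (b / a) := by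
      rw [Real.log_pow, Real.log_pow, Real.log_div hb.ne' ha.ne']
      push_cast
      ring
    rw [h10]
    set y := b / a with hy
    have hy2 : 2 ≤ y := by
      rw [hy, le_div_iff₀ ha]
      exact hab
    have h11 : Real.log y ≤ y - 1 := Real.log_le_sub_one_of_pos (by linarith)
    have h12 : b ^ 2 / (b ^ 2 - a ^ 2) = 1 + 1 / (y ^ 2 - 1) := by
      have hy1 : y ^ 2 - 1 ≠ 0 := by nlinarith
      have hba : b = y * a := by rw [hy]; field_simp
      have hD' : b ^ 2 - a ^ 2 ≠ 0 := hD.ne'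
      rw [hba] at hD' ⊢
      have h13 : (y * a) ^ 2 - a ^ 2 = (y ^ 2 - 1) * a ^ 2 := by ring
      rw [h13] at hD' ⊢
      field_simp
      ring
    have h13 : 1 / (y ^ 2 - 1) * Real.log y ≤ 1 := by
      rw [one_div, inv_mul_le_iff₀ (by nlinarith)]
      nlinarith
    have h14 : b ^ 2 / (b ^ 2 - a ^ 2) * (2 * Real.log y) ≤ 2 * Real.log y + 2 := by
      rw [h12]
      nlinarith
    calc Real.pi * p * (b ^ 2 / (b ^ 2 - a ^ 2) * (2 * Real.log y))
        ≤ Real.pi * p * (2 * Real.log y + 2) := mul_le_mul_of_nonneg_left h14 (by positivity)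
      _ = 2 * Real.pi * p * Real.log y + 2 * Real.pi * p := by ring
  refine le_trans ?_ (ENNReal.ofReal_le_ofReal h9)
  rw [← h6]
  refine le_trans (lintegral_mono (fun z => ?_)) (gen42 hΩ h hκM)
  show ENNReal.ofReal (‖dv F a b z‖ ^ 2) ≤ _
  rw [h1 _ (norm_nonneg _), ← ENNReal.ofReal_mul (by positivity)]
  refine ENNReal.ofReal_le_ofReal ?_
  unfold dv
  rw [norm_mul, norm_mul, mul_pow, mul_pow, RCLike.norm_conj, Complex.norm_real, Real.norm_eq_abs,
    sq_abs, mul_assoc]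
  refine mul_le_mul_of_nonneg_left ?_ (by positivity)
  set ρ := ‖F z‖ with hρ
  have hρ0 : 0 ≤ ρ := norm_nonneg _
  have e1 : 1 / (a ^ 2 + ρ ^ 2) - 1 / (b ^ 2 + ρ ^ 2) =
      (b ^ 2 - a ^ 2) / ((a ^ 2 + ρ ^ 2) * (b ^ 2 + ρ ^ 2)) := by
    have : a ^ 2 + ρ ^ 2 ≠ 0 := by positivity
    have : b ^ 2 + ρ ^ 2 ≠ 0 := by positivity
    field_simp
    ring
  rw [e1, div_pow, ← mul_div_assoc]
  rw [div_le_div_iff₀ (by positivity) (by positivity)]
  have e2 : (b ^ 2 - a ^ 2) ^ 2 ≤ b ^ 2 * b ^ 2 := by nlinarith [sq_nonneg a, sq_nonneg b]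
  have e3 : ρ ^ 2 * b ^ 2 ≤ (a ^ 2 + ρ ^ 2) * (b ^ 2 + ρ ^ 2) := by
    nlinarith [sq_nonneg (a * b), sq_nonneg (a * ρ), sq_nonneg (ρ * ρ)]
  have e4 : 0 ≤ (a ^ 2 + ρ ^ 2) * (b ^ 2 + ρ ^ 2) := by positivity
  calc ρ ^ 2 * (b ^ 2 - a ^ 2) ^ 2 * ((a ^ 2 + ρ ^ 2) * (b ^ 2 + ρ ^ 2))
      ≤ ρ ^ 2 * (b ^ 2 * b ^ 2) * ((a ^ 2 + ρ ^ 2) * (b ^ 2 + ρ ^ 2)) := by gcongr
    _ = b ^ 2 * ((ρ ^ 2 * b ^ 2) * ((a ^ 2 + ρ ^ 2) * (b ^ 2 + ρ ^ 2))) := by ring
    _ ≤ b ^ 2 * (((a ^ 2 + ρ ^ 2) * (b ^ 2 + ρ ^ 2)) * ((a ^ 2 + ρ ^ 2) * (b ^ 2 + ρ ^ 2))) := by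
        gcongr
    _ = b ^ 2 * ((a ^ 2 + ρ ^ 2) * (b ^ 2 + ρ ^ 2)) ^ 2 := by ring

theorem lay_pow {p l : ℝ} (hp : 0 ≤ p) (hl : 0 < l) (hl2 : l < 2) : ∃ C : ℝ, 0 < C ∧
    ∀ (Ω : Set ℂ) (F : ℂ → ℂ) (M : ℝ), IsOpen Ω → MV Ω p F → 1 ≤ M →
      ∫⁻ z in {z | z ∈ Ω ∧ ‖F z‖ ≤ M},
        ENNReal.ofReal (‖deriv F z‖ ^ 2 * (1 + ‖F z‖ ^ 2) ^ (-(l / 2))) ≤
      ENNReal.ofReal (C * M ^ (2 - l)) := by
  have hpi := Real.pi_pos
  set θ : ℝ := (5 / 2 : ℝ) ^ (-(l / 2)) with hθ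
  have hθ0 : 0 < θ := Real.rpow_pos_of_pos (by norm_num) _
  have hθ1 : θ < 1 := Real.rpow_lt_one_of_one_lt_of_neg (by norm_num) (by linarith)
  set c : ℝ := (1 - θ)⁻¹ with hc
  have hc0 : 0 < c := inv_pos.mpr (by linarith)
  have h2l : 0 < 2 - l := by linarith
  refine ⟨c * Real.pi * p * l * (2 ^ (2 - l) / (2 - l)) + 1, ?_, ?_⟩
  · have : (0 : ℝ) ≤ 2 ^ (2 - l) := Real.rpow_nonneg (by norm_num) _
    positivity
  intro Ω F M hΩ h hM
  have hM0 : 0 < M := by linarith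
  set f' : ℝ → ℝ := fun x => c * (l * x * (1 + x ^ 2) ^ (-(l / 2) - 1)) with hf'
  have hf'c : Continuous f' := by
    simp only [hf']
    refine continuous_const.mul ((continuous_const.mul continuous_id).mul ?_)
    exact (by fun_prop : Continuous fun x : ℝ => 1 + x ^ 2).rpow_const
      (fun x => Or.inl (by positivity))
  have hf'0 : ∀ x, 0 ≤ x → 0 ≤ f' x := by
    intro x hx
    have : 0 ≤ (1 + x ^ 2) ^ (-(l / 2) - 1) := Real.rpow_nonneg (by positivity) _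
    simp only [hf']
    positivity
  set κ : ℝ → ENNReal := fun x => (Iio (2 * M)).indicator (fun x => ENNReal.ofReal (f' x)) x with hκ
  have hκM : Measurable κ := by
    simp only [hκ]
    exact (hf'c.measurable.ennreal_ofReal).indicator measurableSet_Iio
  have hlint : ∀ ρ : ℝ, 0 ≤ ρ → ρ ≤ 2 * M → ∫⁻ x in Ioi ρ, κ x =
      ENNReal.ofReal (c * ((1 + ρ ^ 2) ^ (-(l / 2)) - (1 + (2 * M) ^ 2) ^ (-(l / 2)))) := by
    intro ρ hρ hρM
    have h1 : ∫⁻ x in Ioi ρ, κ x = ∫⁻ x in Ioo ρ (2 * M), ENNReal.ofReal (f' x) := by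
      simp only [hκ]
      rw [lintegral_indicator measurableSet_Iio, Measure.restrict_restrict measurableSet_Iio,
        Set.inter_comm, Set.Ioi_inter_Iio]
    rw [h1, restrict_Ioo_eq_restrict_Ioc, ← ofReal_integral_eq_lintegral_ofReal,
      ← intervalIntegral.integral_of_le hρM]
    · congr 1
      have h2 : ∀ x ∈ Set.uIcc ρ (2 * M), HasDerivAt (fun x : ℝ => -c * (1 + x ^ 2) ^ (-(l / 2)))
          (f' x) x := by
        intro x _
        have h3 := ((dsq42 1 x).rpow_const (p := -(l / 2)) (Or.inl (by positivity))).const_mul (-c)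
        refine HasDerivAt.congr_deriv h3 ?_
        simp only [hf']
        ring
      rw [intervalIntegral.integral_eq_sub_of_hasDerivAt h2 (hf'c.intervalIntegrable _ _)]
      ring
    · exact (hf'c.integrableOn_Icc (a := ρ) (b := 2 * M)).mono_set Ioc_subset_Icc_self
    · rw [Filter.EventuallyLE, ae_restrict_iff' measurableSet_Ioc]
      exact Filter.Eventually.of_forall (fun x hx => hf'0 x (hρ.trans hx.1.le))
  -- the upper bound
  have hup : ∫⁻ x in Ioi (0 : ℝ), κ x * ENNReal.ofReal (Real.pi * p * x ^ 2) ≤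
      ENNReal.ofReal (c * Real.pi * p * l * ((2 * M) ^ (2 - l) / (2 - l))) := by
    have h1 : ∀ x, κ x * ENNReal.ofReal (Real.pi * p * x ^ 2) =
        (Iio (2 * M)).indicator (fun x => ENNReal.ofReal (f' x) *
          ENNReal.ofReal (Real.pi * p * x ^ 2)) x := by
      intro x
      simp only [hκ]
      by_cases hx : x ∈ Iio (2 * M)
      · rw [Set.indicator_of_mem hx, Set.indicator_of_mem hx]
      · rw [Set.indicator_of_notMem hx, Set.indicator_of_notMem hx, zero_mul]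
    rw [lintegral_congr h1, lintegral_indicator measurableSet_Iio,
      Measure.restrict_restrict measurableSet_Iio, Set.inter_comm, Set.Ioi_inter_Iio,
      restrict_Ioo_eq_restrict_Ioc]
    have h2 : ∀ x ∈ Ioc (0 : ℝ) (2 * M), ENNReal.ofReal (f' x) *
        ENNReal.ofReal (Real.pi * p * x ^ 2) ≤
        ENNReal.ofReal (c * Real.pi * p * l * x ^ (1 - l)) := by
      intro x hx
      have hx0 : 0 < x := hx.1
      rw [← ENNReal.ofReal_mul (hf'0 x hx0.le)]
      refine ENNReal.ofReal_le_ofReal ?_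
      have h3 : (1 + x ^ 2) ^ (-(l / 2) - 1) ≤ (x ^ 2) ^ (-(l / 2) - 1) :=
        Real.rpow_le_rpow_of_nonpos (by positivity) (by linarith) (by linarith)
      have h4 : (x ^ 2) ^ (-(l / 2) - 1) = x ^ (-l - 2) := by
        rw [← Real.rpow_natCast x 2, ← Real.rpow_mul hx0.le]
        congr 1
        push_cast
        ring
      have h5 : x ^ (1 - l) = x ^ 3 * x ^ (-l - 2) := by
        rw [← Real.rpow_natCast x 3, ← Real.rpow_add hx0]
        congr 1
        push_cast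
        ring
      rw [h4] at h3
      rw [h5]
      simp only [hf']
      calc c * (l * x * (1 + x ^ 2) ^ (-(l / 2) - 1)) * (Real.pi * p * x ^ 2)
          = c * Real.pi * p * l * x ^ 3 * (1 + x ^ 2) ^ (-(l / 2) - 1) := by ring
        _ ≤ c * Real.pi * p * l * x ^ 3 * x ^ (-l - 2) :=
            mul_le_mul_of_nonneg_left h3 (by positivity)
        _ = c * Real.pi * p * l * (x ^ 3 * x ^ (-l - 2)) := by ring
    refine (setLIntegral_mono' measurableSet_Ioc h2).trans ?_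
    have hii : IntervalIntegrable (fun x : ℝ => x ^ (1 - l)) volume 0 (2 * M) :=
      intervalIntegral.intervalIntegrable_rpow' (by linarith)
    have hio : IntegrableOn (fun x : ℝ => x ^ (1 - l)) (Ioc 0 (2 * M)) volume :=
      (intervalIntegrable_iff_integrableOn_Ioc_of_le (by linarith)).mp hii
    rw [← ofReal_integral_eq_lintegral_ofReal]
    · refine ENNReal.ofReal_le_ofReal ?_
      rw [integral_const_mul, ← intervalIntegral.integral_of_le (by linarith),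
        integral_rpow (Or.inl (by linarith))]
      have h5 : (0 : ℝ) ^ (1 - l + 1) = 0 := Real.zero_rpow (by linarith)
      have h6 : 1 - l + 1 = 2 - l := by ring
      rw [h5, h6, sub_zero]
    · exact hio.const_mul _
    · rw [Filter.EventuallyLE, ae_restrict_iff' measurableSet_Ioc]
      refine Filter.Eventually.of_forall (fun x hx => ?_)
      have : 0 ≤ x ^ (1 - l) := Real.rpow_nonneg hx.1.le _
      show 0 ≤ c * Real.pi * p * l * x ^ (1 - l)
      positivity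
  have hfin : c * Real.pi * p * l * ((2 * M) ^ (2 - l) / (2 - l)) ≤
      (c * Real.pi * p * l * (2 ^ (2 - l) / (2 - l)) + 1) * M ^ (2 - l) := by
    rw [Real.mul_rpow (by norm_num) hM0.le]
    have : 0 ≤ M ^ (2 - l) := Real.rpow_nonneg hM0.le _
    calc c * Real.pi * p * l * (2 ^ (2 - l) * M ^ (2 - l) / (2 - l))
        = c * Real.pi * p * l * (2 ^ (2 - l) / (2 - l)) * M ^ (2 - l) := by ring
      _ ≤ (c * Real.pi * p * l * (2 ^ (2 - l) / (2 - l)) + 1) * M ^ (2 - l) := by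
          nlinarith
  refine le_trans ?_ ((gen42 hΩ h hκM).trans (hup.trans (ENNReal.ofReal_le_ofReal hfin)))
  -- the set is measurable
  have hS : MeasurableSet {z | z ∈ Ω ∧ ‖F z‖ ≤ M} := by
    classical
    have huM : Measurable fun z => ‖Ω.piecewise F (fun _ => 0) z‖ := by
      refine Measurable.norm ?_
      exact (h.diff.continuousOn).measurable_piecewise continuousOn_const hΩ.measurableSet
    have h1 : {z | z ∈ Ω ∧ ‖F z‖ ≤ M} = Ω ∩ {z | ‖Ω.piecewise F (fun _ => 0) z‖ ≤ M} := by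
      ext z
      constructor
      · rintro ⟨h8, h9⟩
        refine ⟨h8, ?_⟩
        show ‖Ω.piecewise F (fun _ => 0) z‖ ≤ M
        rw [Set.piecewise_eq_of_mem _ _ _ h8]
        exact h9
      · rintro ⟨h8, h9⟩
        refine ⟨h8, ?_⟩
        have h10 : ‖Ω.piecewise F (fun _ => 0) z‖ ≤ M := h9
        rw [Set.piecewise_eq_of_mem _ _ _ h8] at h10
        exact h10
    rw [h1]
    exact hΩ.measurableSet.inter (measurableSet_le huM measurable_const)
  refine le_trans (setLIntegral_mono' hS (fun z hz => ?_))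
    (lintegral_mono_set (fun z hz => hz.1))
  have hρ0 : 0 ≤ ‖F z‖ := norm_nonneg _
  have hρM : ‖F z‖ ≤ M := hz.2
  rw [hlint _ hρ0 (by linarith), ← ENNReal.ofReal_mul (by positivity)]
  refine ENNReal.ofReal_le_ofReal (mul_le_mul_of_nonneg_left ?_ (by positivity))
  set ρ := ‖F z‖ with hρ
  set A := (1 + ρ ^ 2) ^ (-(l / 2)) with hA
  set B := (1 + (2 * M) ^ 2) ^ (-(l / 2)) with hB
  have h3 : B ≤ θ * A := by
    rw [hB, hθ, hA, ← Real.mul_rpow (by norm_num) (by positivity)]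
    refine Real.rpow_le_rpow_of_nonpos (by positivity) ?_ (by linarith)
    nlinarith
  have h4 : (1 - θ) * A ≤ A - B := by linarith
  have h5 : 0 < 1 - θ := by linarith
  calc A = c * ((1 - θ) * A) := by
        rw [hc]
        field_simp
    _ ≤ c * (A - B) := mul_le_mul_of_nonneg_left h4 hc0.le

end MQV
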