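import Pool.Agent.MQV.End
import Pool.Agent.MQV.Dfc
import Pool.Agent.MQV.Lay

set_option autoImplicit false

/-!
# MQV GRW : the growth theorem with the sharp exponent, and the deficit bound

`grow_core`: `F` in the strip, `|F| ≤ 1` on `Bz 0`, `b = max |F|` on `Bz T`, `T ≥ 1`, `b ≥ 2`.
`lay_energy` (`a = 1`): `∫ |dv|² ≤ 2πp log b + 2πp`; `end_left` (`X = 1`), `end_right` (`b' = b`),
`strip_deficit` with `x₀ = 0`:
`∫_{1<Re<T} |dv - 2p|² ≤ 2πp log b + 2πp - 4πp log b + C + 4πp² T = 2πp (2pT - log b) + C'`,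
and `log b ≤ 2pT + C''`.

`growth_disc`: rotate so that `z = x ∈ [0,1)`, `T = log((1+x)/(1-x))`; `F ζ = f(th ζ)/M`,
`T ∈ Bz T`.  If `T < 1` use `harnack`; if `b ≤ 2` trivial.
`growth`: `ratio_le`.
-/

open MeasureTheory Metric Set

namespace MQV

theorem grow_core {p : ℝ} (hp : 0 < p) : ∃ C : ℝ, 0 < C ∧ ∀ F : ℂ → ℂ, MV Str p F →
    ∀ T b : ℝ, 1 ≤ T → 2 ≤ b → (∀ ζ ∈ Bz 0, ‖F ζ‖ ≤ 1) → (∀ ζ ∈ Bz T, ‖F ζ‖ ≤ b) →
      (∃ ζ ∈ Bz T, b ≤ ‖F ζ‖) →
      Real.log b ≤ 2 * p * T + C ∧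
      ∫⁻ ζ in {ζ | ζ ∈ Str ∧ 1 < ζ.re ∧ ζ.re < T}, ENNReal.ofReal (‖dv F 1 b ζ - 2 * p‖ ^ 2) ≤
        ENNReal.ofReal (2 * Real.pi * p * (2 * p * T - Real.log b) + C) := by
  obtain ⟨C1, hC1, H1⟩ := end_left hp (X := 1) one_pos
  obtain ⟨C2, hC2, H2⟩ := end_right hp
  have hpi := Real.pi_pos
  refine ⟨(2 * Real.pi * p + 4 * p * (C1 + C2)) + (1 + 2 * (C1 + C2) / Real.pi), by positivity,
    fun F hF T b hT hb h0 hT1 hT2 => ?_⟩
  have hlog : 0 ≤ Real.log b := Real.log_nonneg (by linarith)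
  have e1 : ∫⁻ ζ in {ζ | ζ ∈ Str ∧ (0 : ℝ) < ζ.re ∧ ζ.re < 0 + 1},
      ENNReal.ofReal (lv F 1 b ζ - Real.log 1) ≤ ENNReal.ofReal C1 := by
    rw [zero_add]
    exact H1 F hF 1 b one_pos (by linarith) h0
  have e2 : ∫⁻ ζ in {ζ | ζ ∈ Str ∧ T < ζ.re ∧ ζ.re < T + 1},
      ENNReal.ofReal (Real.log b - lv F 1 b ζ) ≤ ENNReal.ofReal C2 :=
    H2 F hF T 1 b b one_pos (by linarith) le_rfl hT1 hT2
  have e3 := lay_energy isOpen_Str hp.le one_pos (a := 1) (b := b) (by linarith) hF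
  rw [div_one] at e3
  have e4 := strip_deficit hF.diff hp one_pos (b := b) (by linarith) (x₀ := 0) (T := T)
    (by linarith) hC1.le hC2.le (E := 2 * Real.pi * p * Real.log b + 2 * Real.pi * p)
    (by positivity) e1 e2 e3
  rw [div_one, zero_add, sub_zero] at e4
  obtain ⟨e4, e5⟩ := e4
  have e6 : 2 * Real.pi * p * Real.log b + 2 * Real.pi * p -
      4 * p * (Real.pi * Real.log b - C1 - C2) + 4 * p ^ 2 * Real.pi * T =
      2 * Real.pi * p * (2 * p * T - Real.log b) + (2 * Real.pi * p + 4 * p * (C1 + C2)) := by ring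
  rw [e6] at e4 e5
  have h1 : 0 ≤ 1 + 2 * (C1 + C2) / Real.pi := by positivity
  have h2 : 0 ≤ 2 * Real.pi * p + 4 * p * (C1 + C2) := by positivity
  constructor
  · have h3 : 2 * Real.pi * p * (2 * p * T - Real.log b) +
        (2 * Real.pi * p + 4 * p * (C1 + C2)) =
        2 * Real.pi * p * (2 * p * T - Real.log b + (1 + 2 * (C1 + C2) / Real.pi)) := by
      field_simp
      ring
    rw [h3] at e4
    have h4 := nonneg_of_mul_nonneg_right e4 (by positivity)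
    linarith
  · refine e5.trans (ENNReal.ofReal_le_ofReal ?_)
    linarith

theorem th_log {x : ℝ} (h0 : 0 ≤ x) (h1 : x < 1) :
    th ((Real.log ((1 + x) / (1 - x)) : ℝ) : ℂ) = x := by
  have h2 : 0 < (1 + x) / (1 - x) := div_pos (by linarith) (by linarith)
  unfold th
  rw [← Complex.ofReal_exp, Real.exp_log h2]
  have h3 : (1 - x : ℝ) ≠ 0 := by linarith
  have h4 : ((1 + x) / (1 - x) - 1) / ((1 + x) / (1 - x) + 1) = x := by
    field_simp
    ring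
  exact_mod_cast h4

theorem growth_disc {p : ℝ} (hp : 0 < p) : ∃ C : ℝ, 1 ≤ C ∧ ∀ f : ℂ → ℂ, MV (ball 0 1) p f →
    ∀ M : ℝ, 0 < M → (∀ z : ℂ, ‖z‖ ≤ 1 / 2 → ‖f z‖ ≤ M) →
      ∀ z ∈ ball (0 : ℂ) 1, ‖f z‖ ≤ C * M * ((1 + ‖z‖) / (1 - ‖z‖)) ^ (2 * p) := by
  obtain ⟨C0, hC0, H⟩ := grow_core hp
  have hexp := Real.exp_pos C0
  refine ⟨2 + Real.exp C0, by linarith, fun f hf M hM h0 z hz => ?_⟩
  have hz1 : ‖z‖ < 1 := by simpa using hz
  have hz0 := norm_nonneg z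
  set x := ‖z‖ with hx
  have hr1 : 1 ≤ (1 + x) / (1 - x) := by
    rw [le_div_iff₀ (by linarith)]
    linarith
  have hr2 : 1 ≤ ((1 + x) / (1 - x)) ^ (2 * p) := Real.one_le_rpow hr1 (by positivity)
  -- it is enough to have a bound by `2 M`
  have easy : ‖f z‖ ≤ 2 * M → ‖f z‖ ≤ (2 + Real.exp C0) * M * ((1 + x) / (1 - x)) ^ (2 * p) := by
    intro h
    calc ‖f z‖ ≤ 2 * M * 1 := by rw [mul_one]; exact h
      _ ≤ (2 + Real.exp C0) * M * ((1 + x) / (1 - x)) ^ (2 * p) := by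
        gcongr
        linarith
  by_cases hT : Real.log ((1 + x) / (1 - x)) < 1
  · have h1 : (1 + x) / (1 - x) < 3 := by
      have h2 : (1 + x) / (1 - x) < Real.exp 1 := by
        rwa [← Real.log_lt_iff_lt_exp (by linarith)]
      have h3 := Real.exp_one_lt_d9
      linarith
    rw [div_lt_iff₀ (by linarith)] at h1
    exact easy ((h0 z (by rw [← hx]; linarith)).trans (by linarith))
  · have hT1 : 1 ≤ Real.log ((1 + x) / (1 - x)) := not_lt.1 hT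
    set T := Real.log ((1 + x) / (1 - x)) with hTd
    have hx0 : x ≠ 0 := by
      intro h
      rw [hTd, h] at hT1
      norm_num at hT1
    have hzne : z ≠ 0 := fun h => hx0 (by rw [hx, h, norm_zero])
    set c : ℂ := z / x with hc
    have hxC : (x : ℂ) ≠ 0 := by exact_mod_cast hx0
    have hcn : ‖c‖ = 1 := by
      rw [hc, norm_div, Complex.norm_real, Real.norm_of_nonneg hz0, ← hx, div_self hx0]
    have hcx : c * x = z := div_mul_cancel₀ _ hxC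
    have hg : MV (ball 0 1) p (fun w => (M : ℂ)⁻¹ * f (c * w)) :=
      (hf.rot hcn).const_mul isOpen_ball hp.le _
    have hF := hg.toStr
    set F : ℂ → ℂ := fun ζ => (M : ℂ)⁻¹ * f (c * th ζ) with hFd
    have hFn : ∀ ζ, ‖F ζ‖ = ‖f (c * th ζ)‖ / M := by
      intro ζ
      rw [hFd]
      simp only [norm_mul, norm_inv, Complex.norm_real, Real.norm_of_nonneg hM.le]
      rw [inv_mul_eq_div]
    have hB0 : ∀ ζ ∈ Bz 0, ‖F ζ‖ ≤ 1 := by
      intro ζ hζ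
      rw [hFn, div_le_one hM]
      refine h0 _ ?_
      rw [norm_mul, hcn, one_mul]
      have h1 := hζ.2
      rwa [Complex.ofReal_zero, sub_zero] at h1
    have hcont : ContinuousOn (fun ζ => ‖F ζ‖) (Bz T) :=
      (hF.diff.continuousOn.mono fun ζ hζ => hζ.1).norm
    obtain ⟨ζ1, hζ1, hmax⟩ := (isCompact_Bz T).exists_isMaxOn ⟨_, real_mem_Bz T⟩ hcont
    have hmax' : ∀ ζ ∈ Bz T, ‖F ζ‖ ≤ ‖F ζ1‖ := fun ζ hζ => hmax hζ
    have hFT : ‖f z‖ / M ≤ ‖F ζ1‖ := by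
      have h1 := hmax' _ (real_mem_Bz T)
      rwa [hFn T, hTd, th_log hz0 hz1, hcx] at h1
    by_cases hb : 2 ≤ ‖F ζ1‖
    · have h1 := (H F hF T ‖F ζ1‖ hT1 hb hB0 hmax' ⟨ζ1, hζ1, le_rfl⟩).1
      have h2 : ‖F ζ1‖ ≤ Real.exp C0 * ((1 + x) / (1 - x)) ^ (2 * p) := by
        have h3 : ‖F ζ1‖ = Real.exp (Real.log ‖F ζ1‖) := (Real.exp_log (by linarith)).symm
        rw [h3, Real.rpow_def_of_pos (by linarith), ← Real.exp_add]
        refine Real.exp_le_exp.2 ?_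
        rw [← hTd]
        linarith
      have h3 := hFT.trans h2
      rw [div_le_iff₀ hM] at h3
      refine h3.trans ?_
      have h4 : Real.exp C0 * ((1 + x) / (1 - x)) ^ (2 * p) * M =
          Real.exp C0 * M * ((1 + x) / (1 - x)) ^ (2 * p) := by ring
      rw [h4]
      gcongr
      linarith
    · refine easy ?_
      have h1 := hFT.trans (not_le.1 hb).le
      rwa [div_le_iff₀ hM] at h1

/-- growth in the strip, from the disc about the real point `x` -/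
theorem growth {p : ℝ} (hp : 0 < p) : ∃ C : ℝ, 1 ≤ C ∧ ∀ F : ℂ → ℂ, MV Str p F →
    ∀ x M : ℝ, 0 < M → (∀ ζ ∈ Bz x, ‖F ζ‖ ≤ M) →
      ∀ w ∈ Str, ‖F w‖ ≤ C * M * (Real.exp |w.re - x| / Real.cos w.im) ^ (2 * p) := by
  obtain ⟨C, hC, H⟩ := growth_disc hp
  have h4 : (1 : ℝ) ≤ 4 ^ (2 * p) := Real.one_le_rpow (by norm_num) (by positivity)
  refine ⟨C * 4 ^ (2 * p), one_le_mul_of_one_le_of_one_le hC h4, fun F hF x M hM hB w hw => ?_⟩
  have hf := (hF.shift x).toBall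
  have hb : ∀ z : ℂ, ‖z‖ ≤ 1 / 2 → ‖F (lg z + x)‖ ≤ M := by
    intro z hz
    have hz1 : z ∈ ball (0 : ℂ) 1 := by
      rw [mem_ball_zero_iff]
      linarith
    refine hB _ ⟨(Str_add_real x).2 (lg_mapsTo hz1), ?_⟩
    rw [add_sub_cancel_right, th_lg hz1]
    exact hz
  have hwx : w - x ∈ Str := (Str_sub_real x).2 hw
  have h1 := H _ hf M hM hb (th (w - x)) (th_mapsTo hwx)
  have h2 : F (lg (th (w - x)) + x) = F w := by rw [lg_th hwx, sub_add_cancel]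
  have h1' : ‖F (lg (th (w - x)) + x)‖ ≤
    C * M * ((1 + ‖th (w - x)‖) / (1 - ‖th (w - x)‖)) ^ (2 * p) := h1
  rw [h2] at h1'
  have h3 := ratio_le hwx
  have h5 : (w - (x : ℂ)).re = w.re - x := by simp
  have h6 : (w - (x : ℂ)).im = w.im := by simp
  rw [h5, h6] at h3
  have hw' : |w.im| < Real.pi / 2 := hw
  have hcos : 0 < Real.cos w.im := Real.cos_pos_of_mem_Ioo (by
    rw [abs_lt] at hw'
    exact ⟨by linarith [hw'.1], hw'.2⟩)
  have h7 : ‖th (w - x)‖ < 1 := by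
    have := th_mapsTo hwx
    rwa [mem_ball_zero_iff] at this
  calc ‖F w‖ ≤ C * M * ((1 + ‖th (w - x)‖) / (1 - ‖th (w - x)‖)) ^ (2 * p) := h1'
    _ ≤ C * M * (4 * Real.exp |w.re - x| / Real.cos w.im) ^ (2 * p) := by
      have h8 : 0 ≤ (1 + ‖th (w - x)‖) / (1 - ‖th (w - x)‖) :=
        div_nonneg (by positivity) (by linarith)
      gcongr
    _ = C * 4 ^ (2 * p) * M * (Real.exp |w.re - x| / Real.cos w.im) ^ (2 * p) := by
      rw [mul_div_assoc, Real.mul_rpow (by norm_num) (by positivity)]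
      ring

end MQV
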