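import Pool.Agent.MQV.Cdf

set_option autoImplicit false

/-!
# MQV BRX : energy of one branch

PROOF of `one_branch`.  `C₀` of `growth_disc`; `x₀ ≥ 1` with `2 e^{-x₀} ≤ κ/4`; `X = x₀ + 1`; `c₁` of
`end_left` (`X`), `c₂` of `end_right`.  Put `b = ε e^{2pd}`, `D = log ((1+‖z‖)/(1-‖z‖)) ≤ d`.
* Growth (`M = 1`): `b ≤ ‖f z‖ ≤ C₀ e^{2pD}`, so `D ≥ d - C₃`, `C₃ = log (C₀/ε)/(2p)`.  Let `D₀` be so
  large that for `d ≥ D₀`: `D ≥ x₀ + 1`, `b ≥ 1`, `c₁ + c₂ ≤ π log b`, and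
  `1 - ‖z‖ ≤ 2 e^{-D} ≤ κ/4` (`1 - ‖z‖ = 2/(1+e^D)`).
* `v = z/‖z‖` (`z ≠ 0` because `D > 0`), `F ζ = f (v * th ζ)`: `MV Str p F` (`MV.rot`, `MV.toStr`),
  `F D = f z` (`th D = ‖z‖`), `‖F‖ ≤ 1` on `Bz 0`.
  `b'` = maximum of `‖F‖` on the compact set `Bz D` (`isCompact_Bz`, `real_mem_Bz`), `b ≤ b'`.
* `strip_lower` with `a = 1`, `b`, `x₀`, `T = D`, `c₁`, `c₂` (hypothesis `h1` from `end_left`
  restricted to the smaller set, `h2` from `end_right`): the energy of `F` over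
  `U = {ζ ∈ Str, x₀ < Re ζ < D+1}` is at least `(π log b - c₁ - c₂)²/(π (D+1-x₀))`, and
  `D + 1 - x₀ ≤ d`; `π log b - c₁ - c₂ ≥ 2πp d - C` with `C = c₁ + c₂ + π |log ε|`; enlarge `D₀` so
  that `2πp d - C ≥ 0`.
* `φ ζ = v * th ζ` is injective analytic on `U`, `dv F 1 b ζ = dv f 1 b (φ ζ) * φ' ζ`, so by the
  change of variables (`lintegral_image_eq_lintegral_abs_det_fderiv_mul`, compare
  `Pool/Agent/MPV/Trf.lean`) the energy of `F` over `U` is that of `f` over `φ '' U`, and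
  `φ '' U ⊆ {w ∈ ball 0 1, ‖w - z‖ < κ}`: `‖th ζ - 1‖ = 2/‖e^ζ+1‖ ≤ 2 e^{-x₀} ≤ κ/4`
  (`Re e^ζ > 0`), `‖v - z‖ = 1 - ‖z‖ ≤ κ/4`.
-/

open MeasureTheory Metric Set

namespace MQV

theorem dv_comp {f φ : ℂ → ℂ} {a b : ℝ} {ζ : ℂ} (hf : DifferentiableAt ℂ f (φ ζ))
    (hφ : DifferentiableAt ℂ φ ζ) :
    dv (fun w => f (φ w)) a b ζ = dv f a b (φ ζ) * deriv φ ζ := by
  have h1 : deriv (fun w => f (φ w)) ζ = deriv f (φ ζ) * deriv φ ζ :=
    (hf.hasDerivAt.comp ζ hφ.hasDerivAt).deriv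
  unfold dv
  rw [h1]
  ring

namespace Brx

theorem det_smul (w : ℂ) : (w • (1 : ℂ →L[ℝ] ℂ)).det = ‖w‖ ^ 2 := by
  have h1 : ((w • (1 : ℂ →L[ℝ] ℂ) : ℂ →L[ℝ] ℂ) : ℂ →ₗ[ℝ] ℂ) = Algebra.lmul ℝ ℂ w := by
    ext z
    simp
  rw [ContinuousLinearMap.det, h1]
  have := Algebra.norm_complex_apply w
  rw [Algebra.norm_apply] at this
  rw [this, Complex.normSq_eq_norm_sq]

/-- `‖th ζ - 1‖ ≤ 2 e^{-Re ζ}` -/
theorem th_sub_one {ζ : ℂ} (h : ζ ∈ Str) : ‖th ζ - 1‖ ≤ 2 * Real.exp (-ζ.re) := by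
  have h1 := exp_re_pos h
  have h2 : Complex.exp ζ + 1 ≠ 0 := by
    intro h0
    have h3 : (Complex.exp ζ + 1).re = 0 := by rw [h0]; rfl
    rw [Complex.add_re, Complex.one_re] at h3
    linarith
  have h4 : th ζ - 1 = -2 / (Complex.exp ζ + 1) := by
    unfold th
    field_simp
    ring
  have h5 : Real.exp ζ.re ≤ ‖Complex.exp ζ + 1‖ := by
    rw [← Complex.norm_exp ζ]
    refine (pow_le_pow_iff_left₀ (norm_nonneg _) (norm_nonneg _) two_ne_zero).1 ?_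
    rw [← Complex.normSq_eq_norm_sq, ← Complex.normSq_eq_norm_sq, Complex.normSq_apply,
      Complex.normSq_apply, Complex.add_re, Complex.add_im, Complex.one_re, Complex.one_im]
    nlinarith
  rw [h4, norm_div, norm_neg, Complex.norm_ofNat, Real.exp_neg, ← div_eq_mul_inv]
  exact div_le_div_of_nonneg_left (by norm_num) (Real.exp_pos _) h5

/-- `th (log ((1+r)/(1-r))) = r` -/
theorem th_log {r : ℝ} (h0 : 0 ≤ r) (h1 : r < 1) :
    th ((Real.log ((1 + r) / (1 - r)) : ℝ) : ℂ) = r := by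
  have h2 : 0 < 1 - r := by linarith
  have h3 : 0 < (1 + r) / (1 - r) := div_pos (by linarith) h2
  unfold th
  rw [← Complex.ofReal_exp, Real.exp_log h3]
  have h4 : (1 + r) / (1 - r) + 1 ≠ 0 := by positivity
  have h5 : ((1 + r) / (1 - r) - 1) / ((1 + r) / (1 - r) + 1) = r := by
    rw [div_eq_iff h4]
    field_simp
    ring
  rw [← Complex.ofReal_one, ← Complex.ofReal_sub, ← Complex.ofReal_add, ← Complex.ofReal_div, h5]

/-- energy of `F ζ = f (v th ζ)` over an open part of the strip -/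
theorem energy_eq {f : ℂ → ℂ} (hf : DifferentiableOn ℂ f (ball 0 1)) {v : ℂ} (hv : ‖v‖ = 1)
    {U : Set ℂ} (hU : IsOpen U) (hUS : U ⊆ Str) (a b : ℝ) :
    ∫⁻ ζ in U, ENNReal.ofReal (‖dv (fun ζ => f (v * th ζ)) a b ζ‖ ^ 2) =
      ∫⁻ w in (fun ζ => v * th ζ) '' U, ENNReal.ofReal (‖dv f a b w‖ ^ 2) := by
  have hv0 : v ≠ 0 := by
    rintro rfl
    rw [norm_zero] at hv
    exact zero_ne_one hv
  have hd : ∀ ζ ∈ U, HasDerivAt (fun ζ => v * th ζ)
      (v * (2 * Complex.exp ζ / (Complex.exp ζ + 1) ^ 2)) ζ := fun ζ hζ =>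
    (hasDerivAt_th (hUS hζ)).const_mul v
  have hinj : InjOn (fun ζ => v * th ζ) U := by
    intro x hx y hy hxy
    exact th_injOn (hUS hx) (hUS hy) (mul_left_cancel₀ hv0 hxy)
  have hder : ∀ z ∈ U, HasFDerivWithinAt (fun ζ => v * th ζ)
      ((v * (2 * Complex.exp z / (Complex.exp z + 1) ^ 2)) • (1 : ℂ →L[ℝ] ℂ)) U z := fun z hz =>
    (hd z hz).complexToReal_fderiv.hasFDerivWithinAt
  rw [lintegral_image_eq_lintegral_abs_det_fderiv_mul (volume : Measure ℂ) hU.measurableSet hder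
    hinj]
  refine setLIntegral_congr_fun hU.measurableSet fun ζ hζ => ?_
  have hm : v * th ζ ∈ ball (0 : ℂ) 1 := by
    rw [mem_ball_zero_iff, norm_mul, hv, one_mul]
    exact mem_ball_zero_iff.1 (th_mapsTo (hUS hζ))
  have h1 : dv (fun ζ => f (v * th ζ)) a b ζ = dv f a b (v * th ζ) *
      (v * (2 * Complex.exp ζ / (Complex.exp ζ + 1) ^ 2)) := by
    rw [← (hd ζ hζ).deriv]
    exact dv_comp (f := f) (φ := fun ζ => v * th ζ)
      (hf.differentiableAt (isOpen_ball.mem_nhds hm)) (hd ζ hζ).differentiableAt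
  change ENNReal.ofReal (‖dv (fun ζ => f (v * th ζ)) a b ζ‖ ^ 2) = _
  rw [h1, det_smul, abs_of_nonneg (sq_nonneg _), ← ENNReal.ofReal_mul (sq_nonneg _)]
  congr 1
  rw [norm_mul _ (v * (2 * Complex.exp ζ / (Complex.exp ζ + 1) ^ 2)), mul_pow]
  ring

theorem isOpen_slab (A B : ℝ) : IsOpen {ζ : ℂ | ζ ∈ Str ∧ A < ζ.re ∧ ζ.re < B} :=
  isOpen_Str.inter ((isOpen_lt continuous_const Complex.continuous_re).inter
    (isOpen_lt Complex.continuous_re continuous_const))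

end Brx

open Brx in
theorem one_branch {p : ℝ} (hp : 0 < p) {ε κ : ℝ} (hε : 0 < ε) (hκ : 0 < κ) : ∃ C D₀ : ℝ, 0 ≤ C ∧
    0 < D₀ ∧ ∀ f : ℂ → ℂ, Nd p f → ∀ d : ℝ, D₀ ≤ d → ∀ z ∈ ball (0 : ℂ) 1,
      (1 + ‖z‖) / (1 - ‖z‖) ≤ Real.exp d → ε * Real.exp (2 * p * d) ≤ ‖f z‖ →
      0 ≤ 2 * Real.pi * p * d - C ∧
      ENNReal.ofReal ((2 * Real.pi * p * d - C) ^ 2 / (Real.pi * d)) ≤
        ∫⁻ w in {w | w ∈ ball (0 : ℂ) 1 ∧ ‖w - z‖ < κ},
          ENNReal.ofReal (‖dv f 1 (ε * Real.exp (2 * p * d)) w‖ ^ 2) := by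
  obtain ⟨C₀, hC₀, hgr⟩ := growth_disc hp
  have hpi := Real.pi_pos
  obtain ⟨x₀, hx1, hx2⟩ : ∃ x₀ : ℝ, 1 ≤ x₀ ∧ 2 * Real.exp (-x₀) ≤ κ / 4 := by
    refine ⟨max 1 (Real.log (8 / κ)), le_max_left _ _, ?_⟩
    have h1 : Real.exp (-(max 1 (Real.log (8 / κ)))) ≤ Real.exp (-Real.log (8 / κ)) :=
      Real.exp_le_exp.2 (neg_le_neg (le_max_right _ _))
    rw [Real.exp_neg (Real.log (8 / κ)), Real.exp_log (by positivity)] at h1
    have h2 : (8 / κ)⁻¹ = κ / 8 := by rw [inv_div]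
    rw [h2] at h1
    linarith
  obtain ⟨c₁, hc₁, hel⟩ := end_left hp (X := x₀ + 1) (by linarith)
  obtain ⟨c₂, hc₂, her⟩ := end_right hp
  have hCpos : 0 ≤ c₁ + c₂ + Real.pi * |Real.log ε| := by positivity
  refine ⟨c₁ + c₂ + Real.pi * |Real.log ε|,
    max 1 (max (x₀ + 1 + Real.log (C₀ / ε) / (2 * p))
      ((c₁ + c₂ + Real.pi * |Real.log ε|) / (2 * Real.pi * p))), hCpos,
    lt_of_lt_of_le one_pos (le_max_left _ _), ?_⟩
  intro f hf d hd z hz hzd hzf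
  have hd1 : 1 ≤ d := (le_max_left _ _).trans hd
  have hd2 : x₀ + 1 + Real.log (C₀ / ε) / (2 * p) ≤ d :=
    ((le_max_left _ _).trans (le_max_right _ _)).trans hd
  have hd3 : (c₁ + c₂ + Real.pi * |Real.log ε|) / (2 * Real.pi * p) ≤ d :=
    ((le_max_right _ _).trans (le_max_right _ _)).trans hd
  have hCd : 0 ≤ 2 * Real.pi * p * d - (c₁ + c₂ + Real.pi * |Real.log ε|) := by
    rw [div_le_iff₀ (by positivity)] at hd3
    linarith
  refine ⟨hCd, ?_⟩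
  have hb : 0 < ε * Real.exp (2 * p * d) := mul_pos hε (Real.exp_pos _)
  set b : ℝ := ε * Real.exp (2 * p * d) with hbdef
  have hlogb : Real.log b = Real.log ε + 2 * p * d := by
    rw [hbdef, Real.log_mul hε.ne' (Real.exp_pos _).ne', Real.log_exp]
  have hlogb2 : 2 * Real.pi * p * d - (c₁ + c₂ + Real.pi * |Real.log ε|) ≤
      Real.pi * Real.log b - c₁ - c₂ := by
    rw [hlogb]
    have h1 := neg_abs_le (Real.log ε)
    have h2 : Real.pi * (-|Real.log ε|) ≤ Real.pi * Real.log ε :=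
      mul_le_mul_of_nonneg_left h1 hpi.le
    nlinarith
  have hb1 : 1 ≤ b := by
    have h1 : 0 ≤ Real.log b := by
      by_contra hneg
      push Not at hneg
      have h2 : Real.pi * Real.log b < 0 := mul_neg_of_pos_of_neg hpi hneg
      linarith
    exact (Real.log_nonneg_iff hb).1 h1
  -- the point `z`
  have hz1 : ‖z‖ < 1 := mem_ball_zero_iff.1 hz
  have hz0 := norm_nonneg z
  have h1z : 0 < 1 - ‖z‖ := by linarith
  have hq : 0 < (1 + ‖z‖) / (1 - ‖z‖) := div_pos (by linarith) h1z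
  set D : ℝ := Real.log ((1 + ‖z‖) / (1 - ‖z‖)) with hD
  have hexpD : Real.exp D = (1 + ‖z‖) / (1 - ‖z‖) := Real.exp_log hq
  have hDd : D ≤ d := by
    rw [← Real.exp_le_exp, hexpD]
    exact hzd
  have hDx : x₀ + 1 ≤ D := by
    have h1 := hgr f hf.mv 1 one_pos hf.one z hz
    rw [← hexpD, ← Real.exp_mul, mul_one] at h1
    have h2 : ε * Real.exp (2 * p * d) ≤ C₀ * Real.exp (D * (2 * p)) := hzf.trans h1
    have h3 : Real.log (ε * Real.exp (2 * p * d)) ≤ Real.log (C₀ * Real.exp (D * (2 * p))) :=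
      Real.log_le_log hb h2
    rw [Real.log_mul hε.ne' (Real.exp_pos _).ne', Real.log_mul (by linarith) (Real.exp_pos _).ne',
      Real.log_exp, Real.log_exp] at h3
    rw [Real.log_div (by linarith) hε.ne'] at hd2
    have h4 : d - (Real.log C₀ - Real.log ε) / (2 * p) ≤ D := by
      rw [sub_le_iff_le_add, ← sub_le_iff_le_add', le_div_iff₀ (by positivity)]
      linarith
    linarith
  have hzne : z ≠ 0 := by
    rintro rfl
    rw [hD] at hDx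
    simp only [norm_zero, add_zero, sub_zero, div_one, Real.log_one] at hDx
    linarith
  have hzn : 0 < ‖z‖ := norm_pos_iff.2 hzne
  have hz4 : 1 - ‖z‖ ≤ κ / 4 := by
    have h1 : Real.exp D * (1 - ‖z‖) = 1 + ‖z‖ := by
      rw [hexpD]
      field_simp
    have h2 : Real.exp x₀ ≤ Real.exp D := Real.exp_le_exp.2 (by linarith)
    have h3 : Real.exp x₀ * (1 - ‖z‖) ≤ 2 := by
      have := mul_le_mul_of_nonneg_right h2 h1z.le
      linarith
    have h4 : Real.exp x₀ * Real.exp (-x₀) = 1 := by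
      rw [← Real.exp_add, add_neg_cancel, Real.exp_zero]
    have h5 := Real.exp_pos (-x₀)
    have h6 : 1 - ‖z‖ ≤ 2 * Real.exp (-x₀) := by
      calc 1 - ‖z‖ = (Real.exp x₀ * (1 - ‖z‖)) * Real.exp (-x₀) := by
            rw [mul_right_comm, h4, one_mul]
        _ ≤ 2 * Real.exp (-x₀) := mul_le_mul_of_nonneg_right h3 h5.le
    linarith
  set v : ℂ := z / ‖z‖ with hvdef
  have hv : ‖v‖ = 1 := by
    rw [hvdef, norm_div, Complex.norm_real, norm_norm, div_self hzn.ne']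
  have hvz : v * (‖z‖ : ℂ) = z := by
    rw [hvdef]
    have : (‖z‖ : ℂ) ≠ 0 := by exact_mod_cast hzn.ne'
    field_simp
  -- the function on the strip
  have hF : MV Str p (fun ζ => f (v * th ζ)) := (hf.mv.rot hv).toStr
  have hFD : f (v * th (D : ℂ)) = f z := by
    rw [hD, th_log hz0 hz1, hvz]
  have hF0 : ∀ ζ ∈ Bz 0, ‖f (v * th ζ)‖ ≤ 1 := by
    rintro ζ ⟨-, h2⟩
    refine hf.one _ ?_
    rw [norm_mul, hv, one_mul]
    simpa using h2
  have hcont : ContinuousOn (fun ζ => ‖f (v * th ζ)‖) (Bz D) :=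
    (hF.diff.continuousOn.mono fun ζ hζ => hζ.1).norm
  obtain ⟨ζ₁, hζ₁, hmax⟩ := (isCompact_Bz D).exists_isMaxOn ⟨_, real_mem_Bz D⟩ hcont
  have hmax' : ∀ ζ ∈ Bz D, ‖f (v * th ζ)‖ ≤ ‖f (v * th ζ₁)‖ := fun ζ hζ => hmax hζ
  have hbb' : b ≤ ‖f (v * th ζ₁)‖ := by
    have h1 := hmax' _ (real_mem_Bz D)
    rw [hFD] at h1
    exact hzf.trans h1
  have hl := hel _ hF 1 b one_pos hb1 hF0
  have hr := her _ hF D 1 b ‖f (v * th ζ₁)‖ one_pos hb1 hbb' hmax' ⟨ζ₁, hζ₁, le_rfl⟩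
  have hlow := strip_lower (F := fun ζ => f (v * th ζ)) hF.diff (a := 1) (b := b) (x₀ := x₀)
    (T := D) (c₁ := c₁) (c₂ := c₂) one_pos hb1 hDx hc₁.le hc₂.le
    (by rw [div_one]; linarith)
    (by
      refine le_trans (lintegral_mono_set ?_) hl
      rintro ζ ⟨h1, h2, h3⟩
      exact ⟨h1, by linarith, by linarith⟩)
    hr
  rw [div_one] at hlow
  refine le_trans (ENNReal.ofReal_le_ofReal ?_) (hlow.trans ?_)
  · have h1 : 0 < D + 1 - x₀ := by linarith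
    refine div_le_div₀ (sq_nonneg _) ?_ (by positivity) ?_
    · exact pow_le_pow_left₀ hCd hlogb2 2
    · exact mul_le_mul_of_nonneg_left (by linarith) hpi.le
  · rw [energy_eq hf.mv.diff hv (isOpen_slab x₀ (D + 1)) (fun ζ hζ => hζ.1) 1 b]
    refine lintegral_mono_set ?_
    rintro _ ⟨ζ, ⟨h1, h2, h3⟩, rfl⟩
    have hth := mem_ball_zero_iff.1 (th_mapsTo h1)
    refine ⟨?_, ?_⟩
    · change v * th ζ ∈ ball (0 : ℂ) 1
      rw [mem_ball_zero_iff, norm_mul, hv, one_mul]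
      exact hth
    · change ‖v * th ζ - z‖ < κ
      have h4 : v * th ζ - z = v * (th ζ - 1) + v * ((1 - ‖z‖ : ℝ) : ℂ) := by
        push_cast
        linear_combination hvz
      have h5 : ‖v * th ζ - z‖ ≤ ‖th ζ - 1‖ + (1 - ‖z‖) := by
        rw [h4]
        refine (norm_add_le _ _).trans ?_
        rw [norm_mul, norm_mul, hv, one_mul, one_mul, Complex.norm_real,
          Real.norm_of_nonneg h1z.le]
      have h6 := th_sub_one h1
      have h7 : Real.exp (-ζ.re) ≤ Real.exp (-x₀) := Real.exp_le_exp.2 (by linarith)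
      linarith

end MQV
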