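import Pool.Agent.MQV.Bas
import Pool.Agent.MPV.Trf
import Pool.Agent.MPV.Area

set_option autoImplicit false

/-!
# MQV CMP : mean valence under injective changes of variable, scaling; link with the disc

The proofs follow `Pool/Agent/MPV/Trf.lean` (`Cls.comp`) and `Pool/Agent/MPV/Area.lean`
(`area_formula`); the tool is Mathlib's
`MeasureTheory.lintegral_image_eq_lintegral_abs_det_fderiv_mul`.
-/

open MeasureTheory Metric Set

namespace MQV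

private theorem meas_set {Ω : Set ℂ} (hΩ : IsOpen Ω) {F : ℂ → ℂ} (hF : ContinuousOn F Ω)
    (a b : ℝ) : MeasurableSet {z | z ∈ Ω ∧ a ≤ ‖F z‖ ∧ ‖F z‖ < b} := by
  have h1 : ∀ c : ℝ, IsOpen (Ω ∩ (fun z => ‖F z‖) ⁻¹' Iio c) := fun c =>
    hF.norm.isOpen_inter_preimage hΩ isOpen_Iio
  have h2 : {z | z ∈ Ω ∧ a ≤ ‖F z‖ ∧ ‖F z‖ < b} =
      (Ω ∩ (fun z => ‖F z‖) ⁻¹' Iio b) \ (Ω ∩ (fun z => ‖F z‖) ⁻¹' Iio a) := by
    ext z
    constructor
    · rintro ⟨h3, h4, h5⟩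
      exact ⟨⟨h3, h5⟩, fun h6 => absurd h6.2 (not_lt.2 h4)⟩
    · rintro ⟨⟨h3, h5⟩, h6⟩
      exact ⟨h3, not_lt.1 fun h7 => h6 ⟨h3, h7⟩, h5⟩
  rw [h2]
  exact (h1 b).measurableSet.diff (h1 a).measurableSet

/-- The area in a band of levels is additive. -/
theorem ar_add {Ω : Set ℂ} (hΩ : IsOpen Ω) {F : ℂ → ℂ} (hF : DifferentiableOn ℂ F Ω) {a b c : ℝ}
    (hab : a ≤ b) (hbc : b ≤ c) : ar Ω F a b + ar Ω F b c = ar Ω F a c := by
  unfold ar
  rw [← lintegral_union (meas_set hΩ hF.continuousOn b c)]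
  · congr 2
    ext z
    constructor
    · rintro (⟨h1, h2, h3⟩ | ⟨h1, h2, h3⟩)
      · exact ⟨h1, h2, lt_of_lt_of_le h3 hbc⟩
      · exact ⟨h1, hab.trans h2, h3⟩
    · rintro ⟨h1, h2, h3⟩
      rcases lt_or_ge ‖F z‖ b with h4 | h4
      · exact Or.inl ⟨h1, h2, h4⟩
      · exact Or.inr ⟨h1, h4, h3⟩
  · rw [Set.disjoint_left]
    rintro z ⟨-, -, h1⟩ ⟨-, h2, -⟩
    exact absurd h1 (not_lt.2 h2)

theorem ar_mono {Ω Ω' : Set ℂ} {F : ℂ → ℂ} {a b a' b' : ℝ} (hΩ : Ω ⊆ Ω') (ha : a' ≤ a)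
    (hb : b ≤ b') : ar Ω F a b ≤ ar Ω' F a' b' := by
  unfold ar
  refine lintegral_mono_set ?_
  rintro z ⟨h1, h2, h3⟩
  exact ⟨hΩ h1, ha.trans h2, lt_of_lt_of_le h3 hb⟩

theorem ar_neg_left {Ω : Set ℂ} {F : ℂ → ℂ} {a b : ℝ} (ha : a ≤ 0) : ar Ω F a b = ar Ω F 0 b := by
  unfold ar
  congr 2
  ext z
  constructor
  · rintro ⟨h1, -, h3⟩
    exact ⟨h1, norm_nonneg _, h3⟩
  · rintro ⟨h1, -, h3⟩
    exact ⟨h1, ha.trans (norm_nonneg _), h3⟩

private theorem det_smul_one' (w : ℂ) : (w • (1 : ℂ →L[ℝ] ℂ)).det = ‖w‖ ^ 2 := by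
  have h1 : ((w • (1 : ℂ →L[ℝ] ℂ) : ℂ →L[ℝ] ℂ) : ℂ →ₗ[ℝ] ℂ) = Algebra.lmul ℝ ℂ w := by
    ext z
    simp
  rw [ContinuousLinearMap.det, h1]
  have := Algebra.norm_complex_apply w
  rw [Algebra.norm_apply] at this
  rw [this, Complex.normSq_eq_norm_sq]

/-- Change of variables: `G = F ∘ φ` on `Ω'`, `φ` injective analytic, `Ω' → Ω`. -/
theorem ar_comp_le {Ω Ω' : Set ℂ} (hΩ' : IsOpen Ω') (hΩ : IsOpen Ω) {F G φ : ℂ → ℂ}
    (hF : DifferentiableOn ℂ F Ω) (hφ : DifferentiableOn ℂ φ Ω') (hm : MapsTo φ Ω' Ω)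
    (hi : InjOn φ Ω') (hG : ∀ z ∈ Ω', G z = F (φ z)) (a b : ℝ) :
    ar Ω' G a b ≤ ar Ω F a b := by
  have hFφ : DifferentiableOn ℂ (fun z => F (φ z)) Ω' := hF.comp hφ hm
  have hGd : DifferentiableOn ℂ G Ω' := hFφ.congr hG
  obtain ⟨s, hs⟩ : ∃ s : Set ℂ, s = {z | z ∈ Ω' ∧ a ≤ ‖G z‖ ∧ ‖G z‖ < b} := ⟨_, rfl⟩
  have hsm : MeasurableSet s := by
    rw [hs]
    exact meas_set hΩ' hGd.continuousOn a b
  have hsΩ : ∀ z ∈ s, z ∈ Ω' := by
    intro z hz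
    rw [hs] at hz
    exact hz.1
  have hφd : ∀ z ∈ Ω', DifferentiableAt ℂ φ z := fun z hz =>
    hφ.differentiableAt (hΩ'.mem_nhds hz)
  have hFd : ∀ z ∈ Ω, DifferentiableAt ℂ F z := fun z hz =>
    hF.differentiableAt (hΩ.mem_nhds hz)
  have hder : ∀ z ∈ s, HasFDerivWithinAt φ (deriv φ z • (1 : ℂ →L[ℝ] ℂ)) s z := fun z hz =>
    ((hφd z (hsΩ z hz)).hasDerivAt.complexToReal_fderiv).hasFDerivWithinAt
  have key := lintegral_image_eq_lintegral_abs_det_fderiv_mul (volume : Measure ℂ)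
    hsm hder (hi.mono fun z hz => hsΩ z hz) (fun w => ENNReal.ofReal (‖deriv F w‖ ^ 2))
  have hsub : φ '' s ⊆ {w | w ∈ Ω ∧ a ≤ ‖F w‖ ∧ ‖F w‖ < b} := by
    rintro _ ⟨z, hz, rfl⟩
    have hz' := hz
    rw [hs] at hz'
    have h2 := hz'.2
    rw [hG z hz'.1] at h2
    exact ⟨hm hz'.1, h2⟩
  unfold ar
  rw [← hs]
  calc ∫⁻ z in s, ENNReal.ofReal (‖deriv G z‖ ^ 2)
      = ∫⁻ z in s, ENNReal.ofReal |(deriv φ z • (1 : ℂ →L[ℝ] ℂ)).det| *
          ENNReal.ofReal (‖deriv F (φ z)‖ ^ 2) := by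
        refine setLIntegral_congr_fun hsm fun z hz => ?_
        have hz' := hsΩ z hz
        have h1 : deriv G z = deriv F (φ z) * deriv φ z := by
          have h2 : G =ᶠ[nhds z] fun z => F (φ z) :=
            Filter.eventually_of_mem (hΩ'.mem_nhds hz') hG
          rw [h2.deriv_eq]
          exact ((hFd _ (hm hz')).hasDerivAt.comp z (hφd z hz').hasDerivAt).deriv
        rw [h1, det_smul_one', abs_of_nonneg (sq_nonneg _), ← ENNReal.ofReal_mul (sq_nonneg _),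
          norm_mul]
        congr 1
        ring
    _ = ∫⁻ w in φ '' s, ENNReal.ofReal (‖deriv F w‖ ^ 2) := key.symm
    _ ≤ _ := lintegral_mono_set hsub

theorem MV.comp {Ω Ω' : Set ℂ} (hΩ' : IsOpen Ω') (hΩ : IsOpen Ω) {p : ℝ} {F φ : ℂ → ℂ}
    (h : MV Ω p F) (hφ : DifferentiableOn ℂ φ Ω') (hm : MapsTo φ Ω' Ω) (hi : InjOn φ Ω') :
    MV Ω' p (fun z => F (φ z)) :=
  ⟨h.diff.comp hφ hm, fun R hR =>
    (ar_comp_le hΩ' hΩ h.diff hφ hm hi (fun _ _ => rfl) 0 R).trans (h.area R hR)⟩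

theorem MV.congr {Ω : Set ℂ} (hΩ : IsOpen Ω) {p : ℝ} {F G : ℂ → ℂ} (h : MV Ω p F)
    (hG : ∀ z ∈ Ω, G z = F z) : MV Ω p G :=
  ⟨h.diff.congr hG, fun R hR =>
    (ar_comp_le (φ := id) hΩ hΩ h.diff differentiableOn_id (mapsTo_id _) (injOn_id _)
      hG 0 R).trans (h.area R hR)⟩

theorem MV.const_mul {Ω : Set ℂ} (hΩ : IsOpen Ω) {p : ℝ} {F : ℂ → ℂ} (hp : 0 ≤ p) (h : MV Ω p F)
    (c : ℂ) : MV Ω p (fun z => c * F z) := by
  have _ := hp
  refine ⟨h.diff.const_mul c, fun R hR => ?_⟩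
  by_cases hc : c = 0
  · subst hc
    unfold ar
    simp
  · have hc0 : 0 < ‖c‖ := norm_pos_iff.2 hc
    have hset : {z | z ∈ Ω ∧ 0 ≤ ‖c * F z‖ ∧ ‖c * F z‖ < R} =
        {z | z ∈ Ω ∧ 0 ≤ ‖F z‖ ∧ ‖F z‖ < R / ‖c‖} := by
      ext z
      constructor
      · rintro ⟨h1, -, h3⟩
        refine ⟨h1, norm_nonneg _, ?_⟩
        rw [lt_div_iff₀ hc0, mul_comm, ← norm_mul]
        exact h3
      · rintro ⟨h1, -, h3⟩
        refine ⟨h1, norm_nonneg _, ?_⟩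
        rw [lt_div_iff₀ hc0, mul_comm, ← norm_mul] at h3
        exact h3
    have hm : MeasurableSet {z | z ∈ Ω ∧ 0 ≤ ‖F z‖ ∧ ‖F z‖ < R / ‖c‖} :=
      meas_set hΩ h.diff.continuousOn _ _
    have e1 : ar Ω (fun z => c * F z) 0 R =
        ENNReal.ofReal (‖c‖ ^ 2) * ar Ω F 0 (R / ‖c‖) := by
      unfold ar
      rw [hset, ← lintegral_const_mul' _ _ ENNReal.ofReal_ne_top]
      refine setLIntegral_congr_fun hm fun z hz => ?_
      have h1 : deriv (fun z => c * F z) z = c * deriv F z :=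
        ((h.diff.differentiableAt (hΩ.mem_nhds hz.1)).hasDerivAt.const_mul c).deriv
      rw [h1, norm_mul, mul_pow, ENNReal.ofReal_mul (sq_nonneg _)]
    rw [e1]
    calc ENNReal.ofReal (‖c‖ ^ 2) * ar Ω F 0 (R / ‖c‖)
        ≤ ENNReal.ofReal (‖c‖ ^ 2) * ENNReal.ofReal (Real.pi * p * (R / ‖c‖) ^ 2) :=
          mul_le_mul' le_rfl (h.area _ (div_pos hR hc0))
      _ = ENNReal.ofReal (Real.pi * p * R ^ 2) := by
          rw [← ENNReal.ofReal_mul (sq_nonneg _)]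
          congr 1
          field_simp

theorem MV.shift {p : ℝ} {F : ℂ → ℂ} (h : MV Str p F) (x : ℝ) : MV Str p (fun ζ => F (ζ + x)) := by
  refine MV.comp (φ := fun ζ => ζ + x) isOpen_Str isOpen_Str h (by fun_prop)
    (fun ζ hζ => (Str_add_real x).2 hζ) ?_
  intro z _ z' _ hzz
  exact add_right_cancel hzz

private theorem mob_den' {a : ℂ} (ha : ‖a‖ < 1) {z : ℂ} (hz : z ∈ ball (0 : ℂ) 1) :
    1 + (starRingEnd ℂ) a * z ≠ 0 := by
  intro h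
  rw [mem_ball_zero_iff] at hz
  have h1 : ‖(starRingEnd ℂ) a * z‖ < 1 := by
    rw [norm_mul, Complex.norm_conj]
    calc ‖a‖ * ‖z‖ ≤ 1 * ‖z‖ := mul_le_mul_of_nonneg_right ha.le (norm_nonneg _)
      _ < 1 := by rw [one_mul]; exact hz
  have h2 : (starRingEnd ℂ) a * z = -1 := by linear_combination h
  rw [h2, norm_neg, norm_one] at h1
  exact lt_irrefl _ h1

/-- recentring in the disc -/
theorem MV.mob {p : ℝ} {f : ℂ → ℂ} (h : MV (ball 0 1) p f) {a : ℂ} (ha : ‖a‖ < 1) :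
    MV (ball 0 1) p (fun z => f (MPV.mob a z)) := by
  refine MV.comp (φ := MPV.mob a) isOpen_ball isOpen_ball h (MPV.mob_differentiableOn ha)
    (MPV.mob_mapsTo ha) ?_
  intro z hz z' hz' hzz
  have hd := mob_den' ha hz
  have hd' := mob_den' ha hz'
  unfold MPV.mob at hzz
  rw [div_eq_div_iff hd hd'] at hzz
  have h1 : (z - z') * (1 - a * (starRingEnd ℂ) a) = 0 := by linear_combination hzz
  rcases mul_eq_zero.1 h1 with h2 | h2
  · exact sub_eq_zero.1 h2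
  · exfalso
    rw [Complex.mul_conj, Complex.normSq_eq_norm_sq] at h2
    have h3 : (1 : ℝ) - ‖a‖ ^ 2 = 0 := by exact_mod_cast h2
    nlinarith [norm_nonneg a]

theorem MV.rot {p : ℝ} {f : ℂ → ℂ} (h : MV (ball 0 1) p f) {c : ℂ} (hc : ‖c‖ = 1) :
    MV (ball 0 1) p (fun z => f (c * z)) := by
  have hc0 : c ≠ 0 := by
    rintro rfl
    simp at hc
  refine MV.comp (φ := fun z => c * z) isOpen_ball isOpen_ball h (by fun_prop) ?_ ?_
  · intro z hz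
    rw [mem_ball_zero_iff] at hz ⊢
    rw [norm_mul, hc, one_mul]
    exact hz
  · intro z _ z' _ hzz
    exact mul_left_cancel₀ hc0 hzz

/-- disc to strip -/
theorem MV.toStr {p : ℝ} {f : ℂ → ℂ} (h : MV (ball 0 1) p f) : MV Str p (fun ζ => f (th ζ)) :=
  MV.comp isOpen_Str isOpen_ball h th_diff th_mapsTo th_injOn

/-- strip to disc -/
theorem MV.toBall {p : ℝ} {F : ℂ → ℂ} (h : MV Str p F) :
    MV (ball 0 1) p (fun z => F (lg z)) :=
  MV.comp isOpen_ball isOpen_Str h lg_diff lg_mapsTo lg_injOn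

/-- The definition of mean valence by the counting function agrees with `MV` on the disc. -/
theorem meanValent_iff {p : ℝ} {f : ℂ → ℂ} (hf : DifferentiableOn ℂ f (ball 0 1)) :
    MPV.MeanValent p f ↔ MV (ball 0 1) p f := by
  have key : ∀ R : ℝ, ar (ball 0 1) f 0 R = ∫⁻ w in ball (0 : ℂ) R, MPV.nval f w := by
    intro R
    rw [MPV.area_formula hf isOpen_ball.measurableSet]
    unfold ar
    congr 2
    ext z
    constructor
    · rintro ⟨h1, -, h3⟩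
      exact ⟨h1, mem_ball_zero_iff.2 h3⟩
    · rintro ⟨h1, h3⟩
      exact ⟨h1, norm_nonneg _, mem_ball_zero_iff.1 h3⟩
  constructor
  · intro h
    refine ⟨hf, fun R hR => ?_⟩
    rw [key R]
    exact h R hR
  · intro h R hR
    rw [← key R]
    exact h.area R hR

end MQV
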