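import Pool.Agent.MQV.Bas

set_option autoImplicit false

/-!
# MQV CVT : position of the points `e^{-w/n}` in the strip

* `lg_exp`: `u = w/n`, `lg (e^{-u}) = log ((1+e^{-u})/(1-e^{-u}))`,
  `q(u) = (u/2) (1+e^{-u})/(1-e^{-u})` (`= (u/2) coth (u/2)`) tends to `1` as `u → 0`, uniformly on
  `{1 ≤ Re w ≤ 2, |Im w| ≤ K}` as `n → ∞` (`‖u‖ ≤ (2+K)/n`; `‖q(u) - 1‖ ≤ ‖u‖` for `‖u‖ ≤ 1/2`, from
  `Complex.norm_exp_sub_sum_le_norm_mul_exp`/`Complex.exp_bound`).  `(1+e^{-u})/(1-e^{-u}) = q(u) (2n)/w` and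
  `log (q · 2n/w) = log q + log (2n) - log w` (arguments: `|arg w| < π/2`, `|arg q| < π/2`, sum in
  `(-π,π)`; `Complex.log_mul` / `Complex.exp_log` with the imaginary part in `(-π,π]`).
* `cvt_pos`: `K' = 4K+4`.  `0 ≤ log ‖w‖ ≤ log (2+K) ≤ K+1`;
  `|arg w| ≤ arctan K = π/2 - arctan (1/K) ≤ π/2 - 1/(2K)` (`arctan t ≥ t/2` for `0 ≤ t ≤ 1`; or
  directly: `|Im w| ≤ K ≤ K Re w`); the error `1/K' ≤ 1/(4K)`.
* `lg_real_mem`: `x ∈ [1,2]`, `t = x/(2n) ≤ 1`: `q = coth t/(2n)`, `th (lg (e^{-x/n}) - log (2n)) = (q-1)/(q+1)`,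
  and `t/2 ≤ tanh t ≤ t` for `0 ≤ t ≤ 1` gives `1/3 < 1/x ≤ q ≤ 2/x < 3`.
-/

open MeasureTheory Metric Set

namespace MQV

private theorem cvt_q {u : ℂ} (h0 : u ≠ 0) (h : ‖u‖ ≤ 1 / 8) :
    1 - Complex.exp (-u) ≠ 0 ∧
      ‖u / 2 * ((1 + Complex.exp (-u)) / (1 - Complex.exp (-u))) - 1‖ ≤ 4 * ‖u‖ := by
  have hup : 0 < ‖u‖ := norm_pos_iff.2 h0
  obtain ⟨s, hs⟩ : ∃ s : ℂ, s = Complex.exp (-u) - 1 - (-u) := ⟨_, rfl⟩
  have hsn : ‖s‖ ≤ ‖u‖ ^ 2 := by
    have := Complex.norm_exp_sub_one_sub_id_le (x := -u) (by rw [norm_neg]; linarith)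
    rw [norm_neg] at this
    rw [hs]
    exact this
  have hE : Complex.exp (-u) = 1 - u + s := by rw [hs]; ring
  have hd : 1 - Complex.exp (-u) = u - s := by rw [hE]; ring
  have hdn : ‖u‖ / 2 ≤ ‖u - s‖ := by
    have h1 := norm_sub_norm_le u s
    nlinarith
  have hd0 : u - s ≠ 0 := by
    intro h1
    rw [h1, norm_zero] at hdn
    linarith
  refine ⟨by rw [hd]; exact hd0, ?_⟩
  rw [hd, hE]
  have e : u / 2 * ((1 + (1 - u + s)) / (u - s)) - 1 = (2 * s - u ^ 2 + u * s) / (2 * (u - s)) := by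
    field_simp
    ring
  rw [e, norm_div, norm_mul, Complex.norm_ofNat, div_le_iff₀ (by linarith)]
  have h2 : ‖2 * s - u ^ 2 + u * s‖ ≤ 2 * ‖s‖ + ‖u‖ ^ 2 + ‖u‖ * ‖s‖ := by
    calc ‖2 * s - u ^ 2 + u * s‖ ≤ ‖2 * s - u ^ 2‖ + ‖u * s‖ := norm_add_le _ _
      _ ≤ ‖2 * s‖ + ‖u ^ 2‖ + ‖u * s‖ := by
          have := norm_sub_le (2 * s) (u ^ 2)
          linarith
      _ = 2 * ‖s‖ + ‖u‖ ^ 2 + ‖u‖ * ‖s‖ := by
          rw [norm_mul, norm_mul, norm_pow, Complex.norm_ofNat]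
  have h3 : ‖u‖ * ‖s‖ ≤ ‖u‖ * ‖u‖ ^ 2 := mul_le_mul_of_nonneg_left hsn hup.le
  have h4 : ‖u‖ * ‖u‖ ^ 2 ≤ 1 / 8 * ‖u‖ ^ 2 := mul_le_mul_of_nonneg_right h (sq_nonneg _)
  have h5 : 4 * ‖u‖ * (2 * (‖u‖ / 2)) ≤ 4 * ‖u‖ * (2 * ‖u - s‖) :=
    mul_le_mul_of_nonneg_left (by linarith) (by linarith)
  nlinarith

private theorem cvt_norm {K : ℝ} {w : ℂ} (h1 : 1 ≤ w.re) (h2 : w.re ≤ 2) (h3 : |w.im| ≤ K) :
    1 ≤ ‖w‖ ∧ ‖w‖ ≤ 2 + K := by
  constructor
  · exact h1.trans ((le_abs_self _).trans (Complex.abs_re_le_norm w))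
  · refine (Complex.norm_le_abs_re_add_abs_im w).trans ?_
    rw [abs_of_nonneg (by linarith : 0 ≤ w.re)]
    linarith

theorem lg_exp {K ε : ℝ} (hK : 0 < K) (hε : 0 < ε) : ∃ n₀ : ℕ, 1 ≤ n₀ ∧ ∀ n : ℕ, n₀ ≤ n →
    ∀ w : ℂ, 1 ≤ w.re → w.re ≤ 2 → |w.im| ≤ K →
      ‖lg (Complex.exp (-w / n)) - ((Real.log (2 * n) : ℝ) - Complex.log w)‖ ≤ ε := by
  obtain ⟨m, hm⟩ := exists_nat_ge (6 * (2 + K) / ε + 8 * (2 + K))
  refine ⟨m + 1, by omega, fun n hn w h1 h2 h3 => ?_⟩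
  have hnm : (m : ℝ) + 1 ≤ n := by exact_mod_cast hn
  have hA : 0 < 6 * (2 + K) / ε := by positivity
  have hn0 : (0 : ℝ) < n := by linarith
  have hw := cvt_norm h1 h2 h3
  have hw0 : w ≠ 0 := by
    intro h
    rw [h, norm_zero] at hw
    linarith [hw.1]
  have hnc : (n : ℂ) ≠ 0 := by exact_mod_cast hn0.ne'
  obtain ⟨u, hu⟩ : ∃ u : ℂ, u = w / n := ⟨_, rfl⟩
  have hu0 : u ≠ 0 := by
    rw [hu]
    exact div_ne_zero hw0 hnc
  have hun : ‖u‖ ≤ (2 + K) / n := by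
    rw [hu, norm_div, Complex.norm_natCast]
    exact div_le_div_of_nonneg_right hw.2 hn0.le
  have hu8 : ‖u‖ ≤ 1 / 8 := by
    refine hun.trans ?_
    rw [div_le_div_iff₀ hn0 (by norm_num)]
    linarith
  have hue : 6 * ‖u‖ ≤ ε := by
    have h5 : 6 * (2 + K) / n ≤ ε := by
      rw [div_le_iff₀ hn0]
      have h6 : 6 * (2 + K) / ε ≤ n := by linarith
      rw [div_le_iff₀ hε] at h6
      linarith
    calc 6 * ‖u‖ ≤ 6 * ((2 + K) / n) := by linarith
      _ = 6 * (2 + K) / n := by ring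
      _ ≤ ε := h5
  obtain ⟨hd, hq⟩ := cvt_q hu0 hu8
  obtain ⟨q, hqd⟩ : ∃ q : ℂ, q = u / 2 * ((1 + Complex.exp (-u)) / (1 - Complex.exp (-u))) :=
    ⟨_, rfl⟩
  rw [← hqd] at hq
  have hq1 : ‖q - 1‖ ≤ 1 / 2 := by linarith
  have hqre : 0 < q.re := by
    have h5 := (abs_le.1 ((Complex.abs_re_le_norm (q - 1)).trans hq1)).1
    rw [Complex.sub_re, Complex.one_re] at h5
    linarith
  have hq0 : q ≠ 0 := by
    intro h
    rw [h, Complex.zero_re] at hqre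
    exact lt_irrefl _ hqre
  have hlq : ‖Complex.log q‖ ≤ 3 / 2 * ‖q - 1‖ := by
    have := Complex.norm_log_one_add_half_le_self hq1
    rwa [add_sub_cancel] at this
  have hE : -w / n = -u := by
    rw [hu]
    ring
  have h2n : (0 : ℝ) < 2 * n := by linarith
  have hexp : Complex.exp (Complex.log q + (((Real.log (2 * n) : ℝ) : ℂ) - Complex.log w)) =
      (1 + Complex.exp (-u)) / (1 - Complex.exp (-u)) := by
    rw [Complex.exp_add, Complex.exp_sub, Complex.exp_log hq0, Complex.exp_log hw0,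
      ← Complex.ofReal_exp, Real.exp_log h2n, hqd, hu]
    push_cast
    rw [← hu]
    have hun' : u * n = w := by
      rw [hu]
      field_simp
    rw [← hun']
    field_simp
  have hlogw : |(Complex.log w).im| < Real.pi / 2 := by
    rw [Complex.log_im, Complex.abs_arg_lt_pi_div_two_iff]
    exact Or.inl (by linarith)
  have hlogq : |(Complex.log q).im| < Real.pi / 2 := by
    rw [Complex.log_im, Complex.abs_arg_lt_pi_div_two_iff]
    exact Or.inl hqre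
  have hlg : lg (Complex.exp (-w / n)) =
      Complex.log q + (((Real.log (2 * n) : ℝ) : ℂ) - Complex.log w) := by
    unfold lg
    rw [hE, ← hexp]
    have him : (Complex.log q + (((Real.log (2 * n) : ℝ) : ℂ) - Complex.log w)).im =
        (Complex.log q).im - (Complex.log w).im := by
      simp only [Complex.add_im, Complex.sub_im, Complex.ofReal_im]
      ring
    have a1 := abs_lt.1 hlogw
    have a2 := abs_lt.1 hlogq
    refine Complex.log_exp ?_ ?_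
    · rw [him]
      linarith [a1.2, a2.1]
    · rw [him]
      linarith [a1.1, a2.2]
  rw [hlg, add_sub_cancel_right]
  linarith

private theorem cvt_arg {K : ℝ} (hK : 1 ≤ K) {w : ℂ} (h1 : 1 ≤ w.re) (h3 : |w.im| ≤ K) :
    |w.arg| ≤ Real.pi / 2 - 2 / (4 * K + 4) := by
  have hw0 : w ≠ 0 := by
    intro h
    rw [h, Complex.zero_re] at h1
    linarith
  have hwn : 0 < ‖w‖ := norm_pos_iff.2 hw0
  have harg : |w.arg| < Real.pi / 2 := by
    rw [Complex.abs_arg_lt_pi_div_two_iff]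
    exact Or.inl (by linarith)
  have hpi := Real.pi_gt_three
  have hc : Real.cos |w.arg| = w.re / ‖w‖ := by
    rw [Real.cos_abs, Complex.cos_arg hw0]
  have hs : Real.sin |w.arg| = |w.im| / ‖w‖ := by
    rw [← Real.abs_sin_eq_sin_abs_of_abs_le_pi (by linarith), Complex.sin_arg, abs_div,
      abs_of_pos hwn]
  have hsc : Real.sin |w.arg| ≤ K * Real.cos |w.arg| := by
    rw [hc, hs, mul_div_assoc']
    refine div_le_div_of_nonneg_right ?_ hwn.le
    nlinarith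
  by_contra hcon
  push Not at hcon
  obtain ⟨ψ, hψ⟩ : ∃ ψ : ℝ, ψ = Real.pi / 2 - |w.arg| := ⟨_, rfl⟩
  have hψ0 : 0 < ψ := by linarith
  have hψ1 : ψ < 2 / (4 * K + 4) := by linarith
  have e1 : Real.cos |w.arg| = Real.sin ψ := by
    rw [hψ, Real.sin_pi_div_two_sub]
  have e2 : Real.sin |w.arg| = Real.cos ψ := by
    rw [hψ, Real.cos_pi_div_two_sub]
  rw [e1, e2] at hsc
  have h4 := Real.sin_lt hψ0
  have h5 := Real.one_sub_sq_div_two_le_cos (x := ψ)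
  have h6 : (4 * K + 4) * ψ < 2 := by
    rw [lt_div_iff₀ (by linarith)] at hψ1
    linarith
  have h7 : ψ < 1 / 4 := by nlinarith
  have h8 : K * Real.sin ψ < K * ψ := mul_lt_mul_of_pos_left h4 (by linarith)
  nlinarith

theorem cvt_pos {K : ℝ} (hK : 1 ≤ K) {w ζ : ℂ} {T : ℝ} (h1 : 1 ≤ w.re) (h2 : w.re ≤ 2)
    (h3 : |w.im| ≤ K) (h : ‖ζ - ((T : ℂ) - Complex.log w)‖ ≤ 1 / (4 * K + 4)) :
    |ζ.re - T| ≤ 4 * K + 4 ∧ |ζ.im| ≤ Real.pi / 2 - 1 / (4 * K + 4) := by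
  have hw := cvt_norm h1 h2 h3
  have hK4 : (0 : ℝ) < 4 * K + 4 := by linarith
  have he : 1 / (4 * K + 4) ≤ 1 / 8 := by
    rw [div_le_div_iff₀ hK4 (by norm_num)]
    linarith
  constructor
  · have h5 := (Complex.abs_re_le_norm (ζ - ((T : ℂ) - Complex.log w))).trans h
    simp only [Complex.sub_re, Complex.ofReal_re, Complex.log_re] at h5
    have h6 : 0 ≤ Real.log ‖w‖ := Real.log_nonneg hw.1
    have h7 : Real.log ‖w‖ ≤ ‖w‖ - 1 := Real.log_le_sub_one_of_pos (by linarith [hw.1])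
    rw [abs_le] at h5 ⊢
    constructor
    · linarith [h5.1, hw.2]
    · linarith [h5.2, hw.2]
  · have h5 := (Complex.abs_im_le_norm (ζ - ((T : ℂ) - Complex.log w))).trans h
    simp only [Complex.sub_im, Complex.ofReal_im, Complex.log_im] at h5
    have h6 := cvt_arg hK h1 h3
    have h7 : 2 / (4 * K + 4) = 1 / (4 * K + 4) + 1 / (4 * K + 4) := by ring
    rw [h7] at h6
    rw [abs_le] at h5 h6 ⊢
    constructor
    · linarith [h5.1, h6.2]
    · linarith [h5.2, h6.1]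

theorem lg_real_mem {x : ℝ} (h1 : 1 ≤ x) (h2 : x ≤ 2) {n : ℕ} (hn : 1 ≤ n) :
    lg (Complex.exp (-(x : ℂ) / n)) ∈ Bz (Real.log (2 * n)) := by
  have hn1 : (1 : ℝ) ≤ n := by exact_mod_cast hn
  have hn0 : (0 : ℝ) < n := by linarith
  obtain ⟨y, hy⟩ : ∃ y : ℝ, y = x / n := ⟨_, rfl⟩
  have hy0 : 0 < y := by
    rw [hy]
    positivity
  have hy2 : y ≤ 2 := by
    rw [hy, div_le_iff₀ hn0]
    nlinarith
  have hyn : y * n = x := by
    rw [hy]
    field_simp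
  obtain ⟨z, hz⟩ : ∃ z : ℝ, z = Real.exp (-y) := ⟨_, rfl⟩
  have hz0 : 0 < z := by
    rw [hz]
    exact Real.exp_pos _
  have hz1 : z < 1 := by
    rw [hz, Real.exp_lt_one_iff]
    linarith
  have hE : Complex.exp (-(x : ℂ) / n) = (z : ℂ) := by
    rw [hz, hy, Complex.ofReal_exp]
    congr 1
    push_cast
    ring
  have hball : (z : ℂ) ∈ ball (0 : ℂ) 1 := by
    rw [mem_ball_zero_iff, Complex.norm_real, Real.norm_eq_abs, abs_of_pos hz0]
    exact hz1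
  have h2n : (0 : ℝ) < 2 * n := by linarith
  have hz1' : 0 < 1 - z := by linarith
  -- bounds for the quotient
  obtain ⟨q, hq⟩ : ∃ q : ℝ, q = (1 + z) / (1 - z) / (2 * n) := ⟨_, rfl⟩
  have hupper : y ≤ 3 * (1 - z) := by
    have h5 : 1 + y ≤ Real.exp y := by linarith [Real.add_one_le_exp y]
    have h6 : z * Real.exp y = 1 := by
      rw [hz, ← Real.exp_add, neg_add_cancel, Real.exp_zero]
    have h7 : z * (1 + y) ≤ z * Real.exp y := mul_le_mul_of_nonneg_left h5 hz0.le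
    rw [h6] at h7
    nlinarith
  have hlower : 4 * (1 - z) ≤ 3 * y * (1 + z) := by
    obtain ⟨s, hs⟩ : ∃ s : ℝ, s = Real.exp (-(y / 2)) := ⟨_, rfl⟩
    have hs0 : 0 < s := by
      rw [hs]
      exact Real.exp_pos _
    have hzs : z = s * s := by
      rw [hz, hs, ← Real.exp_add]
      congr 1
      ring
    have h5 : 1 - y / 2 ≤ s := by
      rw [hs]
      linarith [Real.add_one_le_exp (-(y / 2))]
    have h6 : 2 * (1 - s) ≤ y := by linarith
    have h7 : 3 * (2 * (1 - s)) * (1 + s * s) ≤ 3 * y * (1 + s * s) :=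
      mul_le_mul_of_nonneg_right (by linarith) (by positivity)
    have hs1 : s ≤ 1 := by
      rw [hs, Real.exp_le_one_iff]
      linarith
    have h8 : 0 ≤ (1 - s) * (6 * s ^ 2 - 4 * s + 2) :=
      mul_nonneg (by linarith) (by nlinarith [sq_nonneg (s - 1 / 3)])
    rw [hzs]
    nlinarith
  have hden : 0 < (1 - z) * (2 * n) := mul_pos hz1' h2n
  have hq3 : q ≤ 3 := by
    rw [hq, div_div, div_le_iff₀ hden]
    have h5 : 1 ≤ 3 * (1 - z) * n := by
      have h6 : y * n ≤ 3 * (1 - z) * n := mul_le_mul_of_nonneg_right hupper hn0.le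
      linarith
    nlinarith
  have hq13 : 1 / 3 ≤ q := by
    rw [hq, div_div, le_div_iff₀ hden]
    have h6 : 4 * (1 - z) * n ≤ 3 * y * (1 + z) * n := mul_le_mul_of_nonneg_right hlower hn0.le
    have h7 : 3 * y * (1 + z) * n = 3 * (1 + z) * x := by
      rw [← hyn]
      ring
    rw [h7] at h6
    have h8 : 3 * (1 + z) * x ≤ 3 * (1 + z) * 2 := mul_le_mul_of_nonneg_left h2 (by linarith)
    nlinarith
  have hexp : Complex.exp (lg (z : ℂ) - ((Real.log (2 * n) : ℝ) : ℂ)) = (q : ℂ) := by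
    have hne : (1 + (z : ℂ)) / (1 - (z : ℂ)) ≠ 0 := by
      have : ((1 + z) / (1 - z) : ℝ) ≠ 0 := by positivity
      have h5 : (((1 + z) / (1 - z) : ℝ) : ℂ) ≠ 0 := by exact_mod_cast this
      push_cast at h5
      exact h5
    unfold lg
    rw [Complex.exp_sub, Complex.exp_log hne, ← Complex.ofReal_exp, Real.exp_log h2n, hq]
    push_cast
    rfl
  rw [hE]
  refine ⟨lg_mapsTo hball, ?_⟩
  unfold th
  rw [hexp]
  have e : ((q : ℂ) - 1) / ((q : ℂ) + 1) = (((q - 1) / (q + 1) : ℝ) : ℂ) := by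
    push_cast
    rfl
  rw [e, Complex.norm_real, Real.norm_eq_abs, abs_div, abs_of_pos (by linarith : 0 < q + 1),
    div_le_iff₀ (by linarith), abs_le]
  constructor <;> linarith

end MQV
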