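import Pool.Agent.MQV.Cmp

set_option autoImplicit false

/-!
# MQV ACC : the area accounting of the surgery

`R = ‖A‖ e^{2pt}` is the level of the first cut, `R e^{2ps}` that of the second one.  With
`m(a,b) = ar Str G a b`:

* `R' ≤ R`: `m(0,R') ≤ ar Str F 0 R' ≤ π p R'²` (change of variables `m1`, injective into `Str`);
* `m(R e^{-p}, R) ≤ p (π - e/2) (R² - R² e^{-2p})`: on that band `G = A e^{2p m2}`, `m2` is injective
  and maps the band into `{ t - 1/2 ≤ Re W < t, |Im W| ≤ π/2 - e/4 }`, and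
  `∫∫ 4p² |A|² e^{4p Re W}` over that rectangle is the right hand side;
  so `m(0,R) ≤ π p R² - (e/2) p R² (1 - e^{-2p})`;
* `R ≤ R' ≤ R e^{2ps}`: `m(R,R') ≤ π p (R'² - R²)` (same computation in the full strip);
* in the same way with the second band: `m(0, R e^{2ps}) ≤ e^{4ps} R² (π p - (e/2) p (1 - e^{-2p}))`
  (note `m(0, R e^{2ps - p}) ≤ π p R² e^{4ps-2p}` by the previous item, `s ≥ 1/2`);
* `R' ≥ R e^{2ps}`: there `G = e^{2ps} F (m3 - s)`, so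
  `m(R e^{2ps}, R') ≤ e^{4ps} ar Str F R (R' e^{-2ps}) = e^{4ps} (ar Str F 0 (R' e^{-2ps}) - ar Str F 0 R)
   ≤ π p R'² - e^{4ps} π p (1-κ) R²`, total `≤ π p R'²` because `π κ ≤ (e/2)(1 - e^{-2p})`.
-/

open MeasureTheory Metric Set

namespace MQV

private theorem acc_det (w : ℂ) : (w • (1 : ℂ →L[ℝ] ℂ)).det = ‖w‖ ^ 2 := by
  have h1 : ((w • (1 : ℂ →L[ℝ] ℂ) : ℂ →L[ℝ] ℂ) : ℂ →ₗ[ℝ] ℂ) = Algebra.lmul ℝ ℂ w := by
    ext z
    simp
  rw [ContinuousLinearMap.det, h1]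
  have := Algebra.norm_complex_apply w
  rw [Algebra.norm_apply] at this
  rw [this, Complex.normSq_eq_norm_sq]

/-- change of variables on a measurable set -/
private theorem acc_cov {D S : Set ℂ} (hD : IsOpen D) {G F φ : ℂ → ℂ}
    (hφ : DifferentiableOn ℂ φ D) (hi : InjOn φ D) (hS : MeasurableSet S) (hSD : S ⊆ D)
    (hF : ∀ z ∈ S, DifferentiableAt ℂ F (φ z)) (hG : ∀ z ∈ D, G z = F (φ z)) :
    ∫⁻ z in S, ENNReal.ofReal (‖deriv G z‖ ^ 2) =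
      ∫⁻ w in φ '' S, ENNReal.ofReal (‖deriv F w‖ ^ 2) := by
  have hφd : ∀ z ∈ S, DifferentiableAt ℂ φ z := fun z hz =>
    hφ.differentiableAt (hD.mem_nhds (hSD hz))
  have hder : ∀ z ∈ S, HasFDerivWithinAt φ (deriv φ z • (1 : ℂ →L[ℝ] ℂ)) S z := fun z hz =>
    ((hφd z hz).hasDerivAt.complexToReal_fderiv).hasFDerivWithinAt
  rw [lintegral_image_eq_lintegral_abs_det_fderiv_mul (volume : Measure ℂ) hS hder (hi.mono hSD)]
  refine setLIntegral_congr_fun hS fun z hz => ?_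
  have hev : G =ᶠ[nhds z] fun z => F (φ z) := by
    filter_upwards [hD.mem_nhds (hSD hz)] with y hy
    exact hG y hy
  have h1 : deriv G z = deriv F (φ z) * deriv φ z := by
    rw [hev.deriv_eq]
    exact ((hF z hz).hasDerivAt.comp z (hφd z hz).hasDerivAt).deriv
  rw [h1, acc_det, abs_of_nonneg (sq_nonneg _), ← ENNReal.ofReal_mul (sq_nonneg _), norm_mul]
  congr 1
  ring

private theorem acc_deriv (p : ℝ) (A w : ℂ) :
    ‖deriv (fun W : ℂ => A * Complex.exp (2 * p * W)) w‖ ^ 2 =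
      4 * p ^ 2 * ‖A‖ ^ 2 * Real.exp (4 * p * w.re) := by
  have h1 : HasDerivAt (fun W : ℂ => 2 * (p : ℂ) * W) (2 * (p : ℂ)) w := by
    simpa using (hasDerivAt_id w).const_mul (2 * (p : ℂ))
  have h2 := (h1.cexp.const_mul A).deriv
  rw [h2, norm_mul, norm_mul, Complex.norm_exp, norm_mul, Complex.norm_real, Complex.norm_two,
    Real.norm_eq_abs, mul_pow, mul_pow, mul_pow, sq_abs, ← Real.exp_nat_mul]
  have h3 : ((2 : ℕ) : ℝ) * (2 * (p : ℂ) * w).re = 4 * p * w.re := by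
    simp [Complex.mul_re]
    ring
  rw [h3]
  ring

/-- the area of a rectangle under the exponential -/
private theorem acc_rect {p : ℝ} (hp : 0 < p) (A : ℂ) {α β h : ℝ} (hαβ : α ≤ β) :
    ∫⁻ w in {w : ℂ | (α ≤ w.re ∧ w.re < β) ∧ |w.im| ≤ h},
      ENNReal.ofReal (‖deriv (fun W : ℂ => A * Complex.exp (2 * p * W)) w‖ ^ 2) =
    ENNReal.ofReal (2 * h * p * ‖A‖ ^ 2 * (Real.exp (4 * p * β) - Real.exp (4 * p * α))) := by
  simp only [acc_deriv]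
  set c : ℝ := 4 * p ^ 2 * ‖A‖ ^ 2 with hc
  have hc0 : 0 ≤ c := by positivity
  have hset : {w : ℂ | (α ≤ w.re ∧ w.re < β) ∧ |w.im| ≤ h} =
      Complex.measurableEquivRealProd ⁻¹' (Ico α β ×ˢ Icc (-h) h) := by
    ext w
    simp only [Set.mem_ofPred_eq, Set.mem_preimage, Set.mem_prod, Set.mem_Ico, Set.mem_Icc,
      Complex.measurableEquivRealProd_apply, abs_le]
  have hmp := Complex.volume_preserving_equiv_real_prod
  have h1 := hmp.setLIntegral_comp_preimage_emb (MeasurableEquiv.measurableEmbedding _)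
    (fun b : ℝ × ℝ => ENNReal.ofReal (c * Real.exp (4 * p * b.1))) (Ico α β ×ˢ Icc (-h) h)
  have h2 : ∫⁻ w in {w : ℂ | (α ≤ w.re ∧ w.re < β) ∧ |w.im| ≤ h},
      ENNReal.ofReal (c * Real.exp (4 * p * w.re)) =
      ∫⁻ b in Ico α β ×ˢ Icc (-h) h, ENNReal.ofReal (c * Real.exp (4 * p * b.1)) := by
    rw [hset, ← h1]
    rfl
  rw [h2, Measure.volume_eq_prod, ← Measure.prod_restrict, lintegral_prod _ (by fun_prop)]
  simp only [lintegral_const, Measure.restrict_apply_univ, Real.volume_Icc]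
  rw [lintegral_mul_const _ (by fun_prop)]
  have hcont : Continuous fun x : ℝ => c * Real.exp (4 * p * x) := by fun_prop
  have h3 : ∫⁻ x in Ico α β, ENNReal.ofReal (c * Real.exp (4 * p * x)) =
      ENNReal.ofReal (p * ‖A‖ ^ 2 * (Real.exp (4 * p * β) - Real.exp (4 * p * α))) := by
    rw [← ofReal_integral_eq_lintegral_ofReal]
    · congr 1
      rw [integral_Ico_eq_integral_Ioc, ← intervalIntegral.integral_of_le hαβ]
      have h4 : ∀ x ∈ uIcc α β, HasDerivAt (fun x => p * ‖A‖ ^ 2 * Real.exp (4 * p * x))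
          (c * Real.exp (4 * p * x)) x := by
        intro x _
        have h5 : HasDerivAt (fun x : ℝ => 4 * p * x) (4 * p) x := by
          simpa using (hasDerivAt_id x).const_mul (4 * p)
        refine (h5.exp.const_mul (p * ‖A‖ ^ 2)).congr_deriv ?_
        rw [hc]
        ring
      rw [intervalIntegral.integral_eq_sub_of_hasDerivAt h4 (hcont.intervalIntegrable _ _)]
      ring
    · exact (hcont.integrableOn_Icc (a := α) (b := β)).mono_set Ico_subset_Icc_self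
    · exact Filter.Eventually.of_forall fun x => by positivity
  rw [h3, ← ENNReal.ofReal_mul]
  · congr 1
    ring
  · have h6 : Real.exp (4 * p * α) ≤ Real.exp (4 * p * β) :=
      Real.exp_le_exp.2 (mul_le_mul_of_nonneg_left hαβ (by positivity))
    have h7 : 0 ≤ Real.exp (4 * p * β) - Real.exp (4 * p * α) := by linarith
    positivity

private theorem acc_meas {Ω : Set ℂ} (hΩ : IsOpen Ω) {G : ℂ → ℂ} (hG : ContinuousOn G Ω)
    (a b : ℝ) : MeasurableSet {z | z ∈ Ω ∧ a ≤ ‖G z‖ ∧ ‖G z‖ < b} := by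
  have h1 : ∀ c : ℝ, IsOpen {z | z ∈ Ω ∧ ‖G z‖ < c} := fun c =>
    hG.norm.isOpen_inter_preimage hΩ (isOpen_Iio (a := c))
  have h2 : {z | z ∈ Ω ∧ a ≤ ‖G z‖ ∧ ‖G z‖ < b} =
      {z | z ∈ Ω ∧ ‖G z‖ < b} \ {z | z ∈ Ω ∧ ‖G z‖ < a} := by
    ext z
    simp only [Set.mem_ofPred_eq, Set.mem_sdiff, not_and, not_lt]
    constructor
    · rintro ⟨h3, h4, h5⟩
      exact ⟨⟨h3, h5⟩, fun _ => h4⟩
    · rintro ⟨⟨h3, h5⟩, h4⟩
      exact ⟨h3, h4 h3, h5⟩
  rw [h2]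
  exact (h1 b).measurableSet.diff (h1 a).measurableSet

private theorem acc_sub {Ω D : Set ℂ} {G : ℂ → ℂ} {a b : ℝ}
    (h : ∀ z ∈ Ω, a ≤ ‖G z‖ → ‖G z‖ < b → z ∈ D) : ar Ω G a b ≤ ar D G a b :=
  lintegral_mono_set fun z hz => ⟨h z hz.1 hz.2.1 hz.2.2, hz.2⟩

/-- the band estimate -/
private theorem acc_band {p : ℝ} (hp : 0 < p) {G : ℂ → ℂ} {A : ℂ} (hA : A ≠ 0)
    (hG : DifferentiableOn ℂ G Str) {D : Set ℂ} (hD : IsOpen D) {m : ℂ → ℂ}
    (hm : DifferentiableOn ℂ m D) (hi : InjOn m D)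
    (hGm : ∀ ζ ∈ D, G ζ = A * Complex.exp (2 * p * m ζ)) {α β h : ℝ} (hαβ : α ≤ β)
    (hS : ∀ ζ ∈ Str, ‖A‖ * Real.exp (2 * p * α) ≤ ‖G ζ‖ → ‖G ζ‖ < ‖A‖ * Real.exp (2 * p * β) →
      ζ ∈ D)
    (hW : ∀ ζ ∈ D, ‖A‖ * Real.exp (2 * p * α) ≤ ‖G ζ‖ → ‖G ζ‖ < ‖A‖ * Real.exp (2 * p * β) →
      |(m ζ).im| ≤ h) :
    ar Str G (‖A‖ * Real.exp (2 * p * α)) (‖A‖ * Real.exp (2 * p * β)) ≤
      ENNReal.ofReal (2 * h * p * ‖A‖ ^ 2 * (Real.exp (4 * p * β) - Real.exp (4 * p * α))) := by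
  have hA0 : 0 < ‖A‖ := norm_pos_iff.2 hA
  set S : Set ℂ := {z | z ∈ Str ∧ ‖A‖ * Real.exp (2 * p * α) ≤ ‖G z‖ ∧
    ‖G z‖ < ‖A‖ * Real.exp (2 * p * β)} with hSdef
  have hSm : MeasurableSet S := acc_meas isOpen_Str hG.continuousOn _ _
  have hSD : S ⊆ D := fun z hz => hS z hz.1 hz.2.1 hz.2.2
  have h1 := acc_cov (F := fun W : ℂ => A * Complex.exp (2 * p * W)) hD hm hi hSm hSD
    (fun z _ => by fun_prop) hGm
  unfold ar
  rw [← hSdef, h1, ← acc_rect hp A hαβ]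
  refine lintegral_mono_set ?_
  rintro _ ⟨z, hz, rfl⟩
  have h2 : ‖G z‖ = ‖A‖ * Real.exp (2 * p * (m z).re) := by
    rw [hGm z (hSD hz), norm_mul, Complex.norm_exp]
    congr 2
    simp [Complex.mul_re]
  obtain ⟨h3, h4, h5⟩ := hz
  refine ⟨⟨?_, ?_⟩, hW z (hS z h3 h4 h5) h4 h5⟩
  · rw [h2] at h4
    have h6 := Real.exp_le_exp.1 (le_of_mul_le_mul_left h4 hA0)
    have h7 : 0 < 2 * p := by positivity
    exact le_of_mul_le_mul_left h6 h7
  · rw [h2] at h5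
    have h6 := Real.exp_lt_exp.1 (lt_of_mul_lt_mul_left h5 hA0.le)
    have h7 : 0 < 2 * p := by positivity
    exact lt_of_mul_lt_mul_left h6 h7.le

/-- scaling -/
private theorem acc_scale {F : ℂ → ℂ} {c : ℝ} (hc : 0 < c) (a b : ℝ) :
    ar Str (fun z => (c : ℂ) * F z) (c * a) (c * b) = ENNReal.ofReal (c ^ 2) * ar Str F a b := by
  unfold ar
  rw [← lintegral_const_mul' _ _ ENNReal.ofReal_ne_top]
  have hset : {z | z ∈ Str ∧ c * a ≤ ‖(c : ℂ) * F z‖ ∧ ‖(c : ℂ) * F z‖ < c * b} =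
      {z | z ∈ Str ∧ a ≤ ‖F z‖ ∧ ‖F z‖ < b} := by
    ext z
    simp only [Set.mem_ofPred_eq, norm_mul, Complex.norm_real, Real.norm_eq_abs, abs_of_pos hc]
    rw [mul_le_mul_iff_right₀ hc, mul_lt_mul_iff_right₀ hc]
  rw [hset]
  refine lintegral_congr fun z => ?_
  rw [deriv_const_mul_field, norm_mul, Complex.norm_real, Real.norm_eq_abs, abs_of_pos hc,
    mul_pow, ENNReal.ofReal_mul (sq_nonneg c)]

theorem acct {p : ℝ} (hp : 0 < p) {F G : ℂ → ℂ} {A : ℂ} {t s e κ : ℝ} (hF : MV Str p F)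
    (hA : A ≠ 0) (hs : 1 ≤ s) (he : 0 < e) (he1 : e ≤ 1) (hκ0 : 0 ≤ κ)
    (hκ : Real.pi * κ ≤ e / 2 * (1 - Real.exp (-(2 * p))))
    (hfull : ENNReal.ofReal (Real.pi * p * (1 - κ) * (‖A‖ * Real.exp (2 * p * t)) ^ 2) ≤
      ar Str F 0 (‖A‖ * Real.exp (2 * p * t)))
    (hG : DifferentiableOn ℂ G Str) {D1 D2 D3 : Set ℂ} (hD1 : IsOpen D1) (hD2 : IsOpen D2)
    (hD3 : IsOpen D3) {m1 m2 m3 : ℂ → ℂ}
    (h1 : DifferentiableOn ℂ m1 D1) (h2 : DifferentiableOn ℂ m2 D2)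
    (h3 : DifferentiableOn ℂ m3 D3) (i1 : InjOn m1 D1) (i2 : InjOn m2 D2) (i3 : InjOn m3 D3)
    (M1 : MapsTo m1 D1 Str) (M2 : MapsTo m2 D2 Str) (M3 : MapsTo m3 D3 Str)
    (G1 : ∀ ζ ∈ D1, G ζ = F (m1 ζ))
    (G2 : ∀ ζ ∈ D2, G ζ = A * Complex.exp (2 * p * m2 ζ))
    (G3 : ∀ ζ ∈ D3, G ζ = Real.exp (2 * p * s) * F (m3 ζ))
    (L1 : ∀ ζ ∈ Str, ‖G ζ‖ < ‖A‖ * Real.exp (2 * p * t) → ζ ∈ D1)
    (L2 : ∀ ζ ∈ Str, ‖A‖ * Real.exp (2 * p * (t - 1 / 2)) ≤ ‖G ζ‖ →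
      ‖G ζ‖ < ‖A‖ * Real.exp (2 * p * (t + s)) → ζ ∈ D2)
    (L3 : ∀ ζ ∈ Str, ‖A‖ * Real.exp (2 * p * (t + s)) ≤ ‖G ζ‖ → ζ ∈ D3)
    (W1 : ∀ ζ ∈ D2, ‖A‖ * Real.exp (2 * p * (t - 1 / 2)) ≤ ‖G ζ‖ →
      ‖G ζ‖ < ‖A‖ * Real.exp (2 * p * t) → |(m2 ζ).im| ≤ Real.pi / 2 - e / 4)
    (W2 : ∀ ζ ∈ D2, ‖A‖ * Real.exp (2 * p * (t + s - 1 / 2)) ≤ ‖G ζ‖ →
      ‖G ζ‖ < ‖A‖ * Real.exp (2 * p * (t + s)) → |(m2 ζ).im| ≤ Real.pi / 2 - e / 4) :
    MV Str p G := by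
  have hA0 : 0 < ‖A‖ := norm_pos_iff.2 hA
  have hpi := Real.pi_pos
  have hpi3 := Real.pi_gt_three
  obtain ⟨R0, hR0⟩ : ∃ R0, R0 = ‖A‖ * Real.exp (2 * p * t) := ⟨_, rfl⟩
  obtain ⟨R1, hR1⟩ : ∃ R1, R1 = ‖A‖ * Real.exp (2 * p * (t + s)) := ⟨_, rfl⟩
  obtain ⟨q, hq⟩ : ∃ q, q = Real.exp (-(2 * p)) := ⟨_, rfl⟩
  have hq0 : 0 < q := by rw [hq]; exact Real.exp_pos _
  have hq1 : q < 1 := by
    rw [hq, Real.exp_lt_one_iff]
    linarith
  have hR0p : 0 < R0 := by rw [hR0]; positivity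
  have hR1p : 0 < R1 := by rw [hR1]; positivity
  have hsq : ∀ x : ℝ, (‖A‖ * Real.exp (2 * p * x)) ^ 2 = ‖A‖ ^ 2 * Real.exp (4 * p * x) := by
    intro x
    rw [mul_pow, ← Real.exp_nat_mul]
    congr 2
    push_cast
    ring
  have hR0sq : R0 ^ 2 = ‖A‖ ^ 2 * Real.exp (4 * p * t) := by rw [hR0, hsq]
  have hR1sq : R1 ^ 2 = ‖A‖ ^ 2 * Real.exp (4 * p * (t + s)) := by rw [hR1, hsq]
  have hmono : ∀ x y : ℝ, x ≤ y → ‖A‖ * Real.exp (2 * p * x) ≤ ‖A‖ * Real.exp (2 * p * y) := by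
    intro x y hxy
    exact mul_le_mul_of_nonneg_left (Real.exp_le_exp.2
      (mul_le_mul_of_nonneg_left hxy (by positivity))) hA0.le
  have hhalf : ∀ x : ℝ, (‖A‖ * Real.exp (2 * p * (x - 1 / 2))) ^ 2 =
      (‖A‖ * Real.exp (2 * p * x)) ^ 2 * q := by
    intro x
    have h0 : Real.exp (4 * p * (x - 1 / 2)) = Real.exp (4 * p * x) * Real.exp (-(2 * p)) := by
      rw [← Real.exp_add]
      congr 1
      ring
    rw [hsq, hsq, hq, h0]
    ring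
  -- case 1
  have case1 : ∀ R, 0 < R → R ≤ R0 → ar Str G 0 R ≤ ENNReal.ofReal (Real.pi * p * R ^ 2) := by
    intro R hR hRR
    have h4 : ar Str G 0 R ≤ ar D1 G 0 R := acc_sub fun z hz _ hzR => L1 z hz (by
      rw [← hR0]
      linarith)
    exact (h4.trans (ar_comp_le hD1 isOpen_Str hF.diff h1 M1 i1 G1 0 R)).trans (hF.area R hR)
  -- band in the full strip
  have band : ∀ α β : ℝ, t - 1 / 2 ≤ α → α ≤ β → β ≤ t + s → ∀ h : ℝ, 0 ≤ h →
      (∀ ζ ∈ D2, ‖A‖ * Real.exp (2 * p * α) ≤ ‖G ζ‖ → ‖G ζ‖ < ‖A‖ * Real.exp (2 * p * β) →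
        |(m2 ζ).im| ≤ h) →
      ar Str G (‖A‖ * Real.exp (2 * p * α)) (‖A‖ * Real.exp (2 * p * β)) ≤
      ENNReal.ofReal (2 * h * p * ((‖A‖ * Real.exp (2 * p * β)) ^ 2 -
        (‖A‖ * Real.exp (2 * p * α)) ^ 2)) := by
    intro α β hα hαβ hβ h hh hW
    have h4 := acc_band hp hA hG hD2 h2 i2 G2 hαβ (fun ζ hζ h5 h6 =>
      L2 ζ hζ ((hmono _ _ hα).trans h5) (h6.trans_le (hmono _ _ hβ))) hW
    refine h4.trans (le_of_eq ?_)
    rw [hsq, hsq]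
    congr 1
    ring
  have hM2 : ∀ ζ ∈ D2, |(m2 ζ).im| ≤ Real.pi / 2 := fun ζ hζ => le_of_lt (M2 hζ)
  have hh4 : 0 ≤ Real.pi / 2 - e / 4 := by linarith
  -- first band
  have B1 : ar Str G 0 R0 ≤ ENNReal.ofReal (Real.pi * p * R0 ^ 2 - e / 2 * p * R0 ^ 2 * (1 - q)) := by
    have h4 := band (t - 1 / 2) t le_rfl (by linarith) (by linarith) _ hh4 W1
    have h5 := case1 (‖A‖ * Real.exp (2 * p * (t - 1 / 2))) (by positivity)
      (by rw [hR0]; exact hmono _ _ (by linarith))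
    rw [hhalf t, ← hR0] at h4 h5
    have h6 := ar_add isOpen_Str hG (a := 0) (b := ‖A‖ * Real.exp (2 * p * (t - 1 / 2))) (c := R0)
      (by positivity) (by rw [hR0]; exact hmono _ _ (by linarith))
    rw [← h6]
    refine (add_le_add h5 h4).trans ?_
    have h7 : 0 ≤ R0 ^ 2 - R0 ^ 2 * q := by nlinarith [sq_nonneg R0]
    rw [← ENNReal.ofReal_add (by positivity) (by positivity)]
    refine ENNReal.ofReal_le_ofReal (le_of_eq ?_)
    ring
  have B1' : ar Str G 0 R0 ≤ ENNReal.ofReal (Real.pi * p * R0 ^ 2) := case1 R0 hR0p le_rfl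
  -- case 2
  have case2 : ∀ x : ℝ, t ≤ x → x ≤ t + s → ar Str G 0 (‖A‖ * Real.exp (2 * p * x)) ≤
      ENNReal.ofReal (Real.pi * p * (‖A‖ * Real.exp (2 * p * x)) ^ 2) := by
    intro x hx1 hx2
    have h4 := band t x (by linarith) hx1 hx2 (Real.pi / 2) (by positivity)
      (fun ζ hζ _ _ => hM2 ζ hζ)
    rw [← hR0] at h4
    have h6 := ar_add isOpen_Str hG (a := 0) (b := R0) (c := ‖A‖ * Real.exp (2 * p * x))
      hR0p.le (by rw [hR0]; exact hmono _ _ hx1)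
    rw [← h6]
    refine (add_le_add B1' h4).trans ?_
    have h8 : R0 ^ 2 ≤ (‖A‖ * Real.exp (2 * p * x)) ^ 2 :=
      pow_le_pow_left₀ hR0p.le (by rw [hR0]; exact hmono _ _ hx1) 2
    have h7 : 0 ≤ (‖A‖ * Real.exp (2 * p * x)) ^ 2 - R0 ^ 2 := by linarith
    rw [← ENNReal.ofReal_add (by positivity) (by positivity)]
    refine ENNReal.ofReal_le_ofReal (le_of_eq ?_)
    ring
  -- second band
  have B2 : ar Str G 0 R1 ≤ ENNReal.ofReal (Real.pi * p * R1 ^ 2 - e / 2 * p * R1 ^ 2 * (1 - q)) := by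
    have h4 := band (t + s - 1 / 2) (t + s) (by linarith) (by linarith) le_rfl _ hh4 W2
    have h5 := case2 (t + s - 1 / 2) (by linarith) (by linarith)
    rw [hhalf (t + s), ← hR1] at h4 h5
    have h6 := ar_add isOpen_Str hG (a := 0) (b := ‖A‖ * Real.exp (2 * p * (t + s - 1 / 2)))
      (c := R1) (by positivity) (by rw [hR1]; exact hmono _ _ (by linarith))
    rw [← h6]
    refine (add_le_add h5 h4).trans ?_
    have h7 : 0 ≤ R1 ^ 2 - R1 ^ 2 * q := by nlinarith [sq_nonneg R1]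
    rw [← ENNReal.ofReal_add (by positivity) (by positivity)]
    refine ENNReal.ofReal_le_ofReal (le_of_eq ?_)
    ring
  have hκ' : Real.pi * κ ≤ e / 2 * (1 - q) := by rw [hq]; exact hκ
  have hκ1 : κ ≤ 1 := by nlinarith
  refine ⟨hG, fun R hR => ?_⟩
  rcases le_or_gt R R0 with hc1 | hc1
  · exact case1 R hR hc1
  rcases le_or_gt R R1 with hc2 | hc2
  · -- `R = ‖A‖ exp (2 p x)`
    obtain ⟨x, hx⟩ : ∃ x, x = Real.log (R / ‖A‖) / (2 * p) := ⟨_, rfl⟩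
    have hRx : R = ‖A‖ * Real.exp (2 * p * x) := by
      rw [hx, mul_div_cancel₀ _ (by positivity : (2 * p) ≠ 0), Real.exp_log (by positivity)]
      field_simp
    have hx1 : t ≤ x := by
      rw [hRx, hR0] at hc1
      have h6 := Real.exp_lt_exp.1 (lt_of_mul_lt_mul_left hc1 hA0.le)
      exact (lt_of_mul_lt_mul_left h6 (by positivity : (0 : ℝ) ≤ 2 * p)).le
    have hx2 : x ≤ t + s := by
      rw [hRx, hR1] at hc2
      have h6 := Real.exp_le_exp.1 (le_of_mul_le_mul_left hc2 hA0)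
      exact le_of_mul_le_mul_left h6 (by positivity : (0 : ℝ) < 2 * p)
    rw [hRx]
    exact case2 x hx1 hx2
  · -- outer part
    obtain ⟨c, hcdef⟩ : ∃ c, c = Real.exp (2 * p * s) := ⟨_, rfl⟩
    have hc0 : 0 < c := by rw [hcdef]; exact Real.exp_pos _
    have hR1c : R1 = c * R0 := by
      have h0 : Real.exp (2 * p * (t + s)) = Real.exp (2 * p * s) * Real.exp (2 * p * t) := by
        rw [← Real.exp_add]
        congr 1
        ring
      rw [hR1, hR0, hcdef, h0]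
      ring
    have h4 : ar Str G R1 R ≤ ar D3 G R1 R := acc_sub fun z hz hz1 _ => L3 z hz (by
      rw [← hR1]
      exact hz1)
    have h5 : ar D3 G R1 R ≤ ar Str (fun w => (c : ℂ) * F w) R1 R :=
      ar_comp_le hD3 isOpen_Str (hF.diff.const_mul _) h3 M3 i3
        (fun ζ hζ => by rw [hcdef]; exact G3 ζ hζ) R1 R
    have h6 : ar Str (fun w => (c : ℂ) * F w) R1 R =
        ENNReal.ofReal (c ^ 2) * ar Str F R0 (R / c) := by
      rw [← acc_scale hc0, hR1c, mul_div_cancel₀ _ hc0.ne']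
    have hRc : R0 ≤ R / c := by
      rw [le_div_iff₀ hc0, mul_comm, ← hR1c]
      exact hc2.le
    have h7 := ar_add isOpen_Str hF.diff (a := 0) (b := R0) (c := R / c) hR0p.le hRc
    have h8 := hF.area (R / c) (by positivity)
    rw [← hR0] at hfull
    have h9 : ar Str F R0 (R / c) ≤
        ENNReal.ofReal (Real.pi * p * (R / c) ^ 2 - Real.pi * p * (1 - κ) * R0 ^ 2) := by
      have h10 : ENNReal.ofReal (Real.pi * p * (1 - κ) * R0 ^ 2) + ar Str F R0 (R / c) ≤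
          ENNReal.ofReal (Real.pi * p * (R / c) ^ 2) := by
        refine (add_le_add_left hfull _).trans ?_
        rw [h7]
        exact h8
      have h1κ : 0 ≤ 1 - κ := by linarith
      rw [ENNReal.ofReal_sub _ (by positivity)]
      exact ENNReal.le_sub_of_add_le_left ENNReal.ofReal_ne_top h10
    have h11 : ar Str G R1 R ≤ ENNReal.ofReal (Real.pi * p * R ^ 2 -
        Real.pi * p * (1 - κ) * R1 ^ 2) := by
      refine (h4.trans (h5.trans (le_of_eq h6))).trans ?_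
      refine (mul_le_mul' le_rfl h9).trans ?_
      rw [← ENNReal.ofReal_mul (sq_nonneg c)]
      refine ENNReal.ofReal_le_ofReal (le_of_eq ?_)
      rw [hR1c]
      field_simp
    have h12 := ar_add isOpen_Str hG (a := 0) (b := R1) (c := R) hR1p.le hc2.le
    rw [← h12]
    refine (add_le_add B2 h11).trans ?_
    have hR1R : R1 ^ 2 ≤ R ^ 2 := pow_le_pow_left₀ hR1p.le hc2.le 2
    have n1 : 0 ≤ Real.pi * p * R1 ^ 2 - e / 2 * p * R1 ^ 2 * (1 - q) := by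
      have : e / 2 * (1 - q) ≤ Real.pi := by nlinarith
      have h13 : 0 ≤ p * R1 ^ 2 * (Real.pi - e / 2 * (1 - q)) :=
        mul_nonneg (by positivity) (by linarith)
      linarith
    have n2 : 0 ≤ Real.pi * p * R ^ 2 - Real.pi * p * (1 - κ) * R1 ^ 2 := by
      have h13 : 0 ≤ Real.pi * p * (R ^ 2 - R1 ^ 2) := mul_nonneg (by positivity) (by linarith)
      have h14 : 0 ≤ Real.pi * p * κ * R1 ^ 2 := by positivity
      linarith
    rw [← ENNReal.ofReal_add n1 n2]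
    refine ENNReal.ofReal_le_ofReal ?_
    have h15 : 0 ≤ p * R1 ^ 2 * (e / 2 * (1 - q) - Real.pi * κ) :=
      mul_nonneg (by positivity) (by linarith)
    linarith

end MQV
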