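import Pool.Agent.MQV.Defs

set_option autoImplicit false

/-!
# MQV INJ : Lipschitz estimate for bounded analytic displacements; injectivity of `w + ρ(w)`
-/

open MeasureTheory Metric Set

namespace MQV

/-- If `ρ` is analytic and bounded by `B` on `P` and `ball w k ⊆ P`, `w' ∈ P`, then
`‖ρ w - ρ w'‖ ≤ (4B/k) ‖w - w'‖` (Cauchy/Schwarz for `‖w-w'‖ ≤ k/2`, trivially otherwise). -/
theorem lip_of_bound {ρ : ℂ → ℂ} {P : Set ℂ} {B k : ℝ} (hk : 0 < k) (hB : 0 ≤ B)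
    (hρ : DifferentiableOn ℂ ρ P) (hb : ∀ w ∈ P, ‖ρ w‖ ≤ B) {w w' : ℂ} (hw : ball w k ⊆ P)
    (hw' : w' ∈ P) : ‖ρ w - ρ w'‖ ≤ 4 * B / k * ‖w - w'‖ := by
  have hwP : w ∈ P := hw (mem_ball_self hk)
  have h2 : ∀ z ∈ P, ‖ρ z - ρ w‖ ≤ 2 * B := fun z hz =>
    (norm_sub_le _ _).trans (by linarith [hb z hz, hb w hwP])
  rcases hB.eq_or_lt with h0 | h0
  · have h3 := h2 w' hw'
    rw [← h0] at h3 ⊢
    rw [norm_sub_rev]
    simpa using h3
  · by_cases hd : w' ∈ ball w k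
    · have hmaps : MapsTo ρ (ball w k) (closedBall (ρ w) (4 * B)) := by
        intro z hz
        rw [mem_closedBall, dist_eq_norm]
        exact (h2 z (hw hz)).trans (by linarith)
      have h3 := Complex.dist_le_div_mul_dist_of_mapsTo_ball (hρ.mono hw) hmaps hd
      rw [dist_eq_norm, dist_eq_norm] at h3
      rw [norm_sub_rev, norm_sub_rev w w']
      exact h3
    · rw [mem_ball, dist_eq_norm, not_lt] at hd
      have h3 := h2 w' hw'
      rw [norm_sub_rev, norm_sub_rev w w']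
      calc ‖ρ w' - ρ w‖ ≤ 2 * B := h3
        _ ≤ 4 * B := by linarith
        _ = 4 * B / k * k := by field_simp
        _ ≤ 4 * B / k * ‖w' - w‖ := mul_le_mul_of_nonneg_left hd (by positivity)

/-- Injectivity of `w ↦ w + ρ w` on a set whose points have a `k`-ball inside `P`. -/
theorem inj_of_bound {ρ : ℂ → ℂ} {P S : Set ℂ} {B k : ℝ} (hk : 0 < k) (hB : 0 ≤ B)
    (hBk : 4 * B < k) (hρ : DifferentiableOn ℂ ρ P) (hb : ∀ w ∈ P, ‖ρ w‖ ≤ B)
    (hS : ∀ w ∈ S, ball w k ⊆ P) : InjOn (fun w => w + ρ w) S := by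
  intro w hw w' hw' he
  have he' : w + ρ w = w' + ρ w' := he
  have h1 := lip_of_bound hk hB hρ hb (hS w hw) (hS w' hw' (mem_ball_self hk))
  have h2 : w - w' = -(ρ w - ρ w') := by linear_combination he'
  have h3 : ‖w - w'‖ = ‖ρ w - ρ w'‖ := by rw [h2, norm_neg]
  by_contra hne
  have h4 : 0 < ‖w - w'‖ := norm_pos_iff.2 (sub_ne_zero.2 hne)
  have h5 : 4 * B / k < 1 := (div_lt_one hk).2 hBk
  have h6 : 4 * B / k * ‖w - w'‖ < 1 * ‖w - w'‖ := mul_lt_mul_of_pos_right h5 h4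
  linarith

end MQV
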