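import Pool.Agent.MQV.Bas

set_option autoImplicit false

/-!
# MQV PSI : the pinching map `psi e t s ζ = ζ - e (2 + th((ζ-t)/2) + th((ζ-t-s)/2))`

For `ζ = x + iy`: `th((ζ-t)/2) = tanh((ζ-t)/4) = (sinh X + i sin (y/2)) / (cosh X + cos (y/2))`,
`X = (x-t)/2`, so for `0 ≤ y ≤ π/2`
`π/2 - Im psi = π/2 - y + e Σ_i D_i`, `D_i = sin (y/2) / (cosh X_i + cos (y/2)) ≥ 0`,
and this is nonincreasing in `y` for small `e` (its derivative is `≤ -1 + 2 e < 0`), so it is
`≥ e Σ_i D_i(π/2)`, `D_i(π/2) = 0.7071/(cosh X_i + 0.7071) ≥ 0.414 / cosh X_i ≥ 0.414 e^{-|X_i|}`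
and `≥ 0.353` for `|x - t_i| ≤ 3/2`.  For `y < 0` use the symmetry `psi (conj ζ) = conj (psi ζ)`.
Injectivity: `Re psi' > 0` on the convex set `Str`
(`|th'| = |1 - th²|/2 ≤ 1` there; or: `‖psi ζ - psi ζ' - (ζ - ζ')‖ ≤ ‖ζ-ζ'‖/2`).
Inner/outer: `1 + th u = 2 e^u/(e^u+1)`, `1 - th u = 2/(e^u + 1)`, `|e^u + 1| ≥ max 1 |e^u|` when
`|Im u| ≤ π/4`.
-/

open MeasureTheory Metric Set

namespace MQV

private theorem half_mem76 {ζ : ℂ} (hζ : ζ ∈ Str) (τ : ℝ) : (ζ - τ) / 2 ∈ Str := by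
  have h1 : |ζ.im| < Real.pi / 2 := hζ
  have h2 : ((ζ - τ) / 2).im = ζ.im / 2 := by simp
  show |((ζ - τ) / 2).im| < Real.pi / 2
  rw [h2, abs_div, abs_two]
  have := abs_nonneg ζ.im
  linarith

private theorem sub_eq76 (ζ : ℂ) (t s : ℝ) : ζ - t - s = ζ - ((t + s : ℝ) : ℂ) := by
  push_cast
  ring

private theorem re_half76 (ζ : ℂ) (τ : ℝ) : ((ζ - τ) / 2).re = (ζ.re - τ) / 2 := by simp

private theorem im_half76 (ζ : ℂ) (τ : ℝ) : ((ζ - τ) / 2).im = ζ.im / 2 := by simp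

private theorem hasDeriv76 {ζ : ℂ} (hζ : ζ ∈ Str) (τ : ℝ) :
    HasDerivAt (fun ζ : ℂ => th ((ζ - τ) / 2))
      (2 * Complex.exp ((ζ - τ) / 2) / (Complex.exp ((ζ - τ) / 2) + 1) ^ 2 * (1 / 2)) ζ := by
  have h1 : HasDerivAt (fun ζ : ℂ => (ζ - τ) / 2) (1 / 2) ζ :=
    ((hasDerivAt_id ζ).sub_const (τ : ℂ)).div_const 2
  exact (hasDerivAt_th (half_mem76 hζ τ)).comp ζ h1

private theorem deriv_bd76 {u : ℂ} (hu : u ∈ Str) :
    ‖2 * Complex.exp u / (Complex.exp u + 1) ^ 2 * (1 / 2)‖ ≤ 1 / 2 := by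
  have hre := exp_re_pos hu
  set E := Complex.exp u with hE
  have h1 : 2 * ‖E‖ ≤ ‖E + 1‖ ^ 2 := by
    have h2 : ‖E + 1‖ ^ 2 = ‖E‖ ^ 2 + 2 * E.re + 1 := by
      rw [← Complex.normSq_eq_norm_sq, ← Complex.normSq_eq_norm_sq, Complex.normSq_apply,
        Complex.normSq_apply, Complex.add_re, Complex.add_im, Complex.one_re, Complex.one_im]
      ring
    rw [h2]
    nlinarith [sq_nonneg (‖E‖ - 1)]
  have h0 : 0 < ‖E + 1‖ ^ 2 := by
    have h3 : E + 1 ≠ 0 := by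
      intro h
      have := congrArg Complex.re h
      simp at this
      linarith
    positivity
  rw [norm_mul, norm_div, norm_mul, norm_pow]
  have e1 : ‖(2 : ℂ)‖ = 2 := by simp
  have e2 : ‖(1 / 2 : ℂ)‖ = 1 / 2 := by simp
  rw [e1, e2]
  have h4 : 2 * ‖E‖ / ‖E + 1‖ ^ 2 ≤ 1 := by
    rw [div_le_one h0]
    exact h1
  linarith

private theorem lip76 {ζ ζ' : ℂ} (hζ : ζ ∈ Str) (hζ' : ζ' ∈ Str) (τ : ℝ) :
    ‖th ((ζ - τ) / 2) - th ((ζ' - τ) / 2)‖ ≤ 1 / 2 * ‖ζ - ζ'‖ :=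
  convex_Str.norm_image_sub_le_of_norm_hasDerivWithin_le
    (f := fun ζ : ℂ => th ((ζ - τ) / 2))
    (fun _ hz => (hasDeriv76 hz τ).hasDerivWithinAt)
    (fun _ hz => deriv_bd76 (half_mem76 hz τ)) hζ' hζ

/-- the real and the imaginary part of `th` -/
private theorem th_parts76 {u : ℂ} (hc : 0 ≤ Real.cos u.im) :
    (th u).re = Real.sinh u.re / (Real.cosh u.re + Real.cos u.im) ∧
    (th u).im = Real.sin u.im / (Real.cosh u.re + Real.cos u.im) := by
  have hT : 0 < Real.exp u.re := Real.exp_pos _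
  have hN : 0 < Complex.normSq (Complex.exp u + 1) := by
    rw [Complex.normSq_apply, Complex.add_re, Complex.add_im, Complex.one_re, Complex.one_im,
      Complex.exp_re]
    have h1 : 0 ≤ Real.exp u.re * Real.cos u.im := mul_nonneg hT.le hc
    nlinarith [sq_nonneg ((Complex.exp u).im + 0)]
  have hN2 : Complex.normSq (Complex.exp u + 1) =
      2 * Real.exp u.re * (Real.cosh u.re + Real.cos u.im) := by
    rw [Complex.normSq_apply, Complex.add_re, Complex.add_im, Complex.one_re, Complex.one_im,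
      Complex.exp_re, Complex.exp_im, Real.cosh_eq, Real.exp_neg]
    field_simp
    have := Real.sin_sq_add_cos_sq u.im
    linear_combination (Real.exp u.re ^ 2) * this
  have hD : 0 < Real.cosh u.re + Real.cos u.im := by
    have := Real.one_le_cosh u.re
    linarith
  constructor
  · unfold th
    rw [Complex.div_re, ← add_div, hN2, div_eq_div_iff (by positivity) hD.ne', Complex.sub_re,
      Complex.sub_im, Complex.add_re, Complex.add_im, Complex.one_re, Complex.one_im,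
      Complex.exp_re, Complex.exp_im]
    have h1 := Real.sin_sq_add_cos_sq u.im
    have h2 : 2 * Real.exp u.re * Real.sinh u.re = Real.exp u.re ^ 2 - 1 := by
      rw [Real.sinh_eq, Real.exp_neg]
      field_simp
    linear_combination (Real.exp u.re ^ 2 * (Real.cosh u.re + Real.cos u.im)) * h1 -
      (Real.cosh u.re + Real.cos u.im) * h2
  · unfold th
    rw [Complex.div_im, ← sub_div, hN2, div_eq_div_iff (by positivity) hD.ne', Complex.sub_re,
      Complex.sub_im, Complex.add_re, Complex.add_im, Complex.one_re, Complex.one_im,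
      Complex.exp_re, Complex.exp_im]
    ring

private noncomputable def D76 (a b : ℝ) : ℝ := Real.sin b / (Real.cosh a + Real.cos b)

private theorem sqrt_bd76 : 0.7071 ≤ Real.sqrt 2 / 2 := by
  have : (1.4142 : ℝ) ≤ Real.sqrt 2 := Real.le_sqrt_of_sq_le (by norm_num)
  linarith

private theorem cos_bd76 {b : ℝ} (hb : 0 ≤ b) (hb1 : b ≤ Real.pi / 4) : 0.7 ≤ Real.cos b := by
  have h1 : Real.cos (Real.pi / 4) ≤ Real.cos b :=
    Real.cos_le_cos_of_nonneg_of_le_pi hb (by linarith [Real.pi_pos]) hb1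
  rw [Real.cos_pi_div_four] at h1
  have := sqrt_bd76
  linarith

private theorem D_mono76 (a : ℝ) {b : ℝ} (hb : 0 ≤ b) (hb1 : b ≤ Real.pi / 4) :
    D76 a (Real.pi / 4) - D76 a b ≤ Real.pi / 4 - b := by
  unfold D76
  have hc := Real.one_le_cosh a
  have h1 := cos_bd76 hb hb1
  have h2 := cos_bd76 (by positivity) (le_refl (Real.pi / 4))
  set c := Real.cosh a
  set β := Real.pi / 4 with hβ
  have hd1 : 0 < c + Real.cos β := by linarith
  have hd2 : 0 < c + Real.cos b := by linarith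
  rw [div_sub_div _ _ hd1.ne' hd2.ne', div_le_iff₀ (by positivity)]
  have h3 : Real.sin (β - b) = Real.sin β * Real.cos b - Real.cos β * Real.sin b :=
    Real.sin_sub β b
  have h4 : Real.sin (β - b) ≤ β - b := Real.sin_le (by linarith)
  have h5 : Real.sin β - Real.sin b ≤ β - b := by
    rw [Real.sin_sub_sin]
    have h6 : Real.sin ((β - b) / 2) ≤ (β - b) / 2 := Real.sin_le (by linarith)
    have h7 : 0 ≤ Real.sin ((β - b) / 2) :=
      Real.sin_nonneg_of_nonneg_of_le_pi (by linarith) (by linarith [Real.pi_pos])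
    have h8 := Real.cos_le_one ((β + b) / 2)
    nlinarith
  have h6 : c + 1 ≤ (c + Real.cos β) * (c + Real.cos b) := by nlinarith
  have h7 : c * (Real.sin β - Real.sin b) ≤ c * (β - b) :=
    mul_le_mul_of_nonneg_left h5 (by linarith)
  have h8 : (β - b) * (c + 1) ≤ (β - b) * ((c + Real.cos β) * (c + Real.cos b)) :=
    mul_le_mul_of_nonneg_left h6 (by linarith)
  nlinarith

private theorem D_nonneg76 (a : ℝ) {b : ℝ} (hb : 0 ≤ b) (hb1 : b ≤ Real.pi / 4) :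
    0 ≤ D76 a b ∧ D76 a b ≤ b := by
  unfold D76
  have hc := Real.one_le_cosh a
  have h1 := cos_bd76 hb hb1
  have h2 : 0 ≤ Real.sin b := Real.sin_nonneg_of_nonneg_of_le_pi hb (by linarith [Real.pi_pos])
  have h3 := Real.sin_le hb
  constructor
  · exact div_nonneg h2 (by linarith)
  · refine le_trans ?_ h3
    exact div_le_self h2 (by linarith)

private theorem D_low76 (a : ℝ) : 2 / 5 * Real.exp (-|a|) ≤ D76 a (Real.pi / 4) := by
  unfold D76
  have hc := Real.one_le_cosh a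
  have hs := sqrt_bd76
  rw [Real.sin_pi_div_four, Real.cos_pi_div_four, le_div_iff₀ (by linarith)]
  have h1 : Real.exp (-|a|) * Real.cosh a ≤ 1 := by
    have h2 : Real.cosh a ≤ Real.exp |a| := by
      rw [← Real.cosh_abs, Real.cosh_eq]
      have : Real.exp (-|a|) ≤ Real.exp |a| := Real.exp_le_exp.2 (by linarith [abs_nonneg a])
      linarith
    calc Real.exp (-|a|) * Real.cosh a ≤ Real.exp (-|a|) * Real.exp |a| :=
          mul_le_mul_of_nonneg_left h2 (Real.exp_pos _).le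
      _ = 1 := by rw [← Real.exp_add]; simp
  have h2 : Real.exp (-|a|) ≤ 1 := Real.exp_le_one_iff.2 (by linarith [abs_nonneg a])
  have h3 := Real.exp_pos (-|a|)
  nlinarith

private theorem cosh_bd76 {a : ℝ} (ha : |a| ≤ 3 / 4) : Real.cosh a ≤ 1.31 := by
  have h0 : Real.cosh a ≤ Real.cosh (3 / 4) := by
    rw [Real.cosh_le_cosh]
    rw [abs_of_pos (show (0 : ℝ) < 3 / 4 by norm_num)]
    exact ha
  have h1 : Real.cosh (3 / 16) ≤ 512 / 503 := by
    refine (Real.cosh_le_exp_half_sq _).trans ?_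
    have h2 : Real.exp ((3 / 16 : ℝ) ^ 2 / 2) = (Real.exp (-(9 / 512)))⁻¹ := by
      rw [← Real.exp_neg]
      norm_num
    rw [h2]
    have h3 : (503 / 512 : ℝ) ≤ Real.exp (-(9 / 512)) := by
      have := Real.add_one_le_exp (-(9 / 512) : ℝ)
      linarith
    rw [inv_le_comm₀ (Real.exp_pos _) (by norm_num)]
    refine le_trans (le_of_eq ?_) h3
    norm_num
  have h2 : Real.cosh (3 / 8) ≤ 1.0723 := by
    have e : Real.cosh (3 / 8) = 2 * Real.cosh (3 / 16) ^ 2 - 1 := by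
      have h3 := Real.cosh_two_mul (3 / 16)
      have h4 := Real.cosh_sq (3 / 16)
      have h5 : (2 * (3 / 16) : ℝ) = 3 / 8 := by norm_num
      rw [h5] at h3
      linarith
    rw [e]
    have h3 := Real.one_le_cosh (3 / 16)
    nlinarith
  have h3 : Real.cosh (3 / 4) ≤ 1.31 := by
    have e : Real.cosh (3 / 4) = 2 * Real.cosh (3 / 8) ^ 2 - 1 := by
      have h3 := Real.cosh_two_mul (3 / 8)
      have h4 := Real.cosh_sq (3 / 8)
      have h5 : (2 * (3 / 8) : ℝ) = 3 / 4 := by norm_num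
      rw [h5] at h3
      linarith
    rw [e]
    have h3 := Real.one_le_cosh (3 / 8)
    nlinarith
  exact h0.trans h3

private theorem D_zone76 {a : ℝ} (ha : |a| ≤ 3 / 4) : 7 / 20 ≤ D76 a (Real.pi / 4) := by
  unfold D76
  have hc := Real.one_le_cosh a
  have hs := sqrt_bd76
  have h1 := cosh_bd76 ha
  rw [Real.sin_pi_div_four, Real.cos_pi_div_four, le_div_iff₀ (by linarith)]
  linarith

private theorem psi_parts76 {e t s : ℝ} {ζ : ℂ} (hζ : ζ ∈ Str) :
    (psi e t s ζ).re = ζ.re - e * (2 +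
      Real.sinh ((ζ.re - t) / 2) / (Real.cosh ((ζ.re - t) / 2) + Real.cos (ζ.im / 2)) +
      Real.sinh ((ζ.re - (t + s)) / 2) / (Real.cosh ((ζ.re - (t + s)) / 2) + Real.cos (ζ.im / 2))) ∧
    (psi e t s ζ).im = ζ.im - e * (D76 ((ζ.re - t) / 2) (ζ.im / 2) +
      D76 ((ζ.re - (t + s)) / 2) (ζ.im / 2)) := by
  have h1 : |ζ.im| < Real.pi / 2 := hζ
  have hc : 0 ≤ Real.cos (ζ.im / 2) := by
    have h2 := abs_lt.1 h1
    exact Real.cos_nonneg_of_mem_Icc ⟨by linarith, by linarith⟩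
  have p1 := th_parts76 (u := (ζ - t) / 2) (by rw [im_half76]; exact hc)
  have p2 := th_parts76 (u := (ζ - ((t + s : ℝ) : ℂ)) / 2) (by rw [im_half76]; exact hc)
  rw [im_half76, re_half76] at p1 p2
  unfold psi D76
  rw [sub_eq76]
  constructor
  · rw [Complex.sub_re, Complex.re_ofReal_mul, Complex.add_re, Complex.add_re, p1.1, p2.1]
    simp
  · rw [Complex.sub_im, Complex.im_ofReal_mul, Complex.add_im, Complex.add_im, p1.2, p2.2]
    simp

private theorem D_neg76 (a b : ℝ) : D76 a (-b) = - D76 a b := by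
  unfold D76
  rw [Real.sin_neg, Real.cos_neg, neg_div]

private theorem depth76 {e t s : ℝ} (he : 0 < e) (he1 : e ≤ 1 / 100) {ζ : ℂ} (hζ : ζ ∈ Str) :
    e * (D76 ((ζ.re - t) / 2) (Real.pi / 4) + D76 ((ζ.re - (t + s)) / 2) (Real.pi / 4)) ≤
      Real.pi / 2 - |(psi e t s ζ).im| := by
  have h1 : |ζ.im| < Real.pi / 2 := hζ
  rw [(psi_parts76 (e := e) (t := t) (s := s) hζ).2]
  have key : ∀ y : ℝ, 0 ≤ y → y < Real.pi / 2 →
      0 ≤ y - e * (D76 ((ζ.re - t) / 2) (y / 2) + D76 ((ζ.re - (t + s)) / 2) (y / 2)) ∧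
      e * (D76 ((ζ.re - t) / 2) (Real.pi / 4) + D76 ((ζ.re - (t + s)) / 2) (Real.pi / 4)) ≤
      Real.pi / 2 - (y - e * (D76 ((ζ.re - t) / 2) (y / 2) +
        D76 ((ζ.re - (t + s)) / 2) (y / 2))) := by
    intro y hy hy1
    have hb : 0 ≤ y / 2 := by linarith
    have hb1 : y / 2 ≤ Real.pi / 4 := by linarith
    have m1 := D_mono76 ((ζ.re - t) / 2) hb hb1
    have m2 := D_mono76 ((ζ.re - (t + s)) / 2) hb hb1
    have n1 := D_nonneg76 ((ζ.re - t) / 2) hb hb1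
    have n2 := D_nonneg76 ((ζ.re - (t + s)) / 2) hb hb1
    constructor
    · nlinarith
    · nlinarith
  rcases le_total 0 ζ.im with h0 | h0
  · have h2 := key ζ.im h0 (by rwa [abs_of_nonneg h0] at h1)
    rw [abs_of_nonneg h2.1]
    exact h2.2
  · have h2 := key (-ζ.im) (by linarith) (by rwa [abs_of_nonpos h0] at h1)
    rw [neg_div, D_neg76, D_neg76] at h2
    have h3 : ζ.im - e * (D76 ((ζ.re - t) / 2) (ζ.im / 2) +
        D76 ((ζ.re - (t + s)) / 2) (ζ.im / 2)) ≤ 0 := by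
      have := h2.1
      linarith
    rw [abs_of_nonpos h3]
    have := h2.2
    linarith

private theorem quot_bd76 (a : ℝ) {c : ℝ} (hc : 0 ≤ c) :
    -1 ≤ Real.sinh a / (Real.cosh a + c) ∧ Real.sinh a / (Real.cosh a + c) ≤ 1 := by
  have h1 := Real.one_le_cosh a
  have h2 : Real.sinh a ≤ Real.cosh a := by
    rw [Real.sinh_eq, Real.cosh_eq]
    linarith [Real.exp_pos (-a)]
  have h3 : -Real.cosh a ≤ Real.sinh a := by
    rw [Real.sinh_eq, Real.cosh_eq]
    linarith [Real.exp_pos a]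
  constructor
  · rw [le_div_iff₀ (by linarith)]
    linarith
  · rw [div_le_one (by linarith)]
    linarith

private theorem one_add_th76 {u : ℂ} (hu : u ∈ Str) :
    ‖1 + th u‖ ≤ 2 * Real.exp u.re ∧ ‖1 - th u‖ ≤ 2 * Real.exp (-u.re) := by
  have hre := exp_re_pos hu
  have hnE : ‖Complex.exp u‖ = Real.exp u.re := Complex.norm_exp u
  set E := Complex.exp u with hE
  have h2 : ‖E + 1‖ ^ 2 = ‖E‖ ^ 2 + 2 * E.re + 1 := by
    rw [← Complex.normSq_eq_norm_sq, ← Complex.normSq_eq_norm_sq, Complex.normSq_apply,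
      Complex.normSq_apply, Complex.add_re, Complex.add_im, Complex.one_re, Complex.one_im]
    ring
  have hEpos : 0 < ‖E‖ := by rw [hnE]; exact Real.exp_pos _
  have hn1 : 1 ≤ ‖E + 1‖ := by
    have h3 : 0 ≤ ‖E + 1‖ := norm_nonneg _
    nlinarith
  have hn2 : ‖E‖ ≤ ‖E + 1‖ := by
    have h3 : 0 ≤ ‖E + 1‖ := norm_nonneg _
    nlinarith
  have h3 : E + 1 ≠ 0 := by
    intro h
    rw [h, norm_zero] at hn1
    linarith
  have e2 : ‖(2 : ℂ)‖ = 2 := by simp
  constructor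
  · have e1 : 1 + th u = 2 * E / (E + 1) := by
      unfold th
      rw [← hE]
      field_simp
      ring
    rw [e1, norm_div, norm_mul, e2, hnE]
    rw [div_le_iff₀ (by linarith)]
    have := Real.exp_pos u.re
    nlinarith
  · have e1 : 1 - th u = 2 / (E + 1) := by
      unfold th
      rw [← hE]
      field_simp
      ring
    rw [e1, norm_div, e2, div_le_iff₀ (by linarith)]
    have h4 : Real.exp (-u.re) * ‖E‖ = 1 := by
      rw [hnE, ← Real.exp_add]
      simp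
    have h5 := Real.exp_pos (-u.re)
    nlinarith

theorem psi_diff {e t s : ℝ} : DifferentiableOn ℂ (psi e t s) Str := by
  intro ζ hζ
  have h1 := (hasDeriv76 hζ t).differentiableAt
  have h2 := (hasDeriv76 hζ (t + s)).differentiableAt
  have e1 : psi e t s = fun ζ : ℂ => ζ - (e : ℂ) * (2 + th ((ζ - t) / 2) +
      th ((ζ - ((t + s : ℝ) : ℂ)) / 2)) := by
    funext z
    unfold psi
    rw [sub_eq76]
  rw [e1]
  exact (differentiableAt_id.sub (((differentiableAt_const 2).add h1).add h2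
    |>.const_mul (e : ℂ))).differentiableWithinAt

theorem psi_injOn {e t s : ℝ} (he : 0 < e) (he1 : e ≤ 1 / 100) : InjOn (psi e t s) Str := by
  intro ζ hζ ζ' hζ' h
  unfold psi at h
  rw [sub_eq76, sub_eq76] at h
  have h1 := lip76 hζ hζ' t
  have h2 := lip76 hζ hζ' (t + s)
  have h3 : ζ - ζ' = (e : ℂ) * ((th ((ζ - t) / 2) - th ((ζ' - t) / 2)) +
      (th ((ζ - ((t + s : ℝ) : ℂ)) / 2) - th ((ζ' - ((t + s : ℝ) : ℂ)) / 2))) := by
    linear_combination h
  have h4 : ‖ζ - ζ'‖ ≤ e * (1 / 2 * ‖ζ - ζ'‖ + 1 / 2 * ‖ζ - ζ'‖) := by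
    calc ‖ζ - ζ'‖ = e * ‖(th ((ζ - t) / 2) - th ((ζ' - t) / 2)) +
          (th ((ζ - ((t + s : ℝ) : ℂ)) / 2) - th ((ζ' - ((t + s : ℝ) : ℂ)) / 2))‖ := by
          conv_lhs => rw [h3]
          rw [norm_mul, Complex.norm_real, Real.norm_eq_abs, abs_of_pos he]
      _ ≤ e * (1 / 2 * ‖ζ - ζ'‖ + 1 / 2 * ‖ζ - ζ'‖) :=
          mul_le_mul_of_nonneg_left ((norm_add_le _ _).trans (add_le_add h1 h2)) he.le
  have h5 : ‖ζ - ζ'‖ = 0 := by
    have h6 := norm_nonneg (ζ - ζ')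
    nlinarith
  exact sub_eq_zero.1 (norm_eq_zero.1 h5)

theorem psi_mapsTo {e t s : ℝ} (he : 0 < e) (he1 : e ≤ 1 / 100) :
    MapsTo (psi e t s) Str Str := by
  intro ζ hζ
  have h1 := depth76 (t := t) (s := s) he he1 hζ
  have h2 := D_low76 ((ζ.re - t) / 2)
  have h3 := D_low76 ((ζ.re - (t + s)) / 2)
  have h4 := Real.exp_pos (-|(ζ.re - t) / 2|)
  have h5 := Real.exp_pos (-|(ζ.re - (t + s)) / 2|)
  show |(psi e t s ζ).im| < Real.pi / 2
  have h6 : 0 < e * (D76 ((ζ.re - t) / 2) (Real.pi / 4) +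
      D76 ((ζ.re - (t + s)) / 2) (Real.pi / 4)) := mul_pos he (by linarith)
  linarith

/-- depth of the image, everywhere -/
theorem psi_depth {e t s : ℝ} (he : 0 < e) (he1 : e ≤ 1 / 100) {ζ : ℂ} (hζ : ζ ∈ Str) :
    2 / 5 * e * Real.exp (-|ζ.re - t| / 2) ≤ Real.pi / 2 - |(psi e t s ζ).im| ∧
    2 / 5 * e * Real.exp (-|ζ.re - t - s| / 2) ≤ Real.pi / 2 - |(psi e t s ζ).im| := by
  have h1 := depth76 (t := t) (s := s) he he1 hζ
  have h2 := D_low76 ((ζ.re - t) / 2)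
  have h3 := D_low76 ((ζ.re - (t + s)) / 2)
  have h4 := Real.exp_pos (-|(ζ.re - t) / 2|)
  have h5 := Real.exp_pos (-|(ζ.re - (t + s)) / 2|)
  have e1 : -|ζ.re - t| / 2 = -|(ζ.re - t) / 2| := by
    rw [abs_div, abs_two, neg_div]
  have e2 : -|ζ.re - t - s| / 2 = -|(ζ.re - (t + s)) / 2| := by
    rw [abs_div, abs_two, neg_div, ← sub_sub]
  rw [e1, e2]
  constructor
  · nlinarith
  · nlinarith

/-- depth of the image in the zones -/
theorem psi_zone {e t s : ℝ} (he : 0 < e) (he1 : e ≤ 1 / 100) {ζ : ℂ} (hζ : ζ ∈ Str)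
    (h : |ζ.re - t| ≤ 3 / 2 ∨ |ζ.re - t - s| ≤ 3 / 2) :
    7 / 20 * e ≤ Real.pi / 2 - |(psi e t s ζ).im| := by
  have h1 := depth76 (t := t) (s := s) he he1 hζ
  have h2 := D_low76 ((ζ.re - t) / 2)
  have h3 := D_low76 ((ζ.re - (t + s)) / 2)
  have h4 := Real.exp_pos (-|(ζ.re - t) / 2|)
  have h5 := Real.exp_pos (-|(ζ.re - (t + s)) / 2|)
  rcases h with h | h
  · have h6 : 7 / 20 ≤ D76 ((ζ.re - t) / 2) (Real.pi / 4) := by
      apply D_zone76
      rw [abs_div, abs_two]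
      linarith
    nlinarith
  · have h6 : 7 / 20 ≤ D76 ((ζ.re - (t + s)) / 2) (Real.pi / 4) := by
      apply D_zone76
      rw [abs_div, abs_two, ← sub_sub]
      linarith
    nlinarith

/-- the real part moves little -/
theorem psi_re {e t s : ℝ} (he : 0 < e) {ζ : ℂ} (hζ : ζ ∈ Str) :
    ζ.re - 4 * e ≤ (psi e t s ζ).re ∧ (psi e t s ζ).re ≤ ζ.re := by
  have h1 : |ζ.im| < Real.pi / 2 := hζ
  have hc : 0 ≤ Real.cos (ζ.im / 2) := by
    have h2 := abs_lt.1 h1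
    exact Real.cos_nonneg_of_mem_Icc ⟨by linarith, by linarith⟩
  rw [(psi_parts76 (e := e) (t := t) (s := s) hζ).1]
  have q1 := quot_bd76 ((ζ.re - t) / 2) hc
  have q2 := quot_bd76 ((ζ.re - (t + s)) / 2) hc
  constructor
  · nlinarith
  · nlinarith

theorem psi_inner {e t s : ℝ} (he : 0 < e) (hs : 0 ≤ s) {ζ : ℂ} (hζ : ζ ∈ Str) :
    ‖psi e t s ζ - ζ‖ ≤ 4 * e * Real.exp (-(t - ζ.re) / 2) := by
  have h1 := (one_add_th76 (half_mem76 hζ t)).1
  have h2 := (one_add_th76 (half_mem76 hζ (t + s))).1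
  rw [re_half76] at h1 h2
  have h3 : Real.exp ((ζ.re - (t + s)) / 2) ≤ Real.exp ((ζ.re - t) / 2) :=
    Real.exp_le_exp.2 (by linarith)
  have e1 : psi e t s ζ - ζ = -((e : ℂ) * ((1 + th ((ζ - t) / 2)) +
      (1 + th ((ζ - ((t + s : ℝ) : ℂ)) / 2)))) := by
    unfold psi
    rw [sub_eq76]
    ring
  have e2 : -(t - ζ.re) / 2 = (ζ.re - t) / 2 := by ring
  rw [e1, norm_neg, norm_mul, Complex.norm_real, Real.norm_eq_abs, abs_of_pos he, e2]
  have h4 := norm_add_le (1 + th ((ζ - t) / 2)) (1 + th ((ζ - ((t + s : ℝ) : ℂ)) / 2))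
  calc e * ‖(1 + th ((ζ - t) / 2)) + (1 + th ((ζ - ((t + s : ℝ) : ℂ)) / 2))‖
      ≤ e * (4 * Real.exp ((ζ.re - t) / 2)) := mul_le_mul_of_nonneg_left (by linarith) he.le
    _ = 4 * e * Real.exp ((ζ.re - t) / 2) := by ring

theorem psi_outer {e t s : ℝ} (he : 0 < e) (hs : 0 ≤ s) {ζ : ℂ} (hζ : ζ ∈ Str) :
    ‖psi e t s ζ - (ζ - 4 * e)‖ ≤ 4 * e * Real.exp (-(ζ.re - t - s) / 2) := by
  have h1 := (one_add_th76 (half_mem76 hζ t)).2
  have h2 := (one_add_th76 (half_mem76 hζ (t + s))).2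
  rw [re_half76] at h1 h2
  have h3 : Real.exp (-((ζ.re - t) / 2)) ≤ Real.exp (-((ζ.re - (t + s)) / 2)) :=
    Real.exp_le_exp.2 (by linarith)
  have e1 : psi e t s ζ - (ζ - 4 * e) = (e : ℂ) * ((1 - th ((ζ - t) / 2)) +
      (1 - th ((ζ - ((t + s : ℝ) : ℂ)) / 2))) := by
    unfold psi
    rw [sub_eq76]
    ring
  have e2 : -(ζ.re - t - s) / 2 = -((ζ.re - (t + s)) / 2) := by ring
  rw [e1, norm_mul, Complex.norm_real, Real.norm_eq_abs, abs_of_pos he, e2]
  have h4 := norm_add_le (1 - th ((ζ - t) / 2)) (1 - th ((ζ - ((t + s : ℝ) : ℂ)) / 2))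
  calc e * ‖(1 - th ((ζ - t) / 2)) + (1 - th ((ζ - ((t + s : ℝ) : ℂ)) / 2))‖
      ≤ e * (4 * Real.exp (-((ζ.re - (t + s)) / 2))) :=
        mul_le_mul_of_nonneg_left (by linarith) he.le
    _ = 4 * e * Real.exp (-((ζ.re - (t + s)) / 2)) := by ring

end MQV
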