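import Pool.Agent.MQV.Glu
import Pool.Agent.MQV.Psi
import Pool.Agent.MQV.Inj

set_option autoImplicit false

/-!
# MQV ASM : the glued function

With `w = psi e t s ζ` (so `w ∈ Str`, and `w ∈ Zn t H` as soon as `|Re w - t| < 1`, because then
`|Re ζ - t| ≤ 3/2` and the depth of `w` is `≥ 7e/20 > e/4`; same for `t + s`), put
`m1 = w + rin w`, `m2 = w + rmid w`, `m3 = w + rout w - s` and
`G = F(m1)` for `Re w < t`, `A e^{2p m2}` for `t ≤ Re w < t + s`, `e^{2ps} F(m3)` for
`t + s ≤ Re w`.  By `eq1`, `eq2` the formulas agree on the overlaps `|Re w - t| < 1`,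
`|Re w - t - s| < 1`.
Domains: `D1 = {ζ ∈ Str, Re w < t + 1/2}`, `D2 = {ζ ∈ Str, t - 3/4 < Re w < t + s + 3/4}`,
`D3 = {ζ ∈ Str, t + s - 1/2 < Re w}`.
`m1` maps `D1` into `Str`: depth of `w` is at least `(2/5) e exp(-|Re ζ - t|/2)`, the displacement
is at most `(e/1000) exp(-|Re w - t|)`.
Injectivity (`m_inj`): `psi` is injective on `Str`, and `w ↦ w + rin w` is injective on
`psi '' D1` by `inj_of_bound` with `k = e/20`, `B = e/1000`,
`P = {|Im w| < 2, Re w < t - 1/2} ∪ Zn t H`: a point `w ∈ psi '' D1` with `Re w ≤ t - 1/2 - k` has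
`ball w k` in the first set, and one with `t - 1/2 - k < Re w < t + 1/2` has depth `≥ 7e/20`, so
`ball w k ⊆ Zn t H`.  Same for the other two.
-/

open MeasureTheory Metric Set

namespace MQV

noncomputable def m1 (e t s : ℝ) (J : ℂ → ℂ) (ζ : ℂ) : ℂ :=
  psi e t s ζ + rin t s (Real.pi / 2 - e / 4) J (psi e t s ζ)

noncomputable def m2 (e t s : ℝ) (J : ℂ → ℂ) (ζ : ℂ) : ℂ :=
  psi e t s ζ + rmid t s (Real.pi / 2 - e / 4) J (psi e t s ζ)

noncomputable def m3 (e t s : ℝ) (J : ℂ → ℂ) (ζ : ℂ) : ℂ :=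
  psi e t s ζ + rout t s (Real.pi / 2 - e / 4) J (psi e t s ζ) - s

open Classical in
/-- the glued function -/
noncomputable def GG (p e t s : ℝ) (A : ℂ) (F J : ℂ → ℂ) (ζ : ℂ) : ℂ :=
  if (psi e t s ζ).re < t then F (m1 e t s J ζ)
  else if (psi e t s ζ).re < t + s then A * Complex.exp (2 * p * m2 e t s J ζ)
  else Real.exp (2 * p * s) * F (m3 e t s J ζ)

def D1 (e t s : ℝ) : Set ℂ := {ζ | ζ ∈ Str ∧ (psi e t s ζ).re < t + 1 / 2}

def D2 (e t s : ℝ) : Set ℂ :=
  {ζ | ζ ∈ Str ∧ t - 3 / 4 < (psi e t s ζ).re ∧ (psi e t s ζ).re < t + s + 3 / 4}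

def D3 (e t s : ℝ) : Set ℂ := {ζ | ζ ∈ Str ∧ t + s - 1 / 2 < (psi e t s ζ).re}

/-- depth of a point near the cuts -/
private theorem asm_zone {e t s : ℝ} (he : 0 < e) (he1 : e ≤ 1 / 100) {ζ : ℂ} (hζ : ζ ∈ Str)
    (h : |(psi e t s ζ).re - t| < 1 ∨ |(psi e t s ζ).re - (t + s)| < 1) :
    7 / 20 * e ≤ Real.pi / 2 - |(psi e t s ζ).im| := by
  obtain ⟨h1, h2⟩ := psi_re (t := t) (s := s) he hζ
  refine psi_zone he he1 hζ ?_
  rcases h with h | h
  · left
    rw [abs_lt] at h
    rw [abs_le]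
    constructor <;> linarith [h.1, h.2]
  · right
    rw [abs_lt] at h
    rw [abs_le]
    constructor <;> linarith [h.1, h.2]

theorem psi_mem_Zn {e t s : ℝ} (he : 0 < e) (he1 : e ≤ 1 / 100) {ζ : ℂ} (hζ : ζ ∈ Str) :
    (|(psi e t s ζ).re - t| < 1 → psi e t s ζ ∈ Zn t (Real.pi / 2 - e / 4)) ∧
    (|(psi e t s ζ).re - (t + s)| < 1 → psi e t s ζ ∈ Zn (t + s) (Real.pi / 2 - e / 4)) := by
  constructor
  · intro h
    have h1 := asm_zone he he1 hζ (Or.inl h)
    exact ⟨h, by linarith⟩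
  · intro h
    have h1 := asm_zone he he1 hζ (Or.inr h)
    exact ⟨h, by linarith⟩

theorem isOpen_D {e t s : ℝ} : IsOpen (D1 e t s) ∧ IsOpen (D2 e t s) ∧ IsOpen (D3 e t s) := by
  have hc : ContinuousOn (fun ζ => (psi e t s ζ).re) Str :=
    Complex.continuous_re.comp_continuousOn psi_diff.continuousOn
  refine ⟨?_, ?_, ?_⟩
  · exact hc.isOpen_inter_preimage isOpen_Str (isOpen_Iio (a := t + 1 / 2))
  · exact hc.isOpen_inter_preimage isOpen_Str (isOpen_Ioo (a := t - 3 / 4) (b := t + s + 3 / 4))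
  · exact hc.isOpen_inter_preimage isOpen_Str (isOpen_Ioi (a := t + s - 1 / 2))

section
variable {p e t s : ℝ} {A : ℂ} {F J : ℂ → ℂ}

theorem GG_eq1 (h : Glue p e t s A F J) {ζ : ℂ} (hζ : ζ ∈ D1 e t s) :
    GG p e t s A F J ζ = F (m1 e t s J ζ) := by
  obtain ⟨h1, h2⟩ := hζ
  have hs := h.hs
  unfold GG
  by_cases h3 : (psi e t s ζ).re < t
  · rw [if_pos h3]
  · rw [if_neg h3, if_pos (by linarith)]
    have h4 := (psi_mem_Zn (t := t) (s := s) h.he h.he1 h1).1 (by rw [abs_lt]; constructor <;> linarith)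
    exact (h.eq1 _ h4).symm

theorem GG_eq2 (h : Glue p e t s A F J) {ζ : ℂ} (hζ : ζ ∈ D2 e t s) :
    GG p e t s A F J ζ = A * Complex.exp (2 * p * m2 e t s J ζ) := by
  obtain ⟨h1, h2, h2'⟩ := hζ
  have hs := h.hs
  unfold GG
  by_cases h3 : (psi e t s ζ).re < t
  · rw [if_pos h3]
    have h4 := (psi_mem_Zn (t := t) (s := s) h.he h.he1 h1).1 (by rw [abs_lt]; constructor <;> linarith)
    exact h.eq1 _ h4
  · rw [if_neg h3]
    by_cases h5 : (psi e t s ζ).re < t + s
    · rw [if_pos h5]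
    · rw [if_neg h5]
      have h4 := (psi_mem_Zn (t := t) (s := s) h.he h.he1 h1).2
        (by rw [abs_lt]; constructor <;> linarith)
      exact h.eq2 _ h4

theorem GG_eq3 (h : Glue p e t s A F J) {ζ : ℂ} (hζ : ζ ∈ D3 e t s) :
    GG p e t s A F J ζ = Real.exp (2 * p * s) * F (m3 e t s J ζ) := by
  obtain ⟨h1, h2⟩ := hζ
  have hs := h.hs
  unfold GG
  rw [if_neg (by linarith)]
  by_cases h5 : (psi e t s ζ).re < t + s
  · rw [if_pos h5]
    have h4 := (psi_mem_Zn (t := t) (s := s) h.he h.he1 h1).2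
      (by rw [abs_lt]; constructor <;> linarith)
    exact (h.eq2 _ h4).symm
  · rw [if_neg h5]

private theorem asm_dom1 (h : Glue p e t s A F J) {ζ : ℂ} (hζ : ζ ∈ D1 e t s) :
    (psi e t s ζ).re < t - 1 / 2 ∨ psi e t s ζ ∈ Zn t (Real.pi / 2 - e / 4) := by
  obtain ⟨h1, h2⟩ := hζ
  rcases lt_or_ge (psi e t s ζ).re (t - 1 / 2) with h3 | h3
  · exact Or.inl h3
  · exact Or.inr ((psi_mem_Zn (t := t) (s := s) h.he h.he1 h1).1
      (by rw [abs_lt]; constructor <;> linarith))

private theorem asm_dom2 (h : Glue p e t s A F J) {ζ : ℂ} (hζ : ζ ∈ D2 e t s) :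
    (t + 1 / 2 < (psi e t s ζ).re ∧ (psi e t s ζ).re < t + s - 1 / 2) ∨
      psi e t s ζ ∈ Zn t (Real.pi / 2 - e / 4) ∨ psi e t s ζ ∈ Zn (t + s) (Real.pi / 2 - e / 4) := by
  obtain ⟨h1, h2, h2'⟩ := hζ
  rcases le_or_gt (psi e t s ζ).re (t + 1 / 2) with h3 | h3
  · exact Or.inr (Or.inl ((psi_mem_Zn (t := t) (s := s) h.he h.he1 h1).1
      (by rw [abs_lt]; constructor <;> linarith)))
  · rcases lt_or_ge (psi e t s ζ).re (t + s - 1 / 2) with h4 | h4
    · exact Or.inl ⟨h3, h4⟩
    · exact Or.inr (Or.inr ((psi_mem_Zn (t := t) (s := s) h.he h.he1 h1).2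
        (by rw [abs_lt]; constructor <;> linarith)))

private theorem asm_dom3 (h : Glue p e t s A F J) {ζ : ℂ} (hζ : ζ ∈ D3 e t s) :
    t + s + 1 / 2 < (psi e t s ζ).re ∨ psi e t s ζ ∈ Zn (t + s) (Real.pi / 2 - e / 4) := by
  obtain ⟨h1, h2⟩ := hζ
  rcases le_or_gt (psi e t s ζ).re (t + s + 1 / 2) with h3 | h3
  · exact Or.inr ((psi_mem_Zn (t := t) (s := s) h.he h.he1 h1).2
      (by rw [abs_lt]; constructor <;> linarith))
  · exact Or.inl h3

theorem m_diff (h : Glue p e t s A F J) : DifferentiableOn ℂ (m1 e t s J) (D1 e t s) ∧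
    DifferentiableOn ℂ (m2 e t s J) (D2 e t s) ∧ DifferentiableOn ℂ (m3 e t s J) (D3 e t s) := by
  have p1 : DifferentiableOn ℂ (psi e t s) (D1 e t s) := psi_diff.mono fun ζ hζ => hζ.1
  have p2 : DifferentiableOn ℂ (psi e t s) (D2 e t s) := psi_diff.mono fun ζ hζ => hζ.1
  have p3 : DifferentiableOn ℂ (psi e t s) (D3 e t s) := psi_diff.mono fun ζ hζ => hζ.1
  refine ⟨?_, ?_, ?_⟩
  · exact p1.add (h.d_in.comp p1 fun ζ hζ => asm_dom1 h hζ)
  · refine p2.add (h.d_mid.comp p2 fun ζ hζ => ?_)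
    rcases asm_dom2 h hζ with h1 | h1 | h1
    · exact Or.inl (Or.inl h1)
    · exact Or.inl (Or.inr h1)
    · exact Or.inr h1
  · exact (p3.add (h.d_out.comp p3 fun ζ hζ => asm_dom3 h hζ)).sub_const _

private theorem asm_im {ζ : ℂ} (h : ζ ∈ Str) (he : 0 < e) (he1 : e ≤ 1 / 100) :
    |(psi e t s ζ).im| ≤ 2 := by
  have h1 := psi_mapsTo (t := t) (s := s) he he1 h
  have h2 : |(psi e t s ζ).im| < Real.pi / 2 := h1
  linarith [Real.pi_lt_d2]

private theorem asm_b1 (h : Glue p e t s A F J) {ζ : ℂ} (hζ : ζ ∈ D1 e t s) :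
    ‖rin t s (Real.pi / 2 - e / 4) J (psi e t s ζ)‖ ≤
      e / 1000 * Real.exp (-|(psi e t s ζ).re - t|) :=
  h.b_in _ (asm_im hζ.1 h.he h.he1) ((asm_dom1 h hζ).imp (fun h1 => h1.le) id)

private theorem asm_b2 (h : Glue p e t s A F J) {ζ : ℂ} (hζ : ζ ∈ D2 e t s) :
    ‖rmid t s (Real.pi / 2 - e / 4) J (psi e t s ζ)‖ ≤
      e / 1000 * (Real.exp (-|(psi e t s ζ).re - t|) + Real.exp (-|(psi e t s ζ).re - t - s|)) :=
  h.b_mid _ (asm_im hζ.1 h.he h.he1) ((asm_dom2 h hζ).imp (fun h1 => ⟨h1.1.le, h1.2.le⟩) id)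

private theorem asm_b3 (h : Glue p e t s A F J) {ζ : ℂ} (hζ : ζ ∈ D3 e t s) :
    ‖rout t s (Real.pi / 2 - e / 4) J (psi e t s ζ)‖ ≤
      e / 1000 * Real.exp (-|(psi e t s ζ).re - t - s|) :=
  h.b_out _ (asm_im hζ.1 h.he h.he1) ((asm_dom3 h hζ).imp (fun h1 => h1.le) id)

/-- the exponential weights of `w` and of `ζ` -/
private theorem asm_exp (he : 0 < e) (he1 : e ≤ 1 / 100) {x y c : ℝ} (h1 : y - 4 * e ≤ x)
    (h2 : x ≤ y) : Real.exp (-|x - c|) ≤ 2 * Real.exp (-|y - c| / 2) := by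
  have h3 : |y - c| ≤ |x - c| + 4 * e := by
    have : |y - c| ≤ |x - c| + |y - x| := by
      have := abs_add_le (x - c) (y - x)
      rwa [show x - c + (y - x) = y - c by ring] at this
    have h4 : |y - x| ≤ 4 * e := by
      rw [abs_le]
      constructor <;> linarith
    linarith
  have h4 : (0 : ℝ) ≤ |y - c| := abs_nonneg _
  have h5 : Real.exp (-|x - c|) ≤ Real.exp (4 * e + -|y - c| / 2) :=
    Real.exp_le_exp.2 (by linarith)
  rw [Real.exp_add] at h5
  have h6 : Real.exp (4 * e) ≤ 2 := by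
    have h7 : Real.exp (4 * e) ≤ Real.exp (Real.log 2) :=
      Real.exp_le_exp.2 (by linarith [Real.log_two_gt_d9])
    rwa [Real.exp_log (by norm_num)] at h7
  exact h5.trans (mul_le_mul_of_nonneg_right h6 (Real.exp_pos _).le)

private theorem asm_abs_im {a b : ℂ} {c : ℝ} (h : ‖b‖ ≤ c) : |(a + b).im| ≤ |a.im| + c := by
  have h1 := Complex.abs_im_le_norm b
  have h2 := abs_add_le a.im b.im
  rw [Complex.add_im]
  linarith

/-- the displacement against the depth: all three maps go into `Str`; quantitative form. -/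
theorem m_depth (h : Glue p e t s A F J) :
    (∀ ζ ∈ D1 e t s, 3 / 10 * e * Real.exp (-|ζ.re - t| / 2) ≤
      Real.pi / 2 - |(m1 e t s J ζ).im|) ∧
    (∀ ζ ∈ D2 e t s, m2 e t s J ζ ∈ Str) ∧
    (∀ ζ ∈ D2 e t s, (|(psi e t s ζ).re - t| < 1 ∨ |(psi e t s ζ).re - (t + s)| < 1) →
      |(m2 e t s J ζ).im| ≤ Real.pi / 2 - e / 4) ∧
    (∀ ζ ∈ D3 e t s, 3 / 10 * e * Real.exp (-|ζ.re - t - s| / 2) ≤
      Real.pi / 2 - |(m3 e t s J ζ).im|) := by
  have he := h.he
  have he1 := h.he1
  refine ⟨fun ζ hζ => ?_, fun ζ hζ => ?_, fun ζ hζ hz => ?_, fun ζ hζ => ?_⟩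
  · have h1 := asm_b1 h hζ
    obtain ⟨h2, -⟩ := psi_depth (t := t) (s := s) he he1 hζ.1
    obtain ⟨h3, h4⟩ := psi_re (t := t) (s := s) he hζ.1
    have h5 := asm_exp (c := t) he he1 h3 h4
    have h6 : |(m1 e t s J ζ).im| ≤ |(psi e t s ζ).im| +
      e / 1000 * Real.exp (-|(psi e t s ζ).re - t|) := asm_abs_im h1
    have h7 := mul_le_mul_of_nonneg_left h5 (by positivity : 0 ≤ e / 1000)
    have h8 : 0 ≤ e * Real.exp (-|ζ.re - t| / 2) := by positivity
    nlinarith [h2, h6, h7, h8]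
  · have h1 := asm_b2 h hζ
    obtain ⟨h2, h2'⟩ := psi_depth (t := t) (s := s) he he1 hζ.1
    obtain ⟨h3, h4⟩ := psi_re (t := t) (s := s) he hζ.1
    have h5 := asm_exp (c := t) he he1 h3 h4
    have h5' := asm_exp (c := t + s) he he1 h3 h4
    rw [show (psi e t s ζ).re - (t + s) = (psi e t s ζ).re - t - s by ring,
      show ζ.re - (t + s) = ζ.re - t - s by ring] at h5'
    have h6 : |(m2 e t s J ζ).im| ≤ |(psi e t s ζ).im| +
      e / 1000 * (Real.exp (-|(psi e t s ζ).re - t|) + Real.exp (-|(psi e t s ζ).re - t - s|)) :=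
      asm_abs_im h1
    have h7 := mul_le_mul_of_nonneg_left h5 (by positivity : 0 ≤ e / 1000)
    have h7' := mul_le_mul_of_nonneg_left h5' (by positivity : 0 ≤ e / 1000)
    have h8 : 0 < e * Real.exp (-|ζ.re - t| / 2) := by positivity
    have h8' : 0 < e * Real.exp (-|ζ.re - t - s| / 2) := by positivity
    show |(m2 e t s J ζ).im| < Real.pi / 2
    nlinarith [h2, h2', h6, h7, h7', h8, h8']
  · have h1 := asm_b2 h hζ
    have h2 := asm_zone he he1 hζ.1 hz
    have h6 : |(m2 e t s J ζ).im| ≤ |(psi e t s ζ).im| +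
      e / 1000 * (Real.exp (-|(psi e t s ζ).re - t|) + Real.exp (-|(psi e t s ζ).re - t - s|)) :=
      asm_abs_im h1
    have h3 : Real.exp (-|(psi e t s ζ).re - t|) ≤ 1 :=
      Real.exp_le_one_iff.2 (by linarith [abs_nonneg ((psi e t s ζ).re - t)])
    have h4 : Real.exp (-|(psi e t s ζ).re - t - s|) ≤ 1 :=
      Real.exp_le_one_iff.2 (by linarith [abs_nonneg ((psi e t s ζ).re - t - s)])
    have h5 := mul_le_mul_of_nonneg_left (add_le_add h3 h4) (by positivity : 0 ≤ e / 1000)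
    linarith
  · have h1 := asm_b3 h hζ
    obtain ⟨-, h2⟩ := psi_depth (t := t) (s := s) he he1 hζ.1
    obtain ⟨h3, h4⟩ := psi_re (t := t) (s := s) he hζ.1
    have h5 := asm_exp (c := t + s) he he1 h3 h4
    rw [show (psi e t s ζ).re - (t + s) = (psi e t s ζ).re - t - s by ring,
      show ζ.re - (t + s) = ζ.re - t - s by ring] at h5
    have h6 : |(m3 e t s J ζ).im| ≤ |(psi e t s ζ).im| +
        e / 1000 * Real.exp (-|(psi e t s ζ).re - t - s|) := by
      have h9 := asm_abs_im (a := psi e t s ζ) h1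
      unfold m3
      rwa [Complex.sub_im, Complex.ofReal_im, sub_zero]
    have h7 := mul_le_mul_of_nonneg_left h5 (by positivity : 0 ≤ e / 1000)
    have h8 : 0 ≤ e * Real.exp (-|ζ.re - t - s| / 2) := by positivity
    nlinarith [h2, h6, h7, h8]

/-- real parts: the maps move the real part of `psi` by at most `e/1000` -/
theorem m_re (h : Glue p e t s A F J) :
    (∀ ζ ∈ D1 e t s, |(m1 e t s J ζ).re - (psi e t s ζ).re| ≤ e / 1000) ∧
    (∀ ζ ∈ D2 e t s, |(m2 e t s J ζ).re - (psi e t s ζ).re| ≤ e / 500) ∧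
    (∀ ζ ∈ D3 e t s, |(m3 e t s J ζ).re - ((psi e t s ζ).re - s)| ≤ e / 1000) := by
  have he := h.he
  have hex : ∀ x : ℝ, Real.exp (-|x|) ≤ 1 := fun x =>
    Real.exp_le_one_iff.2 (by linarith [abs_nonneg x])
  refine ⟨fun ζ hζ => ?_, fun ζ hζ => ?_, fun ζ hζ => ?_⟩
  · have h1 := asm_b1 h hζ
    have h2 := mul_le_mul_of_nonneg_left (hex ((psi e t s ζ).re - t)) (by positivity : 0 ≤ e / 1000)
    have e1 : (m1 e t s J ζ).re - (psi e t s ζ).re =
        (rin t s (Real.pi / 2 - e / 4) J (psi e t s ζ)).re := by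
      unfold m1
      rw [Complex.add_re]
      ring
    rw [e1]
    refine (Complex.abs_re_le_norm _).trans (h1.trans ?_)
    linarith
  · have h1 := asm_b2 h hζ
    have h2 := mul_le_mul_of_nonneg_left (add_le_add (hex ((psi e t s ζ).re - t))
      (hex ((psi e t s ζ).re - t - s))) (by positivity : 0 ≤ e / 1000)
    have e1 : (m2 e t s J ζ).re - (psi e t s ζ).re =
        (rmid t s (Real.pi / 2 - e / 4) J (psi e t s ζ)).re := by
      unfold m2
      rw [Complex.add_re]
      ring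
    rw [e1]
    refine (Complex.abs_re_le_norm _).trans (h1.trans ?_)
    linarith
  · have h1 := asm_b3 h hζ
    have h2 := mul_le_mul_of_nonneg_left (hex ((psi e t s ζ).re - t - s))
      (by positivity : 0 ≤ e / 1000)
    have e1 : (m3 e t s J ζ).re - ((psi e t s ζ).re - s) =
        (rout t s (Real.pi / 2 - e / 4) J (psi e t s ζ)).re := by
      unfold m3
      rw [Complex.sub_re, Complex.add_re, Complex.ofReal_re]
      ring
    rw [e1]
    refine (Complex.abs_re_le_norm _).trans (h1.trans ?_)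
    linarith

private theorem asm_ball {w w' : ℂ} {k : ℝ} (h : w' ∈ ball w k) :
    |w'.re - w.re| < k ∧ |w'.im - w.im| < k := by
  rw [mem_ball_iff_norm] at h
  constructor
  · have := Complex.abs_re_le_norm (w' - w)
    rw [Complex.sub_re] at this
    linarith
  · have := Complex.abs_im_le_norm (w' - w)
    rw [Complex.sub_im] at this
    linarith

/-- balls about a point of a zone -/
private theorem asm_ballZ (he : 0 < e) {w : ℂ} {c : ℝ}
    (h1 : |w.re - c| ≤ 9 / 10) (he1 : e ≤ 1 / 100) (h2 : 7 / 20 * e ≤ Real.pi / 2 - |w.im|) :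
    ball w (e / 20) ⊆ Zn c (Real.pi / 2 - e / 4) := by
  intro w' hw'
  obtain ⟨h3, h4⟩ := asm_ball hw'
  constructor
  · have := abs_add_le (w'.re - w.re) (w.re - c)
    rw [show w'.re - w.re + (w.re - c) = w'.re - c by ring] at this
    linarith
  · have := abs_add_le (w'.im - w.im) w.im
    rw [show w'.im - w.im + w.im = w'.im by ring] at this
    linarith

private theorem asm_im2 (he : 0 < e) (he1 : e ≤ 1 / 100) {w w' : ℂ} (h : |w.im| < Real.pi / 2)
    (hw : w' ∈ ball w (e / 20)) : |w'.im| < 2 := by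
  have h4 := (asm_ball hw).2
  have := abs_add_le (w'.im - w.im) w.im
  rw [show w'.im - w.im + w.im = w'.im by ring] at this
  linarith [Real.pi_lt_d2]

private theorem asm_Zn_im {w : ℂ} {c : ℝ} (he : 0 < e) (h : w ∈ Zn c (Real.pi / 2 - e / 4)) :
    |w.im| ≤ 2 := by
  have := h.2
  linarith [Real.pi_lt_d2]

theorem m_inj (h : Glue p e t s A F J) : InjOn (m1 e t s J) (D1 e t s) ∧
    InjOn (m2 e t s J) (D2 e t s) ∧ InjOn (m3 e t s J) (D3 e t s) := by
  have he := h.he
  have he1 := h.he1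
  have hs := h.hs
  have hinj := psi_injOn (t := t) (s := s) he he1
  have hex : ∀ x : ℝ, Real.exp (-|x|) ≤ 1 := fun x =>
    Real.exp_le_one_iff.2 (by linarith [abs_nonneg x])
  refine ⟨?_, ?_, ?_⟩
  · have key : InjOn (fun w => w + rin t s (Real.pi / 2 - e / 4) J w) (psi e t s '' D1 e t s) := by
      refine inj_of_bound (P := {w | |w.im| < 2 ∧ w.re < t - 1 / 2} ∪ Zn t (Real.pi / 2 - e / 4))
        (B := e / 1000) (k := e / 20) (by positivity) (by positivity) (by linarith)
        (h.d_in.mono ?_) ?_ ?_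
      · rintro w (hw | hw)
        · exact Or.inl hw.2
        · exact Or.inr hw
      · intro w hw
        have h1 : ‖rin t s (Real.pi / 2 - e / 4) J w‖ ≤ e / 1000 * Real.exp (-|w.re - t|) := by
          rcases hw with hw | hw
          · exact h.b_in w hw.1.le (Or.inl hw.2.le)
          · exact h.b_in w (asm_Zn_im he hw) (Or.inr hw)
        have h2 := mul_le_mul_of_nonneg_left (hex (w.re - t)) (by positivity : 0 ≤ e / 1000)
        linarith
      · rintro w ⟨ζ, hζ, rfl⟩
        have hst : |(psi e t s ζ).im| < Real.pi / 2 := psi_mapsTo he he1 hζ.1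
        rcases le_or_gt (psi e t s ζ).re (t - 1 / 2 - e / 20) with h3 | h3
        · intro w' hw'
          refine Or.inl ⟨asm_im2 he he1 hst hw', ?_⟩
          have := (asm_ball hw').1
          rw [abs_lt] at this
          linarith [this.2]
        · have h4 := hζ.2
          have hab : |(psi e t s ζ).re - t| ≤ 9 / 10 := by
            rw [abs_le]
            constructor <;> linarith
          refine (asm_ballZ he hab he1 (asm_zone he he1 hζ.1 (Or.inl (by linarith)))).trans ?_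
          exact subset_union_right
    intro a ha b hb hab
    exact hinj ha.1 hb.1 (key (mem_image_of_mem _ ha) (mem_image_of_mem _ hb) hab)
  · have key : InjOn (fun w => w + rmid t s (Real.pi / 2 - e / 4) J w) (psi e t s '' D2 e t s) := by
      refine inj_of_bound (P := {w | |w.im| < 2 ∧ t + 1 / 2 < w.re ∧ w.re < t + s - 1 / 2} ∪
          Zn t (Real.pi / 2 - e / 4) ∪ Zn (t + s) (Real.pi / 2 - e / 4))
        (B := e / 500) (k := e / 20) (by positivity) (by positivity) (by linarith)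
        (h.d_mid.mono ?_) ?_ ?_
      · rintro w ((hw | hw) | hw)
        · exact Or.inl (Or.inl hw.2)
        · exact Or.inl (Or.inr hw)
        · exact Or.inr hw
      · intro w hw
        have h1 : ‖rmid t s (Real.pi / 2 - e / 4) J w‖ ≤
            e / 1000 * (Real.exp (-|w.re - t|) + Real.exp (-|w.re - t - s|)) := by
          rcases hw with (hw | hw) | hw
          · exact h.b_mid w hw.1.le (Or.inl ⟨hw.2.1.le, hw.2.2.le⟩)
          · exact h.b_mid w (asm_Zn_im he hw) (Or.inr (Or.inl hw))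
          · exact h.b_mid w (asm_Zn_im he hw) (Or.inr (Or.inr hw))
        have h2 := mul_le_mul_of_nonneg_left (add_le_add (hex (w.re - t)) (hex (w.re - t - s)))
          (by positivity : 0 ≤ e / 1000)
        linarith
      · rintro w ⟨ζ, hζ, rfl⟩
        have hst : |(psi e t s ζ).im| < Real.pi / 2 := psi_mapsTo he he1 hζ.1
        have h4 := hζ.2.1
        have h5 := hζ.2.2
        rcases le_or_gt (psi e t s ζ).re (t + 1 / 2 + e / 20) with h3 | h3
        · have hab : |(psi e t s ζ).re - t| ≤ 9 / 10 := by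
            rw [abs_le]
            constructor <;> linarith
          refine (asm_ballZ he hab he1 (asm_zone he he1 hζ.1 (Or.inl (by linarith)))).trans ?_
          exact fun x hx => Or.inl (Or.inr hx)
        · rcases lt_or_ge (psi e t s ζ).re (t + s - 1 / 2 - e / 20) with h6 | h6
          · intro w' hw'
            have := (asm_ball hw').1
            rw [abs_lt] at this
            exact Or.inl (Or.inl ⟨asm_im2 he he1 hst hw', by linarith [this.1],
              by linarith [this.2]⟩)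
          · have hab : |(psi e t s ζ).re - (t + s)| ≤ 9 / 10 := by
              rw [abs_le]
              constructor <;> linarith
            refine (asm_ballZ he hab he1 (asm_zone he he1 hζ.1 (Or.inr (by linarith)))).trans ?_
            exact subset_union_right
    intro a ha b hb hab
    exact hinj ha.1 hb.1 (key (mem_image_of_mem _ ha) (mem_image_of_mem _ hb) hab)
  · have key : InjOn (fun w => w + rout t s (Real.pi / 2 - e / 4) J w) (psi e t s '' D3 e t s) := by
      refine inj_of_bound (P := {w | |w.im| < 2 ∧ t + s + 1 / 2 < w.re} ∪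
          Zn (t + s) (Real.pi / 2 - e / 4))
        (B := e / 1000) (k := e / 20) (by positivity) (by positivity) (by linarith)
        (h.d_out.mono ?_) ?_ ?_
      · rintro w (hw | hw)
        · exact Or.inl hw.2
        · exact Or.inr hw
      · intro w hw
        have h1 : ‖rout t s (Real.pi / 2 - e / 4) J w‖ ≤ e / 1000 * Real.exp (-|w.re - t - s|) := by
          rcases hw with hw | hw
          · exact h.b_out w hw.1.le (Or.inl hw.2.le)
          · exact h.b_out w (asm_Zn_im he hw) (Or.inr hw)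
        have h2 := mul_le_mul_of_nonneg_left (hex (w.re - t - s)) (by positivity : 0 ≤ e / 1000)
        linarith
      · rintro w ⟨ζ, hζ, rfl⟩
        have hst : |(psi e t s ζ).im| < Real.pi / 2 := psi_mapsTo he he1 hζ.1
        have h4 := hζ.2
        rcases lt_or_ge (t + s + 1 / 2 + e / 20) (psi e t s ζ).re with h3 | h3
        · intro w' hw'
          refine Or.inl ⟨asm_im2 he he1 hst hw', ?_⟩
          have := (asm_ball hw').1
          rw [abs_lt] at this
          linarith [this.1]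
        · have hab : |(psi e t s ζ).re - (t + s)| ≤ 9 / 10 := by
            rw [abs_le]
            constructor <;> linarith
          refine (asm_ballZ he hab he1 (asm_zone he he1 hζ.1 (Or.inr (by linarith)))).trans ?_
          exact subset_union_right
    intro a ha b hb hab
    refine hinj ha.1 hb.1 (key (mem_image_of_mem _ ha) (mem_image_of_mem _ hb) ?_)
    have hab' : psi e t s a + rout t s (Real.pi / 2 - e / 4) J (psi e t s a) - s =
      psi e t s b + rout t s (Real.pi / 2 - e / 4) J (psi e t s b) - s := hab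
    exact sub_left_inj.1 hab'

theorem GG_diff (h : Glue p e t s A F J) : DifferentiableOn ℂ (GG p e t s A F J) Str := by
  have hs := h.hs
  have he := h.he
  obtain ⟨o1, o2, o3⟩ := isOpen_D (e := e) (t := t) (s := s)
  obtain ⟨d1, d2, d3⟩ := m_diff h
  obtain ⟨M1, _, _, M3⟩ := m_depth h
  have g1 : DifferentiableOn ℂ (GG p e t s A F J) (D1 e t s) := by
    refine (h.hF.comp d1 fun ζ hζ => ?_).congr fun ζ hζ => GG_eq1 h hζ
    have h1 := M1 ζ hζ
    have h2 : 0 < 3 / 10 * e * Real.exp (-|ζ.re - t| / 2) := by positivity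
    show |(m1 e t s J ζ).im| < Real.pi / 2
    linarith
  have g2 : DifferentiableOn ℂ (GG p e t s A F J) (D2 e t s) := by
    refine DifferentiableOn.congr (f := fun ζ => A * Complex.exp (2 * p * m2 e t s J ζ)) ?_
      fun ζ hζ => GG_eq2 h hζ
    exact ((d2.const_mul _).cexp).const_mul _
  have g3 : DifferentiableOn ℂ (GG p e t s A F J) (D3 e t s) := by
    refine DifferentiableOn.congr (f := fun ζ => Real.exp (2 * p * s) * F (m3 e t s J ζ)) ?_
      fun ζ hζ => GG_eq3 h hζ
    refine DifferentiableOn.const_mul (h.hF.comp d3 fun ζ hζ => ?_) _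
    have h1 := M3 ζ hζ
    have h2 : 0 < 3 / 10 * e * Real.exp (-|ζ.re - t - s| / 2) := by positivity
    show |(m3 e t s J ζ).im| < Real.pi / 2
    linarith
  intro ζ hζ
  refine DifferentiableAt.differentiableWithinAt ?_
  rcases lt_or_ge (psi e t s ζ).re (t + 1 / 2) with h1 | h1
  · exact g1.differentiableAt (o1.mem_nhds ⟨hζ, h1⟩)
  · rcases lt_or_ge (psi e t s ζ).re (t + s + 3 / 4) with h2 | h2
    · exact g2.differentiableAt (o2.mem_nhds ⟨hζ, by linarith, h2⟩)
    · exact g3.differentiableAt (o3.mem_nhds ⟨hζ, by linarith⟩)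

end

end MQV
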