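import Pool.Agent.MQV.Defs

set_option autoImplicit false

/-!
# MQV BAS : the strip, the maps `th` and `lg`

`exp` maps `Str` bijectively onto the right half plane, `W ↦ (W-1)/(W+1)` maps the right half
plane onto the unit disc.
-/

open MeasureTheory Metric Set

namespace MQV

theorem isOpen_Str : IsOpen Str :=
  isOpen_lt (continuous_abs.comp Complex.continuous_im) continuous_const

theorem convex_Str : Convex ℝ Str := by
  have h : Str = Complex.imLm ⁻¹' Ioo (-(Real.pi / 2)) (Real.pi / 2) := by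
    ext ζ
    show |ζ.im| < Real.pi / 2 ↔ ζ.im ∈ Ioo (-(Real.pi / 2)) (Real.pi / 2)
    exact abs_lt
  rw [h]
  exact (convex_Ioo _ _).linear_preimage _

theorem Str_add_real {ζ : ℂ} (x : ℝ) : ζ + x ∈ Str ↔ ζ ∈ Str := by
  show |(ζ + x).im| < Real.pi / 2 ↔ |ζ.im| < Real.pi / 2
  rw [Complex.add_im, Complex.ofReal_im, add_zero]

theorem Str_sub_real {ζ : ℂ} (x : ℝ) : ζ - x ∈ Str ↔ ζ ∈ Str := by
  show |(ζ - x).im| < Real.pi / 2 ↔ |ζ.im| < Real.pi / 2
  rw [Complex.sub_im, Complex.ofReal_im, sub_zero]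

private theorem cos_pos' {ζ : ℂ} (h : ζ ∈ Str) : 0 < Real.cos ζ.im :=
  Real.cos_pos_of_mem_Ioo (abs_lt.1 h)

theorem exp_re_pos {ζ : ℂ} (h : ζ ∈ Str) : 0 < (Complex.exp ζ).re := by
  rw [Complex.exp_re]
  exact mul_pos (Real.exp_pos _) (cos_pos' h)

private theorem add_one_ne {W : ℂ} (h : 0 < W.re) : W + 1 ≠ 0 := by
  intro h1
  have h2 := congrArg Complex.re h1
  rw [Complex.add_re, Complex.one_re, Complex.zero_re] at h2
  linarith

/-- the squares of the distances to `-1` and `1` -/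
private theorem nsq (w : ℂ) : ‖Complex.exp w + 1‖ ^ 2 =
      Real.exp w.re ^ 2 + 2 * Real.exp w.re * Real.cos w.im + 1 ∧
    ‖Complex.exp w - 1‖ ^ 2 = Real.exp w.re ^ 2 - 2 * Real.exp w.re * Real.cos w.im + 1 := by
  have h := Real.sin_sq_add_cos_sq w.im
  constructor
  · rw [Complex.sq_norm, Complex.normSq_apply, Complex.add_re, Complex.add_im, Complex.exp_re,
      Complex.exp_im, Complex.one_re, Complex.one_im]
    linear_combination (Real.exp w.re ^ 2) * h
  · rw [Complex.sq_norm, Complex.normSq_apply, Complex.sub_re, Complex.sub_im, Complex.exp_re,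
      Complex.exp_im, Complex.one_re, Complex.one_im]
    linear_combination (Real.exp w.re ^ 2) * h

private theorem norm_lt {w : ℂ} (h : w ∈ Str) :
    ‖Complex.exp w - 1‖ < ‖Complex.exp w + 1‖ := by
  obtain ⟨h1, h2⟩ := nsq w
  have h3 := cos_pos' h
  have h4 := Real.exp_pos w.re
  have h5 : 0 < Real.exp w.re * Real.cos w.im := mul_pos h4 h3
  refine lt_of_pow_lt_pow_left₀ 2 (norm_nonneg _) ?_
  rw [h1, h2]
  linarith

theorem th_mapsTo : MapsTo th Str (ball 0 1) := by
  intro w h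
  rw [mem_ball_zero_iff]
  unfold th
  rw [norm_div, div_lt_one (norm_pos_iff.2 (add_one_ne (exp_re_pos h)))]
  exact norm_lt h

private theorem one_sub_ne {z : ℂ} (h : z ∈ ball (0 : ℂ) 1) : 1 - z ≠ 0 := by
  intro h1
  rw [mem_ball_zero_iff] at h
  rw [← sub_eq_zero.1 h1, norm_one] at h
  exact lt_irrefl _ h

private theorem one_add_ne {z : ℂ} (h : z ∈ ball (0 : ℂ) 1) : 1 + z ≠ 0 := by
  intro h1
  rw [mem_ball_zero_iff] at h
  have h2 : z = -1 := by linear_combination h1
  rw [h2, norm_neg, norm_one] at h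
  exact lt_irrefl _ h

private theorem quot_re {z : ℂ} (h : z ∈ ball (0 : ℂ) 1) : 0 < ((1 + z) / (1 - z)).re := by
  have h1 := one_sub_ne h
  have h2 : 0 < Complex.normSq (1 - z) := Complex.normSq_pos.2 h1
  rw [mem_ball_zero_iff] at h
  have h3 : z.re ^ 2 + z.im ^ 2 < 1 := by
    have h4 : ‖z‖ ^ 2 < 1 := by
      have := pow_lt_pow_left₀ h (norm_nonneg z) (n := 2) (by norm_num)
      rwa [one_pow] at this
    rw [Complex.sq_norm, Complex.normSq_apply] at h4
    linarith
  rw [Complex.div_re, ← add_div]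
  refine div_pos ?_ h2
  simp only [Complex.add_re, Complex.sub_re, Complex.one_re, Complex.add_im, Complex.sub_im,
    Complex.one_im]
  nlinarith

theorem lg_mapsTo : MapsTo lg (ball 0 1) Str := by
  intro z h
  unfold lg
  show |(Complex.log ((1 + z) / (1 - z))).im| < Real.pi / 2
  rw [Complex.log_im, Complex.abs_arg_lt_pi_div_two_iff]
  exact Or.inl (quot_re h)

theorem lg_th {ζ : ℂ} (h : ζ ∈ Str) : lg (th ζ) = ζ := by
  have h1 := add_one_ne (exp_re_pos h)
  have h2 : (1 + th ζ) / (1 - th ζ) = Complex.exp ζ := by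
    unfold th
    have e1 : 1 + (Complex.exp ζ - 1) / (Complex.exp ζ + 1) =
        2 * Complex.exp ζ / (Complex.exp ζ + 1) := by
      field_simp
      ring
    have e2 : 1 - (Complex.exp ζ - 1) / (Complex.exp ζ + 1) = 2 / (Complex.exp ζ + 1) := by
      field_simp
      ring
    rw [e1, e2]
    field_simp
  have hπ := Real.pi_pos
  obtain ⟨h3, h4⟩ := abs_lt.1 (show |ζ.im| < Real.pi / 2 from h)
  unfold lg
  rw [h2]
  exact Complex.log_exp (by linarith) (by linarith)

theorem th_lg {z : ℂ} (h : z ∈ ball (0 : ℂ) 1) : th (lg z) = z := by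
  have h1 := one_sub_ne h
  have h2 := one_add_ne h
  unfold th lg
  rw [Complex.exp_log (div_ne_zero h2 h1)]
  have e1 : (1 + z) / (1 - z) - 1 = 2 * z / (1 - z) := by
    field_simp
    ring
  have e2 : (1 + z) / (1 - z) + 1 = 2 / (1 - z) := by
    field_simp
    ring
  rw [e1, e2]
  field_simp

theorem th_injOn : InjOn th Str := by
  intro x hx y hy h
  rw [← lg_th hx, ← lg_th hy, h]

theorem lg_injOn : InjOn lg (ball 0 1) := by
  intro x hx y hy h
  rw [← th_lg hx, ← th_lg hy, h]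

theorem th_zero : th 0 = 0 := by
  unfold th
  rw [Complex.exp_zero, sub_self, zero_div]

theorem hasDerivAt_th {ζ : ℂ} (h : ζ ∈ Str) :
    HasDerivAt th (2 * Complex.exp ζ / (Complex.exp ζ + 1) ^ 2) ζ := by
  have h1 := add_one_ne (exp_re_pos h)
  have h2 := ((Complex.hasDerivAt_exp ζ).sub_const 1).div
    ((Complex.hasDerivAt_exp ζ).add_const 1) h1
  refine h2.congr_deriv ?_
  congr 1
  ring

theorem hasDerivAt_lg {z : ℂ} (h : z ∈ ball (0 : ℂ) 1) : HasDerivAt lg (2 / (1 - z ^ 2)) z := by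
  have h1 := one_sub_ne h
  have h2 := one_add_ne h
  have h3 : HasDerivAt (fun z : ℂ => (1 + z) / (1 - z)) (2 / (1 - z) ^ 2) z := by
    have h4 := ((hasDerivAt_id z).const_add 1).div ((hasDerivAt_id z).const_sub 1) h1
    refine h4.congr_deriv ?_
    congr 1
    simp only [id]
    ring
  have h5 := h3.clog (Or.inl (quot_re h))
  refine h5.congr_deriv ?_
  have h6 : 1 - z ^ 2 ≠ 0 := by
    have : 1 - z ^ 2 = (1 - z) * (1 + z) := by ring
    rw [this]
    exact mul_ne_zero h1 h2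
  field_simp
  ring

theorem th_diff : DifferentiableOn ℂ th Str := fun _ h =>
  (hasDerivAt_th h).differentiableAt.differentiableWithinAt

theorem lg_diff : DifferentiableOn ℂ lg (ball 0 1) := fun _ h =>
  (hasDerivAt_lg h).differentiableAt.differentiableWithinAt

/-- The pseudo radius of `th w` against the position of `w` in the strip. -/
theorem ratio_le {w : ℂ} (h : w ∈ Str) :
    (1 + ‖th w‖) / (1 - ‖th w‖) ≤ 4 * Real.exp |w.re| / Real.cos w.im := by
  obtain ⟨h1, h2⟩ := nsq w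
  have hc := cos_pos' h
  have he := Real.exp_pos w.re
  have hlt := norm_lt h
  have hp : 0 < ‖Complex.exp w + 1‖ := norm_pos_iff.2 (add_one_ne (exp_re_pos h))
  have hq : 0 ≤ ‖Complex.exp w - 1‖ := norm_nonneg _
  unfold th
  rw [norm_div]
  generalize ‖Complex.exp w + 1‖ = p at *
  generalize ‖Complex.exp w - 1‖ = q at *
  have e1 : (1 + q / p) / (1 - q / p) = (p + q) / (p - q) := by
    have : p - q ≠ 0 := by linarith
    have h3 : 1 - q / p = (p - q) / p := by field_simp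
    rw [h3]
    field_simp
  rw [e1, div_le_div_iff₀ (by linarith) hc]
  have h4 : (p + q) * Real.cos w.im * (p + q) ≤
      4 * Real.exp |w.re| * (p - q) * (p + q) := by
    have h5 : (p + q) ^ 2 ≤ 4 * (Real.exp w.re ^ 2 + 1) := by nlinarith [sq_nonneg (p - q)]
    have h6 : (p - q) * (p + q) = 4 * Real.exp w.re * Real.cos w.im := by
      linear_combination h1 - h2
    have h7 : Real.exp w.re ≤ Real.exp |w.re| := Real.exp_le_exp.2 (le_abs_self _)
    have h8 : 1 ≤ Real.exp w.re * Real.exp |w.re| := by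
      rw [← Real.exp_add]
      refine Real.one_le_exp ?_
      linarith [neg_abs_le w.re]
    have h9 : Real.exp w.re ^ 2 + 1 ≤ 4 * Real.exp w.re * Real.exp |w.re| := by
      have := mul_le_mul_of_nonneg_left h7 he.le
      nlinarith
    calc (p + q) * Real.cos w.im * (p + q) = (p + q) ^ 2 * Real.cos w.im := by ring
      _ ≤ 4 * (Real.exp w.re ^ 2 + 1) * Real.cos w.im := mul_le_mul_of_nonneg_right h5 hc.le
      _ ≤ 4 * (4 * Real.exp w.re * Real.exp |w.re|) * Real.cos w.im :=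
          mul_le_mul_of_nonneg_right (by linarith) hc.le
      _ = 4 * Real.exp |w.re| * ((p - q) * (p + q)) := by
          rw [h6]
          ring
      _ = 4 * Real.exp |w.re| * (p - q) * (p + q) := by ring
  exact le_of_mul_le_mul_right h4 (by linarith)

/-- points of `Bz t` are near `t`: `|Re ζ - t| ≤ log 3 < 1.1` and `|Im ζ| ≤ 1` -/
theorem Bz_near {t : ℝ} {ζ : ℂ} (h : ζ ∈ Bz t) : |ζ.re - t| ≤ 11 / 10 ∧ |ζ.im| ≤ 1 := by
  obtain ⟨hs, hb⟩ := h
  have hs' : ζ - t ∈ Str := (Str_sub_real t).2 hs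
  have hre : (ζ - t).re = ζ.re - t := by simp
  have him : (ζ - t).im = ζ.im := by simp
  obtain ⟨h1, h2⟩ := nsq (ζ - t)
  have hc := cos_pos' hs'
  have hp : 0 < ‖Complex.exp (ζ - t) + 1‖ := norm_pos_iff.2 (add_one_ne (exp_re_pos hs'))
  have hq : 0 ≤ ‖Complex.exp (ζ - t) - 1‖ := norm_nonneg _
  unfold th at hb
  rw [norm_div, div_le_iff₀ hp] at hb
  rw [hre, him] at h1 h2
  rw [him] at hc
  have he := Real.exp_pos (ζ.re - t)
  have h3 : 4 * ‖Complex.exp (ζ - t) - 1‖ ^ 2 ≤ ‖Complex.exp (ζ - t) + 1‖ ^ 2 := by nlinarith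
  rw [h1, h2] at h3
  have hc1 := Real.cos_le_one ζ.im
  have h4 : Real.exp (ζ.re - t) * Real.cos ζ.im ≤ Real.exp (ζ.re - t) :=
    mul_le_of_le_one_right he.le hc1
  have hexp : 3 ≤ Real.exp (11 / 10) := by
    have h5 := Real.exp_one_gt_d9
    have h6 := Real.quadratic_le_exp_of_nonneg (x := 1 / 10) (by norm_num)
    have h7 : Real.exp (11 / 10) = Real.exp 1 * Real.exp (1 / 10) := by
      rw [← Real.exp_add]
      norm_num
    rw [h7]
    have h8 : (2.7182818283 : ℝ) * (1 + 1 / 10 + (1 / 10) ^ 2 / 2) ≤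
        Real.exp 1 * Real.exp (1 / 10) :=
      mul_le_mul h5.le h6 (by norm_num) (Real.exp_pos 1).le
    refine le_trans ?_ h8
    norm_num
  have h5 : (3 * Real.exp (ζ.re - t) - 1) * (Real.exp (ζ.re - t) - 3) ≤ 0 := by nlinarith
  have h6 : Real.exp (ζ.re - t) ≤ 3 := by
    by_contra hcon
    push Not at hcon
    have : 0 < (3 * Real.exp (ζ.re - t) - 1) * (Real.exp (ζ.re - t) - 3) :=
      mul_pos (by linarith) (by linarith)
    linarith
  have h7 : 1 ≤ 3 * Real.exp (ζ.re - t) := by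
    by_contra hcon
    push Not at hcon
    have : 0 < (3 * Real.exp (ζ.re - t) - 1) * (Real.exp (ζ.re - t) - 3) :=
      mul_pos_of_neg_of_neg (by linarith) (by linarith)
    linarith
  constructor
  · rw [abs_le]
    constructor
    · have h8 : Real.exp (-(ζ.re - t)) ≤ Real.exp (11 / 10) := by
        refine le_trans ?_ hexp
        rw [Real.exp_neg, inv_le_iff_one_le_mul₀ he]
        linarith
      have := Real.exp_le_exp.1 h8
      linarith
    · exact Real.exp_le_exp.1 (h6.trans hexp)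
  · by_contra hcon
    push Not at hcon
    have h8 : 3 / 5 ≤ Real.cos ζ.im := by
      by_contra hcon2
      push Not at hcon2
      have h9 : Real.exp (ζ.re - t) * Real.cos ζ.im < Real.exp (ζ.re - t) * (3 / 5) :=
        mul_lt_mul_of_pos_left hcon2 he
      nlinarith [sq_nonneg (Real.exp (ζ.re - t) - 1)]
    have h9 : Real.cos |ζ.im| ≤ Real.cos 1 := by
      refine Real.cos_le_cos_of_nonneg_of_le_pi (by norm_num) ?_ hcon.le
      have h10 : |ζ.im| < Real.pi / 2 := hs
      linarith [Real.pi_pos]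
    rw [Real.cos_abs] at h9
    have h10 := Real.cos_bound (x := 1) (by norm_num)
    have h11 := (abs_le.1 h10).2
    norm_num at h11
    linarith

theorem real_mem_Bz (t : ℝ) : (t : ℂ) ∈ Bz t := by
  refine ⟨?_, ?_⟩
  · show |(t : ℂ).im| < Real.pi / 2
    rw [Complex.ofReal_im, abs_zero]
    exact Real.pi_div_two_pos
  · rw [sub_self, th_zero, norm_zero]
    norm_num

theorem isCompact_Bz (t : ℝ) : IsCompact (Bz t) := by
  have h : Bz t = (fun z => lg z + t) '' closedBall 0 (1 / 2) := by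
    ext ζ
    constructor
    · rintro ⟨h1, h2⟩
      refine ⟨th (ζ - t), ?_, ?_⟩
      · rw [mem_closedBall_zero_iff]
        exact h2
      · show lg (th (ζ - t)) + t = ζ
        rw [lg_th ((Str_sub_real t).2 h1), sub_add_cancel]
    · rintro ⟨z, hz, rfl⟩
      have hz1 : z ∈ ball (0 : ℂ) 1 := closedBall_subset_ball (by norm_num) hz
      refine ⟨(Str_add_real t).2 (lg_mapsTo hz1), ?_⟩
      show ‖th (lg z + t - t)‖ ≤ 1 / 2
      rw [add_sub_cancel_right, th_lg hz1]
      exact mem_closedBall_zero_iff.1 hz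
  rw [h]
  refine (isCompact_closedBall _ _).image_of_continuousOn ?_
  refine (lg_diff.continuousOn.mono (closedBall_subset_ball (by norm_num))).add continuousOn_const

/-- The real part in the hyperbolic disc of pseudo radius `3/4` about a point `w` of the strip:
`z ↦ lg (mob (th w) z)` moves the real part by less than `2` for `‖z‖ < 3/4`. -/
theorem re_mob {w : ℂ} (h : w ∈ Str) {z : ℂ} (hz : ‖z‖ < 3 / 4) :
    |(lg (MPV.mob (th w) z)).re - w.re| < 2 := by
  have hs := add_one_ne (exp_re_pos h)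
  obtain ⟨W, hW⟩ : ∃ W : ℂ, W = Complex.exp w := ⟨_, rfl⟩
  obtain ⟨s, hsd⟩ : ∃ s : ℂ, s = W + 1 := ⟨_, rfl⟩
  have hWn : ‖W‖ = Real.exp w.re := by rw [hW, Complex.norm_exp]
  rw [← hW, ← hsd] at hs
  have hcs : (starRingEnd ℂ) s ≠ 0 := (map_ne_zero _).2 hs
  have hsc : (starRingEnd ℂ) s = (starRingEnd ℂ) W + 1 := by rw [hsd, map_add, map_one]
  have ha : ‖th w‖ < 1 := mem_ball_zero_iff.1 (th_mapsTo h)
  have had : th w = (W - 1) / s := by
    rw [hsd, hW]
    rfl
  have hD : 1 + (starRingEnd ℂ) (th w) * z ≠ 0 := by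
    intro h1
    have h2 : (starRingEnd ℂ) (th w) * z = -1 := by linear_combination h1
    have h3 := congrArg norm h2
    rw [norm_mul, norm_neg, norm_one, Complex.norm_conj] at h3
    have h4 : ‖th w‖ * ‖z‖ ≤ 1 * ‖z‖ := mul_le_mul_of_nonneg_right ha.le (norm_nonneg z)
    linarith
  have hca : (starRingEnd ℂ) (th w) = ((starRingEnd ℂ) W - 1) / (starRingEnd ℂ) s := by
    rw [had, map_div₀, map_sub, map_one]
  have e1 : 1 + MPV.mob (th w) z = 2 * (W * (starRingEnd ℂ) s + z * ((starRingEnd ℂ) W * s)) /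
      (s * (starRingEnd ℂ) s * (1 + (starRingEnd ℂ) (th w) * z)) := by
    unfold MPV.mob
    rw [eq_div_iff (mul_ne_zero (mul_ne_zero hs hcs) hD)]
    have e3 : (1 + (z + th w) / (1 + (starRingEnd ℂ) (th w) * z)) *
        (s * (starRingEnd ℂ) s * (1 + (starRingEnd ℂ) (th w) * z)) =
        s * (starRingEnd ℂ) s * ((1 + (starRingEnd ℂ) (th w) * z) + (z + th w)) := by
      generalize 1 + (starRingEnd ℂ) (th w) * z = D at hD
      field_simp
    rw [e3, hca, had]
    have e4 : s * (starRingEnd ℂ) s * (1 + ((starRingEnd ℂ) W - 1) / (starRingEnd ℂ) s * z +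
        (z + (W - 1) / s)) = s * (starRingEnd ℂ) s * (1 + z) + s * ((starRingEnd ℂ) W - 1) * z +
        (starRingEnd ℂ) s * (W - 1) := by
      field_simp
      ring
    rw [e4, hsc, hsd]
    ring
  have e2 : 1 - MPV.mob (th w) z = 2 * ((starRingEnd ℂ) s - z * s) /
      (s * (starRingEnd ℂ) s * (1 + (starRingEnd ℂ) (th w) * z)) := by
    unfold MPV.mob
    rw [eq_div_iff (mul_ne_zero (mul_ne_zero hs hcs) hD)]
    have e3 : (1 - (z + th w) / (1 + (starRingEnd ℂ) (th w) * z)) *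
        (s * (starRingEnd ℂ) s * (1 + (starRingEnd ℂ) (th w) * z)) =
        s * (starRingEnd ℂ) s * ((1 + (starRingEnd ℂ) (th w) * z) - (z + th w)) := by
      generalize 1 + (starRingEnd ℂ) (th w) * z = D at hD
      field_simp
    rw [e3, hca, had]
    have e4 : s * (starRingEnd ℂ) s * (1 + ((starRingEnd ℂ) W - 1) / (starRingEnd ℂ) s * z -
        (z + (W - 1) / s)) = s * (starRingEnd ℂ) s * (1 - z) + s * ((starRingEnd ℂ) W - 1) * z -
        (starRingEnd ℂ) s * (W - 1) := by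
      field_simp
      ring
    rw [e4, hsc, hsd]
    ring
  have hns : 0 < ‖s‖ := norm_pos_iff.2 hs
  have hncs : ‖(starRingEnd ℂ) s‖ = ‖s‖ := Complex.norm_conj s
  have hW0 : 0 < ‖W‖ := by
    rw [hWn]
    exact Real.exp_pos _
  have hQ1 : ‖s‖ * (1 - ‖z‖) ≤ ‖(starRingEnd ℂ) s - z * s‖ := by
    have h1 := norm_sub_norm_le ((starRingEnd ℂ) s) (z * s)
    rw [hncs, norm_mul] at h1
    linarith
  have hQ2 : ‖(starRingEnd ℂ) s - z * s‖ ≤ ‖s‖ * (1 + ‖z‖) := by
    have h1 := norm_sub_le ((starRingEnd ℂ) s) (z * s)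
    rw [hncs, norm_mul] at h1
    linarith
  have hP1 : ‖W‖ * ‖s‖ * (1 - ‖z‖) ≤ ‖W * (starRingEnd ℂ) s + z * ((starRingEnd ℂ) W * s)‖ := by
    have h1 := norm_sub_norm_le (W * (starRingEnd ℂ) s) (-(z * ((starRingEnd ℂ) W * s)))
    rw [sub_neg_eq_add, norm_neg, norm_mul, norm_mul, norm_mul, hncs, Complex.norm_conj] at h1
    linarith
  have hP2 : ‖W * (starRingEnd ℂ) s + z * ((starRingEnd ℂ) W * s)‖ ≤ ‖W‖ * ‖s‖ * (1 + ‖z‖) := by
    have h1 := norm_add_le (W * (starRingEnd ℂ) s) (z * ((starRingEnd ℂ) W * s))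
    rw [norm_mul, norm_mul, norm_mul, hncs, Complex.norm_conj] at h1
    linarith
  have hz0 := norm_nonneg z
  have hQ0 : 0 < ‖(starRingEnd ℂ) s - z * s‖ := by
    have : 0 < ‖s‖ * (1 - ‖z‖) := mul_pos hns (by linarith)
    linarith
  have hP0 : 0 < ‖W * (starRingEnd ℂ) s + z * ((starRingEnd ℂ) W * s)‖ := by
    have : 0 < ‖W‖ * ‖s‖ * (1 - ‖z‖) := mul_pos (mul_pos hW0 hns) (by linarith)
    linarith
  have hQn : (starRingEnd ℂ) s - z * s ≠ 0 := norm_pos_iff.1 hQ0
  have e5 : (1 + MPV.mob (th w) z) / (1 - MPV.mob (th w) z) =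
      (W * (starRingEnd ℂ) s + z * ((starRingEnd ℂ) W * s)) / ((starRingEnd ℂ) s - z * s) := by
    rw [e1, e2, div_div_div_cancel_right₀ (mul_ne_zero (mul_ne_zero hs hcs) hD),
      mul_div_mul_left _ _ two_ne_zero]
  unfold lg
  rw [e5, Complex.log_re, norm_div]
  generalize ‖W * (starRingEnd ℂ) s + z * ((starRingEnd ℂ) W * s)‖ = P at *
  generalize ‖(starRingEnd ℂ) s - z * s‖ = Q at *
  have hexp : 7 < Real.exp 2 := by
    have h5 := Real.exp_one_gt_d9
    have h7 : Real.exp 2 = Real.exp 1 * Real.exp 1 := by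
      rw [← Real.exp_add]
      norm_num
    rw [h7]
    nlinarith
  have hx1 : P / Q < Real.exp (w.re + 2) := by
    rw [div_lt_iff₀ hQ0, Real.exp_add, ← hWn]
    have h1 : P ≤ 7 * ‖W‖ * (‖s‖ * (1 - ‖z‖)) := by
      have h2 : 0 ≤ ‖W‖ * ‖s‖ := by positivity
      nlinarith
    have h2 : 7 * ‖W‖ * (‖s‖ * (1 - ‖z‖)) ≤ 7 * ‖W‖ * Q :=
      mul_le_mul_of_nonneg_left hQ1 (by positivity)
    have h3 : ‖W‖ * 7 * Q < ‖W‖ * Real.exp 2 * Q :=
      mul_lt_mul_of_pos_right (mul_lt_mul_of_pos_left hexp hW0) hQ0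
    linarith
  have hx2 : Real.exp (w.re - 2) < P / Q := by
    rw [lt_div_iff₀ hQ0, Real.exp_sub, ← hWn, div_mul_eq_mul_div, div_lt_iff₀ (Real.exp_pos 2)]
    have h1 : ‖W‖ * Q ≤ 7 * (‖W‖ * ‖s‖ * (1 - ‖z‖)) := by
      have h2 : ‖W‖ * Q ≤ ‖W‖ * (‖s‖ * (1 + ‖z‖)) := mul_le_mul_of_nonneg_left hQ2 hW0.le
      have h3 : 0 ≤ ‖W‖ * ‖s‖ := by positivity
      nlinarith
    have h3 : P * 7 < P * Real.exp 2 := mul_lt_mul_of_pos_left hexp hP0
    linarith
  have hPQ : 0 < P / Q := div_pos hP0 hQ0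
  rw [abs_lt]
  constructor
  · have h1 := Real.log_lt_log (Real.exp_pos _) hx2
    rw [Real.log_exp] at h1
    linarith
  · have h1 := Real.log_lt_log hPQ hx1
    rw [Real.log_exp] at h1
    linarith

end MQV
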