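import Pool.Agent.MQV.Bas

set_option autoImplicit false

/-!
# MQV OMG : the Moebius pinch `om a b ζ = -log (1/(e^ζ + a) + b)`, `a, b > 0`

Write `W = e^ζ` (right half plane).  `W + a` and `U = 1/(W+a)` and `U + b` are in the right half
plane; adding a positive number decreases `|arg|`; `|W + a| ≥ |W|`, `|U + b| ≥ |U|`.
`cos (Im (om ζ)) = Re (U+b)/|U+b| ≥ b/(|U|+b) ≥ b/(e^{-Re ζ}+b)`, and
`cos (Im (om ζ)) ≥ cos (arg U) = cos (arg (W+a)) ≥ a/(|W|+a)`.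
Closeness: `1/(W+a)+b = (1/W)(1/(1+a/W) + bW)`.
-/

open MeasureTheory Metric Set

namespace MQV

private theorem nrm_add {z : ℂ} {c : ℝ} (hz : 0 ≤ z.re) (hc : 0 ≤ c) : ‖z‖ ≤ ‖z + c‖ := by
  refine le_of_sq_le_sq ?_ (norm_nonneg _)
  rw [Complex.sq_norm, Complex.sq_norm, Complex.normSq_apply, Complex.normSq_apply, Complex.add_re,
    Complex.add_im, Complex.ofReal_re, Complex.ofReal_im]
  nlinarith [mul_nonneg hz hc]

private theorem cos_add {z : ℂ} {c : ℝ} (hz : 0 < z.re) (hc : 0 ≤ c) :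
    z.re / ‖z‖ ≤ (z + c).re / ‖z + c‖ := by
  have hz0 : z ≠ 0 := fun h => by
    rw [h, Complex.zero_re] at hz
    exact lt_irrefl _ hz
  have hzc : 0 < (z + c).re := by
    rw [Complex.add_re, Complex.ofReal_re]
    linarith
  have hz1 : z + c ≠ 0 := fun h => by
    rw [h, Complex.zero_re] at hzc
    exact lt_irrefl _ hzc
  rw [div_le_div_iff₀ (norm_pos_iff.2 hz0) (norm_pos_iff.2 hz1)]
  refine le_of_sq_le_sq ?_ (mul_nonneg hzc.le (norm_nonneg _))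
  rw [mul_pow, mul_pow, Complex.sq_norm, Complex.sq_norm, Complex.normSq_apply, Complex.normSq_apply,
    Complex.add_re, Complex.add_im, Complex.ofReal_re, Complex.ofReal_im]
  have h1 : 0 ≤ z.im * z.im * (c * (c + 2 * z.re)) :=
    mul_nonneg (mul_self_nonneg _) (mul_nonneg hc (by linarith))
  nlinarith

private theorem arg_le {z w : ℂ} (hz : z ≠ 0) (hw : w ≠ 0) (h : z.re / ‖z‖ ≤ w.re / ‖w‖) :
    |w.arg| ≤ |z.arg| := by
  rw [← Complex.cos_arg hz, ← Complex.cos_arg hw, ← Real.cos_abs z.arg, ← Real.cos_abs w.arg] at h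
  exact (Real.strictAntiOn_cos.le_iff_ge ⟨abs_nonneg _, Complex.abs_arg_le_pi z⟩
    ⟨abs_nonneg _, Complex.abs_arg_le_pi w⟩).1 h

private theorem inv_re_pos {z : ℂ} (hz : 0 < z.re) : 0 < (1 / z).re := by
  have hz0 : z ≠ 0 := fun h => by
    rw [h, Complex.zero_re] at hz
    exact lt_irrefl _ hz
  rw [one_div, Complex.inv_re]
  exact div_pos hz (Complex.normSq_pos.2 hz0)

private theorem ne_of_re {z : ℂ} (hz : 0 < z.re) : z ≠ 0 := fun h => by
  rw [h, Complex.zero_re] at hz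
  exact lt_irrefl _ hz

private theorem V_re {a : ℝ} (ha : 0 < a) {ζ : ℂ} (h : ζ ∈ Str) : a < (Complex.exp ζ + a).re := by
  have := exp_re_pos h
  rw [Complex.add_re, Complex.ofReal_re]
  linarith

private theorem V_pos {a : ℝ} (ha : 0 < a) {ζ : ℂ} (h : ζ ∈ Str) : 0 < (Complex.exp ζ + a).re :=
  ha.trans (V_re ha h)

private theorem Z_re {a b : ℝ} (ha : 0 < a) {ζ : ℂ} (h : ζ ∈ Str) :
    b < (1 / (Complex.exp ζ + a) + b).re := by
  have := inv_re_pos (V_pos ha h)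
  rw [Complex.add_re, Complex.ofReal_re]
  linarith

private theorem Z_pos {a b : ℝ} (ha : 0 < a) (hb : 0 < b) {ζ : ℂ} (h : ζ ∈ Str) :
    0 < (1 / (Complex.exp ζ + a) + b).re := hb.trans (Z_re ha h)

theorem om_diff {a b : ℝ} (ha : 0 < a) (hb : 0 < b) : DifferentiableOn ℂ (om a b) Str := by
  unfold om
  refine DifferentiableOn.neg (DifferentiableOn.clog ?_ ?_)
  · refine DifferentiableOn.add_const _ (DifferentiableOn.div (differentiableOn_const _) ?_ ?_)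
    · exact (Complex.differentiable_exp.differentiableOn).add_const _
    · intro ζ hζ
      exact ne_of_re (V_pos ha hζ)
  · intro ζ hζ
    exact Or.inl (Z_pos ha hb hζ)

private theorem om_im_eq {a b : ℝ} (ζ : ℂ) : (om a b ζ).im = -(1 / (Complex.exp ζ + a) + b).arg := by
  unfold om
  rw [Complex.neg_im, Complex.log_im]

private theorem om_re_eq {a b : ℝ} (ζ : ℂ) :
    (om a b ζ).re = -Real.log ‖1 / (Complex.exp ζ + a) + b‖ := by
  unfold om
  rw [Complex.neg_re, Complex.log_re]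

theorem om_mapsTo {a b : ℝ} (ha : 0 < a) (hb : 0 < b) : MapsTo (om a b) Str Str := by
  intro ζ hζ
  change |(om a b ζ).im| < Real.pi / 2
  rw [om_im_eq, abs_neg]
  exact Complex.abs_arg_lt_pi_div_two_iff.2 (Or.inl (Z_pos ha hb hζ))

private theorem log_exp_Str {ζ : ℂ} (h : ζ ∈ Str) : Complex.log (Complex.exp ζ) = ζ := by
  have h1 : |ζ.im| < Real.pi / 2 := h
  rw [abs_lt] at h1
  have := Real.pi_pos
  exact Complex.log_exp (by linarith) (by linarith)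

theorem om_injOn {a b : ℝ} (ha : 0 < a) (hb : 0 < b) : InjOn (om a b) Str := by
  intro ζ hζ ζ' hζ' heq
  unfold om at heq
  have h1 := neg_injective heq
  have h2 := congrArg Complex.exp h1
  rw [Complex.exp_log (ne_of_re (Z_pos ha hb hζ)), Complex.exp_log (ne_of_re (Z_pos ha hb hζ'))] at h2
  have h3 := add_right_cancel h2
  rw [one_div, one_div] at h3
  have h4 := add_right_cancel (inv_injective h3)
  rw [← log_exp_Str hζ, ← log_exp_Str hζ', h4]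

private theorem cos_Z {a b : ℝ} (ha : 0 < a) (hb : 0 < b) {ζ : ℂ} (h : ζ ∈ Str) :
    (Complex.exp ζ + a).re / ‖Complex.exp ζ + a‖ ≤
      (1 / (Complex.exp ζ + a) + b).re / ‖1 / (Complex.exp ζ + a) + b‖ := by
  have hV := V_pos ha h
  have h1 := cos_add (inv_re_pos hV) hb.le
  refine le_trans (le_of_eq ?_) h1
  rw [one_div, Complex.inv_re, norm_inv]
  have hn : 0 < ‖Complex.exp ζ + a‖ := norm_pos_iff.2 (ne_of_re hV)
  have h2 : Complex.normSq (Complex.exp ζ + a) = ‖Complex.exp ζ + a‖ ^ 2 := (Complex.sq_norm _).symm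
  rw [h2]
  field_simp

theorem om_im {a b : ℝ} (ha : 0 < a) (hb : 0 < b) {ζ : ℂ} (h : ζ ∈ Str) :
    |(om a b ζ).im| ≤ |ζ.im| := by
  have hW := exp_re_pos h
  have hV := V_pos ha h
  have hZ := Z_pos ha hb h
  have e : ζ.im = (Complex.exp ζ).arg := by
    have h1 := congrArg Complex.im (log_exp_Str h)
    rw [Complex.log_im] at h1
    exact h1.symm
  rw [om_im_eq, abs_neg, e]
  exact arg_le (ne_of_re hW) (ne_of_re hZ) ((cos_add hW ha.le).trans (cos_Z ha hb h))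

private theorem V_norm_le {a : ℝ} (ha : 0 < a) (ζ : ℂ) : ‖Complex.exp ζ + a‖ ≤ Real.exp ζ.re + a := by
  refine (norm_add_le _ _).trans (le_of_eq ?_)
  rw [Complex.norm_exp, Complex.norm_real, Real.norm_eq_abs, abs_of_pos ha]

private theorem V_norm_ge {a : ℝ} (ha : 0 < a) {ζ : ℂ} (h : ζ ∈ Str) :
    Real.exp ζ.re ≤ ‖Complex.exp ζ + a‖ := by
  have h1 := nrm_add (exp_re_pos h).le ha.le
  rwa [Complex.norm_exp] at h1

private theorem U_norm_le {a : ℝ} (ha : 0 < a) {ζ : ℂ} (h : ζ ∈ Str) :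
    ‖1 / (Complex.exp ζ + a)‖ ≤ Real.exp (-ζ.re) := by
  rw [one_div, norm_inv, Real.exp_neg]
  exact inv_anti₀ (Real.exp_pos _) (V_norm_ge ha h)

private theorem Z_norm_le (a : ℝ) {b : ℝ} (hb : 0 < b) (ζ : ℂ) :
    ‖1 / (Complex.exp ζ + a) + b‖ ≤ ‖1 / (Complex.exp ζ + a)‖ + b := by
  refine (norm_add_le _ _).trans (le_of_eq ?_)
  rw [Complex.norm_real, Real.norm_eq_abs, abs_of_pos hb]

theorem om_re_le {a b : ℝ} (ha : 0 < a) (hb : 0 < b) {ζ : ℂ} (h : ζ ∈ Str) :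
    (om a b ζ).re ≤ Real.log (Real.exp ζ.re + a) ∧ (om a b ζ).re ≤ -Real.log b := by
  have hV := V_pos ha h
  have hZ := Z_pos ha hb h
  have hVn : 0 < ‖Complex.exp ζ + a‖ := norm_pos_iff.2 (ne_of_re hV)
  have hZn : 0 < ‖1 / (Complex.exp ζ + a) + b‖ := norm_pos_iff.2 (ne_of_re hZ)
  rw [om_re_eq]
  constructor
  · rw [← Real.log_inv]
    refine Real.log_le_log (inv_pos.2 hZn) ?_
    have h1 := nrm_add (inv_re_pos hV).le hb.le
    have h2 : ‖1 / (Complex.exp ζ + a)‖ = ‖Complex.exp ζ + a‖⁻¹ := by rw [one_div, norm_inv]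
    have h3 : ‖1 / (Complex.exp ζ + a) + b‖⁻¹ ≤ ‖Complex.exp ζ + a‖ := by
      rw [h2] at h1
      have h4 := inv_anti₀ (inv_pos.2 hVn) h1
      rwa [inv_inv] at h4
    exact h3.trans (V_norm_le ha ζ)
  · refine neg_le_neg (Real.log_le_log hb ?_)
    exact (Z_re ha h).le.trans (Complex.re_le_norm _)

theorem om_re_ge {a b : ℝ} (ha : 0 < a) (hb : 0 < b) {ζ : ℂ} (h : ζ ∈ Str) :
    -Real.log (Real.exp (-ζ.re) + b) ≤ (om a b ζ).re ∧ -Real.log (1 / a + b) ≤ (om a b ζ).re := by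
  have hZ := Z_pos ha hb h
  have hZn : 0 < ‖1 / (Complex.exp ζ + a) + b‖ := norm_pos_iff.2 (ne_of_re hZ)
  have h0 := Z_norm_le a hb ζ
  rw [om_re_eq]
  constructor
  · refine neg_le_neg (Real.log_le_log hZn ?_)
    have := U_norm_le ha h
    linarith
  · refine neg_le_neg (Real.log_le_log hZn ?_)
    have h1 : ‖1 / (Complex.exp ζ + a)‖ ≤ 1 / a := by
      rw [one_div, norm_inv, one_div]
      exact inv_anti₀ ha ((V_re ha h).le.trans (Complex.re_le_norm _))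
    linarith

theorem om_cos {a b : ℝ} (ha : 0 < a) (hb : 0 < b) {ζ : ℂ} (h : ζ ∈ Str) :
    a / (Real.exp ζ.re + a) ≤ Real.cos (om a b ζ).im ∧
    b / (Real.exp (-ζ.re) + b) ≤ Real.cos (om a b ζ).im := by
  have hV := V_pos ha h
  have hZ := Z_pos ha hb h
  have hVn : 0 < ‖Complex.exp ζ + a‖ := norm_pos_iff.2 (ne_of_re hV)
  have hZn : 0 < ‖1 / (Complex.exp ζ + a) + b‖ := norm_pos_iff.2 (ne_of_re hZ)
  rw [om_im_eq, Real.cos_neg, Complex.cos_arg (ne_of_re hZ)]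
  constructor
  · refine le_trans ?_ (cos_Z ha hb h)
    exact div_le_div₀ hV.le (V_re ha h).le hVn (V_norm_le ha ζ)
  · refine div_le_div₀ hZ.le (Z_re ha h).le hZn ?_
    have h1 := Z_norm_le a hb ζ
    have h2 := U_norm_le ha h
    linarith

theorem om_close : ∃ C : ℝ, 1 ≤ C ∧ ∀ (a b : ℝ), 0 < a → 0 < b → ∀ ζ ∈ Str,
    a * Real.exp (-ζ.re) ≤ 1 / 4 → b * Real.exp ζ.re ≤ 1 / 4 →
      ‖om a b ζ - ζ‖ ≤ C * (a * Real.exp (-ζ.re) + b * Real.exp ζ.re) := by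
  refine ⟨3, by norm_num, fun a b ha hb ζ h h1 h2 => ?_⟩
  obtain ⟨W, hW⟩ : ∃ W, W = Complex.exp ζ := ⟨_, rfl⟩
  have hWr := exp_re_pos h
  have hV := V_pos ha h
  have hZ := Z_pos ha hb h
  have hWn : ‖W‖ = Real.exp ζ.re := by rw [hW, Complex.norm_exp]
  have hW0 : W ≠ 0 := by
    rw [hW]
    exact Complex.exp_ne_zero ζ
  have hV0 : W + a ≠ 0 := by
    rw [hW]
    exact ne_of_re hV
  obtain ⟨p, hp⟩ : ∃ p : ℂ, p = a / W := ⟨_, rfl⟩
  obtain ⟨q, hq⟩ : ∃ q : ℂ, q = b * W := ⟨_, rfl⟩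
  have hpn : ‖p‖ = a * Real.exp (-ζ.re) := by
    rw [hp, norm_div, Complex.norm_real, Real.norm_eq_abs, abs_of_pos ha, hWn, Real.exp_neg]
    rfl
  have hqn : ‖q‖ = b * Real.exp ζ.re := by
    rw [hq, norm_mul, Complex.norm_real, Real.norm_eq_abs, abs_of_pos hb, hWn]
  rw [← hpn] at h1 ⊢
  rw [← hqn] at h2 ⊢
  have hp1 : 3 / 4 ≤ ‖1 + p‖ := by
    have h3 : ‖(1 : ℂ)‖ ≤ ‖1 + p‖ + ‖p‖ := by
      have h4 := norm_sub_le (1 + p) p
      rwa [add_sub_cancel_right] at h4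
    rw [norm_one] at h3
    linarith
  have hp0 : 1 + p ≠ 0 := fun h3 => by
    rw [h3, norm_zero] at hp1
    linarith
  obtain ⟨ε, hε⟩ : ∃ ε : ℂ, ε = q - p / (1 + p) := ⟨_, rfl⟩
  have hεn : ‖ε‖ ≤ ‖q‖ + 4 / 3 * ‖p‖ := by
    rw [hε]
    refine (norm_sub_le _ _).trans ?_
    rw [norm_div]
    have h3 : ‖p‖ / ‖1 + p‖ ≤ 4 / 3 * ‖p‖ := by
      rw [div_le_iff₀ (by linarith)]
      nlinarith [norm_nonneg p]
    linarith
  have hZW : (1 / (W + a) + b) * W = 1 + ε := by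
    have h3 : 1 + p = (W + a) / W := by
      rw [hp]
      field_simp
    have h4 : p / (1 + p) = a / (W + a) := by
      rw [h3, hp]
      field_simp
    rw [hε, h4, hq]
    field_simp
    ring
  have hlog : Complex.log ((1 / (W + a) + b) * W) = Complex.log (1 / (W + a) + b) + Complex.log W := by
    rw [hW]
    have h3 : |(1 / (Complex.exp ζ + a) + b).arg| < Real.pi / 2 :=
      Complex.abs_arg_lt_pi_div_two_iff.2 (Or.inl hZ)
    have h4 : |(Complex.exp ζ).arg| < Real.pi / 2 := Complex.abs_arg_lt_pi_div_two_iff.2 (Or.inl hWr)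
    rw [abs_lt] at h3 h4
    exact Complex.log_mul (ne_of_re hZ) (Complex.exp_ne_zero ζ) ⟨by linarith [h3.1, h4.1], by linarith [h3.2, h4.2]⟩
  have hom : om a b ζ - ζ = -Complex.log (1 + ε) := by
    have h3 : Complex.log W = ζ := by
      rw [hW]
      exact log_exp_Str h
    rw [hZW, h3] at hlog
    unfold om
    rw [hlog, hW]
    ring
  rw [hom, norm_neg]
  have hε1 : ‖ε‖ ≤ 7 / 12 := by linarith
  have h5 := Complex.norm_log_one_add_le (show ‖ε‖ < 1 by linarith)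
  have h6 : (1 - ‖ε‖)⁻¹ ≤ 12 / 5 := by
    have h7 : (5 / 12 : ℝ) ≤ 1 - ‖ε‖ := by linarith
    have h8 := inv_anti₀ (by norm_num : (0 : ℝ) < 5 / 12) h7
    norm_num at h8
    linarith
  have h7 : ‖ε‖ ^ 2 * (1 - ‖ε‖)⁻¹ / 2 ≤ 7 / 10 * ‖ε‖ := by
    have h8 : ‖ε‖ ^ 2 * (1 - ‖ε‖)⁻¹ ≤ ‖ε‖ ^ 2 * (12 / 5) := mul_le_mul_of_nonneg_left h6 (sq_nonneg _)
    have h9 : ‖ε‖ ^ 2 ≤ 7 / 12 * ‖ε‖ := by nlinarith [norm_nonneg ε]
    linarith
  have h8 := norm_nonneg p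
  have h9 := norm_nonneg q
  linarith

end MQV
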