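import Pool.Agent.MQV.Cov
import Pool.Agent.MQV.Omg

set_option autoImplicit false

/-!
# MQV BNDB : the outer bound (`high_om`), proof; see `Bnd.lean`
-/

open MeasureTheory Metric Set

namespace MQV

namespace BndB

theorem exp_small {p c K : ℝ} (hp : 0 < p) (hc : 0 < c) (hK : 0 < K) :
    ∃ x₀ : ℝ, ∀ x, x₀ ≤ x → K * Real.exp (-(p * x)) ≤ c := by
  refine ⟨Real.log (K / c) / p, fun x hx => ?_⟩
  have h1 : Real.log (K / c) ≤ p * x := by
    rw [div_le_iff₀ hp] at hx
    linarith
  have h2 : K / c ≤ Real.exp (p * x) := (Real.log_le_iff_le_exp (div_pos hK hc)).1 h1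
  rw [Real.exp_neg]
  rw [div_le_iff₀ hc] at h2
  have h3 := Real.exp_pos (p * x)
  rw [← div_eq_mul_inv, div_le_iff₀ h3]
  linarith

theorem two_le_exp_one : (2 : ℝ) ≤ Real.exp 1 := by
  have := Real.add_one_le_exp (1 : ℝ)
  linarith

/-- position of `om w` for `0 ≤ Re w ≤ T` -/
theorem om_pos_in {a T : ℝ} (ha : 0 < a) (ha1 : a ≤ 1) {w : ℂ} (hw : w ∈ Str) (h0 : 0 ≤ w.re)
    (hT : w.re ≤ T) : w.re - 1 ≤ (om a (a * Real.exp (-T)) w).re ∧
      (om a (a * Real.exp (-T)) w).re ≤ w.re + 1 := by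
  have hb : 0 < a * Real.exp (-T) := mul_pos ha (Real.exp_pos _)
  have h1 := (om_re_le ha hb hw).1
  have h2 := (om_re_ge ha hb hw).1
  have he := two_le_exp_one
  constructor
  · refine le_trans ?_ h2
    have h3 : Real.log (Real.exp (-w.re) + a * Real.exp (-T)) ≤ -w.re + 1 := by
      rw [Real.log_le_iff_le_exp (add_pos (Real.exp_pos _) hb), Real.exp_add]
      have h4 : Real.exp (-T) ≤ Real.exp (-w.re) := Real.exp_le_exp.2 (by linarith)
      have h5 : a * Real.exp (-T) ≤ 1 * Real.exp (-w.re) :=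
        mul_le_mul ha1 h4 (Real.exp_pos _).le zero_le_one
      have h6 := Real.exp_pos (-w.re)
      nlinarith
    linarith
  · refine h1.trans ?_
    rw [Real.log_le_iff_le_exp (add_pos (Real.exp_pos _) ha), Real.exp_add]
    have h3 : 1 ≤ Real.exp w.re := Real.one_le_exp h0
    nlinarith

/-- position of `om w` for `T ≤ Re w` -/
theorem om_pos_out {a T : ℝ} (ha : 0 < a) (ha1 : a ≤ 1) {w : ℂ} (hw : w ∈ Str)
    (hT : T ≤ w.re) : T - 1 ≤ (om a (a * Real.exp (-T)) w).re ∧
      (om a (a * Real.exp (-T)) w).re ≤ T + Real.log (1 / a) := by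
  have hb : 0 < a * Real.exp (-T) := mul_pos ha (Real.exp_pos _)
  have h1 := (om_re_le ha hb hw).2
  have h2 := (om_re_ge ha hb hw).1
  have he := two_le_exp_one
  constructor
  · refine le_trans ?_ h2
    have h3 : Real.log (Real.exp (-w.re) + a * Real.exp (-T)) ≤ -T + 1 := by
      rw [Real.log_le_iff_le_exp (add_pos (Real.exp_pos _) hb), Real.exp_add]
      have h4 : Real.exp (-w.re) ≤ Real.exp (-T) := Real.exp_le_exp.2 (by linarith)
      have h6 := Real.exp_pos (-T)
      nlinarith
    linarith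
  · refine h1.trans ?_
    rw [Real.log_mul ha.ne' (Real.exp_pos _).ne', Real.log_exp, one_div, Real.log_inv]
    linarith

theorem cos_depth {x d : ℝ} (hd : 0 ≤ d) (h : d ≤ Real.pi / 2 - |x|) :
    2 / Real.pi * d ≤ Real.cos x := by
  have h1 : 0 ≤ Real.pi / 2 - |x| := hd.trans h
  have h2 := Real.mul_le_sin h1 (by linarith [abs_nonneg x])
  rw [Real.sin_pi_div_two_sub, Real.cos_abs] at h2
  refine le_trans ?_ h2
  exact mul_le_mul_of_nonneg_left h (by positivity)

theorem om_cos_in {a b : ℝ} (ha : 0 < a) (hb : 0 < b) {w : ℂ} (hw : w ∈ Str) :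
    Real.cos w.im ≤ Real.cos (om a b w).im := by
  rw [← Real.cos_abs w.im, ← Real.cos_abs (om a b w).im]
  refine Real.cos_le_cos_of_nonneg_of_le_pi (abs_nonneg _) ?_ (om_im ha hb hw)
  have h1 : |w.im| < Real.pi / 2 := hw
  linarith [Real.pi_pos]

theorem area_two {F : ℂ → ℂ} {p : ℝ} (hF : MV Str p F) {t x R : ℝ} (hx : t + 3 ≤ x)
    (hR : 0 < R) : ar (Str ∩ {ζ | ζ.re < t + 1}) F 0 R + ar (Str ∩ {ζ | |ζ.re - x| < 2}) F 0 R ≤
      ENNReal.ofReal (Real.pi * p * R ^ 2) := by
  refine le_trans ?_ (hF.area R hR)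
  unfold ar
  rw [← lintegral_union]
  · refine lintegral_mono_set ?_
    rintro z (⟨h1, h2⟩ | ⟨h1, h2⟩)
    · exact ⟨h1.1, h2⟩
    · exact ⟨h1.1, h2⟩
  · have h1 : IsOpen (Str ∩ {ζ : ℂ | |ζ.re - x| < 2}) := by
      refine isOpen_Str.inter ?_
      exact isOpen_lt ((Complex.continuous_re.sub continuous_const).abs) continuous_const
    have h2 := (hF.diff.continuousOn.mono (inter_subset_left (s := Str)
      (t := {ζ : ℂ | |ζ.re - x| < 2}))).isOpen_inter_preimage h1 (isOpen_ball (x := (0 : ℂ)) (ε := R))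
    have h3 : {z | z ∈ Str ∩ {ζ : ℂ | |ζ.re - x| < 2} ∧ 0 ≤ ‖F z‖ ∧ ‖F z‖ < R} =
        Str ∩ {ζ : ℂ | |ζ.re - x| < 2} ∩ F ⁻¹' ball (0 : ℂ) R := by
      ext z
      constructor
      · rintro ⟨h4, -, h5⟩
        exact ⟨h4, mem_ball_zero_iff.2 h5⟩
      · rintro ⟨h4, h5⟩
        exact ⟨h4, norm_nonneg _, mem_ball_zero_iff.1 h5⟩
    rw [h3]
    exact h2.measurableSet
  · rw [Set.disjoint_left]
    rintro z ⟨⟨-, h1⟩, -⟩ ⟨⟨-, h2⟩, -⟩
    change z.re < t + 1 at h1
    change |z.re - x| < 2 at h2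
    have h3 := abs_lt.1 h2
    linarith

end BndB

open BndB in
/-- the outer bound -/
theorem high_om_proof {p c CA : ℝ} (hp : 0 < p) (hc : 0 < c) (hCA : 0 < CA) {e : ℝ} (he : 0 < e) :
    ∃ r₀ κ' : ℝ, 0 < κ' ∧ ∀ r : ℝ, r₀ ≤ r → ∀ a : ℝ, 0 < a → a ≤ 1 → ∃ T₀ : ℝ, ∀ T : ℝ, T₀ ≤ T →
      ∀ (F : ℂ → ℂ) (t : ℝ) (A : ℂ), MV Str p F → T / 3 ≤ t → t ≤ 2 * T / 3 → A ≠ 0 → ‖A‖ ≤ CA →
      (∃ ζ ∈ Bz T, c * Real.exp (2 * p * T) ≤ ‖F ζ‖) →
      ENNReal.ofReal (Real.pi * p * (1 - κ') * (‖A‖ * Real.exp (2 * p * (t + 1))) ^ 2) ≤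
        ar (Str ∩ {ζ | ζ.re < t + 1}) F 0 (‖A‖ * Real.exp (2 * p * (t + 1))) →
      ∀ w ∈ Str, t + r ≤ w.re → e / 10 * Real.exp (-(w.re - t) / 2) ≤ Real.pi / 2 - |w.im| →
        ‖A‖ * Real.exp (2 * p * (t + 1)) ≤ ‖F (om a (a * Real.exp (-T)) w)‖ := by
  obtain ⟨C, hC1, hlow⟩ := lower hp
  have hC : 0 < C := by linarith
  have hpi := Real.pi_pos
  have hX1 : 0 < 5 * Real.pi / e := by positivity
  have hK1 : 0 < C * CA * (5 * Real.pi / e) ^ (2 * p) * Real.exp (4 * p) := by positivity
  obtain ⟨x1, hx1⟩ := exp_small hp hc hK1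
  refine ⟨max 5 x1, 1 / (2 * p), by positivity, fun r hr a ha ha1 => ?_⟩
  have hX2 : 0 < Real.exp 1 * (2 / a ^ 2) := by positivity
  have hK2 : 0 < C * CA * (Real.exp 1 * (2 / a ^ 2)) ^ (2 * p) * Real.exp (2 * p) := by positivity
  obtain ⟨x2, hx2⟩ := exp_small (p := 2 * p / 3) (by positivity) hc hK2
  refine ⟨max 12 x2, fun T hT F t A hF ht1 ht2 hA hCA' hζ har w hw hwr hdep => ?_⟩
  by_contra hcon
  push Not at hcon
  have hr5 : 5 ≤ r := (le_max_left _ _).trans hr
  have hr1 : x1 ≤ r := (le_max_right _ _).trans hr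
  have hT12 : 12 ≤ T := (le_max_left _ _).trans hT
  have hT2 : x2 ≤ T := (le_max_right _ _).trans hT
  have hA0 : 0 < ‖A‖ := norm_pos_iff.2 hA
  have hb : 0 < a * Real.exp (-T) := mul_pos ha (Real.exp_pos _)
  have hR : 0 < ‖A‖ * Real.exp (2 * p * (t + 1)) := mul_pos hA0 (Real.exp_pos _)
  have hw' : om a (a * Real.exp (-T)) w ∈ Str := om_mapsTo ha hb hw
  have h2p : (0 : ℝ) ≤ 2 * p := by positivity
  have key : C * (‖A‖ * Real.exp (2 * p * (t + 1))) *
      (Real.exp |(om a (a * Real.exp (-T)) w).re - T| /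
        Real.cos (om a (a * Real.exp (-T)) w).im) ^ (2 * p) ≤ c * Real.exp (2 * p * T) ∧
      t + 3 ≤ (om a (a * Real.exp (-T)) w).re := by
    rcases le_total w.re T with hwT | hwT
    · -- first case
      obtain ⟨g1, g2⟩ := om_pos_in ha ha1 hw (by linarith) hwT
      have g3 : 2 / Real.pi * (e / 10 * Real.exp (-(w.re - t) / 2)) ≤
          Real.cos (om a (a * Real.exp (-T)) w).im :=
        (cos_depth (by positivity) hdep).trans (om_cos_in ha hb hw)
      have g4 : |(om a (a * Real.exp (-T)) w).re - T| ≤ T - w.re + 1 := by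
        rw [abs_le]
        constructor <;> linarith
      refine ⟨?_, by linarith⟩
      have g5 : 0 < 2 / Real.pi * (e / 10 * Real.exp (-(w.re - t) / 2)) := by positivity
      have g6 : Real.exp |(om a (a * Real.exp (-T)) w).re - T| /
          Real.cos (om a (a * Real.exp (-T)) w).im ≤
          5 * Real.pi / e * Real.exp (1 + (T - t) - (w.re - t) / 2) := by
        rw [div_le_iff₀ (g5.trans_le g3)]
        calc Real.exp |(om a (a * Real.exp (-T)) w).re - T| ≤ Real.exp (T - w.re + 1) :=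
              Real.exp_le_exp.2 g4
          _ = 5 * Real.pi / e * Real.exp (1 + (T - t) - (w.re - t) / 2) *
              (2 / Real.pi * (e / 10 * Real.exp (-(w.re - t) / 2))) := by
              have g7 : Real.exp (T - w.re + 1) = Real.exp (1 + (T - t) - (w.re - t) / 2) *
                  Real.exp (-(w.re - t) / 2) := by
                rw [← Real.exp_add]
                congr 1
                ring
              rw [g7]
              field_simp
              norm_num
          _ ≤ _ := mul_le_mul_of_nonneg_left g3 (by positivity)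
      have g8 : (Real.exp |(om a (a * Real.exp (-T)) w).re - T| /
          Real.cos (om a (a * Real.exp (-T)) w).im) ^ (2 * p) ≤
          (5 * Real.pi / e) ^ (2 * p) * Real.exp ((1 + (T - t) - (w.re - t) / 2) * (2 * p)) := by
        rw [Real.exp_mul, ← Real.mul_rpow hX1.le (Real.exp_pos _).le]
        exact Real.rpow_le_rpow (div_nonneg (Real.exp_pos _).le (g5.trans_le g3).le) g6 h2p
      calc C * (‖A‖ * Real.exp (2 * p * (t + 1))) *
            (Real.exp |(om a (a * Real.exp (-T)) w).re - T| /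
              Real.cos (om a (a * Real.exp (-T)) w).im) ^ (2 * p)
          ≤ C * (‖A‖ * Real.exp (2 * p * (t + 1))) * ((5 * Real.pi / e) ^ (2 * p) *
              Real.exp ((1 + (T - t) - (w.re - t) / 2) * (2 * p))) :=
            mul_le_mul_of_nonneg_left g8 (by positivity)
        _ = (C * ‖A‖ * (5 * Real.pi / e) ^ (2 * p) * Real.exp (4 * p) *
              Real.exp (-(p * (w.re - t)))) * Real.exp (2 * p * T) := by
            have g9 : Real.exp (2 * p * (t + 1)) *
                Real.exp ((1 + (T - t) - (w.re - t) / 2) * (2 * p)) =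
                Real.exp (4 * p) * Real.exp (-(p * (w.re - t))) * Real.exp (2 * p * T) := by
              rw [← Real.exp_add, ← Real.exp_add, ← Real.exp_add]
              congr 1
              ring
            linear_combination (C * ‖A‖ * (5 * Real.pi / e) ^ (2 * p)) * g9
        _ ≤ (C * CA * (5 * Real.pi / e) ^ (2 * p) * Real.exp (4 * p) *
              Real.exp (-(p * r))) * Real.exp (2 * p * T) := by
            refine mul_le_mul_of_nonneg_right ?_ (Real.exp_pos _).le
            have g10 : Real.exp (-(p * (w.re - t))) ≤ Real.exp (-(p * r)) := by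
              apply Real.exp_le_exp.2
              have : r ≤ w.re - t := by linarith
              nlinarith
            refine mul_le_mul ?_ g10 (Real.exp_pos _).le hK1.le
            refine mul_le_mul_of_nonneg_right ?_ (Real.exp_pos _).le
            refine mul_le_mul_of_nonneg_right ?_ (by positivity)
            exact mul_le_mul_of_nonneg_left hCA' hC.le
        _ ≤ c * Real.exp (2 * p * T) :=
            mul_le_mul_of_nonneg_right (hx1 r hr1) (Real.exp_pos _).le
    · -- second case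
      obtain ⟨g1, g2⟩ := om_pos_out ha ha1 hw hwT
      have g3 : a / 2 ≤ Real.cos (om a (a * Real.exp (-T)) w).im := by
        refine le_trans ?_ (om_cos ha hb hw).2
        rw [div_le_div_iff₀ two_pos (add_pos (Real.exp_pos _) hb)]
        have h1 : Real.exp (-w.re) ≤ Real.exp (-T) := Real.exp_le_exp.2 (by linarith)
        have h2 : a * Real.exp (-T) ≤ 1 * Real.exp (-T) :=
          mul_le_mul_of_nonneg_right ha1 (Real.exp_pos _).le
        have h3 : Real.exp (-w.re) + a * Real.exp (-T) ≤ 2 * Real.exp (-T) := by linarith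
        calc a * (Real.exp (-w.re) + a * Real.exp (-T)) ≤ a * (2 * Real.exp (-T)) :=
              mul_le_mul_of_nonneg_left h3 ha.le
          _ = a * Real.exp (-T) * 2 := by ring
      have hlog : 0 ≤ Real.log (1 / a) := by
        apply Real.log_nonneg
        rw [le_div_iff₀ ha]
        linarith
      have g4 : |(om a (a * Real.exp (-T)) w).re - T| ≤ 1 + Real.log (1 / a) := by
        rw [abs_le]
        constructor <;> linarith
      refine ⟨?_, by linarith⟩
      have g5 : 0 < a / 2 := by positivity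
      have g6 : Real.exp |(om a (a * Real.exp (-T)) w).re - T| /
          Real.cos (om a (a * Real.exp (-T)) w).im ≤ Real.exp 1 * (2 / a ^ 2) := by
        rw [div_le_iff₀ (g5.trans_le g3)]
        calc Real.exp |(om a (a * Real.exp (-T)) w).re - T| ≤ Real.exp (1 + Real.log (1 / a)) :=
              Real.exp_le_exp.2 g4
          _ = Real.exp 1 * (2 / a ^ 2) * (a / 2) := by
              rw [Real.exp_add, Real.exp_log (by positivity)]
              field_simp
          _ ≤ _ := mul_le_mul_of_nonneg_left g3 (by positivity)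
      have g8 : (Real.exp |(om a (a * Real.exp (-T)) w).re - T| /
          Real.cos (om a (a * Real.exp (-T)) w).im) ^ (2 * p) ≤
          (Real.exp 1 * (2 / a ^ 2)) ^ (2 * p) :=
        Real.rpow_le_rpow (div_nonneg (Real.exp_pos _).le (g5.trans_le g3).le) g6 h2p
      calc C * (‖A‖ * Real.exp (2 * p * (t + 1))) *
            (Real.exp |(om a (a * Real.exp (-T)) w).re - T| /
              Real.cos (om a (a * Real.exp (-T)) w).im) ^ (2 * p)
          ≤ C * (‖A‖ * Real.exp (2 * p * (t + 1))) * (Real.exp 1 * (2 / a ^ 2)) ^ (2 * p) :=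
            mul_le_mul_of_nonneg_left g8 (by positivity)
        _ = (C * ‖A‖ * (Real.exp 1 * (2 / a ^ 2)) ^ (2 * p) * Real.exp (2 * p)) *
              Real.exp (2 * p * t) := by
            have g9 : Real.exp (2 * p * (t + 1)) = Real.exp (2 * p) * Real.exp (2 * p * t) := by
              rw [← Real.exp_add]
              congr 1
              ring
            rw [g9]
            ring
        _ ≤ (C * CA * (Real.exp 1 * (2 / a ^ 2)) ^ (2 * p) * Real.exp (2 * p)) *
              (Real.exp (-(2 * p / 3 * T)) * Real.exp (2 * p * T)) := by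
            refine mul_le_mul ?_ ?_ (Real.exp_pos _).le hK2.le
            · refine mul_le_mul_of_nonneg_right ?_ (Real.exp_pos _).le
              refine mul_le_mul_of_nonneg_right ?_ (by positivity)
              exact mul_le_mul_of_nonneg_left hCA' hC.le
            · rw [← Real.exp_add]
              apply Real.exp_le_exp.2
              nlinarith
        _ ≤ c * Real.exp (2 * p * T) := by
            rw [← mul_assoc]
            exact mul_le_mul_of_nonneg_right (hx2 T hT2) (Real.exp_pos _).le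
  obtain ⟨ζ, hζB, hζ⟩ := hζ
  have h1 := hlow F hF _ hw' T _ hR ⟨ζ, hζB, key.1.trans hζ⟩ hcon
  have h2 := (add_le_add har h1).trans (area_two hF key.2 hR)
  have h3 := ENNReal.ofReal_add_le.trans h2
  have hR2 : 0 < (‖A‖ * Real.exp (2 * p * (t + 1))) ^ 2 := by positivity
  rw [ENNReal.ofReal_le_ofReal_iff (by positivity)] at h3
  have h4 : p * (1 / (2 * p)) = 1 / 2 := by field_simp
  have h5 : 0 < Real.pi * (‖A‖ * Real.exp (2 * p * (t + 1))) ^ 2 := mul_pos hpi hR2
  have h6 : Real.pi * p * (1 - 1 / (2 * p)) * (‖A‖ * Real.exp (2 * p * (t + 1))) ^ 2 =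
      Real.pi * p * (‖A‖ * Real.exp (2 * p * (t + 1))) ^ 2 -
        1 / 2 * (Real.pi * (‖A‖ * Real.exp (2 * p * (t + 1))) ^ 2) := by
    linear_combination (-(Real.pi * (‖A‖ * Real.exp (2 * p * (t + 1))) ^ 2)) * h4
  rw [h6] at h3
  linarith

end MQV
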