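import Pool.Agent.MQV.Grw
import Pool.Agent.MPV.Log

set_option autoImplicit false

/-!
# MQV COV : covering, and the lower bound `lower` used for the outer region

`harnack_pos`: `L` analytic on `ball 0 R`, `Re L ≥ 0`: `Re L z ≥ (R-|z|)/(R+|z|) Re L 0` (Schwarz
lemma for `(L - L0)/(L + conj L0)`; if `Re L 0 = 0` trivial).

`covering`: `M₁ = max_{|z| ≤ 1/2} |f| ≥ M`; `harnack` (`ρ = 3/4`): `|f| ≤ C M₁` on `|z| ≤ 3/4`.
If `w` were omitted on `ball 0 (3/4)`: `g = (f - w)/((C+1) M₁)` is zero free with `|g| ≤ 1` and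
`|g 0| ≤ 2c/(C+1)`; `g = exp (-L)`, so `|g z| ≤ |g 0|^{1/5}` on `|z| ≤ 1/2` (`R = 3/4`), and at the
point where `|f| = M₁`: `M₁ ≤ c M₁ + (C+1) M₁ (2c/(C+1))^{1/5} < M₁` for small `c`.  Contradiction.

`lower`: `f z = F (lg (mob (th w) z))`, `f 0 = F w`, `M = max_{|z| ≤ 1/2} |f|`.  For `ζ ∈ Bz x`:
`ζ = lg (mob (th w) z)`, `(1+|z|)/(1-|z|) ≤ 3 · 4 e^{|Re w - x|}/cos (Im w)` (the pseudo hyperbolic
distance is invariant under translations of the strip; triangle inequality in the form: `(1+|z|)/(1-|z|)`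
is submultiplicative; `ratio_le` at `w - x`; `|th (ζ - x)| ≤ 1/2` gives the factor `3`).
`growth_disc` then gives `M ≥ R/c` if `C` is large.  By `covering` every `|u| < R` is a value of
`f` on `|z| < 3/4`, i.e. of `F` on `{|Re ζ - Re w| < 2}` (`re_mob`), so
`π R² = vol (ball 0 R) ≤ vol (F '' {…}) ≤ ∫ |F'|²`
(`MeasureTheory.addHaar_image_le_lintegral_abs_det_fderiv`).
-/

open MeasureTheory Metric Set

namespace MQV

private theorem cov_mob_den {a z : ℂ} (ha : ‖a‖ < 1) (hz : ‖z‖ < 1) :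
    1 + (starRingEnd ℂ) a * z ≠ 0 := by
  intro h
  have h1 : ‖(starRingEnd ℂ) a * z‖ < 1 := by
    rw [norm_mul, Complex.norm_conj]
    calc ‖a‖ * ‖z‖ ≤ 1 * ‖z‖ := mul_le_mul_of_nonneg_right ha.le (norm_nonneg _)
      _ < 1 := by rw [one_mul]; exact hz
  have h2 : (starRingEnd ℂ) a * z = -1 := by linear_combination h
  rw [h2, norm_neg, norm_one] at h1
  exact lt_irrefl _ h1

private theorem cov_mob_mob {a y : ℂ} (ha : ‖a‖ < 1) (hy : ‖y‖ < 1) :
    MPV.mob a (MPV.mob (-a) y) = y := by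
  have ha' : ‖-a‖ < 1 := by rwa [norm_neg]
  have hd := cov_mob_den ha' hy
  have hz : ‖MPV.mob (-a) y‖ < 1 :=
    mem_ball_zero_iff.1 (MPV.mob_mapsTo ha' (mem_ball_zero_iff.2 hy))
  have hd2 := cov_mob_den ha hz
  have e : MPV.mob (-a) y * (1 + (starRingEnd ℂ) (-a) * y) = y + -a := by
    unfold MPV.mob
    rw [div_mul_cancel₀ _ hd]
  have h3 : MPV.mob a (MPV.mob (-a) y) * (1 + (starRingEnd ℂ) a * MPV.mob (-a) y) =
      MPV.mob (-a) y + a := by
    conv_lhs => rw [MPV.mob]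
    rw [div_mul_cancel₀ _ hd2]
  refine mul_right_cancel₀ hd2 ?_
  rw [h3]
  refine mul_right_cancel₀ hd ?_
  rw [map_neg] at e ⊢
  linear_combination (1 - y * (starRingEnd ℂ) a) * e

/-- pseudo hyperbolic distance in the strip -/
private theorem cov_pseudo {u v : ℂ} (hu : u ∈ Str) (hv : v ∈ Str) :
    ‖MPV.mob (-th v) (th u)‖ = ‖Complex.exp u - Complex.exp v‖ /
      ‖Complex.exp u + (starRingEnd ℂ) (Complex.exp v)‖ := by
  have hU := exp_re_pos hu
  have hV := exp_re_pos hv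
  obtain ⟨U, hUe⟩ : ∃ U, U = Complex.exp u := ⟨_, rfl⟩
  obtain ⟨V, hVe⟩ : ∃ V, V = Complex.exp v := ⟨_, rfl⟩
  have htu : th u = (U - 1) / (U + 1) := by rw [hUe]; rfl
  have htv : th v = (V - 1) / (V + 1) := by rw [hVe]; rfl
  rw [← hUe] at hU ⊢
  rw [← hVe] at hV ⊢
  have hU1 : U + 1 ≠ 0 := by
    intro h
    have := congrArg Complex.re h
    simp only [Complex.add_re, Complex.one_re, Complex.zero_re] at this
    linarith
  have hV1 : V + 1 ≠ 0 := by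
    intro h
    have := congrArg Complex.re h
    simp only [Complex.add_re, Complex.one_re, Complex.zero_re] at this
    linarith
  have hV2 : (starRingEnd ℂ) V + 1 ≠ 0 := by
    intro h
    have := congrArg Complex.re h
    simp only [Complex.add_re, Complex.one_re, Complex.zero_re, Complex.conj_re] at this
    linarith
  have hUV : U + (starRingEnd ℂ) V ≠ 0 := by
    intro h
    have := congrArg Complex.re h
    simp only [Complex.add_re, Complex.zero_re, Complex.conj_re] at this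
    linarith
  have hden := cov_mob_den (a := -th v) (z := th u)
    (by rw [norm_neg]; exact mem_ball_zero_iff.1 (th_mapsTo hv))
    (mem_ball_zero_iff.1 (th_mapsTo hu))
  have h1 : MPV.mob (-th v) (th u) =
      ((U - V) / (U + (starRingEnd ℂ) V)) * (((starRingEnd ℂ) V + 1) / (V + 1)) := by
    unfold MPV.mob
    rw [div_eq_iff hden, htu, htv, map_neg, map_div₀, map_sub, map_add, map_one]
    field_simp
    ring
  have h2 : ‖(starRingEnd ℂ) V + 1‖ = ‖V + 1‖ := by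
    rw [← Complex.norm_conj (V + 1), map_add, map_one]
  rw [h1, norm_mul, norm_div, norm_div, h2, div_self (norm_ne_zero_iff.2 hV1), mul_one]

private theorem cov_shift {u v : ℂ} (hu : u ∈ Str) (hv : v ∈ Str) (x : ℝ) :
    ‖MPV.mob (-th v) (th u)‖ = ‖MPV.mob (-th (v - x)) (th (u - x))‖ := by
  rw [cov_pseudo hu hv, cov_pseudo ((Str_sub_real x).2 hu) ((Str_sub_real x).2 hv)]
  have h1 : ∀ y : ℂ, Complex.exp (y - x) = (Real.exp (-x) : ℂ) * Complex.exp y := by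
    intro y
    rw [Complex.ofReal_exp, ← Complex.exp_add]
    congr 1
    push_cast
    ring
  rw [h1, h1, map_mul, Complex.conj_ofReal, ← mul_sub, ← mul_add, norm_mul, norm_mul,
    mul_div_mul_left]
  rw [norm_ne_zero_iff]
  exact_mod_cast (Real.exp_pos _).ne'

/-- `(1 + r) / (1 - r)` is submultiplicative for the pseudo hyperbolic distance -/
private theorem cov_tri {b t : ℂ} (hb : ‖b‖ < 1) (ht : ‖t‖ < 1) :
    (1 + ‖MPV.mob (-b) t‖) / (1 - ‖MPV.mob (-b) t‖) ≤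
      (1 + ‖b‖) / (1 - ‖b‖) * ((1 + ‖t‖) / (1 - ‖t‖)) := by
  have hb' : ‖-b‖ < 1 := by rwa [norm_neg]
  have hd := cov_mob_den hb' ht
  have hz : ‖MPV.mob (-b) t‖ < 1 :=
    mem_ball_zero_iff.1 (MPV.mob_mapsTo hb' (mem_ball_zero_iff.2 ht))
  have hd0 : 0 < ‖1 + (starRingEnd ℂ) (-b) * t‖ := norm_pos_iff.2 hd
  have hb0 := norm_nonneg b
  have ht0 := norm_nonneg t
  obtain ⟨r, hr⟩ : ∃ r, r = ‖MPV.mob (-b) t‖ := ⟨_, rfl⟩
  have hr0 : 0 ≤ r := by rw [hr]; exact norm_nonneg _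
  rw [← hr] at hz ⊢
  have h1 : r * ‖1 + (starRingEnd ℂ) (-b) * t‖ = ‖t + -b‖ := by
    rw [hr, ← norm_mul]
    unfold MPV.mob
    rw [div_mul_cancel₀ _ hd]
  have h2 : ‖1 + (starRingEnd ℂ) (-b) * t‖ ^ 2 - ‖t + -b‖ ^ 2 =
      (1 - ‖b‖ ^ 2) * (1 - ‖t‖ ^ 2) := by
    simp only [Complex.sq_norm, Complex.normSq_apply, Complex.add_re, Complex.add_im,
      Complex.mul_re, Complex.mul_im, Complex.one_re, Complex.one_im, Complex.conj_re,
      Complex.conj_im, Complex.neg_re, Complex.neg_im, map_neg]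
    ring
  have h3 : ‖1 + (starRingEnd ℂ) (-b) * t‖ ≤ 1 + ‖b‖ * ‖t‖ := by
    refine (norm_add_le _ _).trans ?_
    rw [norm_one, norm_mul, Complex.norm_conj, norm_neg]
  have h4 : r * (1 + ‖b‖ * ‖t‖) ≤ ‖b‖ + ‖t‖ := by
    have h5 : (1 - r ^ 2) * ‖1 + (starRingEnd ℂ) (-b) * t‖ ^ 2 =
        (1 - ‖b‖ ^ 2) * (1 - ‖t‖ ^ 2) := by
      rw [← h2, ← h1]
      ring
    have h6 : (1 - ‖b‖ ^ 2) * (1 - ‖t‖ ^ 2) ≤ (1 - r ^ 2) * (1 + ‖b‖ * ‖t‖) ^ 2 := by
      rw [← h5]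
      refine mul_le_mul_of_nonneg_left (pow_le_pow_left₀ hd0.le h3 2) ?_
      nlinarith
    have h7 : (r * (1 + ‖b‖ * ‖t‖)) ^ 2 ≤ (‖b‖ + ‖t‖) ^ 2 := by nlinarith
    exact (pow_le_pow_iff_left₀ (by positivity) (by positivity) two_ne_zero).1 h7
  have p1 : 0 < 1 - r := by linarith
  have p2 : 0 < 1 - ‖b‖ := by linarith
  have p3 : 0 < 1 - ‖t‖ := by linarith
  rw [div_mul_div_comm, div_le_div_iff₀ p1 (by positivity)]
  nlinarith

private theorem cov_det (w : ℂ) : (w • (1 : ℂ →L[ℝ] ℂ)).det = ‖w‖ ^ 2 := by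
  have h1 : ((w • (1 : ℂ →L[ℝ] ℂ) : ℂ →L[ℝ] ℂ) : ℂ →ₗ[ℝ] ℂ) = Algebra.lmul ℝ ℂ w := by
    ext z
    simp
  rw [ContinuousLinearMap.det, h1]
  have := Algebra.norm_complex_apply w
  rw [Algebra.norm_apply] at this
  rw [this, Complex.normSq_eq_norm_sq]

theorem harnack_pos {L : ℂ → ℂ} {R : ℝ} (hR : 0 < R) (hL : DifferentiableOn ℂ L (ball 0 R))
    (h0 : ∀ z ∈ ball (0 : ℂ) R, 0 ≤ (L z).re) {z : ℂ} (hz : z ∈ ball (0 : ℂ) R) :
    (R - ‖z‖) / (R + ‖z‖) * (L 0).re ≤ (L z).re := by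
  have hz' : ‖z‖ < R := mem_ball_zero_iff.1 hz
  have hzn := norm_nonneg z
  rcases (h0 0 (mem_ball_self hR)).eq_or_lt with h00 | h00
  · rw [← h00, mul_zero]
    exact h0 z hz
  · have hden : ∀ u ∈ ball (0 : ℂ) R, L u + (starRingEnd ℂ) (L 0) ≠ 0 := by
      intro u hu h
      have h1 := congrArg Complex.re h
      simp only [Complex.add_re, Complex.conj_re, Complex.zero_re] at h1
      have h2 := h0 u hu
      linarith
    have hsq : ∀ u, ‖L u - L 0‖ ^ 2 = ((L u).re - (L 0).re) ^ 2 + ((L u).im - (L 0).im) ^ 2 := by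
      intro u
      rw [Complex.sq_norm, Complex.normSq_apply]
      simp only [Complex.sub_re, Complex.sub_im]
      ring
    have hsq' : ∀ u, ‖L u + (starRingEnd ℂ) (L 0)‖ ^ 2 =
        ((L u).re + (L 0).re) ^ 2 + ((L u).im - (L 0).im) ^ 2 := by
      intro u
      rw [Complex.sq_norm, Complex.normSq_apply]
      simp only [Complex.add_re, Complex.add_im, Complex.conj_re, Complex.conj_im]
      ring
    have hg : DifferentiableOn ℂ (fun u => (L u - L 0) / (L u + (starRingEnd ℂ) (L 0)))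
        (ball 0 R) := (hL.sub_const _).div (hL.add_const _) hden
    have hg0 : (L 0 - L 0) / (L 0 + (starRingEnd ℂ) (L 0)) = 0 := by rw [sub_self, zero_div]
    have hmaps : MapsTo (fun u => (L u - L 0) / (L u + (starRingEnd ℂ) (L 0))) (ball 0 R)
        (closedBall ((L 0 - L 0) / (L 0 + (starRingEnd ℂ) (L 0))) 1) := by
      intro u hu
      rw [hg0, mem_closedBall_zero_iff, norm_div, div_le_one (norm_pos_iff.2 (hden u hu))]
      refine (pow_le_pow_iff_left₀ (norm_nonneg _) (norm_nonneg _) two_ne_zero).1 ?_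
      rw [hsq, hsq']
      have h2 := h0 u hu
      nlinarith
    have h1 := Complex.dist_le_div_mul_dist_of_mapsTo_ball hg hmaps hz
    rw [hg0, dist_zero_right, dist_zero_right, norm_div,
      div_le_iff₀ (norm_pos_iff.2 (hden z hz))] at h1
    obtain ⟨t, ht⟩ : ∃ t, t = 1 / R * ‖z‖ := ⟨_, rfl⟩
    rw [← ht] at h1
    have ht0 : 0 ≤ t := by rw [ht]; positivity
    have ht1 : t ≤ 1 := by
      rw [ht, one_div, inv_mul_le_iff₀ hR]
      linarith
    have htR : t * R = ‖z‖ := by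
      rw [ht]
      field_simp
    have h2 := pow_le_pow_left₀ (norm_nonneg _) h1 2
    rw [mul_pow, hsq, hsq'] at h2
    have ha := h0 z hz
    have h3 : (1 - t) * (L 0).re ≤ (1 + t) * (L z).re := by
      by_contra hcon
      push Not at hcon
      have h4 : t * ((L z).re + (L 0).re) < (L 0).re - (L z).re := by linarith
      have h5 := pow_lt_pow_left₀ h4 (by positivity) two_ne_zero
      have h6 : t ^ 2 * ((L z).im - (L 0).im) ^ 2 ≤ ((L z).im - (L 0).im) ^ 2 := by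
        have h7 : t ^ 2 ≤ 1 := pow_le_one₀ ht0 ht1
        nlinarith [sq_nonneg ((L z).im - (L 0).im)]
      nlinarith
    rw [div_mul_eq_mul_div, div_le_iff₀ (by positivity)]
    have h4 := mul_le_mul_of_nonneg_left h3 hR.le
    rw [← htR]
    nlinarith

theorem covering {p : ℝ} (hp : 0 < p) : ∃ c : ℝ, 0 < c ∧ ∀ f : ℂ → ℂ, MV (ball 0 1) p f →
    ∀ M : ℝ, 0 < M → (∃ z : ℂ, ‖z‖ ≤ 1 / 2 ∧ M ≤ ‖f z‖) → ‖f 0‖ < c * M →
      ∀ w : ℂ, ‖w‖ < c * M → ∃ z : ℂ, ‖z‖ < 3 / 4 ∧ f z = w := by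
  obtain ⟨C, hC, hH⟩ := harnack hp (ρ := 3 / 4) (by norm_num) (by norm_num)
  obtain ⟨c, hc⟩ : ∃ c : ℝ, c = 1 / (64 * (C + 1) ^ 4) := ⟨_, rfl⟩
  have hc0 : 0 < c := by rw [hc]; positivity
  refine ⟨c, hc0, ?_⟩
  rintro f hf M hM ⟨z0, hz0, hMz0⟩ hf0 w hw
  by_contra hcon
  push Not at hcon
  have hfc : ContinuousOn f (ball 0 1) := hf.diff.continuousOn
  obtain ⟨z1, hz1, hmax⟩ := (isCompact_closedBall (0 : ℂ) (1 / 2)).exists_isMaxOn
    ⟨0, mem_closedBall_self (by norm_num)⟩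
    (hfc.mono (closedBall_subset_ball (by norm_num))).norm
  have hmax' : ∀ z : ℂ, ‖z‖ ≤ 1 / 2 → ‖f z‖ ≤ ‖f z1‖ := fun z hz =>
    hmax (mem_closedBall_zero_iff.2 hz)
  obtain ⟨M1, hM1e⟩ : ∃ M1, M1 = ‖f z1‖ := ⟨_, rfl⟩
  rw [← hM1e] at hmax'
  have hM1 : M ≤ M1 := hMz0.trans (hmax' z0 hz0)
  have hM1p : 0 < M1 := hM.trans_le hM1
  have hub := hH f hf M1 hM1p hmax'
  have hC1 : 0 < C + 1 := by linarith
  have hc1 : c ≤ 1 / 4 := by
    rw [hc, div_le_div_iff₀ (by positivity) (by norm_num)]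
    have : (1 : ℝ) ≤ (C + 1) ^ 4 := one_le_pow₀ (by linarith)
    linarith
  have hcM : c * M ≤ 1 / 4 * M1 := by
    calc c * M ≤ c * M1 := mul_le_mul_of_nonneg_left hM1 hc0.le
      _ ≤ 1 / 4 * M1 := mul_le_mul_of_nonneg_right hc1 hM1p.le
  have hD : 0 < (C + 1) * M1 := by positivity
  have hD' : (((C + 1) * M1 : ℝ) : ℂ) ≠ 0 := by exact_mod_cast hD.ne'
  have hball : ∀ z ∈ ball (0 : ℂ) 1, ‖(3 / 4 : ℂ) * z‖ < 3 / 4 := by
    intro z hz
    rw [mem_ball_zero_iff] at hz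
    rw [norm_mul]
    have : ‖(3 / 4 : ℂ)‖ = 3 / 4 := by norm_num
    rw [this]
    linarith
  have hh : DifferentiableOn ℂ (fun z => (f ((3 / 4 : ℂ) * z) - w) / (((C + 1) * M1 : ℝ) : ℂ))
      (ball 0 1) := by
    refine DifferentiableOn.div_const (DifferentiableOn.sub_const ?_ _) _
    refine hf.diff.comp (t := ball 0 1) (by fun_prop) ?_
    intro z hz
    rw [mem_ball_zero_iff]
    linarith [hball z hz]
  have hne : ∀ z ∈ ball (0 : ℂ) 1, (f ((3 / 4 : ℂ) * z) - w) / (((C + 1) * M1 : ℝ) : ℂ) ≠ 0 := by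
    intro z hz
    exact div_ne_zero (sub_ne_zero.2 (hcon _ (hball z hz))) hD'
  obtain ⟨L, hL, hexp⟩ := MPV.exists_log hh hne
  have hnorm : ∀ z ∈ ball (0 : ℂ) 1, Real.exp (L z).re = ‖f ((3 / 4 : ℂ) * z) - w‖ /
      ((C + 1) * M1) := by
    intro z hz
    rw [← Complex.norm_exp, ← hexp z hz, norm_div, Complex.norm_real, Real.norm_eq_abs,
      abs_of_pos hD]
  have hle : ∀ z ∈ ball (0 : ℂ) 1, 0 ≤ (-L z).re := by
    intro z hz
    rw [Complex.neg_re]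
    have h1 : Real.exp (L z).re ≤ 1 := by
      rw [hnorm z hz, div_le_one hD]
      have h2 := hub _ (hball z hz).le
      have h3 := norm_sub_le (f ((3 / 4 : ℂ) * z)) w
      nlinarith
    have h2 := Real.exp_le_one_iff.1 h1
    linarith
  have hz1' : ‖z1‖ ≤ 1 / 2 := mem_closedBall_zero_iff.1 hz1
  obtain ⟨y, hy⟩ : ∃ y : ℂ, y = (4 / 3 : ℂ) * z1 := ⟨_, rfl⟩
  have hyn : ‖y‖ ≤ 2 / 3 := by
    rw [hy, norm_mul]
    have : ‖(4 / 3 : ℂ)‖ = 4 / 3 := by norm_num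
    rw [this]
    linarith
  have hyb : y ∈ ball (0 : ℂ) 1 := by
    rw [mem_ball_zero_iff]
    linarith
  have hy2 : (3 / 4 : ℂ) * y = z1 := by
    rw [hy]
    ring
  have hy0 := norm_nonneg y
  have h1 := harnack_pos (L := fun z => -L z) one_pos hL.neg hle hyb
  have h00 := hle 0 (mem_ball_self one_pos)
  have h2 : 1 / 5 * (-L 0).re ≤ (-L y).re := by
    refine le_trans (mul_le_mul_of_nonneg_right ?_ h00) h1
    rw [div_le_div_iff₀ (by norm_num) (by positivity)]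
    linarith
  rw [Complex.neg_re, Complex.neg_re] at h2
  have h3 : Real.exp (L y).re ^ 5 ≤ Real.exp (L 0).re := by
    rw [← Real.exp_nat_mul]
    refine Real.exp_le_exp.2 ?_
    push_cast
    linarith
  have h4 : Real.exp (L 0).re ≤ (1 / (2 * (C + 1))) ^ 5 := by
    rw [hnorm 0 (mem_ball_self one_pos), mul_zero, div_le_iff₀ hD]
    have h5 := norm_sub_le (f 0) w
    have h6 : (1 / (2 * (C + 1))) ^ 5 * ((C + 1) * M1) = 2 * c * M1 := by
      rw [hc]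
      field_simp
      norm_num
    rw [h6]
    have h7 : c * M ≤ c * M1 := mul_le_mul_of_nonneg_left hM1 hc0.le
    linarith
  have h5 : Real.exp (L y).re ≤ 1 / (2 * (C + 1)) :=
    (pow_le_pow_iff_left₀ (Real.exp_pos _).le (by positivity) (by norm_num : (5 : ℕ) ≠ 0)).1
      (h3.trans h4)
  rw [hnorm y hyb, hy2, div_le_iff₀ hD] at h5
  have h6 : 1 / (2 * (C + 1)) * ((C + 1) * M1) = M1 / 2 := by
    field_simp
  rw [h6] at h5
  have h7 : ‖f z1‖ ≤ ‖f z1 - w‖ + ‖w‖ := by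
    simpa using norm_add_le (f z1 - w) w
  rw [← hM1e] at h7
  linarith

theorem lower {p : ℝ} (hp : 0 < p) : ∃ C : ℝ, 1 ≤ C ∧ ∀ F : ℂ → ℂ, MV Str p F → ∀ w ∈ Str,
    ∀ x R : ℝ, 0 < R →
      (∃ ζ ∈ Bz x, C * R * (Real.exp |w.re - x| / Real.cos w.im) ^ (2 * p) ≤ ‖F ζ‖) →
      ‖F w‖ < R →
      ENNReal.ofReal (Real.pi * R ^ 2) ≤ ar (Str ∩ {ζ | |ζ.re - w.re| < 2}) F 0 R := by
  obtain ⟨C1, hC1, hG⟩ := growth_disc hp
  obtain ⟨c, hc, hcov⟩ := covering hp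
  refine ⟨max 1 (C1 * 12 ^ (2 * p) / c), le_max_left _ _, ?_⟩
  rintro F hF w hw x R hR ⟨ζ, hζ, hζF⟩ hFw
  have ha : ‖th w‖ < 1 := mem_ball_zero_iff.1 (th_mapsTo hw)
  have hf : MV (ball 0 1) p (fun z => F (lg (MPV.mob (th w) z))) := hF.toBall.mob ha
  obtain ⟨f, hfe⟩ : ∃ f : ℂ → ℂ, f = fun z => F (lg (MPV.mob (th w) z)) := ⟨_, rfl⟩
  rw [← hfe] at hf
  have hwim := abs_lt.1 (show |w.im| < Real.pi / 2 from hw)
  have hcos : 0 < Real.cos w.im :=
    Real.cos_pos_of_mem_Ioo ⟨by linarith [hwim.1], hwim.2⟩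
  obtain ⟨q, hq⟩ : ∃ q, q = Real.exp |w.re - x| / Real.cos w.im := ⟨_, rfl⟩
  have hq0 : 0 < q := by rw [hq]; positivity
  rw [← hq] at hζF
  -- the point of the disc
  have hζ1 : th ζ ∈ ball (0 : ℂ) 1 := th_mapsTo hζ.1
  have ha' : ‖-th w‖ < 1 := by rwa [norm_neg]
  have hzb : MPV.mob (-th w) (th ζ) ∈ ball (0 : ℂ) 1 := MPV.mob_mapsTo ha' hζ1
  have hfz : f (MPV.mob (-th w) (th ζ)) = F ζ := by
    rw [hfe]
    show F (lg (MPV.mob (th w) (MPV.mob (-th w) (th ζ)))) = _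
    rw [cov_mob_mob ha (mem_ball_zero_iff.1 hζ1), lg_th hζ.1]
  have hwx : w - x ∈ Str := (Str_sub_real x).2 hw
  have hratio : (1 + ‖MPV.mob (-th w) (th ζ)‖) / (1 - ‖MPV.mob (-th w) (th ζ)‖) ≤ 12 * q := by
    rw [cov_shift hζ.1 hw x]
    have hb : ‖th (w - x)‖ < 1 := mem_ball_zero_iff.1 (th_mapsTo hwx)
    have ht : ‖th (ζ - x)‖ ≤ 1 / 2 := hζ.2
    have h1 := cov_tri hb (lt_of_le_of_lt ht (by norm_num) : ‖th (ζ - x)‖ < 1)
    have h2 := ratio_le hwx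
    have e1 : (w - x).re = w.re - x := by simp
    have e2 : (w - x).im = w.im := by simp
    rw [e1, e2] at h2
    have h3 : (1 + ‖th (ζ - x)‖) / (1 - ‖th (ζ - x)‖) ≤ 3 := by
      rw [div_le_iff₀ (by linarith)]
      linarith
    have h4 : 0 ≤ (1 + ‖th (w - x)‖) / (1 - ‖th (w - x)‖) := by
      have := norm_nonneg (th (w - x))
      exact div_nonneg (by linarith) (by linarith)
    calc _ ≤ _ := h1
      _ ≤ (1 + ‖th (w - x)‖) / (1 - ‖th (w - x)‖) * 3 := mul_le_mul_of_nonneg_left h3 h4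
      _ ≤ 4 * Real.exp |w.re - x| / Real.cos w.im * 3 :=
        mul_le_mul_of_nonneg_right h2 (by norm_num)
      _ = 12 * q := by rw [hq]; ring
  -- the maximum
  obtain ⟨z1, hz1, hmax⟩ := (isCompact_closedBall (0 : ℂ) (1 / 2)).exists_isMaxOn
    ⟨0, mem_closedBall_self (by norm_num)⟩
    (hf.diff.continuousOn.mono (closedBall_subset_ball (by norm_num))).norm
  have hmax' : ∀ z : ℂ, ‖z‖ ≤ 1 / 2 → ‖f z‖ ≤ ‖f z1‖ := fun z hz =>
    hmax (mem_closedBall_zero_iff.2 hz)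
  have hMR : R / c ≤ ‖f z1‖ := by
    by_contra hcon
    push Not at hcon
    have hRc : 0 < R / c := by positivity
    obtain ⟨B, hB1, hB2, hB3⟩ : ∃ B : ℝ, 0 < B ∧ ‖f z1‖ ≤ B ∧ B < R / c :=
      ⟨max ‖f z1‖ (R / c / 2), lt_max_of_lt_right (by positivity), le_max_left _ _,
        max_lt hcon (by linarith)⟩
    have h1 := hG f hf B hB1 (fun z hz => (hmax' z hz).trans hB2) _ hzb
    rw [hfz] at h1
    have hz0 := norm_nonneg (MPV.mob (-th w) (th ζ))
    have hz2 := mem_ball_zero_iff.1 hzb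
    have h2 : ((1 + ‖MPV.mob (-th w) (th ζ)‖) / (1 - ‖MPV.mob (-th w) (th ζ)‖)) ^ (2 * p) ≤
        (12 * q) ^ (2 * p) :=
      Real.rpow_le_rpow (div_nonneg (by linarith) (by linarith)) hratio (by positivity)
    rw [Real.mul_rpow (by norm_num) hq0.le] at h2
    have h3 : C1 * 12 ^ (2 * p) / c * R * q ^ (2 * p) ≤ C1 * B * (12 ^ (2 * p) * q ^ (2 * p)) := by
      refine le_trans ?_ (h1.trans (mul_le_mul_of_nonneg_left h2 (by positivity)))
      refine le_trans ?_ hζF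
      refine mul_le_mul_of_nonneg_right (mul_le_mul_of_nonneg_right (le_max_right _ _) hR.le) ?_
      positivity
    have h4 : 0 < C1 * (12 ^ (2 * p) * q ^ (2 * p)) := by positivity
    have h5 : C1 * 12 ^ (2 * p) / c * R * q ^ (2 * p) =
        C1 * (12 ^ (2 * p) * q ^ (2 * p)) * (R / c) := by ring
    have h6 : C1 * B * (12 ^ (2 * p) * q ^ (2 * p)) =
        C1 * (12 ^ (2 * p) * q ^ (2 * p)) * B := by ring
    rw [h5, h6] at h3
    exact absurd (le_of_mul_le_mul_left h3 h4) (not_le.2 hB3)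
  have hM0 : 0 < ‖f z1‖ := lt_of_lt_of_le (by positivity) hMR
  have hRM : R ≤ c * ‖f z1‖ := by
    rw [div_le_iff₀ hc] at hMR
    linarith
  have hf0 : f 0 = F w := by
    rw [hfe]
    show F (lg (MPV.mob (th w) 0)) = _
    have e : MPV.mob (th w) 0 = th w := by
      unfold MPV.mob
      simp
    rw [e, lg_th hw]
  have hval := hcov f hf ‖f z1‖ hM0 ⟨z1, mem_closedBall_zero_iff.1 hz1, le_rfl⟩
    (by rw [hf0]; exact hFw.trans_le hRM)
  -- area
  obtain ⟨S, hS⟩ : ∃ S : Set ℂ, S = {ζ | ζ ∈ Str ∩ {ζ : ℂ | |ζ.re - w.re| < 2} ∧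
    0 ≤ ‖F ζ‖ ∧ ‖F ζ‖ < R} := ⟨_, rfl⟩
  have hsub : ball (0 : ℂ) R ⊆ F '' S := by
    intro u hu
    have hu' := mem_ball_zero_iff.1 hu
    obtain ⟨z, hz, hzu⟩ := hval u (hu'.trans_le hRM)
    have hzb' : z ∈ ball (0 : ℂ) 1 := by
      rw [mem_ball_zero_iff]
      linarith
    have hu2 : F (lg (MPV.mob (th w) z)) = u := by
      rw [← hzu, hfe]
    refine ⟨lg (MPV.mob (th w) z), ?_, hu2⟩
    rw [hS]
    refine ⟨⟨lg_mapsTo (MPV.mob_mapsTo ha hzb'), re_mob hw hz⟩, norm_nonneg _, ?_⟩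
    rw [hu2]
    exact hu'
  have hSm : MeasurableSet S := by
    have h1 : IsOpen (Str ∩ {ζ : ℂ | |ζ.re - w.re| < 2}) := by
      refine isOpen_Str.inter (isOpen_lt ?_ continuous_const)
      exact (Complex.continuous_re.sub continuous_const).abs
    have h2 : ContinuousOn (fun ζ => ‖F ζ‖) (Str ∩ {ζ : ℂ | |ζ.re - w.re| < 2}) :=
      (hF.diff.continuousOn.mono inter_subset_left).norm
    have h3 := h2.isOpen_inter_preimage h1 (isOpen_Iio (a := R))
    have h4 : S = (Str ∩ {ζ : ℂ | |ζ.re - w.re| < 2}) ∩ (fun ζ => ‖F ζ‖) ⁻¹' Iio R := by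
      rw [hS]
      ext ζ
      constructor
      · rintro ⟨h5, -, h6⟩
        exact ⟨h5, h6⟩
      · rintro ⟨h5, h6⟩
        exact ⟨h5, norm_nonneg _, h6⟩
    rw [h4]
    exact h3.measurableSet
  have hder : ∀ ζ ∈ S, HasFDerivWithinAt F (deriv F ζ • (1 : ℂ →L[ℝ] ℂ)) S ζ := by
    intro ζ hζS
    rw [hS] at hζS
    exact ((hF.diff.differentiableAt (isOpen_Str.mem_nhds hζS.1.1)).hasDerivAt
      |>.complexToReal_fderiv).hasFDerivWithinAt
  have h1 := addHaar_image_le_lintegral_abs_det_fderiv (volume : Measure ℂ) hSm hder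
  have h2 : volume (ball (0 : ℂ) R) = ENNReal.ofReal (Real.pi * R ^ 2) := by
    rw [Complex.volume_ball, mul_comm Real.pi, ENNReal.ofReal_mul (by positivity),
      ENNReal.ofReal_pow hR.le]
    congr 1
    rw [← NNReal.coe_real_pi, ENNReal.ofReal_coe_nnreal]
  rw [← h2]
  refine (measure_mono hsub).trans (h1.trans (le_of_eq ?_))
  unfold ar
  rw [hS]
  refine lintegral_congr fun ζ => ?_
  rw [cov_det, abs_of_nonneg (sq_nonneg _)]

end MQV
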