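import Pool.Agent.MQV.Cmp

set_option autoImplicit false

/-!
# MQV WIN : a quiet window uses almost the whole area

PROOF.  `R = ‖A‖ e^{2p(t+x)}`, `0 ≤ x ≤ 1`.  On the window `F = A e^{2pζ}(1+u)`, `|u| ≤ δ`, so
`|u'| ≤ δ/h` on `|Im ζ| ≤ π/2 - 2h` (Cauchy, discs of radius `h`, `h ≤ 1`), and
`F' = A e^{2pζ}(2p(1+u) + u')`, `|F'| ≥ ‖A‖ e^{2p Re ζ}(2p(1-δ) - δ/h)`.
Region `W = {t + x - r < Re ζ < t + x - τ, |Im ζ| < π/2 - 2h}`: there
`|F| ≤ (1+δ) ‖A‖ e^{2p(t+x-τ)} < R` when `1 + δ < e^{2pτ}`, and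
`∫_W |F'|² ≥ ‖A‖² (2p(1-δ) - δ/h)² (π-4h) (e^{4p(t+x-τ)} - e^{4p(t+x-r)})/(4p) ≥ π p (1-κ) R²`
for suitable constants (choose `τ`, `r`, `h`, then `δ`).
-/

open MeasureTheory Metric Set

namespace MQV

private theorem box_area {a b H q c : ℝ} (hab : a ≤ b) (hq : 0 < q) (hc : 0 ≤ c) :
    ∫⁻ w in {w : ℂ | (a < w.re ∧ w.re < b) ∧ |w.im| < H}, ENNReal.ofReal (c * Real.exp (q * w.re)) =
      ENNReal.ofReal (c * ((Real.exp (q * b) - Real.exp (q * a)) / q) * (2 * H)) := by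
  have hset : {w : ℂ | (a < w.re ∧ w.re < b) ∧ |w.im| < H} =
      Complex.measurableEquivRealProd ⁻¹' (Ioo a b ×ˢ Ioo (-H) H) := by
    ext w
    simp only [mem_ofPred_eq, mem_preimage, mem_prod, mem_Ioo, abs_lt,
      Complex.measurableEquivRealProd_apply]
  rw [hset]
  have h5 : ∫⁻ w in Complex.measurableEquivRealProd ⁻¹' (Ioo a b ×ˢ Ioo (-H) H),
      ENNReal.ofReal (c * Real.exp (q * w.re)) =
      ∫⁻ u in Ioo a b ×ˢ Ioo (-H) H, ENNReal.ofReal (c * Real.exp (q * u.1)) := by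
    have := Complex.volume_preserving_equiv_real_prod.setLIntegral_comp_preimage
      (s := Ioo a b ×ˢ Ioo (-H) H) (measurableSet_Ioo.prod measurableSet_Ioo)
      (f := fun u : ℝ × ℝ => ENNReal.ofReal (c * Real.exp (q * u.1))) (by fun_prop)
    rw [← this]
    rfl
  rw [h5, Measure.volume_eq_prod, ← Measure.prod_restrict]
  have h6 : ∫⁻ u : ℝ × ℝ, ENNReal.ofReal (c * Real.exp (q * u.1))
      ∂((volume.restrict (Ioo a b)).prod (volume.restrict (Ioo (-H) H))) =
      (∫⁻ x in Ioo a b, ENNReal.ofReal (c * Real.exp (q * x))) *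
        ∫⁻ _y in Ioo (-H) H, 1 := by
    rw [← lintegral_prod_mul (by fun_prop) (by fun_prop)]
    simp
  have h7 : ∫⁻ x in Ioo a b, ENNReal.ofReal (c * Real.exp (q * x)) =
      ENNReal.ofReal (c * ((Real.exp (q * b) - Real.exp (q * a)) / q)) := by
    have hder : ∀ x ∈ uIcc a b, HasDerivAt (fun x : ℝ => c * (Real.exp (q * x) / q))
        (c * Real.exp (q * x)) x := by
      intro x _
      have h1 : HasDerivAt (fun x : ℝ => Real.exp (q * x)) (Real.exp (q * x) * (q * 1)) x :=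
        ((hasDerivAt_id x).const_mul q).exp
      have h2 := (h1.div_const q).const_mul c
      refine h2.congr_deriv ?_
      field_simp
    have hint : IntervalIntegrable (fun x : ℝ => c * Real.exp (q * x)) volume a b :=
      Continuous.intervalIntegrable (by fun_prop) _ _
    have h8 := intervalIntegral.integral_eq_sub_of_hasDerivAt hder hint
    rw [intervalIntegral.integral_of_le hab, integral_Ioc_eq_integral_Ioo] at h8
    have hi : IntegrableOn (fun x : ℝ => c * Real.exp (q * x)) (Ioo a b) volume :=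
      ((intervalIntegrable_iff_integrableOn_Ioc_of_le hab).1 hint).mono_set Ioo_subset_Ioc_self
    rw [← ofReal_integral_eq_lintegral_ofReal hi (Filter.Eventually.of_forall fun x =>
      mul_nonneg hc (Real.exp_pos _).le), h8]
    congr 1
    ring
  rw [h6, h7, setLIntegral_one, Real.volume_Ioo]
  rw [← ENNReal.ofReal_mul (mul_nonneg hc (div_nonneg (sub_nonneg.2 (Real.exp_le_exp.2
    (mul_le_mul_of_nonneg_left hab hq.le))) hq.le))]
  congr 2
  ring

theorem win_area {p κ : ℝ} (hp : 0 < p) (hκ : 0 < κ) : ∃ r h δ : ℝ, 0 < r ∧ 0 < h ∧ 0 < δ ∧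
    ∀ (F : ℂ → ℂ) (t x : ℝ) (A : ℂ), DifferentiableOn ℂ F Str → A ≠ 0 → 0 ≤ x → x ≤ 1 →
      (∀ ζ : ℂ, |ζ.re - t| ≤ r → |ζ.im| ≤ Real.pi / 2 - h →
        ‖F ζ - A * Complex.exp (2 * p * ζ)‖ ≤ δ * (‖A‖ * Real.exp (2 * p * ζ.re))) →
      ENNReal.ofReal (Real.pi * p * (1 - κ) * (‖A‖ * Real.exp (2 * p * (t + x))) ^ 2) ≤
        ar (Str ∩ {ζ | ζ.re < t + x}) F 0 (‖A‖ * Real.exp (2 * p * (t + x))) := by
  have hpi := Real.pi_pos
  obtain ⟨k, hk⟩ : ∃ k : ℝ, k = min κ 1 / 4 := ⟨_, rfl⟩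
  have hk0 : 0 < k := by
    rw [hk]
    exact div_pos (lt_min hκ one_pos) (by norm_num)
  have hk1 : k ≤ 1 / 4 := by
    rw [hk]
    have := min_le_right κ 1
    linarith
  have hkκ : 4 * k ≤ κ := by
    rw [hk]
    have := min_le_left κ 1
    linarith
  obtain ⟨h, hh⟩ : ∃ h : ℝ, h = Real.pi * k / 4 := ⟨_, rfl⟩
  have hh0 : 0 < h := by rw [hh]; positivity
  obtain ⟨τ, hτ⟩ : ∃ τ : ℝ, τ = -Real.log (1 - k) / (4 * p) := ⟨_, rfl⟩
  have hτe : Real.exp (-(4 * p * τ)) = 1 - k := by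
    have h1 : -(4 * p * τ) = Real.log (1 - k) := by
      rw [hτ]
      field_simp
      try ring
    rw [h1, Real.exp_log (by linarith)]
  have hτ0 : 0 < τ := by
    rw [hτ]
    have h1 : Real.log (1 - k) < 0 := Real.log_neg (by linarith) (by linarith)
    exact div_pos (by linarith) (by linarith)
  obtain ⟨ρ, hρ⟩ : ∃ ρ : ℝ, ρ = -Real.log (k * (1 - k)) / (4 * p) := ⟨_, rfl⟩
  have hkk : 0 < k * (1 - k) := mul_pos hk0 (by linarith)
  have hρe : Real.exp (-(4 * p * ρ)) = k * (1 - k) := by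
    have h1 : -(4 * p * ρ) = Real.log (k * (1 - k)) := by
      rw [hρ]
      field_simp
      try ring
    rw [h1, Real.exp_log hkk]
  have hτρ : τ ≤ ρ := by
    have h1 : Real.exp (-(4 * p * ρ)) ≤ Real.exp (-(4 * p * τ)) := by
      rw [hρe, hτe]
      nlinarith
    have h2 := Real.exp_le_exp.1 h1
    have h3 : 4 * p * τ ≤ 4 * p * ρ := by linarith
    exact le_of_mul_le_mul_left h3 (by linarith)
  obtain ⟨δ, hδ⟩ : ∃ δ : ℝ, δ = min (k * p * h * Real.exp (-(2 * p * h)))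
    (Real.exp (2 * p * τ) - 1) := ⟨_, rfl⟩
  have hδ0 : 0 < δ := by
    rw [hδ]
    refine lt_min (by positivity) ?_
    have : 1 < Real.exp (2 * p * τ) := Real.one_lt_exp_iff.2 (by positivity)
    linarith
  have hδ1 : δ * Real.exp (2 * p * h) ≤ k * p * h := by
    have h1 : δ ≤ k * p * h * Real.exp (-(2 * p * h)) := by
      rw [hδ]
      exact min_le_left _ _
    calc δ * Real.exp (2 * p * h) ≤ k * p * h * Real.exp (-(2 * p * h)) * Real.exp (2 * p * h) :=
          mul_le_mul_of_nonneg_right h1 (Real.exp_pos _).le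
      _ = k * p * h := by
          rw [mul_assoc, ← Real.exp_add]
          simp
  have hδ2 : 1 + δ ≤ Real.exp (2 * p * τ) := by
    have h1 : δ ≤ Real.exp (2 * p * τ) - 1 := by
      rw [hδ]
      exact min_le_right _ _
    linarith
  refine ⟨ρ + h + 1, h, δ, by linarith, hh0, hδ0, ?_⟩
  intro F t x A hF hA hx0 hx1 hq
  have hA0 : 0 < ‖A‖ := norm_pos_iff.2 hA
  have hhpi : 4 * h = Real.pi * k := by rw [hh]; ring
  have hHpos : 0 < Real.pi / 2 - 2 * h := by
    have : Real.pi * k ≤ Real.pi * (1 / 4) := mul_le_mul_of_nonneg_left hk1 hpi.le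
    linarith
  -- the region
  obtain ⟨W, hW⟩ : ∃ W : Set ℂ, W = {w : ℂ | (t + x - ρ < w.re ∧ w.re < t + x - τ) ∧
    |w.im| < Real.pi / 2 - 2 * h} := ⟨_, rfl⟩
  have hwin : ∀ ζ ∈ W, ∀ z ∈ closedBall ζ h, |z.re - t| ≤ ρ + h + 1 ∧ |z.im| ≤ Real.pi / 2 - h ∧
      z.re ≤ ζ.re + h := by
    intro ζ hζ z hz
    rw [hW] at hζ
    obtain ⟨⟨h1, h2⟩, h3⟩ := hζ
    rw [mem_closedBall, Complex.dist_eq] at hz
    have h4 : |z.re - ζ.re| ≤ h := by
      have := Complex.abs_re_le_norm (z - ζ)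
      rw [Complex.sub_re] at this
      linarith
    have h5 : |z.im - ζ.im| ≤ h := by
      have := Complex.abs_im_le_norm (z - ζ)
      rw [Complex.sub_im] at this
      linarith
    rw [abs_le] at h4
    refine ⟨?_, ?_, by linarith⟩
    · rw [abs_le]
      constructor <;> linarith
    · have h6 : |z.im| ≤ |z.im - ζ.im| + |ζ.im| := by
        have := abs_add_le (z.im - ζ.im) ζ.im
        simpa using this
      linarith
  have hballStr : ∀ ζ ∈ W, closedBall ζ h ⊆ Str := by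
    intro ζ hζ z hz
    obtain ⟨-, h1, -⟩ := hwin ζ hζ z hz
    show |z.im| < Real.pi / 2
    linarith
  have hWStr : ∀ ζ ∈ W, ζ ∈ Str := fun ζ hζ => hballStr ζ hζ (mem_closedBall_self hh0.le)
  -- the derivative
  have hder : ∀ ζ ∈ W, ‖A‖ * Real.exp (2 * p * ζ.re) * (p * (2 - k)) ≤ ‖deriv F ζ‖ := by
    intro ζ hζ
    have hexpd : ∀ z : ℂ, HasDerivAt (fun z : ℂ => A * Complex.exp (2 * p * z))
        (A * (Complex.exp (2 * p * z) * (2 * p))) z := by
      intro z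
      have h1 : HasDerivAt (fun z : ℂ => 2 * (p : ℂ) * z) (2 * p) z := by
        simpa using (hasDerivAt_id z).const_mul (2 * (p : ℂ))
      exact h1.cexp.const_mul A
    have hGd : DifferentiableOn ℂ (fun z => F z - A * Complex.exp (2 * p * z)) Str :=
      hF.sub fun z _ => (hexpd z).differentiableAt.differentiableWithinAt
    have hC : ∀ z ∈ sphere ζ h, ‖F z - A * Complex.exp (2 * p * z)‖ ≤
        δ * (‖A‖ * Real.exp (2 * p * (ζ.re + h))) := by
      intro z hz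
      obtain ⟨h1, h2, h3⟩ := hwin ζ hζ z (sphere_subset_closedBall hz)
      refine (hq z h1 h2).trans ?_
      refine mul_le_mul_of_nonneg_left (mul_le_mul_of_nonneg_left (Real.exp_le_exp.2 ?_)
        hA0.le) hδ0.le
      exact mul_le_mul_of_nonneg_left h3 (by positivity)
    have h4 := Complex.norm_deriv_le_of_forall_mem_sphere_norm_le hh0
      (hGd.diffContOnCl_ball (hballStr ζ hζ)) hC
    have h5 : deriv (fun z => F z - A * Complex.exp (2 * p * z)) ζ =
        deriv F ζ - A * (Complex.exp (2 * p * ζ) * (2 * p)) := by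
      have h6 := (hF.differentiableAt (isOpen_Str.mem_nhds (hWStr ζ hζ))).hasDerivAt
      exact (h6.sub (hexpd ζ)).deriv
    rw [h5] at h4
    have h7 : δ * (‖A‖ * Real.exp (2 * p * (ζ.re + h))) / h ≤
        ‖A‖ * Real.exp (2 * p * ζ.re) * (k * p) := by
      rw [div_le_iff₀ hh0]
      have h8 : Real.exp (2 * p * (ζ.re + h)) = Real.exp (2 * p * ζ.re) * Real.exp (2 * p * h) := by
        rw [← Real.exp_add]
        congr 1
        ring
      rw [h8]
      have h9 : 0 ≤ ‖A‖ * Real.exp (2 * p * ζ.re) := by positivity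
      calc δ * (‖A‖ * (Real.exp (2 * p * ζ.re) * Real.exp (2 * p * h)))
          = ‖A‖ * Real.exp (2 * p * ζ.re) * (δ * Real.exp (2 * p * h)) := by ring
        _ ≤ ‖A‖ * Real.exp (2 * p * ζ.re) * (k * p * h) := mul_le_mul_of_nonneg_left hδ1 h9
        _ = ‖A‖ * Real.exp (2 * p * ζ.re) * (k * p) * h := by ring
    have h10 : ‖A * (Complex.exp (2 * p * ζ) * (2 * p))‖ =
        ‖A‖ * Real.exp (2 * p * ζ.re) * (2 * p) := by
      rw [norm_mul, norm_mul, Complex.norm_exp]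
      have h11 : ((2 : ℂ) * p * ζ).re = 2 * p * ζ.re := by
        have : (2 : ℂ) * p = ((2 * p : ℝ) : ℂ) := by push_cast; rfl
        rw [this, Complex.re_ofReal_mul]
      have h12 : ‖(2 : ℂ) * p‖ = 2 * p := by
        have : (2 : ℂ) * p = ((2 * p : ℝ) : ℂ) := by push_cast; rfl
        rw [this, Complex.norm_real, Real.norm_of_nonneg (by positivity)]
      rw [h11, h12]
      ring
    have h13 : ‖A * (Complex.exp (2 * p * ζ) * (2 * p))‖ ≤ ‖deriv F ζ‖ +
        ‖deriv F ζ - A * (Complex.exp (2 * p * ζ) * (2 * p))‖ := by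
      have := norm_sub_norm_le (A * (Complex.exp (2 * p * ζ) * (2 * p))) (deriv F ζ)
      rw [norm_sub_rev] at this
      linarith
    rw [h10] at h13
    have h14 := h4.trans h7
    have h15 : ‖A‖ * Real.exp (2 * p * ζ.re) * (p * (2 - k)) =
      ‖A‖ * Real.exp (2 * p * ζ.re) * (2 * p) - ‖A‖ * Real.exp (2 * p * ζ.re) * (k * p) := by ring
    rw [h15]
    linarith
  -- the values
  have hval : ∀ ζ ∈ W, ‖F ζ‖ < ‖A‖ * Real.exp (2 * p * (t + x)) := by
    intro ζ hζ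
    obtain ⟨h1, h2, -⟩ := hwin ζ hζ ζ (mem_closedBall_self hh0.le)
    have h3 := hq ζ h1 h2
    have h4 : ‖A * Complex.exp (2 * p * ζ)‖ = ‖A‖ * Real.exp (2 * p * ζ.re) := by
      rw [norm_mul, Complex.norm_exp]
      have h11 : ((2 : ℂ) * p * ζ).re = 2 * p * ζ.re := by
        have : (2 : ℂ) * p = ((2 * p : ℝ) : ℂ) := by push_cast; rfl
        rw [this, Complex.re_ofReal_mul]
      rw [h11]
    have h5 : ‖F ζ‖ ≤ (1 + δ) * (‖A‖ * Real.exp (2 * p * ζ.re)) := by
      have h6 : ‖F ζ‖ ≤ ‖F ζ - A * Complex.exp (2 * p * ζ)‖ + ‖A * Complex.exp (2 * p * ζ)‖ := by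
        have := norm_add_le (F ζ - A * Complex.exp (2 * p * ζ)) (A * Complex.exp (2 * p * ζ))
        simpa using this
      rw [h4] at h6
      linarith
    have hζ2 : ζ.re < t + x - τ := by
      rw [hW] at hζ
      exact hζ.1.2
    have h7 : 0 < ‖A‖ * Real.exp (2 * p * ζ.re) := by positivity
    calc ‖F ζ‖ ≤ (1 + δ) * (‖A‖ * Real.exp (2 * p * ζ.re)) := h5
      _ ≤ Real.exp (2 * p * τ) * (‖A‖ * Real.exp (2 * p * ζ.re)) :=
          mul_le_mul_of_nonneg_right hδ2 h7.le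
      _ = ‖A‖ * Real.exp (2 * p * (ζ.re + τ)) := by
          have : Real.exp (2 * p * (ζ.re + τ)) = Real.exp (2 * p * ζ.re) * Real.exp (2 * p * τ) := by
            rw [← Real.exp_add]
            congr 1
            ring
          rw [this]
          ring
      _ < ‖A‖ * Real.exp (2 * p * (t + x)) := by
          refine mul_lt_mul_of_pos_left (Real.exp_lt_exp.2 ?_) hA0
          exact mul_lt_mul_of_pos_left (by linarith) (by positivity)
  -- the area
  have hsub : W ⊆ {z | z ∈ Str ∩ {ζ | ζ.re < t + x} ∧ 0 ≤ ‖F z‖ ∧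
      ‖F z‖ < ‖A‖ * Real.exp (2 * p * (t + x))} := by
    intro ζ hζ
    refine ⟨⟨hWStr ζ hζ, ?_⟩, norm_nonneg _, hval ζ hζ⟩
    have hζ2 : ζ.re < t + x - τ := by
      rw [hW] at hζ
      exact hζ.1.2
    show ζ.re < t + x
    linarith
  have hWm : MeasurableSet W := by
    rw [hW]
    refine IsOpen.measurableSet ?_
    exact ((isOpen_lt continuous_const Complex.continuous_re).inter
      (isOpen_lt Complex.continuous_re continuous_const)).inter
      (isOpen_lt (continuous_abs.comp Complex.continuous_im) continuous_const)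
  unfold ar
  refine le_trans ?_ (lintegral_mono_set hsub)
  obtain ⟨c, hc⟩ : ∃ c : ℝ, c = (‖A‖ * (p * (2 - k))) ^ 2 := ⟨_, rfl⟩
  have hc0 : 0 ≤ c := by rw [hc]; positivity
  have hlow : ∫⁻ w in W, ENNReal.ofReal (c * Real.exp (4 * p * w.re)) ≤
      ∫⁻ z in W, ENNReal.ofReal (‖deriv F z‖ ^ 2) := by
    refine setLIntegral_mono' hWm fun ζ hζ => ENNReal.ofReal_le_ofReal ?_
    have h1 := hder ζ hζ
    have h2 : 0 ≤ ‖A‖ * Real.exp (2 * p * ζ.re) * (p * (2 - k)) :=
      mul_nonneg (by positivity) (mul_nonneg hp.le (by linarith))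
    have h3 := pow_le_pow_left₀ h2 h1 2
    refine le_trans (le_of_eq ?_) h3
    have h4 : Real.exp (4 * p * ζ.re) = Real.exp (2 * p * ζ.re) ^ 2 := by
      rw [← Real.exp_nat_mul]
      congr 1
      push_cast
      ring
    rw [hc, h4]
    ring
  refine le_trans ?_ hlow
  rw [hW, box_area (by linarith) (by positivity) hc0]
  refine ENNReal.ofReal_le_ofReal ?_
  have e1 : Real.exp (4 * p * (t + x - τ)) = Real.exp (2 * p * (t + x)) ^ 2 * (1 - k) := by
    rw [← hτe, ← Real.exp_nat_mul, ← Real.exp_add]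
    congr 1
    push_cast
    ring
  have e2 : Real.exp (4 * p * (t + x - ρ)) = Real.exp (2 * p * (t + x)) ^ 2 * (k * (1 - k)) := by
    rw [← hρe, ← Real.exp_nat_mul, ← Real.exp_add]
    congr 1
    push_cast
    ring
  rw [e1, e2, hc]
  have e3 : (‖A‖ * (p * (2 - k))) ^ 2 *
      ((Real.exp (2 * p * (t + x)) ^ 2 * (1 - k) -
        Real.exp (2 * p * (t + x)) ^ 2 * (k * (1 - k))) / (4 * p)) *
      (2 * (Real.pi / 2 - 2 * h)) =
      (‖A‖ * Real.exp (2 * p * (t + x))) ^ 2 * (Real.pi * p) *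
        ((1 - k / 2) ^ 2 * (1 - k) ^ 3) := by
    have : 2 * (Real.pi / 2 - 2 * h) = Real.pi * (1 - k) := by linarith
    rw [this]
    field_simp
    ring
  rw [e3]
  have e4 : 1 - κ ≤ (1 - k / 2) ^ 2 * (1 - k) ^ 3 := by
    have h1 : 1 - k ≤ (1 - k / 2) ^ 2 := by nlinarith
    have h2 : 1 - 3 * k ≤ (1 - k) ^ 3 := by nlinarith
    have h3 : (1 - k) * (1 - 3 * k) ≤ (1 - k / 2) ^ 2 * (1 - k) ^ 3 :=
      mul_le_mul h1 h2 (by linarith) (by positivity)
    nlinarith
  have e5 : 0 ≤ (‖A‖ * Real.exp (2 * p * (t + x))) ^ 2 * (Real.pi * p) := by positivity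
  calc Real.pi * p * (1 - κ) * (‖A‖ * Real.exp (2 * p * (t + x))) ^ 2
      = (‖A‖ * Real.exp (2 * p * (t + x))) ^ 2 * (Real.pi * p) * (1 - κ) := by ring
    _ ≤ _ := mul_le_mul_of_nonneg_left e4 e5

end MQV
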