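import Pool.Agent.MQV.Qui
import Pool.Agent.MQV.Cov
import Pool.Agent.MQV.Omg
import Pool.Agent.MQV.Win
import Pool.Agent.MQV.BndB

set_option autoImplicit false

/-!
# MQV BND : near extremal functions can be prepared for the surgery

`b = a e^{-T}`, `F₀ = F ∘ om a b`, `om = om a b`.  Constants `cA, CA` from `quiet`.
`|Im ζ| ≤ π/2 - y` gives `cos (Im ζ) ≥ 2y/π`.

(low), inner.  `w.re ≤ t - r`, depth `≥ (e/10) exp(-(t-w.re)/2)`; `w' = om w`, `|w'.im| ≤ |w.im|`.
* `0 ≤ w.re`: `|w'.re| ≤ w.re + 1` (`om_re_le`, `om_re_ge`, `b ≤ e^{-w.re}`), `growth` (`x = 0`,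
  `M = 1`): `|F w'| ≤ C (e^{w.re+1} (5π/e) e^{(t-w.re)/2})^{2p} ≤ C' e^{-2p}_{(e)} e^{2pt} e^{-p(t-w.re)}
  ≤ C'' e^{-pr} e^{2pt} ≤ cA e^{2p(t-1)}` for `r ≥ r(e)`.
* `w.re < 0`: `cos (w'.im) ≥ a/(1+a)`, `|w'.re| ≤ log (1/a) + 1`, so `|F w'| ≤ C(a)`, fine for large `T`
  (`t ≥ T/3`).
(high), outer.  `w.re ≥ t + r`.  Let `R = ‖A‖ e^{2p(t+1)}`, suppose `|F w'| < R`, `w' = om w`.
The hypothesis of `lower` (`x = T`, the point of `Bz T` with `|F| ≥ c e^{2pT}`) holds:
* `w.re ≤ T`: `|w'.re - T| ≤ T - w.re + 1`, `cos (w'.im) ≥ (e/(5π)) e^{-(w.re-t)/2}`, so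
  `C R (…)^{2p} ≤ C' e^{2pT} e^{-p(w.re - t)} ≤ C' e^{-pr} e^{2pT} ≤ c e^{2pT}` for `r ≥ r(e)`;
* `w.re > T`: `cos (w'.im) ≥ b/(e^{-T}+b) = a/(1+a)`, `|w'.re - T| ≤ 1 + log (1/a)`, so
  `C R (…)^{2p} ≤ C(a) e^{2pt} ≤ c e^{2pT}` for large `T` (`t ≤ 2T/3`).
Hence the part `|ζ.re - w'.re| < 2` of the strip carries area `≥ π R²` below level `R`.  It is
disjoint from `{ζ.re < t + 1}` (`w'.re ≥ min w.re T - 1 ≥ t + r - 1`, `r ≥ 5`; for large `T`,
`T ≥ t + r`), which carries `≥ π p (1 - κ') R²` (`win_area` for `F`, `x = 1`, `κ' p < 1`), and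
`π p (1-κ') + π > π p` contradicts mean `p`-valence.
(quiet) for `F₀`: `‖om ζ - ζ‖` is tiny in the window (`om_close`), `|Im om| ≤ |Im ζ|`.
(full) for `F₀`: `win_area` with `x = 0`.
-/

open MeasureTheory Metric Set

namespace MQV

/-- quietness passes to `F ∘ om` -/
theorem quiet_om {p : ℝ} (hp : 0 < p) {r h δ a : ℝ} (hr : 0 < r) (hh : 0 < h) (hδ : 0 < δ)
    (ha : 0 < a) (ha1 : a ≤ 1) : ∃ δ' T₀ : ℝ, 0 < δ' ∧ ∀ T : ℝ, T₀ ≤ T → ∀ (F : ℂ → ℂ) (t : ℝ) (A : ℂ),
      T / 3 ≤ t → t ≤ 2 * T / 3 →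
      (∀ ζ : ℂ, |ζ.re - t| ≤ r + 1 → |ζ.im| ≤ Real.pi / 2 - h →
        ‖F ζ - A * Complex.exp (2 * p * ζ)‖ ≤ δ' * (‖A‖ * Real.exp (2 * p * ζ.re))) →
      ∀ ζ : ℂ, |ζ.re - t| ≤ r → |ζ.im| ≤ Real.pi / 2 - h →
        ‖F (om a (a * Real.exp (-T)) ζ) - A * Complex.exp (2 * p * ζ)‖ ≤
          δ * (‖A‖ * Real.exp (2 * p * ζ.re)) := by
  obtain ⟨C, hC1, hC⟩ := om_close
  have hC0 : 0 < C := by linarith
  -- smallness parameter
  obtain ⟨ε, hε0, hε1, hε2, hε3, hε4⟩ : ∃ ε : ℝ, 0 < ε ∧ ε ≤ 1 / 4 ∧ 2 * C * ε ≤ 1 ∧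
      2 * p * (2 * C * ε) ≤ 1 ∧ 4 * p * (2 * C * ε) ≤ δ / 2 := by
    refine ⟨min (min (1 / 4) (1 / (2 * C))) (min (1 / (4 * p * C)) (δ / (16 * p * C))), ?_, ?_, ?_,
      ?_, ?_⟩
    · have h1 : 0 < 1 / (2 * C) := by positivity
      have h2 : 0 < 1 / (4 * p * C) := by positivity
      have h3 : 0 < δ / (16 * p * C) := by positivity
      exact lt_min (lt_min (by norm_num) h1) (lt_min h2 h3)
    · exact (min_le_left _ _).trans (min_le_left _ _)
    · have h := (min_le_left (min (1 / 4) (1 / (2 * C)))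
        (min (1 / (4 * p * C)) (δ / (16 * p * C)))).trans (min_le_right _ _)
      rw [le_div_iff₀ (by positivity)] at h
      linarith
    · have h := (min_le_right (min (1 / 4) (1 / (2 * C)))
        (min (1 / (4 * p * C)) (δ / (16 * p * C)))).trans (min_le_left _ _)
      rw [le_div_iff₀ (by positivity)] at h
      linarith
    · have h := (min_le_right (min (1 / 4) (1 / (2 * C)))
        (min (1 / (4 * p * C)) (δ / (16 * p * C)))).trans (min_le_right _ _)
      rw [le_div_iff₀ (by positivity)] at h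
      linarith
  refine ⟨δ / (2 * Real.exp 1), 3 * (r - Real.log ε), by positivity, ?_⟩
  intro T hT F t A ht1 ht2 hF ζ hζ1 hζ2
  have hX : Real.exp (r - T / 3) ≤ ε := by
    rw [← Real.le_log_iff_exp_le hε0]
    linarith
  have hb : 0 < a * Real.exp (-T) := by positivity
  have hζS : ζ ∈ Str := by
    change |ζ.im| < Real.pi / 2
    linarith
  have hre := abs_le.1 hζ1
  have hx1 : a * Real.exp (-ζ.re) ≤ ε := by
    calc a * Real.exp (-ζ.re) ≤ 1 * Real.exp (r - T / 3) := by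
          apply mul_le_mul ha1 _ (Real.exp_pos _).le zero_le_one
          apply Real.exp_le_exp.2
          linarith
      _ ≤ ε := by rw [one_mul]; exact hX
  have hx2 : a * Real.exp (-T) * Real.exp ζ.re ≤ ε := by
    calc a * Real.exp (-T) * Real.exp ζ.re = a * Real.exp (-T + ζ.re) := by
          rw [Real.exp_add]; ring
      _ ≤ 1 * Real.exp (r - T / 3) := by
          apply mul_le_mul ha1 _ (Real.exp_pos _).le zero_le_one
          apply Real.exp_le_exp.2
          linarith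
      _ ≤ ε := by rw [one_mul]; exact hX
  have hcl := hC a (a * Real.exp (-T)) ha hb ζ hζS (hx1.trans hε1) (hx2.trans hε1)
  set z := om a (a * Real.exp (-T)) ζ with hz
  have hη : ‖z - ζ‖ ≤ 2 * C * ε := by
    refine hcl.trans ?_
    have := mul_le_mul_of_nonneg_left (add_le_add hx1 hx2) hC0.le
    linarith
  have hzre : |z.re - ζ.re| ≤ 2 * C * ε := by
    have := Complex.abs_re_le_norm (z - ζ)
    rw [Complex.sub_re] at this
    exact this.trans hη
  have hzre' := abs_le.1 hzre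
  have hz1 : |z.re - t| ≤ r + 1 := by
    rw [abs_le]
    constructor <;> linarith
  have hz2 : |z.im| ≤ Real.pi / 2 - h := (om_im ha hb hζS).trans hζ2
  have h1 := hF z hz1 hz2
  have h2 : ‖F z - A * Complex.exp (2 * p * z)‖ ≤ δ / 2 * (‖A‖ * Real.exp (2 * p * ζ.re)) := by
    refine h1.trans ?_
    have h3 : Real.exp (2 * p * z.re) ≤ Real.exp 1 * Real.exp (2 * p * ζ.re) := by
      rw [← Real.exp_add]
      apply Real.exp_le_exp.2
      have : 2 * p * (z.re - ζ.re) ≤ 2 * p * (2 * C * ε) :=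
        mul_le_mul_of_nonneg_left hzre'.2 (by positivity)
      linarith
    calc δ / (2 * Real.exp 1) * (‖A‖ * Real.exp (2 * p * z.re)) ≤
          δ / (2 * Real.exp 1) * (‖A‖ * (Real.exp 1 * Real.exp (2 * p * ζ.re))) := by gcongr
      _ = δ / 2 * (‖A‖ * Real.exp (2 * p * ζ.re)) := by
          field_simp
  have h3 : ‖A * Complex.exp (2 * p * z) - A * Complex.exp (2 * p * ζ)‖ ≤
      δ / 2 * (‖A‖ * Real.exp (2 * p * ζ.re)) := by
    have e1 : A * Complex.exp (2 * p * z) - A * Complex.exp (2 * p * ζ) =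
        A * Complex.exp (2 * p * ζ) * (Complex.exp (2 * p * (z - ζ)) - 1) := by
      have : (2 * p * z : ℂ) = 2 * p * ζ + 2 * p * (z - ζ) := by ring
      rw [this, Complex.exp_add]
      ring
    have e2 : ‖Complex.exp (2 * p * ζ)‖ = Real.exp (2 * p * ζ.re) := by
      rw [Complex.norm_exp]
      congr 1
      simp
    have e3 : ‖(2 * p * (z - ζ) : ℂ)‖ = 2 * p * ‖z - ζ‖ := by
      rw [norm_mul, norm_mul, Complex.norm_real, Real.norm_eq_abs, abs_of_pos hp]
      simp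
    have e4 : ‖(2 * p * (z - ζ) : ℂ)‖ ≤ 1 := by
      rw [e3]
      exact (mul_le_mul_of_nonneg_left hη (by positivity)).trans hε3
    have e5 := Complex.norm_exp_sub_one_le e4
    rw [e1, norm_mul, norm_mul, e2]
    have e6 : ‖Complex.exp (2 * p * (z - ζ)) - 1‖ ≤ δ / 2 := by
      refine e5.trans ?_
      rw [e3]
      have := mul_le_mul_of_nonneg_left hη (show 0 ≤ 4 * p by positivity)
      linarith
    calc ‖A‖ * Real.exp (2 * p * ζ.re) * ‖Complex.exp (2 * p * (z - ζ)) - 1‖ ≤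
          ‖A‖ * Real.exp (2 * p * ζ.re) * (δ / 2) := by gcongr
      _ = δ / 2 * (‖A‖ * Real.exp (2 * p * ζ.re)) := by ring
  calc ‖F z - A * Complex.exp (2 * p * ζ)‖ =
        ‖(F z - A * Complex.exp (2 * p * z)) +
          (A * Complex.exp (2 * p * z) - A * Complex.exp (2 * p * ζ))‖ := by
        congr 1; ring
    _ ≤ _ := norm_add_le _ _
    _ ≤ δ / 2 * (‖A‖ * Real.exp (2 * p * ζ.re)) + δ / 2 * (‖A‖ * Real.exp (2 * p * ζ.re)) :=
        add_le_add h2 h3
    _ = δ * (‖A‖ * Real.exp (2 * p * ζ.re)) := by ring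

/-- the inner bound -/
theorem low_om {p cA : ℝ} (hp : 0 < p) (hcA : 0 < cA) {e : ℝ} (he : 0 < e) (he1 : e ≤ 1 / 100) :
    ∃ r₀ : ℝ, ∀ r : ℝ, r₀ ≤ r → ∀ a : ℝ, 0 < a → a ≤ 1 → ∃ T₀ : ℝ, ∀ T : ℝ, T₀ ≤ T →
      ∀ (F : ℂ → ℂ) (t : ℝ), MV Str p F → (∀ ζ ∈ Bz 0, ‖F ζ‖ ≤ 1) → T / 3 ≤ t → t ≤ 2 * T / 3 →
      ∀ w ∈ Str, w.re ≤ t - r → e / 10 * Real.exp (-(t - w.re) / 2) ≤ Real.pi / 2 - |w.im| →
        ‖F (om a (a * Real.exp (-T)) w)‖ ≤ cA * Real.exp (2 * p * (t - 1)) := by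
  obtain ⟨C, hC1, hC⟩ := growth hp
  have hC0 : 0 < C := by linarith
  have hlog2 : Real.log 2 ≤ 1 := by
    have := Real.log_two_lt_d9
    linarith
  set L := Real.log (5 * Real.pi / e) with hL
  have hexpL : Real.exp L = 5 * Real.pi / e := Real.exp_log (by positivity)
  refine ⟨max 0 ((Real.log C - Real.log cA + 4 * p + 2 * p * L) / p), ?_⟩
  intro r hr a ha ha1
  have hr0 : 0 ≤ r := (le_max_left _ _).trans hr
  have hr1 : Real.log C - Real.log cA + 4 * p + 2 * p * L ≤ p * r := by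
    have := (le_max_right _ _).trans hr
    rw [div_le_iff₀ hp] at this
    linarith
  set K := C * (2 * Real.exp 1 / a ^ 2) ^ (2 * p) with hK
  have hK0 : 0 < K := by positivity
  refine ⟨max 0 (3 * (1 + (Real.log K - Real.log cA) / (2 * p))), ?_⟩
  intro T hT F t hF hF0 ht1 ht2 w hw hwr hd
  have hT0 : 0 ≤ T := (le_max_left _ _).trans hT
  have hT1 : Real.log K - Real.log cA ≤ 2 * p * (T / 3 - 1) := by
    have h1 := (le_max_right _ _).trans hT
    have h2 : (Real.log K - Real.log cA) / (2 * p) ≤ T / 3 - 1 := by linarith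
    rw [div_le_iff₀ (by positivity)] at h2
    linarith
  have hb : 0 < a * Real.exp (-T) := by positivity
  have hb1 : a * Real.exp (-T) ≤ Real.exp (-T) := by
    have := mul_le_mul_of_nonneg_right ha1 (Real.exp_pos (-T)).le
    linarith
  set z := om a (a * Real.exp (-T)) w with hz
  have hzS : z ∈ Str := om_mapsTo ha hb hw
  have hg := hC F hF 0 1 one_pos hF0 z hzS
  rw [sub_zero, mul_one] at hg
  have hcz : 0 < Real.cos z.im := by
    apply Real.cos_pos_of_mem_Ioo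
    have := abs_lt.1 (show |z.im| < Real.pi / 2 from hzS)
    exact ⟨by linarith [this.1], this.2⟩
  have hre1 := (om_re_le ha hb hw).1
  have hre2 := om_re_ge ha hb hw
  rw [← hz] at hre1 hre2
  rcases le_or_gt 0 w.re with hw0 | hw0
  · -- inner part, to the right of `0`
    have h1 : z.re ≤ w.re + 1 := by
      refine hre1.trans ?_
      have h2 : Real.exp w.re + a ≤ 2 * Real.exp w.re := by
        have := Real.one_le_exp hw0
        linarith
      calc Real.log (Real.exp w.re + a) ≤ Real.log (2 * Real.exp w.re) :=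
            Real.log_le_log (by positivity) h2
        _ = Real.log 2 + w.re := by
            rw [Real.log_mul (by norm_num) (Real.exp_pos _).ne', Real.log_exp]
        _ ≤ w.re + 1 := by linarith
    have h2 : -(w.re + 1) ≤ z.re := by
      refine le_trans ?_ hre2.1
      have h3 : Real.exp (-w.re) + a * Real.exp (-T) ≤ 2 * Real.exp (-w.re) := by
        have : Real.exp (-T) ≤ Real.exp (-w.re) := Real.exp_le_exp.2 (by linarith)
        linarith
      have h4 : Real.log (Real.exp (-w.re) + a * Real.exp (-T)) ≤ Real.log 2 + -w.re := by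
        calc Real.log (Real.exp (-w.re) + a * Real.exp (-T)) ≤ Real.log (2 * Real.exp (-w.re)) :=
              Real.log_le_log (by positivity) h3
          _ = Real.log 2 + -w.re := by
              rw [Real.log_mul (by norm_num) (Real.exp_pos _).ne', Real.log_exp]
      linarith
    have h3 : |z.re| ≤ w.re + 1 := abs_le.2 ⟨h2, h1⟩
    set y := e / 10 * Real.exp (-(t - w.re) / 2) with hy
    have hy0 : 0 < y := by positivity
    have hyπ : y ≤ Real.pi / 2 := hd.trans (by linarith [abs_nonneg w.im])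
    have h4 : 2 / Real.pi * y ≤ Real.cos z.im := by
      have h5 : |z.im| ≤ Real.pi / 2 - y := by
        have := om_im ha hb hw
        rw [← hz] at this
        linarith
      have h6 : Real.cos (Real.pi / 2 - y) ≤ Real.cos |z.im| :=
        Real.cos_le_cos_of_nonneg_of_le_pi (abs_nonneg _) (by linarith [Real.pi_pos]) h5
      rw [Real.cos_abs, Real.cos_pi_div_two_sub] at h6
      exact (Real.mul_le_sin hy0.le hyπ).trans h6
    have h5 : Real.exp |z.re| / Real.cos z.im ≤ Real.exp (w.re + 1 + L + (t - w.re) / 2) := by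
      have e1 : Real.exp (w.re + 1 + L + (t - w.re) / 2) =
          Real.exp (w.re + 1) / (2 / Real.pi * y) := by
        rw [hy, Real.exp_add, Real.exp_add, hexpL]
        have e2 : Real.exp ((t - w.re) / 2) = (Real.exp (-(t - w.re) / 2))⁻¹ := by
          rw [← Real.exp_neg]
          congr 1
          ring
        rw [e2]
        have := (Real.exp_pos (-(t - w.re) / 2)).ne'
        have := Real.pi_pos.ne'
        field_simp
        norm_num
      rw [e1]
      exact div_le_div₀ (Real.exp_pos _).le (Real.exp_le_exp.2 h3) (by positivity) h4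
    have h6 : (Real.exp |z.re| / Real.cos z.im) ^ (2 * p) ≤
        Real.exp ((w.re + 1 + L + (t - w.re) / 2) * (2 * p)) := by
      rw [Real.exp_mul]
      exact Real.rpow_le_rpow (by positivity) h5 (by positivity)
    calc ‖F z‖ ≤ C * (Real.exp |z.re| / Real.cos z.im) ^ (2 * p) := hg
      _ ≤ C * Real.exp ((w.re + 1 + L + (t - w.re) / 2) * (2 * p)) := by gcongr
      _ = Real.exp (Real.log C + (w.re + 1 + L + (t - w.re) / 2) * (2 * p)) := by
          rw [Real.exp_add, Real.exp_log hC0]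
      _ ≤ Real.exp (Real.log cA + 2 * p * (t - 1)) := by
          apply Real.exp_le_exp.2
          have := mul_le_mul_of_nonneg_left hwr hp.le
          linarith
      _ = cA * Real.exp (2 * p * (t - 1)) := by rw [Real.exp_add, Real.exp_log hcA]
  · -- to the left of `0`
    have hla : 0 ≤ Real.log (1 / a) := Real.log_nonneg (by rw [le_div_iff₀ ha]; linarith)
    have h1 : z.re ≤ 1 + Real.log (1 / a) := by
      refine hre1.trans ?_
      have h2 : Real.exp w.re + a ≤ 2 := by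
        have : Real.exp w.re ≤ 1 := Real.exp_le_one_iff.2 hw0.le
        linarith
      have : Real.log (Real.exp w.re + a) ≤ Real.log 2 := Real.log_le_log (by positivity) h2
      linarith
    have h2 : -(1 + Real.log (1 / a)) ≤ z.re := by
      refine le_trans ?_ hre2.2
      have h3 : 1 / a + a * Real.exp (-T) ≤ 2 * (1 / a) := by
        have h4 : Real.exp (-T) ≤ 1 := Real.exp_le_one_iff.2 (by linarith)
        have h5 : 1 ≤ 1 / a := by rw [le_div_iff₀ ha]; linarith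
        linarith
      have h4 : Real.log (1 / a + a * Real.exp (-T)) ≤ Real.log 2 + Real.log (1 / a) := by
        rw [← Real.log_mul (by norm_num) (by positivity)]
        exact Real.log_le_log (by positivity) h3
      linarith
    have h3 : |z.re| ≤ 1 + Real.log (1 / a) := abs_le.2 ⟨h2, h1⟩
    have h4 : a / 2 ≤ Real.cos z.im := by
      have h5 := (om_cos ha hb hw).1
      rw [← hz] at h5
      refine le_trans ?_ h5
      have : Real.exp w.re ≤ 1 := Real.exp_le_one_iff.2 hw0.le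
      exact div_le_div_of_nonneg_left ha.le (by positivity) (by linarith)
    have h5 : Real.exp |z.re| / Real.cos z.im ≤ 2 * Real.exp 1 / a ^ 2 := by
      have e1 : 2 * Real.exp 1 / a ^ 2 = Real.exp (1 + Real.log (1 / a)) / (a / 2) := by
        rw [Real.exp_add, Real.exp_log (by positivity)]
        field_simp
      rw [e1]
      exact div_le_div₀ (Real.exp_pos _).le (Real.exp_le_exp.2 h3) (by positivity) h4
    calc ‖F z‖ ≤ C * (Real.exp |z.re| / Real.cos z.im) ^ (2 * p) := hg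
      _ ≤ C * (2 * Real.exp 1 / a ^ 2) ^ (2 * p) := by
          gcongr
      _ = Real.exp (Real.log K) := (Real.exp_log hK0).symm
      _ ≤ Real.exp (Real.log cA + 2 * p * (t - 1)) := by
          apply Real.exp_le_exp.2
          have : 2 * p * (T / 3 - 1) ≤ 2 * p * (t - 1) :=
            mul_le_mul_of_nonneg_left (by linarith) (by positivity)
          linarith
      _ = cA * Real.exp (2 * p * (t - 1)) := by rw [Real.exp_add, Real.exp_log hcA]

/-- the outer bound -/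
theorem high_om {p c CA : ℝ} (hp : 0 < p) (hc : 0 < c) (hCA : 0 < CA) {e : ℝ} (he : 0 < e)
    (he1 : e ≤ 1 / 100) :
    ∃ r₀ κ' : ℝ, 0 < κ' ∧ ∀ r : ℝ, r₀ ≤ r → ∀ a : ℝ, 0 < a → a ≤ 1 → ∃ T₀ : ℝ, ∀ T : ℝ, T₀ ≤ T →
      ∀ (F : ℂ → ℂ) (t : ℝ) (A : ℂ), MV Str p F → T / 3 ≤ t → t ≤ 2 * T / 3 → A ≠ 0 → ‖A‖ ≤ CA →
      (∃ ζ ∈ Bz T, c * Real.exp (2 * p * T) ≤ ‖F ζ‖) →
      ENNReal.ofReal (Real.pi * p * (1 - κ') * (‖A‖ * Real.exp (2 * p * (t + 1))) ^ 2) ≤
        ar (Str ∩ {ζ | ζ.re < t + 1}) F 0 (‖A‖ * Real.exp (2 * p * (t + 1))) →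
      ∀ w ∈ Str, t + r ≤ w.re → e / 10 * Real.exp (-(w.re - t) / 2) ≤ Real.pi / 2 - |w.im| →
        ‖A‖ * Real.exp (2 * p * (t + 1)) ≤ ‖F (om a (a * Real.exp (-T)) w)‖ :=
  high_om_proof hp hc hCA he

theorem prep_exists {p c : ℝ} (hp : 0 < p) (hc : 0 < c) {e : ℝ} (he : 0 < e) (he1 : e ≤ 1 / 100) :
    ∃ r : ℝ, 0 < r ∧ ∀ a h δ κ : ℝ, 0 < a → a ≤ 1 → 0 < h → 0 < δ → 0 < κ → ∃ T₀ : ℝ,
      ∀ T : ℝ, T₀ ≤ T → ∀ F : ℂ → ℂ, MV Str p F → (∀ ζ ∈ Bz 0, ‖F ζ‖ ≤ 1) →
      (∃ ζ ∈ Bz T, c * Real.exp (2 * p * T) ≤ ‖F ζ‖) →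
      ∃ (t : ℝ) (A : ℂ), T / 3 ≤ t ∧ t ≤ 2 * T / 3 ∧
        Prep p e r h δ κ (fun ζ => F (om a (a * Real.exp (-T)) ζ)) t A := by
  obtain ⟨cA, CA, hcA, hCA, hQ⟩ := quiet hp hc
  obtain ⟨r₁, hr₁⟩ := low_om hp hcA he he1
  obtain ⟨r₂, κ', hκ', hr₂⟩ := high_om hp hc hCA he he1
  refine ⟨max 1 (max r₁ r₂), lt_of_lt_of_le one_pos (le_max_left _ _), ?_⟩
  intro a h δ κ ha ha1 hh hδ hκ
  set r : ℝ := max 1 (max r₁ r₂) with hrdef
  have hr0 : 0 < r := lt_of_lt_of_le one_pos (le_max_left _ _)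
  have hr1 : r₁ ≤ r := (le_max_left _ _).trans (le_max_right _ _)
  have hr2 : r₂ ≤ r := (le_max_right _ _).trans (le_max_right _ _)
  obtain ⟨ra, ha', δa, hra, hha, hδa, hWa⟩ := win_area hp hκ'
  obtain ⟨rb, hb', δb, hrb, hhb, hδb, hWb⟩ := win_area hp hκ
  obtain ⟨δ', T₁, hδ', hT₁⟩ := quiet_om hp (r := max (r + 2) rb) (h := min h hb')
    (δ := min δ δb) (lt_of_lt_of_le hrb (le_max_right _ _)) (lt_min hh hhb) (lt_min hδ hδb) ha ha1
  obtain ⟨T₂, hT₂⟩ := hr₁ r hr1 a ha ha1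
  obtain ⟨T₃, hT₃⟩ := hr₂ r hr2 a ha ha1
  obtain ⟨T₄, hT₄⟩ := hQ (max (max (r + 2) rb + 1) ra) (min (min h hb') ha') (min δ' δa)
    (lt_of_lt_of_le hra (le_max_right _ _)) (lt_min (lt_min hh hhb) hha) (lt_min hδ' hδa)
  refine ⟨max (max T₁ T₂) (max T₃ T₄), ?_⟩
  intro T hT F hF hF0 hFT
  have h1 : T₁ ≤ T := ((le_max_left _ _).trans (le_max_left _ _)).trans hT
  have h2 : T₂ ≤ T := ((le_max_right _ _).trans (le_max_left _ _)).trans hT
  have h3 : T₃ ≤ T := ((le_max_left _ _).trans (le_max_right _ _)).trans hT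
  have h4 : T₄ ≤ T := ((le_max_right _ _).trans (le_max_right _ _)).trans hT
  obtain ⟨t, A, ht1, ht2, hA1, hA2, hq⟩ := hT₄ T h4 F hF hF0 hFT
  have hA0 : A ≠ 0 := by
    intro h0
    rw [h0, norm_zero] at hA1
    linarith
  have hb : 0 < a * Real.exp (-T) := by positivity
  have hq1 := hT₁ T h1 F t A ht1 ht2 (fun ζ hζ1 hζ2 => (hq ζ (hζ1.trans (le_max_left _ _))
    (hζ2.trans (by linarith [min_le_left (min h hb') ha']))).trans
      (mul_le_mul_of_nonneg_right (min_le_left _ _) (by positivity)))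
  have hmv : MV Str p (fun ζ => F (om a (a * Real.exp (-T)) ζ)) :=
    MV.comp isOpen_Str isOpen_Str hF (om_diff ha hb) (om_mapsTo ha hb) (om_injOn ha hb)
  refine ⟨t, A, ht1, ht2, hmv, hA0, ?_, ?_, ?_, ?_⟩
  · intro ζ hζ1 hζ2
    exact (hq1 ζ (hζ1.trans (le_max_left _ _)) (hζ2.trans (by linarith [min_le_left h hb']))).trans
      (mul_le_mul_of_nonneg_right (min_le_left _ _) (by positivity))
  · intro w hw hw1 hw2
    exact (hT₂ T h2 F t hF hF0 ht1 ht2 w hw hw1 hw2).trans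
      (mul_le_mul_of_nonneg_right hA1 (Real.exp_pos _).le)
  · refine hT₃ T h3 F t A hF ht1 ht2 hA0 hA2 hFT ?_
    refine hWa F t 1 A hF.diff hA0 zero_le_one le_rfl ?_
    intro ζ hζ1 hζ2
    have h6 := min_le_right (min h hb') ha'
    exact (hq ζ (hζ1.trans (le_max_right _ _)) (hζ2.trans (by linarith))).trans
      (mul_le_mul_of_nonneg_right (min_le_right _ _) (by positivity))
  · have h6 := min_le_right h hb'
    have h5 := hWb (fun ζ => F (om a (a * Real.exp (-T)) ζ)) t 0 A hmv.diff hA0 le_rfl zero_le_one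
      (fun ζ hζ1 hζ2 => (hq1 ζ (hζ1.trans (le_max_right _ _)) (hζ2.trans (by linarith))).trans
        (mul_le_mul_of_nonneg_right (min_le_right _ _) (by positivity)))
    rw [add_zero] at h5
    exact h5.trans (ar_mono inter_subset_left le_rfl le_rfl)

end MQV
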