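import Pool.Agent.MQV.Grw

set_option autoImplicit false

/-!
# MQV CDF : coefficient block, definitions and first facts

`G_n(w) = f(e^{-w/n})` (`gs f n w`), `w = x + iy`, `1 ≤ x ≤ 2`, `|y| ≤ π n`.
`co f n K = ∫_1^2 ∫_{-K}^K G_n(w) e^w dy dx`; `co f n (π n) = 2 π n a_n`.
-/

open MeasureTheory Metric Set

namespace MQV

/-- normalised: mean `p`-valent in the disc and bounded by `1` on `|z| ≤ 1/2` -/
structure Nd (p : ℝ) (f : ℂ → ℂ) : Prop where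
  mv : MV (ball 0 1) p f
  one : ∀ z : ℂ, ‖z‖ ≤ 1 / 2 → ‖f z‖ ≤ 1

/-- `G_n(w) = f(e^{-w/n})` -/
noncomputable def gs (f : ℂ → ℂ) (n : ℕ) (w : ℂ) : ℂ := f (Complex.exp (-w / n))

/-- `∫_1^2 ∫_{-K}^K G_n(w) e^w dy dx`, `w = x + iy` -/
noncomputable def co (f : ℂ → ℂ) (n : ℕ) (K : ℝ) : ℂ :=
  ∫ x in (1 : ℝ)..2, ∫ y in (-K)..K,
    gs f n (x + y * Complex.I) * Complex.exp (x + y * Complex.I)

/-- the far part `K < |y| < π n`, `1 < x < 2` -/
def Rg (n : ℕ) (K : ℝ) : Set ℂ := {w | 1 < w.re ∧ w.re < 2 ∧ K < |w.im| ∧ |w.im| < Real.pi * n}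

theorem isOpen_Rg (n : ℕ) (K : ℝ) : IsOpen (Rg n K) := by
  unfold Rg
  refine IsOpen.inter (isOpen_lt continuous_const Complex.continuous_re) ?_
  refine IsOpen.inter (isOpen_lt Complex.continuous_re continuous_const) ?_
  refine IsOpen.inter (isOpen_lt continuous_const Complex.continuous_im.abs) ?_
  exact isOpen_lt Complex.continuous_im.abs continuous_const

theorem norm_exp_div (w : ℂ) (n : ℕ) :
    ‖Complex.exp (-w / n)‖ = Real.exp (-w.re / n) := by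
  rw [Complex.norm_exp]
  congr 1
  have h : -w / (n : ℂ) = ((1 / (n : ℝ) : ℝ) : ℂ) * (-w) := by
    push_cast; ring
  rw [h, Complex.re_ofReal_mul, Complex.neg_re]
  ring

theorem exp_mem {w : ℂ} {n : ℕ} (hn : 1 ≤ n) (hw : 0 < w.re) :
    Complex.exp (-w / n) ∈ ball (0 : ℂ) 1 := by
  rw [mem_ball_zero_iff, norm_exp_div, Real.exp_lt_one_iff]
  have : (0 : ℝ) < n := by exact_mod_cast hn
  exact div_neg_of_neg_of_pos (by linarith) this

theorem one_sub_exp_ge {x : ℝ} (hx : 0 ≤ x) (hx1 : x ≤ 1) : x / 2 ≤ 1 - Real.exp (-x) := by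
  have h1 : Real.exp (-x) ≤ 1 / (1 + x) := by
    rw [Real.exp_neg, ← one_div]
    apply one_div_le_one_div_of_le (by linarith)
    have := Real.add_one_le_exp x
    linarith
  have h2 : x / 2 ≤ 1 - 1 / (1 + x) := by
    have h3 : 1 - 1 / (1 + x) = x / (1 + x) := by
      field_simp
      ring
    rw [h3]
    apply div_le_div_of_nonneg_left hx (by linarith) (by linarith)
  linarith

/-- distance to the circle: `1/(2n) ≤ 1 - |e^{-w/n}|` for `Re w ≥ 1` -/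
theorem gap_ge {w : ℂ} {n : ℕ} (hn : 1 ≤ n) (hw : 1 ≤ w.re) :
    1 / (2 * (n : ℝ)) ≤ 1 - ‖Complex.exp (-w / n)‖ := by
  have hn0 : (1 : ℝ) ≤ n := by exact_mod_cast hn
  rw [norm_exp_div]
  have h1 := one_sub_exp_ge (x := 1 / (n : ℝ)) (by positivity) (by rw [div_le_one (by linarith)]; exact hn0)
  have h2 : Real.exp (-w.re / n) ≤ Real.exp (-(1 / (n : ℝ))) := by
    apply Real.exp_le_exp.2
    rw [neg_div, neg_le_neg_iff]
    exact div_le_div_of_nonneg_right hw (by linarith)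
  have h3 : 1 / (2 * (n : ℝ)) = 1 / (n : ℝ) / 2 := by
    field_simp
  rw [h3]
  linarith

theorem gs_diff {f : ℂ → ℂ} (hf : DifferentiableOn ℂ f (ball 0 1)) {n : ℕ} (hn : 1 ≤ n) :
    DifferentiableOn ℂ (gs f n) {w | 0 < w.re} := by
  have h1 : DifferentiableOn ℂ (fun w : ℂ => Complex.exp (-w / n)) {w | 0 < w.re} :=
    (((differentiable_id.neg).div_const _).cexp).differentiableOn
  exact hf.comp h1 (fun w hw => exp_mem hn hw)

theorem Nd.gs_le {p : ℝ} (hp : 0 < p) : ∃ C : ℝ, 1 ≤ C ∧ ∀ f : ℂ → ℂ, Nd p f → ∀ n : ℕ, 1 ≤ n →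
    ∀ w : ℂ, 1 ≤ w.re → ‖gs f n w‖ ≤ C * (n : ℝ) ^ (2 * p) := by
  obtain ⟨C, hC1, hC⟩ := growth_disc hp
  refine ⟨C * 4 ^ (2 * p), ?_, fun f hf n hn w hw => ?_⟩
  · have : (1 : ℝ) ≤ 4 ^ (2 * p) := Real.one_le_rpow (by norm_num) (by linarith)
    nlinarith
  have hn0 : (1 : ℝ) ≤ n := by exact_mod_cast hn
  have h1 := hC f hf.mv 1 one_pos hf.one _ (exp_mem hn (by linarith : 0 < w.re))
  have hg := gap_ge hn hw
  have hz0 := norm_nonneg (Complex.exp (-w / n))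
  have hpos : 0 < 1 - ‖Complex.exp (-w / n)‖ := lt_of_lt_of_le (by positivity) hg
  have h2 : (1 + ‖Complex.exp (-w / n)‖) / (1 - ‖Complex.exp (-w / n)‖) ≤ 4 * n := by
    rw [div_le_iff₀ hpos]
    have h3 : 4 * (n : ℝ) * (1 / (2 * (n : ℝ))) = 2 := by field_simp; norm_num
    have h4 : 4 * (n : ℝ) * (1 / (2 * (n : ℝ))) ≤ 4 * n * (1 - ‖Complex.exp (-w / n)‖) :=
      mul_le_mul_of_nonneg_left hg (by positivity)
    linarith
  refine h1.trans ?_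
  rw [mul_one, mul_assoc]
  apply mul_le_mul_of_nonneg_left _ (by linarith)
  rw [← Real.mul_rpow (by norm_num) (by linarith)]
  exact Real.rpow_le_rpow (by positivity) h2 (by linarith)

theorem Nd.smul {p : ℝ} (hp : 0 ≤ p) {f : ℂ → ℂ} (hf : MV (ball 0 1) p f) {b : ℝ} (hb : 0 < b)
    (h : ∀ z : ℂ, ‖z‖ ≤ 1 / 2 → ‖f z‖ ≤ b) : Nd p (fun z => (b : ℂ)⁻¹ * f z) := by
  refine ⟨hf.const_mul isOpen_ball hp _, fun z hz => ?_⟩
  rw [norm_mul, norm_inv, Complex.norm_real, Real.norm_of_nonneg hb.le, inv_mul_le_iff₀ hb, mul_one]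
  exact h z hz

theorem Nd.rot {p : ℝ} {f : ℂ → ℂ} (hf : Nd p f) {v : ℂ} (hv : ‖v‖ = 1) :
    Nd p (fun z => f (v * z)) := by
  refine ⟨hf.mv.rot hv, fun z hz => hf.one _ ?_⟩
  rw [norm_mul, hv, one_mul]
  exact hz

end MQV
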