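import Pool.Agent.MQV.CofA

set_option autoImplicit false

/-!
# MQV COF : the coefficient as a mean over the rectangle, and the far part by parts

Compare `Pool/Agent/MPV/Cfi.lean` (`MPV.coef_formula` is the case `x = 1` of `cof_line`; its proof
can be copied: `DiffContOnCl.circleIntegral_one_div_sub_center_pow_smul` on the circle of radius
`R = e^{-x/n}`, `R^n = e^{-x}`, periodicity, substitution `θ = -y/n`).

* `co_full`: `cof_line` integrated over `x ∈ [1,2]`.
* `line_far` (fixed `x ∈ [1,2]`, `G = gs f n`): put `Φ(y) = G(x+iy) e^{x+iy}`; `Φ' = i (G'(x+iy) + G(x+iy)) e^{x+iy}`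
  and `Φ(πn) = Φ(-πn)` (both factors: `e^{-(w + 2πin)/n} = e^{-w/n}`, `e^{2πin} = 1`).  Integrating
  `Φ'` over `[-πn,-K]` and over `[K,πn]` and adding:
  `i ∫_far G e^w dy = -i ∫_far G' e^w dy + Φ(-K) - Φ(K)`.
  Hence `‖∫_far G e^w‖ ≤ 2 e² M + e² ∫_far ‖G'‖` (`‖e^{x+iy}‖ = e^x ≤ e²`).
* `co_far`: `co f n (πn) - co f n K = ∫_1^2 ∫_far G e^w dy dx`; the norm is at most
  `∫_1^2 (2 e² M + e² ∫_far ‖G'‖ dy) dx`, and
  `∫⁻_{1<x<2} ∫⁻_{K<|y|<πn} = ∫⁻ w in Rg n K` (`Complex.volume_preserving_equiv_real_prod`,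
  `lintegral_prod`).  `G` is analytic on `{Re w > 0}` (`gs_diff`), so everything is continuous on
  `[1,2] × [-πn,πn]`.
-/

open MeasureTheory Metric Set

namespace MQV

private theorem Cfb_ton (n : ℕ) (K : ℝ) {g : ℂ → ENNReal} (hg : Measurable g) :
    ∫⁻ w in Rg n K, g w = ∫⁻ x in Ioo (1 : ℝ) 2,
      ∫⁻ y in {y : ℝ | K < |y| ∧ |y| < Real.pi * n}, g (x + y * Complex.I) := by
  have e := Complex.volume_preserving_equiv_real_prod.symm Complex.measurableEquivRealProd
  have e2 : Complex.measurableEquivRealProd.symm ⁻¹' (Rg n K) =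
      Ioo (1 : ℝ) 2 ×ˢ {y : ℝ | K < |y| ∧ |y| < Real.pi * n} := by
    ext ⟨x, y⟩
    simp only [Rg, mem_preimage, mem_setOf_eq, mem_prod, mem_Ioo,
      Complex.measurableEquivRealProd_symm_apply, and_assoc]
  have e3 : ∀ p : ℝ × ℝ, Complex.measurableEquivRealProd.symm p = (p.1 : ℂ) + p.2 * Complex.I := by
    intro p
    rw [Complex.measurableEquivRealProd_symm_apply]
    exact Complex.mk_eq_add_mul_I _ _
  rw [← e.setLIntegral_comp_preimage (isOpen_Rg n K).measurableSet hg, e2, Measure.volume_eq_prod,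
    ← Measure.prod_restrict, lintegral_prod]
  · simp only [e3]
  · exact (hg.comp Complex.measurableEquivRealProd.symm.measurable).aemeasurable

private theorem Cfb_sec (n : ℕ) {K : ℝ} (hK0 : 0 ≤ K) (hK : K ≤ Real.pi * n) (g : ℝ → ENNReal) :
    ∫⁻ y in {y : ℝ | K < |y| ∧ |y| < Real.pi * n}, g y =
      (∫⁻ y in Ioc (-(Real.pi * n)) (-K), g y) + ∫⁻ y in Ioc K (Real.pi * n), g y := by
  have e : {y : ℝ | K < |y| ∧ |y| < Real.pi * n} =
      Ioo (-(Real.pi * n)) (-K) ∪ Ioo K (Real.pi * n) := by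
    ext y
    simp only [mem_setOf_eq, mem_union, mem_Ioo, lt_abs, abs_lt]
    constructor
    · rintro ⟨h1 | h1, h2, h3⟩
      · exact Or.inr ⟨h1, h3⟩
      · exact Or.inl ⟨h2, by linarith⟩
    · rintro (⟨h1, h2⟩ | ⟨h1, h2⟩)
      · exact ⟨Or.inr (by linarith), h1, by linarith⟩
      · exact ⟨Or.inl h1, by linarith, h2⟩
  rw [e, lintegral_union measurableSet_Ioo]
  · rw [setLIntegral_congr Ioo_ae_eq_Ioc, setLIntegral_congr (Ioo_ae_eq_Ioc (a := K))]
  · rw [Set.disjoint_left]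
    rintro y ⟨_, h1⟩ ⟨h2, _⟩
    linarith

private theorem Cfb_cont {f : ℂ → ℂ} (hf : DifferentiableOn ℂ f (ball 0 1)) {n : ℕ} (hn : 1 ≤ n)
    (K : ℝ) (hK : 0 ≤ K) : IntervalIntegrable (fun x : ℝ => ∫ y in (-K)..K,
      gs f n (x + y * Complex.I) * Complex.exp (x + y * Complex.I)) volume 1 2 := by
  have h1 : ContinuousOn (fun p : ℝ × ℝ => gs f n (p.1 + p.2 * Complex.I) *
      Complex.exp (p.1 + p.2 * Complex.I)) (Icc 1 2 ×ˢ Icc (-K) K) := by
    have hc : Continuous (fun p : ℝ × ℝ => ((p.1 : ℂ) + p.2 * Complex.I)) := by fun_prop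
    refine ContinuousOn.mul ?_ (hc.cexp).continuousOn
    refine (gs_diff hf hn).continuousOn.comp hc.continuousOn ?_
    rintro ⟨x, y⟩ ⟨hx, _⟩
    simp only [mem_setOf_eq, Complex.add_re, Complex.ofReal_re, Complex.mul_re, Complex.I_re,
      mul_zero, Complex.ofReal_im, Complex.I_im, mul_one, sub_self, add_zero]
    exact lt_of_lt_of_le one_pos hx.1
  have h2 : IntegrableOn (fun p : ℝ × ℝ => gs f n (p.1 + p.2 * Complex.I) *
      Complex.exp (p.1 + p.2 * Complex.I)) (Ioc 1 2 ×ˢ Ioc (-K) K) (volume.prod volume) :=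
    (h1.integrableOn_compact (isCompact_Icc.prod isCompact_Icc)).mono_set
      (prod_mono Ioc_subset_Icc_self Ioc_subset_Icc_self)
  rw [IntegrableOn, ← Measure.prod_restrict] at h2
  rw [intervalIntegrable_iff_integrableOn_Ioc_of_le (by norm_num)]
  have h3 := h2.integral_prod_left
  refine h3.congr (Filter.Eventually.of_forall fun x => ?_)
  simp only
  rw [intervalIntegral.integral_of_le (by linarith)]

theorem co_far {f : ℂ → ℂ} (hf : DifferentiableOn ℂ f (ball 0 1)) {n : ℕ} (hn : 1 ≤ n) {K M : ℝ}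
    (hK0 : 0 ≤ K) (hK : K ≤ Real.pi * n) (hM : 0 ≤ M)
    (hb : ∀ w : ℂ, 1 ≤ w.re → w.re ≤ 2 → K ≤ |w.im| → |w.im| ≤ Real.pi * n → ‖gs f n w‖ ≤ M) :
    ENNReal.ofReal ‖2 * Real.pi * n * MPV.coef f n - co f n K‖ ≤
      ENNReal.ofReal (2 * Real.exp 2 * M) +
        ENNReal.ofReal (Real.exp 2) * ∫⁻ w in Rg n K, ENNReal.ofReal ‖deriv (gs f n) w‖ := by
  set c : ℂ := 2 * Real.pi * n * MPV.coef f n with hc
  set E : ℝ → ℂ := fun x => ∫ y in (-K)..K,
      gs f n (x + y * Complex.I) * Complex.exp (x + y * Complex.I) with hE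
  have hEi : IntervalIntegrable E volume 1 2 := Cfb_cont hf hn K hK0
  have h1 : c - co f n K = ∫ x in (1 : ℝ)..2, (c - E x) := by
    rw [intervalIntegral.integral_sub intervalIntegrable_const hEi, intervalIntegral.integral_const]
    norm_num [co, hE]
  rw [h1, intervalIntegral.integral_of_le (by norm_num), ofReal_norm]
  refine (enorm_integral_le_lintegral_enorm _).trans ?_
  rw [Cfb_ton n K (by fun_prop)]
  rw [setLIntegral_congr (Ioo_ae_eq_Ioc (a := (1 : ℝ)) (b := 2)).symm]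
  have hgm : Measurable (fun x : ℝ => ∫⁻ y in {y : ℝ | K < |y| ∧ |y| < Real.pi * n},
      ENNReal.ofReal ‖deriv (gs f n) (x + y * Complex.I)‖) := by
    refine Measurable.lintegral_prod_right' (f := fun p : ℝ × ℝ =>
      ENNReal.ofReal ‖deriv (gs f n) (p.1 + p.2 * Complex.I)‖) ?_
    have := (measurable_deriv (gs f n)).comp
      (show Measurable (fun p : ℝ × ℝ => ((p.1 : ℂ) + p.2 * Complex.I)) by fun_prop)
    exact this.norm.ennreal_ofReal
  have h2 : ∀ x ∈ Ioo (1 : ℝ) 2, ‖c - E x‖ₑ ≤ ENNReal.ofReal (2 * Real.exp 2 * M) +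
      ENNReal.ofReal (Real.exp 2) * ∫⁻ y in {y : ℝ | K < |y| ∧ |y| < Real.pi * n},
        ENNReal.ofReal ‖deriv (gs f n) (x + y * Complex.I)‖ := by
    intro x hx
    have r1 : ((x : ℂ) + K * Complex.I).re = x := by simp
    have i1 : ((x : ℂ) + K * Complex.I).im = K := by simp
    have r2 : ((x : ℂ) - K * Complex.I).re = x := by simp
    have i2 : ((x : ℂ) - K * Complex.I).im = -K := by simp
    have h3 := line_far hf hn (x := x) (by linarith [hx.1]) hx.2.le hK0 hK
      (hb _ (by rw [r1]; exact hx.1.le) (by rw [r1]; exact hx.2.le)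
        (by rw [i1, abs_of_nonneg hK0]) (by rw [i1, abs_of_nonneg hK0]; exact hK))
      (hb _ (by rw [r2]; exact hx.1.le) (by rw [r2]; exact hx.2.le)
        (by rw [i2, abs_neg, abs_of_nonneg hK0]) (by rw [i2, abs_neg, abs_of_nonneg hK0]; exact hK))
    rw [cof_line hf hn (by linarith [hx.1])] at h3
    rw [← ofReal_norm]
    refine (ENNReal.ofReal_le_ofReal h3).trans ?_
    have hl : ∀ a b : ℝ, a ≤ b → ENNReal.ofReal (∫ y in a..b,
        ‖deriv (gs f n) (x + y * Complex.I)‖) ≤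
        ∫⁻ y in Ioc a b, ENNReal.ofReal ‖deriv (gs f n) (x + y * Complex.I)‖ := by
      intro a b hab
      rw [intervalIntegral.integral_of_le hab]
      have := enorm_integral_le_lintegral_enorm (μ := volume.restrict (Ioc a b))
        (fun y : ℝ => ‖deriv (gs f n) (x + y * Complex.I)‖)
      rw [← ofReal_norm, Real.norm_of_nonneg (integral_nonneg fun y => norm_nonneg _)] at this
      refine this.trans (le_of_eq (lintegral_congr fun y => ?_))
      rw [enorm_norm, ofReal_norm]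
    refine ENNReal.ofReal_add_le.trans (add_le_add le_rfl ?_)
    rw [ENNReal.ofReal_mul (Real.exp_pos 2).le, Cfb_sec n hK0 hK]
    gcongr
    exact ENNReal.ofReal_add_le.trans (add_le_add (hl _ _ (by linarith)) (hl _ _ hK))
  refine (setLIntegral_mono' measurableSet_Ioo h2).trans ?_
  rw [lintegral_add_left measurable_const, lintegral_const_mul _ hgm, lintegral_const,
    Measure.restrict_apply_univ, Real.volume_Ioo]
  norm_num

end MQV
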