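import Pool.Agent.MQV.Cdf

set_option autoImplicit false

/-!
# MQV COF A : Cauchy's formula on the lines and integration by parts

See `Cof.lean` for the text.  `A y = G(x+iy) e^{x+iy}`, `B y = G'(x+iy) e^{x+iy}`, `A' = i (B + A)`.
-/

open MeasureTheory Metric Set

namespace MQV

private theorem coef_eq_int {f : ℂ → ℂ} (hf : DifferentiableOn ℂ f (ball 0 1)) {m : ℕ} (hm : 1 ≤ m)
    {x : ℝ} (hx : 0 < x) :
    MPV.coef f m = (Real.exp x / (2 * Real.pi) : ℝ) *
      ∫ θ in (0 : ℝ)..2 * Real.pi, f (circleMap 0 (Real.exp (-x / m)) θ) *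
        Complex.exp (-(m * θ * Complex.I)) := by
  have hm0 : (0 : ℝ) < m := by exact_mod_cast hm
  set R : ℝ := Real.exp (-x / m) with hR
  have hR0 : 0 < R := Real.exp_pos _
  have hR1 : R < 1 := by
    rw [hR, Real.exp_lt_one_iff]
    exact div_neg_of_neg_of_pos (by linarith) hm0
  have hRm : R ^ m = Real.exp (-x) := by
    rw [hR, ← Real.exp_nat_mul]
    congr 1
    field_simp
  have hsub : closedBall (0 : ℂ) R ⊆ ball 0 1 := closedBall_subset_ball hR1
  have hdc : DiffContOnCl ℂ f (ball 0 R) := (hf.mono hsub).diffContOnCl_ball (le_refl _) |> fun h => h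
  have hC := hdc.circleIntegral_one_div_sub_center_pow_smul hR0 m
  have hfac : (m.factorial : ℂ) ≠ 0 := by exact_mod_cast m.factorial_ne_zero
  have hpi : (2 * Real.pi * Complex.I : ℂ) ≠ 0 := by
    simp [Real.pi_ne_zero]
  have h1 : MPV.coef f m = (2 * Real.pi * Complex.I)⁻¹ *
      ∮ z in C(0, R), (1 / (z - 0) ^ (m + 1)) • f z := by
    rw [hC, MPV.coef, smul_eq_mul]
    field_simp
  rw [h1, circleIntegral]
  have h2 : ∀ θ : ℝ, deriv (circleMap 0 R) θ • ((1 / (circleMap 0 R θ - 0) ^ (m + 1)) •
      f (circleMap 0 R θ)) = (Complex.I * Real.exp x) * (f (circleMap 0 R θ) *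
        Complex.exp (-(m * θ * Complex.I))) := by
    intro θ
    rw [deriv_circleMap, smul_eq_mul, smul_eq_mul, sub_zero]
    have h3 : circleMap 0 R θ ≠ 0 := circleMap_ne_center hR0.ne'
    have h4 : (circleMap 0 R θ) ^ m = (Real.exp (-x) : ℂ) * Complex.exp (m * θ * Complex.I) := by
      rw [circleMap, zero_add, mul_pow, ← Complex.exp_nat_mul]
      have : ((R : ℂ)) ^ m = (Real.exp (-x) : ℂ) := by
        rw [← hRm]; push_cast; rfl
      rw [this]
      push_cast
      ring_nf
    have h5 : (1 : ℂ) / (circleMap 0 R θ) ^ m = (Real.exp x : ℂ) * Complex.exp (-(m * θ * Complex.I)) := by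
      rw [h4, one_div, mul_inv, ← Complex.exp_neg]
      congr 1
      push_cast
      rw [← Complex.exp_neg, neg_neg]
    have h6 : circleMap 0 R θ * Complex.I * (1 / circleMap 0 R θ ^ (m + 1) * f (circleMap 0 R θ))
        = Complex.I * ((1 : ℂ) / (circleMap 0 R θ) ^ m) * f (circleMap 0 R θ) := by
      rw [pow_succ]
      field_simp
    rw [h6, h5]
    ring
  rw [intervalIntegral.integral_congr (fun θ _ => h2 θ), intervalIntegral.integral_const_mul]
  have hI : Complex.I ≠ 0 := Complex.I_ne_zero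
  have hpi' : (Real.pi : ℂ) ≠ 0 := by exact_mod_cast Real.pi_ne_zero
  push_cast
  field_simp

theorem cof_line {f : ℂ → ℂ} (hf : DifferentiableOn ℂ f (ball 0 1)) {n : ℕ} (hn : 1 ≤ n) {x : ℝ}
    (hx : 0 < x) :
    ∫ y in (-(Real.pi * n))..(Real.pi * n),
      gs f n (x + y * Complex.I) * Complex.exp (x + y * Complex.I) =
        2 * Real.pi * n * MPV.coef f n := by
  have hm0 : (0 : ℝ) < n := by exact_mod_cast hn
  have hmC : (n : ℂ) ≠ 0 := by exact_mod_cast hm0.ne'
  have hpi' : (Real.pi : ℂ) ≠ 0 := by exact_mod_cast Real.pi_ne_zero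
  set R : ℝ := Real.exp (-x / n) with hR
  set g : ℝ → ℂ := fun θ => f (circleMap 0 R θ) * Complex.exp (-(n * θ * Complex.I)) with hg
  have hper : Function.Periodic g (2 * Real.pi) := by
    intro θ
    simp only [hg]
    have h1 : circleMap 0 R (θ + 2 * Real.pi) = circleMap 0 R θ := periodic_circleMap 0 R θ
    rw [h1]
    congr 1
    have h2 : (-(n * ((θ + 2 * Real.pi : ℝ) : ℂ) * Complex.I))
        = -(n * θ * Complex.I) - (n : ℕ) * (2 * Real.pi * Complex.I) := by
      push_cast; ring
    rw [h2, Complex.exp_sub, Complex.exp_nat_mul_two_pi_mul_I, div_one]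
  have h1 : ∫ θ in (0 : ℝ)..2 * Real.pi, g θ = ∫ θ in (-Real.pi)..Real.pi, g θ := by
    have := hper.intervalIntegral_add_eq 0 (-Real.pi)
    rw [zero_add, show -Real.pi + 2 * Real.pi = Real.pi by ring] at this
    exact this
  have h2 : ∫ y in (-(Real.pi * n))..(Real.pi * n),
      gs f n (x + y * Complex.I) * Complex.exp (x + y * Complex.I)
      = ∫ y in (-(Real.pi * n))..(Real.pi * n), (Real.exp x : ℂ) * g (-y / n) := by
    apply intervalIntegral.integral_congr
    intro t _
    simp only [hg, gs]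
    have h3 : circleMap 0 R (-t / n) = Complex.exp (-(x + t * Complex.I) / n) := by
      rw [circleMap, zero_add, hR]
      push_cast
      rw [← Complex.exp_add]
      congr 1
      field_simp
      ring
    have h4 : -((n : ℂ) * ((-t / n : ℝ) : ℂ) * Complex.I) = t * Complex.I := by
      push_cast
      field_simp
    rw [h3, h4, Complex.exp_add]
    push_cast
    ring
  have h5 : ∫ y in (-(Real.pi * n))..(Real.pi * n), g (-y / n)
      = (n : ℂ) * ∫ θ in (-Real.pi)..Real.pi, g θ := by
    have h6 : ∫ y in (-(Real.pi * n))..(Real.pi * n), g (-y / n)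
        = ∫ y in (-(Real.pi * n))..(Real.pi * n), g (y / n) := by
      have h7 := intervalIntegral.integral_comp_neg (a := -(Real.pi * n)) (b := Real.pi * n)
        (fun y => g (y / n))
      rw [neg_neg] at h7
      exact h7
    rw [h6, intervalIntegral.integral_comp_div _ hm0.ne']
    rw [show -(Real.pi * n) / n = -Real.pi by field_simp, show Real.pi * n / n = Real.pi by field_simp]
    rw [Complex.real_smul]
    push_cast
    rfl
  have hc : MPV.coef f n = (Real.exp x / (2 * Real.pi) : ℝ) * ∫ θ in (0 : ℝ)..2 * Real.pi, g θ :=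
    coef_eq_int hf hn hx
  rw [h2, intervalIntegral.integral_const_mul, h5, hc, ← h1]
  generalize (∫ θ in (0 : ℝ)..2 * Real.pi, g θ) = J
  push_cast
  field_simp

theorem co_full {f : ℂ → ℂ} (hf : DifferentiableOn ℂ f (ball 0 1)) {n : ℕ} (hn : 1 ≤ n) :
    co f n (Real.pi * n) = 2 * Real.pi * n * MPV.coef f n := by
  unfold co
  have h : ∫ x in (1 : ℝ)..2, ∫ y in (-(Real.pi * n))..(Real.pi * n),
      gs f n (x + y * Complex.I) * Complex.exp (x + y * Complex.I)
      = ∫ x in (1 : ℝ)..2, (2 * Real.pi * n * MPV.coef f n : ℂ) := by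
    apply intervalIntegral.integral_congr
    intro x hx
    rw [uIcc_of_le (by norm_num)] at hx
    exact cof_line hf hn (lt_of_lt_of_le one_pos hx.1)
  rw [h, intervalIntegral.integral_const]
  norm_num

theorem line_far {f : ℂ → ℂ} (hf : DifferentiableOn ℂ f (ball 0 1)) {n : ℕ} (hn : 1 ≤ n) {x : ℝ}
    (hx : 0 < x) (hx2 : x ≤ 2) {K M : ℝ} (hK0 : 0 ≤ K) (hK : K ≤ Real.pi * n)
    (h1 : ‖gs f n (x + K * Complex.I)‖ ≤ M) (h2 : ‖gs f n (x - K * Complex.I)‖ ≤ M) :
    ‖(∫ y in (-(Real.pi * n))..(Real.pi * n),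
        gs f n (x + y * Complex.I) * Complex.exp (x + y * Complex.I)) -
      ∫ y in (-K)..K, gs f n (x + y * Complex.I) * Complex.exp (x + y * Complex.I)‖ ≤
      2 * Real.exp 2 * M + Real.exp 2 *
        ((∫ y in (-(Real.pi * n))..(-K), ‖deriv (gs f n) (x + y * Complex.I)‖) +
          ∫ y in K..(Real.pi * n), ‖deriv (gs f n) (x + y * Complex.I)‖) := by
  have hm0 : (0 : ℝ) < n := by exact_mod_cast hn
  have hmC : (n : ℂ) ≠ 0 := by exact_mod_cast hm0.ne'
  set L : ℝ := Real.pi * n with hL
  set A : ℝ → ℂ := fun y => gs f n (x + y * Complex.I) * Complex.exp (x + y * Complex.I) with hA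
  set D : ℝ → ℂ := fun y => deriv (gs f n) (x + y * Complex.I) with hD
  set B : ℝ → ℂ := fun y => D y * Complex.exp (x + y * Complex.I) with hB
  have hO : IsOpen {w : ℂ | 0 < w.re} := isOpen_lt continuous_const Complex.continuous_re
  have hre : ∀ y : ℝ, (x + y * Complex.I : ℂ) ∈ {w : ℂ | 0 < w.re} := fun y => by
    simp [hx]
  have hdiff := gs_diff hf hn
  have hline : Continuous fun y : ℝ => (x + y * Complex.I : ℂ) := by fun_prop
  have hexp : Continuous fun y : ℝ => Complex.exp (x + y * Complex.I) := by fun_prop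
  have hGc : Continuous fun y : ℝ => gs f n (x + y * Complex.I) :=
    hdiff.continuousOn.comp_continuous hline hre
  have hDc : Continuous D := (hdiff.deriv hO).continuousOn.comp_continuous hline hre
  have hAc : Continuous A := hGc.mul hexp
  have hBc : Continuous B := hDc.mul hexp
  have hder : ∀ y : ℝ, HasDerivAt A (Complex.I * (B y + A y)) y := by
    intro y
    have e1 : HasDerivAt (fun u : ℂ => x + u * Complex.I) Complex.I (y : ℂ) := by
      have := ((hasDerivAt_id (y : ℂ)).mul_const Complex.I).const_add (x : ℂ)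
      rw [one_mul] at this
      exact this
    have e2 : HasDerivAt (gs f n) (deriv (gs f n) (x + y * Complex.I)) (x + y * Complex.I) :=
      (hdiff.differentiableAt (hO.mem_nhds (hre y))).hasDerivAt
    have e3 : HasDerivAt (fun u : ℂ => gs f n (x + u * Complex.I))
        (deriv (gs f n) (x + y * Complex.I) * Complex.I) (y : ℂ) :=
      HasDerivAt.comp (y : ℂ) (h₂ := gs f n) e2 e1
    have e4 : HasDerivAt (fun u : ℂ => Complex.exp (x + u * Complex.I))
        (Complex.exp (x + y * Complex.I) * Complex.I) (y : ℂ) := e1.cexp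
    have e5 := (e3.mul e4).comp_ofReal
    have e6 : Complex.I * (B y + A y) = deriv (gs f n) (x + y * Complex.I) * Complex.I *
        Complex.exp (x + y * Complex.I) + gs f n (x + y * Complex.I) *
          (Complex.exp (x + y * Complex.I) * Complex.I) := by
      simp only [hA, hB, hD]
      ring
    rw [e6]
    exact e5
  have hI : Continuous fun y => Complex.I * (B y + A y) := continuous_const.mul (hBc.add hAc)
  have ftc : ∀ a b : ℝ, Complex.I * ((∫ y in a..b, B y) + ∫ y in a..b, A y) = A b - A a := by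
    intro a b
    rw [← intervalIntegral.integral_eq_sub_of_hasDerivAt (fun y _ => hder y)
      (hI.intervalIntegrable a b), intervalIntegral.integral_const_mul,
      intervalIntegral.integral_add (hBc.intervalIntegrable a b) (hAc.intervalIntegrable a b)]
  have hper : A L = A (-L) := by
    simp only [hA, gs]
    have p1 : Complex.exp (-(x + L * Complex.I) / n) = Complex.exp (-(x + (-L : ℝ) * Complex.I) / n) := by
      rw [Complex.exp_eq_exp_iff_exists_int]
      refine ⟨-1, ?_⟩
      rw [hL]
      push_cast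
      field_simp
      ring
    have p2 : Complex.exp (x + L * Complex.I) = Complex.exp (x + (-L : ℝ) * Complex.I) := by
      rw [Complex.exp_eq_exp_iff_exists_int]
      refine ⟨n, ?_⟩
      rw [hL]
      push_cast
      ring
    rw [p1, p2]
  have hsplit : (∫ y in (-L)..L, A y) - (∫ y in (-K)..K, A y) =
      (∫ y in (-L)..(-K), A y) + ∫ y in K..L, A y := by
    have s1 := intervalIntegral.integral_add_adjacent_intervals
      (hAc.intervalIntegrable (-L) (-K)) (hAc.intervalIntegrable (-K) K) (μ := volume)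
    have s2 := intervalIntegral.integral_add_adjacent_intervals
      (hAc.intervalIntegrable (-L) K) (hAc.intervalIntegrable K L) (μ := volume)
    rw [← s2, ← s1]
    ring
  have f1 := ftc (-L) (-K)
  have f2 := ftc K L
  have hfar : (∫ y in (-L)..(-K), A y) + ∫ y in K..L, A y =
      -((∫ y in (-L)..(-K), B y) + ∫ y in K..L, B y) - Complex.I * (A (-K) - A K) := by
    have f3 : Complex.I * (((∫ y in (-L)..(-K), B y) + ∫ y in K..L, B y) +
        ((∫ y in (-L)..(-K), A y) + ∫ y in K..L, A y)) = A (-K) - A K := by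
      rw [hper] at f2
      linear_combination f1 + f2
    rw [← f3, ← mul_assoc, Complex.I_mul_I]
    ring
  have hex : ∀ y : ℝ, ‖Complex.exp (x + y * Complex.I)‖ ≤ Real.exp 2 := fun y => by
    rw [Complex.norm_exp]
    apply Real.exp_le_exp.2
    simp [hx2]
  have he0 : 0 < Real.exp 2 := Real.exp_pos 2
  have hM : 0 ≤ M := (norm_nonneg _).trans h1
  have hAK : ‖A K‖ ≤ Real.exp 2 * M := by
    simp only [hA]
    rw [norm_mul, mul_comm (Real.exp 2)]
    exact mul_le_mul h1 (hex K) (norm_nonneg _) hM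
  have hAK' : ‖A (-K)‖ ≤ Real.exp 2 * M := by
    simp only [hA]
    rw [norm_mul, mul_comm (Real.exp 2)]
    refine mul_le_mul ?_ (hex (-K)) (norm_nonneg _) hM
    have e : (x + ((-K : ℝ) : ℂ) * Complex.I) = x - K * Complex.I := by
      push_cast
      ring
    rw [e]
    exact h2
  have hBn : ∀ a b : ℝ, a ≤ b → ‖∫ y in a..b, B y‖ ≤ Real.exp 2 * ∫ y in a..b, ‖D y‖ := by
    intro a b hab
    refine (intervalIntegral.norm_integral_le_integral_norm hab).trans ?_
    rw [← intervalIntegral.integral_const_mul]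
    refine intervalIntegral.integral_mono_on hab (hBc.norm.intervalIntegrable a b)
      ((continuous_const.mul hDc.norm).intervalIntegrable a b) fun y _ => ?_
    simp only [hB]
    rw [norm_mul, mul_comm (Real.exp 2)]
    exact mul_le_mul_of_nonneg_left (hex y) (norm_nonneg _)
  rw [hsplit, hfar]
  have hLK : -L ≤ -K := by linarith
  have g1 := hBn (-L) (-K) hLK
  have g2 := hBn K L hK
  have g3 : ‖-((∫ y in (-L)..(-K), B y) + ∫ y in K..L, B y) - Complex.I * (A (-K) - A K)‖ ≤
      (‖∫ y in (-L)..(-K), B y‖ + ‖∫ y in K..L, B y‖) + (‖A (-K)‖ + ‖A K‖) := by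
    refine (norm_sub_le _ _).trans ?_
    rw [norm_neg, norm_mul, Complex.norm_I, one_mul]
    exact add_le_add (norm_add_le _ _) (norm_sub_le _ _)
  refine g3.trans ?_
  have : Real.exp 2 * ((∫ y in (-L)..(-K), ‖D y‖) + ∫ y in K..L, ‖D y‖) =
      Real.exp 2 * (∫ y in (-L)..(-K), ‖D y‖) + Real.exp 2 * ∫ y in K..L, ‖D y‖ := by ring
  rw [this]
  linarith

end MQV
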