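import Pool.Agent.MQV.Lev
import Pool.Agent.MQV.Acc

/-!
# MQV CORE : the surgery for a prepared function

`G = GG p e t s A F J` with `J` from `glue_exists`; mean valence by `acct` (with the sets `D1`,
`D2`, `D3` and the maps `m1`, `m2`, `m3`), the level facts from `Lev`.
Constants: `h = e/20 exp(-(r+2)/2)` (`≤ e/8`), `δ ≤ min (p/10, 1/10, δ of glue_exists)`,
`κ = e (1 - e^{-2p}) / (2π)`.
Inner: `w = m1 ζ`, `‖psi ζ - ζ‖ ≤ 4 e exp(-(t - Re ζ)/2)` and `‖rin‖ ≤ (e/1000) exp(-|Re psi - t|)`.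
Outer: `w = m3 ζ`, `‖psi ζ - ζ‖ ≤ 8 e`, `‖rout‖ ≤ e/1000`.
-/

set_option autoImplicit false

open MeasureTheory Metric Set

namespace MQV

private theorem core_kappa {p e : ℝ} :
    Real.pi * (e * (1 - Real.exp (-(2 * p))) / (2 * Real.pi)) =
      e / 2 * (1 - Real.exp (-(2 * p))) := by
  have := Real.pi_pos.ne'
  field_simp

private theorem core_mem_Str {ζ : ℂ} {c : ℝ} (hc : 0 < c) (h : c ≤ Real.pi / 2 - |ζ.im|) :
    ζ ∈ Str := by
  have : |ζ.im| < Real.pi / 2 := by linarith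
  exact this

private theorem core_inner {p e t s : ℝ} {A : ℂ} {F J : ℂ → ℂ} (hG : Glue p e t s A F J) {ζ : ℂ}
    (hζ : ζ ∈ Str) (hx : ζ.re ≤ t - 2) :
    ∃ w ∈ Str, ‖w - ζ‖ ≤ Real.exp (-(t - ζ.re) / 2) ∧ GG p e t s A F J ζ = F w := by
  have hre := psi_re (t := t) (s := s) hG.he hζ
  have hD : ζ ∈ D1 e t s := ⟨hζ, by linarith [hre.2]⟩
  have hmem : m1 e t s J ζ ∈ Str :=
    core_mem_Str (by have := hG.he; positivity) ((m_depth hG).1 ζ hD)
  refine ⟨m1 e t s J ζ, hmem, ?_, GG_eq1 hG hD⟩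
  have hS : psi e t s ζ ∈ Str := psi_mapsTo hG.he hG.he1 hζ
  have him : |(psi e t s ζ).im| ≤ 2 := by
    have h1 : |(psi e t s ζ).im| < Real.pi / 2 := hS
    have := Real.pi_lt_four
    linarith
  have h1 := psi_inner (t := t) (s := s) hG.he (by linarith [hG.hs]) hζ
  have h2 := hG.b_in (psi e t s ζ) him (Or.inl (by linarith [hre.2]))
  have h3 : Real.exp (-|(psi e t s ζ).re - t|) ≤ Real.exp (-(t - ζ.re) / 2) := by
    apply Real.exp_le_exp.mpr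
    have : t - ζ.re ≤ |(psi e t s ζ).re - t| := by
      rw [abs_sub_comm]
      exact le_trans (by linarith [hre.2]) (le_abs_self _)
    linarith
  have h4 : ‖m1 e t s J ζ - ζ‖ ≤ ‖psi e t s ζ - ζ‖ +
      ‖rin t s (Real.pi / 2 - e / 4) J (psi e t s ζ)‖ := by
    have : m1 e t s J ζ - ζ = (psi e t s ζ - ζ) +
      rin t s (Real.pi / 2 - e / 4) J (psi e t s ζ) := by
      unfold m1
      ring
    rw [this]
    exact norm_add_le _ _
  have he := hG.he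
  have he1 := hG.he1
  have h5 : e / 1000 * Real.exp (-|(psi e t s ζ).re - t|) ≤
      e / 1000 * Real.exp (-(t - ζ.re) / 2) := by gcongr
  have h6 : 0 < Real.exp (-(t - ζ.re) / 2) := Real.exp_pos _
  have h7 : (4 * e + e / 1000) * Real.exp (-(t - ζ.re) / 2) ≤ 1 * Real.exp (-(t - ζ.re) / 2) := by
    gcongr
    linarith
  linarith

private theorem core_outer {p e t s : ℝ} {A : ℂ} {F J : ℂ → ℂ} (hG : Glue p e t s A F J) {ζ : ℂ}
    (hζ : ζ ∈ Str) (hx : t + s + 2 ≤ ζ.re) :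
    ∃ w ∈ Str, ‖w - (ζ - s)‖ ≤ 10 * e ∧ GG p e t s A F J ζ = Real.exp (2 * p * s) * F w := by
  have he := hG.he
  have he1 := hG.he1
  have hre := psi_re (t := t) (s := s) hG.he hζ
  have hD : ζ ∈ D3 e t s := ⟨hζ, by linarith [hre.1]⟩
  have hmem : m3 e t s J ζ ∈ Str :=
    core_mem_Str (by positivity) ((m_depth hG).2.2.2 ζ hD)
  refine ⟨m3 e t s J ζ, hmem, ?_, GG_eq3 hG hD⟩
  have hS : psi e t s ζ ∈ Str := psi_mapsTo hG.he hG.he1 hζ
  have him : |(psi e t s ζ).im| ≤ 2 := by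
    have h1 : |(psi e t s ζ).im| < Real.pi / 2 := hS
    have := Real.pi_lt_four
    linarith
  have h1 := psi_outer (t := t) (s := s) hG.he (by linarith [hG.hs]) hζ
  have h2 := hG.b_out (psi e t s ζ) him (Or.inl (by linarith [hre.1]))
  have h3 : Real.exp (-|(psi e t s ζ).re - t - s|) ≤ 1 := by
    rw [← Real.exp_zero]
    exact Real.exp_le_exp.mpr (neg_nonpos.mpr (abs_nonneg _))
  have h3' : Real.exp (-(ζ.re - t - s) / 2) ≤ 1 := by
    rw [← Real.exp_zero]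
    exact Real.exp_le_exp.mpr (by linarith)
  have h4 : ‖m3 e t s J ζ - (ζ - s)‖ ≤ ‖psi e t s ζ - (ζ - 4 * e)‖ + ‖-(4 * e : ℂ)‖ +
      ‖rout t s (Real.pi / 2 - e / 4) J (psi e t s ζ)‖ := by
    have : m3 e t s J ζ - (ζ - s) = (psi e t s ζ - (ζ - 4 * e)) + -(4 * e : ℂ) +
      rout t s (Real.pi / 2 - e / 4) J (psi e t s ζ) := by
      unfold m3
      ring
    rw [this]
    exact norm_add₃_le
  have h5 : ‖-(4 * e : ℂ)‖ = 4 * e := by
    rw [norm_neg, norm_mul, Complex.norm_real, Real.norm_of_nonneg he.le]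
    norm_num
  have h6 : e / 1000 * Real.exp (-|(psi e t s ζ).re - t - s|) ≤ e / 1000 * 1 := by gcongr
  have h7 : 4 * e * Real.exp (-(ζ.re - t - s) / 2) ≤ 4 * e * 1 := by gcongr
  linarith

theorem core {p : ℝ} (hp : 0 < p) {e : ℝ} (he : 0 < e) (he1 : e ≤ 1 / 100) {r : ℝ} (hr : 0 < r) :
    ∃ h δ κ : ℝ, 0 < h ∧ 0 < δ ∧ 0 < κ ∧ ∀ (F : ℂ → ℂ) (t : ℝ) (A : ℂ), Prep p e r h δ κ F t A →
      ∀ s : ℝ, 10 ≤ s → ∃ G : ℂ → ℂ, MV Str p G ∧
        (∀ ζ ∈ Str, ζ.re ≤ t - 2 →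
          ∃ w ∈ Str, ‖w - ζ‖ ≤ Real.exp (-(t - ζ.re) / 2) ∧ G ζ = F w) ∧
        (∀ ζ ∈ Str, t + s + 2 ≤ ζ.re →
          ∃ w ∈ Str, ‖w - (ζ - s)‖ ≤ 10 * e ∧ G ζ = Real.exp (2 * p * s) * F w) := by
  obtain ⟨δ0, hδ0, hglue⟩ := glue_exists hp he he1
  have hexp : Real.exp (-(2 * p)) < 1 := by
    rw [← Real.exp_zero]
    exact Real.exp_lt_exp.mpr (by linarith)
  have hκpos : 0 < e * (1 - Real.exp (-(2 * p))) / (2 * Real.pi) := by
    have := Real.pi_pos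
    have : 0 < 1 - Real.exp (-(2 * p)) := by linarith
    positivity
  have hhpos : 0 < e / 20 * Real.exp (-(r + 2) / 2) := by positivity
  have hh8 : e / 20 * Real.exp (-(r + 2) / 2) ≤ e / 8 := by
    have h1 : Real.exp (-(r + 2) / 2) ≤ 1 := by
      rw [← Real.exp_zero]
      exact Real.exp_le_exp.mpr (by linarith)
    have h2 : e / 20 * Real.exp (-(r + 2) / 2) ≤ e / 20 * 1 := by gcongr
    linarith
  refine ⟨e / 20 * Real.exp (-(r + 2) / 2), min (min (p / 10) (1 / 10)) δ0,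
    e * (1 - Real.exp (-(2 * p))) / (2 * Real.pi), hhpos,
    lt_min (lt_min (by positivity) (by norm_num)) hδ0, hκpos, ?_⟩
  intro F t A hP s hs
  have hδa : min (min (p / 10) (1 / 10)) δ0 ≤ p / 10 := (min_le_left _ _).trans (min_le_left _ _)
  have hδb : min (min (p / 10) (1 / 10)) δ0 ≤ 1 / 10 := (min_le_left _ _).trans (min_le_right _ _)
  have hδc : min (min (p / 10) (1 / 10)) δ0 ≤ δ0 := min_le_right _ _
  obtain ⟨J, hG⟩ := hglue F t s A hP.mv.diff hP.A0 hs (by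
    intro ζ h1 h2
    refine (hP.quiet ζ (by linarith) (by linarith)).trans ?_
    gcongr)
  obtain ⟨hD1, hD2, hD3⟩ := isOpen_D (e := e) (t := t) (s := s)
  obtain ⟨d1, d2, d3⟩ := m_diff hG
  obtain ⟨i1, i2, i3⟩ := m_inj hG
  obtain ⟨p1, p2, -, p3⟩ := m_depth hG
  refine ⟨GG p e t s A F J, ?_, fun ζ hζ hx => core_inner hG hζ hx,
    fun ζ hζ hx => core_outer hG hζ hx⟩
  exact acct hp hP.mv hP.A0 (by linarith) he (by linarith) hκpos.le core_kappa.le hP.full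
    (GG_diff hG) hD1 hD2 hD3 d1 d2 d3 i1 i2 i3
    (fun ζ hζ => core_mem_Str (by positivity) (p1 ζ hζ)) p2
    (fun ζ hζ => core_mem_Str (by positivity) (p3 ζ hζ))
    (fun ζ hζ => GG_eq1 hG hζ) (fun ζ hζ => GG_eq2 hG hζ) (fun ζ hζ => GG_eq3 hG hζ)
    (fun ζ hζ hL => lev_L1 hP hG hr hhpos le_rfl hδa hδb hζ hL)
    (fun ζ hζ hL hU => lev_L2 hP hG hr hhpos le_rfl hδa hδb hζ hL hU)
    (fun ζ hζ hL => lev_L3 hP hG hr hhpos le_rfl hδa hδb hζ hL)
    (fun ζ hζ hL hU => lev_W1 hG hζ hL hU)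
    (fun ζ hζ hL hU => lev_W2 hG hζ hL hU)

end MQV
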