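import Mathlib
import Pool.Agent.MPV.Defs

set_option autoImplicit false

/-!
# MQV : `lim A_n^{(p)} n^{1-2p}` exists for EVERY `p > 1/4` (problem MP_a1ed50_an)

Notation.  `Str` is the open strip `|Im ζ| < π/2`; `th ζ = tanh (ζ/2)` maps it conformally onto the
unit disc (`0 ↦ 0`, `+∞ ↦ 1`, `-∞ ↦ -1`), `lg` is the inverse map.  `MV Ω p F` says that `F` is
analytic on `Ω` and areally mean `p`-valent there (the area of the image, with multiplicity, is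
measured by `|F'|²`).  `Bz t` is the closed hyperbolic disc of pseudo radius `1/2` about the real
point `t` of the strip.
-/

open MeasureTheory Metric Set

namespace MQV

/-- The open strip `|Im ζ| < π/2`. -/
def Str : Set ℂ := {ζ | |ζ.im| < Real.pi / 2}

/-- Area, with multiplicity, of the part `a ≤ |F| < b` of the image of `Ω`. -/
noncomputable def ar (Ω : Set ℂ) (F : ℂ → ℂ) (a b : ℝ) : ENNReal :=
  ∫⁻ z in {z | z ∈ Ω ∧ a ≤ ‖F z‖ ∧ ‖F z‖ < b}, ENNReal.ofReal (‖deriv F z‖ ^ 2)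

/-- `F` is analytic and areally mean `p`-valent on the open set `Ω`. -/
structure MV (Ω : Set ℂ) (p : ℝ) (F : ℂ → ℂ) : Prop where
  diff : DifferentiableOn ℂ F Ω
  area : ∀ R : ℝ, 0 < R → ar Ω F 0 R ≤ ENNReal.ofReal (Real.pi * p * R ^ 2)

/-- `th ζ = tanh (ζ/2)`, the conformal map of the strip onto the unit disc. -/
noncomputable def th (ζ : ℂ) : ℂ := (Complex.exp ζ - 1) / (Complex.exp ζ + 1)

/-- The inverse of `th`. -/
noncomputable def lg (z : ℂ) : ℂ := Complex.log ((1 + z) / (1 - z))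

/-- Closed hyperbolic disc of pseudo radius `1/2` about the real point `t` of the strip. -/
def Bz (t : ℝ) : Set ℂ := {ζ | ζ ∈ Str ∧ ‖th (ζ - t)‖ ≤ 1 / 2}

/-- The level function `½ log (a² + |F|²) - ½ log (1 + |F|²/b²)`, with values in `(log a, log b)`
for `a < b`. -/
noncomputable def lv (F : ℂ → ℂ) (a b : ℝ) (ζ : ℂ) : ℝ :=
  Real.log (a ^ 2 + ‖F ζ‖ ^ 2) / 2 - Real.log (1 + ‖F ζ‖ ^ 2 / b ^ 2) / 2

/-- The complex gradient `∂_ξ v - i ∂_η v` of `v = lv F a b`. -/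
noncomputable def dv (F : ℂ → ℂ) (a b : ℝ) (ζ : ℂ) : ℂ :=
  deriv F ζ * (starRingEnd ℂ) (F ζ) *
    ((1 / (a ^ 2 + ‖F ζ‖ ^ 2) - 1 / (b ^ 2 + ‖F ζ‖ ^ 2) : ℝ) : ℂ)

/-- Continuous cutoff: `0` for `x ≤ -1/2`, `1` for `x ≥ 1/2`, slope `1` between. -/
noncomputable def cl (x : ℝ) : ℝ := max 0 (min 1 (x + 1 / 2))

/-- The rectangle `|Re ω - t| < 1/2`, `|Im ω| < H`. -/
def Qr (t H : ℝ) : Set ℂ := {ω | |ω.re - t| < 1 / 2 ∧ |ω.im| < H}

/-- The zone `|Re ω - t| < 1`, `|Im ω| < H`. -/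
def Zn (t H : ℝ) : Set ℂ := {ω | |ω.re - t| < 1 ∧ |ω.im| < H}

/-- Gaussian area Cauchy transform of `J` over `Qr t H`. -/
noncomputable def E1 (t H : ℝ) (J : ℂ → ℂ) (ζ : ℂ) : ℂ :=
  -(1 / (2 * Real.pi) : ℂ) * ∫ ω in Qr t H, J ω * Complex.exp (-(ζ - ω) ^ 2) / (ζ - ω)

/-- The transform for the two cuts at `t` and `t + s`. -/
noncomputable def E2 (t s H : ℝ) (J : ℂ → ℂ) (ζ : ℂ) : ℂ := E1 t H J ζ - E1 (t + s) H J ζ

/-- Displacement on the inner part `Re w < t + 1`. -/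
noncomputable def rin (t s H : ℝ) (J : ℂ → ℂ) (w : ℂ) : ℂ :=
  (cl (w.re - t) : ℂ) * J w + E2 t s H J w

/-- Displacement on the middle part `t - 1 < Re w < t + s + 1`. -/
noncomputable def rmid (t s H : ℝ) (J : ℂ → ℂ) (w : ℂ) : ℂ :=
  ((cl (w.re - t) - 1 - cl (w.re - t - s) : ℝ) : ℂ) * J w + E2 t s H J w

/-- Displacement on the outer part `t + s - 1 < Re w`. -/
noncomputable def rout (t s H : ℝ) (J : ℂ → ℂ) (w : ℂ) : ℂ :=
  ((1 - cl (w.re - t - s) : ℝ) : ℂ) * J w + E2 t s H J w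

/-- The pinching map of the strip (`e` small): it narrows the strip near `Re ζ = t` and near
`Re ζ = t + s`. -/
noncomputable def psi (e t s : ℝ) (ζ : ℂ) : ℂ :=
  ζ - e * (2 + th ((ζ - t) / 2) + th ((ζ - t - s) / 2))

/-- The Moebius pinch, in strip coordinates: `W ↦ W + a`, then `1/W ↦ 1/W + b`, `W = exp ζ`. -/
noncomputable def om (a b : ℝ) (ζ : ℂ) : ℂ := -Complex.log (1 / (Complex.exp ζ + a) + b)

/-- What the surgery needs to know about the function `F` (`t` = place of the cut, `F ≈ A e^{2pζ}`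
near it). -/
structure Prep (p e r h δ κ : ℝ) (F : ℂ → ℂ) (t : ℝ) (A : ℂ) : Prop where
  mv : MV Str p F
  A0 : A ≠ 0
  quiet : ∀ ζ : ℂ, |ζ.re - t| ≤ r + 2 → |ζ.im| ≤ Real.pi / 2 - h →
    ‖F ζ - A * Complex.exp (2 * p * ζ)‖ ≤ δ * (‖A‖ * Real.exp (2 * p * ζ.re))
  low : ∀ w ∈ Str, w.re ≤ t - r → e / 10 * Real.exp (-(t - w.re) / 2) ≤ Real.pi / 2 - |w.im| →
    ‖F w‖ ≤ ‖A‖ * Real.exp (2 * p * (t - 1))
  high : ∀ w ∈ Str, t + r ≤ w.re → e / 10 * Real.exp (-(w.re - t) / 2) ≤ Real.pi / 2 - |w.im| →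
    ‖A‖ * Real.exp (2 * p * (t + 1)) ≤ ‖F w‖
  full : ENNReal.ofReal (Real.pi * p * (1 - κ) * (‖A‖ * Real.exp (2 * p * t)) ^ 2) ≤
    ar Str F 0 (‖A‖ * Real.exp (2 * p * t))

end MQV
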