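import Pool.Agent.MQV.Har

set_option autoImplicit false

/-!
# MQV END : control of the level function at the two ends of a rectangle of the strip

`lv F a b - log a = ½ log(1+|F|²/a²) - ½ log(1+|F|²/b²)` lies in `[0, ½ log (1+|F|²/a²)]` for
`a ≤ b`, and `log b - lv F a b = ½ log ((b²+|F|²)/(a²+|F|²)) ≥ 0`.

* `end_left`: the region `{0 < Re ζ < X}` of the strip corresponds (via `th`) to a part of the disc
  on which the density `|dζ/dz|² = 4/|1-z²|²` is at most `C(X)`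
  (`W = e^ζ`, `1 < |W| < e^X`, `1 - z² = 4W/(W+1)²`, `|1-z²| ≥ 4|W|/(|W|+1)² ≥ 4e^X/(1+e^X)²`...
  for `|W| ∈ (1, e^X)` the minimum of `4r/(r+1)²` is at `r = e^X`).
  With `f = F ∘ lg`, `f/a` is bounded by `1` on `|z| ≤ 1/2`; use `area_mean_le`.
* `end_right`: `ζ₁ ∈ Bz T` with `|F ζ₁| = b'`; put `f z = F(lg z + T)` (so that `0 ↔ T`), bounded by
  `b'` on `|z| ≤ 1/2`, `z₁ = th (ζ₁ - T)`, `‖z₁‖ ≤ 1/2`; `g = f ∘ mob z₁`, `|g 0| = b'`,
  `|g| ≤ C b'` on `|z| ≤ 1/2` (these points have `‖mob z₁ z‖ ≤ 4/5`; `harnack`), so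
  `∫_D ½ log(1+|g|²/b'²) ≤ C` (`area_mean_le` for `g/(C b')` and
  `log(1+|g|²/b'²) ≤ log(1+|g|²/(Cb')²) + 2 log C`), hence by `sub_mean` with `a`, `b := b'`:
  `∫_D (log b' - lv g a b') ≤ C`; `log b - lv g a b ≤ log b' - lv g a b'` for `b ≤ b'`
  (monotone in `b`), then change variables back (`lint_mob`, density of the region
  `{T < Re ζ < T+1}` bounded as in `end_left`).
-/

open MeasureTheory Metric Set

namespace MQV

private theorem det_smul_one (w : ℂ) : (w • (1 : ℂ →L[ℝ] ℂ)).det = ‖w‖ ^ 2 := by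
  have h1 : ((w • (1 : ℂ →L[ℝ] ℂ) : ℂ →L[ℝ] ℂ) : ℂ →ₗ[ℝ] ℂ) = Algebra.lmul ℝ ℂ w := by
    ext z
    simp
  rw [ContinuousLinearMap.det, h1]
  have := Algebra.norm_complex_apply w
  rw [Algebra.norm_apply] at this
  rw [this, Complex.normSq_eq_norm_sq]

private theorem isOpen_slab (A B : ℝ) : IsOpen {ζ : ℂ | ζ ∈ Str ∧ A < ζ.re ∧ ζ.re < B} :=
  isOpen_Str.inter ((isOpen_lt continuous_const Complex.continuous_re).inter
    (isOpen_lt Complex.continuous_re continuous_const))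

/-- integrals over `{0 < Re ζ < X}` in the strip against integrals over the disc -/
theorem lint_strip_le (X : ℝ) (hX : 0 < X) : ∃ C : ℝ, 0 < C ∧ ∀ u : ℂ → ENNReal,
    ∫⁻ ζ in {ζ | ζ ∈ Str ∧ 0 < ζ.re ∧ ζ.re < X}, u (th ζ) ≤
      ENNReal.ofReal C * ∫⁻ z in ball (0 : ℂ) 1, u z := by
  refine ⟨4 * Real.exp X ^ 2, by positivity, fun u => ?_⟩
  set s : Set ℂ := {ζ | ζ ∈ Str ∧ 0 < ζ.re ∧ ζ.re < X} with hs
  have hso : IsOpen s := isOpen_slab 0 X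
  have hder : ∀ z ∈ s, HasFDerivWithinAt th
      ((2 * Complex.exp z / (Complex.exp z + 1) ^ 2) • (1 : ℂ →L[ℝ] ℂ)) s z := fun z hz =>
    (hasDerivAt_th hz.1).complexToReal_fderiv.hasFDerivWithinAt
  have key := lintegral_image_eq_lintegral_abs_det_fderiv_mul (volume : Measure ℂ)
    hso.measurableSet hder (th_injOn.mono fun z hz => hz.1) u
  have hsub : th '' s ⊆ ball 0 1 := by
    rintro _ ⟨z, hz, rfl⟩
    exact th_mapsTo hz.1
  have hlow : ∀ z ∈ s, (1 : ENNReal) ≤ ENNReal.ofReal (4 * Real.exp X ^ 2) * ENNReal.ofReal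
      |((2 * Complex.exp z / (Complex.exp z + 1) ^ 2) • (1 : ℂ →L[ℝ] ℂ)).det| := by
    intro z hz
    rw [det_smul_one, abs_of_nonneg (sq_nonneg _), ← ENNReal.ofReal_mul (by positivity),
      ← ENNReal.ofReal_one]
    refine ENNReal.ofReal_le_ofReal ?_
    have h1 : ‖Complex.exp z‖ = Real.exp z.re := Complex.norm_exp z
    have h2 : 1 < Real.exp z.re := Real.one_lt_exp_iff.2 hz.2.1
    have h3 : Real.exp z.re < Real.exp X := Real.exp_lt_exp.2 hz.2.2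
    have h4 : ‖Complex.exp z + 1‖ ≤ 2 * Real.exp z.re := by
      refine (norm_add_le _ _).trans ?_
      rw [h1, norm_one]
      linarith
    have h5 : Complex.exp z + 1 ≠ 0 := by
      intro h
      have h6 := exp_re_pos hz.1
      have h7 : (Complex.exp z + 1).re = 0 := by rw [h]; rfl
      rw [Complex.add_re, Complex.one_re] at h7
      linarith
    have h8 : 0 < ‖Complex.exp z + 1‖ := norm_pos_iff.2 h5
    rw [norm_div, norm_mul, norm_pow, h1, Complex.norm_ofNat]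
    have h9 : 1 ≤ 2 * Real.exp X * (2 * Real.exp z.re / ‖Complex.exp z + 1‖ ^ 2) := by
      rw [← mul_div_assoc, le_div_iff₀ (by positivity), one_mul]
      nlinarith [Real.exp_pos z.re]
    have h10 : 4 * Real.exp X ^ 2 * (2 * Real.exp z.re / ‖Complex.exp z + 1‖ ^ 2) ^ 2 =
        (2 * Real.exp X * (2 * Real.exp z.re / ‖Complex.exp z + 1‖ ^ 2)) ^ 2 := by ring
    rw [h10]
    exact one_le_pow₀ h9
  calc ∫⁻ ζ in s, u (th ζ)
      ≤ ∫⁻ ζ in s, ENNReal.ofReal (4 * Real.exp X ^ 2) * (ENNReal.ofReal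
          |((2 * Complex.exp ζ / (Complex.exp ζ + 1) ^ 2) • (1 : ℂ →L[ℝ] ℂ)).det| * u (th ζ)) := by
        refine setLIntegral_mono' hso.measurableSet fun z hz => ?_
        rw [← mul_assoc]
        calc u (th z) = 1 * u (th z) := (one_mul _).symm
          _ ≤ _ := mul_le_mul' (hlow z hz) le_rfl
    _ = ENNReal.ofReal (4 * Real.exp X ^ 2) * ∫⁻ w in th '' s, u w := by
        rw [lintegral_const_mul' _ _ ENNReal.ofReal_ne_top, key]
    _ ≤ _ := mul_le_mul' le_rfl (lintegral_mono_set hsub)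

/-- The level function above `log a`. -/
private theorem lv_sub_le {F : ℂ → ℂ} {a b : ℝ} (ha : 0 < a) (hab : a ≤ b) (ζ : ℂ) :
    lv F a b ζ - Real.log a ≤ Real.log (1 + ‖(a⁻¹ : ℂ) * F ζ‖ ^ 2) := by
  have h0 : ‖(a⁻¹ : ℂ) * F ζ‖ ^ 2 = ‖F ζ‖ ^ 2 / a ^ 2 := by
    rw [norm_mul, norm_inv, Complex.norm_real, Real.norm_of_nonneg ha.le]
    field_simp
  have h1 : Real.log (a ^ 2 + ‖F ζ‖ ^ 2) = 2 * Real.log a + Real.log (1 + ‖F ζ‖ ^ 2 / a ^ 2) := by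
    have h2 : a ^ 2 + ‖F ζ‖ ^ 2 = a ^ 2 * (1 + ‖F ζ‖ ^ 2 / a ^ 2) := by field_simp
    rw [h2, Real.log_mul (by positivity) (by positivity), Real.log_pow]
    push_cast
    ring
  have hb : 0 < b := ha.trans_le hab
  have h3 : 0 ≤ Real.log (1 + ‖F ζ‖ ^ 2 / b ^ 2) := Real.log_nonneg (by
    have : 0 ≤ ‖F ζ‖ ^ 2 / b ^ 2 := by positivity
    linarith)
  have h4 : 0 ≤ Real.log (1 + ‖F ζ‖ ^ 2 / a ^ 2) := Real.log_nonneg (by
    have : 0 ≤ ‖F ζ‖ ^ 2 / a ^ 2 := by positivity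
    linarith)
  rw [h0]
  unfold lv
  linarith

theorem end_left {p : ℝ} (hp : 0 < p) {X : ℝ} (hX : 0 < X) : ∃ C : ℝ, 0 < C ∧ ∀ F : ℂ → ℂ,
    MV Str p F → ∀ a b : ℝ, 0 < a → a ≤ b → (∀ ζ ∈ Bz 0, ‖F ζ‖ ≤ a) →
      ∫⁻ ζ in {ζ | ζ ∈ Str ∧ 0 < ζ.re ∧ ζ.re < X},
        ENNReal.ofReal (lv F a b ζ - Real.log a) ≤ ENNReal.ofReal C := by
  obtain ⟨C1, hC1, h1⟩ := lint_strip_le X hX
  obtain ⟨C2, hC2, h2⟩ := area_mean_le hp
  refine ⟨C1 * C2, by positivity, fun F hF a b ha hab hFa => ?_⟩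
  have hf : MV (ball 0 1) p (fun z => (a⁻¹ : ℂ) * F (lg z)) :=
    (hF.toBall).const_mul isOpen_ball hp.le _
  have hf1 : ∀ z : ℂ, ‖z‖ ≤ 1 / 2 → ‖(a⁻¹ : ℂ) * F (lg z)‖ ≤ 1 := by
    intro z hz
    have hz1 : z ∈ ball (0 : ℂ) 1 := by
      rw [mem_ball_zero_iff]
      linarith
    have h3 : lg z ∈ Bz 0 := by
      refine ⟨lg_mapsTo hz1, ?_⟩
      rw [Complex.ofReal_zero, sub_zero, th_lg hz1]
      exact hz
    have h4 := hFa _ h3
    rw [norm_mul, norm_inv, Complex.norm_real, Real.norm_of_nonneg ha.le, inv_mul_le_iff₀ ha,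
      mul_one]
    exact h4
  have h5 := h2 _ hf hf1
  calc ∫⁻ ζ in {ζ | ζ ∈ Str ∧ 0 < ζ.re ∧ ζ.re < X}, ENNReal.ofReal (lv F a b ζ - Real.log a)
      ≤ ∫⁻ ζ in {ζ | ζ ∈ Str ∧ 0 < ζ.re ∧ ζ.re < X},
          ENNReal.ofReal (Real.log (1 + ‖(a⁻¹ : ℂ) * F (lg (th ζ))‖ ^ 2)) := by
        refine setLIntegral_mono' (isOpen_slab 0 X).measurableSet fun ζ hζ => ?_
        refine ENNReal.ofReal_le_ofReal ?_
        rw [lg_th hζ.1]
        exact lv_sub_le ha hab ζ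
    _ ≤ ENNReal.ofReal C1 * ∫⁻ z in ball (0 : ℂ) 1,
          ENNReal.ofReal (Real.log (1 + ‖(a⁻¹ : ℂ) * F (lg z)‖ ^ 2)) :=
        h1 fun z => ENNReal.ofReal (Real.log (1 + ‖(a⁻¹ : ℂ) * F (lg z)‖ ^ 2))
    _ ≤ ENNReal.ofReal C1 * ENNReal.ofReal C2 := mul_le_mul' le_rfl h5
    _ = _ := (ENNReal.ofReal_mul hC1.le).symm

private theorem mob_den {a : ℂ} (ha : ‖a‖ < 1) {z : ℂ} (hz : ‖z‖ < 1) :
    1 + (starRingEnd ℂ) a * z ≠ 0 := by
  intro h
  have h1 : ‖(starRingEnd ℂ) a * z‖ < 1 := by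
    rw [norm_mul, Complex.norm_conj]
    calc ‖a‖ * ‖z‖ ≤ 1 * ‖z‖ := mul_le_mul_of_nonneg_right ha.le (norm_nonneg _)
      _ < 1 := by rw [one_mul]; exact hz
  have h2 : (starRingEnd ℂ) a * z = -1 := by linear_combination h
  rw [h2, norm_neg, norm_one] at h1
  exact lt_irrefl _ h1

private theorem mob_le {a z : ℂ} (ha : ‖a‖ ≤ 1 / 2) (hz : ‖z‖ ≤ 1 / 2) :
    ‖MPV.mob a z‖ ≤ 4 / 5 := by
  have hd := mob_den (a := a) (z := z) (by linarith) (by linarith)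
  rw [MPV.mob, norm_div, div_le_iff₀ (norm_pos_iff.2 hd)]
  refine (pow_le_pow_iff_left₀ (norm_nonneg _) (by positivity) two_ne_zero).1 ?_
  have ha2 : ‖a‖ ^ 2 ≤ 1 / 4 := by nlinarith [norm_nonneg a]
  have hz2 : ‖z‖ ^ 2 ≤ 1 / 4 := by nlinarith [norm_nonneg z]
  rw [mul_pow]
  simp only [← Complex.normSq_eq_norm_sq, Complex.normSq_apply, Complex.add_re, Complex.add_im,
    Complex.mul_re, Complex.mul_im, Complex.conj_re, Complex.conj_im, Complex.one_re,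
    Complex.one_im] at ha2 hz2 ⊢
  nlinarith [sq_nonneg (a.re - z.re), sq_nonneg (a.im - z.im),
    mul_nonneg (sub_nonneg.2 ha2) (sub_nonneg.2 hz2)]

private theorem alg {a c z : ℂ} (h1 : 1 - c * z ≠ 0) (h2 : 1 - c * a ≠ 0) :
    ((z - a) / (1 - c * z) + a) / (1 + c * ((z - a) / (1 - c * z))) = z := by
  have e1 : (z - a) / (1 - c * z) + a = z * (1 - c * a) / (1 - c * z) := by
    rw [div_add' _ _ _ h1]
    congr 1
    ring
  have e2 : 1 + c * ((z - a) / (1 - c * z)) = (1 - c * a) / (1 - c * z) := by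
    rw [← mul_div_assoc, add_div' _ _ _ h1]
    congr 1
    ring
  rw [e1, e2, div_div_div_cancel_right₀ h1, mul_div_assoc, div_self h2, mul_one]

private theorem mob_mob {a z : ℂ} (ha : ‖a‖ < 1) (hz : ‖z‖ < 1) :
    MPV.mob a (MPV.mob (-a) z) = z := by
  have hd := mob_den (a := -a) (z := z) (by rwa [norm_neg]) hz
  have hd2 := mob_den (a := a) (z := -a) ha (by rwa [norm_neg])
  rw [map_neg, neg_mul, ← sub_eq_add_neg] at hd
  rw [mul_neg, ← sub_eq_add_neg] at hd2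
  unfold MPV.mob
  rw [map_neg, neg_mul, ← sub_eq_add_neg, ← sub_eq_add_neg]
  exact alg hd hd2

/-- The level function below `log b`, increasing in `b`. -/
private theorem sub_lv_mono {F : ℂ → ℂ} {a b b' : ℝ} (hb : 0 < b) (hbb : b ≤ b') (ζ : ℂ) :
    Real.log b - lv F a b ζ ≤ Real.log b' - lv F a b' ζ := by
  have h : ∀ c : ℝ, 0 < c → 2 * Real.log c + Real.log (1 + ‖F ζ‖ ^ 2 / c ^ 2) =
      Real.log (c ^ 2 + ‖F ζ‖ ^ 2) := by
    intro c hc
    have h2 : c ^ 2 + ‖F ζ‖ ^ 2 = c ^ 2 * (1 + ‖F ζ‖ ^ 2 / c ^ 2) := by field_simp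
    rw [h2, Real.log_mul (by positivity) (by positivity), Real.log_pow]
    push_cast
    ring
  have h1 := h b hb
  have h2 := h b' (hb.trans_le hbb)
  have h3 : Real.log (b ^ 2 + ‖F ζ‖ ^ 2) ≤ Real.log (b' ^ 2 + ‖F ζ‖ ^ 2) :=
    Real.log_le_log (by positivity) (by gcongr)
  unfold lv
  linarith

theorem end_right {p : ℝ} (hp : 0 < p) : ∃ C : ℝ, 0 < C ∧ ∀ F : ℂ → ℂ, MV Str p F →
    ∀ T a b b' : ℝ, 0 < a → a ≤ b → b ≤ b' → (∀ ζ ∈ Bz T, ‖F ζ‖ ≤ b') →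
      (∃ ζ ∈ Bz T, b' ≤ ‖F ζ‖) →
      ∫⁻ ζ in {ζ | ζ ∈ Str ∧ T < ζ.re ∧ ζ.re < T + 1},
        ENNReal.ofReal (Real.log b - lv F a b ζ) ≤ ENNReal.ofReal C := by
  obtain ⟨C0, hC0, h0⟩ := lint_strip_le 1 one_pos
  obtain ⟨C1, hC1, h1⟩ := harnack hp (ρ := 4 / 5) (by norm_num) (by norm_num)
  obtain ⟨C2, hC2, h2⟩ := area_mean_le hp
  have hl1 : 0 ≤ Real.log C1 := Real.log_nonneg hC1
  refine ⟨C0 * (9 * (2 * Real.log C1 * Real.pi + C2)), by positivity,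
    fun F hF T a b b' ha hab hbb hFb hζ₁ => ?_⟩
  obtain ⟨ζ₁, hζ₁, hFζ₁⟩ := hζ₁
  have hb : 0 < b := ha.trans_le hab
  have hb' : 0 < b' := hb.trans_le hbb
  set f : ℂ → ℂ := fun z => F (lg z + T) with hfdef
  have hf : MV (ball 0 1) p f := (hF.shift T).toBall
  set z₁ : ℂ := th (ζ₁ - T) with hz₁
  have hz₁n : ‖z₁‖ ≤ 1 / 2 := hζ₁.2
  have hz₁1 : ‖z₁‖ < 1 := by linarith
  have hfz₁ : f z₁ = F ζ₁ := by
    have h3 : ζ₁ - (T : ℂ) ∈ Str := (Str_sub_real T).2 hζ₁.1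
    rw [hfdef]
    simp only
    rw [hz₁, lg_th h3, sub_add_cancel]
  have hfb : ∀ z : ℂ, ‖z‖ ≤ 1 / 2 → ‖f z‖ ≤ b' := by
    intro z hz
    have hz1 : z ∈ ball (0 : ℂ) 1 := by
      rw [mem_ball_zero_iff]
      linarith
    refine hFb _ ⟨(Str_add_real T).2 (lg_mapsTo hz1), ?_⟩
    rw [add_sub_cancel_right, th_lg hz1]
    exact hz
  set g : ℂ → ℂ := fun z => f (MPV.mob z₁ z) with hgdef
  have hg : MV (ball 0 1) p g := hf.mob hz₁1
  have hg0 : b' ≤ ‖g 0‖ := by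
    have h3 : MPV.mob z₁ 0 = z₁ := by
      unfold MPV.mob
      simp
    rw [hgdef]
    simp only
    rw [h3, hfz₁]
    exact hFζ₁
  have hgb : ∀ z : ℂ, ‖z‖ ≤ 1 / 2 → ‖g z‖ ≤ C1 * b' := fun z hz =>
    h1 f hf b' hb' hfb _ (mob_le hz₁n hz)
  have hC1b : 0 < C1 * b' := by positivity
  have hg1 : MV (ball 0 1) p (fun z => (((C1 * b')⁻¹ : ℝ) : ℂ) * g z) :=
    hg.const_mul isOpen_ball hp.le _
  have hnorm : ∀ z : ℂ, ‖(((C1 * b')⁻¹ : ℝ) : ℂ) * g z‖ = ‖g z‖ / (C1 * b') := by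
    intro z
    rw [norm_mul, Complex.norm_real, Real.norm_of_nonneg (by positivity)]
    field_simp
  have h4 := h2 _ hg1 (fun z hz => by
    rw [hnorm, div_le_one hC1b]
    exact hgb z hz)
  have h5 := sub_mean hg.diff ha (hab.trans hbb) hg0
  have h6 : ∫⁻ z in ball (0 : ℂ) 1, ENNReal.ofReal (Real.log (1 + ‖g z‖ ^ 2 / b' ^ 2) / 2) ≤
      ENNReal.ofReal (2 * Real.log C1 * Real.pi + C2) := by
    have hpt : ∀ z : ℂ, ENNReal.ofReal (Real.log (1 + ‖g z‖ ^ 2 / b' ^ 2) / 2) ≤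
        ENNReal.ofReal (2 * Real.log C1) +
          ENNReal.ofReal (Real.log (1 + ‖(((C1 * b')⁻¹ : ℝ) : ℂ) * g z‖ ^ 2)) := by
      intro z
      have e1 : 0 ≤ Real.log (1 + ‖(((C1 * b')⁻¹ : ℝ) : ℂ) * g z‖ ^ 2) :=
        Real.log_nonneg (by
          have : 0 ≤ ‖(((C1 * b')⁻¹ : ℝ) : ℂ) * g z‖ ^ 2 := by positivity
          linarith)
      rw [← ENNReal.ofReal_add (by positivity) e1]
      refine ENNReal.ofReal_le_ofReal ?_
      have e2 : 0 ≤ Real.log (1 + ‖g z‖ ^ 2 / b' ^ 2) := Real.log_nonneg (by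
        have : 0 ≤ ‖g z‖ ^ 2 / b' ^ 2 := by positivity
        linarith)
      have e3 : Real.log (1 + ‖g z‖ ^ 2 / b' ^ 2) ≤
          2 * Real.log C1 + Real.log (1 + ‖(((C1 * b')⁻¹ : ℝ) : ℂ) * g z‖ ^ 2) := by
        have e4 : 2 * Real.log C1 + Real.log (1 + ‖(((C1 * b')⁻¹ : ℝ) : ℂ) * g z‖ ^ 2) =
            Real.log (C1 ^ 2 * (1 + ‖(((C1 * b')⁻¹ : ℝ) : ℂ) * g z‖ ^ 2)) := by
          rw [Real.log_mul (by positivity) (by positivity), Real.log_pow]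
          push_cast
          ring
        rw [e4]
        refine Real.log_le_log (by positivity) ?_
        rw [hnorm]
        have e5 : C1 ^ 2 * (1 + (‖g z‖ / (C1 * b')) ^ 2) = C1 ^ 2 + ‖g z‖ ^ 2 / b' ^ 2 := by
          field_simp
        rw [e5]
        nlinarith
      linarith
    calc ∫⁻ z in ball (0 : ℂ) 1, ENNReal.ofReal (Real.log (1 + ‖g z‖ ^ 2 / b' ^ 2) / 2)
        ≤ ∫⁻ z in ball (0 : ℂ) 1, (ENNReal.ofReal (2 * Real.log C1) +
          ENNReal.ofReal (Real.log (1 + ‖(((C1 * b')⁻¹ : ℝ) : ℂ) * g z‖ ^ 2))) :=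
          lintegral_mono hpt
      _ = ENNReal.ofReal (2 * Real.log C1) * volume (ball (0 : ℂ) 1) + ∫⁻ z in ball (0 : ℂ) 1,
          ENNReal.ofReal (Real.log (1 + ‖(((C1 * b')⁻¹ : ℝ) : ℂ) * g z‖ ^ 2)) := by
          rw [lintegral_add_left measurable_const, setLIntegral_const]
      _ ≤ ENNReal.ofReal (2 * Real.log C1) * ENNReal.ofReal Real.pi + ENNReal.ofReal C2 := by
          refine add_le_add ?_ h4
          rw [Complex.volume_ball, ENNReal.ofReal_one, one_pow, one_mul]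
          refine mul_le_mul' le_rfl ?_
          rw [← NNReal.coe_real_pi, ENNReal.ofReal_coe_nnreal]
      _ = _ := by
          rw [← ENNReal.ofReal_mul (by positivity), ← ENNReal.ofReal_add (by positivity) hC2.le]
  have h7 : ∫⁻ z in ball (0 : ℂ) 1, ENNReal.ofReal (Real.log b' - lv f a b' z) ≤
      ENNReal.ofReal 9 * ∫⁻ z in ball (0 : ℂ) 1, ENNReal.ofReal (Real.log b' - lv g a b' z) := by
    have hn : ‖-z₁‖ < 1 := by rwa [norm_neg]
    have h8 := lint_mob hn (u := fun z => ENNReal.ofReal (Real.log b' - lv g a b' z))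
    have h9 : ∫⁻ z in ball (0 : ℂ) 1, ENNReal.ofReal (Real.log b' - lv f a b' z) =
        ∫⁻ z in ball (0 : ℂ) 1, ENNReal.ofReal (Real.log b' - lv g a b' (MPV.mob (-z₁) z)) := by
      refine setLIntegral_congr_fun isOpen_ball.measurableSet fun z hz => ?_
      have e : g (MPV.mob (-z₁) z) = f z := by
        rw [hgdef]
        simp only
        rw [mob_mob hz₁1 (mem_ball_zero_iff.1 hz)]
      simp only [lv, e]
    rw [h9]
    refine h8.trans (mul_le_mul' (ENNReal.ofReal_le_ofReal ?_) le_rfl)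
    rw [norm_neg]
    have h10 : (1 + ‖z₁‖) / (1 - ‖z₁‖) ≤ 3 := by
      rw [div_le_iff₀ (by linarith)]
      linarith
    have h11 : 0 ≤ (1 + ‖z₁‖) / (1 - ‖z₁‖) := div_nonneg (by positivity) (by linarith)
    nlinarith
  have htr : ∫⁻ ζ in {ζ | ζ ∈ Str ∧ T < ζ.re ∧ ζ.re < T + 1},
        ENNReal.ofReal (Real.log b - lv F a b ζ) =
      ∫⁻ ζ in {ζ | ζ ∈ Str ∧ 0 < ζ.re ∧ ζ.re < 1},
        ENNReal.ofReal (Real.log b - lv F a b (ζ + T)) := by
    have hmp : MeasurePreserving (fun ζ : ℂ => ζ + (T : ℂ)) volume volume :=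
      measurePreserving_add_right volume (T : ℂ)
    have hpre : (fun ζ : ℂ => ζ + (T : ℂ)) ⁻¹' {ζ | ζ ∈ Str ∧ T < ζ.re ∧ ζ.re < T + 1} =
        {ζ | ζ ∈ Str ∧ 0 < ζ.re ∧ ζ.re < 1} := by
      ext ζ
      simp only [Set.mem_preimage, Set.mem_ofPred_eq, Str_add_real, Complex.add_re,
        Complex.ofReal_re]
      constructor
      · rintro ⟨h1, h2, h3⟩
        exact ⟨h1, by linarith, by linarith⟩
      · rintro ⟨h1, h2, h3⟩
        exact ⟨h1, by linarith, by linarith⟩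
    have hemb : MeasurableEmbedding (fun ζ : ℂ => ζ + (T : ℂ)) :=
      (MeasurableEquiv.addRight (T : ℂ)).measurableEmbedding
    rw [← hpre]
    exact (hmp.setLIntegral_comp_preimage_emb hemb
      (fun ζ => ENNReal.ofReal (Real.log b - lv F a b ζ)) _).symm
  rw [htr]
  calc ∫⁻ ζ in {ζ | ζ ∈ Str ∧ 0 < ζ.re ∧ ζ.re < 1},
        ENNReal.ofReal (Real.log b - lv F a b (ζ + T))
      ≤ ∫⁻ ζ in {ζ | ζ ∈ Str ∧ 0 < ζ.re ∧ ζ.re < 1},
        ENNReal.ofReal (Real.log b' - lv f a b' (th ζ)) := by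
        refine setLIntegral_mono' (isOpen_slab 0 1).measurableSet fun ζ hζ => ?_
        refine ENNReal.ofReal_le_ofReal ?_
        have e : lv f a b' (th ζ) = lv F a b' (ζ + T) := by
          simp only [lv, hfdef]
          rw [lg_th hζ.1]
        rw [e]
        exact sub_lv_mono hb hbb _
    _ ≤ ENNReal.ofReal C0 * ∫⁻ z in ball (0 : ℂ) 1,
          ENNReal.ofReal (Real.log b' - lv f a b' z) :=
        h0 fun z => ENNReal.ofReal (Real.log b' - lv f a b' z)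
    _ ≤ ENNReal.ofReal C0 * (ENNReal.ofReal 9 *
          ENNReal.ofReal (2 * Real.log C1 * Real.pi + C2)) :=
        mul_le_mul' le_rfl (h7.trans (mul_le_mul' le_rfl (h5.trans h6)))
    _ = _ := by
        rw [← ENNReal.ofReal_mul (by norm_num), ← ENNReal.ofReal_mul hC0.le]

end MQV
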