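import Pool.Agent.MQV.Lam
import Pool.Agent.MQV.Cof

set_option autoImplicit false

/-!
# MQV EST : the far part is small where the function is small

`G = gs f n` on the open set `Rg n K`, where `‖G‖ ≤ M`.

* `far_first`: `w ↦ e^{-w/n}` is analytic and injective on `Rg n K` (two points with the same image
  differ by a multiple of `2πin`, and `|Im w - Im w'| < 2πn`), with values in the disc (`exp_mem`),
  so `MV (Rg n K) p G` (`MV.comp`); `lay_pow` for `Ω = Rg n K`, where `{‖G‖ ≤ M}` is everything.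
* `far_second`: `(1+y²)^(l/2) ≤ 1 + y^l` (`0 < l/2 ≤ 1`, `Real.add_rpow_le_rpow_add`-type
  subadditivity, e.g. `Real.rpow_add_le_add_rpow`), `Rg n K ⊆ {1<x<2, |y|<πn}`, Tonelli and for each
  `x`: `∫_{|y|<πn} ‖G(x+iy)‖^l dy = n ∫_{-π}^{π} ‖f(e^{-x/n} e^{-iθ})‖^l dθ ≤ n C (1-e^{-x/n})^(1-2pl)
  ≤ n C (2n)^(2pl-1)` (`lam`, `circleMap`, `gap_ge`; periodicity of `circleMap`).  Total
  `2πn + C n (2n)^(2pl-1) ≤ C' n^(2pl)`.
* `est`: `co_far` and the Cauchy-Schwarz inequality (`ENNReal.lintegral_mul_le_Lp_mul_Lq`, `p = q = 2`)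
  `∫⁻ ‖G'‖ ≤ (∫⁻ ‖G'‖² (1+‖G‖²)^(-l/2))^(1/2) (∫⁻ (1+‖G‖²)^(l/2))^(1/2)
   ≤ (C M^(2-l))^(1/2) (C' n^(2pl))^(1/2) = C'' M^(1-l/2) n^(pl)`.
-/

open MeasureTheory Metric Set

namespace MQV

private theorem pos_of_mem {n : ℕ} {K : ℝ} : Rg n K ⊆ {w : ℂ | 0 < w.re} := fun w hw => by
  have h : 1 < w.re := hw.1
  show 0 < w.re
  linarith

private theorem isOpen_half : IsOpen {w : ℂ | 0 < w.re} :=
  isOpen_lt continuous_const Complex.continuous_re

private theorem gs_cont {f : ℂ → ℂ} (hf : DifferentiableOn ℂ f (ball 0 1)) {n : ℕ} (hn : 1 ≤ n) :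
    ContinuousOn (gs f n) {w : ℂ | 0 < w.re} := (gs_diff hf hn).continuousOn

private theorem dgs_cont {f : ℂ → ℂ} (hf : DifferentiableOn ℂ f (ball 0 1)) {n : ℕ} (hn : 1 ≤ n) :
    ContinuousOn (deriv (gs f n)) {w : ℂ | 0 < w.re} :=
  ((gs_diff hf hn).deriv isOpen_half).continuousOn

theorem far_first {p l : ℝ} (hp : 0 < p) (hl : 0 < l) (hl2 : l < 2) : ∃ C : ℝ, 0 < C ∧
    ∀ f : ℂ → ℂ, MV (ball 0 1) p f → ∀ (n : ℕ) (K M : ℝ), 1 ≤ n → 0 ≤ K → 1 ≤ M →
      (∀ w ∈ Rg n K, ‖gs f n w‖ ≤ M) →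
      ∫⁻ w in Rg n K, ENNReal.ofReal (‖deriv (gs f n) w‖ ^ 2 * (1 + ‖gs f n w‖ ^ 2) ^ (-(l / 2))) ≤
        ENNReal.ofReal (C * M ^ (2 - l)) := by
  obtain ⟨C, hC, h⟩ := lay_pow (p := p) (l := l) hp.le hl hl2
  refine ⟨C, hC, fun f hf n K M hn _ hM hb => ?_⟩
  have hn0 : (0 : ℝ) < n := by exact_mod_cast hn
  have hnC : (n : ℂ) ≠ 0 := by exact_mod_cast hn0.ne'
  have hmv : MV (Rg n K) p (gs f n) := by
    refine MV.comp (φ := fun w => Complex.exp (-w / n)) (isOpen_Rg n K) isOpen_ball hf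
      (by fun_prop) ?_ ?_
    · intro w hw
      exact exp_mem hn (pos_of_mem hw)
    · intro w hw w' hw' he
      obtain ⟨k, hk⟩ := Complex.exp_eq_exp_iff_exists_int.1 he
      have h3 : w - w' = -(k * (2 * Real.pi * Complex.I)) * n := by
        have h4 := congrArg (fun z => z * (n : ℂ)) hk
        simp only [add_mul, div_mul_cancel₀ _ hnC] at h4
        linear_combination -h4
      have h5 : w.im - w'.im = -(2 * Real.pi * n) * k := by
        have h6 := congrArg Complex.im h3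
        have h7 : -((k : ℂ) * (2 * Real.pi * Complex.I)) * n =
            ((-(2 * Real.pi * n) * k : ℝ) : ℂ) * Complex.I := by
          push_cast
          ring
        rw [h7] at h6
        simpa using h6
      have h8 : |w.im| < Real.pi * n := hw.2.2.2
      have h9 : |w'.im| < Real.pi * n := hw'.2.2.2
      have hk0 : k = 0 := by
        by_contra hne
        have h10 : (1 : ℝ) ≤ |(k : ℝ)| := by
          have := Int.one_le_abs hne
          exact_mod_cast this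
        have h11 : |w.im - w'.im| = 2 * Real.pi * n * |(k : ℝ)| := by
          rw [h5, abs_mul, abs_neg, abs_of_pos (by positivity)]
        have h12 : |w.im - w'.im| < 2 * Real.pi * n := by
          refine (abs_sub _ _).trans_lt ?_
          linarith
        have h13 : 2 * Real.pi * n * 1 ≤ 2 * Real.pi * n * |(k : ℝ)| :=
          mul_le_mul_of_nonneg_left h10 (by positivity)
        linarith
      rw [hk0] at h3
      simp only [Int.cast_zero, zero_mul, neg_zero] at h3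
      exact sub_eq_zero.1 h3
  have h1 := h (Rg n K) (gs f n) M (isOpen_Rg n K) hmv hM
  have h2 : {z | z ∈ Rg n K ∧ ‖gs f n z‖ ≤ M} = Rg n K := by
    ext w
    exact ⟨fun h => h.1, fun h => ⟨h, hb w h⟩⟩
  rwa [h2] at h1

private theorem rpow_le_add {y l : ℝ} (hy : 0 ≤ y) (hl : 0 < l) (hl2 : l < 2) :
    (1 + y ^ 2) ^ (l / 2) ≤ 1 + y ^ l := by
  have h := Real.rpow_add_le_add_rpow zero_le_one (sq_nonneg y) (show 0 ≤ l / 2 by linarith)
    (show l / 2 ≤ 1 by linarith)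
  have h3 : (y ^ 2) ^ (l / 2) = y ^ l := by
    rw [← Real.rpow_natCast, ← Real.rpow_mul hy]
    congr 1
    push_cast
    ring
  rw [Real.one_rpow, h3] at h
  exact h

private theorem gs_line (f : ℂ → ℂ) {n : ℕ} (hn : 1 ≤ n) (x y : ℝ) :
    gs f n (x + y * Complex.I) = f (circleMap 0 (Real.exp (-x / n)) (-(1 / (n : ℝ)) * y)) := by
  have hn0 : (n : ℂ) ≠ 0 := by exact_mod_cast (by omega : n ≠ 0)
  unfold gs circleMap
  congr 1
  push_cast
  rw [zero_add, ← Complex.exp_add]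
  congr 1
  field_simp
  ring

private theorem line_pow {f : ℂ → ℂ} (l : ℝ) {n : ℕ} (hn : 1 ≤ n) (x : ℝ) :
    ∫ y in (-(Real.pi * n))..(Real.pi * n), ‖gs f n (x + y * Complex.I)‖ ^ l =
      n * ∫ t in (0 : ℝ)..2 * Real.pi, ‖f (circleMap 0 (Real.exp (-x / n)) t)‖ ^ l := by
  have hn0 : (n : ℝ) ≠ 0 := by exact_mod_cast (by omega : n ≠ 0)
  simp only [gs_line f hn]
  have hc : -(1 / (n : ℝ)) ≠ 0 := neg_ne_zero.2 (one_div_ne_zero hn0)
  rw [intervalIntegral.integral_comp_mul_left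
    (fun t => ‖f (circleMap 0 (Real.exp (-x / n)) t)‖ ^ l) hc]
  have h1 : -(1 / (n : ℝ)) * -(Real.pi * n) = Real.pi := by field_simp
  have h2 : -(1 / (n : ℝ)) * (Real.pi * n) = -Real.pi := by field_simp
  rw [h1, h2, intervalIntegral.integral_symm]
  have hper : Function.Periodic (fun t => ‖f (circleMap 0 (Real.exp (-x / n)) t)‖ ^ l)
      (2 * Real.pi) := fun t => by
    simp only [periodic_circleMap 0 (Real.exp (-x / n)) t]
  have h3 := hper.intervalIntegral_add_eq (-Real.pi) 0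
  rw [zero_add, show -Real.pi + 2 * Real.pi = Real.pi by ring] at h3
  rw [h3, smul_eq_mul]
  field_simp

private theorem box_eq (a : ℝ) : {w : ℂ | (1 < w.re ∧ w.re < 2) ∧ |w.im| < a} =
    Complex.measurableEquivRealProd ⁻¹' (Ioo (1 : ℝ) 2 ×ˢ Ioo (-a) a) := by
  ext w
  simp only [mem_ofPred_eq, mem_preimage, mem_prod, mem_Ioo, abs_lt,
    Complex.measurableEquivRealProd_apply]

private theorem box_int {u : ℂ → ENNReal} {a : ℝ}
    (hu : AEMeasurable (fun b : ℝ × ℝ => u (b.1 + b.2 * Complex.I))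
      ((volume.restrict (Ioo (1 : ℝ) 2)).prod (volume.restrict (Ioo (-a) a)))) :
    ∫⁻ w in {w : ℂ | (1 < w.re ∧ w.re < 2) ∧ |w.im| < a}, u w =
      ∫⁻ x in Ioo (1 : ℝ) 2, ∫⁻ y in Ioo (-a) a, u (x + y * Complex.I) := by
  have hmp := Complex.volume_preserving_equiv_real_prod
  have h1 := hmp.setLIntegral_comp_preimage_emb (MeasurableEquiv.measurableEmbedding _)
    (fun b : ℝ × ℝ => u (b.1 + b.2 * Complex.I)) (Ioo (1 : ℝ) 2 ×ˢ Ioo (-a) a)
  have h2 : ∫⁻ w in {w : ℂ | (1 < w.re ∧ w.re < 2) ∧ |w.im| < a}, u w =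
      ∫⁻ b in Ioo (1 : ℝ) 2 ×ˢ Ioo (-a) a, u (b.1 + b.2 * Complex.I) := by
    rw [box_eq, ← h1]
    refine lintegral_congr fun w => ?_
    simp only [Complex.measurableEquivRealProd_apply, Complex.re_add_im]
  rw [h2, Measure.volume_eq_prod, ← Measure.prod_restrict, lintegral_prod _ hu]

theorem far_second {p l : ℝ} (hp : 0 < p) (hl : 1 < 2 * p * l) (hl2 : l < 2) : ∃ C : ℝ, 0 < C ∧
    ∀ f : ℂ → ℂ, Nd p f → ∀ (n : ℕ) (K : ℝ), 1 ≤ n → 0 ≤ K →
      ∫⁻ w in Rg n K, ENNReal.ofReal ((1 + ‖gs f n w‖ ^ 2) ^ (l / 2)) ≤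
        ENNReal.ofReal (C * (n : ℝ) ^ (2 * p * l)) := by
  have hpi := Real.pi_pos
  have hl0 : 0 < l := by
    by_contra h
    push Not at h
    nlinarith
  obtain ⟨C, hC, h⟩ := lam hp hl hl2
  refine ⟨2 * Real.pi + C * 2 ^ (2 * p * l - 1), by positivity, fun f hf n K hn _ => ?_⟩
  have hn1 : (1 : ℝ) ≤ n := by exact_mod_cast hn
  have hn0 : (0 : ℝ) < n := by linarith
  have hdf := hf.mv.diff
  have hgc := gs_cont hdf hn
  set a : ℝ := Real.pi * n with ha
  have ha0 : 0 < a := by positivity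
  -- enlarge and estimate
  have h1 : ∫⁻ w in Rg n K, ENNReal.ofReal ((1 + ‖gs f n w‖ ^ 2) ^ (l / 2)) ≤
      ∫⁻ w in {w : ℂ | (1 < w.re ∧ w.re < 2) ∧ |w.im| < a},
        ENNReal.ofReal (1 + ‖gs f n w‖ ^ l) := by
    refine (lintegral_mono fun w => ENNReal.ofReal_le_ofReal
      (rpow_le_add (norm_nonneg _) hl0 hl2)).trans (lintegral_mono_set ?_)
    exact fun w hw => ⟨⟨hw.1, hw.2.1⟩, hw.2.2.2⟩
  refine h1.trans ?_
  have hcont : ContinuousOn (fun b : ℝ × ℝ => ‖gs f n ((b.1 : ℂ) + b.2 * Complex.I)‖ ^ l)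
      (Ioo (1 : ℝ) 2 ×ˢ Ioo (-a) a) := by
    refine ContinuousOn.rpow_const ?_ (fun _ _ => Or.inr hl0.le)
    refine (hgc.comp (by fun_prop) ?_).norm
    intro b hb
    have : 1 < b.1 := hb.1.1
    show 0 < ((b.1 : ℂ) + b.2 * Complex.I).re
    simp only [Complex.add_re, Complex.ofReal_re, Complex.mul_re, Complex.I_re, mul_zero,
      Complex.ofReal_im, Complex.I_im, mul_one, sub_self, add_zero]
    linarith
  have hmeas : AEMeasurable (fun b : ℝ × ℝ =>
      ENNReal.ofReal (1 + ‖gs f n ((b.1 : ℂ) + b.2 * Complex.I)‖ ^ l))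
      ((volume.restrict (Ioo (1 : ℝ) 2)).prod (volume.restrict (Ioo (-a) a))) := by
    rw [Measure.prod_restrict]
    refine ENNReal.measurable_ofReal.comp_aemeasurable ?_
    exact (continuousOn_const.add hcont).aemeasurable (measurableSet_Ioo.prod measurableSet_Ioo)
  rw [box_int (u := fun w => ENNReal.ofReal (1 + ‖gs f n w‖ ^ l)) hmeas]
  have h2 : ∀ x ∈ Ioo (1 : ℝ) 2, ∫⁻ y in Ioo (-a) a,
      ENNReal.ofReal (1 + ‖gs f n ((x : ℂ) + y * Complex.I)‖ ^ l) ≤
      ENNReal.ofReal ((2 * Real.pi + C * 2 ^ (2 * p * l - 1)) * (n : ℝ) ^ (2 * p * l)) := by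
    intro x hx
    have hc : Continuous fun y : ℝ => ‖gs f n ((x : ℂ) + y * Complex.I)‖ ^ l := by
      refine Continuous.rpow_const ?_ (fun _ => Or.inr hl0.le)
      refine (hgc.comp_continuous (by fun_prop) ?_).norm
      intro y
      have : 1 < x := hx.1
      show 0 < ((x : ℂ) + y * Complex.I).re
      simp only [Complex.add_re, Complex.ofReal_re, Complex.mul_re, Complex.I_re, mul_zero,
        Complex.ofReal_im, Complex.I_im, mul_one, sub_self, add_zero]
      linarith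
    rw [← ofReal_integral_eq_lintegral_ofReal]
    · apply ENNReal.ofReal_le_ofReal
      rw [← integral_Ioc_eq_integral_Ioo, ← intervalIntegral.integral_of_le (by linarith),
        intervalIntegral.integral_add intervalIntegrable_const (hc.intervalIntegrable _ _),
        intervalIntegral.integral_const, line_pow l hn x, smul_eq_mul, mul_one]
      have hr0 : 0 < Real.exp (-x / n) := Real.exp_pos _
      have hnorm : ‖Complex.exp (-(x : ℂ) / n)‖ = Real.exp (-x / n) := by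
        rw [norm_exp_div, Complex.ofReal_re]
      have hg : 1 / (2 * (n : ℝ)) ≤ 1 - Real.exp (-x / n) := by
        have := gap_ge (w := (x : ℂ)) hn (by rw [Complex.ofReal_re]; exact hx.1.le)
        rwa [hnorm] at this
      have hr1 : Real.exp (-x / n) < 1 := by
        have : 0 < 1 / (2 * (n : ℝ)) := by positivity
        linarith
      have h3 := h f hf _ hr0 hr1
      have h4 : (1 - Real.exp (-x / n)) ^ (1 - 2 * p * l) ≤ (2 * (n : ℝ)) ^ (2 * p * l - 1) := by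
        have h5 : (1 - Real.exp (-x / n)) ^ (1 - 2 * p * l) ≤
            (1 / (2 * (n : ℝ))) ^ (1 - 2 * p * l) :=
          Real.rpow_le_rpow_of_nonpos (by positivity) hg (by linarith)
        refine h5.trans (le_of_eq ?_)
        rw [one_div, Real.inv_rpow (by positivity), ← Real.rpow_neg (by positivity)]
        congr 1
        ring
      have h6 : (n : ℝ) ≤ (n : ℝ) ^ (2 * p * l) := by
        conv_lhs => rw [← Real.rpow_one (n : ℝ)]
        exact Real.rpow_le_rpow_of_exponent_le hn1 hl.le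
      have h7 : (n : ℝ) * (2 * (n : ℝ)) ^ (2 * p * l - 1) =
          2 ^ (2 * p * l - 1) * (n : ℝ) ^ (2 * p * l) := by
        rw [Real.mul_rpow (by norm_num) hn0.le]
        have : (n : ℝ) ^ (2 * p * l) = n * (n : ℝ) ^ (2 * p * l - 1) := by
          conv_rhs => rw [← Real.rpow_one_add' hn0.le (by linarith : 1 + (2 * p * l - 1) ≠ 0)]
          congr 1
          ring
        rw [this]
        ring
      have h8 : a - -a = 2 * Real.pi * n := by rw [ha]; ring
      rw [h8]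
      calc 2 * Real.pi * n + n * ∫ t in (0 : ℝ)..2 * Real.pi,
            ‖f (circleMap 0 (Real.exp (-x / n)) t)‖ ^ l
          ≤ 2 * Real.pi * n + n * (C * (2 * (n : ℝ)) ^ (2 * p * l - 1)) := by
            gcongr
            exact h3.trans (mul_le_mul_of_nonneg_left h4 hC.le)
        _ = 2 * Real.pi * n + C * (2 ^ (2 * p * l - 1) * (n : ℝ) ^ (2 * p * l)) := by
            rw [← h7]; ring
        _ ≤ 2 * Real.pi * (n : ℝ) ^ (2 * p * l) +
            C * (2 ^ (2 * p * l - 1) * (n : ℝ) ^ (2 * p * l)) := by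
            gcongr
        _ = _ := by ring
    · exact ((continuous_const.add hc).integrableOn_Icc.mono_set Ioo_subset_Icc_self)
    · exact Filter.Eventually.of_forall fun y => by positivity
  calc ∫⁻ x in Ioo (1 : ℝ) 2, ∫⁻ y in Ioo (-a) a,
        ENNReal.ofReal (1 + ‖gs f n ((x : ℂ) + y * Complex.I)‖ ^ l)
      ≤ ∫⁻ _x in Ioo (1 : ℝ) 2,
        ENNReal.ofReal ((2 * Real.pi + C * 2 ^ (2 * p * l - 1)) * (n : ℝ) ^ (2 * p * l)) :=
        setLIntegral_mono measurable_const h2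
    _ = _ := by
        rw [lintegral_const, Measure.restrict_apply_univ, Real.volume_Ioo]
        norm_num

private theorem sqrt_ofReal {x : ℝ} (hx : 0 ≤ x) :
    (ENNReal.ofReal x) ^ (1 / (2 : ℝ)) = ENNReal.ofReal (x ^ (1 / (2 : ℝ))) :=
  ENNReal.ofReal_rpow_of_nonneg hx (by norm_num)

private theorem cs_far {l : ℝ} {f : ℂ → ℂ} (hf : DifferentiableOn ℂ f (ball 0 1)) {n : ℕ}
    (hn : 1 ≤ n) (K : ℝ) :
    ∫⁻ w in Rg n K, ENNReal.ofReal ‖deriv (gs f n) w‖ ≤
      (∫⁻ w in Rg n K,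
        ENNReal.ofReal (‖deriv (gs f n) w‖ ^ 2 * (1 + ‖gs f n w‖ ^ 2) ^ (-(l / 2)))) ^
          (1 / (2 : ℝ)) *
      (∫⁻ w in Rg n K, ENNReal.ofReal ((1 + ‖gs f n w‖ ^ 2) ^ (l / 2))) ^ (1 / (2 : ℝ)) := by
  have hgc := (gs_cont hf hn).mono (pos_of_mem (n := n) (K := K))
  have hdc := (dgs_cont hf hn).mono (pos_of_mem (n := n) (K := K))
  have hms : MeasurableSet (Rg n K) := (isOpen_Rg n K).measurableSet
  have hbc : ContinuousOn (fun w => 1 + ‖gs f n w‖ ^ 2) (Rg n K) :=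
    continuousOn_const.add (hgc.norm.pow 2)
  have hb0 : ∀ w, 0 < 1 + ‖gs f n w‖ ^ 2 := fun w => by positivity
  have h1 : AEMeasurable (fun w => ENNReal.ofReal
      (‖deriv (gs f n) w‖ * (1 + ‖gs f n w‖ ^ 2) ^ (-(l / 4)))) (volume.restrict (Rg n K)) := by
    refine ENNReal.measurable_ofReal.comp_aemeasurable ?_
    exact (hdc.norm.mul (hbc.rpow_const fun w _ => Or.inl (hb0 w).ne')).aemeasurable hms
  have h2 : AEMeasurable (fun w => ENNReal.ofReal ((1 + ‖gs f n w‖ ^ 2) ^ (l / 4)))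
      (volume.restrict (Rg n K)) := by
    refine ENNReal.measurable_ofReal.comp_aemeasurable ?_
    exact (hbc.rpow_const fun w _ => Or.inl (hb0 w).ne').aemeasurable hms
  have h3 := ENNReal.lintegral_mul_le_Lp_mul_Lq (volume.restrict (Rg n K))
    Real.HolderConjugate.two_two h1 h2
  have e1 : ∀ w, ((fun w => ENNReal.ofReal
      (‖deriv (gs f n) w‖ * (1 + ‖gs f n w‖ ^ 2) ^ (-(l / 4)))) *
      fun w => ENNReal.ofReal ((1 + ‖gs f n w‖ ^ 2) ^ (l / 4))) w =
      ENNReal.ofReal ‖deriv (gs f n) w‖ := by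
    intro w
    rw [Pi.mul_apply, ← ENNReal.ofReal_mul (by positivity), mul_assoc, ← Real.rpow_add (hb0 w)]
    simp
  have e2 : ∀ w, ENNReal.ofReal (‖deriv (gs f n) w‖ * (1 + ‖gs f n w‖ ^ 2) ^ (-(l / 4))) ^
      (2 : ℝ) = ENNReal.ofReal (‖deriv (gs f n) w‖ ^ 2 * (1 + ‖gs f n w‖ ^ 2) ^ (-(l / 2))) := by
    intro w
    rw [ENNReal.ofReal_rpow_of_nonneg (by positivity) (by norm_num), Real.rpow_two, mul_pow,
      ← Real.rpow_natCast ((1 + ‖gs f n w‖ ^ 2) ^ (-(l / 4))), ← Real.rpow_mul (hb0 w).le]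
    congr 3
    push_cast
    ring
  have e3 : ∀ w, ENNReal.ofReal ((1 + ‖gs f n w‖ ^ 2) ^ (l / 4)) ^ (2 : ℝ) =
      ENNReal.ofReal ((1 + ‖gs f n w‖ ^ 2) ^ (l / 2)) := by
    intro w
    rw [ENNReal.ofReal_rpow_of_nonneg (by positivity) (by norm_num), ← Real.rpow_mul (hb0 w).le]
    congr 2
    ring
  simp only [e1, e2, e3] at h3
  exact h3

theorem est {p l : ℝ} (hp : 0 < p) (hl : 1 < 2 * p * l) (hl2 : l < 2) : ∃ C : ℝ, 0 < C ∧
    ∀ f : ℂ → ℂ, Nd p f → ∀ (n : ℕ) (K M : ℝ), 1 ≤ n → 0 ≤ K → K ≤ Real.pi * n → 1 ≤ M →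
      (∀ w : ℂ, 1 ≤ w.re → w.re ≤ 2 → K ≤ |w.im| → |w.im| ≤ Real.pi * n → ‖gs f n w‖ ≤ M) →
      ‖2 * Real.pi * n * MPV.coef f n - co f n K‖ ≤
        C * (M ^ (1 - l / 2) * (n : ℝ) ^ (p * l) + M) := by
  have hl0 : 0 < l := by
    by_contra h
    push Not at h
    nlinarith
  obtain ⟨C1, hC1, h1⟩ := far_first (p := p) (l := l) hp hl0 hl2
  obtain ⟨C2, hC2, h2⟩ := far_second hp hl hl2
  refine ⟨Real.exp 2 * (2 + (C1 * C2) ^ (1 / (2 : ℝ))), by positivity,
    fun f hf n K M hn hK0 hK hM hb => ?_⟩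
  have hn1 : (1 : ℝ) ≤ n := by exact_mod_cast hn
  have hn0 : (0 : ℝ) < n := by linarith
  have hM0 : 0 < M := by linarith
  have h3 := co_far hf.mv.diff hn hK0 hK hM0.le hb
  have h4 := h1 f hf.mv n K M hn hK0 hM
    (fun w hw => hb w hw.1.le hw.2.1.le hw.2.2.1.le hw.2.2.2.le)
  have h5 := h2 f hf n K hn hK0
  have h6 : ∫⁻ w in Rg n K, ENNReal.ofReal ‖deriv (gs f n) w‖ ≤
      ENNReal.ofReal ((C1 * C2) ^ (1 / (2 : ℝ)) * (M ^ (1 - l / 2) * (n : ℝ) ^ (p * l))) := by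
    refine (cs_far (l := l) hf.mv.diff hn K).trans ?_
    refine (mul_le_mul' (ENNReal.rpow_le_rpow h4 (by norm_num))
      (ENNReal.rpow_le_rpow h5 (by norm_num))).trans (le_of_eq ?_)
    rw [sqrt_ofReal (by positivity), sqrt_ofReal (by positivity),
      ← ENNReal.ofReal_mul (by positivity)]
    congr 1
    rw [Real.mul_rpow hC1.le (by positivity), Real.mul_rpow hC2.le (by positivity),
      Real.mul_rpow hC1.le hC2.le, ← Real.rpow_mul hM0.le, ← Real.rpow_mul hn0.le]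
    rw [show (2 - l) * (1 / 2) = 1 - l / 2 by ring, show 2 * p * l * (1 / 2) = p * l by ring]
    ring
  have h7 : ENNReal.ofReal ‖2 * Real.pi * n * MPV.coef f n - co f n K‖ ≤
      ENNReal.ofReal (2 * Real.exp 2 * M + Real.exp 2 *
        ((C1 * C2) ^ (1 / (2 : ℝ)) * (M ^ (1 - l / 2) * (n : ℝ) ^ (p * l)))) := by
    refine h3.trans ?_
    rw [ENNReal.ofReal_add (by positivity) (by positivity),
      ENNReal.ofReal_mul (Real.exp_pos 2).le]
    gcongr
  have h8 := (ENNReal.ofReal_le_ofReal_iff (by positivity)).1 h7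
  refine h8.trans ?_
  have h9 : 0 ≤ Real.exp 2 * (C1 * C2) ^ (1 / (2 : ℝ)) * M := by positivity
  have h10 : 0 ≤ 2 * Real.exp 2 * (M ^ (1 - l / 2) * (n : ℝ) ^ (p * l)) := by positivity
  nlinarith

end MQV
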