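import Pool.Agent.MQV.Spl

set_option autoImplicit false

/-!
# MQV FIX : the nonlinear gluing equation (fixed point)

`Zn t H`, `Zn (t+s) H` are the two zones (disjoint, `s ≥ 10`).  Iterate
`J₀ = 0`, `J_{k+1}(w) = g (w + rin t s H J_k w)` on `Zn t H`,
`J_{k+1}(w) = g (w - s + rout t s H J_k w)` on `Zn (t+s) H`.
With `|J_k| ≤ δ` one has `|rin|, |rout| ≤ C δ ≤ k/4` on the zones, so the arguments stay in
`{|Re - t| < 2, |Im| < H + k/2}` where `|g'| ≤ 2 δ / k` (Cauchy); the map is a contraction with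
factor `≤ 1/2` for the sup norm.  Analyticity of `J_k` is preserved by `split` and `E1_diff`
(in `Zn t H`: `rin = (cl J + E1 t J) - E1 (t+s) J`; in `Zn (t+s) H`: `cl (Re w - t) = 1` and
`rout = E1 t J + J - (cl(· - t - s) J + E1 (t+s) J)`).
The limit is analytic (locally uniform limit) and satisfies the equations.
-/

open MeasureTheory Metric Set

namespace MQV

namespace FixAux

theorem cl_lo {x : ℝ} (h : x ≤ -(1 / 2)) : cl x = 0 := by
  unfold cl
  rw [max_eq_left]
  exact (min_le_right _ _).trans (by linarith)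

theorem cl_hi {x : ℝ} (h : 1 / 2 ≤ x) : cl x = 1 := by
  unfold cl
  rw [min_eq_left (by linarith), max_eq_right zero_le_one]

theorem cl_nonneg (x : ℝ) : 0 ≤ cl x := le_max_left _ _

theorem cl_le_one (x : ℝ) : cl x ≤ 1 := max_le zero_le_one (min_le_left _ _)

theorem Qr_sub (t H : ℝ) : Qr t H ⊆ Zn t H := fun _ h => ⟨h.1.trans (by norm_num), h.2⟩

theorem isOpen_Zn (t H : ℝ) : IsOpen (Zn t H) := by
  have h1 : IsOpen {w : ℂ | |w.re - t| < 1} := isOpen_lt (by fun_prop) continuous_const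
  have h2 : IsOpen {w : ℂ | |w.im| < H} := isOpen_lt (by fun_prop) continuous_const
  exact h1.inter h2

theorem one_le_exp {x : ℝ} (h : |x| < 1) : 1 ≤ 3 * Real.exp (-|x|) := by
  have h1 : Real.exp (-1) ≤ Real.exp (-|x|) := Real.exp_le_exp.2 (by linarith)
  have h2 := Real.exp_one_lt_d9
  have h3 : Real.exp (-1) * Real.exp 1 = 1 := by rw [← Real.exp_add]; simp
  have h4 := Real.exp_pos (-1)
  nlinarith

theorem coef_bound {a B τ : ℝ} {w : ℂ} {J : ℂ → ℂ} (hB : 0 ≤ B)
    (h : a = 0 ∨ (|a| ≤ 1 ∧ ‖J w‖ ≤ B ∧ |w.re - τ| < 1)) :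
    ‖(a : ℂ) * J w‖ ≤ 3 * B * Real.exp (-|w.re - τ|) := by
  rcases h with h | ⟨h1, h2, h3⟩
  · rw [h, Complex.ofReal_zero, zero_mul, norm_zero]
    positivity
  · rw [norm_mul, Complex.norm_real, Real.norm_eq_abs]
    have h4 := one_le_exp h3
    calc |a| * ‖J w‖ ≤ 1 * B := mul_le_mul h1 h2 (norm_nonneg _) zero_le_one
      _ ≤ (3 * Real.exp (-|w.re - τ|)) * B := mul_le_mul_of_nonneg_right h4 hB
      _ = _ := by ring

end FixAux

open FixAux

/-- Sizes of the displacements, everywhere on their domains. -/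
theorem disp_bound : ∃ C : ℝ, 1 ≤ C ∧ ∀ (t s H B : ℝ) (J : ℂ → ℂ), 10 ≤ s → 0 < H →
    H ≤ Real.pi / 2 → 0 ≤ B → (∀ ω ∈ Zn t H, ‖J ω‖ ≤ B) → (∀ ω ∈ Zn (t + s) H, ‖J ω‖ ≤ B) →
    (∀ w : ℂ, |w.im| ≤ 2 → (w.re ≤ t - 1 / 2 ∨ w ∈ Zn t H) →
      ‖rin t s H J w‖ ≤ C * B * Real.exp (-|w.re - t|)) ∧
    (∀ w : ℂ, |w.im| ≤ 2 →
      ((t + 1 / 2 ≤ w.re ∧ w.re ≤ t + s - 1 / 2) ∨ w ∈ Zn t H ∨ w ∈ Zn (t + s) H) →
      ‖rmid t s H J w‖ ≤ C * B * (Real.exp (-|w.re - t|) + Real.exp (-|w.re - t - s|))) ∧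
    (∀ w : ℂ, |w.im| ≤ 2 → (t + s + 1 / 2 ≤ w.re ∨ w ∈ Zn (t + s) H) →
      ‖rout t s H J w‖ ≤ C * B * Real.exp (-|w.re - t - s|)) := by
  obtain ⟨C0, hC0, hE⟩ := E1_bound
  refine ⟨3 + 2 * C0, by linarith, ?_⟩
  intro t s H B J hs h0 hH hB hJ hJ'
  have hE1 : ∀ ζ : ℂ, |ζ.im| ≤ 2 → ‖E1 t H J ζ‖ ≤ C0 * B * Real.exp (-|ζ.re - t|) :=
    hE t H B J hH hB (fun ω hω => hJ ω (Qr_sub t H hω))
  have hE2 : ∀ ζ : ℂ, |ζ.im| ≤ 2 →
      ‖E1 (t + s) H J ζ‖ ≤ C0 * B * Real.exp (-|ζ.re - t - s|) := by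
    intro ζ hζ
    have h1 := hE (t + s) H B J hH hB (fun ω hω => hJ' ω (Qr_sub (t + s) H hω)) ζ hζ
    rwa [← sub_sub] at h1
  have hCB : 0 ≤ C0 * B := mul_nonneg (by linarith) hB
  have hEE : ∀ ζ : ℂ, |ζ.im| ≤ 2 → ‖E2 t s H J ζ‖ ≤
      C0 * B * Real.exp (-|ζ.re - t|) + C0 * B * Real.exp (-|ζ.re - t - s|) := fun ζ hζ =>
    (norm_sub_le _ _).trans (add_le_add (hE1 ζ hζ) (hE2 ζ hζ))
  refine ⟨?_, ?_, ?_⟩
  · intro w hw hor
    have hle : Real.exp (-|w.re - t - s|) ≤ Real.exp (-|w.re - t|) := by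
      apply Real.exp_le_exp.2
      have h1 : w.re ≤ t + 1 := by
        rcases hor with h | h
        · linarith
        · linarith [(abs_lt.1 h.1).2]
      have h2 : |w.re - t - s| = -(w.re - t - s) := abs_of_nonpos (by linarith)
      rw [h2]
      rcases abs_cases (w.re - t) with h | h <;> linarith
    have h1 : ‖(cl (w.re - t) : ℂ) * J w‖ ≤ 3 * B * Real.exp (-|w.re - t|) := by
      apply coef_bound hB
      rcases hor with h | h
      · exact Or.inl (cl_lo (by linarith))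
      · refine Or.inr ⟨?_, hJ w h, h.1⟩
        rw [abs_of_nonneg (cl_nonneg _)]
        exact cl_le_one _
    have h2 := hEE w hw
    have h3 := mul_le_mul_of_nonneg_left hle hCB
    calc ‖rin t s H J w‖ ≤ ‖(cl (w.re - t) : ℂ) * J w‖ + ‖E2 t s H J w‖ := norm_add_le _ _
      _ ≤ (3 + 2 * C0) * B * Real.exp (-|w.re - t|) := by linarith
  · intro w hw hor
    have e1 := Real.exp_pos (-|w.re - t|)
    have e2 := Real.exp_pos (-|w.re - t - s|)
    have h1 : ‖((cl (w.re - t) - 1 - cl (w.re - t - s) : ℝ) : ℂ) * J w‖ ≤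
        3 * B * Real.exp (-|w.re - t|) + 3 * B * Real.exp (-|w.re - t - s|) := by
      rcases hor with h | h | h
      · have h3 := coef_bound (a := cl (w.re - t) - 1 - cl (w.re - t - s)) (τ := t) (w := w)
          (J := J) hB (Or.inl (by
            rw [cl_hi (by linarith [h.1]), cl_lo (by linarith [h.2])]; ring))
        have : 0 ≤ 3 * B * Real.exp (-|w.re - t - s|) := by positivity
        linarith
      · have h4 := abs_lt.1 h.1
        have h3 := coef_bound (a := cl (w.re - t) - 1 - cl (w.re - t - s)) (τ := t) (w := w)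
          (J := J) hB (Or.inr ⟨by
            rw [cl_lo (x := w.re - t - s) (by linarith [h4.2])]
            have := cl_nonneg (w.re - t)
            have := cl_le_one (w.re - t)
            rw [abs_le]
            constructor <;> linarith, hJ w h, h.1⟩)
        have : 0 ≤ 3 * B * Real.exp (-|w.re - t - s|) := by positivity
        linarith
      · have h4 := abs_lt.1 h.1
        have h3 := coef_bound (a := cl (w.re - t) - 1 - cl (w.re - t - s)) (τ := t + s) (w := w)
          (J := J) hB (Or.inr ⟨by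
            rw [cl_hi (x := w.re - t) (by linarith [h4.1])]
            have := cl_nonneg (w.re - t - s)
            have := cl_le_one (w.re - t - s)
            rw [abs_le]
            constructor <;> linarith, hJ' w h, h.1⟩)
        rw [← sub_sub] at h3
        have : 0 ≤ 3 * B * Real.exp (-|w.re - t|) := by positivity
        linarith
    have h2 := hEE w hw
    have h5 := mul_nonneg hCB e1.le
    have h6 := mul_nonneg hCB e2.le
    calc ‖rmid t s H J w‖ ≤
        ‖((cl (w.re - t) - 1 - cl (w.re - t - s) : ℝ) : ℂ) * J w‖ + ‖E2 t s H J w‖ :=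
          norm_add_le _ _
      _ ≤ (3 + 2 * C0) * B * (Real.exp (-|w.re - t|) + Real.exp (-|w.re - t - s|)) := by
          nlinarith
  · intro w hw hor
    have hle : Real.exp (-|w.re - t|) ≤ Real.exp (-|w.re - t - s|) := by
      apply Real.exp_le_exp.2
      have h1 : t + s - 1 ≤ w.re := by
        rcases hor with h | h
        · linarith
        · linarith [(abs_lt.1 h.1).1]
      have h2 : |w.re - t| = w.re - t := abs_of_nonneg (by linarith)
      rw [h2]
      rcases abs_cases (w.re - t - s) with h | h <;> linarith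
    have h1 : ‖((1 - cl (w.re - t - s) : ℝ) : ℂ) * J w‖ ≤
        3 * B * Real.exp (-|w.re - t - s|) := by
      have h3 := coef_bound (a := 1 - cl (w.re - t - s)) (B := B) (τ := t + s) (w := w)
        (J := J) hB (by
          rcases hor with h | h
          · exact Or.inl (by rw [cl_hi (by linarith)]; ring)
          · refine Or.inr ⟨?_, hJ' w h, h.1⟩
            have := cl_nonneg (w.re - t - s)
            have := cl_le_one (w.re - t - s)
            rw [abs_le]
            constructor <;> linarith)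
      rwa [← sub_sub] at h3
    have h2 := hEE w hw
    have h3 := mul_le_mul_of_nonneg_left hle hCB
    calc ‖rout t s H J w‖ ≤ ‖((1 - cl (w.re - t - s) : ℝ) : ℂ) * J w‖ + ‖E2 t s H J w‖ :=
          norm_add_le _ _
      _ ≤ (3 + 2 * C0) * B * Real.exp (-|w.re - t - s|) := by linarith

/-- Analyticity of the displacements on their domains. -/
theorem disp_diff {t s H B : ℝ} {J : ℂ → ℂ} (hs : 10 ≤ s) (h0 : 0 < H) (hH : H ≤ Real.pi / 2)
    (hJ : DifferentiableOn ℂ J (Zn t H)) (hJ' : DifferentiableOn ℂ J (Zn (t + s) H))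
    (hB : ∀ ω ∈ Zn t H, ‖J ω‖ ≤ B) (hB' : ∀ ω ∈ Zn (t + s) H, ‖J ω‖ ≤ B) :
    DifferentiableOn ℂ (rin t s H J) ({w | w.re < t - 1 / 2} ∪ Zn t H) ∧
    DifferentiableOn ℂ (rmid t s H J)
      ({w | t + 1 / 2 < w.re ∧ w.re < t + s - 1 / 2} ∪ Zn t H ∪ Zn (t + s) H) ∧
    DifferentiableOn ℂ (rout t s H J) ({w | t + s + 1 / 2 < w.re} ∪ Zn (t + s) H) := by
  have hE1 : DifferentiableOn ℂ (E1 t H J) {w | 1 / 2 < |w.re - t|} :=
    E1_diff hH (hJ.continuousOn.mono (Qr_sub t H)) (fun ω hω => hB ω (Qr_sub t H hω))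
  have hE2 : DifferentiableOn ℂ (E1 (t + s) H J) {w | 1 / 2 < |w.re - (t + s)|} :=
    E1_diff hH (hJ'.continuousOn.mono (Qr_sub (t + s) H))
      (fun ω hω => hB' ω (Qr_sub (t + s) H hω))
  have hS1 := split h0 hH hJ hB
  have hS2 := split h0 hH hJ' hB'
  have o1 : IsOpen {w : ℂ | w.re < t - 1 / 2} := isOpen_lt (by fun_prop) continuous_const
  have o2 : IsOpen {w : ℂ | t + 1 / 2 < w.re ∧ w.re < t + s - 1 / 2} := by
    have q1 : IsOpen {w : ℂ | t + 1 / 2 < w.re} := isOpen_lt continuous_const (by fun_prop)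
    have q2 : IsOpen {w : ℂ | w.re < t + s - 1 / 2} := isOpen_lt (by fun_prop) continuous_const
    exact q1.inter q2
  have o3 : IsOpen {w : ℂ | t + s + 1 / 2 < w.re} := isOpen_lt continuous_const (by fun_prop)
  have z1 := isOpen_Zn t H
  have z2 := isOpen_Zn (t + s) H
  have m1 : ∀ w : ℂ, w ∈ Zn t H → w ∈ {w : ℂ | 1 / 2 < |w.re - (t + s)|} := by
    intro w hw
    have h := abs_lt.1 hw.1
    show 1 / 2 < |w.re - (t + s)|
    rw [abs_of_neg (by linarith [h.2])]
    linarith [h.2]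
  have m2 : ∀ w : ℂ, w ∈ Zn (t + s) H → w ∈ {w : ℂ | 1 / 2 < |w.re - t|} := by
    intro w hw
    have h := abs_lt.1 hw.1
    show 1 / 2 < |w.re - t|
    rw [abs_of_pos (by linarith [h.1])]
    linarith [h.1]
  refine ⟨?_, ?_, ?_⟩
  · refine DifferentiableOn.union_of_isOpen ?_ ?_ o1 z1
    · have h1 : DifferentiableOn ℂ (fun w => E1 t H J w - E1 (t + s) H J w)
          {w : ℂ | w.re < t - 1 / 2} := by
        refine (hE1.mono fun w hw => ?_).sub (hE2.mono fun w hw => ?_)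
        · have hw' : w.re < t - 1 / 2 := hw
          show 1 / 2 < |w.re - t|
          rw [abs_of_neg (by linarith)]
          linarith
        · have hw' : w.re < t - 1 / 2 := hw
          show 1 / 2 < |w.re - (t + s)|
          rw [abs_of_neg (by linarith)]
          linarith
      refine h1.congr fun w hw => ?_
      have hw' : w.re < t - 1 / 2 := hw
      unfold rin E2
      rw [cl_lo (by linarith), Complex.ofReal_zero, zero_mul, zero_add]
    · have h1 := hS1.sub (hE2.mono m1)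
      refine h1.congr fun w _ => ?_
      show rin t s H J w = _
      simp only [rin, E2, Pi.sub_apply]
      ring
  · refine DifferentiableOn.union_of_isOpen (DifferentiableOn.union_of_isOpen ?_ ?_ o2 z1) ?_
      (o2.union z1) z2
    · have h1 : DifferentiableOn ℂ (fun w => E1 t H J w - E1 (t + s) H J w)
          {w : ℂ | t + 1 / 2 < w.re ∧ w.re < t + s - 1 / 2} := by
        refine (hE1.mono fun w hw => ?_).sub (hE2.mono fun w hw => ?_)
        · have hw' : t + 1 / 2 < w.re := hw.1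
          show 1 / 2 < |w.re - t|
          rw [abs_of_pos (by linarith)]
          linarith
        · have hw' : w.re < t + s - 1 / 2 := hw.2
          show 1 / 2 < |w.re - (t + s)|
          rw [abs_of_neg (by linarith)]
          linarith
      refine h1.congr fun w hw => ?_
      have hw1 : t + 1 / 2 < w.re := hw.1
      have hw2 : w.re < t + s - 1 / 2 := hw.2
      unfold rmid E2
      rw [cl_hi (x := w.re - t) (by linarith), cl_lo (x := w.re - t - s) (by linarith)]
      simp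
    · have h1 := (hS1.sub (hE2.mono m1)).sub hJ
      refine h1.congr fun w hw => ?_
      have h2 := abs_lt.1 hw.1
      simp only [rmid, E2, Pi.sub_apply]
      rw [cl_lo (x := w.re - t - s) (by linarith [h2.2])]
      push_cast
      ring
    · have h1 := (hE1.mono m2).sub hS2
      refine h1.congr fun w hw => ?_
      have h2 := abs_lt.1 hw.1
      simp only [rmid, E2, Pi.sub_apply]
      rw [cl_hi (x := w.re - t) (by linarith [h2.1]), sub_sub w.re t s]
      push_cast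
      ring
  · refine DifferentiableOn.union_of_isOpen ?_ ?_ o3 z2
    · have h1 : DifferentiableOn ℂ (fun w => E1 t H J w - E1 (t + s) H J w)
          {w : ℂ | t + s + 1 / 2 < w.re} := by
        refine (hE1.mono fun w hw => ?_).sub (hE2.mono fun w hw => ?_)
        · have hw' : t + s + 1 / 2 < w.re := hw
          show 1 / 2 < |w.re - t|
          rw [abs_of_pos (by linarith)]
          linarith
        · have hw' : t + s + 1 / 2 < w.re := hw
          show 1 / 2 < |w.re - (t + s)|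
          rw [abs_of_pos (by linarith)]
          linarith
      refine h1.congr fun w hw => ?_
      have hw' : t + s + 1 / 2 < w.re := hw
      unfold rout E2
      rw [cl_hi (by linarith)]
      simp
    · have h1 := (hE1.mono m2).sub (hS2.sub hJ')
      refine h1.congr fun w hw => ?_
      simp only [rout, E2, Pi.sub_apply]
      rw [sub_sub w.re t s]
      push_cast
      ring

namespace FixAux

/-- fixed points of contractions on bounded analytic functions -/
theorem exists_fix {U : Set ℂ} (hU : IsOpen U) {δ : ℝ} (hδ : 0 ≤ δ) (T : (ℂ → ℂ) → ℂ → ℂ)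
    (h1 : ∀ J : ℂ → ℂ, DifferentiableOn ℂ J U → (∀ w ∈ U, ‖J w‖ ≤ δ) →
      DifferentiableOn ℂ (T J) U ∧ ∀ w ∈ U, ‖T J w‖ ≤ δ)
    (h2 : ∀ (J J' : ℂ → ℂ) (ε : ℝ), DifferentiableOn ℂ J U → (∀ w ∈ U, ‖J w‖ ≤ δ) →
      DifferentiableOn ℂ J' U → (∀ w ∈ U, ‖J' w‖ ≤ δ) → 0 ≤ ε → (∀ w ∈ U, ‖J w - J' w‖ ≤ ε) →
      ∀ w ∈ U, ‖T J w - T J' w‖ ≤ ε / 2) :
    ∃ J : ℂ → ℂ, DifferentiableOn ℂ J U ∧ (∀ w ∈ U, ‖J w‖ ≤ δ) ∧ ∀ w ∈ U, J w = T J w := by
  let Jn : ℕ → ℂ → ℂ := fun n => T^[n] fun _ => 0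
  have hsucc : ∀ n, Jn (n + 1) = T (Jn n) := fun n => Function.iterate_succ_apply' T n _
  have hgood : ∀ n, DifferentiableOn ℂ (Jn n) U ∧ ∀ w ∈ U, ‖Jn n w‖ ≤ δ := by
    intro n
    induction n with
    | zero => exact ⟨differentiableOn_const 0, fun w _ => by simpa [Jn] using hδ⟩
    | succ n ih =>
      rw [hsucc]
      exact h1 _ ih.1 ih.2
  have hstep : ∀ n, ∀ w ∈ U, ‖Jn n w - Jn (n + 1) w‖ ≤ 2 * δ / 2 / 2 ^ n := by
    intro n
    induction n with
    | zero =>
      intro w hw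
      have h3 : Jn 0 w = 0 := rfl
      rw [h3, zero_sub, norm_neg]
      have := (hgood (0 + 1)).2 w hw
      simpa using this
    | succ n ih =>
      intro w hw
      rw [hsucc n, hsucc (n + 1)]
      have h3 := h2 (Jn n) (Jn (n + 1)) (2 * δ / 2 / 2 ^ n) (hgood n).1 (hgood n).2
        (hgood (n + 1)).1 (hgood (n + 1)).2 (by positivity) ih w hw
      rw [← hsucc n] at h3 ⊢
      refine h3.trans (le_of_eq ?_)
      rw [pow_succ]
      field_simp
  have hcau : ∀ w, ∃ z : ℂ, w ∈ U → Filter.Tendsto (fun n => Jn n w) Filter.atTop (nhds z) := by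
    intro w
    by_cases hw : w ∈ U
    · have h3 : CauchySeq fun n => Jn n w := by
        refine cauchySeq_of_le_geometric_two (C := 2 * δ) fun n => ?_
        rw [dist_eq_norm]
        exact hstep n w hw
      obtain ⟨z, hz⟩ := cauchySeq_tendsto_of_complete h3
      exact ⟨z, fun _ => hz⟩
    · exact ⟨0, fun h => absurd h hw⟩
  choose J hJ using hcau
  have hdist : ∀ n, ∀ w ∈ U, ‖Jn n w - J w‖ ≤ 2 * δ / 2 ^ n := by
    intro n w hw
    rw [← dist_eq_norm]
    refine dist_le_of_le_geometric_two_of_tendsto (C := 2 * δ) (f := fun n => Jn n w)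
      (fun n => ?_) (hJ w hw) n
    rw [dist_eq_norm]
    exact hstep n w hw
  have hlim : Filter.Tendsto (fun n : ℕ => 2 * δ / 2 ^ n) Filter.atTop (nhds 0) := by
    have h3 : Filter.Tendsto (fun n : ℕ => 2 * δ * (1 / 2 : ℝ) ^ n) Filter.atTop (nhds (2 * δ * 0)) :=
      (tendsto_pow_atTop_nhds_zero_of_lt_one (by norm_num) (by norm_num)).const_mul _
    rw [mul_zero] at h3
    refine h3.congr fun n => ?_
    rw [one_div, inv_pow]
    rfl
  have hunif : TendstoUniformlyOn Jn J Filter.atTop U := by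
    rw [Metric.tendstoUniformlyOn_iff]
    intro ε hε
    filter_upwards [(tendsto_order.1 hlim).2 ε hε] with n hn w hw
    rw [dist_comm, dist_eq_norm]
    exact (hdist n w hw).trans_lt hn
  have hJd : DifferentiableOn ℂ J U :=
    hunif.tendstoLocallyUniformlyOn.differentiableOn
      (Filter.Eventually.of_forall fun n => (hgood n).1) hU
  have hJb : ∀ w ∈ U, ‖J w‖ ≤ δ := fun w hw =>
    le_of_tendsto (hJ w hw).norm (Filter.Eventually.of_forall fun n => (hgood n).2 w hw)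
  refine ⟨J, hJd, hJb, fun w hw => ?_⟩
  have h3 : ∀ n : ℕ, ‖J w - T J w‖ ≤ 2 * (2 * δ / 2 ^ n) := by
    intro n
    have h4 := hdist (n + 1) w hw
    have h5 := h2 (Jn n) J (2 * δ / 2 ^ n) (hgood n).1 (hgood n).2 hJd hJb (by positivity)
      (hdist n) w hw
    rw [← hsucc n] at h5
    have h6 : J w - T J w = -(Jn (n + 1) w - J w) + (Jn (n + 1) w - T J w) := by ring
    have h7 : 2 * δ / 2 ^ (n + 1) ≤ 2 * δ / 2 ^ n := by
      apply div_le_div_of_nonneg_left (by positivity) (by positivity)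
      exact pow_le_pow_right₀ (by norm_num) (Nat.le_succ n)
    have h8 : 0 ≤ 2 * δ / 2 ^ n := by positivity
    rw [h6]
    refine (norm_add_le _ _).trans ?_
    rw [norm_neg]
    linarith
  have h4 : Filter.Tendsto (fun n : ℕ => 2 * (2 * δ / 2 ^ n)) Filter.atTop (nhds (2 * 0)) :=
    hlim.const_mul 2
  rw [mul_zero] at h4
  have h5 : ‖J w - T J w‖ ≤ 0 := ge_of_tendsto h4 (Filter.Eventually.of_forall h3)
  exact sub_eq_zero.1 (norm_le_zero_iff.1 h5)

/-- Lipschitz bound for `g` -/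
theorem g_lip {t H k δ : ℝ} {g : ℂ → ℂ} (hk : 0 < k) (hk1 : k ≤ 1)
    (hg : DifferentiableOn ℂ g {w | |w.re - t| < 2 ∧ |w.im| < H + k})
    (hb : ∀ w : ℂ, |w.re - t| < 2 → |w.im| < H + k → ‖g w‖ ≤ δ) {a b : ℂ}
    (ha : |a.re - t| < 5 / 4) (ha' : |a.im| < H + k / 4) (hb1 : |b.re - t| < 5 / 4)
    (hb2 : |b.im| < H + k / 4) : ‖g a - g b‖ ≤ δ / (k / 2) * ‖a - b‖ := by
  have hopen : IsOpen {w : ℂ | |w.re - t| < 2 ∧ |w.im| < H + k} := by
    have q1 : IsOpen {w : ℂ | |w.re - t| < 2} := isOpen_lt (by fun_prop) continuous_const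
    have q2 : IsOpen {w : ℂ | |w.im| < H + k} := isOpen_lt (by fun_prop) continuous_const
    exact q1.inter q2
  have hconv : Convex ℝ {w : ℂ | |w.re - t| < 5 / 4 ∧ |w.im| < H + k / 4} := by
    intro x hx y hy u v hu hv huv
    have hx1 := abs_lt.1 hx.1
    have hx2 := abs_lt.1 hx.2
    have hy1 := abs_lt.1 hy.1
    have hy2 := abs_lt.1 hy.2
    have e1 : (u • x + v • y).re - t = u * (x.re - t) + v * (y.re - t) := by
      simp only [Complex.add_re, Complex.real_smul, Complex.mul_re, Complex.ofReal_re,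
        Complex.ofReal_im, zero_mul, sub_zero]
      have : t = (u + v) * t := by rw [huv, one_mul]
      linear_combination (-1 : ℝ) * this
    have e2 : (u • x + v • y).im = u * x.im + v * y.im := by
      simp only [Complex.add_im, Complex.real_smul, Complex.mul_im, Complex.ofReal_re,
        Complex.ofReal_im, zero_mul, add_zero]
    rcases hu.eq_or_lt with hu0 | hu0
    · have hv1 : v = 1 := by linarith
      rw [← hu0, hv1, zero_smul, one_smul, zero_add]
      exact hy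
    · constructor
      · rw [e1, abs_lt]
        constructor
        · nlinarith [mul_pos hu0 (sub_pos.2 hx1.1), mul_nonneg hv (sub_nonneg.2 hy1.1.le)]
        · nlinarith [mul_pos hu0 (sub_pos.2 hx1.2), mul_nonneg hv (sub_nonneg.2 hy1.2.le)]
      · rw [e2, abs_lt]
        constructor
        · nlinarith [mul_pos hu0 (sub_pos.2 hx2.1), mul_nonneg hv (sub_nonneg.2 hy2.1.le)]
        · nlinarith [mul_pos hu0 (sub_pos.2 hx2.2), mul_nonneg hv (sub_nonneg.2 hy2.2.le)]
  have hball : ∀ x : ℂ, |x.re - t| < 5 / 4 → |x.im| < H + k / 4 → ∀ z ∈ closedBall x (k / 2),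
      |z.re - t| < 2 ∧ |z.im| < H + k := by
    intro x h1 h2 z hz
    rw [mem_closedBall, dist_eq_norm] at hz
    have h3 := (Complex.abs_re_le_norm (z - x)).trans hz
    have h4 := (Complex.abs_im_le_norm (z - x)).trans hz
    rw [Complex.sub_re] at h3
    rw [Complex.sub_im] at h4
    rw [abs_le] at h3 h4
    rw [abs_lt] at h1 h2 ⊢
    rw [abs_lt]
    refine ⟨⟨?_, ?_⟩, ?_, ?_⟩ <;> linarith [h1.1, h1.2, h2.1, h2.2, h3.1, h3.2, h4.1, h4.2]
  have h5 := Convex.norm_image_sub_le_of_norm_deriv_le (𝕜 := ℂ) (f := g)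
    (s := {w : ℂ | |w.re - t| < 5 / 4 ∧ |w.im| < H + k / 4}) (C := δ / (k / 2)) (x := b) (y := a)
    (fun x hx => hg.differentiableAt (hopen.mem_nhds (hball x hx.1 hx.2 x
      (mem_closedBall_self (by positivity))))) (fun x hx => ?_) hconv ⟨hb1, hb2⟩ ⟨ha, ha'⟩
  · exact h5
  · refine Complex.norm_deriv_le_of_forall_mem_sphere_norm_le (by positivity) ?_ fun z hz => ?_
    · refine DifferentiableOn.diffContOnCl ?_
      rw [closure_ball x (by positivity)]
      exact hg.mono fun z hz => hball x hx.1 hx.2 z hz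
    · have h6 := hball x hx.1 hx.2 z (sphere_subset_closedBall hz)
      exact hb z h6.1 h6.2

end FixAux

theorem glue_fix : ∃ C : ℝ, 1 ≤ C ∧ ∀ (t s H k δ : ℝ) (g : ℂ → ℂ), 10 ≤ s → 0 < k → k ≤ 1 →
    0 < H → H ≤ Real.pi / 2 → 0 < δ → C * δ ≤ k ^ 2 →
    DifferentiableOn ℂ g {w | |w.re - t| < 2 ∧ |w.im| < H + k} →
    (∀ w : ℂ, |w.re - t| < 2 → |w.im| < H + k → ‖g w‖ ≤ δ) →
    ∃ J : ℂ → ℂ, DifferentiableOn ℂ J (Zn t H) ∧ DifferentiableOn ℂ J (Zn (t + s) H) ∧
      (∀ w ∈ Zn t H, ‖J w‖ ≤ δ) ∧ (∀ w ∈ Zn (t + s) H, ‖J w‖ ≤ δ) ∧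
      (∀ w ∈ Zn t H, J w = g (w + rin t s H J w)) ∧
      (∀ w ∈ Zn (t + s) H, J w = g (w - s + rout t s H J w)) := by
  obtain ⟨C, hC, hdisp⟩ := disp_bound
  refine ⟨4 * C, by linarith, ?_⟩
  intro t s H k δ g hs hk hk1 h0 hH hδ hCδ hg hgb
  have hpi := Real.pi_lt_d2
  have hH2 : H ≤ 2 := by linarith
  have hkk : k ^ 2 ≤ k := by nlinarith
  have hCδ' : C * δ ≤ k / 4 := by linarith
  have hexp1 : ∀ x : ℝ, Real.exp (-|x|) ≤ 1 := fun x => by
    rw [Real.exp_le_one_iff]
    have := abs_nonneg x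
    linarith
  -- the two zones
  have im1 : ∀ {τ : ℝ} {w : ℂ}, w ∈ Zn τ H → |w.im| ≤ 2 := fun hw => hw.2.le.trans hH2
  have hdisj : ∀ w : ℂ, w ∈ Zn (t + s) H → w ∉ Zn t H := by
    intro w h1 h2
    have h3 := abs_lt.1 h1.1
    have h4 := abs_lt.1 h2.1
    linarith [h3.1, h4.2]
  have hrin : ∀ (J : ℂ → ℂ) (B : ℝ), 0 ≤ B → (∀ w ∈ Zn t H, ‖J w‖ ≤ B) →
      (∀ w ∈ Zn (t + s) H, ‖J w‖ ≤ B) → ∀ w ∈ Zn t H, ‖rin t s H J w‖ ≤ C * B := by
    intro J B hB hJ hJ' w hw
    have h1 := (hdisp t s H B J hs h0 hH hB hJ hJ').1 w (im1 hw) (Or.inr hw)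
    have h2 : 0 ≤ C * B := mul_nonneg (by linarith) hB
    have h3 := mul_le_mul_of_nonneg_left (hexp1 (w.re - t)) h2
    linarith
  have hrout : ∀ (J : ℂ → ℂ) (B : ℝ), 0 ≤ B → (∀ w ∈ Zn t H, ‖J w‖ ≤ B) →
      (∀ w ∈ Zn (t + s) H, ‖J w‖ ≤ B) → ∀ w ∈ Zn (t + s) H, ‖rout t s H J w‖ ≤ C * B := by
    intro J B hB hJ hJ' w hw
    have h1 := (hdisp t s H B J hs h0 hH hB hJ hJ').2.2 w (im1 hw) (Or.inr hw)
    have h2 : 0 ≤ C * B := mul_nonneg (by linarith) hB
    have h3 := mul_le_mul_of_nonneg_left (hexp1 (w.re - t - s)) h2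
    linarith
  have hpt : ∀ {a d : ℂ}, a ∈ Zn t H → ‖d‖ ≤ k / 4 →
      |(a + d).re - t| < 5 / 4 ∧ |(a + d).im| < H + k / 4 := by
    intro a d ha hd
    have h1 := (Complex.abs_re_le_norm d).trans hd
    have h2 := (Complex.abs_im_le_norm d).trans hd
    have h3 := ha.1
    have h4 := ha.2
    rw [Complex.add_re, Complex.add_im]
    rw [abs_le] at h1 h2
    rw [abs_lt] at h3 h4 ⊢
    rw [abs_lt]
    refine ⟨⟨?_, ?_⟩, ?_, ?_⟩ <;> linarith [h1.1, h1.2, h2.1, h2.2, h3.1, h3.2, h4.1, h4.2]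
  have hdom : ∀ {a : ℂ}, |a.re - t| < 5 / 4 → |a.im| < H + k / 4 →
      a ∈ {w : ℂ | |w.re - t| < 2 ∧ |w.im| < H + k} := fun h1 h2 =>
    ⟨h1.trans (by norm_num), h2.trans (by linarith)⟩
  have hshift : ∀ {w : ℂ}, w ∈ Zn (t + s) H → w - s ∈ Zn t H := by
    intro w hw
    refine ⟨?_, ?_⟩
    · rw [Complex.sub_re, Complex.ofReal_re]
      have := hw.1
      rwa [show w.re - s - t = w.re - (t + s) by ring]
    · rw [Complex.sub_im, Complex.ofReal_im, sub_zero]
      exact hw.2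
  classical
  let T : (ℂ → ℂ) → ℂ → ℂ := fun J w =>
    if w ∈ Zn t H then g (w + rin t s H J w) else g (w - s + rout t s H J w)
  have hT1 : ∀ J : ℂ → ℂ, ∀ w ∈ Zn t H, T J w = g (w + rin t s H J w) := fun J w hw => if_pos hw
  have hT2 : ∀ J : ℂ → ℂ, ∀ w ∈ Zn (t + s) H, T J w = g (w - s + rout t s H J w) :=
    fun J w hw => if_neg (hdisj w hw)
  have hU : IsOpen (Zn t H ∪ Zn (t + s) H) := (isOpen_Zn t H).union (isOpen_Zn (t + s) H)
  obtain ⟨J, hJd, hJb, hJe⟩ := exists_fix hU hδ.le T (by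
    intro J hJ hb
    have d1 := hJ.mono (subset_union_left : Zn t H ⊆ _)
    have d2 := hJ.mono (subset_union_right : Zn (t + s) H ⊆ _)
    have b1 : ∀ w ∈ Zn t H, ‖J w‖ ≤ δ := fun w hw => hb w (Or.inl hw)
    have b2 : ∀ w ∈ Zn (t + s) H, ‖J w‖ ≤ δ := fun w hw => hb w (Or.inr hw)
    have hdd := disp_diff hs h0 hH d1 d2 b1 b2
    have r1 : ∀ w ∈ Zn t H, ‖rin t s H J w‖ ≤ k / 4 := fun w hw =>
      (hrin J δ hδ.le b1 b2 w hw).trans hCδ'
    have r2 : ∀ w ∈ Zn (t + s) H, ‖rout t s H J w‖ ≤ k / 4 := fun w hw =>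
      (hrout J δ hδ.le b1 b2 w hw).trans hCδ'
    refine ⟨DifferentiableOn.union_of_isOpen ?_ ?_ (isOpen_Zn t H) (isOpen_Zn (t + s) H), ?_⟩
    · have h1 : DifferentiableOn ℂ (fun w => g (w + rin t s H J w)) (Zn t H) := by
        refine hg.comp (differentiableOn_id.add (hdd.1.mono subset_union_right)) fun w hw => ?_
        have h2 := hpt hw (r1 w hw)
        exact hdom h2.1 h2.2
      exact h1.congr fun w hw => hT1 J w hw
    · have h1 : DifferentiableOn ℂ (fun w => g (w - s + rout t s H J w)) (Zn (t + s) H) := by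
        refine hg.comp ((differentiableOn_id.sub_const _).add
          (hdd.2.2.mono subset_union_right)) fun w hw => ?_
        have h2 := hpt (hshift hw) (r2 w hw)
        exact hdom h2.1 h2.2
      exact h1.congr fun w hw => hT2 J w hw
    · rintro w (hw | hw)
      · rw [hT1 J w hw]
        have h2 := hpt hw (r1 w hw)
        have h3 := hdom h2.1 h2.2
        exact hgb _ h3.1 h3.2
      · rw [hT2 J w hw]
        have h2 := hpt (hshift hw) (r2 w hw)
        have h3 := hdom h2.1 h2.2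
        exact hgb _ h3.1 h3.2) (by
    intro J J' ε hJ hb hJ' hb' hε hd
    have d1 := hJ.mono (subset_union_left : Zn t H ⊆ _)
    have d2 := hJ.mono (subset_union_right : Zn (t + s) H ⊆ _)
    have d1' := hJ'.mono (subset_union_left : Zn t H ⊆ _)
    have d2' := hJ'.mono (subset_union_right : Zn (t + s) H ⊆ _)
    have b1 : ∀ w ∈ Zn t H, ‖J w‖ ≤ δ := fun w hw => hb w (Or.inl hw)
    have b2 : ∀ w ∈ Zn (t + s) H, ‖J w‖ ≤ δ := fun w hw => hb w (Or.inr hw)
    have b1' : ∀ w ∈ Zn t H, ‖J' w‖ ≤ δ := fun w hw => hb' w (Or.inl hw)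
    have b2' : ∀ w ∈ Zn (t + s) H, ‖J' w‖ ≤ δ := fun w hw => hb' w (Or.inr hw)
    have hE : ∀ w, E2 t s H J w - E2 t s H J' w = E2 t s H (fun ω => J ω - J' ω) w := by
      intro w
      have h1 := E1_sub hH (d1.continuousOn.mono (Qr_sub t H)) (d1'.continuousOn.mono (Qr_sub t H))
        (fun ω hω => b1 ω (Qr_sub t H hω)) (fun ω hω => b1' ω (Qr_sub t H hω)) w
      have h2 := E1_sub hH (d2.continuousOn.mono (Qr_sub (t + s) H))
        (d2'.continuousOn.mono (Qr_sub (t + s) H))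
        (fun ω hω => b2 ω (Qr_sub (t + s) H hω)) (fun ω hω => b2' ω (Qr_sub (t + s) H hω)) w
      unfold E2
      rw [← h1, ← h2]
      ring
    have hcontr : ∀ {x : ℝ}, x ≤ C * ε → δ / (k / 2) * x ≤ ε / 2 := by
      intro x hx
      have h1 : 0 ≤ δ / (k / 2) := by positivity
      have h2 := mul_le_mul_of_nonneg_left hx h1
      have h3 : δ / (k / 2) * (C * ε) = (C * δ) * ε * (2 / k) := by
        field_simp
      have h4 : (C * δ) * ε * (2 / k) ≤ (k / 4) * ε * (2 / k) := by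
        have : 0 ≤ 2 / k := by positivity
        have h5 : (C * δ) * ε ≤ (k / 4) * ε := mul_le_mul_of_nonneg_right hCδ' hε
        exact mul_le_mul_of_nonneg_right h5 this
      have h5 : (k / 4) * ε * (2 / k) = ε / 2 := by
        field_simp
        ring
      linarith
    rintro w (hw | hw)
    · rw [hT1 J w hw, hT1 J' w hw]
      have h2 := hpt hw ((hrin J δ hδ.le b1 b2 w hw).trans hCδ')
      have h3 := hpt hw ((hrin J' δ hδ.le b1' b2' w hw).trans hCδ')
      refine (g_lip hk hk1 hg hgb h2.1 h2.2 h3.1 h3.2).trans (hcontr ?_)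
      have h4 : w + rin t s H J w - (w + rin t s H J' w) =
          rin t s H (fun ω => J ω - J' ω) w := by
        unfold rin
        rw [← hE w]
        ring
      rw [h4]
      exact hrin _ ε hε (fun w hw => hd w (Or.inl hw)) (fun w hw => hd w (Or.inr hw)) w hw
    · rw [hT2 J w hw, hT2 J' w hw]
      have h2 := hpt (hshift hw) ((hrout J δ hδ.le b1 b2 w hw).trans hCδ')
      have h3 := hpt (hshift hw) ((hrout J' δ hδ.le b1' b2' w hw).trans hCδ')
      refine (g_lip hk hk1 hg hgb h2.1 h2.2 h3.1 h3.2).trans (hcontr ?_)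
      have h4 : w - s + rout t s H J w - (w - s + rout t s H J' w) =
          rout t s H (fun ω => J ω - J' ω) w := by
        unfold rout
        rw [← hE w]
        ring
      rw [h4]
      exact hrout _ ε hε (fun w hw => hd w (Or.inl hw)) (fun w hw => hd w (Or.inr hw)) w hw)
  refine ⟨J, hJd.mono subset_union_left, hJd.mono subset_union_right,
    fun w hw => hJb w (Or.inl hw), fun w hw => hJb w (Or.inr hw), fun w hw => ?_, fun w hw => ?_⟩
  · rw [hJe w (Or.inl hw)]
    conv_lhs => rw [hT1 J w hw]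
  · rw [hJe w (Or.inr hw)]
    conv_lhs => rw [hT2 J w hw]

end MQV
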