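import Pool.Agent.MQV.Fix
import Pool.Agent.MQV.Bas

set_option autoImplicit false

/-!
# MQV GLU : the gluing data

`Glue p e t s A F J` bundles everything the assembly needs about the displacements
(`H = π/2 - e/4`).  It is produced from the fixed point `glue_fix` and the quietness of `F`.
-/

open MeasureTheory Metric Set

namespace MQV

structure Glue (p e t s : ℝ) (A : ℂ) (F J : ℂ → ℂ) : Prop where
  hp : 0 < p
  he : 0 < e
  he1 : e ≤ 1 / 100
  hs : 10 ≤ s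
  hF : DifferentiableOn ℂ F Str
  hA : A ≠ 0
  /-- analyticity of the displacements -/
  d_in : DifferentiableOn ℂ (rin t s (Real.pi / 2 - e / 4) J)
    ({w | w.re < t - 1 / 2} ∪ Zn t (Real.pi / 2 - e / 4))
  d_mid : DifferentiableOn ℂ (rmid t s (Real.pi / 2 - e / 4) J)
    ({w | t + 1 / 2 < w.re ∧ w.re < t + s - 1 / 2} ∪ Zn t (Real.pi / 2 - e / 4) ∪
      Zn (t + s) (Real.pi / 2 - e / 4))
  d_out : DifferentiableOn ℂ (rout t s (Real.pi / 2 - e / 4) J)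
    ({w | t + s + 1 / 2 < w.re} ∪ Zn (t + s) (Real.pi / 2 - e / 4))
  /-- sizes of the displacements -/
  b_in : ∀ w : ℂ, |w.im| ≤ 2 → (w.re ≤ t - 1 / 2 ∨ w ∈ Zn t (Real.pi / 2 - e / 4)) →
    ‖rin t s (Real.pi / 2 - e / 4) J w‖ ≤ e / 1000 * Real.exp (-|w.re - t|)
  b_mid : ∀ w : ℂ, |w.im| ≤ 2 → ((t + 1 / 2 ≤ w.re ∧ w.re ≤ t + s - 1 / 2) ∨
      w ∈ Zn t (Real.pi / 2 - e / 4) ∨ w ∈ Zn (t + s) (Real.pi / 2 - e / 4)) →
    ‖rmid t s (Real.pi / 2 - e / 4) J w‖ ≤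
      e / 1000 * (Real.exp (-|w.re - t|) + Real.exp (-|w.re - t - s|))
  b_out : ∀ w : ℂ, |w.im| ≤ 2 →
      (t + s + 1 / 2 ≤ w.re ∨ w ∈ Zn (t + s) (Real.pi / 2 - e / 4)) →
    ‖rout t s (Real.pi / 2 - e / 4) J w‖ ≤ e / 1000 * Real.exp (-|w.re - t - s|)
  /-- the gluing equations -/
  eq1 : ∀ w ∈ Zn t (Real.pi / 2 - e / 4), F (w + rin t s (Real.pi / 2 - e / 4) J w) =
    A * Complex.exp (2 * p * (w + rmid t s (Real.pi / 2 - e / 4) J w))
  eq2 : ∀ w ∈ Zn (t + s) (Real.pi / 2 - e / 4),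
    Real.exp (2 * p * s) * F (w + rout t s (Real.pi / 2 - e / 4) J w - s) =
    A * Complex.exp (2 * p * (w + rmid t s (Real.pi / 2 - e / 4) J w))

/-- PROOF.  `g ζ = -(1/2p) log (F ζ / (A e^{2pζ}))` is analytic with `‖g‖ ≤ δ/p` on
`{|Re - t| < 2, |Im| < π/2 - e/8}` (principal logarithm of a number within `δ ≤ 1/2` of `1`) and
`F ζ = A e^{2p(ζ - g ζ)}` there.  Apply `glue_fix` with `H = π/2 - e/4`, `k = e/8`.
In `Zn t H`: `rmid = rin - J` (`cl (Re w - t - s) = 0`), so `F (w + rin) = A e^{2p(w + rin - J)}`.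
In `Zn (t+s) H`: `rout - J = rmid` (`cl (Re w - t) = 1`). -/
theorem glue_exists {p e : ℝ} (hp : 0 < p) (he : 0 < e) (he1 : e ≤ 1 / 100) :
    ∃ δ : ℝ, 0 < δ ∧ ∀ (F : ℂ → ℂ) (t s : ℝ) (A : ℂ), DifferentiableOn ℂ F Str → A ≠ 0 → 10 ≤ s →
      (∀ ζ : ℂ, |ζ.re - t| ≤ 2 → |ζ.im| ≤ Real.pi / 2 - e / 8 →
        ‖F ζ - A * Complex.exp (2 * p * ζ)‖ ≤ δ * (‖A‖ * Real.exp (2 * p * ζ.re))) →
      ∃ J : ℂ → ℂ, Glue p e t s A F J := by
  obtain ⟨Cf, hCf, hfix⟩ := glue_fix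
  obtain ⟨Cb, hCb, hdisp⟩ := disp_bound
  have hpi := Real.pi_gt_three
  set δ1 : ℝ := e ^ 2 / (1000 * (Cf + Cb)) with hδ1
  have hδ1p : 0 < δ1 := by positivity
  have hCfδ : Cf * δ1 ≤ (e / 8) ^ 2 := by
    have h1 : Cf * δ1 = e ^ 2 / 1000 * (Cf / (Cf + Cb)) := by
      rw [hδ1]
      field_simp
    have h2 : Cf / (Cf + Cb) ≤ 1 := by
      rw [div_le_one (by linarith)]
      linarith
    have h3 : e ^ 2 / 1000 * (Cf / (Cf + Cb)) ≤ e ^ 2 / 1000 * 1 :=
      mul_le_mul_of_nonneg_left h2 (by positivity)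
    have h4 : 0 < e ^ 2 := by positivity
    rw [h1]
    nlinarith
  have hCbδ : Cb * δ1 ≤ e / 1000 := by
    have h1 : Cb * δ1 = e ^ 2 / 1000 * (Cb / (Cf + Cb)) := by
      rw [hδ1]
      field_simp
    have h2 : Cb / (Cf + Cb) ≤ 1 := by
      rw [div_le_one (by linarith)]
      linarith
    have h3 : e ^ 2 / 1000 * (Cb / (Cf + Cb)) ≤ e ^ 2 / 1000 * 1 :=
      mul_le_mul_of_nonneg_left h2 (by positivity)
    rw [h1]
    nlinarith
  refine ⟨min (1 / 2) (p * δ1), lt_min (by norm_num) (by positivity), ?_⟩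
  intro F t s A hF hA hs hq
  set H : ℝ := Real.pi / 2 - e / 4 with hH
  have h0 : 0 < H := by rw [hH]; linarith
  have hH2 : H ≤ Real.pi / 2 := by rw [hH]; linarith
  -- the quotient
  let q : ℂ → ℂ := fun ζ => F ζ / (A * Complex.exp (2 * p * ζ))
  have hden : ∀ ζ : ℂ, A * Complex.exp (2 * p * ζ) ≠ 0 := fun ζ =>
    mul_ne_zero hA (Complex.exp_ne_zero _)
  have hnorm : ∀ ζ : ℂ, ‖A * Complex.exp (2 * p * ζ)‖ = ‖A‖ * Real.exp (2 * p * ζ.re) := by
    intro ζ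
    rw [norm_mul, Complex.norm_exp]
    congr 2
    have h1 : (2 * (p : ℂ) * ζ).re = 2 * p * ζ.re := by
      have h2 : (2 * (p : ℂ)) = ((2 * p : ℝ) : ℂ) := by push_cast; ring
      rw [h2, Complex.re_ofReal_mul]
    exact h1
  have hq1 : ∀ ζ : ℂ, |ζ.re - t| < 2 → |ζ.im| < H + e / 8 → ‖q ζ - 1‖ ≤ min (1 / 2) (p * δ1) := by
    intro ζ h1 h2
    have h3 := hq ζ h1.le (by rw [hH] at h2; linarith)
    have h4 : q ζ - 1 = (F ζ - A * Complex.exp (2 * p * ζ)) / (A * Complex.exp (2 * p * ζ)) := by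
      simp only [q]
      rw [sub_div, div_self (hden ζ)]
    rw [h4, norm_div, hnorm]
    have h5 : 0 < ‖A‖ * Real.exp (2 * p * ζ.re) :=
      mul_pos (norm_pos_iff.2 hA) (Real.exp_pos _)
    rwa [div_le_iff₀ h5]
  have hqs : ∀ ζ : ℂ, |ζ.re - t| < 2 → |ζ.im| < H + e / 8 → q ζ ∈ Complex.slitPlane := by
    intro ζ h1 h2
    have h3 := (hq1 ζ h1 h2).trans (min_le_left _ _)
    have h4 := Complex.mem_slitPlane_of_norm_lt_one (z := q ζ - 1) (lt_of_le_of_lt h3 (by norm_num))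
    rwa [add_sub_cancel] at h4
  have hDS : {w : ℂ | |w.re - t| < 2 ∧ |w.im| < H + e / 8} ⊆ Str := by
    intro w hw
    show |w.im| < Real.pi / 2
    have := hw.2
    rw [hH] at this
    linarith
  let g : ℂ → ℂ := fun ζ => -(1 / (2 * p) : ℂ) * Complex.log (q ζ)
  have hpc : (p : ℂ) ≠ 0 := Complex.ofReal_ne_zero.2 hp.ne'
  have hqd : DifferentiableOn ℂ q {w : ℂ | |w.re - t| < 2 ∧ |w.im| < H + e / 8} := by
    refine (hF.mono hDS).div ?_ fun w _ => hden w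
    exact (Differentiable.differentiableOn (by fun_prop))
  have hgd : DifferentiableOn ℂ g {w : ℂ | |w.re - t| < 2 ∧ |w.im| < H + e / 8} :=
    (hqd.clog fun w hw => hqs w hw.1 hw.2).const_mul _
  have hgb : ∀ w : ℂ, |w.re - t| < 2 → |w.im| < H + e / 8 → ‖g w‖ ≤ δ1 := by
    intro w h1 h2
    have h3 := hq1 w h1 h2
    have h4 := Complex.norm_log_one_add_half_le_self (z := q w - 1) (h3.trans (min_le_left _ _))
    rw [add_sub_cancel] at h4
    have h5 := h3.trans (min_le_right _ _)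
    have h6 : ‖-(1 / (2 * p) : ℂ)‖ = 1 / (2 * p) := by
      rw [norm_neg, norm_div, norm_one, norm_mul, Complex.norm_real, Real.norm_eq_abs,
        abs_of_pos hp]
      norm_num
    simp only [g]
    rw [norm_mul, h6]
    have h7 : ‖Complex.log (q w)‖ ≤ 3 / 2 * (p * δ1) := by linarith
    calc 1 / (2 * p) * ‖Complex.log (q w)‖ ≤ 1 / (2 * p) * (3 / 2 * (p * δ1)) :=
          mul_le_mul_of_nonneg_left h7 (by positivity)
      _ = 3 / 4 * δ1 := by
          field_simp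
          ring
      _ ≤ δ1 := by linarith
  have hFg : ∀ w : ℂ, |w.re - t| < 2 → |w.im| < H + e / 8 →
      F w = A * Complex.exp (2 * p * (w - g w)) := by
    intro w h1 h2
    have h3 : q w ≠ 0 := Complex.slitPlane_ne_zero (hqs w h1 h2)
    have h4 : 2 * (p : ℂ) * (w - g w) = 2 * p * w + Complex.log (q w) := by
      simp only [g]
      field_simp
      ring
    rw [h4, Complex.exp_add, Complex.exp_log h3]
    simp only [q]
    rw [← mul_assoc, mul_div_cancel₀ _ (hden w)]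
  obtain ⟨J, hJ1, hJ2, hb1, hb2, he1', he2'⟩ := hfix t s H (e / 8) δ1 g hs (by positivity)
    (by linarith) h0 hH2 hδ1p hCfδ hgd hgb
  have hdd := disp_diff hs h0 hH2 hJ1 hJ2 hb1 hb2
  obtain ⟨hbi, hbm, hbo⟩ := hdisp t s H δ1 J hs h0 hH2 hδ1p.le hb1 hb2
  have hmulle : ∀ x : ℝ, 0 ≤ x → Cb * δ1 * x ≤ e / 1000 * x := fun x hx =>
    mul_le_mul_of_nonneg_right hCbδ hx
  have hexp1 : ∀ x : ℝ, Real.exp (-|x|) ≤ 1 := fun x => by
    rw [Real.exp_le_one_iff]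
    have := abs_nonneg x
    linarith
  have hpi2 := Real.pi_lt_d2
  have him : ∀ {τ : ℝ} {w : ℂ}, w ∈ Zn τ H → |w.im| ≤ 2 := fun hw =>
    hw.2.le.trans (by linarith)
  have hpt : ∀ {a d : ℂ}, a ∈ Zn t H → ‖d‖ ≤ e / 1000 →
      |(a + d).re - t| < 2 ∧ |(a + d).im| < H + e / 8 := by
    intro a d ha hd
    have h1 := (Complex.abs_re_le_norm d).trans hd
    have h2 := (Complex.abs_im_le_norm d).trans hd
    have h3 := ha.1
    have h4 := ha.2
    rw [Complex.add_re, Complex.add_im]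
    rw [abs_le] at h1 h2
    rw [abs_lt] at h3 h4 ⊢
    rw [abs_lt]
    refine ⟨⟨?_, ?_⟩, ?_, ?_⟩ <;> linarith [h1.1, h1.2, h2.1, h2.2, h3.1, h3.2, h4.1, h4.2]
  have hbi' : ∀ w : ℂ, |w.im| ≤ 2 → (w.re ≤ t - 1 / 2 ∨ w ∈ Zn t H) →
      ‖rin t s H J w‖ ≤ e / 1000 * Real.exp (-|w.re - t|) := fun w h1 h2 =>
    (hbi w h1 h2).trans (hmulle _ (Real.exp_pos _).le)
  have hbo' : ∀ w : ℂ, |w.im| ≤ 2 → (t + s + 1 / 2 ≤ w.re ∨ w ∈ Zn (t + s) H) →
      ‖rout t s H J w‖ ≤ e / 1000 * Real.exp (-|w.re - t - s|) := fun w h1 h2 =>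
    (hbo w h1 h2).trans (hmulle _ (Real.exp_pos _).le)
  refine ⟨J, hp, he, he1, hs, hF, hA, hdd.1, hdd.2.1, hdd.2.2, hbi', fun w h1 h2 =>
    (hbm w h1 h2).trans (hmulle _ (add_pos (Real.exp_pos _) (Real.exp_pos _)).le), hbo',
    fun w hw => ?_, fun w hw => ?_⟩
  · have h1 : ‖rin t s H J w‖ ≤ e / 1000 := by
      have h2 := hbi' w (him hw) (Or.inr hw)
      have h3 := mul_le_mul_of_nonneg_left (hexp1 (w.re - t)) (by positivity : 0 ≤ e / 1000)
      linarith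
    have h2 := hpt hw h1
    have h3 := abs_lt.1 hw.1
    rw [hFg _ h2.1 h2.2, ← he1' w hw]
    have h4 : rmid t s H J w = rin t s H J w - J w := by
      unfold rmid rin
      rw [FixAux.cl_lo (x := w.re - t - s) (by linarith [h3.2])]
      push_cast
      ring
    rw [h4, add_sub_assoc]
  · have h1 : ‖rout t s H J w‖ ≤ e / 1000 := by
      have h2 := hbo' w (him hw) (Or.inr hw)
      have h3 := mul_le_mul_of_nonneg_left (hexp1 (w.re - t - s)) (by positivity : 0 ≤ e / 1000)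
      linarith
    have hshift : w - s ∈ Zn t H := by
      refine ⟨?_, ?_⟩
      · rw [Complex.sub_re, Complex.ofReal_re]
        have := hw.1
        rwa [show w.re - s - t = w.re - (t + s) by ring]
      · rw [Complex.sub_im, Complex.ofReal_im, sub_zero]
        exact hw.2
    have h2 := hpt hshift h1
    have h3 := abs_lt.1 hw.1
    have h5 : w + rout t s H J w - s = w - s + rout t s H J w := by ring
    rw [h5, hFg _ h2.1 h2.2, ← he2' w hw]
    have h4 : rmid t s H J w = rout t s H J w - J w := by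
      unfold rmid rout
      rw [FixAux.cl_hi (x := w.re - t) (by linarith [h3.1])]
      push_cast
      ring
    rw [h4]
    have h6 : ((Real.exp (2 * p * s) : ℝ) : ℂ) = Complex.exp (2 * p * s) := by
      push_cast
      rfl
    rw [h6, mul_left_comm, ← Complex.exp_add]
    congr 2
    ring

end MQV
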