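import Pool.Agent.MQV.Mns
import Pool.Agent.MPV.Trf

set_option autoImplicit false

/-!
# MQV HAR : Harnack type bound (upwards)

`f` mean `p`-valent in the disc, `|f| ≤ M` on `|z| ≤ 1/2` implies `|f| ≤ C(p,ρ) M` on `|z| ≤ ρ < 1`.

PROOF.  `M = 1` by scaling (`MV.const_mul`).  `g = f ∘ mob z` (`MPV.mob z 0 = z`).  By
`mean_zero_le` integrated over the radius (weight `r dr`),
`π log (1 + |f z|²) = π log (1 + |g 0|²) ≤ ∫_D log (1 + |g|²) dA`
`= ∫_D log (1 + |f w|²) |(mob z)^{-1}'(w)|² dA(w) ≤ ((1+|z|)/(1-|z|))² ∫_D log (1+|f|²) dA`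
(change of variables by the automorphism, whose inverse is `mob (-z)` with
`|deriv| = (1-|z|²)/|1 - conj z w|² ≤ (1+|z|)/(1-|z|)`), and `area_mean_le`.
-/

open MeasureTheory Metric Set

namespace MQV

private theorem det_smul_one (w : ℂ) : (w • (1 : ℂ →L[ℝ] ℂ)).det = ‖w‖ ^ 2 := by
  have h1 : ((w • (1 : ℂ →L[ℝ] ℂ) : ℂ →L[ℝ] ℂ) : ℂ →ₗ[ℝ] ℂ) = Algebra.lmul ℝ ℂ w := by
    ext z
    simp
  rw [ContinuousLinearMap.det, h1]
  have := Algebra.norm_complex_apply w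
  rw [Algebra.norm_apply] at this
  rw [this, Complex.normSq_eq_norm_sq]

private theorem mob_den' {a : ℂ} (ha : ‖a‖ < 1) {z : ℂ} (hz : z ∈ ball (0 : ℂ) 1) :
    1 + (starRingEnd ℂ) a * z ≠ 0 := by
  intro h
  rw [mem_ball_zero_iff] at hz
  have h1 : ‖(starRingEnd ℂ) a * z‖ < 1 := by
    rw [norm_mul, Complex.norm_conj]
    calc ‖a‖ * ‖z‖ ≤ 1 * ‖z‖ := mul_le_mul_of_nonneg_right ha.le (norm_nonneg _)
      _ < 1 := by rw [one_mul]; exact hz
  have h2 : (starRingEnd ℂ) a * z = -1 := by linear_combination h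
  rw [h2, norm_neg, norm_one] at h1
  exact lt_irrefl _ h1

private theorem mob_injOn' {a : ℂ} (ha : ‖a‖ < 1) : InjOn (MPV.mob a) (ball (0 : ℂ) 1) := by
  intro z hz z' hz' hzz
  have hd := mob_den' ha hz
  have hd' := mob_den' ha hz'
  unfold MPV.mob at hzz
  rw [div_eq_div_iff hd hd'] at hzz
  have h1 : (z - z') * (1 - a * (starRingEnd ℂ) a) = 0 := by linear_combination hzz
  rcases mul_eq_zero.1 h1 with h2 | h2
  · exact sub_eq_zero.1 h2
  · exfalso
    have h3 : a * (starRingEnd ℂ) a = ((‖a‖ ^ 2 : ℝ) : ℂ) := by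
      rw [Complex.mul_conj, Complex.normSq_eq_norm_sq]
    rw [h3] at h2
    have h4 : (1 - ‖a‖ ^ 2 : ℝ) = 0 := by exact_mod_cast h2
    nlinarith [norm_nonneg a]

private theorem mob_hasDerivAt {a : ℂ} (ha : ‖a‖ < 1) {z : ℂ} (hz : z ∈ ball (0 : ℂ) 1) :
    HasDerivAt (MPV.mob a) (((1 - ‖a‖ ^ 2 : ℝ) : ℂ) / (1 + (starRingEnd ℂ) a * z) ^ 2) z := by
  have h1 : HasDerivAt (fun z : ℂ => z + a) 1 z := (hasDerivAt_id z).add_const a
  have h2 : HasDerivAt (fun z : ℂ => 1 + (starRingEnd ℂ) a * z) ((starRingEnd ℂ) a) z := by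
    simpa using ((hasDerivAt_id z).const_mul ((starRingEnd ℂ) a)).const_add 1
  have hd := mob_den' ha hz
  have h3 := h1.div h2 hd
  have h5 : a * (starRingEnd ℂ) a = ((‖a‖ ^ 2 : ℝ) : ℂ) := by
    rw [Complex.mul_conj, Complex.normSq_eq_norm_sq]
  refine h3.congr_deriv ?_
  congr 1
  push_cast at h5 ⊢
  rw [← h5]
  ring

/-- change of variables by an automorphism of the disc, for nonnegative functions, with the
crude density bound -/
theorem lint_mob {a : ℂ} (ha : ‖a‖ < 1) {u : ℂ → ENNReal} :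
    ∫⁻ z in ball (0 : ℂ) 1, u (MPV.mob a z) ≤
      ENNReal.ofReal (((1 + ‖a‖) / (1 - ‖a‖)) ^ 2) * ∫⁻ z in ball (0 : ℂ) 1, u z := by
  have ha0 := norm_nonneg a
  have key := lintegral_image_eq_lintegral_abs_det_fderiv_mul (volume : Measure ℂ)
    measurableSet_ball (s := ball (0 : ℂ) 1) (f := MPV.mob a)
    (f' := fun z => (((1 - ‖a‖ ^ 2 : ℝ) : ℂ) / (1 + (starRingEnd ℂ) a * z) ^ 2) •
      (1 : ℂ →L[ℝ] ℂ))
    (fun z hz => ((mob_hasDerivAt ha hz).complexToReal_fderiv).hasFDerivWithinAt)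
    (mob_injOn' ha) u
  have hsub : MPV.mob a '' ball (0 : ℂ) 1 ⊆ ball (0 : ℂ) 1 := by
    rintro _ ⟨z, hz, rfl⟩
    exact MPV.mob_mapsTo ha hz
  have h1 : ∫⁻ z in ball (0 : ℂ) 1, u (MPV.mob a z) ≤
      ∫⁻ z in ball (0 : ℂ) 1, ENNReal.ofReal (((1 + ‖a‖) / (1 - ‖a‖)) ^ 2) *
        (ENNReal.ofReal |((((1 - ‖a‖ ^ 2 : ℝ) : ℂ) / (1 + (starRingEnd ℂ) a * z) ^ 2) •
          (1 : ℂ →L[ℝ] ℂ)).det| * u (MPV.mob a z)) := by
    refine setLIntegral_mono' measurableSet_ball fun z hz => ?_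
    rw [← mul_assoc, ← ENNReal.ofReal_mul (by positivity)]
    have h2 : (1 : ℝ) ≤ ((1 + ‖a‖) / (1 - ‖a‖)) ^ 2 *
        |((((1 - ‖a‖ ^ 2 : ℝ) : ℂ) / (1 + (starRingEnd ℂ) a * z) ^ 2) •
          (1 : ℂ →L[ℝ] ℂ)).det| := by
      rw [det_smul_one, abs_of_nonneg (sq_nonneg _), ← mul_pow]
      refine one_le_pow₀ ?_
      rw [norm_div, norm_pow, Complex.norm_real, Real.norm_eq_abs,
        abs_of_pos (by nlinarith : (0 : ℝ) < 1 - ‖a‖ ^ 2)]
      have hd := norm_pos_iff.2 (mob_den' ha hz)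
      have hd2 : ‖1 + (starRingEnd ℂ) a * z‖ ≤ 1 + ‖a‖ := by
        refine (norm_add_le _ _).trans ?_
        rw [norm_one, norm_mul, Complex.norm_conj]
        rw [mem_ball_zero_iff] at hz
        nlinarith
      have h1a : 0 < 1 - ‖a‖ := by linarith
      rw [div_mul_div_comm, le_div_iff₀ (by positivity), one_mul]
      have : ‖1 + (starRingEnd ℂ) a * z‖ ^ 2 ≤ (1 + ‖a‖) ^ 2 :=
        pow_le_pow_left₀ hd.le hd2 2
      calc (1 - ‖a‖) * ‖1 + (starRingEnd ℂ) a * z‖ ^ 2 ≤ (1 - ‖a‖) * (1 + ‖a‖) ^ 2 :=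
            mul_le_mul_of_nonneg_left this h1a.le
        _ = (1 + ‖a‖) * (1 - ‖a‖ ^ 2) := by ring
    calc u (MPV.mob a z) = 1 * u (MPV.mob a z) := (one_mul _).symm
      _ ≤ _ := by
        refine mul_le_mul' ?_ le_rfl
        rw [← ENNReal.ofReal_one]
        exact ENNReal.ofReal_le_ofReal h2
  refine h1.trans ?_
  rw [lintegral_const_mul' _ _ ENNReal.ofReal_ne_top]
  refine mul_le_mul' le_rfl ?_
  rw [← key]
  exact lintegral_mono_set hsub

/-- the area mean of `log (1 + |g|²)` dominates the value at the centre -/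
private theorem centre_le {g : ℂ → ℂ} (hg : DifferentiableOn ℂ g (ball 0 1)) :
    ENNReal.ofReal (Real.pi * Real.log (1 + ‖g 0‖ ^ 2)) ≤
      ∫⁻ z in ball (0 : ℂ) 1, ENNReal.ofReal (Real.log (1 + ‖g z‖ ^ 2)) := by
  have hgc : ContinuousOn g (ball 0 1) := hg.continuousOn
  have hlog0 : ∀ w : ℂ, 0 ≤ Real.log (1 + ‖w‖ ^ 2) := fun w =>
    Real.log_nonneg (by nlinarith [norm_nonneg w])
  rw [← lintegral_indicator measurableSet_ball, ← Complex.lintegral_comp_polarCoord_symm]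
  set T : Set (ℝ × ℝ) := Set.Ioo 0 1 ×ˢ Set.Ioo (-Real.pi) Real.pi with hT
  have hTm : MeasurableSet T := measurableSet_Ioo.prod measurableSet_Ioo
  have hTsub : T ⊆ polarCoord.target := by
    rintro ⟨r, θ⟩ ⟨h2, h3⟩
    exact ⟨h2.1, h3⟩
  refine le_trans ?_ (lintegral_mono_set hTsub)
  have hTA : ∀ p ∈ T, Complex.polarCoord.symm p ∈ ball (0:ℂ) 1 := by
    rintro ⟨r, θ⟩ ⟨h2, h3⟩
    have h4 : ‖Complex.polarCoord.symm (r, θ)‖ = r := by
      rw [Complex.norm_polarCoord_symm]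
      exact abs_of_pos h2.1
    rw [mem_ball_zero_iff, h4]
    exact h2.2
  have hcong : ∫⁻ p in T, ENNReal.ofReal p.1 •
      (ball (0:ℂ) 1).indicator (fun z => ENNReal.ofReal (Real.log (1 + ‖g z‖ ^ 2)))
        (Complex.polarCoord.symm p)
      = ∫⁻ p in T, ENNReal.ofReal
        (p.1 * Real.log (1 + ‖g (p.1 * Complex.exp (p.2 * Complex.I))‖ ^ 2)) := by
    refine setLIntegral_congr_fun hTm (fun p hp => ?_)
    rw [Set.indicator_of_mem (hTA p hp), smul_eq_mul, ← ENNReal.ofReal_mul hp.1.1.le]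
    congr 5
    rw [Complex.polarCoord_symm_apply, Complex.exp_mul_I]
    simp
  rw [hcong]
  have hTc : ContinuousOn (fun p : ℝ × ℝ =>
      p.1 * Real.log (1 + ‖g (p.1 * Complex.exp (p.2 * Complex.I))‖ ^ 2)) T := by
    refine continuousOn_fst.mul (ContinuousOn.log (continuousOn_const.add
      (ContinuousOn.pow (ContinuousOn.norm ?_) 2)) (fun p _ => by positivity))
    refine hgc.comp (by fun_prop) (fun p hp => ?_)
    have h2 := hTA p hp
    rwa [Complex.polarCoord_symm_apply, Complex.ofReal_cos, Complex.ofReal_sin,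
      ← Complex.exp_mul_I] at h2
  have hvp : (volume : Measure (ℝ × ℝ)).restrict T
      = ((volume : Measure ℝ).restrict (Set.Ioo 0 1)).prod
        ((volume : Measure ℝ).restrict (Set.Ioo (-Real.pi) Real.pi)) := by
    rw [Measure.prod_restrict, ← Measure.volume_eq_prod]
  have hae : AEMeasurable (fun p : ℝ × ℝ =>
      ENNReal.ofReal (p.1 * Real.log (1 + ‖g (p.1 * Complex.exp (p.2 * Complex.I))‖ ^ 2)))
      (((volume : Measure ℝ).restrict (Set.Ioo 0 1)).prod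
        ((volume : Measure ℝ).restrict (Set.Ioo (-Real.pi) Real.pi))) := by
    rw [← hvp]
    exact (hTc.aemeasurable hTm).ennreal_ofReal
  rw [hvp, lintegral_prod _ hae]
  have hinner : ∀ r ∈ Set.Ioo (0 : ℝ) 1,
      ENNReal.ofReal (r * (2 * Real.pi * Real.log (1 + ‖g 0‖ ^ 2)))
      ≤ ∫⁻ θ in Set.Ioo (-Real.pi) Real.pi,
        ENNReal.ofReal (r * Real.log (1 + ‖g (r * Complex.exp (θ * Complex.I))‖ ^ 2)) := by
    intro r hr
    have hr0 : 0 < r := hr.1
    have hr1 : r < 1 := hr.2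
    have hcts : Continuous (fun θ : ℝ =>
        r * Real.log (1 + ‖g (r * Complex.exp (θ * Complex.I))‖ ^ 2)) := by
      refine continuous_const.mul (Continuous.log (continuous_const.add
        (Continuous.pow (Continuous.norm ?_) 2)) (fun θ => by positivity))
      refine hgc.comp_continuous (by fun_prop) (fun θ => ?_)
      rw [mem_ball_zero_iff, norm_mul, Complex.norm_exp_ofReal_mul_I, Complex.norm_real, mul_one,
        Real.norm_eq_abs, abs_of_pos hr0]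
      exact hr1
    have hint : IntegrableOn (fun θ : ℝ =>
        r * Real.log (1 + ‖g (r * Complex.exp (θ * Complex.I))‖ ^ 2))
        (Set.Ioo (-Real.pi) Real.pi) :=
      (hcts.integrableOn_Icc (a := -Real.pi) (b := Real.pi)).mono_set Set.Ioo_subset_Icc_self
    rw [← ofReal_integral_eq_lintegral_ofReal hint
      (ae_of_all _ (fun θ => mul_nonneg hr0.le (hlog0 _)))]
    refine ENNReal.ofReal_le_ofReal ?_
    rw [integral_const_mul]
    refine mul_le_mul_of_nonneg_left ?_ hr0.le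
    refine (mean_zero_le hg hr0 hr1).trans (le_of_eq ?_)
    unfold cm
    rw [← integral_Ioc_eq_integral_Ioo,
      ← intervalIntegral.integral_of_le (by linarith [Real.pi_pos])]
    have hper : Function.Periodic
        (fun t : ℝ => Real.log (1 + ‖g (circleMap 0 r t)‖ ^ 2)) (2 * Real.pi) := by
      intro t
      simp only [(periodic_circleMap 0 r) t]
    have := hper.intervalIntegral_add_eq 0 (-Real.pi)
    rw [zero_add] at this
    rw [this]
    have e1 : -Real.pi + 2 * Real.pi = Real.pi := by ring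
    rw [e1]
    simp only [circleMap, zero_add]
  refine le_trans ?_ (setLIntegral_mono' measurableSet_Ioo hinner)
  have hL := hlog0 (g 0)
  have hcont : Continuous fun r : ℝ => r * (2 * Real.pi * Real.log (1 + ‖g 0‖ ^ 2)) := by
    fun_prop
  rw [← ofReal_integral_eq_lintegral_ofReal
    ((hcont.integrableOn_Icc (a := 0) (b := 1)).mono_set Set.Ioo_subset_Icc_self)
    ((ae_restrict_iff' measurableSet_Ioo).2 (ae_of_all _ fun r hr => by
      have := hr.1
      have := Real.pi_pos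
      positivity))]
  refine ENNReal.ofReal_le_ofReal ?_
  rw [← integral_Ioc_eq_integral_Ioo, ← intervalIntegral.integral_of_le zero_le_one,
    intervalIntegral.integral_mul_const, integral_id]
  linarith

theorem harnack {p : ℝ} (hp : 0 < p) {ρ : ℝ} (hρ0 : 0 < ρ) (hρ : ρ < 1) : ∃ C : ℝ, 1 ≤ C ∧
    ∀ f : ℂ → ℂ, MV (ball 0 1) p f → ∀ M : ℝ, 0 < M → (∀ z : ℂ, ‖z‖ ≤ 1 / 2 → ‖f z‖ ≤ M) →
      ∀ z : ℂ, ‖z‖ ≤ ρ → ‖f z‖ ≤ C * M := by
  obtain ⟨C₀, hC₀, hA⟩ := area_mean_le hp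
  have hρ1 : 0 < 1 - ρ := by linarith
  set K : ℝ := ((1 + ρ) / (1 - ρ)) ^ 2 with hK
  have hK0 : 0 ≤ K := by positivity
  have hpi := Real.pi_pos
  refine ⟨Real.exp (K * C₀ / Real.pi), Real.one_le_exp (by positivity), ?_⟩
  intro f hf M hM hfM z hz
  have hz1 : ‖z‖ < 1 := lt_of_le_of_lt hz hρ
  have hf1 : MV (ball 0 1) p (fun w => (M⁻¹ : ℂ) * f w) := hf.const_mul isOpen_ball hp.le _
  have hnorm : ∀ w, ‖(M⁻¹ : ℂ) * f w‖ = ‖f w‖ / M := by
    intro w
    rw [norm_mul, norm_inv, Complex.norm_real, Real.norm_eq_abs, abs_of_pos hM]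
    field_simp
  have h1 := hA _ hf1 (fun w hw => by
    rw [hnorm, div_le_one hM]
    exact hfM w hw)
  have hf2 : MV (ball 0 1) p (fun w => (M⁻¹ : ℂ) * f (MPV.mob z w)) := hf1.mob hz1
  have h2 := centre_le hf2.diff
  have h3 := lint_mob (a := z) hz1
    (u := fun w => ENNReal.ofReal (Real.log (1 + ‖(M⁻¹ : ℂ) * f w‖ ^ 2)))
  have h4 : ENNReal.ofReal (((1 + ‖z‖) / (1 - ‖z‖)) ^ 2) ≤ ENNReal.ofReal K := by
    refine ENNReal.ofReal_le_ofReal ?_
    rw [hK]
    have : 0 < 1 - ‖z‖ := by linarith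
    have hz0 := norm_nonneg z
    refine pow_le_pow_left₀ (by positivity) ?_ 2
    rw [div_le_div_iff₀ this hρ1]
    nlinarith
  have h5 : ENNReal.ofReal (Real.pi * Real.log (1 + ‖(M⁻¹ : ℂ) * f (MPV.mob z 0)‖ ^ 2)) ≤
      ENNReal.ofReal (K * C₀) := by
    rw [ENNReal.ofReal_mul hK0]
    exact h2.trans (h3.trans (mul_le_mul' h4 h1))
  have h6 : Real.pi * Real.log (1 + ‖(M⁻¹ : ℂ) * f (MPV.mob z 0)‖ ^ 2) ≤ K * C₀ :=
    (ENNReal.ofReal_le_ofReal_iff (by positivity)).1 h5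
  have h7 : MPV.mob z 0 = z := by
    unfold MPV.mob
    simp
  rw [h7, hnorm] at h6
  have h8 : Real.log (1 + (‖f z‖ / M) ^ 2) ≤ K * C₀ / Real.pi := by
    rw [le_div_iff₀ hpi]
    linarith
  have h9 : 1 + (‖f z‖ / M) ^ 2 ≤ Real.exp (K * C₀ / Real.pi) := by
    rw [← Real.log_le_iff_le_exp (by positivity)]
    exact h8
  have h10 : ‖f z‖ / M ≤ Real.exp (K * C₀ / Real.pi) := by
    nlinarith [sq_nonneg (‖f z‖ / M - 1 / 2)]
  rwa [div_le_iff₀ hM] at h10

end MQV
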