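import Pool.Agent.MQV.Defs

set_option autoImplicit false

/-!
# MQV KER : bounds for the Gaussian area Cauchy transform

`E1 t H J ζ = -(1/2π) ∫_{Qr t H} J(ω) e^{-(ζ-ω)²} / (ζ-ω) dA(ω)`, `Qr t H` = rectangle of width `1`
and height `2H ≤ π`.  For `|Im ζ| ≤ 2` and `ω ∈ Qr t H`: `|Im (ζ-ω)| ≤ 4`, hence
`|e^{-(ζ-ω)²}| ≤ e^{16} e^{-(Re ζ - Re ω)²} ≤ C e^{-|Re ζ - t|}`, and `∫_{Qr} dA(ω)/|ζ-ω|` is at most
a constant (the rectangle minus the unit disc about `ζ` contributes at most its area; `1/|ω|` is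
integrable on the unit disc with integral `2π`).
-/

open MeasureTheory Metric Set

namespace MQV

theorem Qr_open (t H : ℝ) : IsOpen (Qr t H) :=
  (isOpen_lt (continuous_abs.comp (Complex.continuous_re.sub continuous_const))
    continuous_const).inter
    (isOpen_lt (continuous_abs.comp Complex.continuous_im) continuous_const)

theorem Qr_meas (t H : ℝ) : MeasurableSet (Qr t H) := (Qr_open t H).measurableSet

theorem Qr_sub_ball (t H : ℝ) (hH : H ≤ Real.pi / 2) : Qr t H ⊆ ball (t : ℂ) (17 / 10) := by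
  intro ω hω
  rw [mem_ball, dist_eq_norm]
  have h1 := hω.1
  have h2 := hω.2
  have h3 : ‖ω - t‖ ^ 2 < (17 / 10) ^ 2 := by
    rw [← Complex.normSq_eq_norm_sq, Complex.normSq_apply]
    simp only [Complex.sub_re, Complex.sub_im, Complex.ofReal_re, Complex.ofReal_im, sub_zero]
    have h4 : (ω.re - t) * (ω.re - t) ≤ 1 / 4 := by
      rw [abs_lt] at h1
      nlinarith
    have h5 : |ω.im| < 1.575 := by linarith [Real.pi_lt_d2]
    have h6 : ω.im * ω.im < 1.575 ^ 2 := by
      rw [abs_lt] at h5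
      nlinarith
    norm_num at h6 ⊢
    linarith
  exact lt_of_pow_lt_pow_left₀ 2 (by norm_num) h3

theorem Qr_bdd (t H : ℝ) : Qr t H ⊆ ball (t : ℂ) (1 + |H|) := by
  intro ω hω
  rw [mem_ball, dist_eq_norm]
  have h1 := hω.1
  have h2 := hω.2
  have h3 := Complex.norm_le_abs_re_add_abs_im (ω - t)
  simp only [Complex.sub_re, Complex.sub_im, Complex.ofReal_re, Complex.ofReal_im, sub_zero] at h3
  linarith [le_abs_self H]

theorem Qr_fin (t H : ℝ) : volume (Qr t H) < ⊤ :=
  lt_of_le_of_lt (measure_mono (Qr_bdd t H)) measure_ball_lt_top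

/-- The integral of `1/|u|` over the unit disc. -/
theorem inv_ball : ∫⁻ u in ball (0 : ℂ) 1, ENNReal.ofReal ‖u‖⁻¹ ≤
    ENNReal.ofReal (2 * Real.pi) := by
  rw [← lintegral_indicator measurableSet_ball]
  rw [← Complex.lintegral_comp_polarCoord_symm]
  have h1 : ∀ p ∈ polarCoord.target, ENNReal.ofReal p.1 •
      (ball (0 : ℂ) 1).indicator (fun a => ENNReal.ofReal ‖a‖⁻¹) (Complex.polarCoord.symm p) ≤
      (Set.Icc (0 : ℝ) 1 ×ˢ Set.Icc (-Real.pi) Real.pi).indicator (fun _ => 1) p := by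
    intro p hp
    have hp1 : 0 < p.1 := hp.1
    have hp2 : p.2 ∈ Ioo (-Real.pi) Real.pi := hp.2
    have hn : ‖Complex.polarCoord.symm p‖ = p.1 := by
      rw [Complex.norm_polarCoord_symm, abs_of_pos hp1]
    by_cases h : Complex.polarCoord.symm p ∈ ball (0 : ℂ) 1
    · rw [indicator_of_mem h]
      have hR' : p.1 ≤ 1 := by
        rw [mem_ball_zero_iff, hn] at h; exact h.le
      rw [indicator_of_mem (show p ∈ Set.Icc (0 : ℝ) 1 ×ˢ Set.Icc (-Real.pi) Real.pi from
        ⟨⟨hp1.le, hR'⟩, ⟨hp2.1.le, hp2.2.le⟩⟩)]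
      rw [hn, smul_eq_mul, ← ENNReal.ofReal_mul hp1.le, mul_inv_cancel₀ hp1.ne']
      simp
    · rw [indicator_of_notMem h]
      simp
  refine le_trans (setLIntegral_mono' polarCoord.open_target.measurableSet h1) ?_
  refine le_trans (setLIntegral_le_lintegral _ _) ?_
  rw [lintegral_indicator (measurableSet_Icc.prod measurableSet_Icc)]
  simp only [lintegral_const, one_mul, MeasurableSet.univ, Measure.restrict_apply, univ_inter]
  rw [show (volume : Measure (ℝ × ℝ)) = (volume : Measure ℝ).prod volume from rfl,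
    Measure.prod_prod]
  simp only [Real.volume_Icc]
  rw [← ENNReal.ofReal_mul (by norm_num)]
  exact ENNReal.ofReal_le_ofReal (by linarith)

theorem inv_lint {s : Set ℂ} (hs : MeasurableSet s) (ζ : ℂ) :
    ∫⁻ ω in s, ENNReal.ofReal ‖ζ - ω‖⁻¹ ≤ volume s + ENNReal.ofReal (2 * Real.pi) := by
  have h1 : ∀ ω : ℂ, s.indicator (fun ω => ENNReal.ofReal ‖ζ - ω‖⁻¹) ω ≤
      s.indicator (fun _ => 1) ω +
        (ball (0 : ℂ) 1).indicator (fun u => ENNReal.ofReal ‖u‖⁻¹) (ζ - ω) := by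
    intro ω
    by_cases hω : ω ∈ s
    · rw [indicator_of_mem hω, indicator_of_mem hω]
      by_cases hb : ζ - ω ∈ ball (0 : ℂ) 1
      · rw [indicator_of_mem hb]
        exact le_add_self
      · rw [indicator_of_notMem hb, add_zero]
        rw [mem_ball_zero_iff, not_lt] at hb
        rw [show (1 : ENNReal) = ENNReal.ofReal 1 by simp]
        exact ENNReal.ofReal_le_ofReal (inv_le_one_of_one_le₀ hb)
    · rw [indicator_of_notMem hω]
      exact bot_le
  rw [← lintegral_indicator hs]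
  refine le_trans (lintegral_mono h1) ?_
  have hm : Measurable fun ω : ℂ =>
      (ball (0 : ℂ) 1).indicator (fun u => ENNReal.ofReal ‖u‖⁻¹) (ζ - ω) := by
    refine Measurable.comp (g := (ball (0 : ℂ) 1).indicator (fun u => ENNReal.ofReal ‖u‖⁻¹)) ?_
      (measurable_const.sub measurable_id)
    exact (measurable_norm.inv.ennreal_ofReal).indicator measurableSet_ball
  rw [lintegral_add_right _ hm, lintegral_indicator hs]
  refine add_le_add (by simp) ?_
  rw [lintegral_sub_left_eq_self (μ := volume)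
    (fun u : ℂ => (ball (0 : ℂ) 1).indicator (fun u => ENNReal.ofReal ‖u‖⁻¹) u) ζ,
    lintegral_indicator measurableSet_ball]
  exact inv_ball

theorem inv_meas (ζ : ℂ) : Measurable fun ω : ℂ => ‖ζ - ω‖⁻¹ :=
  ((measurable_const.sub measurable_id).norm).inv

theorem inv_int {s : Set ℂ} (hs : MeasurableSet s) (hf : volume s < ⊤) (ζ : ℂ) :
    IntegrableOn (fun ω : ℂ => ‖ζ - ω‖⁻¹) s := by
  refine ⟨(inv_meas ζ).aestronglyMeasurable, ?_⟩
  rw [hasFiniteIntegral_iff_norm]
  have h1 : ∀ ω : ℂ, ENNReal.ofReal ‖‖ζ - ω‖⁻¹‖ = ENNReal.ofReal ‖ζ - ω‖⁻¹ := fun ω => by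
    rw [Real.norm_of_nonneg (inv_nonneg.2 (norm_nonneg _))]
  simp only [h1]
  exact lt_of_le_of_lt (inv_lint hs ζ) (ENNReal.add_lt_top.2 ⟨hf, ENNReal.ofReal_lt_top⟩)

/-- `1/|ζ-ω|` is integrable over the rectangle, with a uniform bound. -/
theorem inv_integrable (t H : ℝ) (hH : H ≤ Real.pi / 2) (ζ : ℂ) :
    IntegrableOn (fun ω : ℂ => ‖ζ - ω‖⁻¹) (Qr t H) ∧
      ∫ ω in Qr t H, ‖ζ - ω‖⁻¹ ≤ 20 := by
  refine ⟨inv_int (Qr_meas t H) (Qr_fin t H) ζ, ?_⟩
  rw [integral_eq_lintegral_of_nonneg_ae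
    (Filter.Eventually.of_forall fun ω => inv_nonneg.2 (norm_nonneg _))
    (inv_meas ζ).aestronglyMeasurable]
  refine ENNReal.toReal_le_of_le_ofReal (by norm_num) ?_
  refine le_trans (inv_lint (Qr_meas t H) ζ) ?_
  refine le_trans (add_le_add (measure_mono (Qr_sub_ball t H hH)) le_rfl) ?_
  rw [Complex.volume_ball, ← ENNReal.ofReal_pow (by norm_num), mul_comm]
  have hpi : (NNReal.pi : ENNReal) = ENNReal.ofReal Real.pi := by
    rw [← NNReal.coe_real_pi, ENNReal.ofReal_coe_nnreal]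
  rw [hpi, ← ENNReal.ofReal_mul Real.pi_pos.le, ← ENNReal.ofReal_add (by positivity)
    (by positivity)]
  refine ENNReal.ofReal_le_ofReal ?_
  nlinarith [Real.pi_lt_d2]

/-- bound of the Gaussian factor. -/
theorem gauss_le {ζ ω : ℂ} {Y : ℝ} (hY : |(ζ - ω).im| ≤ Y) :
    ‖Complex.exp (-(ζ - ω) ^ 2)‖ ≤ Real.exp (Y ^ 2) * Real.exp (-((ζ - ω).re) ^ 2) := by
  rw [Complex.norm_exp, ← Real.exp_add]
  apply Real.exp_le_exp.2
  have h1 : (-(ζ - ω) ^ 2).re = (ζ - ω).im ^ 2 - (ζ - ω).re ^ 2 := by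
    rw [Complex.neg_re, sq, Complex.mul_re]
    ring
  rw [h1]
  have h2 : (ζ - ω).im ^ 2 ≤ Y ^ 2 := by
    rw [← sq_abs (ζ - ω).im]
    exact pow_le_pow_left₀ (abs_nonneg _) hY 2
  linarith

/-- uniform bound with exponential decay; no measurability of `J` is needed
(`norm_integral_le_of_norm_le`). -/
theorem E1_bound : ∃ C : ℝ, 1 ≤ C ∧ ∀ (t H B : ℝ) (J : ℂ → ℂ), H ≤ Real.pi / 2 → 0 ≤ B →
    (∀ ω ∈ Qr t H, ‖J ω‖ ≤ B) → ∀ ζ : ℂ, |ζ.im| ≤ 2 →
      ‖E1 t H J ζ‖ ≤ C * B * Real.exp (-|ζ.re - t|) := by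
  refine ⟨20 * Real.exp 17, ?_, fun t H B J hH hB hJ ζ hζ => ?_⟩
  · have := Real.add_one_le_exp (17 : ℝ)
    linarith
  obtain ⟨hi, hle⟩ := inv_integrable t H hH ζ
  have hbd : ∀ ω ∈ Qr t H, ‖J ω * Complex.exp (-(ζ - ω) ^ 2) / (ζ - ω)‖ ≤
      (B * (Real.exp 17 * Real.exp (-|ζ.re - t|))) * ‖ζ - ω‖⁻¹ := by
    intro ω hω
    rw [norm_div, norm_mul, div_eq_mul_inv]
    refine mul_le_mul_of_nonneg_right ?_ (inv_nonneg.2 (norm_nonneg _))
    refine mul_le_mul (hJ ω hω) ?_ (norm_nonneg _) hB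
    have h1 : |(ζ - ω).im| ≤ 4 := by
      rw [Complex.sub_im]
      have h2 := hω.2
      have h3 := abs_sub ζ.im ω.im
      linarith [Real.pi_lt_d2]
    refine le_trans (gauss_le h1) ?_
    rw [← Real.exp_add, ← Real.exp_add]
    apply Real.exp_le_exp.2
    have h2 : |ζ.re - t| ≤ |(ζ - ω).re| + 1 / 2 := by
      have h3 : ζ.re - t = (ζ - ω).re + (ω.re - t) := by rw [Complex.sub_re]; ring
      rw [h3]
      have h4 := hω.1
      linarith [abs_add_le (ζ - ω).re (ω.re - t)]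
    have h3 : |(ζ - ω).re| - 1 / 4 ≤ (ζ - ω).re ^ 2 := by
      rw [← sq_abs (ζ - ω).re]
      nlinarith [sq_nonneg (|(ζ - ω).re| - 1 / 2)]
    have h5 : (4 : ℝ) ^ 2 = 16 := by norm_num
    rw [h5]
    linarith
  have h1 : ‖∫ ω in Qr t H, J ω * Complex.exp (-(ζ - ω) ^ 2) / (ζ - ω)‖ ≤
      ∫ ω in Qr t H, (B * (Real.exp 17 * Real.exp (-|ζ.re - t|))) * ‖ζ - ω‖⁻¹ :=
    norm_integral_le_of_norm_le (hi.const_mul _) (ae_restrict_of_forall_mem (Qr_meas t H) hbd)
  rw [integral_const_mul] at h1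
  have h2 : ‖(-(1 / (2 * Real.pi) : ℂ))‖ ≤ 1 := by
    rw [norm_neg, norm_div, norm_one, norm_mul, Complex.norm_real, Complex.norm_ofNat,
      Real.norm_of_nonneg Real.pi_pos.le]
    rw [div_le_one (by positivity)]
    linarith [Real.pi_gt_three]
  unfold E1
  rw [norm_mul]
  have h3 : 0 ≤ B * (Real.exp 17 * Real.exp (-|ζ.re - t|)) := by positivity
  calc _ ≤ 1 * ((B * (Real.exp 17 * Real.exp (-|ζ.re - t|))) * 20) :=
        mul_le_mul h2 (h1.trans (mul_le_mul_of_nonneg_left hle h3)) (norm_nonneg _) zero_le_one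
    _ = _ := by ring

/-- The integrand of `E1` is integrable. -/
theorem E1_int {t H B : ℝ} {J : ℂ → ℂ} (hJ : ContinuousOn J (Qr t H))
    (hB : ∀ ω ∈ Qr t H, ‖J ω‖ ≤ B) (ζ : ℂ) :
    IntegrableOn (fun ω => J ω * Complex.exp (-(ζ - ω) ^ 2) / (ζ - ω)) (Qr t H) := by
  have hme : Measurable fun ω : ℂ => Complex.exp (-(ζ - ω) ^ 2) * (ζ - ω)⁻¹ :=
    (Complex.measurable_exp.comp ((measurable_const.sub measurable_id).pow_const 2).neg).mul
      (measurable_const.sub measurable_id).inv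
  have hm : AEStronglyMeasurable (fun ω => J ω * Complex.exp (-(ζ - ω) ^ 2) / (ζ - ω))
      (volume.restrict (Qr t H)) := by
    have h1 := (hJ.aestronglyMeasurable (Qr_meas t H)).mul
      (hme.aestronglyMeasurable (μ := volume.restrict (Qr t H)))
    refine h1.congr (Filter.Eventually.of_forall fun ω => ?_)
    simp only [Pi.mul_apply]
    ring
  refine Integrable.mono' (((inv_int (Qr_meas t H) (Qr_fin t H) ζ).const_mul
    (B * Real.exp ((|ζ.im| + |H|) ^ 2)))) hm ?_
  refine ae_restrict_of_forall_mem (Qr_meas t H) fun ω hω => ?_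
  rw [norm_div, norm_mul, div_eq_mul_inv]
  refine mul_le_mul_of_nonneg_right ?_ (inv_nonneg.2 (norm_nonneg _))
  refine mul_le_mul (hB ω hω) ?_ (norm_nonneg _) ((norm_nonneg _).trans (hB ω hω))
  have h1 : |(ζ - ω).im| ≤ |ζ.im| + |H| := by
    rw [Complex.sub_im]
    have h2 := hω.2
    have h3 := abs_sub ζ.im ω.im
    linarith [le_abs_self H]
  refine (gauss_le h1).trans ?_
  have h2 : Real.exp (-((ζ - ω).re) ^ 2) ≤ 1 := Real.exp_le_one_iff.2 (by nlinarith [sq_nonneg (ζ - ω).re])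
  exact mul_le_of_le_one_right (Real.exp_pos _).le h2

/-- linearity, in the form needed for contractions. -/
theorem E1_sub {t H B : ℝ} {J J' : ℂ → ℂ} (hH : H ≤ Real.pi / 2) (hJ : ContinuousOn J (Qr t H))
    (hJ' : ContinuousOn J' (Qr t H)) (hB : ∀ ω ∈ Qr t H, ‖J ω‖ ≤ B)
    (hB' : ∀ ω ∈ Qr t H, ‖J' ω‖ ≤ B) (ζ : ℂ) :
    E1 t H J ζ - E1 t H J' ζ = E1 t H (fun ω => J ω - J' ω) ζ := by
  unfold E1
  rw [← mul_sub, ← integral_sub (E1_int hJ hB ζ) (E1_int hJ' hB' ζ)]
  congr 2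
  funext ω
  ring

/-- only the values of `J` on the rectangle matter. -/
theorem E1_congr {t H : ℝ} {J J' : ℂ → ℂ} (h : ∀ ω ∈ Qr t H, J ω = J' ω) (ζ : ℂ) :
    E1 t H J ζ = E1 t H J' ζ := by
  unfold E1
  congr 1
  refine setIntegral_congr_fun (Qr_meas t H) fun ω hω => ?_
  simp only [h ω hω]

/-- Analytic dependence on a parameter of a bounded family. -/
theorem param_int {α : Type*} [MeasurableSpace α] {μ : Measure α} [IsFiniteMeasure μ]
    {g : ℂ → α → ℂ} {z0 : ℂ} {r M : ℝ} (hr : 0 < r)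
    (hm : ∀ z ∈ ball z0 (3 * r), AEStronglyMeasurable (g z) μ)
    (hd : ∀ᵐ a ∂μ, DifferentiableOn ℂ (fun z => g z a) (ball z0 (3 * r)))
    (hb : ∀ᵐ a ∂μ, ∀ z ∈ ball z0 (3 * r), ‖g z a‖ ≤ M) :
    DifferentiableAt ℂ (fun z => ∫ a, g z a ∂μ) z0 := by
  have hz0 : z0 ∈ ball z0 (3 * r) := mem_ball_self (by positivity)
  have hsub : ∀ z ∈ ball z0 r, closedBall z r ⊆ ball z0 (3 * r) := by
    intro z hz w hw
    rw [mem_closedBall] at hw
    rw [mem_ball] at hz ⊢
    have h1 := dist_triangle w z z0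
    linarith
  have hsub1 : ball z0 r ⊆ ball z0 (3 * r) := ball_subset_ball (by linarith)
  have key := hasDerivAt_integral_of_dominated_loc_of_deriv_le (μ := μ)
    (F := g) (F' := fun z t => deriv (fun z => g z t) z) (bound := fun _ => M / r)
    (x₀ := z0) (ball_mem_nhds z0 hr) ?_ ?_ ?_ ?_ ?_ ?_
  · exact key.2.differentiableAt
  · filter_upwards [ball_mem_nhds z0 hr] with z hz using hm z (hsub1 hz)
  · refine Integrable.mono' (integrable_const M) (hm z0 hz0) ?_
    filter_upwards [hb] with a ha using ha z0 hz0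
  · -- the derivative is a limit of difference quotients
    obtain ⟨h, hh⟩ : ∃ h : ℕ → ℂ, h = fun n : ℕ => ((r / ((n : ℝ) + 2) : ℝ) : ℂ) := ⟨_, rfl⟩
    have hne : ∀ n, h n ≠ 0 := by
      intro n
      have h1 : r / ((n : ℝ) + 2) ≠ 0 := by positivity
      rw [hh]
      exact Complex.ofReal_ne_zero.mpr h1
    have hin : ∀ n, z0 + h n ∈ ball z0 (3 * r) := by
      intro n
      rw [mem_ball, dist_eq_norm, add_sub_cancel_left, hh]
      simp only
      rw [Complex.norm_real, Real.norm_eq_abs, abs_of_nonneg (by positivity)]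
      have h1 : r / ((n : ℝ) + 2) ≤ r := by
        apply div_le_self hr.le
        have : (0 : ℝ) ≤ n := Nat.cast_nonneg n
        linarith
      linarith
    have hlim : Filter.Tendsto h Filter.atTop (nhds 0) := by
      rw [hh]
      have h1 : Filter.Tendsto (fun n : ℕ => r / ((n : ℝ) + 2)) Filter.atTop (nhds 0) := by
        apply Filter.Tendsto.div_atTop tendsto_const_nhds
        exact Filter.tendsto_atTop_add_const_right _ _ tendsto_natCast_atTop_atTop
      have h2 := (Complex.continuous_ofReal.tendsto 0).comp h1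
      rw [Complex.ofReal_zero] at h2
      exact h2
    refine aestronglyMeasurable_of_tendsto_ae Filter.atTop
      (f := fun n t => (h n)⁻¹ * (g (z0 + h n) t - g z0 t)) ?_ ?_
    · intro n
      exact ((hm _ (hin n)).sub (hm z0 hz0)).const_mul _
    · filter_upwards [hd] with t ht
      have h1 := (hasDerivAt_iff_tendsto_slope.mp
        ((ht.differentiableAt (isOpen_ball.mem_nhds hz0)).hasDerivAt))
      have h2 : Filter.Tendsto (fun n => z0 + h n) Filter.atTop (nhdsWithin z0 {z0}ᶜ) := by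
        rw [tendsto_nhdsWithin_iff]
        constructor
        · have := (tendsto_const_nhds (x := z0)).add hlim
          simpa using this
        · refine Filter.Eventually.of_forall fun n => ?_
          simp only [mem_compl_iff, mem_singleton_iff, add_eq_left]
          exact hne n
      have h3 := h1.comp h2
      refine h3.congr fun n => ?_
      simp only [Function.comp_apply, slope, add_sub_cancel_left, vsub_eq_sub, smul_eq_mul]
  · filter_upwards [hd, hb] with t ht hbt z hz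
    exact Complex.norm_deriv_le_of_forall_mem_sphere_norm_le hr
      ((ht.mono (hsub z hz)).diffContOnCl_ball subset_rfl) fun w hw =>
        hbt w (hsub z hz (sphere_subset_closedBall hw))
  · exact integrable_const _
  · filter_upwards [hd] with t ht z hz
    exact (ht.differentiableAt (isOpen_ball.mem_nhds (hsub1 hz))).hasDerivAt

/-- analyticity off the rectangle (differentiation under the integral sign,
`hasDerivAt_integral_of_dominated_loc_of_deriv_le`). -/
theorem E1_diff {t H B : ℝ} {J : ℂ → ℂ} (hH : H ≤ Real.pi / 2) (hJ : ContinuousOn J (Qr t H))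
    (hB : ∀ ω ∈ Qr t H, ‖J ω‖ ≤ B) :
    DifferentiableOn ℂ (E1 t H J) {w | 1 / 2 < |w.re - t|} := by
  intro w₀ hw₀
  change 1 / 2 < |w₀.re - t| at hw₀
  obtain ⟨r, hr, hr2⟩ : ∃ r : ℝ, 0 < r ∧ 4 * r = |w₀.re - t| - 1 / 2 :=
    ⟨(|w₀.re - t| - 1 / 2) / 4, by linarith, by ring⟩
  have hfin : IsFiniteMeasure (volume.restrict (Qr t H)) := ⟨by
    rw [Measure.restrict_apply_univ]; exact Qr_fin t H⟩
  have hdist : ∀ z ∈ ball w₀ (3 * r), ∀ ω ∈ Qr t H, r ≤ ‖z - ω‖ := by
    intro z hz ω hω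
    rw [mem_ball, dist_eq_norm] at hz
    have h1 := Complex.abs_re_le_norm (z - w₀)
    have h2 := Complex.abs_re_le_norm (z - ω)
    rw [Complex.sub_re] at h1 h2
    have h3 := hω.1
    have h4 : |w₀.re - t| ≤ |z.re - w₀.re| + |z.re - ω.re| + |ω.re - t| := by
      have h5 : w₀.re - t = -(z.re - w₀.re) + (z.re - ω.re) + (ω.re - t) := by ring
      rw [h5]
      have h6 := abs_add_le (-(z.re - w₀.re) + (z.re - ω.re)) (ω.re - t)
      have h7 := abs_add_le (-(z.re - w₀.re)) (z.re - ω.re)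
      rw [abs_neg] at h7
      linarith
    linarith
  have key : DifferentiableAt ℂ (fun z => ∫ ω in Qr t H,
      J ω * Complex.exp (-(z - ω) ^ 2) / (z - ω)) w₀ := by
    refine param_int (M := B * Real.exp ((|w₀.im| + 3 * r + |H|) ^ 2) * r⁻¹) hr
      (fun z hz => (E1_int hJ hB z).aestronglyMeasurable) ?_ ?_
    · refine ae_restrict_of_forall_mem (Qr_meas t H) fun ω hω => ?_
      intro z hz
      have hne : z - ω ≠ 0 := by
        rw [← norm_pos_iff]
        exact lt_of_lt_of_le hr (hdist z hz ω hω)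
      refine DifferentiableAt.differentiableWithinAt ?_
      refine DifferentiableAt.div ?_ (differentiableAt_id.sub_const ω) hne
      exact ((((differentiableAt_id.sub_const ω).pow 2).neg).cexp).const_mul (J ω)
    · refine ae_restrict_of_forall_mem (Qr_meas t H) fun ω hω z hz => ?_
      rw [norm_div, norm_mul, div_eq_mul_inv]
      have hJ0 : 0 ≤ B := (norm_nonneg _).trans (hB ω hω)
      refine mul_le_mul ?_ (inv_anti₀ hr (hdist z hz ω hω)) (inv_nonneg.2 (norm_nonneg _))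
        (by positivity)
      refine mul_le_mul (hB ω hω) ?_ (norm_nonneg _) hJ0
      have h1 : |(z - ω).im| ≤ |w₀.im| + 3 * r + |H| := by
        rw [mem_ball, dist_eq_norm] at hz
        have h1 := Complex.abs_im_le_norm (z - w₀)
        rw [Complex.sub_im] at h1 ⊢
        have h2 := hω.2
        have h3 : z.im - ω.im = (z.im - w₀.im) + w₀.im + -ω.im := by ring
        rw [h3]
        have h6 := abs_add_le ((z.im - w₀.im) + w₀.im) (-ω.im)
        have h7 := abs_add_le (z.im - w₀.im) w₀.im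
        rw [abs_neg] at h6
        linarith [le_abs_self H]
      refine (gauss_le h1).trans ?_
      have h2 : Real.exp (-((z - ω).re) ^ 2) ≤ 1 :=
        Real.exp_le_one_iff.2 (by nlinarith [sq_nonneg (z - ω).re])
      exact mul_le_of_le_one_right (Real.exp_pos _).le h2
  exact (key.const_mul _).differentiableWithinAt

end MQV
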