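import Mathlib

set_option autoImplicit false

/-!
# MQV LMA : elementary inequalities for the `L^l` means

* `pow_le_sum_log`: if `y ≤ 1` then `y^l ≤ 1`.  If `1 < y ≤ 2^K` there is `k < K` with
  `2^k < y ≤ 2^(k+1)` (e.g. `Nat.find`/induction on `K`), and then
  `y^l ≤ 2^l 2^(kl) ≤ 4 * 2^(kl)`, `log (1 + y²/4^k) ≥ log 2 > 0.69`, `4/0.69 < 6`; the other terms
  are `≥ 0`.
* `sum_min_le`: let `N` be the least number with `m ≤ 2^N`.  For `k < N`: `min ≤ 1` and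
  `Σ_{k<N} 2^(kl) ≤ 2^(Nl)/(2^l-1)`, and (if `N ≥ 1`) `2^(N-1) < m`, so this is
  `≤ 2^l m^l/(2^l-1)`.  For `k ≥ N`: `min ≤ m²/4^k` and
  `Σ_{k≥N} 2^(kl) m²/4^k ≤ m² 2^(-N(2-l))/(1-2^(l-2)) ≤ m^l/(1-2^(l-2))` since `m ≤ 2^N`.
  `C = 2^l/(2^l-1) + 1/(1-2^(l-2))`.
* `int_pow_le`: the primitive of `(1-ρ)^(-q)` is `(1-ρ)^(1-q)/(q-1)`.
-/

namespace MQV

private theorem two_pow {l : ℝ} (k : ℕ) : (2 : ℝ) ^ ((k : ℝ) * l) = ((2 : ℝ) ^ l) ^ k := by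
  rw [← Real.rpow_natCast, ← Real.rpow_mul (by norm_num), mul_comm]

private theorem pow_two {l : ℝ} (k : ℕ) : ((2 : ℝ) ^ k) ^ l = ((2 : ℝ) ^ l) ^ k := by
  rw [← Real.rpow_natCast, ← Real.rpow_mul (by norm_num), two_pow]

/-- `y^l ≤ 1 + 6 Σ_{k<K} 2^{kl} log (1 + y²/4^k)` for `0 ≤ y ≤ 2^K`. -/
theorem pow_le_sum_log {l : ℝ} (hl : 0 < l) (hl2 : l < 2) {y : ℝ} (hy : 0 ≤ y) {K : ℕ}
    (hK : y ≤ 2 ^ K) :
    y ^ l ≤ 1 + 6 * ∑ k ∈ Finset.range K,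
      (2 : ℝ) ^ ((k : ℝ) * l) * Real.log (1 + y ^ 2 / 4 ^ k) := by
  have hterm : ∀ k : ℕ, 0 ≤ (2 : ℝ) ^ ((k : ℝ) * l) * Real.log (1 + y ^ 2 / 4 ^ k) := by
    intro k
    refine mul_nonneg (by positivity) (Real.log_nonneg ?_)
    have : 0 ≤ y ^ 2 / 4 ^ k := by positivity
    linarith
  rcases le_or_gt y 1 with h1 | h1
  · have h2 := Real.rpow_le_one hy h1 hl.le
    have h3 := Finset.sum_nonneg (s := Finset.range K) (fun k _ => hterm k)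
    linarith
  · have hex : ∃ j : ℕ, y ≤ 2 ^ j := ⟨K, hK⟩
    obtain ⟨j, hj, hmin⟩ : ∃ j : ℕ, y ≤ 2 ^ j ∧ ∀ i < j, ¬ y ≤ 2 ^ i := by
      classical
      exact ⟨Nat.find hex, Nat.find_spec hex, fun i hi => Nat.find_min hex hi⟩
    have hj0 : j ≠ 0 := by
      intro h0
      rw [h0, pow_zero] at hj
      linarith
    obtain ⟨k, rfl⟩ := Nat.exists_eq_succ_of_ne_zero hj0
    have hk : (2 : ℝ) ^ k < y := not_le.1 (hmin k (Nat.lt_succ_self k))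
    have hkK : k < K := by
      by_contra hcon
      have h2 : (2 : ℝ) ^ K ≤ 2 ^ k := pow_le_pow_right₀ (by norm_num) (not_lt.1 hcon)
      linarith
    have h2 : (2 : ℝ) ^ ((k : ℝ) * l) * Real.log (1 + y ^ 2 / 4 ^ k) ≤
        ∑ k ∈ Finset.range K, (2 : ℝ) ^ ((k : ℝ) * l) * Real.log (1 + y ^ 2 / 4 ^ k) :=
      Finset.single_le_sum (f := fun k : ℕ => (2 : ℝ) ^ ((k : ℝ) * l) * Real.log (1 + y ^ 2 / 4 ^ k))
        (fun i _ => hterm i) (Finset.mem_range.2 hkK)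
    have h3 : Real.log 2 ≤ Real.log (1 + y ^ 2 / 4 ^ k) := by
      refine Real.log_le_log (by norm_num) ?_
      have h4 : (1 : ℝ) ≤ y ^ 2 / 4 ^ k := by
        rw [le_div_iff₀ (by positivity), one_mul]
        calc (4 : ℝ) ^ k = (2 ^ k) ^ 2 := by
              rw [← pow_mul, mul_comm, pow_mul]
              norm_num
          _ ≤ y ^ 2 := pow_le_pow_left₀ (by positivity) hk.le 2
      linarith
    have h4 : y ^ l ≤ 4 * (2 : ℝ) ^ ((k : ℝ) * l) := by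
      have h5 : (2 : ℝ) ^ l ≤ 4 := by
        calc (2 : ℝ) ^ l ≤ (2 : ℝ) ^ (2 : ℝ) := Real.rpow_le_rpow_of_exponent_le (by norm_num) hl2.le
          _ = 4 := by norm_num
      calc y ^ l ≤ ((2 : ℝ) ^ (k + 1)) ^ l := Real.rpow_le_rpow hy hj hl.le
        _ = (2 : ℝ) ^ l * (2 : ℝ) ^ ((k : ℝ) * l) := by rw [pow_two, two_pow, pow_succ]; ring
        _ ≤ 4 * (2 : ℝ) ^ ((k : ℝ) * l) := mul_le_mul_of_nonneg_right h5 (by positivity)
    have h5 : (0.69 : ℝ) < Real.log 2 := by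
      have := Real.log_two_gt_d9
      linarith
    have h6 : 0 < (2 : ℝ) ^ ((k : ℝ) * l) := by positivity
    have h7 : (2 : ℝ) ^ ((k : ℝ) * l) * 0.69 ≤
        (2 : ℝ) ^ ((k : ℝ) * l) * Real.log (1 + y ^ 2 / 4 ^ k) :=
      mul_le_mul_of_nonneg_left (by linarith) h6.le
    linarith

private theorem sum_aux {a b m : ℝ} (ha : 1 < a) (hb : b < 1) (N : ℕ) (t : ℕ → ℝ)
    (h1 : ∀ k < N, t k ≤ a ^ k) (h2 : ∀ k, N ≤ k → t k ≤ m ^ 2 * b ^ k) (K : ℕ) :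
    ∑ k ∈ Finset.range K, t k ≤
      (a ^ (min K N) - 1) / (a - 1) + m ^ 2 * (b ^ N - b ^ (max K N)) / (1 - b) := by
  induction K with
  | zero => simp
  | succ K ih =>
    rw [Finset.sum_range_succ]
    have ha' : a - 1 ≠ 0 := by linarith
    have hb' : 1 - b ≠ 0 := by linarith
    rcases lt_or_ge K N with h | h
    · have e1 : min (K + 1) N = K + 1 := by omega
      have e2 : max (K + 1) N = N := by omega
      have e3 : min K N = K := by omega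
      have e4 : max K N = N := by omega
      rw [e1, e2]
      rw [e3, e4] at ih
      have e5 : (a ^ (K + 1) - 1) / (a - 1) = (a ^ K - 1) / (a - 1) + a ^ K := by
        field_simp
        ring
      rw [e5]
      linarith [h1 K h]
    · have e1 : min (K + 1) N = N := by omega
      have e2 : max (K + 1) N = K + 1 := by omega
      have e3 : min K N = N := by omega
      have e4 : max K N = K := by omega
      rw [e1, e2]
      rw [e3, e4] at ih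
      have e5 : m ^ 2 * (b ^ N - b ^ (K + 1)) / (1 - b) =
          m ^ 2 * (b ^ N - b ^ K) / (1 - b) + m ^ 2 * b ^ K := by
        field_simp
        ring
      rw [e5]
      linarith [h2 K h]

theorem sum_min_le {l : ℝ} (hl : 0 < l) (hl2 : l < 2) : ∃ C : ℝ, 0 < C ∧ ∀ m : ℝ, 1 ≤ m →
    ∀ K : ℕ, ∑ k ∈ Finset.range K, (2 : ℝ) ^ ((k : ℝ) * l) * min 1 (m ^ 2 / 4 ^ k) ≤
      C * m ^ l := by
  have ha : 1 < (2 : ℝ) ^ l := Real.one_lt_rpow (by norm_num) hl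
  have hb0 : 0 < (2 : ℝ) ^ (l - 2) := by positivity
  have hb : (2 : ℝ) ^ (l - 2) < 1 := Real.rpow_lt_one_of_one_lt_of_neg (by norm_num) (by linarith)
  have hab : (2 : ℝ) ^ l / 4 = (2 : ℝ) ^ (l - 2) := by
    rw [Real.rpow_sub (by norm_num)]
    norm_num
  refine ⟨(2 : ℝ) ^ l / ((2 : ℝ) ^ l - 1) + 1 / (1 - (2 : ℝ) ^ (l - 2)), ?_, ?_⟩
  · have h1 : 0 < (2 : ℝ) ^ l - 1 := by linarith
    have h2 : 0 < 1 - (2 : ℝ) ^ (l - 2) := by linarith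
    positivity
  intro m hm K
  have hm0 : 0 < m := by linarith
  have hex : ∃ j : ℕ, m ≤ 2 ^ j := (pow_unbounded_of_one_lt m (by norm_num : (1 : ℝ) < 2)).imp fun _ h => h.le
  obtain ⟨N, hN, hmin⟩ : ∃ j : ℕ, m ≤ 2 ^ j ∧ ∀ i < j, ¬ m ≤ 2 ^ i := by
    classical
    exact ⟨Nat.find hex, Nat.find_spec hex, fun i hi => Nat.find_min hex hi⟩
  have hmain := sum_aux (a := (2 : ℝ) ^ l) (b := (2 : ℝ) ^ (l - 2)) (m := m) ha hb N
    (fun k => (2 : ℝ) ^ ((k : ℝ) * l) * min 1 (m ^ 2 / 4 ^ k)) (by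
      intro k _
      rw [← two_pow]
      exact mul_le_of_le_one_right (by positivity) (min_le_left _ _)) (by
      intro k _
      calc (2 : ℝ) ^ ((k : ℝ) * l) * min 1 (m ^ 2 / 4 ^ k)
          ≤ (2 : ℝ) ^ ((k : ℝ) * l) * (m ^ 2 / 4 ^ k) :=
            mul_le_mul_of_nonneg_left (min_le_right _ _) (by positivity)
        _ = m ^ 2 * ((2 : ℝ) ^ l / 4) ^ k := by
            rw [two_pow, div_pow]
            ring
        _ = m ^ 2 * ((2 : ℝ) ^ (l - 2)) ^ k := by rw [hab]) K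
  refine le_trans hmain ?_
  have hml : 0 < m ^ l := Real.rpow_pos_of_pos hm0 l
  have hml1 : 1 ≤ m ^ l := Real.one_le_rpow hm hl.le
  -- first part
  have e1 : ((2 : ℝ) ^ l) ^ (min K N) - 1 ≤ (2 : ℝ) ^ l * m ^ l := by
    have f1 : ((2 : ℝ) ^ l) ^ (min K N) ≤ ((2 : ℝ) ^ l) ^ N :=
      pow_le_pow_right₀ ha.le (min_le_right _ _)
    have f2 : ((2 : ℝ) ^ l) ^ N ≤ (2 : ℝ) ^ l * m ^ l := by
      rcases Nat.eq_zero_or_pos N with h0 | h0
      · rw [h0, pow_zero]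
        nlinarith
      · obtain ⟨n, rfl⟩ := Nat.exists_eq_succ_of_ne_zero h0.ne'
        have f3 : (2 : ℝ) ^ n < m := not_le.1 (hmin n (Nat.lt_succ_self n))
        have f4 : ((2 : ℝ) ^ l) ^ n ≤ m ^ l := by
          rw [← pow_two]
          exact Real.rpow_le_rpow (by positivity) f3.le hl.le
        calc ((2 : ℝ) ^ l) ^ (n + 1) = (2 : ℝ) ^ l * ((2 : ℝ) ^ l) ^ n := by ring
          _ ≤ (2 : ℝ) ^ l * m ^ l := mul_le_mul_of_nonneg_left f4 (by linarith)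
    linarith
  have e2 : m ^ 2 * (((2 : ℝ) ^ (l - 2)) ^ N - ((2 : ℝ) ^ (l - 2)) ^ (max K N)) ≤ m ^ l := by
    have f1 : 0 ≤ ((2 : ℝ) ^ (l - 2)) ^ (max K N) := by positivity
    have f2 : ((2 : ℝ) ^ (l - 2)) ^ N ≤ m ^ (l - 2) := by
      rw [← pow_two]
      exact Real.rpow_le_rpow_of_nonpos hm0 hN (by linarith)
    have f3 : m ^ 2 * m ^ (l - 2) = m ^ l := by
      rw [← Real.rpow_natCast, ← Real.rpow_add hm0]
      congr 1
      push_cast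
      ring
    calc m ^ 2 * (((2 : ℝ) ^ (l - 2)) ^ N - ((2 : ℝ) ^ (l - 2)) ^ (max K N))
        ≤ m ^ 2 * m ^ (l - 2) := mul_le_mul_of_nonneg_left (by linarith) (by positivity)
      _ = m ^ l := f3
  have h1 : 0 < (2 : ℝ) ^ l - 1 := by linarith
  have h2 : 0 < 1 - (2 : ℝ) ^ (l - 2) := by linarith
  calc _ ≤ (2 : ℝ) ^ l * m ^ l / ((2 : ℝ) ^ l - 1) + m ^ l / (1 - (2 : ℝ) ^ (l - 2)) :=
        add_le_add (div_le_div_of_nonneg_right e1 h1.le) (div_le_div_of_nonneg_right e2 h2.le)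
    _ = _ := by ring

theorem int_pow_le {q : ℝ} (hq : 1 < q) {r : ℝ} (h1 : 1 / 2 ≤ r) (h2 : r < 1) :
    ∫ ρ in (1 / 2 : ℝ)..r, (1 - ρ) ^ (-q) ≤ (1 - r) ^ (1 - q) / (q - 1) := by
  have hq1 : q - 1 ≠ 0 := by linarith
  have hpos : ∀ ρ ∈ Set.uIcc (1 / 2 : ℝ) r, 0 < 1 - ρ := by
    intro ρ hρ
    rw [Set.uIcc_of_le h1] at hρ
    linarith [hρ.2]
  have hd : ∀ ρ ∈ Set.uIcc (1 / 2 : ℝ) r,
      HasDerivAt (fun ρ : ℝ => (1 - ρ) ^ (1 - q) / (q - 1)) ((1 - ρ) ^ (-q)) ρ := by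
    intro ρ hρ
    have e1 : HasDerivAt (fun ρ : ℝ => 1 - ρ) (-1) ρ := by
      simpa using (hasDerivAt_id ρ).const_sub 1
    have e2 := (e1.rpow_const (p := 1 - q) (Or.inl (hpos ρ hρ).ne')).div_const (q - 1)
    have e3 : 1 - q - 1 = -q := by ring
    have e4 : -1 * (1 - q) * (1 - ρ) ^ (1 - q - 1) / (q - 1) = (1 - ρ) ^ (-q) := by
      rw [e3]
      field_simp
      ring
    rw [e4] at e2
    exact e2
  have hc : ContinuousOn (fun ρ : ℝ => (1 - ρ) ^ (-q)) (Set.uIcc (1 / 2 : ℝ) r) := by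
    refine ContinuousOn.rpow_const (by fun_prop) ?_
    intro ρ hρ
    exact Or.inl (hpos ρ hρ).ne'
  rw [intervalIntegral.integral_eq_sub_of_hasDerivAt hd hc.intervalIntegrable]
  have h3 : 0 ≤ (1 - (1 / 2 : ℝ)) ^ (1 - q) / (q - 1) := by
    have : 0 < q - 1 := by linarith
    positivity
  linarith

end MQV
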