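import Pool.Agent.MQV.Cdf
import Pool.Agent.MQV.Lma

set_option autoImplicit false

/-!
# MQV LAM : the `L^l` means of a mean `p`-valent function, `1/(2p) < l < 2`

PROOF of `lam`.  `r ≤ 1/2`: `|f| ≤ 1` on the circle, and `2π ≤ 2π (1-r)^(1-2pl)`.
`r ≥ 1/2`.  `C₀` of `growth_disc` (with `M = 1`), `m ρ = C₀ (2/(1-ρ))^(2p) ≥ 1`; `‖f z‖ ≤ m ρ` for
`‖z‖ ≤ ρ < 1` (`(1+x)/(1-x)` is monotone).  Choose `K : ℕ` with `m r ≤ 2^K`.
* `pow_le_sum_log` at `y = ‖f (circleMap 0 r t)‖`, integrated over `t` (everything is continuous):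
  `∫ ‖f‖^l ≤ 2π + 6 Σ_{k<K} 2^(kl) cm (f/2^k) r` (`log (1+‖f‖²/4^k) = log (1 + ‖f/2^k‖²)`).
* `mean_inc` with `g = f/2^k`, `r₁ = 1/2`, `r₂ = r`, `Kf ρ = 4πp min 1 ((m ρ)²/(2^k)²)`
  (`sph_area_le`, `b = 2^k`):
  `cm (f/2^k) r ≤ cm (f/2^k) (1/2) + ∫_{1/2}^r Kf ρ/ρ ≤ 2π/4^k + 8πp ∫_{1/2}^r min 1 ((m ρ)²/4^k)`
  (`log (1+x) ≤ x`, `‖f‖ ≤ 1` on the circle of radius `1/2`, `1/ρ ≤ 2`).
* `sum_min_le` (constant `C₁`), with `m = 1` for the first part and `m = m ρ` under the integral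
  (finite sum of integrals):
  `∫ ‖f‖^l ≤ 2π + 12π C₁ + 48πp C₁ ∫_{1/2}^r (m ρ)^l`, `(m ρ)^l = C₀^l 2^(2pl) (1-ρ)^(-2pl)`.
* `int_pow_le` with `q = 2pl`, and `1 ≤ (1-r)^(1-2pl)`.
-/

open MeasureTheory Metric Set

namespace MQV

private theorem lam_cont {p : ℝ} {f : ℂ → ℂ} (hf : Nd p f) {r : ℝ} (h0 : 0 < r) (h1 : r < 1) :
    Continuous fun t => f (circleMap 0 r t) := by
  refine ContinuousOn.comp_continuous hf.mv.diff.continuousOn (continuous_circleMap 0 r) fun t => ?_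
  rw [mem_ball_zero_iff, norm_circleMap_zero, abs_of_pos h0]
  exact h1

private theorem lam_norm (f : ℂ → ℂ) (k : ℕ) (z : ℂ) :
    ‖f z / (((2 : ℝ) ^ k : ℝ) : ℂ)‖ ^ 2 = ‖f z‖ ^ 2 / 4 ^ k := by
  rw [norm_div, Complex.norm_real, Real.norm_of_nonneg (by positivity), div_pow]
  congr 1
  rw [← pow_mul, mul_comm k 2, pow_mul]
  norm_num

/-- one level -/
private theorem lam_lev {p : ℝ} (hp : 0 < p) {f : ℂ → ℂ} (hf : Nd p f) {r : ℝ} (h1 : 1 / 2 ≤ r)
    (h2 : r < 1) {m : ℝ → ℝ} (hmc : ContinuousOn m (Icc (1 / 2) r)) (hm1 : ∀ ρ ∈ Icc (1 / 2) r, 1 ≤ m ρ)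
    (hm : ∀ ρ ∈ Icc (1 / 2) r, ∀ z : ℂ, ‖z‖ ≤ ρ → ‖f z‖ ≤ m ρ) (k : ℕ) :
    cm (fun z => f z / (((2 : ℝ) ^ k : ℝ) : ℂ)) r ≤ 2 * Real.pi / 4 ^ k +
      8 * Real.pi * p * ∫ ρ in (1 / 2 : ℝ)..r, min 1 ((m ρ) ^ 2 / 4 ^ k) := by
  have hpi := Real.pi_pos
  have e4 : ((2 : ℝ) ^ k) ^ 2 = 4 ^ k := by
    rw [← pow_mul, mul_comm k 2, pow_mul]
    norm_num
  have hKc : ContinuousOn (fun ρ => 4 * Real.pi * p * min 1 ((m ρ) ^ 2 / ((2 : ℝ) ^ k) ^ 2))
      (Icc (1 / 2) r) :=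
    continuousOn_const.mul (ContinuousOn.inf' continuousOn_const ((hmc.pow 2).div_const _))
  have h3 := mean_inc (g := fun z => f z / (((2 : ℝ) ^ k : ℝ) : ℂ)) (hf.mv.diff.div_const _)
    (by norm_num : (0 : ℝ) < 1 / 2) h1 h2 hKc
    (fun ρ hρ => by
      refine mul_nonneg (by positivity) (le_min zero_le_one (by positivity)))
    (fun ρ hρ => sph_area_le hp hf.mv (b := (2 : ℝ) ^ k) (by positivity) (hρ.2.trans h2.le)
      (zero_le_one.trans (hm1 ρ hρ))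
      (fun z hz => hm ρ hρ z (by rw [mem_ball_zero_iff] at hz; exact hz.le)))
  have h4 : cm (fun z => f z / (((2 : ℝ) ^ k : ℝ) : ℂ)) (1 / 2) ≤ 2 * Real.pi / 4 ^ k := by
    unfold cm
    have h5 : ∫ t in (0 : ℝ)..2 * Real.pi,
        Real.log (1 + ‖f (circleMap 0 (1 / 2) t) / (((2 : ℝ) ^ k : ℝ) : ℂ)‖ ^ 2) ≤
        ∫ t in (0 : ℝ)..2 * Real.pi, (1 / 4 ^ k : ℝ) := by
      refine intervalIntegral.integral_mono_on (by positivity) ?_ (by simp) fun t _ => ?_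
      · refine Continuous.intervalIntegrable ?_ _ _
        refine Continuous.log ?_ fun t => by positivity
        exact continuous_const.add (((lam_cont hf (by norm_num) (by norm_num)).div_const _).norm.pow 2)
      · rw [lam_norm]
        have h6 : ‖f (circleMap 0 (1 / 2) t)‖ ≤ 1 := by
          apply hf.one
          rw [norm_circleMap_zero, abs_of_pos (by norm_num)]
        have h7 : ‖f (circleMap 0 (1 / 2) t)‖ ^ 2 ≤ 1 := pow_le_one₀ (norm_nonneg _) h6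
        have h8 := Real.log_le_sub_one_of_pos
          (by positivity : 0 < 1 + ‖f (circleMap 0 (1 / 2) t)‖ ^ 2 / 4 ^ k)
        have h9 : ‖f (circleMap 0 (1 / 2) t)‖ ^ 2 / 4 ^ k ≤ 1 / 4 ^ k :=
          div_le_div_of_nonneg_right h7 (by positivity)
        linarith
    rw [intervalIntegral.integral_const, smul_eq_mul, sub_zero] at h5
    refine h5.trans (le_of_eq ?_)
    ring
  have hmin : ContinuousOn (fun ρ => min 1 ((m ρ) ^ 2 / 4 ^ k)) (Icc (1 / 2) r) :=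
    ContinuousOn.inf' continuousOn_const ((hmc.pow 2).div_const _)
  have h5 : ∫ ρ in (1 / 2 : ℝ)..r, 4 * Real.pi * p * min 1 ((m ρ) ^ 2 / ((2 : ℝ) ^ k) ^ 2) / ρ ≤
      ∫ ρ in (1 / 2 : ℝ)..r, 8 * Real.pi * p * min 1 ((m ρ) ^ 2 / 4 ^ k) := by
    refine intervalIntegral.integral_mono_on h1 ?_ ?_ fun ρ hρ => ?_
    · refine ContinuousOn.intervalIntegrable ?_
      rw [uIcc_of_le h1]
      exact hKc.div continuousOn_id fun ρ hρ => (by linarith [hρ.1] : (0 : ℝ) < ρ).ne'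
    · refine ContinuousOn.intervalIntegrable ?_
      rw [uIcc_of_le h1]
      exact continuousOn_const.mul hmin
    · rw [e4]
      have hρ0 : 0 < ρ := by linarith [hρ.1]
      rw [div_le_iff₀ hρ0]
      have h6 : 0 ≤ min 1 ((m ρ) ^ 2 / 4 ^ k) := le_min zero_le_one (by positivity)
      have h7 : 1 ≤ 2 * ρ := by linarith [hρ.1]
      have h8 : 0 ≤ 4 * Real.pi * p * min 1 ((m ρ) ^ 2 / 4 ^ k) := by positivity
      nlinarith
  rw [intervalIntegral.integral_const_mul] at h5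
  linarith

theorem lam {p l : ℝ} (hp : 0 < p) (hl : 1 < 2 * p * l) (hl2 : l < 2) : ∃ C : ℝ, 0 < C ∧
    ∀ f : ℂ → ℂ, Nd p f → ∀ r : ℝ, 0 < r → r < 1 →
      ∫ t in (0 : ℝ)..2 * Real.pi, ‖f (circleMap 0 r t)‖ ^ l ≤ C * (1 - r) ^ (1 - 2 * p * l) := by
  have hpi := Real.pi_pos
  have hl0 : 0 < l := by
    by_contra h
    push Not at h
    have : 2 * p * l ≤ 0 := mul_nonpos_of_nonneg_of_nonpos (by positivity) h
    linarith
  obtain ⟨C₀, hC₀, H₀⟩ := growth_disc hp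
  obtain ⟨C₁, hC₁, H₁⟩ := sum_min_le hl0 hl2
  have hq : 0 < 2 * p * l - 1 := by linarith
  set D : ℝ := 48 * Real.pi * p * C₁ * (C₀ ^ l * 2 ^ (2 * p * l)) / (2 * p * l - 1) with hD
  have hC₀0 : 0 < C₀ := by linarith
  have hD0 : 0 < D := by positivity
  refine ⟨2 * Real.pi + 12 * Real.pi * C₁ + D, by positivity, fun f hf r hr0 hr1 => ?_⟩
  have h1r : 0 < 1 - r := by linarith
  have hone : 1 ≤ (1 - r) ^ (1 - 2 * p * l) :=
    Real.one_le_rpow_of_pos_of_le_one_of_nonpos h1r (by linarith) (by linarith)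
  have hcont := lam_cont hf hr0 hr1
  have hcontl : Continuous fun t => ‖f (circleMap 0 r t)‖ ^ l :=
    hcont.norm.rpow_const fun t => Or.inr hl0.le
  rcases le_total r (1 / 2) with h | h
  · have h2 : ∫ t in (0 : ℝ)..2 * Real.pi, ‖f (circleMap 0 r t)‖ ^ l ≤
        ∫ t in (0 : ℝ)..2 * Real.pi, (1 : ℝ) := by
      refine intervalIntegral.integral_mono_on (by positivity) (hcontl.intervalIntegrable _ _)
        (by simp) fun t _ => ?_
      apply Real.rpow_le_one (norm_nonneg _) _ hl0.le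
      apply hf.one
      rw [norm_circleMap_zero, abs_of_pos hr0]
      exact h
    rw [intervalIntegral.integral_const, smul_eq_mul, sub_zero, mul_one] at h2
    have h3 : 0 < 12 * Real.pi * C₁ := by positivity
    have h4 : (2 * Real.pi + 12 * Real.pi * C₁ + D) * 1 ≤
        (2 * Real.pi + 12 * Real.pi * C₁ + D) * (1 - r) ^ (1 - 2 * p * l) :=
      mul_le_mul_of_nonneg_left hone (by positivity)
    linarith
  -- main case
  set m : ℝ → ℝ := fun ρ => C₀ * (2 / (1 - ρ)) ^ (2 * p) with hm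
  have hmc : ContinuousOn m (Icc (1 / 2) r) := by
    refine continuousOn_const.mul (ContinuousOn.rpow_const ?_ ?_)
    · exact continuousOn_const.div (continuousOn_const.sub continuousOn_id) fun ρ hρ =>
        (by linarith [hρ.2] : (0 : ℝ) < 1 - ρ).ne'
    · exact fun ρ _ => Or.inr (by positivity)
  have hm1 : ∀ ρ ∈ Icc (1 / 2) r, 1 ≤ m ρ := by
    intro ρ hρ
    have h2 : 0 < 1 - ρ := by linarith [hρ.2]
    have h3 : 1 ≤ (2 / (1 - ρ)) ^ (2 * p) := by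
      apply Real.one_le_rpow _ (by positivity)
      rw [le_div_iff₀ h2]
      linarith [hρ.1]
    calc (1 : ℝ) = 1 * 1 := by norm_num
      _ ≤ C₀ * (2 / (1 - ρ)) ^ (2 * p) := mul_le_mul hC₀ h3 (by norm_num) hC₀0.le
  have hmf : ∀ ρ ∈ Icc (1 / 2) r, ∀ z : ℂ, ‖z‖ ≤ ρ → ‖f z‖ ≤ m ρ := by
    intro ρ hρ z hz
    have h2 : 0 < 1 - ρ := by linarith [hρ.2]
    have hz1 : ‖z‖ < 1 := by linarith
    have h3 := H₀ f hf.mv 1 one_pos hf.one z (by rw [mem_ball_zero_iff]; exact hz1)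
    rw [mul_one] at h3
    refine h3.trans ?_
    apply mul_le_mul_of_nonneg_left _ hC₀0.le
    have hz0 := norm_nonneg z
    apply Real.rpow_le_rpow (div_nonneg (by linarith) (by linarith)) _ (by positivity)
    exact div_le_div₀ (by norm_num) (by linarith) h2 (by linarith)
  have hrr : r ∈ Icc (1 / 2) r := ⟨h, le_rfl⟩
  obtain ⟨K, hK⟩ := pow_unbounded_of_one_lt (m r) (by norm_num : (1 : ℝ) < 2)
  -- step 1
  have hlogc : ∀ k : ℕ, Continuous fun t => Real.log (1 + ‖f (circleMap 0 r t)‖ ^ 2 / 4 ^ k) := by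
    intro k
    refine Continuous.log ?_ fun t => by positivity
    exact continuous_const.add ((hcont.norm.pow 2).div_const _)
  have s1 : ∫ t in (0 : ℝ)..2 * Real.pi, ‖f (circleMap 0 r t)‖ ^ l ≤
      ∫ t in (0 : ℝ)..2 * Real.pi, (1 + 6 * ∑ k ∈ Finset.range K,
        (2 : ℝ) ^ ((k : ℝ) * l) * Real.log (1 + ‖f (circleMap 0 r t)‖ ^ 2 / 4 ^ k)) := by
    refine intervalIntegral.integral_mono_on (by positivity) (hcontl.intervalIntegrable _ _)
      (Continuous.intervalIntegrable ?_ _ _) fun t _ => ?_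
    · exact continuous_const.add (continuous_const.mul
        (continuous_finsetSum _ fun k _ => continuous_const.mul (hlogc k)))
    · refine pow_le_sum_log hl0 hl2 (norm_nonneg _) ?_
      refine (hmf r hrr _ ?_).trans hK.le
      rw [norm_circleMap_zero, abs_of_pos hr0]
  have s2 : ∫ t in (0 : ℝ)..2 * Real.pi, (1 + 6 * ∑ k ∈ Finset.range K,
        (2 : ℝ) ^ ((k : ℝ) * l) * Real.log (1 + ‖f (circleMap 0 r t)‖ ^ 2 / 4 ^ k)) =
      2 * Real.pi + 6 * ∑ k ∈ Finset.range K,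
        (2 : ℝ) ^ ((k : ℝ) * l) * cm (fun z => f z / (((2 : ℝ) ^ k : ℝ) : ℂ)) r := by
    have i1 : IntervalIntegrable (fun t => 6 * ∑ k ∈ Finset.range K,
        (2 : ℝ) ^ ((k : ℝ) * l) * Real.log (1 + ‖f (circleMap 0 r t)‖ ^ 2 / 4 ^ k)) volume 0
        (2 * Real.pi) :=
      (continuous_const.mul
        (continuous_finsetSum _ fun k _ => continuous_const.mul (hlogc k))).intervalIntegrable _ _
    rw [intervalIntegral.integral_add (by simp) i1, intervalIntegral.integral_const,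
      intervalIntegral.integral_const_mul, intervalIntegral.integral_finsetSum]
    · rw [smul_eq_mul, sub_zero, mul_one]
      congr 2
      refine Finset.sum_congr rfl fun k _ => ?_
      rw [intervalIntegral.integral_const_mul]
      congr 1
      unfold cm
      refine intervalIntegral.integral_congr fun t _ => ?_
      show Real.log (1 + ‖f (circleMap 0 r t)‖ ^ 2 / 4 ^ k) =
        Real.log (1 + ‖f (circleMap 0 r t) / (((2 : ℝ) ^ k : ℝ) : ℂ)‖ ^ 2)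
      rw [lam_norm]
    · intro k _
      exact (continuous_const.mul (hlogc k)).intervalIntegrable _ _
  -- step 2
  have hmin : ∀ k : ℕ, ContinuousOn (fun ρ => min 1 ((m ρ) ^ 2 / 4 ^ k)) (Icc (1 / 2) r) := fun k =>
    ContinuousOn.inf' continuousOn_const ((hmc.pow 2).div_const _)
  have hminI : ∀ k : ℕ, IntervalIntegrable
      (fun ρ => (2 : ℝ) ^ ((k : ℝ) * l) * min 1 ((m ρ) ^ 2 / 4 ^ k)) volume (1 / 2) r := by
    intro k
    refine ContinuousOn.intervalIntegrable ?_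
    rw [uIcc_of_le h]
    exact continuousOn_const.mul (hmin k)
  have s3 : ∑ k ∈ Finset.range K,
        (2 : ℝ) ^ ((k : ℝ) * l) * cm (fun z => f z / (((2 : ℝ) ^ k : ℝ) : ℂ)) r ≤
      2 * Real.pi * ∑ k ∈ Finset.range K, (2 : ℝ) ^ ((k : ℝ) * l) * min 1 ((1 : ℝ) ^ 2 / 4 ^ k) +
      8 * Real.pi * p * ∫ ρ in (1 / 2 : ℝ)..r, ∑ k ∈ Finset.range K,
        (2 : ℝ) ^ ((k : ℝ) * l) * min 1 ((m ρ) ^ 2 / 4 ^ k) := by
    rw [intervalIntegral.integral_finsetSum fun k _ => hminI k, Finset.mul_sum, Finset.mul_sum,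
      ← Finset.sum_add_distrib]
    refine Finset.sum_le_sum fun k _ => ?_
    have h3 := lam_lev hp hf h hr1 hmc hm1 hmf k
    have h4 : min 1 ((1 : ℝ) ^ 2 / 4 ^ k) = 1 / 4 ^ k := by
      rw [one_pow, min_eq_right]
      rw [div_le_one (by positivity)]
      exact one_le_pow₀ (by norm_num)
    have h5 : (0 : ℝ) ≤ (2 : ℝ) ^ ((k : ℝ) * l) := by positivity
    have h6 := mul_le_mul_of_nonneg_left h3 h5
    rw [h4, intervalIntegral.integral_const_mul]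
    refine h6.trans (le_of_eq ?_)
    ring
  -- step 3
  have s4 : ∑ k ∈ Finset.range K, (2 : ℝ) ^ ((k : ℝ) * l) * min 1 ((1 : ℝ) ^ 2 / 4 ^ k) ≤ C₁ := by
    have := H₁ 1 le_rfl K
    rwa [Real.one_rpow, mul_one] at this
  have hml : ∀ ρ ∈ Icc (1 / 2) r, (m ρ) ^ l = C₀ ^ l * 2 ^ (2 * p * l) * (1 - ρ) ^ (-(2 * p * l)) := by
    intro ρ hρ
    have h2 : 0 < 1 - ρ := by linarith [hρ.2]
    rw [hm]
    simp only
    rw [Real.mul_rpow hC₀0.le (by positivity), ← Real.rpow_mul (by positivity),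
      Real.div_rpow (by norm_num) h2.le, Real.rpow_neg h2.le]
    field_simp
  have hpowc : ContinuousOn (fun ρ : ℝ => (1 - ρ) ^ (-(2 * p * l))) (Icc (1 / 2) r) := by
    refine ContinuousOn.rpow_const (continuousOn_const.sub continuousOn_id) fun ρ hρ => Or.inl ?_
    exact (by linarith [hρ.2] : (0 : ℝ) < 1 - ρ).ne'
  have s5 : ∫ ρ in (1 / 2 : ℝ)..r, ∑ k ∈ Finset.range K,
        (2 : ℝ) ^ ((k : ℝ) * l) * min 1 ((m ρ) ^ 2 / 4 ^ k) ≤
      ∫ ρ in (1 / 2 : ℝ)..r, C₁ * (C₀ ^ l * 2 ^ (2 * p * l)) * (1 - ρ) ^ (-(2 * p * l)) := by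
    refine intervalIntegral.integral_mono_on h ?_ ?_ fun ρ hρ => ?_
    · refine ContinuousOn.intervalIntegrable ?_
      rw [uIcc_of_le h]
      exact continuousOn_finsetSum _ fun k _ => continuousOn_const.mul (hmin k)
    · refine ContinuousOn.intervalIntegrable ?_
      rw [uIcc_of_le h]
      exact continuousOn_const.mul hpowc
    · refine (H₁ (m ρ) (hm1 ρ hρ) K).trans (le_of_eq ?_)
      rw [hml ρ hρ]
      ring
  rw [intervalIntegral.integral_const_mul] at s5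
  have s6 := int_pow_le hl h hr1
  have s7 : C₁ * (C₀ ^ l * 2 ^ (2 * p * l)) * (∫ ρ in (1 / 2 : ℝ)..r, (1 - ρ) ^ (-(2 * p * l))) ≤
      C₁ * (C₀ ^ l * 2 ^ (2 * p * l)) * ((1 - r) ^ (1 - 2 * p * l) / (2 * p * l - 1)) :=
    mul_le_mul_of_nonneg_left s6 (by positivity)
  have s8 : 48 * Real.pi * p * (C₁ * (C₀ ^ l * 2 ^ (2 * p * l)) *
      ((1 - r) ^ (1 - 2 * p * l) / (2 * p * l - 1))) = D * (1 - r) ^ (1 - 2 * p * l) := by
    rw [hD]
    ring
  have s9 : 8 * Real.pi * p * (∫ ρ in (1 / 2 : ℝ)..r, ∑ k ∈ Finset.range K,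
        (2 : ℝ) ^ ((k : ℝ) * l) * min 1 ((m ρ) ^ 2 / 4 ^ k)) ≤
      8 * Real.pi * p * (C₁ * (C₀ ^ l * 2 ^ (2 * p * l)) *
      ((1 - r) ^ (1 - 2 * p * l) / (2 * p * l - 1))) :=
    mul_le_mul_of_nonneg_left (s5.trans s7) (by positivity)
  have s10 := mul_le_mul_of_nonneg_left s4 (by positivity : 0 ≤ 2 * Real.pi)
  have s11 : (2 * Real.pi + 12 * Real.pi * C₁) * 1 ≤
      (2 * Real.pi + 12 * Real.pi * C₁) * (1 - r) ^ (1 - 2 * p * l) :=
    mul_le_mul_of_nonneg_left hone (by positivity)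
  rw [s2] at s1
  rw [add_mul, ← s8]
  linarith

end MQV
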