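import Pool.Agent.MQV.Asm

set_option autoImplicit false

/-!
# MQV LEV : the level facts for the glued function

Write `w = psi e t s ζ`.
* `Re w ≤ t - 3/4`: `G ζ = F (m1 ζ)`, `Re m1 ≤ t - 0.74`, depth of `m1` at least
  `(3/10) e exp(-|Re ζ - t|/2)`.  If `Re m1 ≤ t - r` use `Prep.low` (its depth condition follows),
  otherwise `Prep.quiet` (depth `≥ h`); so `‖G ζ‖ < ‖A‖ e^{2p(t - 1/2)}` (needs `1 + δ < e^{0.48 p}`).
* `Re w ≥ t + s + 3/4`: `G ζ = e^{2ps} F (m3 ζ)`, and in the same way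
  `‖G ζ‖ ≥ ‖A‖ e^{2p(t+s)}` (`Prep.high` or `Prep.quiet`).
* in `D2`: `‖G ζ‖ = ‖A‖ exp (2p Re (m2 ζ))`, `|Re m2 - Re w| ≤ e/500`.
The five level facts of `acct` follow.
-/

open MeasureTheory Metric Set

namespace MQV

section
variable {p e r h δ κ t s : ℝ} {A : ℂ} {F J : ℂ → ℂ}

private theorem lev_exp {p x y a : ℝ} (hp : 0 < p) (ha : 0 < a) :
    a * Real.exp (2 * p * x) < a * Real.exp (2 * p * y) ↔ x < y := by
  rw [mul_lt_mul_iff_right₀ ha, Real.exp_lt_exp]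
  constructor
  · intro h
    by_contra hc
    push Not at hc
    nlinarith
  · intro h
    nlinarith

private theorem lev_exp' {p x y a : ℝ} (hp : 0 < p) (ha : 0 < a) :
    a * Real.exp (2 * p * x) ≤ a * Real.exp (2 * p * y) ↔ x ≤ y := by
  rw [← not_lt, ← not_lt, lev_exp hp ha]

private theorem lev_norm (p : ℝ) (A m : ℂ) :
    ‖A * Complex.exp (2 * p * m)‖ = ‖A‖ * Real.exp (2 * p * m.re) := by
  rw [norm_mul, Complex.norm_exp]
  congr 2
  simp [Complex.mul_re]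

private theorem lev_GG2 (hG : Glue p e t s A F J) {ζ : ℂ} (hζ : ζ ∈ D2 e t s) :
    ‖GG p e t s A F J ζ‖ = ‖A‖ * Real.exp (2 * p * (m2 e t s J ζ).re) := by
  rw [GG_eq2 hG hζ, lev_norm]

/-- from the depth to `Str` and the bound of the depth -/
private theorem lev_depth {e a b c : ℝ} (he : 0 < e) {m : ℂ}
    (h : 3 / 10 * e * Real.exp (-a / 2) ≤ Real.pi / 2 - |m.im|) (hab : a ≤ b + 1 / 2)
    (hbc : b + 1 / 2 ≤ c) :
    m ∈ Str ∧ e / 10 * Real.exp (-b / 2) ≤ Real.pi / 2 - |m.im| ∧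
      e / 20 * Real.exp (-c / 2) ≤ Real.pi / 2 - |m.im| := by
  have h1 : 0 < 3 / 10 * e * Real.exp (-a / 2) := by positivity
  refine ⟨?_, ?_, ?_⟩
  · change |m.im| < Real.pi / 2
    linarith
  · have h2 : Real.exp (-b / 2) * (3 / 4) ≤ Real.exp (-a / 2) := by
      have h3 : Real.exp (-b / 2) * Real.exp (-1 / 4) ≤ Real.exp (-a / 2) := by
        rw [← Real.exp_add]
        apply Real.exp_le_exp.2
        linarith
      have h4 : (3 / 4 : ℝ) ≤ Real.exp (-1 / 4) := by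
        have := Real.add_one_le_exp (-1 / 4 : ℝ)
        linarith
      exact (mul_le_mul_of_nonneg_left h4 (Real.exp_pos _).le).trans h3
    have h5 := Real.exp_pos (-b / 2)
    nlinarith
  · have h2 : Real.exp (-c / 2) ≤ Real.exp (-a / 2) := by
      apply Real.exp_le_exp.2
      linarith
    have h5 := Real.exp_pos (-c / 2)
    nlinarith

theorem lev_low (hP : Prep p e r h δ κ F t A) (hG : Glue p e t s A F J) (hr : 0 < r) (hh : 0 < h)
    (hh1 : h ≤ e / 20 * Real.exp (-(r + 2) / 2)) (hδ : δ ≤ p / 10) (hδ1 : δ ≤ 1 / 10) {ζ : ℂ}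
    (hζ : ζ ∈ Str) (hw : (psi e t s ζ).re ≤ t - 3 / 4) :
    ‖GG p e t s A F J ζ‖ < ‖A‖ * Real.exp (2 * p * (t - 1 / 2)) := by
  have hp := hG.hp
  have he := hG.he
  have he1 := hG.he1
  have hA : 0 < ‖A‖ := norm_pos_iff.2 hG.hA
  have hD : ζ ∈ D1 e t s := ⟨hζ, by linarith⟩
  rw [GG_eq1 hG hD]
  have h1 := abs_le.1 ((m_re hG).1 ζ hD)
  have h2 := (m_depth hG).1 ζ hD
  have h3 := psi_re (e := e) (t := t) (s := s) he hζ
  set m := m1 e t s J ζ
  have h4 : |ζ.re - t| = t - ζ.re := by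
    rw [abs_of_nonpos (by linarith)]
    ring
  rw [h4] at h2
  obtain ⟨g1, g2, -⟩ := lev_depth (b := t - m.re) (c := t - m.re + 1 / 2) he h2 (by linarith)
    le_rfl
  by_cases hc : m.re ≤ t - r
  · refine (hP.low m g1 hc g2).trans_lt ?_
    exact (lev_exp hp hA).2 (by linarith)
  · push Not at hc
    obtain ⟨-, -, g3⟩ := lev_depth (b := r) (c := r + 2) he h2 (by linarith) (by linarith)
    have h5 := hP.quiet m (by rw [abs_le]; constructor <;> linarith) (by linarith)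
    have h6 : ‖F m‖ ≤ (1 + δ) * (‖A‖ * Real.exp (2 * p * m.re)) := by
      have h7 : ‖F m‖ ≤ ‖A * Complex.exp (2 * p * m)‖ + ‖F m - A * Complex.exp (2 * p * m)‖ := by
        have h8 := norm_add_le (A * Complex.exp (2 * p * m)) (F m - A * Complex.exp (2 * p * m))
        rwa [add_sub_cancel] at h8
      rw [lev_norm] at h7
      linarith
    refine h6.trans_lt ?_
    have h7 : ‖A‖ * Real.exp (2 * p * m.re) ≤ ‖A‖ * Real.exp (2 * p * (t - 74 / 100)) :=
      (lev_exp' hp hA).2 (by linarith)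
    have h8 : Real.exp (2 * p * (t - 1 / 2)) =
        Real.exp (2 * p * (t - 74 / 100)) * Real.exp (48 / 100 * p) := by
      rw [← Real.exp_add]
      congr 1
      ring
    have h9 : 1 + δ < Real.exp (48 / 100 * p) := by
      have := Real.add_one_le_exp (48 / 100 * p)
      linarith
    have hδ0 : 0 ≤ 1 + δ := by
      by_contra hneg
      push Not at hneg
      have h10 := norm_nonneg (F m)
      have h11 : 0 < ‖A‖ * Real.exp (2 * p * m.re) := mul_pos hA (Real.exp_pos _)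
      nlinarith
    calc (1 + δ) * (‖A‖ * Real.exp (2 * p * m.re))
        ≤ (1 + δ) * (‖A‖ * Real.exp (2 * p * (t - 74 / 100))) :=
          mul_le_mul_of_nonneg_left h7 hδ0
      _ < Real.exp (48 / 100 * p) * (‖A‖ * Real.exp (2 * p * (t - 74 / 100))) :=
          mul_lt_mul_of_pos_right h9 (mul_pos hA (Real.exp_pos _))
      _ = ‖A‖ * Real.exp (2 * p * (t - 1 / 2)) := by
          rw [h8]
          ring

theorem lev_high (hP : Prep p e r h δ κ F t A) (hG : Glue p e t s A F J) (hr : 0 < r) (hh : 0 < h)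
    (hh1 : h ≤ e / 20 * Real.exp (-(r + 2) / 2)) (hδ : δ ≤ p / 10) (hδ1 : δ ≤ 1 / 10) {ζ : ℂ}
    (hζ : ζ ∈ Str) (hw : t + s + 3 / 4 ≤ (psi e t s ζ).re) :
    ‖A‖ * Real.exp (2 * p * (t + s)) ≤ ‖GG p e t s A F J ζ‖ := by
  have hp := hG.hp
  have he := hG.he
  have he1 := hG.he1
  have hs := hG.hs
  have hA : 0 < ‖A‖ := norm_pos_iff.2 hG.hA
  have hD : ζ ∈ D3 e t s := ⟨hζ, by linarith⟩
  rw [GG_eq3 hG hD]
  have h1 := abs_le.1 ((m_re hG).2.2 ζ hD)
  have h2 := (m_depth hG).2.2.2 ζ hD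
  have h3 := psi_re (e := e) (t := t) (s := s) he hζ
  set m := m3 e t s J ζ
  have h4 : |ζ.re - t - s| = ζ.re - t - s := abs_of_nonneg (by linarith)
  rw [h4] at h2
  obtain ⟨g1, g2, -⟩ := lev_depth (b := m.re - t) (c := m.re - t + 1 / 2) he h2 (by linarith)
    le_rfl
  rw [norm_mul, Complex.norm_real, Real.norm_eq_abs, abs_of_pos (Real.exp_pos _)]
  have h5 : ‖A‖ * Real.exp (2 * p * (t + s)) =
      Real.exp (2 * p * s) * (‖A‖ * Real.exp (2 * p * t)) := by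
    have h6 : Real.exp (2 * p * (t + s)) = Real.exp (2 * p * s) * Real.exp (2 * p * t) := by
      rw [← Real.exp_add]
      congr 1
      ring
    rw [h6]
    ring
  rw [h5]
  refine mul_le_mul_of_nonneg_left ?_ (Real.exp_pos _).le
  by_cases hc : t + r ≤ m.re
  · refine le_trans ?_ (hP.high m g1 hc g2)
    exact (lev_exp' hp hA).2 (by linarith)
  · push Not at hc
    obtain ⟨-, -, g3⟩ := lev_depth (b := r) (c := r + 2) he h2 (by linarith) (by linarith)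
    have h5 := hP.quiet m (by rw [abs_le]; constructor <;> linarith) (by linarith)
    have h6 : (1 - δ) * (‖A‖ * Real.exp (2 * p * m.re)) ≤ ‖F m‖ := by
      have h7 : ‖A * Complex.exp (2 * p * m)‖ ≤ ‖F m‖ + ‖F m - A * Complex.exp (2 * p * m)‖ := by
        have h8 := norm_sub_le (F m) (F m - A * Complex.exp (2 * p * m))
        rwa [sub_sub_cancel] at h8
      rw [lev_norm] at h7
      linarith
    refine le_trans ?_ h6
    have h7 : ‖A‖ * Real.exp (2 * p * (t + 74 / 100)) ≤ ‖A‖ * Real.exp (2 * p * m.re) :=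
      (lev_exp' hp hA).2 (by linarith)
    have h8 : Real.exp (2 * p * (t + 74 / 100)) =
        Real.exp (2 * p * t) * Real.exp (148 / 100 * p) := by
      rw [← Real.exp_add]
      congr 1
      ring
    have h9 : 1 ≤ (1 - δ) * Real.exp (148 / 100 * p) := by
      have h10 := Real.add_one_le_exp (148 / 100 * p)
      have h11 : (1 - δ) * (148 / 100 * p + 1) ≤ (1 - δ) * Real.exp (148 / 100 * p) :=
        mul_le_mul_of_nonneg_left h10 (by linarith)
      nlinarith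
    calc ‖A‖ * Real.exp (2 * p * t) = 1 * (‖A‖ * Real.exp (2 * p * t)) := (one_mul _).symm
      _ ≤ ((1 - δ) * Real.exp (148 / 100 * p)) * (‖A‖ * Real.exp (2 * p * t)) :=
          mul_le_mul_of_nonneg_right h9 (mul_pos hA (Real.exp_pos _)).le
      _ = (1 - δ) * (‖A‖ * Real.exp (2 * p * (t + 74 / 100))) := by
          rw [h8]
          ring
      _ ≤ (1 - δ) * (‖A‖ * Real.exp (2 * p * m.re)) :=
          mul_le_mul_of_nonneg_left h7 (by linarith)

theorem lev_L1 (hP : Prep p e r h δ κ F t A) (hG : Glue p e t s A F J) (hr : 0 < r) (hh : 0 < h)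
    (hh1 : h ≤ e / 20 * Real.exp (-(r + 2) / 2)) (hδ : δ ≤ p / 10) (hδ1 : δ ≤ 1 / 10) {ζ : ℂ}
    (hζ : ζ ∈ Str) (hL : ‖GG p e t s A F J ζ‖ < ‖A‖ * Real.exp (2 * p * t)) :
    ζ ∈ D1 e t s := by
  have hp := hG.hp
  have he := hG.he
  have he1 := hG.he1
  have hs := hG.hs
  have hA : 0 < ‖A‖ := norm_pos_iff.2 hG.hA
  refine ⟨hζ, ?_⟩
  by_contra hc
  push Not at hc
  by_cases hc2 : t + s + 3 / 4 ≤ (psi e t s ζ).re
  · have h1 := lev_high hP hG hr hh hh1 hδ hδ1 hζ hc2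
    have h2 := (lev_exp (x := t + s) (y := t) hp hA).1 (h1.trans_lt hL)
    linarith
  · push Not at hc2
    have hD : ζ ∈ D2 e t s := ⟨hζ, by linarith, hc2⟩
    rw [lev_GG2 hG hD, lev_exp hp hA] at hL
    have h1 := abs_le.1 ((m_re hG).2.1 ζ hD)
    linarith

theorem lev_L2 (hP : Prep p e r h δ κ F t A) (hG : Glue p e t s A F J) (hr : 0 < r) (hh : 0 < h)
    (hh1 : h ≤ e / 20 * Real.exp (-(r + 2) / 2)) (hδ : δ ≤ p / 10) (hδ1 : δ ≤ 1 / 10) {ζ : ℂ}
    (hζ : ζ ∈ Str) (hL : ‖A‖ * Real.exp (2 * p * (t - 1 / 2)) ≤ ‖GG p e t s A F J ζ‖)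
    (hU : ‖GG p e t s A F J ζ‖ < ‖A‖ * Real.exp (2 * p * (t + s))) :
    ζ ∈ D2 e t s := by
  refine ⟨hζ, ?_, ?_⟩
  · by_contra hc
    push Not at hc
    exact absurd (lev_low hP hG hr hh hh1 hδ hδ1 hζ hc) (not_lt.2 hL)
  · by_contra hc
    push Not at hc
    exact absurd (lev_high hP hG hr hh hh1 hδ hδ1 hζ hc) (not_le.2 hU)

theorem lev_L3 (hP : Prep p e r h δ κ F t A) (hG : Glue p e t s A F J) (hr : 0 < r) (hh : 0 < h)
    (hh1 : h ≤ e / 20 * Real.exp (-(r + 2) / 2)) (hδ : δ ≤ p / 10) (hδ1 : δ ≤ 1 / 10) {ζ : ℂ}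
    (hζ : ζ ∈ Str) (hL : ‖A‖ * Real.exp (2 * p * (t + s)) ≤ ‖GG p e t s A F J ζ‖) :
    ζ ∈ D3 e t s := by
  have hp := hG.hp
  have he := hG.he
  have he1 := hG.he1
  have hs := hG.hs
  have hA : 0 < ‖A‖ := norm_pos_iff.2 hG.hA
  refine ⟨hζ, ?_⟩
  by_contra hc
  push Not at hc
  by_cases hc2 : (psi e t s ζ).re ≤ t - 3 / 4
  · have h1 := lev_low hP hG hr hh hh1 hδ hδ1 hζ hc2
    have h2 := (lev_exp (x := t + s) (y := t - 1 / 2) hp hA).1 (hL.trans_lt h1)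
    linarith
  · push Not at hc2
    have hD : ζ ∈ D2 e t s := ⟨hζ, hc2, by linarith⟩
    rw [lev_GG2 hG hD, lev_exp' hp hA] at hL
    have h1 := abs_le.1 ((m_re hG).2.1 ζ hD)
    linarith

theorem lev_W1 (hG : Glue p e t s A F J) {ζ : ℂ} (hζ : ζ ∈ D2 e t s)
    (hL : ‖A‖ * Real.exp (2 * p * (t - 1 / 2)) ≤ ‖GG p e t s A F J ζ‖)
    (hU : ‖GG p e t s A F J ζ‖ < ‖A‖ * Real.exp (2 * p * t)) :
    |(m2 e t s J ζ).im| ≤ Real.pi / 2 - e / 4 := by
  have hp := hG.hp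
  have he := hG.he
  have he1 := hG.he1
  have hA : 0 < ‖A‖ := norm_pos_iff.2 hG.hA
  rw [lev_GG2 hG hζ] at hL hU
  rw [lev_exp' hp hA] at hL
  rw [lev_exp hp hA] at hU
  have h1 := abs_le.1 ((m_re hG).2.1 ζ hζ)
  refine (m_depth hG).2.2.1 ζ hζ (Or.inl ?_)
  rw [abs_lt]
  constructor <;> linarith

theorem lev_W2 (hG : Glue p e t s A F J) {ζ : ℂ} (hζ : ζ ∈ D2 e t s)
    (hL : ‖A‖ * Real.exp (2 * p * (t + s - 1 / 2)) ≤ ‖GG p e t s A F J ζ‖)
    (hU : ‖GG p e t s A F J ζ‖ < ‖A‖ * Real.exp (2 * p * (t + s))) :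
    |(m2 e t s J ζ).im| ≤ Real.pi / 2 - e / 4 := by
  have hp := hG.hp
  have he := hG.he
  have he1 := hG.he1
  have hA : 0 < ‖A‖ := norm_pos_iff.2 hG.hA
  rw [lev_GG2 hG hζ] at hL hU
  rw [lev_exp' hp hA] at hL
  rw [lev_exp hp hA] at hU
  have h1 := abs_le.1 ((m_re hG).2.1 ζ hζ)
  refine (m_depth hG).2.2.1 ζ hζ (Or.inr ?_)
  rw [abs_lt]
  constructor <;> linarith

end

end MQV
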