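import Pool.Agent.MQV.Har
import Pool.Agent.MPV.Trf

set_option autoImplicit false

/-!
# MQV NRM : the normalisation `μ_p(f) ≤ 1` bounds `f` on `|z| ≤ 1/2`

PROOF (no compactness).  `q = ⌊p⌋₊`, so `p < q+1`.  `N = sup_{|z| ≤ 1/2} |f|`; assume `N ≥ 1`.
* Upper bound near `0`: `P` = Taylor polynomial of degree `q`, `|P| ≤ q+1` on the disc;
  `h = (f - P)/z^{q+1}` satisfies `|h| ≤ (N + q + 1) 2^{q+1}` on `|z| ≤ 1/2` (maximum principle), so
  `|f| ≤ q + 1 + (N + q + 1)(2ρ)^{q+1}` on `|z| ≤ ρ ≤ 1/2`; with `(2ρ)^{q+1} N = 1`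
  (`ρ = ½ N^{-1/(q+1)}`): `|f| ≤ 3q + 4` on `|z| ≤ ρ`, hence `cm f ρ ≤ 2π log (1 + (3q+4)²)`.
* Increments (`mean_inc` with `sph_area_le`, `4πp`): `cm f r ≤ cm f ρ + 4πp log (1/ρ)` for
  `ρ ≤ r < 1`, i.e. `cm f r ≤ C + (4πp/(q+1)) log N`; for `r ≤ ρ` `cm f r ≤ C`.
  So `∫_D log(1+|f|²) = ∫_0^1 r cm f r dr ≤ C + (2πp/(q+1)) log N`.
* Lower bound: a point `z₁`, `‖z₁‖ ≤ 1/2`, `|f z₁| = N`.  `g = f ∘ mob z₁`, `|g 0| = N`,
  `|g| ≤ C N` on `|z| ≤ 1/2` (`harnack`); `sub_mean` with `a = 1`, `b = N` and `area_mean_le` for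
  `g/(CN)` give `∫_D (log N - lv g 1 N) ≤ C`; by `lint_mob` also `∫_D (log N - lv f 1 N) ≤ C'`, and
  `lv f 1 N ≤ ½ log (1+|f|²)`; so `∫_D ½ log (1+|f|²) ≥ π log N - C'`.
* Together `π log N (1 - p/(q+1)) ≤ C`.
-/

open MeasureTheory Metric Set

namespace MQV

private theorem half_sub : closedBall (0 : ℂ) (1 / 2) ⊆ ball 0 1 := closedBall_subset_ball (by norm_num)

/-- Cauchy estimate for the coefficients. -/
private theorem coef_le {f : ℂ → ℂ} (hf : DifferentiableOn ℂ f (ball 0 1)) {N : ℝ}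
    (hN : ∀ z : ℂ, ‖z‖ ≤ 1 / 2 → ‖f z‖ ≤ N) (n : ℕ) : ‖MPV.coef f n‖ ≤ N * 2 ^ n := by
  have h1 : DiffContOnCl ℂ f (ball 0 (1 / 2)) :=
    (hf.mono (by rw [closure_ball _ (by norm_num)]; exact half_sub)).diffContOnCl
  have h2 := Complex.norm_iteratedDeriv_le_of_forall_mem_sphere_norm_le n (by norm_num) h1
    (C := N) (fun z hz => hN z (by
      rw [mem_sphere_zero_iff_norm] at hz
      exact hz.le))
  unfold MPV.coef
  have h3 : (0 : ℝ) < n.factorial := by exact_mod_cast n.factorial_pos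
  rw [norm_div, Complex.norm_natCast, div_le_iff₀ h3]
  refine h2.trans (le_of_eq ?_)
  rw [one_div, inv_pow, div_inv_eq_mul]
  ring

/-- Upper bound near `0`. -/
private theorem near_zero {f : ℂ → ℂ} (hf : DifferentiableOn ℂ f (ball 0 1)) {q : ℕ} {N : ℝ}
    (hN0 : 0 ≤ N) (hN : ∀ z : ℂ, ‖z‖ ≤ 1 / 2 → ‖f z‖ ≤ N) (h1 : ∀ ν ≤ q, ‖MPV.coef f ν‖ ≤ 1)
    {ρ : ℝ} (hρ : ρ ≤ 1 / 4) {z : ℂ} (hz : ‖z‖ ≤ ρ) :
    ‖f z‖ ≤ (q + 1) + 2 * (N * (2 * ρ) ^ (q + 1)) := by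
  have hρ0 : 0 ≤ ρ := (norm_nonneg z).trans hz
  have hzb : z ∈ ball (0 : ℂ) (1 : NNReal) := by
    rw [mem_ball_zero_iff, NNReal.coe_one]
    linarith
  have hf' : DifferentiableOn ℂ f (ball 0 (1 : NNReal)) := by
    rw [NNReal.coe_one]
    exact hf
  have hs := Complex.hasSum_taylorSeries_on_ball hf' hzb
  have hs' : HasSum (fun n : ℕ => MPV.coef f n * z ^ n) (f z) := by
    refine hs.congr_fun ?_ |> fun h => h
    intro n
    simp only [sub_zero, smul_eq_mul]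
    unfold MPV.coef
    rw [div_eq_mul_inv]
    ring
  have hsum := hs'.summable
  have e1 := hsum.sum_add_tsum_nat_add (q + 1)
  rw [hs'.tsum_eq] at e1
  rw [← e1]
  refine (norm_add_le _ _).trans (add_le_add ?_ ?_)
  · refine (norm_sum_le _ _).trans ?_
    calc ∑ ν ∈ Finset.range (q + 1), ‖MPV.coef f ν * z ^ ν‖ ≤ ∑ ν ∈ Finset.range (q + 1), (1 : ℝ) := by
          refine Finset.sum_le_sum fun ν hν => ?_
          rw [norm_mul, norm_pow]
          have g1 := h1 ν (Nat.lt_succ_iff.1 (Finset.mem_range.1 hν))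
          have g2 : ‖z‖ ^ ν ≤ 1 := pow_le_one₀ (norm_nonneg z) (by linarith)
          calc ‖MPV.coef f ν‖ * ‖z‖ ^ ν ≤ 1 * 1 :=
                mul_le_mul g1 g2 (by positivity) zero_le_one
            _ = 1 := one_mul 1
      _ = (q + 1 : ℝ) := by simp
  · have hg : HasSum (fun n : ℕ => N * (2 * ρ) ^ (q + 1) * (2 * ρ) ^ n)
        (N * (2 * ρ) ^ (q + 1) * (1 - 2 * ρ)⁻¹) :=
      (hasSum_geometric_of_lt_one (by linarith) (by linarith)).mul_left _
    have hb := tsum_of_norm_bounded hg (f := fun n => MPV.coef f (n + (q + 1)) * z ^ (n + (q + 1)))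
      (fun n => by
        rw [norm_mul, norm_pow]
        have g1 := coef_le hf hN (n + (q + 1))
        have g2 : ‖z‖ ^ (n + (q + 1)) ≤ ρ ^ (n + (q + 1)) :=
          pow_le_pow_left₀ (norm_nonneg z) hz _
        calc ‖MPV.coef f (n + (q + 1))‖ * ‖z‖ ^ (n + (q + 1))
            ≤ (N * 2 ^ (n + (q + 1))) * ρ ^ (n + (q + 1)) :=
              mul_le_mul g1 g2 (by positivity) (by positivity)
          _ = N * (2 * ρ) ^ (q + 1) * (2 * ρ) ^ n := by
              rw [mul_pow, mul_pow]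
              ring)
    refine hb.trans ?_
    have hi : (1 - 2 * ρ)⁻¹ ≤ 2 := by
      rw [inv_le_comm₀ (by linarith) (by norm_num)]
      linarith
    have hP : 0 ≤ N * (2 * ρ) ^ (q + 1) := by positivity
    calc N * (2 * ρ) ^ (q + 1) * (1 - 2 * ρ)⁻¹ ≤ N * (2 * ρ) ^ (q + 1) * 2 :=
          mul_le_mul_of_nonneg_left hi hP
      _ = _ := by ring

private theorem cm_cont {f : ℂ → ℂ} (hf : DifferentiableOn ℂ f (ball 0 1)) :
    ContinuousOn (fun z => Real.log (1 + ‖f z‖ ^ 2)) (ball 0 1) := by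
  refine ContinuousOn.log (continuousOn_const.add (hf.continuousOn.norm.pow 2)) fun z _ => ?_
  positivity

private theorem log_nn (x : ℝ) : 0 ≤ Real.log (1 + x ^ 2) :=
  Real.log_nonneg (by linarith [sq_nonneg x])

/-- Area integral in polar coordinates. -/
private theorem polar_le {f : ℂ → ℂ} (hf : DifferentiableOn ℂ f (ball 0 1)) {M : ℝ}
    (h : ∀ r : ℝ, 0 < r → r < 1 → cm f r ≤ M) :
    ∫⁻ z in ball (0 : ℂ) 1, ENNReal.ofReal (Real.log (1 + ‖f z‖ ^ 2)) ≤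
      ENNReal.ofReal (M / 2) := by
  have hc := cm_cont hf
  rw [← lintegral_indicator measurableSet_ball, ← Complex.lintegral_comp_polarCoord_symm]
  set T : Set (ℝ × ℝ) := Set.Ioo 0 1 ×ˢ Set.Ioo (-Real.pi) Real.pi with hT
  have hTm : MeasurableSet T := measurableSet_Ioo.prod measurableSet_Ioo
  have hTA : ∀ p ∈ T, Complex.polarCoord.symm p ∈ ball (0:ℂ) 1 := by
    rintro ⟨r, θ⟩ ⟨h2, h3⟩
    have h4 : ‖Complex.polarCoord.symm (r, θ)‖ = r := by
      rw [Complex.norm_polarCoord_symm]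
      exact abs_of_pos h2.1
    rw [mem_ball_zero_iff, h4]
    exact h2.2
  have hsub : ∫⁻ p in polarCoord.target, ENNReal.ofReal p.1 •
      (ball (0:ℂ) 1).indicator (fun z => ENNReal.ofReal (Real.log (1 + ‖f z‖ ^ 2)))
        (Complex.polarCoord.symm p)
      ≤ ∫⁻ p in T, ENNReal.ofReal p.1 •
      (ball (0:ℂ) 1).indicator (fun z => ENNReal.ofReal (Real.log (1 + ‖f z‖ ^ 2)))
        (Complex.polarCoord.symm p) := by
    rw [← lintegral_indicator polarCoord.open_target.measurableSet, ← lintegral_indicator hTm]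
    refine lintegral_mono fun p => ?_
    by_cases hp : p ∈ polarCoord.target
    · rw [Set.indicator_of_mem hp]
      by_cases hp1 : p ∈ T
      · rw [Set.indicator_of_mem hp1]
      · have h5 : Complex.polarCoord.symm p ∉ ball (0:ℂ) 1 := by
          intro h6
          rw [mem_ball_zero_iff, Complex.norm_polarCoord_symm] at h6
          rw [polarCoord_target] at hp
          have h7 : (0 : ℝ) < p.1 := hp.1
          rw [abs_of_pos h7] at h6
          exact hp1 ⟨⟨h7, h6⟩, hp.2⟩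
        rw [Set.indicator_of_notMem h5, smul_zero]
        exact bot_le
    · rw [Set.indicator_of_notMem hp]
      exact bot_le
  refine hsub.trans ?_
  have hcong : ∫⁻ p in T, ENNReal.ofReal p.1 •
      (ball (0:ℂ) 1).indicator (fun z => ENNReal.ofReal (Real.log (1 + ‖f z‖ ^ 2)))
        (Complex.polarCoord.symm p)
      = ∫⁻ p in T, ENNReal.ofReal (p.1 *
        Real.log (1 + ‖f (circleMap 0 p.1 p.2)‖ ^ 2)) := by
    refine setLIntegral_congr_fun hTm (fun p hp => ?_)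
    rw [Set.indicator_of_mem (hTA p hp), smul_eq_mul, ← ENNReal.ofReal_mul hp.1.1.le]
    congr 5
    rw [Complex.polarCoord_symm_apply, circleMap, Complex.exp_mul_I]
    simp
  rw [hcong]
  have hmaps : ∀ p ∈ T, circleMap (0 : ℂ) p.1 p.2 ∈ ball (0 : ℂ) 1 := fun p hp =>
    MPV.stk_mem hp.1.1.le hp.1.2
  have hcm : Continuous fun p : ℝ × ℝ => circleMap (0 : ℂ) p.1 p.2 := by
    unfold circleMap
    fun_prop
  have hTc : ContinuousOn (fun p : ℝ × ℝ =>
      p.1 * Real.log (1 + ‖f (circleMap 0 p.1 p.2)‖ ^ 2)) T :=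
    continuousOn_fst.mul (hc.comp hcm.continuousOn hmaps)
  have hvp : (volume : Measure (ℝ × ℝ)).restrict T
      = ((volume : Measure ℝ).restrict (Set.Ioo 0 1)).prod
        ((volume : Measure ℝ).restrict (Set.Ioo (-Real.pi) Real.pi)) := by
    rw [Measure.prod_restrict, ← Measure.volume_eq_prod]
  have hae : AEMeasurable (fun p : ℝ × ℝ =>
      ENNReal.ofReal (p.1 * Real.log (1 + ‖f (circleMap 0 p.1 p.2)‖ ^ 2)))
      (((volume : Measure ℝ).restrict (Set.Ioo 0 1)).prod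
        ((volume : Measure ℝ).restrict (Set.Ioo (-Real.pi) Real.pi))) := by
    rw [← hvp]
    exact (hTc.aemeasurable hTm).ennreal_ofReal
  rw [hvp, lintegral_prod _ hae]
  have hinner : ∀ r ∈ Set.Ioo (0 : ℝ) 1, ∫⁻ θ in Set.Ioo (-Real.pi) Real.pi,
        ENNReal.ofReal (r * Real.log (1 + ‖f (circleMap 0 r θ)‖ ^ 2)) ≤
      ENNReal.ofReal (r * M) := by
    intro r hr
    have hcts : Continuous (fun θ : ℝ => r * Real.log (1 + ‖f (circleMap 0 r θ)‖ ^ 2)) :=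
      continuous_const.mul (MPV.stk_cont_circle hc hr.1.le hr.2)
    have hint : IntegrableOn (fun θ : ℝ => r * Real.log (1 + ‖f (circleMap 0 r θ)‖ ^ 2))
        (Set.Ioo (-Real.pi) Real.pi) :=
      (hcts.integrableOn_Icc (a := -Real.pi) (b := Real.pi)).mono_set Ioo_subset_Icc_self
    rw [← ofReal_integral_eq_lintegral_ofReal hint
      (Filter.Eventually.of_forall fun θ => mul_nonneg hr.1.le (log_nn _))]
    refine ENNReal.ofReal_le_ofReal ?_
    have hpi : (-Real.pi) ≤ Real.pi := by linarith [Real.pi_pos]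
    have e1 : ∫ θ in Set.Ioo (-Real.pi) Real.pi, r * Real.log (1 + ‖f (circleMap 0 r θ)‖ ^ 2) =
        ∫ θ in (-Real.pi)..Real.pi, r * Real.log (1 + ‖f (circleMap 0 r θ)‖ ^ 2) := by
      rw [intervalIntegral.integral_of_le hpi, integral_Ioc_eq_integral_Ioo]
    rw [e1, intervalIntegral.integral_const_mul]
    refine mul_le_mul_of_nonneg_left ?_ hr.1.le
    have hper : Function.Periodic (fun θ : ℝ => Real.log (1 + ‖f (circleMap 0 r θ)‖ ^ 2))
        (2 * Real.pi) := by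
      intro θ
      show Real.log (1 + ‖f (circleMap 0 r (θ + 2 * Real.pi))‖ ^ 2) = _
      rw [periodic_circleMap 0 r θ]
    have e2 := hper.intervalIntegral_add_eq (-Real.pi) 0
    rw [zero_add, show -Real.pi + 2 * Real.pi = Real.pi by ring] at e2
    rw [e2]
    exact h r hr.1 hr.2
  calc ∫⁻ r in Set.Ioo (0 : ℝ) 1, ∫⁻ θ in Set.Ioo (-Real.pi) Real.pi,
        ENNReal.ofReal (r * Real.log (1 + ‖f (circleMap 0 r θ)‖ ^ 2))
      ≤ ∫⁻ r in Set.Ioo (0 : ℝ) 1, ENNReal.ofReal (r * M) :=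
        setLIntegral_mono' measurableSet_Ioo hinner
    _ = ENNReal.ofReal (M / 2) := by
      have hM : 0 ≤ M := by
        refine le_trans ?_ (h (1 / 2) (by norm_num) (by norm_num))
        unfold cm
        exact intervalIntegral.integral_nonneg (by positivity) fun t _ => log_nn _
      have hint : IntegrableOn (fun r : ℝ => r * M) (Set.Ioo (0 : ℝ) 1) :=
        ((continuous_id.mul continuous_const).integrableOn_Icc (a := (0 : ℝ)) (b := 1)).mono_set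
          Ioo_subset_Icc_self
      rw [← ofReal_integral_eq_lintegral_ofReal hint]
      · congr 1
        rw [← integral_Ioc_eq_integral_Ioo, ← intervalIntegral.integral_of_le zero_le_one,
          intervalIntegral.integral_mul_const, integral_id]
        ring
      · filter_upwards [ae_restrict_mem measurableSet_Ioo] with r hr
        exact mul_nonneg hr.1.le hM

/-- `mob a` inverts `mob (-a)`. -/
private theorem mob_inv {a z : ℂ} (ha : ‖a‖ < 1) (hz : z ∈ ball (0 : ℂ) 1) :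
    MPV.mob a (MPV.mob (-a) z) = z := by
  have hz' : ‖z‖ < 1 := mem_ball_zero_iff.1 hz
  have hd : 1 + (starRingEnd ℂ) (-a) * z ≠ 0 := by
    intro h
    have h1 : ‖(starRingEnd ℂ) (-a) * z‖ < 1 := by
      rw [norm_mul, Complex.norm_conj, norm_neg]
      calc ‖a‖ * ‖z‖ ≤ 1 * ‖z‖ := mul_le_mul_of_nonneg_right ha.le (norm_nonneg _)
        _ < 1 := by rw [one_mul]; exact hz'
    have h2 : (starRingEnd ℂ) (-a) * z = -1 := by linear_combination h
    rw [h2, norm_neg, norm_one] at h1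
    exact lt_irrefl _ h1
  have ha2 : 1 - (starRingEnd ℂ) a * a ≠ 0 := by
    intro h
    have h1 : ‖(starRingEnd ℂ) a * a‖ < 1 := by
      rw [norm_mul, Complex.norm_conj]
      nlinarith [norm_nonneg a]
    have h2 : (starRingEnd ℂ) a * a = 1 := by linear_combination -h
    rw [h2, norm_one] at h1
    exact lt_irrefl _ h1
  unfold MPV.mob
  obtain ⟨D, hD⟩ : ∃ D, D = 1 + (starRingEnd ℂ) (-a) * z := ⟨_, rfl⟩
  rw [← hD] at hd ⊢
  have hD' : D = 1 - (starRingEnd ℂ) a * z := by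
    rw [hD, map_neg]
    ring
  have e1 : 1 + (starRingEnd ℂ) a * ((z + -a) / D) = (1 - (starRingEnd ℂ) a * a) / D := by
    rw [eq_div_iff hd, add_mul, mul_assoc, div_mul_cancel₀ _ hd, hD']
    ring
  have e2 : (z + -a) / D + a = z * (1 - (starRingEnd ℂ) a * a) / D := by
    rw [eq_div_iff hd, add_mul, div_mul_cancel₀ _ hd, hD']
    ring
  rw [e1, e2, div_div_div_cancel_right₀ hd, mul_div_assoc, div_self ha2, mul_one]

/-- `mob a` maps the disc `‖z‖ ≤ 1/2` into the disc `‖z‖ ≤ 4/5` for `‖a‖ ≤ 1/2`. -/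
private theorem mob_half {a z : ℂ} (ha : ‖a‖ ≤ 1 / 2) (hz : ‖z‖ ≤ 1 / 2) :
    ‖MPV.mob a z‖ ≤ 4 / 5 := by
  have ha0 := norm_nonneg a
  have hz0 := norm_nonneg z
  have h2 : ‖1 + (starRingEnd ℂ) a * z‖ ^ 2 - ‖z + a‖ ^ 2 = (1 - ‖a‖ ^ 2) * (1 - ‖z‖ ^ 2) := by
    simp only [← Complex.normSq_eq_norm_sq, Complex.normSq_apply, Complex.add_re, Complex.add_im,
      Complex.mul_re, Complex.mul_im, Complex.conj_re, Complex.conj_im, Complex.one_re,
      Complex.one_im]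
    ring
  have haz : ‖(starRingEnd ℂ) a * z‖ ≤ 1 / 4 := by
    rw [norm_mul, Complex.norm_conj]
    nlinarith
  have h3 : ‖1 + (starRingEnd ℂ) a * z‖ ≤ 5 / 4 := by
    refine (norm_add_le _ _).trans ?_
    rw [norm_one]
    linarith
  have h4 : 3 / 4 ≤ ‖1 + (starRingEnd ℂ) a * z‖ := by
    have h5 : (1 : ℂ) = (1 + (starRingEnd ℂ) a * z) - (starRingEnd ℂ) a * z := by ring
    have h6 : (1 : ℝ) ≤ ‖1 + (starRingEnd ℂ) a * z‖ + ‖(starRingEnd ℂ) a * z‖ := by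
      calc (1 : ℝ) = ‖(1 : ℂ)‖ := norm_one.symm
        _ = ‖(1 + (starRingEnd ℂ) a * z) - (starRingEnd ℂ) a * z‖ := by rw [← h5]
        _ ≤ _ := norm_sub_le _ _
    linarith
  have h7 : (9 : ℝ) / 16 ≤ (1 - ‖a‖ ^ 2) * (1 - ‖z‖ ^ 2) := by
    have g1 : ‖a‖ ^ 2 ≤ 1 / 4 := by nlinarith
    have g2 : ‖z‖ ^ 2 ≤ 1 / 4 := by nlinarith
    nlinarith
  unfold MPV.mob
  rw [norm_div, div_le_iff₀ (by linarith)]
  have h8 : ‖z + a‖ ^ 2 ≤ (4 / 5 * ‖1 + (starRingEnd ℂ) a * z‖) ^ 2 := by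
    nlinarith [norm_nonneg (1 + (starRingEnd ℂ) a * z)]
  exact le_of_sq_le_sq h8 (by positivity)

/-- Growth of the circle means. -/
private theorem cm_growth {p : ℝ} (hp : 0 < p) {f : ℂ → ℂ} (hf : MV (ball 0 1) p f) {ρ r : ℝ}
    (hρ : 0 < ρ) (hρr : ρ ≤ r) (hr : r < 1) :
    cm f r ≤ cm f ρ + 4 * Real.pi * p * Real.log (1 / ρ) := by
  have hpi := Real.pi_pos
  have hK : ∀ s ∈ Icc ρ r, ∫⁻ z in ball (0 : ℂ) s, ENNReal.ofReal (MPV.KK f z) ≤
      ENNReal.ofReal ((fun _ : ℝ => 4 * Real.pi * p) s) := by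
    intro s hs
    have h1 := lay_sph isOpen_ball hp.le one_pos hf
    have h2 : ∫⁻ z in ball (0 : ℂ) s, ENNReal.ofReal (MPV.KK f z) ≤
        ∫⁻ z in ball (0 : ℂ) 1, ENNReal.ofReal (MPV.KK f z) :=
      lintegral_mono_set (ball_subset_ball (hs.2.trans hr.le))
    have h3 : ∫⁻ z in ball (0 : ℂ) 1, ENNReal.ofReal (MPV.KK f z) =
        ENNReal.ofReal 4 * ∫⁻ z in ball (0 : ℂ) 1,
          ENNReal.ofReal (‖deriv f z‖ ^ 2 * ((1 : ℝ) ^ 4 / ((1 : ℝ) ^ 2 + ‖f z‖ ^ 2) ^ 2)) := by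
      rw [← lintegral_const_mul' _ _ ENNReal.ofReal_ne_top]
      refine lintegral_congr fun z => ?_
      rw [← ENNReal.ofReal_mul (by norm_num)]
      congr 1
      unfold MPV.KK
      rw [one_pow, one_pow]
      ring
    rw [h3] at h2
    refine h2.trans ?_
    calc ENNReal.ofReal 4 * ∫⁻ z in ball (0 : ℂ) 1,
          ENNReal.ofReal (‖deriv f z‖ ^ 2 * ((1 : ℝ) ^ 4 / ((1 : ℝ) ^ 2 + ‖f z‖ ^ 2) ^ 2))
        ≤ ENNReal.ofReal 4 * ENNReal.ofReal (Real.pi * p * (1 : ℝ) ^ 2) := by gcongr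
      _ = ENNReal.ofReal (4 * Real.pi * p) := by
        rw [← ENNReal.ofReal_mul (by norm_num)]
        congr 1
        ring
  have h := mean_inc hf.diff hρ hρr hr (Kf := fun _ : ℝ => 4 * Real.pi * p) continuousOn_const
    (fun _ _ => by positivity) hK
  have h4 : ∫ s in ρ..r, 4 * Real.pi * p / s = 4 * Real.pi * p * Real.log (r / ρ) := by
    simp_rw [div_eq_mul_inv]
    rw [intervalIntegral.integral_const_mul, integral_inv_of_pos hρ (by linarith)]
    rfl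
  rw [h4] at h
  have h5 : Real.log (r / ρ) ≤ Real.log (1 / ρ) :=
    Real.log_le_log (div_pos (by linarith) hρ) (div_le_div_of_nonneg_right hr.le hρ.le)
  have h6 := mul_le_mul_of_nonneg_left h5 (show 0 ≤ 4 * Real.pi * p by positivity)
  linarith

private theorem vol_ball (c : ℝ) (hc : 0 ≤ c) :
    ∫⁻ _ in ball (0 : ℂ) 1, ENNReal.ofReal c = ENNReal.ofReal (Real.pi * c) := by
  rw [setLIntegral_const, Complex.volume_ball, ENNReal.ofReal_one, one_pow, one_mul,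
    mul_comm Real.pi c, ENNReal.ofReal_mul hc]
  congr 1
  exact (ENNReal.ofReal_coe_nnreal (p := NNReal.pi)).symm

/-- The loss integral at the recentred function. -/
private theorem low_part {p : ℝ} (hp : 0 < p) {Ch Ca : ℝ} (hCh : 1 ≤ Ch) (hCa : 0 < Ca)
    (har : ∀ f : ℂ → ℂ, MV (ball 0 1) p f → ∀ M : ℝ, 0 < M → (∀ z : ℂ, ‖z‖ ≤ 1 / 2 → ‖f z‖ ≤ M) →
      ∀ z : ℂ, ‖z‖ ≤ 4 / 5 → ‖f z‖ ≤ Ch * M)
    (ham : ∀ f : ℂ → ℂ, MV (ball 0 1) p f →
      (∀ z : ℂ, ‖z‖ ≤ 1 / 2 → ‖f z‖ ≤ 1) →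
      ∫⁻ z in ball (0 : ℂ) 1, ENNReal.ofReal (Real.log (1 + ‖f z‖ ^ 2)) ≤ ENNReal.ofReal Ca)
    {f : ℂ → ℂ} (hf : MV (ball 0 1) p f) {z1 : ℂ} (hz1 : ‖z1‖ ≤ 1 / 2) (hN1 : 1 ≤ ‖f z1‖)
    (hN : ∀ z : ℂ, ‖z‖ ≤ 1 / 2 → ‖f z‖ ≤ ‖f z1‖) :
    ∫⁻ z in ball (0 : ℂ) 1, ENNReal.ofReal (Real.log ‖f z1‖ - lv f 1 ‖f z1‖ z) ≤
      ENNReal.ofReal (9 * (Real.pi * Real.log Ch + Ca / 2)) := by
  have hpi := Real.pi_pos
  obtain ⟨N, hNdef⟩ : ∃ N, N = ‖f z1‖ := ⟨_, rfl⟩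
  rw [← hNdef] at hN1 hN ⊢
  have hNp : 0 < N := by linarith
  have hz1' : ‖z1‖ < 1 := by linarith
  have hCh0 : 0 < Ch := by linarith
  have hlogCh : 0 ≤ Real.log Ch := Real.log_nonneg hCh
  have hg : MV (ball 0 1) p (fun z => f (MPV.mob z1 z)) := hf.mob hz1'
  obtain ⟨g, hgdef⟩ : ∃ g, g = fun z => f (MPV.mob z1 z) := ⟨_, rfl⟩
  rw [← hgdef] at hg
  have hg0 : ‖g 0‖ = N := by
    rw [hgdef, hNdef]
    simp [MPV.mob]
  have h1 := sub_mean hg.diff one_pos hN1 hg0.ge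
  -- the normalised function
  have hG : MV (ball 0 1) p (fun z => (((Ch * N)⁻¹ : ℝ) : ℂ) * g z) :=
    hg.const_mul isOpen_ball hp.le _
  have hGn : ∀ z : ℂ, ‖(((Ch * N)⁻¹ : ℝ) : ℂ) * g z‖ = ‖g z‖ / (Ch * N) := by
    intro z
    rw [norm_mul, Complex.norm_real, Real.norm_eq_abs, abs_of_pos (by positivity), div_eq_inv_mul]
  have h2 := ham _ hG (fun z hz => by
    rw [hGn, div_le_one (by positivity), hgdef]
    exact har f hf N hNp hN _ (mob_half hz1 hz))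
  have h3 : ∫⁻ z in ball (0 : ℂ) 1, ENNReal.ofReal (Real.log (1 + ‖g z‖ ^ 2 / N ^ 2) / 2) ≤
      ENNReal.ofReal (Real.pi * Real.log Ch + Ca / 2) := by
    have hpt : ∀ z : ℂ, ENNReal.ofReal (Real.log (1 + ‖g z‖ ^ 2 / N ^ 2) / 2) ≤
        ENNReal.ofReal (Real.log Ch) + ENNReal.ofReal (1 / 2) *
          ENNReal.ofReal (Real.log (1 + ‖(((Ch * N)⁻¹ : ℝ) : ℂ) * g z‖ ^ 2)) := by
      intro z
      rw [← ENNReal.ofReal_mul (by norm_num), ← ENNReal.ofReal_add hlogCh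
        (mul_nonneg (by norm_num) (log_nn _)), hGn]
      refine ENNReal.ofReal_le_ofReal ?_
      have e1 : 1 + ‖g z‖ ^ 2 / N ^ 2 ≤ Ch ^ 2 * (1 + (‖g z‖ / (Ch * N)) ^ 2) := by
        have e2 : Ch ^ 2 * (1 + (‖g z‖ / (Ch * N)) ^ 2) = Ch ^ 2 + ‖g z‖ ^ 2 / N ^ 2 := by
          field_simp
        rw [e2]
        have : 1 ≤ Ch ^ 2 := one_le_pow₀ hCh
        linarith
      have e3 : Real.log (1 + ‖g z‖ ^ 2 / N ^ 2) ≤
          2 * Real.log Ch + Real.log (1 + (‖g z‖ / (Ch * N)) ^ 2) := by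
        have e4 := Real.log_le_log (by positivity) e1
        rw [Real.log_mul (by positivity) (by positivity), Real.log_pow] at e4
        push_cast at e4
        exact e4
      linarith
    refine (lintegral_mono fun z => hpt z).trans ?_
    rw [lintegral_add_left measurable_const, vol_ball _ hlogCh,
      lintegral_const_mul' _ _ ENNReal.ofReal_ne_top,
      ENNReal.ofReal_add (by positivity) (by positivity)]
    refine add_le_add le_rfl ?_
    calc ENNReal.ofReal (1 / 2) * ∫⁻ z in ball (0 : ℂ) 1,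
          ENNReal.ofReal (Real.log (1 + ‖(((Ch * N)⁻¹ : ℝ) : ℂ) * g z‖ ^ 2))
        ≤ ENNReal.ofReal (1 / 2) * ENNReal.ofReal Ca := by gcongr
      _ = ENNReal.ofReal (Ca / 2) := by
        rw [← ENNReal.ofReal_mul (by norm_num)]
        congr 1
        ring
  have hm : ‖-z1‖ < 1 := by rw [norm_neg]; exact hz1'
  have h4 := lint_mob hm (u := fun w => ENNReal.ofReal (Real.log N - lv g 1 N w))
  have h5 : ∫⁻ z in ball (0 : ℂ) 1, ENNReal.ofReal (Real.log N - lv f 1 N z) =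
      ∫⁻ z in ball (0 : ℂ) 1,
        (fun w => ENNReal.ofReal (Real.log N - lv g 1 N w)) (MPV.mob (-z1) z) := by
    refine setLIntegral_congr_fun measurableSet_ball fun z hz => ?_
    have e : g (MPV.mob (-z1) z) = f z := by
      rw [hgdef]
      exact congrArg f (mob_inv hz1' hz)
    show ENNReal.ofReal (Real.log N - lv f 1 N z) =
      ENNReal.ofReal (Real.log N - lv g 1 N (MPV.mob (-z1) z))
    unfold lv
    rw [e]
  rw [h5]
  refine h4.trans ?_
  have h6 : ENNReal.ofReal (((1 + ‖-z1‖) / (1 - ‖-z1‖)) ^ 2) ≤ ENNReal.ofReal 9 := by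
    refine ENNReal.ofReal_le_ofReal ?_
    rw [norm_neg]
    have e1 : (1 + ‖z1‖) / (1 - ‖z1‖) ≤ 3 := by
      rw [div_le_iff₀ (by linarith)]
      linarith
    have e2 : 0 ≤ (1 + ‖z1‖) / (1 - ‖z1‖) :=
      div_nonneg (by linarith [norm_nonneg z1]) (by linarith)
    nlinarith
  calc ENNReal.ofReal (((1 + ‖-z1‖) / (1 - ‖-z1‖)) ^ 2) * ∫⁻ z in ball (0 : ℂ) 1,
        (fun w => ENNReal.ofReal (Real.log N - lv g 1 N w)) z
      ≤ ENNReal.ofReal 9 * ENNReal.ofReal (Real.pi * Real.log Ch + Ca / 2) := by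
        refine mul_le_mul' h6 (h1.trans h3)
    _ = ENNReal.ofReal (9 * (Real.pi * Real.log Ch + Ca / 2)) := by
        rw [← ENNReal.ofReal_mul (by norm_num)]

/-- The upper bound for the area integral. -/
private theorem up_part {p : ℝ} (hp : 0 < p) {q : ℕ} {f : ℂ → ℂ} (hf : MV (ball 0 1) p f)
    (hcoef : ∀ ν ≤ q, ‖MPV.coef f ν‖ ≤ 1) {N : ℝ} (hN : ∀ z : ℂ, ‖z‖ ≤ 1 / 2 → ‖f z‖ ≤ N)
    (hbig : 2 ^ (q + 1) ≤ N) :
    ∫⁻ z in ball (0 : ℂ) 1, ENNReal.ofReal (Real.log (1 + ‖f z‖ ^ 2)) ≤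
      ENNReal.ofReal ((2 * Real.pi * Real.log (1 + ((q : ℝ) + 3) ^ 2) +
        4 * Real.pi * p * (Real.log 2 + Real.log N / (q + 1))) / 2) := by
  have hpi := Real.pi_pos
  have hq1 : (0 : ℝ) < (q : ℝ) + 1 := by positivity
  have hNp : 0 < N := lt_of_lt_of_le (by positivity) hbig
  have hlog2 : ((q : ℝ) + 1) * Real.log 2 ≤ Real.log N := by
    have h1 := Real.log_le_log (by positivity) hbig
    rw [Real.log_pow] at h1
    push_cast at h1
    exact h1
  have hl2 : 0 < Real.log 2 := Real.log_pos (by norm_num)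
  have hlogN : 0 ≤ Real.log N := le_trans (by positivity) hlog2
  obtain ⟨ρ, hρdef⟩ : ∃ ρ, ρ = Real.exp (-(Real.log N / (q + 1))) / 2 := ⟨_, rfl⟩
  have hρ : 0 < ρ := by rw [hρdef]; positivity
  have hρ4 : ρ ≤ 1 / 4 := by
    have h1 : Real.log 2 ≤ Real.log N / (q + 1) := by
      rw [le_div_iff₀ hq1]
      linarith
    have h2 : Real.exp (-(Real.log N / (q + 1))) ≤ Real.exp (-Real.log 2) :=
      Real.exp_le_exp.2 (neg_le_neg h1)
    rw [Real.exp_neg (Real.log 2), Real.exp_log (by norm_num)] at h2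
    rw [hρdef]
    linarith
  have hpow : N * (2 * ρ) ^ (q + 1) = 1 := by
    have h1 : 2 * ρ = Real.exp (-(Real.log N / (q + 1))) := by rw [hρdef]; ring
    rw [h1, ← Real.exp_nat_mul]
    have h2 : ((q + 1 : ℕ) : ℝ) * -(Real.log N / (q + 1)) = -Real.log N := by
      push_cast
      field_simp
    rw [h2, Real.exp_neg, Real.exp_log hNp]
    exact mul_inv_cancel₀ hNp.ne'
  have hlogρ : Real.log (1 / ρ) = Real.log 2 + Real.log N / (q + 1) := by
    rw [hρdef, one_div, Real.log_inv, Real.log_div (Real.exp_pos _).ne' (by norm_num),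
      Real.log_exp]
    ring
  have hcmρ : cm f ρ ≤ 2 * Real.pi * Real.log (1 + ((q : ℝ) + 3) ^ 2) := by
    unfold cm
    have h1 : ∀ t ∈ Icc (0 : ℝ) (2 * Real.pi), Real.log (1 + ‖f (circleMap 0 ρ t)‖ ^ 2) ≤
        Real.log (1 + ((q : ℝ) + 3) ^ 2) := by
      intro t _
      refine Real.log_le_log (by positivity) ?_
      have h2 := near_zero hf.diff hNp.le hN hcoef hρ4 (z := circleMap 0 ρ t)
        (MPV.stk_norm hρ.le).le
      rw [hpow] at h2
      have h3 := norm_nonneg (f (circleMap 0 ρ t))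
      have h4 : ‖f (circleMap 0 ρ t)‖ ^ 2 ≤ ((q : ℝ) + 3) ^ 2 :=
        pow_le_pow_left₀ h3 (by linarith) 2
      linarith
    have hct : Continuous fun t : ℝ => Real.log (1 + ‖f (circleMap 0 ρ t)‖ ^ 2) :=
      MPV.stk_cont_circle (cm_cont hf.diff) hρ.le (by linarith)
    have h2 := intervalIntegral.integral_mono_on (a := (0 : ℝ)) (b := 2 * Real.pi) (by positivity)
      (hct.intervalIntegrable (μ := volume) _ _)
      ((continuous_const (y := Real.log (1 + ((q : ℝ) + 3) ^ 2))).intervalIntegrable (μ := volume)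
        _ _) h1
    rw [intervalIntegral.integral_const, sub_zero, smul_eq_mul] at h2
    exact h2
  refine polar_le hf.diff fun r hr0 hr1 => ?_
  rcases le_total ρ r with hle | hle
  · have h1 := cm_growth hp hf hρ hle hr1
    rw [hlogρ] at h1
    linarith
  · have h1 := mean_mono hf.diff hr0 hle (by linarith)
    have h2 : 0 ≤ 4 * Real.pi * p * (Real.log 2 + Real.log N / (q + 1)) := by positivity
    linarith

theorem norm_mu {p : ℝ} (hp : 0 < p) : ∃ C : ℝ, 1 ≤ C ∧ ∀ f : ℂ → ℂ, MV (ball 0 1) p f →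
    MPV.mu p f ≤ 1 → ∀ z : ℂ, ‖z‖ ≤ 1 / 2 → ‖f z‖ ≤ C := by
  obtain ⟨Ch, hCh, har⟩ := harnack hp (ρ := 4 / 5) (by norm_num) (by norm_num)
  obtain ⟨Ca, hCa, ham⟩ := area_mean_le hp
  obtain ⟨q, hq⟩ : ∃ q, q = ⌊p⌋₊ := ⟨_, rfl⟩
  have hpi := Real.pi_pos
  have hpq : p < q + 1 := by rw [hq]; exact Nat.lt_floor_add_one p
  have hq1 : (0 : ℝ) < (q : ℝ) + 1 := by positivity
  obtain ⟨C1, hC1⟩ : ∃ C1, C1 = 2 * Real.pi * Real.log (1 + ((q : ℝ) + 3) ^ 2) := ⟨_, rfl⟩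
  have hC1p : 0 ≤ C1 := by
    rw [hC1]
    exact mul_nonneg (by positivity) (log_nn _)
  obtain ⟨C2, hC2⟩ : ∃ C2, C2 = 9 * (Real.pi * Real.log Ch + Ca / 2) := ⟨_, rfl⟩
  have hC2p : 0 ≤ C2 := by
    rw [hC2]
    have : 0 ≤ Real.log Ch := Real.log_nonneg hCh
    positivity
  obtain ⟨κ, hκ⟩ : ∃ κ, κ = 1 - p / (q + 1) := ⟨_, rfl⟩
  have hκp : 0 < κ := by
    rw [hκ, sub_pos, div_lt_one hq1]
    exact hpq
  obtain ⟨C4, hC4⟩ : ∃ C4, C4 = C2 + C1 / 4 + Real.pi * p * Real.log 2 := ⟨_, rfl⟩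
  have h2q : (1 : ℝ) ≤ 2 ^ (q + 1) := one_le_pow₀ (by norm_num)
  refine ⟨2 ^ (q + 1) + Real.exp (C4 / (Real.pi * κ)), by
    have := Real.exp_pos (C4 / (Real.pi * κ))
    linarith, fun f hf hmu z hz => ?_⟩
  obtain ⟨z1, hz1, hmax⟩ := (isCompact_closedBall (0 : ℂ) (1 / 2)).exists_isMaxOn
    ⟨0, mem_closedBall_self (by norm_num)⟩ (hf.diff.continuousOn.mono half_sub).norm
  have hN : ∀ z : ℂ, ‖z‖ ≤ 1 / 2 → ‖f z‖ ≤ ‖f z1‖ := fun z hz =>
    hmax (mem_closedBall_zero_iff.2 hz)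
  have hz1' : ‖z1‖ ≤ 1 / 2 := mem_closedBall_zero_iff.1 hz1
  refine (hN z hz).trans ?_
  rcases lt_or_ge ‖f z1‖ (2 ^ (q + 1)) with hs | hbig
  · have := Real.exp_pos (C4 / (Real.pi * κ))
    linarith
  · have hN1 : 1 ≤ ‖f z1‖ := h2q.trans hbig
    have hcoef : ∀ ν ≤ q, ‖MPV.coef f ν‖ ≤ 1 := by
      intro ν hν
      refine le_trans ?_ hmu
      unfold MPV.mu
      rw [← hq]
      exact le_ciSup (f := fun ν : Fin (q + 1) => ‖MPV.coef f ν‖) (Set.finite_range _).bddAbove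
        ⟨ν, Nat.lt_succ_of_le hν⟩
    have hup := up_part hp hf hcoef hN hbig
    have hlow := low_part hp hCh hCa har ham hf hz1' hN1 hN
    rw [← hC1] at hup
    rw [← hC2] at hlow
    obtain ⟨N, hNdef⟩ : ∃ N, N = ‖f z1‖ := ⟨_, rfl⟩
    rw [← hNdef] at hup hlow hN1 ⊢
    have hNp : 0 < N := by linarith
    have hlogN : 0 ≤ Real.log N := Real.log_nonneg hN1
    have hl2 : 0 < Real.log 2 := Real.log_pos (by norm_num)
    obtain ⟨M, hM⟩ : ∃ M, M = C1 + 4 * Real.pi * p * (Real.log 2 + Real.log N / (q + 1)) :=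
      ⟨_, rfl⟩
    have hMp : 0 ≤ M := by rw [hM]; positivity
    rw [← hM] at hup
    have hpt : ∀ z : ℂ, ENNReal.ofReal (Real.log N) ≤ ENNReal.ofReal (Real.log N - lv f 1 N z) +
        ENNReal.ofReal (1 / 2) * ENNReal.ofReal (Real.log (1 + ‖f z‖ ^ 2)) := by
      intro z
      rw [← ENNReal.ofReal_mul (by norm_num)]
      refine le_trans ?_ ENNReal.ofReal_add_le
      refine ENNReal.ofReal_le_ofReal ?_
      unfold lv
      have e1 : 0 ≤ Real.log (1 + ‖f z‖ ^ 2 / N ^ 2) := Real.log_nonneg (by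
        have : 0 ≤ ‖f z‖ ^ 2 / N ^ 2 := by positivity
        linarith)
      rw [one_pow]
      linarith
    have hmeas : AEMeasurable (fun z => ENNReal.ofReal (Real.log (1 + ‖f z‖ ^ 2)))
        (volume.restrict (ball (0 : ℂ) 1)) :=
      ((cm_cont hf.diff).aemeasurable measurableSet_ball).ennreal_ofReal
    have h1 : ENNReal.ofReal (Real.pi * Real.log N) ≤ ENNReal.ofReal (C2 + M / 4) := by
      rw [← vol_ball _ hlogN]
      refine (lintegral_mono fun z => hpt z).trans ?_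
      rw [lintegral_add_right' _ (hmeas.const_mul _), lintegral_const_mul' _ _ ENNReal.ofReal_ne_top,
        ENNReal.ofReal_add hC2p (by positivity)]
      refine add_le_add hlow ?_
      calc ENNReal.ofReal (1 / 2) * ∫⁻ z in ball (0 : ℂ) 1,
            ENNReal.ofReal (Real.log (1 + ‖f z‖ ^ 2))
          ≤ ENNReal.ofReal (1 / 2) * ENNReal.ofReal (M / 2) := by gcongr
        _ = ENNReal.ofReal (M / 4) := by
          rw [← ENNReal.ofReal_mul (by norm_num)]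
          congr 1
          ring
    rw [ENNReal.ofReal_le_ofReal_iff (by positivity)] at h1
    have h2 : Real.log N * (Real.pi * κ) ≤ C4 := by
      have e1 : Real.log N * (Real.pi * κ) = Real.pi * Real.log N -
          Real.pi * p * (Real.log N / (q + 1)) := by
        rw [hκ]
        field_simp
      rw [e1, hC4]
      rw [hM] at h1
      linarith
    have h3 : Real.log N ≤ C4 / (Real.pi * κ) := (le_div_iff₀ (by positivity)).2 h2
    have h4 : N ≤ Real.exp (C4 / (Real.pi * κ)) := by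
      rw [← Real.exp_log hNp]
      exact Real.exp_le_exp.2 h3
    have : (0 : ℝ) < 2 ^ (q + 1) := by positivity
    linarith

/-- For comparison: close functions have close normalisations. -/
theorem mu_close {p ε : ℝ} {f g : ℂ → ℂ} (hf : DifferentiableOn ℂ f (ball 0 1))
    (hg : DifferentiableOn ℂ g (ball 0 1)) (hε : 0 ≤ ε)
    (h : ∀ z : ℂ, ‖z‖ ≤ 1 / 2 → ‖f z - g z‖ ≤ ε) :
    MPV.mu p g ≤ MPV.mu p f + 2 ^ (⌊p⌋₊ + 1) * ε := by
  have hfa : ∀ n : ℕ, ContDiffAt ℂ n f 0 := fun n =>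
    (hf.analyticAt (isOpen_ball.mem_nhds (mem_ball_self one_pos))).contDiffAt
  have hga : ∀ n : ℕ, ContDiffAt ℂ n g 0 := fun n =>
    (hg.analyticAt (isOpen_ball.mem_nhds (mem_ball_self one_pos))).contDiffAt
  unfold MPV.mu
  refine ciSup_le fun ν => ?_
  have h1 : ‖MPV.coef f ν‖ ≤ ⨆ ν : Fin (⌊p⌋₊ + 1), ‖MPV.coef f ν‖ :=
    le_ciSup (f := fun ν : Fin (⌊p⌋₊ + 1) => ‖MPV.coef f ν‖) (Set.finite_range _).bddAbove ν
  have h2 : ‖MPV.coef (f - g) ν‖ ≤ ε * 2 ^ (ν : ℕ) := coef_le (hf.sub hg) h ν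
  have h3 : MPV.coef (f - g) ν = MPV.coef f ν - MPV.coef g ν := by
    unfold MPV.coef
    rw [iteratedDeriv_sub (hfa ν) (hga ν), sub_div]
  rw [h3] at h2
  have h4 : ‖MPV.coef g ν‖ ≤ ‖MPV.coef f ν‖ + ‖MPV.coef f ν - MPV.coef g ν‖ := by
    have e : MPV.coef g ν = MPV.coef f ν - (MPV.coef f ν - MPV.coef g ν) := by ring
    calc ‖MPV.coef g ν‖ = ‖MPV.coef f ν - (MPV.coef f ν - MPV.coef g ν)‖ := by rw [← e]
      _ ≤ _ := norm_sub_le _ _
  have h5 : ε * 2 ^ (ν : ℕ) ≤ 2 ^ (⌊p⌋₊ + 1) * ε := by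
    rw [mul_comm]
    exact mul_le_mul_of_nonneg_right (pow_le_pow_right₀ (by norm_num) ν.2.le) hε
  linarith

end MQV
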