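import Pool.Agent.MQV.Trn
import Pool.Agent.MQV.Exm
import Pool.Agent.MQV.Nrm

set_option autoImplicit false

/-!
# MQV LIM : the limit exists for every `p > 1/4`

* `tendsto_of_almost_sup`: `K = limsup x`; given `ε`, pick `n ≥ n₀` with `x n ≥ K - ε`; for all
  `m ≥ A n` `x m ≥ K - 2ε`, and eventually `x m ≤ K + ε`.
* `A_le`: `f ∈ S p`: `MV` by `meanValent_iff`, `‖f‖ ≤ C_N` on `|z| ≤ 1/2` by `norm_mu`, so
  `C_N⁻¹ f` is `Nd` (`Nd.smul`) and `coef_bound`.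
* `transfer_A` (`ε ≤ 1` without loss).  `C_N` of `norm_mu`, `C_A` of `A_le`, `Q = 2^(⌊p⌋₊+1)`.  `ε₁ > 0` with
  `C_N ε₁ ≤ ε/4`, `ε₂ = Q C_N ε₁ ≤ 1/2`, `C_A ε₂ ≤ ε/4`.  `trn` with `c = ε/(2C_N)` and `ε₁`: `n₀`.
  Choose `f ∈ S p` with `‖coef f n‖ ≥ (A p n).toReal - (ε/4) n^(2p-1)`.  If
  `‖coef f n‖ n^(1-2p) < ε/2`, done.  Otherwise `f₀ = C_N⁻¹ f`, `g₀` from `trn`, `g = C_N g₀`,
  `‖g - f‖ ≤ C_N ε₁` on `|z| ≤ 1/2`; by `mu_close` in both directions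
  `1 - ε₂ ≤ mu p g ≤ 1 + ε₂`; `smul_mem_S`: `(A p m).toReal ≥ ‖coef g m‖/(1+ε₂)`;
  `‖coef g m‖ m^(1-2p) ≥ ‖coef f n‖ n^(1-2p) - C_N ε₁`.
  With `X = ‖coef f n‖ n^(1-2p) ∈ [ε/2, C_A]`: `(X - C_N ε₁)/(1+ε₂) ≥ X - C_N ε₁ - C_A ε₂`.
* `limit_exists`: `x n = (A p n).toReal * n^(1-2p)`, between `c` (`A_lower`) and `C` (`A_le`).
-/

open MeasureTheory Metric Set Filter Topology

namespace MQV

theorem tendsto_of_almost_sup {x : ℕ → ℝ} {c C A : ℝ} (hb : ∀ n, 1 ≤ n → c ≤ x n)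
    (hB : ∀ n, 1 ≤ n → x n ≤ C)
    (h : ∀ ε : ℝ, 0 < ε → ∃ n₀ : ℕ, ∀ n m : ℕ, n₀ ≤ n → A * n ≤ m → x n ≤ x m + ε) :
    ∃ K : ℝ, c ≤ K ∧ Tendsto x atTop (𝓝 K) := by
  -- the tail suprema
  set S : ℕ → ℝ := fun N => sSup (x '' Ici (N + 1)) with hS
  have hne : ∀ N, (x '' Ici (N + 1)).Nonempty := fun N => ⟨x (N + 1), N + 1, mem_Ici.2 (le_refl _), rfl⟩
  have hbd : ∀ N, BddAbove (x '' Ici (N + 1)) := by
    rintro N
    refine ⟨C, ?_⟩
    rintro _ ⟨n, hn, rfl⟩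
    exact hB n (by have : N + 1 ≤ n := hn; omega)
  have hle : ∀ N n, N + 1 ≤ n → x n ≤ S N := fun N n hn => le_csSup (hbd N) ⟨n, hn, rfl⟩
  have hanti : Antitone S := by
    intro N M hNM
    apply csSup_le (hne M)
    rintro _ ⟨n, hn, rfl⟩
    exact hle N n (by have : M + 1 ≤ n := hn; omega)
  have hlow : ∀ N, c ≤ S N := fun N => (hb (N + 1) (by omega)).trans (hle N (N + 1) (le_refl _))
  have hbelow : BddBelow (range S) := ⟨c, by rintro _ ⟨N, rfl⟩; exact hlow N⟩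
  have hconv := tendsto_atTop_ciInf hanti hbelow
  set K : ℝ := ⨅ N, S N with hK
  have hKle : ∀ N, K ≤ S N := fun N => ciInf_le hbelow N
  refine ⟨K, le_ciInf hlow, ?_⟩
  rw [Metric.tendsto_atTop]
  intro ε hε
  obtain ⟨n₀, hn₀⟩ := h (ε / 3) (by linarith)
  -- a large value beyond n₀
  have h1 : K - ε / 3 < S n₀ := by linarith [hKle n₀]
  obtain ⟨_, ⟨n, hn, rfl⟩, hn2⟩ := exists_lt_of_lt_csSup (hne n₀) h1
  have hn' : n₀ + 1 ≤ n := hn
  obtain ⟨N₁, hN₁⟩ := Metric.tendsto_atTop.1 hconv (ε / 2) (by linarith)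
  obtain ⟨N₂, hN₂⟩ := exists_nat_ge (A * n)
  refine ⟨max (N₁ + 1) N₂, fun m hm => ?_⟩
  have hm1 : N₁ + 1 ≤ m := le_trans (le_max_left _ _) hm
  have hm2 : N₂ ≤ m := le_trans (le_max_right _ _) hm
  have h2 := hn₀ n m (by omega) (hN₂.trans (by exact_mod_cast hm2))
  have h3 := hle N₁ m hm1
  have h4 := hN₁ N₁ (le_refl _)
  rw [Real.dist_eq, abs_lt] at h4 ⊢
  constructor
  · linarith
  · linarith [h4.2]


theorem S_mv {p : ℝ} {f : ℂ → ℂ} (hf : f ∈ MPV.S p) :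
    MV (ball 0 1) p f ∧ MPV.mu p f = 1 :=
  ⟨(meanValent_iff hf.1).1 hf.2.1, hf.2.2⟩

theorem coef_smul (c : ℂ) {f : ℂ → ℂ} (hf : DifferentiableOn ℂ f (ball 0 1)) (n : ℕ) :
    ‖MPV.coef (fun z => c * f z) n‖ = ‖c‖ * ‖MPV.coef f n‖ := by
  rw [MPV.coef_const_mul c hf, norm_mul]

theorem A_le {p : ℝ} (hp : 1 / 4 < p) : ∃ C : ℝ, 0 < C ∧ ∀ n : ℕ, 1 ≤ n →
    MPV.A p n ≤ ENNReal.ofReal (C * (n : ℝ) ^ (2 * p - 1)) := by
  have hp0 : 0 < p := by linarith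
  obtain ⟨CN, hCN, hN⟩ := norm_mu hp0
  obtain ⟨C, hC, hco⟩ := coef_bound hp
  have hCN0 : 0 < CN := by linarith
  refine ⟨CN * C, by positivity, fun n hn => ?_⟩
  unfold MPV.A
  refine iSup₂_le (fun f hf => ENNReal.ofReal_le_ofReal ?_)
  obtain ⟨hmv, hmu⟩ := S_mv hf
  have hnd := Nd.smul hp0.le hmv hCN0 (hN f hmv hmu.le)
  have h1 := hco _ hnd n hn
  rw [coef_smul _ hf.1, norm_inv, Complex.norm_real, Real.norm_of_nonneg hCN0.le,
    inv_mul_le_iff₀ hCN0] at h1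
  linarith

theorem A_ne_top {p : ℝ} (hp : 1 / 4 < p) {n : ℕ} (hn : 1 ≤ n) : MPV.A p n ≠ ⊤ := by
  obtain ⟨C, _, h⟩ := A_le hp
  exact ne_top_of_le_ne_top ENNReal.ofReal_ne_top (h n hn)

theorem transfer_A {p : ℝ} (hp : 1 / 4 < p) {ε : ℝ} (hε : 0 < ε) : ∃ n₀ : ℕ, 1 ≤ n₀ ∧
    ∀ n m : ℕ, n₀ ≤ n → Real.exp 10 * n ≤ m →
      (MPV.A p n).toReal * (n : ℝ) ^ (1 - 2 * p) ≤
        (MPV.A p m).toReal * (m : ℝ) ^ (1 - 2 * p) + ε := by
  have hp0 : 0 < p := by linarith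
  obtain ⟨CN, hCN, hN⟩ := norm_mu hp0
  obtain ⟨CA, hCA, hA⟩ := A_le hp
  have hCN0 : 0 < CN := by linarith
  set Q : ℝ := 2 ^ (⌊p⌋₊ + 1) with hQ
  have hQ0 : 0 < Q := by rw [hQ]; positivity
  set ε₁ : ℝ := min (ε / (4 * CN)) (min (1 / (2 * Q * CN)) (ε / (4 * CA * Q * CN))) with hε₁
  have hε₁0 : 0 < ε₁ := by rw [hε₁]; positivity
  have e1 : CN * ε₁ ≤ ε / 4 := by
    have : ε₁ ≤ ε / (4 * CN) := min_le_left _ _
    rw [le_div_iff₀ (by positivity)] at this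
    linarith
  have e2 : Q * CN * ε₁ ≤ 1 / 2 := by
    have : ε₁ ≤ 1 / (2 * Q * CN) := (min_le_right _ _).trans (min_le_left _ _)
    rw [le_div_iff₀ (by positivity)] at this
    linarith
  have e3 : CA * (Q * CN * ε₁) ≤ ε / 4 := by
    have : ε₁ ≤ ε / (4 * CA * Q * CN) := (min_le_right _ _).trans (min_le_right _ _)
    rw [le_div_iff₀ (by positivity)] at this
    linarith
  set ε₂ : ℝ := Q * CN * ε₁ with hε₂
  have hε₂0 : 0 < ε₂ := by rw [hε₂]; positivity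
  obtain ⟨n₀, hn₀, htr⟩ := trn hp (c := ε / (2 * CN)) (by positivity) hε₁0
  refine ⟨n₀, hn₀, fun n m hn hm => ?_⟩
  have hn1 : 1 ≤ n := hn₀.trans hn
  have hnR : (1 : ℝ) ≤ n := by exact_mod_cast hn1
  have hmR : (1 : ℝ) ≤ m := by
    have : (1 : ℝ) ≤ Real.exp 10 := Real.one_le_exp (by norm_num)
    nlinarith
  have hm1 : 1 ≤ m := by exact_mod_cast hmR
  have hnp : 0 < (n : ℝ) ^ (1 - 2 * p) := Real.rpow_pos_of_pos (by linarith) _
  have hmp : 0 < (m : ℝ) ^ (1 - 2 * p) := Real.rpow_pos_of_pos (by linarith) _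
  have hnn : (n : ℝ) ^ (2 * p - 1) * (n : ℝ) ^ (1 - 2 * p) = 1 := by
    rw [← Real.rpow_add (by linarith)]
    simp
  have hAm0 : 0 ≤ (MPV.A p m).toReal * (m : ℝ) ^ (1 - 2 * p) :=
    mul_nonneg ENNReal.toReal_nonneg hmp.le
  -- choose a nearly extremal function
  obtain ⟨f, hf, hfn⟩ : ∃ f ∈ MPV.S p,
      (MPV.A p n).toReal ≤ ‖MPV.coef f n‖ + ε / 4 * (n : ℝ) ^ (2 * p - 1) := by
    by_contra hcon
    push Not at hcon
    have hpos : 0 < ε / 4 * (n : ℝ) ^ (2 * p - 1) :=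
      mul_pos (by positivity) (Real.rpow_pos_of_pos (by linarith) _)
    have h1 : MPV.A p n ≤ ENNReal.ofReal ((MPV.A p n).toReal - ε / 4 * (n : ℝ) ^ (2 * p - 1)) := by
      conv_lhs => unfold MPV.A
      refine iSup₂_le (fun f hf => ENNReal.ofReal_le_ofReal ?_)
      linarith [hcon f hf]
    have h2 : 0 < (MPV.A p n).toReal := by
      by_contra h0
      have h00 : (MPV.A p n).toReal = 0 := le_antisymm (not_lt.1 h0) ENNReal.toReal_nonneg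
      obtain ⟨c, hc, hlow⟩ := A_lower hp0
      have h3 := hlow n hn1
      have h4 := (ENNReal.ofReal_le_iff_le_toReal (A_ne_top hp hn1)).1 h3
      rw [h00] at h4
      have : 0 < c * (n : ℝ) ^ (2 * p - 1) := mul_pos hc (Real.rpow_pos_of_pos (by linarith) _)
      linarith
    have h3 := ENNReal.toReal_mono ENNReal.ofReal_ne_top h1
    rcases le_or_gt 0 ((MPV.A p n).toReal - ε / 4 * (n : ℝ) ^ (2 * p - 1)) with h4 | h4
    · rw [ENNReal.toReal_ofReal h4] at h3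
      linarith
    · rw [ENNReal.ofReal_of_nonpos h4.le, ENNReal.toReal_zero] at h3
      linarith
  obtain ⟨hmv, hmu⟩ := S_mv hf
  have hdf := hf.1
  set X : ℝ := ‖MPV.coef f n‖ * (n : ℝ) ^ (1 - 2 * p) with hX
  have hxn : (MPV.A p n).toReal * (n : ℝ) ^ (1 - 2 * p) ≤ X + ε / 4 := by
    have := mul_le_mul_of_nonneg_right hfn hnp.le
    rw [add_mul, mul_assoc (ε / 4), hnn, mul_one] at this
    exact this
  by_cases hXs : X < ε / 2
  · linarith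
  push Not at hXs
  -- the upper bound of X
  have hXle : X ≤ CA := by
    have h1 : ENNReal.ofReal ‖MPV.coef f n‖ ≤ MPV.A p n := by
      unfold MPV.A
      exact le_iSup₂ (f := fun f (_ : f ∈ MPV.S p) => ENNReal.ofReal ‖MPV.coef f n‖) f hf
    have h2 := (ENNReal.ofReal_le_ofReal_iff (by positivity)).1 (h1.trans (hA n hn1))
    have h3 := mul_le_mul_of_nonneg_right h2 hnp.le
    rw [mul_assoc, hnn, mul_one] at h3
    exact h3
  set f₀ : ℂ → ℂ := fun z => (CN : ℂ)⁻¹ * f z with hf₀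
  have hnd : Nd p f₀ := Nd.smul hp0.le hmv hCN0 (hN f hmv hmu.le)
  have hcf₀ : ∀ k, ‖MPV.coef f₀ k‖ = CN⁻¹ * ‖MPV.coef f k‖ := by
    intro k
    rw [hf₀, coef_smul _ hdf, norm_inv, Complex.norm_real, Real.norm_of_nonneg hCN0.le]
  obtain ⟨g₀, hg₀, hg₀f, hg₀c⟩ := htr f₀ hnd n m hn hm (by
    rw [hcf₀]
    have h1 : ε / 2 * (n : ℝ) ^ (2 * p - 1) ≤ ‖MPV.coef f n‖ := by
      have h2 := mul_le_mul_of_nonneg_right hXs
        (Real.rpow_nonneg (by linarith : (0:ℝ) ≤ n) (2 * p - 1))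
      rw [hX, mul_assoc, mul_comm ((n : ℝ) ^ (1 - 2 * p)), hnn, mul_one] at h2
      exact h2
    calc ε / (2 * CN) * (n : ℝ) ^ (2 * p - 1) = CN⁻¹ * (ε / 2 * (n : ℝ) ^ (2 * p - 1)) := by
          field_simp
      _ ≤ CN⁻¹ * ‖MPV.coef f n‖ := mul_le_mul_of_nonneg_left h1 (by positivity))
  set g : ℂ → ℂ := fun z => (CN : ℂ) * g₀ z with hg
  have hgmv : MV (ball 0 1) p g := hg₀.const_mul isOpen_ball hp0.le _
  have hgf : ∀ z : ℂ, ‖z‖ ≤ 1 / 2 → ‖g z - f z‖ ≤ CN * ε₁ := by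
    intro z hz
    have h1 : g z - f z = (CN : ℂ) * (g₀ z - f₀ z) := by
      simp only [hg, hf₀]
      have : (CN : ℂ) ≠ 0 := by exact_mod_cast hCN0.ne'
      field_simp
    rw [h1, norm_mul, Complex.norm_real, Real.norm_of_nonneg hCN0.le]
    exact mul_le_mul_of_nonneg_left (hg₀f z hz) hCN0.le
  have hfg : ∀ z : ℂ, ‖z‖ ≤ 1 / 2 → ‖f z - g z‖ ≤ CN * ε₁ := by
    intro z hz
    rw [norm_sub_rev]; exact hgf z hz
  have hmu1 : MPV.mu p g ≤ 1 + ε₂ := by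
    have := mu_close (p := p) hdf hgmv.diff (by positivity) hfg
    rw [hmu] at this
    rw [hε₂, hQ, mul_assoc]
    exact this
  have hmu2 : 1 ≤ MPV.mu p g + ε₂ := by
    have := mu_close (p := p) hgmv.diff hdf (by positivity) hgf
    rw [hmu] at this
    rw [hε₂, hQ, mul_assoc]
    exact this
  have hmu0 : 0 < MPV.mu p g := by linarith
  have hgS := smul_mem_S hp0.le hgmv hmu0
  have hAm : ‖MPV.coef g m‖ ≤ (1 + ε₂) * (MPV.A p m).toReal := by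
    have h1 : ENNReal.ofReal ‖MPV.coef (fun z => ((MPV.mu p g)⁻¹ : ℝ) * g z) m‖ ≤ MPV.A p m := by
      unfold MPV.A
      exact le_iSup₂ (f := fun f (_ : f ∈ MPV.S p) => ENNReal.ofReal ‖MPV.coef f m‖) _ hgS
    have h2 := (ENNReal.ofReal_le_iff_le_toReal (A_ne_top hp hm1)).1 h1
    rw [coef_smul _ hgmv.diff, Complex.norm_real, Real.norm_of_nonneg (by positivity),
      inv_mul_le_iff₀ hmu0] at h2
    exact h2.trans (mul_le_mul_of_nonneg_right hmu1 ENNReal.toReal_nonneg)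
  have hgm : X - CN * ε₁ ≤ ‖MPV.coef g m‖ * (m : ℝ) ^ (1 - 2 * p) := by
    have h1 : ‖MPV.coef g m‖ = CN * ‖MPV.coef g₀ m‖ := by
      rw [hg, coef_smul _ hg₀.diff, Complex.norm_real, Real.norm_of_nonneg hCN0.le]
    rw [hcf₀] at hg₀c
    have h2 := mul_le_mul_of_nonneg_left hg₀c hCN0.le
    rw [h1, hX]
    have h3 : CN * (CN⁻¹ * ‖MPV.coef f n‖ * (n : ℝ) ^ (1 - 2 * p)) =
        ‖MPV.coef f n‖ * (n : ℝ) ^ (1 - 2 * p) := by
      field_simp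
    rw [h3] at h2
    linarith
  have hkey : X - CN * ε₁ ≤ (1 + ε₂) * ((MPV.A p m).toReal * (m : ℝ) ^ (1 - 2 * p)) := by
    refine hgm.trans ?_
    rw [← mul_assoc]
    exact mul_le_mul_of_nonneg_right hAm hmp.le
  set Y : ℝ := (MPV.A p m).toReal * (m : ℝ) ^ (1 - 2 * p) with hY
  -- `X - CN ε₁ - CA ε₂ ≤ Y`
  have hfin : X - CN * ε₁ - CA * ε₂ ≤ Y := by
    by_contra hcon
    push Not at hcon
    have h1 : Y < CA := by
      have : 0 < CN * ε₁ := by positivity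
      have : 0 < CA * ε₂ := by positivity
      linarith
    nlinarith
  linarith

theorem limit_exists {p : ℝ} (hp : 1 / 4 < p) : ∃ K : ℝ, 0 < K ∧
    Tendsto (fun n : ℕ => MPV.A p n * ENNReal.ofReal ((n : ℝ) ^ (1 - 2 * p))) atTop
      (𝓝 (ENNReal.ofReal K)) := by
  have hp0 : 0 < p := by linarith
  obtain ⟨c, hc, hlow⟩ := A_lower hp0
  obtain ⟨C, hC, hA⟩ := A_le hp
  have hnn : ∀ n : ℕ, 1 ≤ n → (n : ℝ) ^ (2 * p - 1) * (n : ℝ) ^ (1 - 2 * p) = 1 := by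
    intro n hn
    have : (1 : ℝ) ≤ n := by exact_mod_cast hn
    rw [← Real.rpow_add (by linarith)]
    simp
  have hnp : ∀ n : ℕ, 0 ≤ (n : ℝ) ^ (1 - 2 * p) := fun n => Real.rpow_nonneg (by positivity) _
  obtain ⟨K, hK, hlim⟩ := tendsto_of_almost_sup
    (x := fun n : ℕ => (MPV.A p n).toReal * (n : ℝ) ^ (1 - 2 * p)) (c := c) (C := C)
    (A := Real.exp 10) (fun n hn => by
      have h1 := (ENNReal.ofReal_le_iff_le_toReal (A_ne_top hp hn)).1 (hlow n hn)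
      have h2 := mul_le_mul_of_nonneg_right h1 (hnp n)
      rw [mul_assoc, hnn n hn, mul_one] at h2
      exact h2) (fun n hn => by
      have h1 := ENNReal.toReal_mono ENNReal.ofReal_ne_top (hA n hn)
      rw [ENNReal.toReal_ofReal (by positivity)] at h1
      have h2 := mul_le_mul_of_nonneg_right h1 (hnp n)
      rw [mul_assoc, hnn n hn, mul_one] at h2
      exact h2) (fun ε hε => by
      obtain ⟨n₀, _, h⟩ := transfer_A hp hε
      exact ⟨n₀, h⟩)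
  refine ⟨K, lt_of_lt_of_le hc hK, ?_⟩
  refine (ENNReal.tendsto_ofReal hlim).congr' ?_
  filter_upwards [eventually_ge_atTop 1] with n hn
  rw [ENNReal.ofReal_mul ENNReal.toReal_nonneg, ENNReal.ofReal_toReal (A_ne_top hp hn)]

end MQV
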