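import Pool.Agent.MPV.Stk

set_option autoImplicit false

/-!
# MQV POL : polar coordinates for continuous nonnegative functions on a disc
-/

open MeasureTheory Metric Set

namespace MQV

theorem pol_inner {h : ℂ → ℝ} (hh : ContinuousOn h (ball 0 1))
    (h0 : ∀ z ∈ ball (0 : ℂ) 1, 0 ≤ h z) {ρ : ℝ} (hρ : 0 < ρ) (hρ1 : ρ < 1) :
    ∫⁻ θ in Ioo (-Real.pi) Real.pi, ENNReal.ofReal (h (ρ * Complex.exp (θ * Complex.I))) =
      ENNReal.ofReal (∫ t in (0 : ℝ)..2 * Real.pi, h (circleMap 0 ρ t)) := by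
  have hc : Continuous fun t : ℝ => h (circleMap 0 ρ t) := MPV.stk_cont_circle hh hρ.le hρ1
  have hcm : ∀ t : ℝ, (ρ * Complex.exp (t * Complex.I) : ℂ) = circleMap 0 ρ t := by
    intro t
    simp [circleMap]
  simp only [hcm]
  have hint : IntegrableOn (fun θ : ℝ => h (circleMap 0 ρ θ)) (Ioo (-Real.pi) Real.pi) :=
    (hc.integrableOn_Icc (a := -Real.pi) (b := Real.pi)).mono_set Ioo_subset_Icc_self
  rw [← ofReal_integral_eq_lintegral_ofReal hint
    (ae_of_all _ (fun θ => h0 _ (MPV.stk_mem hρ.le hρ1)))]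
  congr 1
  rw [← integral_Ioc_eq_integral_Ioo,
    ← intervalIntegral.integral_of_le (by linarith [Real.pi_pos])]
  have hper : Function.Periodic (fun θ : ℝ => h (circleMap 0 ρ θ)) (2 * Real.pi) := by
    intro θ
    have := periodic_circleMap 0 ρ θ
    simp only [this]
  have h4 := hper.intervalIntegral_add_eq 0 (-Real.pi)
  rw [zero_add, show -Real.pi + 2 * Real.pi = Real.pi by ring] at h4
  exact h4.symm

/-- polar coordinates -/
theorem lint_polar {h : ℂ → ℝ} (hh : ContinuousOn h (ball 0 1))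
    (h0 : ∀ z ∈ ball (0 : ℂ) 1, 0 ≤ h z) {R : ℝ} (hR : R ≤ 1) :
    ∫⁻ z in ball (0 : ℂ) R, ENNReal.ofReal (h z) =
      ∫⁻ ρ in Ioo 0 R,
        ENNReal.ofReal (ρ * ∫ t in (0 : ℝ)..2 * Real.pi, h (circleMap 0 ρ t)) := by
  rw [← lintegral_indicator measurableSet_ball, ← Complex.lintegral_comp_polarCoord_symm]
  set T : Set (ℝ × ℝ) := Ioo 0 R ×ˢ Ioo (-Real.pi) Real.pi with hT
  have hTm : MeasurableSet T := measurableSet_Ioo.prod measurableSet_Ioo
  have hTsub : T ⊆ polarCoord.target := by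
    rintro ⟨r, θ⟩ ⟨h2, h3⟩
    exact ⟨h2.1, h3⟩
  have hnorm : ∀ p ∈ polarCoord.target, ‖Complex.polarCoord.symm p‖ = p.1 := by
    rintro ⟨r, θ⟩ ⟨h2, h3⟩
    rw [Complex.norm_polarCoord_symm]
    exact abs_of_pos h2
  have hTA : ∀ p ∈ T, Complex.polarCoord.symm p ∈ ball (0:ℂ) R := by
    rintro p hp
    rw [mem_ball_zero_iff, hnorm p (hTsub hp)]
    exact hp.1.2
  have hstep : ∫⁻ p in polarCoord.target, ENNReal.ofReal p.1 •
      (ball (0:ℂ) R).indicator (fun z => ENNReal.ofReal (h z)) (Complex.polarCoord.symm p)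
      = ∫⁻ p in T, ENNReal.ofReal p.1 •
      (ball (0:ℂ) R).indicator (fun z => ENNReal.ofReal (h z)) (Complex.polarCoord.symm p) := by
    have hz : ∀ p ∈ polarCoord.target, p ∉ T → ENNReal.ofReal p.1 •
      (ball (0:ℂ) R).indicator (fun z => ENNReal.ofReal (h z)) (Complex.polarCoord.symm p) = 0 := by
      intro p hp hpT
      rw [indicator_of_notMem, smul_zero]
      intro hb
      apply hpT
      rw [mem_ball_zero_iff, hnorm p hp] at hb
      exact ⟨⟨hp.1, hb⟩, hp.2⟩
    have hTt : MeasurableSet (polarCoord.target : Set (ℝ × ℝ)) := by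
      rw [polarCoord_target]
      exact measurableSet_Ioi.prod measurableSet_Ioo
    rw [← lintegral_inter_add_sdiff _ (polarCoord.target : Set (ℝ × ℝ)) hTm,
      inter_eq_self_of_subset_right hTsub]
    rw [setLIntegral_eq_zero (hTt.diff hTm) (fun p hp => hz p hp.1 hp.2), add_zero]
  rw [hstep]
  have hcong : ∫⁻ p in T, ENNReal.ofReal p.1 •
      (ball (0:ℂ) R).indicator (fun z => ENNReal.ofReal (h z))
        (Complex.polarCoord.symm p)
      = ∫⁻ p in T, ENNReal.ofReal (p.1 * h (p.1 * Complex.exp (p.2 * Complex.I))) := by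
    refine setLIntegral_congr_fun hTm (fun p hp => ?_)
    rw [indicator_of_mem (hTA p hp), smul_eq_mul, ← ENNReal.ofReal_mul hp.1.1.le]
    congr 3
    rw [Complex.polarCoord_symm_apply, Complex.exp_mul_I]
    simp
  rw [hcong]
  have hTc : ContinuousOn (fun p : ℝ × ℝ =>
      p.1 * h (p.1 * Complex.exp (p.2 * Complex.I))) T := by
    refine continuousOn_fst.mul ?_
    refine hh.comp (by fun_prop) (fun p hp => ?_)
    have h2 := ball_subset_ball hR (hTA p hp)
    rwa [Complex.polarCoord_symm_apply, Complex.ofReal_cos, Complex.ofReal_sin,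
      ← Complex.exp_mul_I] at h2
  have hvp : (volume : Measure (ℝ × ℝ)).restrict T
      = ((volume : Measure ℝ).restrict (Ioo 0 R)).prod
        ((volume : Measure ℝ).restrict (Ioo (-Real.pi) Real.pi)) := by
    rw [Measure.prod_restrict, ← Measure.volume_eq_prod]
  have hae : AEMeasurable (fun p : ℝ × ℝ =>
      ENNReal.ofReal (p.1 * h (p.1 * Complex.exp (p.2 * Complex.I))))
      (((volume : Measure ℝ).restrict (Ioo 0 R)).prod
        ((volume : Measure ℝ).restrict (Ioo (-Real.pi) Real.pi))) := by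
    rw [← hvp]
    exact (hTc.aemeasurable hTm).ennreal_ofReal
  rw [hvp, lintegral_prod _ hae]
  refine setLIntegral_congr_fun measurableSet_Ioo (fun ρ hρ => ?_)
  have hρ1 : ρ < 1 := hρ.2.trans_le hR
  simp only
  rw [ENNReal.ofReal_mul hρ.1.le, ← pol_inner hh h0 hρ.1 hρ1, ← lintegral_const_mul' _ _
    ENNReal.ofReal_ne_top]
  refine lintegral_congr (fun θ => ?_)
  rw [ENNReal.ofReal_mul hρ.1.le]

end MQV
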