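import Pool.Agent.MQV.Lay
import Pool.Agent.MPV.Stk
import Pool.Agent.MQV.Pol

set_option autoImplicit false

/-!
# MQV MNS : circle and area means of `log (1 + |g|²)`

`MPV.BB g r = r · d/dr ∮ log (1 + |g(re^{it})|²) dt` (differentiate under the integral sign:
`∂_r log(1+|g|²) = 2 Re (conj g · g' e^{it}) / (1+|g|²)`), and by `MPV.BB_eq`
`BB g r = ∫_0^r ρ ∮ KK g dt dρ = ∫_{ball 0 r} KK g dA`, `KK g = 4 |g'|²/(1+|g|²)² ≥ 0` (polar
coordinates, `integral_comp_polarCoord_symm`).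

* `mean_inc`, `mean_mono`: integrate in `r`.
* `mean_zero_le`: let `r₁ → 0` in `mean_mono`.
* `circ_mean_le` : `MV (ball 0 1) p f`, `|f| ≤ 1` on `|z| ≤ 1/2`: `BB f ρ ≤ 4 π p` by `lay_sph`
  (`a = 1`), so `∮_r ≤ ∮_{1/2} + 4 π p log 2 ≤ 2 π log 2 + 4 π p log 2` for `1/2 ≤ r < 1`, and
  `≤ 2π log 2` for `r ≤ 1/2`.
* `area_mean_le`: integrate in `r`.
* `sub_mean`: `π log (a² + |f 0|²) ≤ ∫_D log (a² + |f|²) dA` from `mean_zero_le` for `g = f/a`.
-/

open MeasureTheory Metric Set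

namespace MQV

/-- mean of `log (1+|g|²)` over the circle of radius `r` (not normalised) -/
noncomputable def cm (g : ℂ → ℂ) (r : ℝ) : ℝ :=
  ∫ t in (0 : ℝ)..2 * Real.pi, Real.log (1 + ‖g (circleMap 0 r t)‖ ^ 2)

private lemma mns_contb_59 {g : ℂ → ℂ} (hg : DifferentiableOn ℂ g (ball 0 1)) :
    ContinuousOn (fun z => Real.log (1 + ‖g z‖ ^ 2)) (ball 0 1) := by
  have c5 : ContinuousOn (fun z => (1 + ‖g z‖ ^ 2)) (ball 0 1) :=
    continuousOn_const.add (hg.continuousOn.norm.pow 2)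
  exact c5.log fun z _ => by positivity

theorem hasDerivAt_cm {g : ℂ → ℂ} (hg : DifferentiableOn ℂ g (ball 0 1)) {r : ℝ} (hr : 0 < r)
    (hr1 : r < 1) : HasDerivAt (cm g) (MPV.BB g r / r) r := by
  have hK := MPV.stk_contb hg
  have hb := mns_contb_59 hg
  obtain ⟨M, hM⟩ : ∃ M : ℝ, ∀ z ∈ closedBall (0 : ℂ) ((1 + r) / 2),
      ‖2 * ((starRingEnd ℂ) (g z) * (z * deriv g z)).re / (1 + ‖g z‖ ^ 2)‖ ≤ M :=
    (isCompact_closedBall (0 : ℂ) ((1 + r) / 2)).exists_bound_of_continuousOn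
      (hK.mono (closedBall_subset_ball (by linarith)))
  have hs : Set.Ioo (r / 2) ((1 + r) / 2) ∈ nhds r :=
    Ioo_mem_nhds (by linarith) (by linarith)
  have hderiv := intervalIntegral.hasDerivAt_integral_of_dominated_loc_of_deriv_le
    (μ := volume) (a := 0) (b := 2 * Real.pi)
    (F := fun ρ t => Real.log (1 + ‖g (circleMap 0 ρ t)‖ ^ 2))
    (F' := fun ρ t => ρ⁻¹ * (2 * ((starRingEnd ℂ) (g (circleMap 0 ρ t)) *
      (circleMap 0 ρ t * deriv g (circleMap 0 ρ t))).re / (1 + ‖g (circleMap 0 ρ t)‖ ^ 2)))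
    (bound := fun _ => (r / 2)⁻¹ * M)
    (x₀ := r) hs ?_ ?_ ?_ ?_ ?_ ?_
  · have h1 := hderiv.2
    refine h1.congr_deriv ?_
    rw [intervalIntegral.integral_const_mul]
    unfold MPV.BB
    rw [div_eq_inv_mul]
  · filter_upwards [hs] with ρ hρ
    exact (MPV.stk_cont_circle hb (by linarith [hρ.1]) (by linarith [hρ.2])).aestronglyMeasurable
  · exact (MPV.stk_cont_circle hb hr.le hr1).intervalIntegrable _ _
  · exact (continuous_const.mul (MPV.stk_cont_circle hK hr.le hr1)).aestronglyMeasurable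
  · refine Filter.Eventually.of_forall fun t _ ρ hρ => ?_
    have hρ0 : 0 < ρ := by linarith [hρ.1]
    rw [norm_mul, Real.norm_eq_abs, abs_of_pos (inv_pos.2 hρ0)]
    have h1 : ρ⁻¹ ≤ (r / 2)⁻¹ := inv_anti₀ (by linarith) hρ.1.le
    refine mul_le_mul h1 (hM (circleMap 0 ρ t) ?_) (norm_nonneg _) (inv_nonneg.2 (by linarith))
    rw [mem_closedBall_zero_iff, MPV.stk_norm hρ0.le]
    exact hρ.2.le
  · exact intervalIntegrable_const
  · refine Filter.Eventually.of_forall fun t _ ρ hρ => ?_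
    have hρ0 : 0 < ρ := by linarith [hρ.1]
    have hρ1 : ρ < 1 := by linarith [hρ.2]
    have hm := isOpen_ball.mem_nhds (MPV.stk_mem (t := t) hρ0.le hρ1)
    have d1 := MPV.stk_radial hρ0 (hg.differentiableAt hm)
    have h4 := d1.norm_sq.const_add 1
    rw [Complex.inner] at h4
    have h5 := h4.log (by positivity)
    refine h5.congr_deriv ?_
    rw [← mul_div_assoc]
    congr 1
    have e3 : ((ρ : ℂ)⁻¹ * (circleMap 0 ρ t * deriv g (circleMap 0 ρ t)) *
        (starRingEnd ℂ) (g (circleMap 0 ρ t))).re =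
        ρ⁻¹ * ((starRingEnd ℂ) (g (circleMap 0 ρ t)) *
        (circleMap 0 ρ t * deriv g (circleMap 0 ρ t))).re := by
      rw [← Complex.re_ofReal_mul]
      congr 1
      push_cast
      ring
    rw [e3]
    ring

private lemma mns_KK_nonneg_59 (g : ℂ → ℂ) (z : ℂ) : 0 ≤ MPV.KK g z := by
  unfold MPV.KK
  positivity

private lemma mns_polar_59 {K : ℂ → ℝ} (hK : ContinuousOn K (ball 0 1)) (h0 : ∀ z, 0 ≤ K z)
    {r : ℝ} (hr : 0 < r) (hr1 : r < 1) :
    ∫⁻ z in ball (0 : ℂ) r, ENNReal.ofReal (K z) =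
      ENNReal.ofReal (∫ ρ in (0 : ℝ)..r, ρ * ∫ t in (0 : ℝ)..2 * Real.pi,
        K (circleMap 0 ρ t)) := by
  classical
  set K' : ℂ → ℝ := (ball (0 : ℂ) 1).piecewise K 0 with hK'
  have hm : Measurable K' :=
    hK.measurable_piecewise continuousOn_const measurableSet_ball
  have hKK : ∀ z ∈ ball (0 : ℂ) 1, K' z = K z := fun z hz => Set.piecewise_eq_of_mem _ _ _ hz
  have hsub : ball (0 : ℂ) r ⊆ ball 0 1 := ball_subset_ball hr1.le
  have e1 : ∫⁻ z in ball (0 : ℂ) r, ENNReal.ofReal (K z) =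
      ∫⁻ z, (ball (0 : ℂ) r).indicator (fun z => ENNReal.ofReal (K' z)) z := by
    rw [lintegral_indicator measurableSet_ball]
    refine setLIntegral_congr_fun measurableSet_ball fun z hz => ?_
    show ENNReal.ofReal (K z) = ENNReal.ofReal (K' z)
    rw [hKK z (hsub hz)]
  have hmeas : Measurable ((ball (0 : ℂ) r).indicator (fun z => ENNReal.ofReal (K' z))) :=
    hm.ennreal_ofReal.indicator measurableSet_ball
  have hps : Measurable fun p : ℝ × ℝ => Complex.polarCoord.symm p := by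
    have : (fun p : ℝ × ℝ => Complex.polarCoord.symm p)
        = fun p : ℝ × ℝ => (p.1 : ℂ) * (Real.cos p.2 + Real.sin p.2 * Complex.I) := by
      funext p; rw [Complex.polarCoord_symm_apply]
    rw [this]
    fun_prop
  have hcirc : ∀ ρ θ : ℝ, Complex.polarCoord.symm (ρ, θ) = circleMap 0 ρ θ := by
    intro ρ θ
    rw [Complex.polarCoord_symm_apply, circleMap, Complex.exp_mul_I]
    simp
  have htar : polarCoord.target = Set.Ioi (0 : ℝ) ×ˢ Set.Ioo (-Real.pi) Real.pi := rfl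
  rw [e1, ← Complex.lintegral_comp_polarCoord_symm, htar, Measure.volume_eq_prod,
    setLIntegral_prod]
  swap
  · exact ((measurable_fst.ennreal_ofReal).smul (hmeas.comp hps)).aemeasurable
  have key : ∀ ρ ∈ Set.Ioi (0 : ℝ),
      ∫⁻ θ in Set.Ioo (-Real.pi) Real.pi, ENNReal.ofReal ρ •
        (ball (0 : ℂ) r).indicator (fun z => ENNReal.ofReal (K' z))
          (Complex.polarCoord.symm (ρ, θ)) =
      (Set.Ioo (0 : ℝ) r).indicator (fun ρ => ENNReal.ofReal (ρ *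
        ∫ t in (0 : ℝ)..2 * Real.pi, K (circleMap 0 ρ t))) ρ := by
    intro ρ hρ
    have hρ0 : 0 < ρ := hρ
    by_cases hρr : ρ < r
    · rw [Set.indicator_of_mem (show ρ ∈ Set.Ioo (0 : ℝ) r from ⟨hρ0, hρr⟩)]
      have hρ1 : ρ < 1 := hρr.trans hr1
      have hcont := MPV.stk_cont_circle hK hρ0.le hρ1
      have hper : Function.Periodic (fun θ : ℝ => K (circleMap 0 ρ θ)) (2 * Real.pi) := by
        intro θ
        simp only
        rw [periodic_circleMap 0 ρ θ]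
      have h3 := hper.intervalIntegral_add_eq (-Real.pi) 0
      rw [show -Real.pi + 2 * Real.pi = Real.pi by ring, zero_add] at h3
      rw [← h3, ENNReal.ofReal_mul hρ0.le, intervalIntegral.integral_of_le
        (by linarith [Real.pi_pos]), ofReal_integral_eq_lintegral_ofReal
        ((hcont.integrableOn_Icc (a := -Real.pi) (b := Real.pi)).mono_set Set.Ioc_subset_Icc_self)
        (Filter.Eventually.of_forall fun θ => h0 _),
        ← Measure.restrict_congr_set (Ioo_ae_eq_Ioc (a := -Real.pi) (b := Real.pi)),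
        ← lintegral_const_mul' _ _ ENNReal.ofReal_ne_top]
      refine lintegral_congr fun θ => ?_
      have hmem : circleMap 0 ρ θ ∈ ball (0 : ℂ) r := by
        rw [mem_ball_zero_iff, MPV.stk_norm hρ0.le]
        exact hρr
      rw [hcirc, Set.indicator_of_mem hmem, smul_eq_mul, hKK _ (hsub hmem)]
    · rw [Set.indicator_of_notMem (show ρ ∉ Set.Ioo (0 : ℝ) r from fun h => hρr h.2)]
      have : ∀ θ : ℝ, ENNReal.ofReal ρ •
        (ball (0 : ℂ) r).indicator (fun z => ENNReal.ofReal (K' z))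
          (Complex.polarCoord.symm (ρ, θ)) = 0 := by
        intro θ
        rw [hcirc, Set.indicator_of_notMem, smul_zero]
        rw [mem_ball_zero_iff, MPV.stk_norm hρ0.le]
        exact hρr
      simp only [this, lintegral_zero]
  rw [setLIntegral_congr_fun measurableSet_Ioi key, lintegral_indicator measurableSet_Ioo,
    Measure.restrict_restrict measurableSet_Ioo,
    Set.inter_eq_left.2 Set.Ioo_subset_Ioi_self,
    intervalIntegral.integral_of_le hr.le, ofReal_integral_eq_lintegral_ofReal]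
  · rw [Measure.restrict_congr_set (Ioo_ae_eq_Ioc (a := (0 : ℝ)) (b := r))]
  · have hc : ContinuousOn (fun ρ : ℝ => ρ * ∫ t in (0 : ℝ)..2 * Real.pi,
        K (circleMap 0 ρ t)) (Set.Icc 0 r) :=
      continuousOn_id.mul (MPV.stk_cont_param hK hr1)
    exact (hc.integrableOn_Icc).mono_set Set.Ioc_subset_Icc_self
  · rw [Filter.EventuallyLE, ae_restrict_iff' measurableSet_Ioc]
    refine Filter.Eventually.of_forall fun ρ hρ => ?_
    exact mul_nonneg hρ.1.le (intervalIntegral.integral_nonneg (by positivity)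
      fun t _ => h0 _)

theorem BB_area {g : ℂ → ℂ} (hg : DifferentiableOn ℂ g (ball 0 1)) {r : ℝ} (hr : 0 < r)
    (hr1 : r < 1) :
    ENNReal.ofReal (MPV.BB g r) = ∫⁻ z in ball (0 : ℂ) r, ENNReal.ofReal (MPV.KK g z) ∧
      0 ≤ MPV.BB g r := by
  refine ⟨?_, ?_⟩
  · rw [mns_polar_59 (MPV.stk_contKK hg) (mns_KK_nonneg_59 g) hr hr1, MPV.BB_eq hg hr.le hr1]
  · rw [MPV.BB_eq hg hr.le hr1]
    refine intervalIntegral.integral_nonneg hr.le fun ρ hρ => ?_
    exact mul_nonneg hρ.1 (intervalIntegral.integral_nonneg (by positivity)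
      fun t _ => mns_KK_nonneg_59 g _)

/-- If the spherical area over `ball 0 ρ` is at most `Kf ρ`, the mean grows by at most
`∫ Kf ρ / ρ`. -/
theorem mean_inc {g : ℂ → ℂ} (hg : DifferentiableOn ℂ g (ball 0 1)) {r₁ r₂ : ℝ} (h1 : 0 < r₁)
    (h12 : r₁ ≤ r₂) (h2 : r₂ < 1) {Kf : ℝ → ℝ} (hKc : ContinuousOn Kf (Icc r₁ r₂))
    (hK0 : ∀ ρ ∈ Icc r₁ r₂, 0 ≤ Kf ρ)
    (hK : ∀ ρ ∈ Icc r₁ r₂, ∫⁻ z in ball (0 : ℂ) ρ, ENNReal.ofReal (MPV.KK g z) ≤
      ENNReal.ofReal (Kf ρ)) :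
    cm g r₂ ≤ cm g r₁ + ∫ ρ in r₁..r₂, Kf ρ / ρ := by
  have hd : ∀ ρ ∈ Set.uIcc r₁ r₂, HasDerivAt (cm g) (MPV.BB g ρ / ρ) ρ := by
    intro ρ hρ
    rw [Set.uIcc_of_le h12] at hρ
    exact hasDerivAt_cm hg (by linarith [hρ.1]) (by linarith [hρ.2])
  have hBc : ContinuousOn (fun ρ => MPV.BB g ρ / ρ) (Icc r₁ r₂) := by
    refine ContinuousOn.div ?_ continuousOn_id fun ρ hρ => (h1.trans_le hρ.1).ne'
    intro ρ hρ
    exact (MPV.hasDerivAt_BB hg (h1.trans_le hρ.1)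
      (hρ.2.trans_lt h2)).continuousAt.continuousWithinAt
  have hKc' : ContinuousOn (fun ρ => Kf ρ / ρ) (Icc r₁ r₂) :=
    hKc.div continuousOn_id fun ρ hρ => (h1.trans_le hρ.1).ne'
  have hBi : IntervalIntegrable (fun ρ => MPV.BB g ρ / ρ) volume r₁ r₂ := by
    apply ContinuousOn.intervalIntegrable
    rwa [Set.uIcc_of_le h12]
  have hKi : IntervalIntegrable (fun ρ => Kf ρ / ρ) volume r₁ r₂ := by
    apply ContinuousOn.intervalIntegrable
    rwa [Set.uIcc_of_le h12]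
  have he := intervalIntegral.integral_eq_sub_of_hasDerivAt hd hBi
  have hle : ∫ ρ in r₁..r₂, MPV.BB g ρ / ρ ≤ ∫ ρ in r₁..r₂, Kf ρ / ρ := by
    refine intervalIntegral.integral_mono_on h12 hBi hKi fun ρ hρ => ?_
    have hρ0 : 0 < ρ := h1.trans_le hρ.1
    refine div_le_div_of_nonneg_right ?_ hρ0.le
    have h3 := hK ρ hρ
    rw [← (BB_area hg hρ0 (hρ.2.trans_lt h2)).1] at h3
    exact (ENNReal.ofReal_le_ofReal_iff (hK0 ρ hρ)).1 h3
  linarith

private lemma mns_mono_59 {g : ℂ → ℂ} (hg : DifferentiableOn ℂ g (ball 0 1)) {r : ℝ}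
    (h2 : r < 1) : MonotoneOn (cm g) (Icc 0 r) := by
  refine monotoneOn_of_deriv_nonneg (convex_Icc 0 r)
    (MPV.stk_cont_param (mns_contb_59 hg) h2) ?_ ?_
  · rw [interior_Icc]
    intro ρ hρ
    exact (hasDerivAt_cm hg hρ.1 (hρ.2.trans h2)).differentiableAt.differentiableWithinAt
  · rw [interior_Icc]
    intro ρ hρ
    rw [(hasDerivAt_cm hg hρ.1 (hρ.2.trans h2)).deriv]
    exact div_nonneg (BB_area hg hρ.1 (hρ.2.trans h2)).2 hρ.1.le

theorem mean_mono {g : ℂ → ℂ} (hg : DifferentiableOn ℂ g (ball 0 1)) {r₁ r₂ : ℝ} (h1 : 0 < r₁)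
    (h12 : r₁ ≤ r₂) (h2 : r₂ < 1) : cm g r₁ ≤ cm g r₂ := by
  exact mns_mono_59 hg h2 ⟨h1.le, h12⟩ ⟨h1.le.trans h12, le_rfl⟩ h12

theorem mean_zero_le {g : ℂ → ℂ} (hg : DifferentiableOn ℂ g (ball 0 1)) {r : ℝ} (h1 : 0 < r)
    (h2 : r < 1) : 2 * Real.pi * Real.log (1 + ‖g 0‖ ^ 2) ≤ cm g r := by
  have h3 := mns_mono_59 hg h2 ⟨le_rfl, h1.le⟩ ⟨h1.le, le_rfl⟩ h1.le
  have h4 : cm g 0 = 2 * Real.pi * Real.log (1 + ‖g 0‖ ^ 2) := by
    unfold cm
    simp [circleMap]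
  rw [← h4]
  exact h3

private theorem mns_cont {g : ℂ → ℂ} (hg : ContinuousOn g (ball 0 1)) :
    ContinuousOn (fun z => Real.log (1 + ‖g z‖ ^ 2)) (ball 0 1) := by
  refine ContinuousOn.log (continuousOn_const.add (hg.norm.pow 2)) (fun z _ => ?_)
  positivity

private theorem mns_small {g : ℂ → ℂ} (hg : ContinuousOn g (ball 0 1))
    (h : ∀ z : ℂ, ‖z‖ ≤ 1 / 2 → ‖g z‖ ≤ 1) {r : ℝ} (h0 : 0 ≤ r) (h1 : r ≤ 1 / 2) :
    cm g r ≤ 2 * Real.pi * Real.log 2 := by
  have hc : Continuous fun t : ℝ => Real.log (1 + ‖g (circleMap 0 r t)‖ ^ 2) :=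
    MPV.stk_cont_circle (mns_cont hg) h0 (by linarith)
  have h2 : cm g r ≤ ∫ t in (0 : ℝ)..2 * Real.pi, Real.log 2 := by
    refine intervalIntegral.integral_mono_on (by positivity) (hc.intervalIntegrable _ _)
      (continuous_const.intervalIntegrable _ _) (fun t _ => ?_)
    have h3 : ‖g (circleMap 0 r t)‖ ≤ 1 := h _ (by rw [MPV.stk_norm h0]; exact h1)
    refine Real.log_le_log (by positivity) ?_
    have h4 : ‖g (circleMap 0 r t)‖ ^ 2 ≤ 1 := by
      have := norm_nonneg (g (circleMap 0 r t))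
      nlinarith
    linarith
  refine h2.trans (le_of_eq ?_)
  rw [intervalIntegral.integral_const, smul_eq_mul, sub_zero]

private theorem mns_area {p : ℝ} (hp : 0 < p) {f : ℂ → ℂ} (hf : MV (ball 0 1) p f) {ρ : ℝ}
    (h1 : ρ ≤ 1) : ∫⁻ z in ball (0 : ℂ) ρ, ENNReal.ofReal (MPV.KK f z) ≤
      ENNReal.ofReal (4 * Real.pi * p) := by
  have h2 := lay_sph isOpen_ball hp.le one_pos hf
  have h3 : ∫⁻ z in ball (0 : ℂ) ρ, ENNReal.ofReal (MPV.KK f z) ≤
      ∫⁻ z in ball (0 : ℂ) 1, ENNReal.ofReal (MPV.KK f z) :=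
    lintegral_mono_set (ball_subset_ball h1)
  refine h3.trans ?_
  have h4 : ∫⁻ z in ball (0 : ℂ) 1, ENNReal.ofReal (MPV.KK f z) = ENNReal.ofReal 4 *
      ∫⁻ z in ball (0 : ℂ) 1, ENNReal.ofReal (‖deriv f z‖ ^ 2 * (1 ^ 4 / (1 ^ 2 + ‖f z‖ ^ 2) ^ 2)) := by
    rw [← lintegral_const_mul' _ _ ENNReal.ofReal_ne_top]
    refine lintegral_congr (fun z => ?_)
    rw [← ENNReal.ofReal_mul (by norm_num)]
    congr 1
    unfold MPV.KK
    ring
  rw [h4]
  refine (mul_le_mul_right h2 _).trans (le_of_eq ?_)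
  rw [← ENNReal.ofReal_mul (by norm_num)]
  congr 1
  ring

theorem circ_mean_le {p : ℝ} (hp : 0 < p) : ∃ C : ℝ, 0 < C ∧ ∀ f : ℂ → ℂ, MV (ball 0 1) p f →
    (∀ z : ℂ, ‖z‖ ≤ 1 / 2 → ‖f z‖ ≤ 1) → ∀ r : ℝ, 0 < r → r < 1 → cm f r ≤ C := by
  have hpi := Real.pi_pos
  have hlog : 0 < Real.log 2 := Real.log_pos (by norm_num)
  refine ⟨2 * Real.pi * Real.log 2 + 4 * Real.pi * p, by positivity, ?_⟩
  intro f hf h r h0 h1
  rcases le_or_gt r (1 / 2) with hr | hr
  · have h2 := mns_small hf.diff.continuousOn h h0.le hr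
    have h3 : 0 < 4 * Real.pi * p := by positivity
    linarith
  · have h2 := mean_inc hf.diff (r₁ := 1 / 2) (r₂ := r) (by norm_num) hr.le h1
      (Kf := fun _ => 4 * Real.pi * p) continuousOn_const (fun ρ _ => by positivity)
      (fun ρ hρ => mns_area hp hf (hρ.2.trans h1.le))
    have h3 := mns_small hf.diff.continuousOn h (r := 1 / 2) (by norm_num) le_rfl
    have h4 : ∫ ρ in (1 / 2 : ℝ)..r, 4 * Real.pi * p / ρ ≤ 4 * Real.pi * p := by
      have h5 : ‖∫ ρ in (1 / 2 : ℝ)..r, 4 * Real.pi * p / ρ‖ ≤ 8 * Real.pi * p * |r - 1 / 2| := by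
        refine intervalIntegral.norm_integral_le_of_norm_le_const (fun ρ hρ => ?_)
        rw [uIoc_of_le hr.le] at hρ
        have h6 : 0 < ρ := by linarith [hρ.1]
        rw [Real.norm_eq_abs, abs_of_pos (by positivity), div_le_iff₀ h6]
        have h7 : 0 < Real.pi * p := by positivity
        nlinarith [hρ.1]
      rw [abs_of_pos (by linarith)] at h5
      have h6 := (le_abs_self _).trans h5
      have h7 : 0 < Real.pi * p := by positivity
      nlinarith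
    linarith

theorem area_mean_le {p : ℝ} (hp : 0 < p) : ∃ C : ℝ, 0 < C ∧ ∀ f : ℂ → ℂ, MV (ball 0 1) p f →
    (∀ z : ℂ, ‖z‖ ≤ 1 / 2 → ‖f z‖ ≤ 1) →
      ∫⁻ z in ball (0 : ℂ) 1, ENNReal.ofReal (Real.log (1 + ‖f z‖ ^ 2)) ≤ ENNReal.ofReal C := by
  obtain ⟨C, hC, h⟩ := circ_mean_le hp
  refine ⟨C, hC, ?_⟩
  intro f hf hs
  rw [lint_polar (mns_cont hf.diff.continuousOn)
    (fun z _ => Real.log_nonneg (by nlinarith [sq_nonneg ‖f z‖])) le_rfl]
  calc ∫⁻ ρ in Ioo (0 : ℝ) 1, ENNReal.ofReal (ρ * ∫ t in (0 : ℝ)..2 * Real.pi,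
        Real.log (1 + ‖f (circleMap 0 ρ t)‖ ^ 2))
      ≤ ∫⁻ ρ in Ioo (0 : ℝ) 1, ENNReal.ofReal C := by
        refine setLIntegral_mono' measurableSet_Ioo (fun ρ hρ => ?_)
        refine ENNReal.ofReal_le_ofReal ?_
        have h2 := h f hf hs ρ hρ.1 hρ.2
        unfold cm at h2
        have h3 : 0 < ρ := hρ.1
        have h4 : ρ < 1 := hρ.2
        nlinarith [mul_le_mul_of_nonneg_left h2 h3.le]
    _ = ENNReal.ofReal C := by
        rw [setLIntegral_const, Real.volume_Ioo]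
        simp

/-- sub-mean value property of `log (a² + |f|²)`, in a form without integrability questions:
for every function `q ≥ 0` with `log (a²+|f|²) = c - q` ... use: for any constant `c` and measurable
`u ≤ c` (the loss `c - u`), here with the majorant `½ log(1+|f|²/b²)` of the large values.
`∫_D (log b - lv f a b) ≤ ∫_D ½ log (1 + |f|²/b²) + π log b - (π/2) log (a² + |f 0|²)`. -/
theorem sub_mean {f : ℂ → ℂ} (hf : DifferentiableOn ℂ f (ball 0 1)) {a b : ℝ} (ha : 0 < a)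
    (hab : a ≤ b) (h0 : b ≤ ‖f 0‖) :
    ∫⁻ z in ball (0 : ℂ) 1, ENNReal.ofReal (Real.log b - lv f a b z) ≤
      ∫⁻ z in ball (0 : ℂ) 1, ENNReal.ofReal (Real.log (1 + ‖f z‖ ^ 2 / b ^ 2) / 2) := by
  have hb : 0 < b := ha.trans_le hab
  have hf0 : ContinuousOn f (ball 0 1) := hf.continuousOn
  -- the difference `log b - lv f a b` is continuous and nonnegative
  have hlv : ∀ z, Real.log b - lv f a b z =
      Real.log (1 + ‖f z‖ ^ 2 / b ^ 2) / 2 - (Real.log a - Real.log b +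
        Real.log (1 + ‖f z / a‖ ^ 2) / 2) := by
    intro z
    unfold lv
    have h1 : a ^ 2 + ‖f z‖ ^ 2 = a ^ 2 * (1 + ‖f z / a‖ ^ 2) := by
      rw [norm_div, Complex.norm_real, Real.norm_eq_abs, abs_of_pos ha]
      field_simp
    rw [h1, Real.log_mul (by positivity) (by positivity), Real.log_pow]
    push_cast
    ring
  have hpos : ∀ z, 0 ≤ Real.log b - lv f a b z := by
    intro z
    unfold lv
    have h1 : Real.log (b ^ 2) = 2 * Real.log b := by
      rw [Real.log_pow]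
      norm_num
    have h2 : Real.log (b ^ 2) + Real.log (1 + ‖f z‖ ^ 2 / b ^ 2) = Real.log (b ^ 2 + ‖f z‖ ^ 2) := by
      rw [← Real.log_mul (by positivity) (by positivity)]
      congr 1
      field_simp
    have h3 : Real.log (a ^ 2 + ‖f z‖ ^ 2) ≤ Real.log (b ^ 2 + ‖f z‖ ^ 2) := by
      refine Real.log_le_log (by positivity) ?_
      have : a ^ 2 ≤ b ^ 2 := by nlinarith
      linarith
    linarith
  have hcw : ContinuousOn (fun z => Real.log (1 + ‖f z‖ ^ 2 / b ^ 2) / 2) (ball 0 1) := by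
    have h1 : ContinuousOn (fun z => 1 + ‖f z‖ ^ 2 / b ^ 2) (ball 0 1) :=
      continuousOn_const.add ((hf0.norm.pow 2).div_const _)
    refine ContinuousOn.div_const (h1.log (fun z _ => ?_)) _
    positivity
  have hcg : ContinuousOn (fun z => Real.log (1 + ‖f z / a‖ ^ 2)) (ball 0 1) :=
    mns_cont (hf0.div_const _)
  have hcd : ContinuousOn (fun z => Real.log b - lv f a b z) (ball 0 1) := by
    refine ContinuousOn.congr ?_ (fun z _ => hlv z)
    exact hcw.sub (continuousOn_const.add (hcg.div_const _))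
  rw [lint_polar hcd (fun z _ => hpos z) le_rfl,
    lint_polar hcw (fun z _ => div_nonneg (Real.log_nonneg (by
      have : 0 ≤ ‖f z‖ ^ 2 / b ^ 2 := by positivity
      linarith)) (by norm_num)) le_rfl]
  refine setLIntegral_mono' measurableSet_Ioo (fun ρ hρ => ENNReal.ofReal_le_ofReal ?_)
  refine mul_le_mul_of_nonneg_left ?_ hρ.1.le
  have h2 := mean_zero_le (g := fun z => f z / a) (hf.div_const _) hρ.1 hρ.2
  simp only [hlv]
  have hi1 : IntervalIntegrable (fun t : ℝ => Real.log (1 + ‖f (circleMap 0 ρ t)‖ ^ 2 / b ^ 2) / 2)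
      volume 0 (2 * Real.pi) := (MPV.stk_cont_circle hcw hρ.1.le hρ.2).intervalIntegrable _ _
  have hi2 : IntervalIntegrable (fun t : ℝ => Real.log (1 + ‖f (circleMap 0 ρ t) / a‖ ^ 2) / 2)
      volume 0 (2 * Real.pi) :=
    ((MPV.stk_cont_circle hcg hρ.1.le hρ.2).div_const _).intervalIntegrable _ _
  have hi3 : IntervalIntegrable (fun _ : ℝ => Real.log a - Real.log b)
      volume 0 (2 * Real.pi) := continuous_const.intervalIntegrable _ _
  rw [intervalIntegral.integral_sub hi1 (hi3.add hi2), intervalIntegral.integral_add hi3 hi2,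
    intervalIntegral.integral_const, smul_eq_mul, sub_zero]
  have h7 : ∫ t in (0 : ℝ)..2 * Real.pi, Real.log (1 + ‖f (circleMap 0 ρ t) / a‖ ^ 2) / 2 =
      (∫ t in (0 : ℝ)..2 * Real.pi, Real.log (1 + ‖f (circleMap 0 ρ t) / a‖ ^ 2)) / 2 :=
    intervalIntegral.integral_div _ _
  rw [h7]
  have h3 : (2 : ℝ) * Real.pi * Real.log (1 + ‖f 0 / a‖ ^ 2) ≤
      ∫ t in (0 : ℝ)..2 * Real.pi, Real.log (1 + ‖f (circleMap 0 ρ t) / a‖ ^ 2) := h2
  have h4 : 2 * (Real.log b - Real.log a) ≤ Real.log (1 + ‖f 0 / a‖ ^ 2) := by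
    rw [← Real.log_div hb.ne' ha.ne']
    have h5 : 2 * Real.log (b / a) = Real.log ((b / a) ^ 2) := by
      rw [Real.log_pow]
      norm_num
    rw [h5]
    refine Real.log_le_log (by positivity) ?_
    rw [norm_div, Complex.norm_real, Real.norm_eq_abs, abs_of_pos ha, div_pow, div_pow]
    have h6 : b ^ 2 / a ^ 2 ≤ ‖f 0‖ ^ 2 / a ^ 2 := by
      refine div_le_div_of_nonneg_right ?_ (by positivity)
      nlinarith
    linarith
  have hpi := Real.pi_pos
  nlinarith [mul_le_mul_of_nonneg_left h4 hpi.le]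

/-- spherical area and the maximum: if `|g| ≤ m` on `ball 0 ρ` then the spherical area over
`ball 0 ρ` is at most `4 π p min(1, m²)`. -/
theorem sph_area_le {p : ℝ} (hp : 0 < p) {f : ℂ → ℂ} (hf : MV (ball 0 1) p f) {b ρ m : ℝ}
    (hb : 0 < b) (hρ : ρ ≤ 1) (hm : 0 ≤ m) (hfm : ∀ z ∈ ball (0 : ℂ) ρ, ‖f z‖ ≤ m) :
    ∫⁻ z in ball (0 : ℂ) ρ, ENNReal.ofReal (MPV.KK (fun z => f z / b) z) ≤
      ENNReal.ofReal (4 * Real.pi * p * min 1 (m ^ 2 / b ^ 2)) := by
  have hKK : ∀ z, MPV.KK (fun z => f z / b) z =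
      4 / b ^ 2 * (‖deriv f z‖ ^ 2 * (b ^ 4 / (b ^ 2 + ‖f z‖ ^ 2) ^ 2)) := by
    intro z
    unfold MPV.KK
    rw [deriv_div_const, norm_div, norm_div, Complex.norm_real, Real.norm_eq_abs, abs_of_pos hb]
    have h1 : 1 + (‖f z‖ / b) ^ 2 = (b ^ 2 + ‖f z‖ ^ 2) / b ^ 2 := by
      field_simp
    rw [h1]
    have h2 : b ^ 2 + ‖f z‖ ^ 2 ≠ 0 := by positivity
    field_simp
  have hint : ∫⁻ z in ball (0 : ℂ) ρ, ENNReal.ofReal (MPV.KK (fun z => f z / b) z) =
      ENNReal.ofReal (4 / b ^ 2) * ∫⁻ z in ball (0 : ℂ) ρ,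
        ENNReal.ofReal (‖deriv f z‖ ^ 2 * (b ^ 4 / (b ^ 2 + ‖f z‖ ^ 2) ^ 2)) := by
    rw [← lintegral_const_mul' _ _ ENNReal.ofReal_ne_top]
    refine lintegral_congr (fun z => ?_)
    rw [← ENNReal.ofReal_mul (by positivity), hKK]
  have hA : ∫⁻ z in ball (0 : ℂ) ρ,
      ENNReal.ofReal (‖deriv f z‖ ^ 2 * (b ^ 4 / (b ^ 2 + ‖f z‖ ^ 2) ^ 2)) ≤
      ENNReal.ofReal (Real.pi * p * b ^ 2) :=
    (lintegral_mono_set (ball_subset_ball hρ)).trans (lay_sph isOpen_ball hp.le hb hf)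
  have hB : ∫⁻ z in ball (0 : ℂ) ρ,
      ENNReal.ofReal (‖deriv f z‖ ^ 2 * (b ^ 4 / (b ^ 2 + ‖f z‖ ^ 2) ^ 2)) ≤
      ENNReal.ofReal (Real.pi * p * m ^ 2) := by
    have h1 : ∀ R : ℝ, m < R → ∫⁻ z in ball (0 : ℂ) ρ,
        ENNReal.ofReal (‖deriv f z‖ ^ 2 * (b ^ 4 / (b ^ 2 + ‖f z‖ ^ 2) ^ 2)) ≤
        ENNReal.ofReal (Real.pi * p * R ^ 2) := by
      intro R hR
      refine le_trans ?_ (hf.area R (hm.trans_lt hR))
      unfold ar
      refine le_trans ?_ (lintegral_mono_set (s := ball (0 : ℂ) ρ) ?_)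
      · refine lintegral_mono (fun z => ENNReal.ofReal_le_ofReal ?_)
        have h2 : b ^ 4 / (b ^ 2 + ‖f z‖ ^ 2) ^ 2 ≤ 1 := by
          rw [div_le_one (by positivity)]
          nlinarith [sq_nonneg ‖f z‖, sq_nonneg b, mul_nonneg (sq_nonneg b) (sq_nonneg ‖f z‖)]
        nlinarith [sq_nonneg ‖deriv f z‖]
      · intro z hz
        exact ⟨ball_subset_ball hρ hz, norm_nonneg _, (hfm z hz).trans_lt hR⟩
    have h2 : Filter.Tendsto (fun R : ℝ => ENNReal.ofReal (Real.pi * p * R ^ 2))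
        (nhdsWithin m (Ioi m)) (nhds (ENNReal.ofReal (Real.pi * p * m ^ 2))) := by
      have h3 : Continuous fun R : ℝ => ENNReal.ofReal (Real.pi * p * R ^ 2) := by
        exact ENNReal.continuous_ofReal.comp (by fun_prop)
      exact h3.continuousWithinAt
    refine ge_of_tendsto h2 ?_
    filter_upwards [self_mem_nhdsWithin] with R hR
    exact h1 R hR
  rw [hint]
  have hpi := Real.pi_pos
  rw [mul_min_of_nonneg _ _ (by positivity), ENNReal.ofReal_min]
  refine le_min ?_ ?_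
  · refine (mul_le_mul_right hA _).trans (le_of_eq ?_)
    rw [← ENNReal.ofReal_mul (by positivity)]
    congr 1
    field_simp
  · refine (mul_le_mul_right hB _).trans (le_of_eq ?_)
    rw [← ENNReal.ofReal_mul (by positivity)]
    congr 1
    field_simp

end MQV
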