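import Pool.Agent.MQV.Two

set_option autoImplicit false

/-!
# MQV PEK : away from a peak the function is small

`mob a z = (z+a)/(1 + conj a z)`; for REAL `a ∈ [0,1)`: `mob a (mob (-a) z) = z` on the disc,
`1 - ‖mob (-a) z‖² = (1-a²)(1-‖z‖²)/‖1-a z‖²`,
`mob (-a) z₁ - mob (-a) z₂ = (1-a²)(z₁-z₂)/((1-a z₁)(1-a z₂))`.

PROOF of `away`.  `C₀` of `growth_disc`.  Given `K ≥ 4π` (to be chosen), `f`, `n`, `x` with
`c n^(2p) ≤ ‖gs f n x‖`, and `w` with `1 ≤ Re w ≤ 2`, `K ≤ |Im w| ≤ πn`; suppose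
`‖gs f n w‖ > ε n^(2p)`.  `s = |Im w|/(4n) ∈ (0, π/4]`, `a = (1-s)/(1+s) ∈ (0,1)`; so
`1 - a = 2s/(1+s) ≤ 2s`, `1 - a² = 4s/(1+s)² ≥ s`, `(1+a)/(1-a) = 1/s`, `1/n ≤ s` (`K ≥ 4`),
`n ≥ K/π ≥ 4`.
`z₁ = e^{-x/n}`, `z₂ = e^{-w/n}`, `z_i' = mob (-a) z_i`.
* `‖1 - a z₁‖ ≤ (1-a) + ‖1-z₁‖ ≤ 2s + 2/n ≤ 4s`, `‖1 - a z₂‖ ≤ 2s + ‖w‖/n ≤ 2s + 2/n + 4s ≤ 8s`
  (`‖1 - e^{-u}‖ ≤ ‖u‖` for `Re u ≥ 0`).
* `1 - ‖z_i‖² ≥ 1 - ‖z_i‖ ≥ 1/(2n)` (`gap_ge`), so `1 - ‖z_i'‖² ≥ s/(2n·64 s²) = 1/(128 n s)` and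
  `(1+‖z_i'‖)/(1-‖z_i'‖) = (1+‖z_i'‖)²/(1-‖z_i'‖²) ≤ 512 n s = 128 |Im w| =: e^d`.
* `‖z₁-z₂‖ ≥ 2 √(r₁ r₂) sin (|Im w|/(2n))` (`r_i = ‖z_i‖ ≥ e^{-2/n} ≥ e^{-1/2}`; law of cosines), and
  `sin (|Im w|/(2n)) ≥ |Im w|/(πn) = 4s/π`, so `‖z₁ - z₂‖ ≥ s`, hence
  `‖z₁' - z₂'‖ ≥ s·s/(4s·8s) = 1/32`.
* `h = f ∘ mob a`, `b₀ = C₀ (3/s)^(2p)`; for `‖z‖ ≤ 1/2`
  `(1+‖mob a z‖)/(1-‖mob a z‖) ≤ (1+a)/(1-a) · 3 = 3/s`, so `‖h z‖ ≤ b₀` and `b₀⁻¹ h` is `Nd`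
  (`Nd.smul`, `MV.mob`).
* `b₀⁻¹ ‖h z_i'‖ = b₀⁻¹ ‖f z_i‖ ≥ (min c ε) (ns)^(2p)/(C₀ 3^(2p)) = ε' e^{2pd}`,
  `ε' = (min c ε)/(C₀ 3^(2p) 512^(2p))`.
`two_branch` with `ε'`, `κ = 1/32` is contradicted as soon as `d = log (128 |Im w|) ≥ log (128 K) ≥ D₀`;
choose `K` accordingly.
-/

open MeasureTheory Metric Set

namespace MQV

private theorem den_ne {a : ℝ} (h0 : 0 ≤ a) (h1 : a < 1) {z : ℂ} (hz : z ∈ ball (0 : ℂ) 1) :
    (1 : ℂ) - a * z ≠ 0 := by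
  intro h
  rw [mem_ball_zero_iff] at hz
  have h2 : (a : ℂ) * z = 1 := by linear_combination -h
  have h3 : ‖(a : ℂ) * z‖ < 1 := by
    rw [norm_mul, Complex.norm_real, Real.norm_of_nonneg h0]
    nlinarith [norm_nonneg z]
  rw [h2, norm_one] at h3
  exact lt_irrefl _ h3

private theorem mob_neg (a : ℝ) (z : ℂ) : MPV.mob (-a) z = (z - a) / (1 - a * z) := by
  unfold MPV.mob
  rw [map_neg, Complex.conj_ofReal]
  congr 1
  ring

private theorem mob_pos (a : ℝ) (z : ℂ) : MPV.mob a z = (z + a) / (1 + a * z) := by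
  unfold MPV.mob
  rw [Complex.conj_ofReal]

theorem mob_mob {a : ℝ} (h0 : 0 ≤ a) (h1 : a < 1) {z : ℂ} (hz : z ∈ ball (0 : ℂ) 1) :
    MPV.mob a (MPV.mob (-a) z) = z := by
  have hd := den_ne h0 h1 hz
  have ha : (1 : ℂ) - a ^ 2 ≠ 0 := by
    have : (1 : ℝ) - a ^ 2 ≠ 0 := by nlinarith
    exact_mod_cast this
  rw [mob_neg, mob_pos]
  have e1 : (z - a) / (1 - a * z) + a = z * (1 - a ^ 2) / (1 - a * z) := by
    rw [div_add' _ _ _ hd]
    congr 1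
    ring
  have e2 : 1 + a * ((z - a) / (1 - a * z)) = (1 - (a : ℂ) ^ 2) / (1 - a * z) := by
    rw [← mul_div_assoc, one_add_div hd]
    congr 1
    ring
  rw [e1, e2, div_div_div_cancel_right₀ hd, mul_div_assoc, div_self ha, mul_one]

private theorem gap_id (a : ℝ) (z : ℂ) :
    ‖1 - (a : ℂ) * z‖ ^ 2 - ‖z - a‖ ^ 2 = (1 - a ^ 2) * (1 - ‖z‖ ^ 2) := by
  simp only [← Complex.normSq_eq_norm_sq, Complex.normSq_apply, Complex.sub_re, Complex.sub_im,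
    Complex.mul_re, Complex.mul_im, Complex.ofReal_re, Complex.ofReal_im, Complex.one_re,
    Complex.one_im]
  ring

theorem mob_gap {a : ℝ} (h0 : 0 ≤ a) (h1 : a < 1) {z : ℂ} (hz : z ∈ ball (0 : ℂ) 1) :
    1 - ‖MPV.mob (-a) z‖ ^ 2 = (1 - a ^ 2) * (1 - ‖z‖ ^ 2) / ‖1 - a * z‖ ^ 2 := by
  have hd := den_ne h0 h1 hz
  have hd2 : ‖1 - (a : ℂ) * z‖ ^ 2 ≠ 0 := pow_ne_zero 2 (norm_ne_zero_iff.2 hd)
  rw [mob_neg, norm_div, div_pow, ← gap_id, sub_div, div_self hd2]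

theorem mob_diff {a : ℝ} (h0 : 0 ≤ a) (h1 : a < 1) {z₁ z₂ : ℂ} (hz₁ : z₁ ∈ ball (0 : ℂ) 1)
    (hz₂ : z₂ ∈ ball (0 : ℂ) 1) :
    ‖MPV.mob (-a) z₁ - MPV.mob (-a) z₂‖ =
      (1 - a ^ 2) * ‖z₁ - z₂‖ / (‖1 - a * z₁‖ * ‖1 - a * z₂‖) := by
  have hd₁ := den_ne h0 h1 hz₁
  have hd₂ := den_ne h0 h1 hz₂
  have ha : 0 ≤ 1 - a ^ 2 := by nlinarith
  rw [mob_neg, mob_neg, div_sub_div _ _ hd₁ hd₂]
  have e : (z₁ - a) * (1 - a * z₂) - (1 - a * z₁) * (z₂ - a) = ((1 - a ^ 2 : ℝ) : ℂ) * (z₁ - z₂) := by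
    push_cast
    ring
  rw [e, norm_div, norm_mul, norm_mul, Complex.norm_real, Real.norm_of_nonneg ha]

theorem mob_ratio {a : ℝ} (h0 : 0 ≤ a) (h1 : a < 1) {z : ℂ} (hz : z ∈ ball (0 : ℂ) 1) :
    (1 + ‖MPV.mob a z‖) / (1 - ‖MPV.mob a z‖) ≤
      (1 + a) / (1 - a) * ((1 + ‖z‖) / (1 - ‖z‖)) := by
  have hz1 : ‖z‖ < 1 := by rwa [mem_ball_zero_iff] at hz
  have hz0 := norm_nonneg z
  have ha1 : ‖(a : ℂ)‖ < 1 := by rwa [Complex.norm_real, Real.norm_of_nonneg h0]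
  have hd : (1 : ℂ) + a * z ≠ 0 := by
    intro h
    have h2 : (a : ℂ) * z = -1 := by linear_combination h
    have h3 : ‖(a : ℂ) * z‖ < 1 := by
      rw [norm_mul, Complex.norm_real, Real.norm_of_nonneg h0]
      nlinarith
    rw [h2, norm_neg, norm_one] at h3
    exact lt_irrefl _ h3
  have hP : 0 < ‖1 + (a : ℂ) * z‖ := norm_pos_iff.2 hd
  have hQ : 0 ≤ ‖z + (a : ℂ)‖ := norm_nonneg _
  have hid : ‖1 + (a : ℂ) * z‖ ^ 2 - ‖z + a‖ ^ 2 = (1 - a ^ 2) * (1 - ‖z‖ ^ 2) := by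
    simp only [← Complex.normSq_eq_norm_sq, Complex.normSq_apply, Complex.add_re, Complex.add_im,
      Complex.mul_re, Complex.mul_im, Complex.ofReal_re, Complex.ofReal_im, Complex.one_re,
      Complex.one_im]
    ring
  have hPle : ‖1 + (a : ℂ) * z‖ ≤ 1 + a * ‖z‖ := by
    refine (norm_add_le _ _).trans ?_
    rw [norm_one, norm_mul, Complex.norm_real, Real.norm_of_nonneg h0]
  have hQle : ‖z + (a : ℂ)‖ ≤ ‖z‖ + a := by
    refine (norm_add_le _ _).trans ?_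
    rw [Complex.norm_real, Real.norm_of_nonneg h0]
  set P := ‖1 + (a : ℂ) * z‖ with hPd
  set Q := ‖z + (a : ℂ)‖ with hQd
  set r := ‖z‖ with hr
  have hpr : 0 < (1 - a ^ 2) * (1 - r ^ 2) := mul_pos (by nlinarith) (by nlinarith)
  have hPQ : Q < P := by nlinarith
  have e1 : ‖MPV.mob a z‖ = Q / P := by rw [mob_pos, norm_div]
  have e2 : (1 + Q / P) / (1 - Q / P) = (P + Q) ^ 2 / ((1 - a ^ 2) * (1 - r ^ 2)) := by
    rw [← hid]
    have h2 : P ≠ 0 := hP.ne'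
    have h3 : P - Q ≠ 0 := by linarith
    have h4 : P ^ 2 - Q ^ 2 ≠ 0 := by nlinarith
    have h5 : 1 - Q / P ≠ 0 := by
      rw [one_sub_div h2]
      exact div_ne_zero h3 h2
    rw [div_eq_div_iff h5 h4]
    field_simp
    ring
  have e3 : (1 + a) / (1 - a) * ((1 + r) / (1 - r)) =
      ((1 + a) * (1 + r)) ^ 2 / ((1 - a ^ 2) * (1 - r ^ 2)) := by
    have h2 : 1 - a ≠ 0 := by linarith
    have h3 : 1 - r ≠ 0 := by linarith
    have h4 : 1 - a ^ 2 ≠ 0 := by nlinarith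
    have h5 : 1 - r ^ 2 ≠ 0 := by nlinarith
    rw [div_mul_div_comm, div_eq_div_iff (mul_ne_zero h2 h3) (mul_ne_zero h4 h5)]
    ring
  rw [e1, e2, e3]
  refine div_le_div_of_nonneg_right ?_ hpr.le
  refine pow_le_pow_left₀ (by positivity) ?_ 2
  nlinarith

private theorem norm_one_sub_exp_le {u : ℂ} (hu : 0 ≤ u.re) : ‖1 - Complex.exp (-u)‖ ≤ ‖u‖ := by
  have h1 : ∀ t ∈ Icc (0 : ℝ) 1, HasDerivWithinAt (fun t : ℝ => Complex.exp (-(t * u)))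
      (Complex.exp (-(t * u)) * (-u)) (Icc 0 1) t := by
    intro t _
    have h2 : HasDerivAt (fun t : ℝ => -((t : ℂ) * u)) (-(1 * u)) t :=
      ((Complex.ofRealCLM.hasDerivAt (x := t)).mul_const u).neg
    have h3 := h2.cexp
    rw [one_mul] at h3
    exact h3.hasDerivWithinAt
  have h4 := norm_image_sub_le_of_norm_deriv_le_segment_01' (C := ‖u‖) h1 (by
    intro t ht
    rw [norm_mul, norm_neg, Complex.norm_exp]
    have h5 : (-((t : ℂ) * u)).re ≤ 0 := by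
      rw [Complex.neg_re, Complex.re_ofReal_mul]
      have := mul_nonneg ht.1 hu
      linarith
    have h6 : Real.exp (-((t : ℂ) * u)).re ≤ 1 := Real.exp_le_one_iff.2 h5
    nlinarith [norm_nonneg u])
  simp only [Complex.ofReal_one, one_mul, Complex.ofReal_zero, zero_mul, neg_zero, Complex.exp_zero] at h4
  rwa [norm_sub_rev]

private theorem chord {x m n : ℝ} {w : ℂ} (hn : 4 ≤ n) (hx : x ≤ 2) (hw : w.re ≤ 2)
    (hm : m = |w.im|) (hmn : m ≤ Real.pi * n) :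
    m / (4 * n) ≤ ‖Complex.exp (-(x / n : ℝ)) - Complex.exp (-w / (n : ℝ))‖ := by
  have hn0 : 0 < n := by linarith
  have hm0 : 0 ≤ m := by rw [hm]; exact abs_nonneg _
  have hpi := Real.pi_pos
  have hpi2 := Real.pi_lt_d2
  have e : -w / (n : ℝ) = ((-(w.re / n) : ℝ) : ℂ) + ((-(w.im / n) : ℝ) : ℂ) * Complex.I := by
    apply Complex.ext
    · simp [Complex.div_re, Complex.normSq_apply]
      field_simp
    · simp [Complex.div_im, Complex.normSq_apply]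
      field_simp
  have hr : ∀ y : ℝ, y ≤ 2 → 1 / 2 ≤ Real.exp (-(y / n)) := by
    intro y hy
    have h1 := Real.add_one_le_exp (-(y / n))
    have h2 : y / n ≤ 1 / 2 := by
      rw [div_le_iff₀ hn0]
      linarith
    linarith
  have h1 := hr x hx
  have h2 := hr w.re hw
  have hcos : Real.cos (w.im / n) ≤ 1 - 2 / Real.pi ^ 2 * (w.im / n) ^ 2 := by
    apply Real.cos_le_one_sub_mul_cos_sq
    rw [abs_div, abs_of_pos hn0, div_le_iff₀ hn0, ← hm]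
    exact hmn
  rw [e]
  set R := Real.exp (-(x / n)) with hR
  set S := Real.exp (-(w.re / n)) with hS
  set θ := w.im / n with hθ
  have hθ2 : θ ^ 2 = m ^ 2 / n ^ 2 := by
    rw [hθ, div_pow, hm, sq_abs]
  have e1 : Complex.exp (-((x / n : ℝ) : ℂ)) = (R : ℂ) := by
    rw [hR, Complex.ofReal_exp]
    push_cast
    rfl
  have e2 : Complex.exp (((-(w.re / n) : ℝ) : ℂ) + ((-θ : ℝ) : ℂ) * Complex.I) =
      ((S * Real.cos θ : ℝ) : ℂ) + ((-(S * Real.sin θ) : ℝ) : ℂ) * Complex.I := by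
    rw [Complex.exp_add, Complex.exp_mul_I, ← Complex.ofReal_exp, ← hS, ← Complex.ofReal_cos,
      ← Complex.ofReal_sin, Real.cos_neg, Real.sin_neg]
    push_cast
    ring
  rw [e1, e2]
  have e3 : ‖(R : ℂ) - (((S * Real.cos θ : ℝ) : ℂ) + ((-(S * Real.sin θ) : ℝ) : ℂ) * Complex.I)‖ ^ 2 =
      (R - S) ^ 2 + 2 * R * S * (1 - Real.cos θ) := by
    rw [← Complex.normSq_eq_norm_sq, Complex.normSq_apply]
    simp only [Complex.sub_re, Complex.add_re, Complex.mul_re, Complex.ofReal_re, Complex.ofReal_im,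
      Complex.I_re, Complex.I_im, Complex.sub_im, Complex.add_im, Complex.mul_im]
    have := Real.sin_sq_add_cos_sq θ
    linear_combination S ^ 2 * this
  refine (sq_le_sq₀ (by positivity) (norm_nonneg _)).1 ?_
  rw [e3]
  have h3 : 1 / 4 ≤ R * S := by nlinarith
  have h4 : 2 / Real.pi ^ 2 * θ ^ 2 ≤ 1 - Real.cos θ := by linarith
  have h5 : 1 / 8 * θ ^ 2 ≤ 1 - Real.cos θ := by
    refine le_trans ?_ h4
    apply mul_le_mul_of_nonneg_right _ (sq_nonneg θ)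
    rw [div_le_div_iff₀ (by norm_num) (by positivity)]
    nlinarith
  have h6 : (m / (4 * n)) ^ 2 = 1 / 16 * θ ^ 2 := by
    rw [hθ2]
    field_simp
    ring
  rw [h6]
  have h7 : 1 / 4 * (1 / 8 * θ ^ 2) ≤ R * S * (1 - Real.cos θ) :=
    mul_le_mul h3 h5 (by positivity) (by nlinarith)
  nlinarith [sq_nonneg (R - S)]

theorem away {p : ℝ} (hp : 0 < p) {c ε : ℝ} (hc : 0 < c) (hε : 0 < ε) : ∃ K : ℝ, 1 ≤ K ∧
    ∀ f : ℂ → ℂ, Nd p f → ∀ n : ℕ, 1 ≤ n →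
      (∃ x : ℝ, 1 ≤ x ∧ x ≤ 2 ∧ c * (n : ℝ) ^ (2 * p) ≤ ‖gs f n x‖) →
      ∀ w : ℂ, 1 ≤ w.re → w.re ≤ 2 → K ≤ |w.im| → |w.im| ≤ Real.pi * n →
        ‖gs f n w‖ ≤ ε * (n : ℝ) ^ (2 * p) := by
  obtain ⟨C₀, hC₀, HG⟩ := growth_disc hp
  have h3p : (0 : ℝ) < 3 ^ (2 * p) := Real.rpow_pos_of_pos (by norm_num) _
  have h512 : (0 : ℝ) < 512 ^ (2 * p) := Real.rpow_pos_of_pos (by norm_num) _
  have hmin : 0 < min c ε := lt_min hc hε
  have hε' : 0 < min c ε / (C₀ * 3 ^ (2 * p) * 512 ^ (2 * p)) := by positivity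
  obtain ⟨D₀, hD₀, HT⟩ := two_branch hp hε' (κ := 1 / 32) (by norm_num)
  have hpi := Real.pi_gt_three
  have hpi4 := Real.pi_lt_four
  have hpi0 := Real.pi_pos
  refine ⟨max (4 * Real.pi) (Real.exp D₀ / 128), ?_, ?_⟩
  · exact le_max_of_le_left (by linarith)
  intro f hf n hn ⟨x, hx1, hx2, hx⟩ w hw1 hw2 hKm hmn
  by_contra hcon
  rw [not_le] at hcon
  set m := |w.im| with hm
  have hm1 : 4 * Real.pi ≤ m := (le_max_left _ _).trans hKm
  have hm2 : Real.exp D₀ / 128 ≤ m := (le_max_right _ _).trans hKm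
  have hn1 : (1 : ℝ) ≤ n := by exact_mod_cast hn
  have hn0 : (0 : ℝ) < n := by linarith
  have hn4 : (4 : ℝ) ≤ n := by
    have h : Real.pi * 4 ≤ Real.pi * n := by linarith
    exact le_of_mul_le_mul_left h hpi0
  have hm0 : 0 < m := by linarith
  set s := m / (4 * n) with hs
  have hs0 : 0 < s := by positivity
  have hs1 : s < 1 := by
    rw [hs, div_lt_one (by positivity)]
    nlinarith
  have hms : m = 4 * n * s := by
    rw [hs]
    field_simp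
  have hns : 1 / (n : ℝ) ≤ s := by
    rw [hs, div_le_div_iff₀ hn0 (by positivity)]
    nlinarith
  set a := (1 - s) / (1 + s) with ha
  have ha0 : 0 ≤ a := div_nonneg (by linarith) (by linarith)
  have ha1 : a < 1 := by
    rw [ha, div_lt_one (by linarith)]
    linarith
  have ha2 : 1 - a = 2 * s / (1 + s) := by
    rw [ha, one_sub_div (by linarith)]
    congr 1
    ring
  have ha3 : 1 - a ≤ 2 * s := by
    rw [ha2, div_le_iff₀ (by linarith)]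
    nlinarith
  have ha4 : s ≤ 1 - a ^ 2 := by
    have e : 1 - a ^ 2 = 4 * s / (1 + s) ^ 2 := by
      rw [ha, div_pow, one_sub_div (by positivity)]
      congr 1
      ring
    rw [e, le_div_iff₀ (by positivity)]
    have h4 : (1 + s) ^ 2 ≤ 4 := by nlinarith
    nlinarith
  have ha5 : (1 + a) / (1 - a) = 1 / s := by
    have e : 1 + a = 2 / (1 + s) := by
      rw [ha, one_add_div (by linarith)]
      congr 1
      ring
    rw [e, ha2, div_div_div_cancel_right₀ (by linarith)]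
    rw [div_eq_div_iff (by positivity) (by positivity)]
    ring
  -- the two points
  have hz₁m : Complex.exp (-(x : ℂ) / n) ∈ ball (0 : ℂ) 1 :=
    exp_mem hn (by rw [Complex.ofReal_re]; linarith)
  have hz₂m : Complex.exp (-w / n) ∈ ball (0 : ℂ) 1 := exp_mem hn (by linarith)
  have hg₁ : 1 / (2 * (n : ℝ)) ≤ 1 - ‖Complex.exp (-(x : ℂ) / n)‖ :=
    gap_ge hn (by rw [Complex.ofReal_re]; exact hx1)
  have hg₂ : 1 / (2 * (n : ℝ)) ≤ 1 - ‖Complex.exp (-w / n)‖ := gap_ge hn hw1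
  have hnC : (n : ℂ) ≠ 0 := by exact_mod_cast hn0.ne'
  have hch : s ≤ ‖Complex.exp (-(x : ℂ) / n) - Complex.exp (-w / n)‖ := by
    have h := chord (x := x) (m := m) (n := n) (w := w) hn4 hx2 hw2 hm hmn
    have e : -((x / n : ℝ) : ℂ) = -(x : ℂ) / n := by
      push_cast
      ring
    rw [e, Complex.ofReal_natCast] at h
    exact h
  have hd : ∀ u : ℂ, 0 ≤ u.re → ‖1 - (a : ℂ) * Complex.exp (-u / n)‖ ≤ 2 * s + ‖u‖ / n := by
    intro u hu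
    have h1 : (1 : ℂ) - a * Complex.exp (-u / n) =
        ((1 - a : ℝ) : ℂ) + a * (1 - Complex.exp (-(u / n))) := by
      push_cast
      rw [neg_div]
      ring
    have h2 : 0 ≤ (u / (n : ℂ)).re := by
      have e : u / (n : ℂ) = ((1 / (n : ℝ) : ℝ) : ℂ) * u := by
        push_cast
        ring
      rw [e, Complex.re_ofReal_mul]
      positivity
    have h3 := norm_one_sub_exp_le h2
    rw [norm_div, Complex.norm_natCast] at h3
    rw [h1]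
    refine (norm_add_le _ _).trans ?_
    rw [Complex.norm_real, norm_mul, Complex.norm_real, Real.norm_of_nonneg (by linarith : 0 ≤ 1 - a),
      Real.norm_of_nonneg ha0]
    have h4 : 0 ≤ ‖1 - Complex.exp (-(u / n))‖ := norm_nonneg _
    nlinarith
  have hd₁ : ‖1 - (a : ℂ) * Complex.exp (-(x : ℂ) / n)‖ ≤ 4 * s := by
    refine (hd x (by rw [Complex.ofReal_re]; linarith)).trans ?_
    rw [Complex.norm_real, Real.norm_of_nonneg (by linarith)]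
    have h1 : x / n ≤ 2 * (1 / (n : ℝ)) := by
      rw [mul_one_div]
      exact div_le_div_of_nonneg_right hx2 hn0.le
    linarith
  have hd₂ : ‖1 - (a : ℂ) * Complex.exp (-w / n)‖ ≤ 8 * s := by
    refine (hd w (by linarith)).trans ?_
    have h1 : ‖w‖ ≤ 2 + m := by
      refine (Complex.norm_le_abs_re_add_abs_im w).trans ?_
      rw [abs_of_nonneg (by linarith : 0 ≤ w.re)]
      linarith
    have h2 : ‖w‖ / n ≤ (2 + m) / n := div_le_div_of_nonneg_right h1 hn0.le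
    have h3 : (2 + m) / n = 2 * (1 / (n : ℝ)) + 4 * s := by
      rw [hms]
      field_simp
    linarith
  set z₁ := Complex.exp (-(x : ℂ) / n) with hz₁
  set z₂ := Complex.exp (-w / n) with hz₂
  have hp₁ : 0 < ‖1 - (a : ℂ) * z₁‖ := norm_pos_iff.2 (den_ne ha0 ha1 hz₁m)
  have hp₂ : 0 < ‖1 - (a : ℂ) * z₂‖ := norm_pos_iff.2 (den_ne ha0 ha1 hz₂m)
  have haC : ‖(a : ℂ)‖ < 1 := by rwa [Complex.norm_real, Real.norm_of_nonneg ha0]
  have haC' : ‖-(a : ℂ)‖ < 1 := by rwa [norm_neg]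
  have hy₁m := MPV.mob_mapsTo haC' hz₁m
  have hy₂m := MPV.mob_mapsTo haC' hz₂m
  have hrat : ∀ z ∈ ball (0 : ℂ) 1, 1 / (2 * (n : ℝ)) ≤ 1 - ‖z‖ → ‖1 - (a : ℂ) * z‖ ≤ 8 * s →
      (1 + ‖MPV.mob (-a) z‖) / (1 - ‖MPV.mob (-a) z‖) ≤ 128 * m := by
    intro z hz hg hdz
    have hz1 : ‖z‖ < 1 := by rwa [mem_ball_zero_iff] at hz
    have hz0 := norm_nonneg z
    have h1 := mob_gap ha0 ha1 hz
    have hp : 0 < ‖1 - (a : ℂ) * z‖ := norm_pos_iff.2 (den_ne ha0 ha1 hz)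
    have h2 : s * (1 / (2 * (n : ℝ))) / (8 * s) ^ 2 ≤ 1 - ‖MPV.mob (-a) z‖ ^ 2 := by
      rw [h1]
      have h3 : 1 / (2 * (n : ℝ)) ≤ 1 - ‖z‖ ^ 2 := by nlinarith
      have h4 : s * (1 / (2 * (n : ℝ))) ≤ (1 - a ^ 2) * (1 - ‖z‖ ^ 2) :=
        mul_le_mul ha4 h3 (by positivity) (by linarith)
      have h5 : ‖1 - (a : ℂ) * z‖ ^ 2 ≤ (8 * s) ^ 2 := pow_le_pow_left₀ hp.le hdz 2
      exact div_le_div₀ (le_trans (by positivity) h4) h4 (by positivity) h5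
    have hym := MPV.mob_mapsTo haC' hz
    rw [mem_ball_zero_iff] at hym
    have hy0 := norm_nonneg (MPV.mob (-a) z)
    set y := ‖MPV.mob (-a) z‖ with hy
    have h6 : s * (1 / (2 * (n : ℝ))) / (8 * s) ^ 2 = 1 / (32 * m) := by
      rw [hms]
      field_simp
      norm_num
    rw [h6, div_le_iff₀ (by positivity)] at h2
    rw [div_le_iff₀ (by linarith)]
    nlinarith
  have hrat₁ := hrat z₁ hz₁m hg₁ (hd₁.trans (by linarith))
  have hrat₂ := hrat z₂ hz₂m hg₂ hd₂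
  -- the function
  have hb₀ : 0 < C₀ * (3 / s) ^ (2 * p) := by positivity
  have hle : ∀ z : ℂ, ‖z‖ ≤ 1 / 2 → ‖f (MPV.mob a z)‖ ≤ C₀ * (3 / s) ^ (2 * p) := by
    intro z hz
    have hzm : z ∈ ball (0 : ℂ) 1 := by
      rw [mem_ball_zero_iff]
      linarith
    have h1 := HG f hf.mv 1 one_pos hf.one _ (MPV.mob_mapsTo haC hzm)
    have h2 := mob_ratio ha0 ha1 hzm
    have hz0 := norm_nonneg z
    have h3 : (1 + ‖z‖) / (1 - ‖z‖) ≤ 3 := by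
      rw [div_le_iff₀ (by linarith)]
      linarith
    have h4 : (1 + ‖MPV.mob a z‖) / (1 - ‖MPV.mob a z‖) ≤ 3 / s := by
      refine h2.trans ?_
      rw [ha5]
      have : 1 / s * ((1 + ‖z‖) / (1 - ‖z‖)) ≤ 1 / s * 3 := mul_le_mul_of_nonneg_left h3 (by positivity)
      refine this.trans (le_of_eq ?_)
      ring
    have h5 : ‖MPV.mob a z‖ < 1 := by
      have := MPV.mob_mapsTo haC hzm
      rwa [mem_ball_zero_iff] at this
    refine h1.trans ?_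
    rw [mul_one]
    have h6 : 0 ≤ (1 + ‖MPV.mob a z‖) / (1 - ‖MPV.mob a z‖) :=
      div_nonneg (by positivity) (by linarith)
    gcongr
  have hNd := Nd.smul hp.le (hf.mv.mob haC) hb₀ hle
  have hexpd : Real.exp (Real.log (128 * m)) = 128 * m := Real.exp_log (by positivity)
  have hdD : D₀ ≤ Real.log (128 * m) := by
    rw [Real.le_log_iff_exp_le (by positivity)]
    linarith
  have hval : min c ε / (C₀ * 3 ^ (2 * p) * 512 ^ (2 * p)) *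
      Real.exp (2 * p * Real.log (128 * m)) =
      (C₀ * (3 / s) ^ (2 * p))⁻¹ * (min c ε * (n : ℝ) ^ (2 * p)) := by
    have h1 : Real.exp (2 * p * Real.log (128 * m)) = 512 ^ (2 * p) * (n : ℝ) ^ (2 * p) * s ^ (2 * p) := by
      rw [mul_comm (2 * p), ← Real.rpow_def_of_pos (by positivity), hms,
        ← Real.mul_rpow (by norm_num) hn0.le, ← Real.mul_rpow (by positivity) hs0.le]
      congr 1
      ring
    have hsp : 0 < s ^ (2 * p) := Real.rpow_pos_of_pos hs0 _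
    rw [h1, Real.div_rpow (by norm_num) hs0.le]
    field_simp
  have hfin : ∀ z ∈ ball (0 : ℂ) 1, min c ε * (n : ℝ) ^ (2 * p) ≤ ‖f z‖ →
      min c ε / (C₀ * 3 ^ (2 * p) * 512 ^ (2 * p)) * Real.exp (2 * p * Real.log (128 * m)) ≤
        ‖((C₀ * (3 / s) ^ (2 * p) : ℝ) : ℂ)⁻¹ * f (MPV.mob a (MPV.mob (-a) z))‖ := by
    intro z hz h
    rw [mob_mob ha0 ha1 hz, norm_mul, norm_inv, Complex.norm_real, Real.norm_of_nonneg hb₀.le, hval]
    exact mul_le_mul_of_nonneg_left h (by positivity)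
  have hnp : 0 < (n : ℝ) ^ (2 * p) := Real.rpow_pos_of_pos hn0 _
  have hf₁ := hfin z₁ hz₁m ((mul_le_mul_of_nonneg_right (min_le_left c ε) hnp.le).trans hx)
  have hf₂ := hfin z₂ hz₂m ((mul_le_mul_of_nonneg_right (min_le_right c ε) hnp.le).trans hcon.le)
  have hkey := HT _ hNd (Real.log (128 * m)) hdD _ hy₁m _ hy₂m (by rw [hexpd]; exact hrat₁)
    (by rw [hexpd]; exact hrat₂) hf₁ hf₂
  rw [mob_diff ha0 ha1 hz₁m hz₂m, div_lt_iff₀ (by positivity)] at hkey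
  have h7 : s * s ≤ (1 - a ^ 2) * ‖z₁ - z₂‖ := mul_le_mul ha4 hch hs0.le (by linarith)
  have h8 : ‖1 - (a : ℂ) * z₁‖ * ‖1 - (a : ℂ) * z₂‖ ≤ 4 * s * (8 * s) :=
    mul_le_mul hd₁ hd₂ hp₂.le (by positivity)
  linarith

end MQV
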