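import Pool.Agent.MQV.Est

set_option autoImplicit false

/-!
# MQV PKX : Hayman's coefficient bound; large coefficients force a large value

`l = 1 + 1/(4p)`: `2pl = 2p + 1/2 > 1` and `l < 2`, because `p > 1/4`.  `C_E` of `est`.
* `coef_bound`: `K = 0`, `co f n 0 = 0`, `M = C n^(2p)` (`Nd.gs_le`, `C ≥ 1`):
  `2πn ‖a_n‖ ≤ C_E (C^(1-l/2) n^(2p(1-l/2)) n^(pl) + C n^(2p)) = C' n^(2p)`; divide by `2πn`.
* `peak`: choose `δ > 0` with `C_E (δ^(1-l/2) + δ) < 2πc` (`1 - l/2 > 0`) and `n₀` with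
  `1 ≤ δ n₀^(2p)`.  If `‖gs f n w‖ < δ n^(2p)` for all `w` in question, `est` with `K = 0`,
  `M = δ n^(2p)` gives `2πn ‖a_n‖ ≤ C_E (δ^(1-l/2) + δ) n^(2p) < 2πc n^(2p)`, contradiction.
* `est_small`: the same computation for `K` general: `est` with `M = η n^(2p) ≥ 1`; `η` so small that
  `C_E (η^(1-l/2) + η) ≤ ε`.
-/

open MeasureTheory Metric Set

namespace MQV

private theorem pkx_l {p : ℝ} (hp : 1 / 4 < p) : 1 < 2 * p * (1 + 1 / (4 * p)) ∧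
    1 + 1 / (4 * p) < 2 ∧ 0 < 1 - (1 + 1 / (4 * p)) / 2 ∧ 1 - (1 + 1 / (4 * p)) / 2 ≤ 1 := by
  have hp0 : 0 < p := by linarith
  have h1 : 1 / (4 * p) < 1 := by
    rw [div_lt_one (by positivity)]
    linarith
  have h2 : 0 < 1 / (4 * p) := by positivity
  refine ⟨?_, by linarith, by linarith, by linarith⟩
  have h3 : 2 * p * (1 + 1 / (4 * p)) = 2 * p + 1 / 2 := by
    field_simp
    ring
  rw [h3]
  linarith

private theorem pkx_pow {p l A : ℝ} (hA : 0 ≤ A) {n : ℕ} (hn : 1 ≤ n) :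
    (A * (n : ℝ) ^ (2 * p)) ^ (1 - l / 2) * (n : ℝ) ^ (p * l) =
      A ^ (1 - l / 2) * (n : ℝ) ^ (2 * p) := by
  have hn0 : (0 : ℝ) < n := by exact_mod_cast hn
  rw [Real.mul_rpow hA (by positivity), ← Real.rpow_mul hn0.le, mul_assoc, ← Real.rpow_add hn0]
  congr 2
  ring

private theorem pkx_small {s C ε : ℝ} (hs : 0 < s) (hs1 : s ≤ 1) (hC : 0 < C) (hε : 0 < ε) :
    ∃ δ : ℝ, 0 < δ ∧ C * (δ ^ s + δ) < ε := by
  obtain ⟨x, hx⟩ : ∃ x, x = min 1 (ε / (3 * C)) := ⟨_, rfl⟩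
  have hx0 : 0 < x := by
    rw [hx]
    exact lt_min one_pos (by positivity)
  have hx1 : x ≤ 1 := by
    rw [hx]
    exact min_le_left _ _
  have hx2 : x ≤ ε / (3 * C) := by
    rw [hx]
    exact min_le_right _ _
  refine ⟨x ^ (1 / s), Real.rpow_pos_of_pos hx0 _, ?_⟩
  have h1 : (x ^ (1 / s)) ^ s = x := by
    rw [← Real.rpow_mul hx0.le, one_div_mul_cancel hs.ne', Real.rpow_one]
  have h2 : x ^ (1 / s) ≤ x := by
    have h3 := Real.rpow_le_rpow_of_exponent_ge hx0 hx1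
      (by rw [le_div_iff₀ hs]; linarith : (1 : ℝ) ≤ 1 / s)
    rwa [Real.rpow_one] at h3
  rw [h1]
  have h4 : C * x ≤ ε / 3 := by
    have h5 := mul_le_mul_of_nonneg_left hx2 hC.le
    have h6 : C * (ε / (3 * C)) = ε / 3 := by
      field_simp
    linarith
  have h7 := mul_le_mul_of_nonneg_left h2 hC.le
  rw [mul_add]
  linarith

private theorem pkx_co (f : ℂ → ℂ) (n : ℕ) : co f n 0 = 0 := by
  unfold co
  simp

private theorem pkx_norm (f : ℂ → ℂ) (n : ℕ) :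
    ‖2 * (Real.pi : ℂ) * n * MPV.coef f n‖ = 2 * Real.pi * n * ‖MPV.coef f n‖ := by
  rw [norm_mul, norm_mul, norm_mul, Complex.norm_real, Complex.norm_natCast,
    Real.norm_of_nonneg Real.pi_pos.le]
  norm_num

private theorem pkx_large {p η : ℝ} (hp : 0 < p) (hη : 0 < η) (K : ℝ) : ∃ n₀ : ℕ, 1 ≤ n₀ ∧
    ∀ n : ℕ, n₀ ≤ n → 1 ≤ η * (n : ℝ) ^ (2 * p) ∧ K ≤ Real.pi * n := by
  obtain ⟨m, hm⟩ := exists_nat_ge ((1 / η) ^ (1 / (2 * p)) + |K| + 1)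
  have h0 : 0 < (1 / η) ^ (1 / (2 * p)) := Real.rpow_pos_of_pos (by positivity) _
  have hK := abs_nonneg K
  refine ⟨m, ?_, fun n hn => ?_⟩
  · have : (1 : ℝ) ≤ m := by linarith
    exact_mod_cast this
  have hnR : (1 / η) ^ (1 / (2 * p)) + |K| + 1 ≤ (n : ℝ) := hm.trans (by exact_mod_cast hn)
  constructor
  · have h1 : ((1 / η) ^ (1 / (2 * p))) ^ (2 * p) ≤ (n : ℝ) ^ (2 * p) :=
      Real.rpow_le_rpow h0.le (by linarith) (by linarith)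
    rw [← Real.rpow_mul (by positivity), one_div_mul_cancel (by positivity), Real.rpow_one] at h1
    have h2 := mul_le_mul_of_nonneg_left h1 hη.le
    have h3 : η * (1 / η) = 1 := by
      field_simp
    linarith
  · have h1 := le_abs_self K
    have h2 := Real.pi_gt_three
    have h3 : (0 : ℝ) ≤ n := Nat.cast_nonneg n
    nlinarith

theorem coef_bound {p : ℝ} (hp : 1 / 4 < p) : ∃ C : ℝ, 0 < C ∧ ∀ f : ℂ → ℂ, Nd p f →
    ∀ n : ℕ, 1 ≤ n → ‖MPV.coef f n‖ ≤ C * (n : ℝ) ^ (2 * p - 1) := by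
  have hp0 : 0 < p := by linarith
  obtain ⟨hl, hl2, hs, hs1⟩ := pkx_l hp
  obtain ⟨C, hC, H⟩ := est hp0 hl hl2
  obtain ⟨D, hD, HD⟩ := Nd.gs_le hp0
  set l : ℝ := 1 + 1 / (4 * p) with hldef
  have hD0 : 0 < D := by linarith
  have hpi := Real.pi_pos
  refine ⟨C * (D ^ (1 - l / 2) + D) / (2 * Real.pi), by positivity, fun f hf n hn => ?_⟩
  have hn0 : (0 : ℝ) < n := by exact_mod_cast hn
  have hn1 : (1 : ℝ) ≤ n := by exact_mod_cast hn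
  have hM : 1 ≤ D * (n : ℝ) ^ (2 * p) := by
    have := Real.one_le_rpow hn1 (by linarith : 0 ≤ 2 * p)
    nlinarith
  have h1 := H f hf n 0 (D * (n : ℝ) ^ (2 * p)) hn le_rfl (by positivity) hM
    (fun w hw _ _ _ => HD f hf n hn w hw)
  rw [pkx_co, sub_zero, pkx_norm, pkx_pow hD0.le hn] at h1
  have h2 : (n : ℝ) ^ (2 * p) = n * (n : ℝ) ^ (2 * p - 1) := by
    conv_rhs => rw [← Real.rpow_one_add' hn0.le (by linarith)]
    congr 1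
    ring
  rw [h2] at h1
  have h3 : 2 * Real.pi * n * ‖MPV.coef f n‖ ≤
      2 * Real.pi * n * (C * (D ^ (1 - l / 2) + D) / (2 * Real.pi) * (n : ℝ) ^ (2 * p - 1)) := by
    refine h1.trans (le_of_eq ?_)
    field_simp
  exact le_of_mul_le_mul_left h3 (by positivity)

theorem peak {p : ℝ} (hp : 1 / 4 < p) {c : ℝ} (hc : 0 < c) : ∃ δ : ℝ, 0 < δ ∧ ∃ n₀ : ℕ, 1 ≤ n₀ ∧
    ∀ f : ℂ → ℂ, Nd p f → ∀ n : ℕ, n₀ ≤ n → c * (n : ℝ) ^ (2 * p - 1) ≤ ‖MPV.coef f n‖ →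
      ∃ w : ℂ, 1 ≤ w.re ∧ w.re ≤ 2 ∧ |w.im| ≤ Real.pi * n ∧ δ * (n : ℝ) ^ (2 * p) ≤ ‖gs f n w‖ := by
  have hp0 : 0 < p := by linarith
  obtain ⟨hl, hl2, hs, hs1⟩ := pkx_l hp
  obtain ⟨C, hC, H⟩ := est hp0 hl hl2
  set l : ℝ := 1 + 1 / (4 * p) with hldef
  have hpi := Real.pi_pos
  obtain ⟨δ, hδ, hδ2⟩ := pkx_small hs hs1 hC (by positivity : 0 < 2 * Real.pi * c)
  obtain ⟨n₀, hn₀, hn₁⟩ := pkx_large hp0 hδ 0
  refine ⟨δ, hδ, n₀, hn₀, fun f hf n hn hcf => ?_⟩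
  by_contra hcon
  push Not at hcon
  have hn1 : 1 ≤ n := hn₀.trans hn
  have hn0 : (0 : ℝ) < n := by exact_mod_cast hn1
  have h1 := H f hf n 0 (δ * (n : ℝ) ^ (2 * p)) hn1 le_rfl (by positivity) (hn₁ n hn).1
    (fun w hw1 hw2 _ hw4 => (hcon w hw1 hw2 hw4).le)
  rw [pkx_co, sub_zero, pkx_norm, pkx_pow hδ.le hn1] at h1
  have h2 : (n : ℝ) ^ (2 * p) = n * (n : ℝ) ^ (2 * p - 1) := by
    conv_rhs => rw [← Real.rpow_one_add' hn0.le (by linarith)]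
    congr 1
    ring
  have h3 : 0 < (n : ℝ) ^ (2 * p) := by positivity
  have h4 : C * (δ ^ (1 - l / 2) * (n : ℝ) ^ (2 * p) + δ * (n : ℝ) ^ (2 * p)) <
      2 * Real.pi * c * (n : ℝ) ^ (2 * p) := by
    calc C * (δ ^ (1 - l / 2) * (n : ℝ) ^ (2 * p) + δ * (n : ℝ) ^ (2 * p)) =
        C * (δ ^ (1 - l / 2) + δ) * (n : ℝ) ^ (2 * p) := by ring
      _ < 2 * Real.pi * c * (n : ℝ) ^ (2 * p) := mul_lt_mul_of_pos_right hδ2 h3
  have h5 : 2 * Real.pi * c * (n : ℝ) ^ (2 * p) ≤ 2 * Real.pi * n * ‖MPV.coef f n‖ := by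
    rw [h2]
    calc 2 * Real.pi * c * (n * (n : ℝ) ^ (2 * p - 1)) =
        2 * Real.pi * n * (c * (n : ℝ) ^ (2 * p - 1)) := by ring
      _ ≤ 2 * Real.pi * n * ‖MPV.coef f n‖ := mul_le_mul_of_nonneg_left hcf (by positivity)
  linarith

theorem est_small {p : ℝ} (hp : 1 / 4 < p) {ε : ℝ} (hε : 0 < ε) : ∃ η : ℝ, 0 < η ∧
    ∀ K : ℝ, 0 ≤ K → ∃ n₀ : ℕ, 1 ≤ n₀ ∧ ∀ f : ℂ → ℂ, Nd p f → ∀ n : ℕ, n₀ ≤ n →
      (∀ w : ℂ, 1 ≤ w.re → w.re ≤ 2 → K ≤ |w.im| → |w.im| ≤ Real.pi * n →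
        ‖gs f n w‖ ≤ η * (n : ℝ) ^ (2 * p)) →
      ‖2 * Real.pi * n * MPV.coef f n - co f n K‖ ≤ ε * (n : ℝ) ^ (2 * p) := by
  have hp0 : 0 < p := by linarith
  obtain ⟨hl, hl2, hs, hs1⟩ := pkx_l hp
  obtain ⟨C, hC, H⟩ := est hp0 hl hl2
  set l : ℝ := 1 + 1 / (4 * p) with hldef
  obtain ⟨η, hη, hη2⟩ := pkx_small hs hs1 hC hε
  refine ⟨η, hη, fun K hK => ?_⟩
  obtain ⟨n₀, hn₀, hn₁⟩ := pkx_large hp0 hη K
  refine ⟨n₀, hn₀, fun f hf n hn hw => ?_⟩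
  have hn1 : 1 ≤ n := hn₀.trans hn
  have hn0 : (0 : ℝ) < n := by exact_mod_cast hn1
  have h1 := H f hf n K (η * (n : ℝ) ^ (2 * p)) hn1 hK (hn₁ n hn).2 (hn₁ n hn).1 hw
  rw [pkx_pow hη.le hn1] at h1
  refine h1.trans ?_
  have h3 : 0 ≤ (n : ℝ) ^ (2 * p) := by positivity
  calc C * (η ^ (1 - l / 2) * (n : ℝ) ^ (2 * p) + η * (n : ℝ) ^ (2 * p)) =
      C * (η ^ (1 - l / 2) + η) * (n : ℝ) ^ (2 * p) := by ring
    _ ≤ ε * (n : ℝ) ^ (2 * p) := mul_le_mul_of_nonneg_right hη2.le h3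

end MQV
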