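import Pool.Agent.MQV.Grw

set_option autoImplicit false

/-!
# MQV QUI : a quiet window

Hypotheses: `|F| ≤ 1` on `Bz 0`, `|F| ≥ c e^{2pT}` somewhere on `Bz T`.
`b = max_{Bz T} |F| ≥ c e^{2pT}`; `grow_core`: `∫_{1<Re<T} |dv F 1 b - 2p|² ≤ C₁(p,c)`.
Among `N = ⌊T/(3(2r+6))⌋` disjoint windows of `[T/3, 2T/3]` one, `|Re ζ - t| < r + 3`, has
`∫ |dv - 2p|² ≤ C₁/N`.  Work with `r ≥ 2`, `h ≤ 1/2` (otherwise enlarge `r`, shrink `h`).
`G = F e^{-2pζ}`.  On the bulk `|Im ζ| ≤ π/2 - h/2` of the window: `|F| ≤ C(h) e^{2p Re ζ}` by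
`growth` (`x = 0`, `M = 1`), and
`F' - 2pF = F (dv - 2p) + (1-λ) F'`, `λ = |F|² (1/(1+|F|²) - 1/(b²+|F|²))`,
`0 ≤ 1 - λ ≤ 1/(1+|F|²) + |F|²/b²`.  Hence
`∫_bulk |G'|² ≤ 2 C(h)² C₁/N + 4 e^{-4p(t-r-3)} ∫ |F'|²/(1+|F|²)² + 4 e^{-4p(t-r-3)} C(h)⁴ e^{8p(t+r+3)} b^{-4} ∫_bulk |F'|²`,
with `lay_sph` (`a = 1`) for the second and `∫_{bulk} |F'|² ≤ π p (C(h) e^{2p(t+r+3)})²` for the
third integral; all three terms tend to `0` as `T → ∞` (`T/3 ≤ t ≤ 2T/3`).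
Mean value: `|G'(ζ)|² ≤ 4/(π h²) ∫_{ball ζ (h/2)} |G'|²`, so `|G - G(t)| ≤ (r + 2) sup |G'|` is small.
Lower bound: `growth` from `Bz t` (`x = t`, `M = max_{Bz t} |F|`) to the point of `Bz T` gives
`max_{Bz t} |F| ≥ c' e^{2pt}`, attained at `ζ₂` with `|Re ζ₂ - t| ≤ 1.1`, `|Im ζ₂| ≤ 1`
(`Bz_near`), so `|G(ζ₂)| ≥ c''` and `|A| = |G(t)| ≥ c''/2 =: cA`.  `|G t| ≤ CA` by `growth`.
-/

open MeasureTheory Metric Set

namespace MQV

/-- area mean value inequality for `|g|²`, centre `0` -/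
private theorem qui_mv0 {g : ℂ → ℂ} {ρ : ℝ} (hρ : 0 < ρ) (hg : DifferentiableOn ℂ g (ball 0 ρ)) :
    ENNReal.ofReal (Real.pi * ρ ^ 2 * ‖g 0‖ ^ 2) ≤
      ∫⁻ z in ball (0 : ℂ) ρ, ENNReal.ofReal (‖g z‖ ^ 2) := by
  have hgc : ContinuousOn g (ball 0 ρ) := hg.continuousOn
  rw [← lintegral_indicator measurableSet_ball, ← Complex.lintegral_comp_polarCoord_symm]
  set T : Set (ℝ × ℝ) := Set.Ioo 0 ρ ×ˢ Set.Ioo (-Real.pi) Real.pi with hT
  have hTm : MeasurableSet T := measurableSet_Ioo.prod measurableSet_Ioo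
  have hTsub : T ⊆ polarCoord.target := by
    rintro ⟨r, θ⟩ ⟨h2, h3⟩
    exact ⟨h2.1, h3⟩
  refine le_trans ?_ (lintegral_mono_set hTsub)
  have hTA : ∀ p ∈ T, Complex.polarCoord.symm p ∈ ball (0:ℂ) ρ := by
    rintro ⟨r, θ⟩ ⟨h2, h3⟩
    have h4 : ‖Complex.polarCoord.symm (r, θ)‖ = r := by
      rw [Complex.norm_polarCoord_symm]
      exact abs_of_pos h2.1
    rw [mem_ball_zero_iff, h4]
    exact h2.2
  have hcong : ∫⁻ p in T, ENNReal.ofReal p.1 •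
      (ball (0:ℂ) ρ).indicator (fun z => ENNReal.ofReal (‖g z‖ ^ 2))
        (Complex.polarCoord.symm p)
      = ∫⁻ p in T, ENNReal.ofReal
        (p.1 * ‖g (p.1 * Complex.exp (p.2 * Complex.I))‖ ^ 2) := by
    refine setLIntegral_congr_fun hTm (fun p hp => ?_)
    rw [Set.indicator_of_mem (hTA p hp), smul_eq_mul, ← ENNReal.ofReal_mul hp.1.1.le]
    congr 5
    rw [Complex.polarCoord_symm_apply, Complex.exp_mul_I]
    simp
  rw [hcong]
  have hTc : ContinuousOn (fun p : ℝ × ℝ =>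
      p.1 * ‖g (p.1 * Complex.exp (p.2 * Complex.I))‖ ^ 2) T := by
    refine continuousOn_fst.mul (ContinuousOn.pow (ContinuousOn.norm ?_) 2)
    refine hgc.comp (by fun_prop) (fun p hp => ?_)
    have h2 := hTA p hp
    rwa [Complex.polarCoord_symm_apply, Complex.ofReal_cos, Complex.ofReal_sin,
      ← Complex.exp_mul_I] at h2
  have hvp : (volume : Measure (ℝ × ℝ)).restrict T
      = ((volume : Measure ℝ).restrict (Set.Ioo 0 ρ)).prod
        ((volume : Measure ℝ).restrict (Set.Ioo (-Real.pi) Real.pi)) := by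
    rw [Measure.prod_restrict, ← Measure.volume_eq_prod]
  have hae : AEMeasurable (fun p : ℝ × ℝ =>
      ENNReal.ofReal (p.1 * ‖g (p.1 * Complex.exp (p.2 * Complex.I))‖ ^ 2))
      (((volume : Measure ℝ).restrict (Set.Ioo 0 ρ)).prod
        ((volume : Measure ℝ).restrict (Set.Ioo (-Real.pi) Real.pi))) := by
    rw [← hvp]
    exact (hTc.aemeasurable hTm).ennreal_ofReal
  rw [hvp, lintegral_prod _ hae]
  have hinner : ∀ r ∈ Set.Ioo (0 : ℝ) ρ,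
      ENNReal.ofReal (r * (2 * Real.pi * ‖g 0‖ ^ 2))
      ≤ ∫⁻ θ in Set.Ioo (-Real.pi) Real.pi,
        ENNReal.ofReal (r * ‖g (r * Complex.exp (θ * Complex.I))‖ ^ 2) := by
    intro r hr
    have hr0 : 0 < r := hr.1
    have hr1 : r < ρ := hr.2
    have hcts : Continuous (fun θ : ℝ =>
        r * ‖g (r * Complex.exp (θ * Complex.I))‖ ^ 2) := by
      refine continuous_const.mul (Continuous.pow (Continuous.norm ?_) 2)
      refine hgc.comp_continuous (by fun_prop) (fun θ => ?_)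
      rw [mem_ball_zero_iff, norm_mul, Complex.norm_exp_ofReal_mul_I, Complex.norm_real, mul_one,
        Real.norm_eq_abs, abs_of_pos hr0]
      exact hr1
    have hint : IntegrableOn (fun θ : ℝ =>
        r * ‖g (r * Complex.exp (θ * Complex.I))‖ ^ 2)
        (Set.Ioo (-Real.pi) Real.pi) :=
      (hcts.integrableOn_Icc (a := -Real.pi) (b := Real.pi)).mono_set Set.Ioo_subset_Icc_self
    rw [← ofReal_integral_eq_lintegral_ofReal hint
      (ae_of_all _ (fun θ => mul_nonneg hr0.le (sq_nonneg _)))]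
    refine ENNReal.ofReal_le_ofReal ?_
    rw [integral_const_mul]
    refine mul_le_mul_of_nonneg_left ?_ hr0.le
    -- circle mean of `g²`
    have hd : DifferentiableOn ℂ (fun z => g z ^ 2) (closure (ball (0 : ℂ) |r|)) := by
      refine (hg.pow 2).mono ?_
      rw [abs_of_pos hr0]
      refine closure_ball_subset_closedBall.trans (closedBall_subset_ball hr1)
    have h1 := hd.diffContOnCl.circleAverage
    rw [Real.circleAverage_def] at h1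
    have h2 : ‖g 0‖ ^ 2 ≤ (2 * Real.pi)⁻¹ *
        ∫ θ in (0:ℝ)..2 * Real.pi, ‖g (circleMap 0 r θ)‖ ^ 2 := by
      have h3 : ‖g 0 ^ 2‖ ≤ (2 * Real.pi)⁻¹ *
          ‖∫ θ in (0:ℝ)..2 * Real.pi, g (circleMap 0 r θ) ^ 2‖ := by
        rw [← h1, norm_smul, Real.norm_of_nonneg (by positivity)]
      rw [norm_pow] at h3
      refine h3.trans (mul_le_mul_of_nonneg_left ?_ (by positivity))
      refine (intervalIntegral.norm_integral_le_integral_norm (by positivity)).trans (le_of_eq ?_)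
      simp only [norm_pow]
    have h4 : 2 * Real.pi * ‖g 0‖ ^ 2 ≤ ∫ θ in (0:ℝ)..2 * Real.pi, ‖g (circleMap 0 r θ)‖ ^ 2 := by
      have h5 := mul_le_mul_of_nonneg_left h2 (by positivity : (0:ℝ) ≤ 2 * Real.pi)
      rwa [← mul_assoc (2 * Real.pi) (2 * Real.pi)⁻¹,
        mul_inv_cancel₀ (by positivity : (2 * Real.pi : ℝ) ≠ 0), one_mul] at h5
    refine h4.trans (le_of_eq ?_)
    rw [← integral_Ioc_eq_integral_Ioo,
      ← intervalIntegral.integral_of_le (by linarith [Real.pi_pos])]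
    have hper : Function.Periodic
        (fun t : ℝ => ‖g (circleMap 0 r t)‖ ^ 2) (2 * Real.pi) := by
      intro t
      simp only [(periodic_circleMap 0 r) t]
    have := hper.intervalIntegral_add_eq 0 (-Real.pi)
    rw [zero_add] at this
    rw [this]
    have e1 : -Real.pi + 2 * Real.pi = Real.pi := by ring
    rw [e1]
    simp only [circleMap, zero_add]
  refine le_trans ?_ (setLIntegral_mono' measurableSet_Ioo hinner)
  have hcont : Continuous fun r : ℝ => r * (2 * Real.pi * ‖g 0‖ ^ 2) := by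
    fun_prop
  rw [← ofReal_integral_eq_lintegral_ofReal
    ((hcont.integrableOn_Icc (a := 0) (b := ρ)).mono_set Set.Ioo_subset_Icc_self)
    ((ae_restrict_iff' measurableSet_Ioo).2 (ae_of_all _ fun r hr => by
      have := hr.1
      have := Real.pi_pos
      positivity))]
  refine ENNReal.ofReal_le_ofReal ?_
  rw [← integral_Ioc_eq_integral_Ioo, ← intervalIntegral.integral_of_le hρ.le,
    intervalIntegral.integral_mul_const, integral_id]
  refine le_of_eq ?_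
  ring

/-- area mean value inequality for `|g|²` -/
private theorem qui_mv {g : ℂ → ℂ} {w : ℂ} {ρ : ℝ} (hρ : 0 < ρ)
    (hg : DifferentiableOn ℂ g (ball w ρ)) :
    ENNReal.ofReal (Real.pi * ρ ^ 2 * ‖g w‖ ^ 2) ≤
      ∫⁻ z in ball w ρ, ENNReal.ofReal (‖g z‖ ^ 2) := by
  have h1 : DifferentiableOn ℂ (fun z => g (w + z)) (ball 0 ρ) := by
    refine hg.comp (by fun_prop) ?_
    intro z hz
    rw [mem_ball_zero_iff] at hz
    rw [mem_ball, dist_eq_norm, add_sub_cancel_left]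
    exact hz
  have h2 := qui_mv0 hρ h1
  rw [add_zero] at h2
  refine h2.trans (le_of_eq ?_)
  rw [← lintegral_indicator measurableSet_ball, ← lintegral_indicator measurableSet_ball,
    ← lintegral_add_left_eq_self
      ((ball w ρ).indicator fun z => ENNReal.ofReal (‖g z‖ ^ 2)) w]
  refine lintegral_congr fun z => ?_
  by_cases hz : z ∈ ball (0 : ℂ) ρ
  · rw [indicator_of_mem hz, indicator_of_mem]
    rw [mem_ball, dist_eq_norm, add_sub_cancel_left]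
    exact mem_ball_zero_iff.1 hz
  · rw [indicator_of_notMem hz, indicator_of_notMem]
    rw [mem_ball, dist_eq_norm, add_sub_cancel_left]
    exact fun h => hz (mem_ball_zero_iff.2 h)

private theorem qui_exp {a C τ : ℝ} (ha : 0 < a) (hτ : 0 < τ) : ∃ T₀ : ℝ, ∀ T : ℝ,
    T₀ ≤ T → C * Real.exp (-(a * T)) ≤ τ := by
  refine ⟨C / (a * τ), fun T hT => ?_⟩
  have h1 : a * T + 1 ≤ Real.exp (a * T) := Real.add_one_le_exp _
  rw [div_le_iff₀ (by positivity)] at hT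
  rw [Real.exp_neg, ← div_eq_mul_inv, div_le_iff₀ (Real.exp_pos _)]
  nlinarith

/-- lower bound for the maximum over `Bz t` -/
private theorem qui_low {p c : ℝ} (hp : 0 < p) (hc : 0 < c) : ∃ c₁ : ℝ, 0 < c₁ ∧
    ∀ F : ℂ → ℂ, MV Str p F → ∀ T : ℝ,
      (∃ ζ ∈ Bz T, c * Real.exp (2 * p * T) ≤ ‖F ζ‖) → ∀ t : ℝ, t ≤ T →
        ∃ ζ ∈ Bz t, c₁ * Real.exp (2 * p * t) ≤ ‖F ζ‖ := by
  obtain ⟨C, hC, H⟩ := growth hp
  have hD : (0 : ℝ) < (2 * Real.exp (11 / 10)) ^ (2 * p) := by positivity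
  set D : ℝ := (2 * Real.exp (11 / 10)) ^ (2 * p) with hDd
  refine ⟨c / (2 * (C * D)), by positivity, fun F hF T hT t htT => ?_⟩
  by_contra hcon
  push Not at hcon
  obtain ⟨ζ, hζ, hζc⟩ := hT
  have hM : 0 < c / (2 * (C * D)) * Real.exp (2 * p * t) := by positivity
  have h1 := H F hF t _ hM (fun w hw => (hcon w hw).le) ζ hζ.1
  obtain ⟨h2, h3⟩ := Bz_near hζ
  have hcos : 1 / 2 ≤ Real.cos ζ.im := by
    rw [← Real.cos_abs]
    rw [← Real.cos_pi_div_three]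
    refine Real.cos_le_cos_of_nonneg_of_le_pi (abs_nonneg _) ?_ ?_
    · linarith [Real.pi_pos]
    · linarith [Real.pi_gt_three]
  have h4 : |ζ.re - t| ≤ T - t + 11 / 10 := by
    have := abs_add_le (ζ.re - T) (T - t)
    rw [sub_add_sub_cancel, abs_of_nonneg (by linarith : 0 ≤ T - t)] at this
    linarith
  have h5 : Real.exp |ζ.re - t| / Real.cos ζ.im ≤
      2 * Real.exp (11 / 10) * Real.exp (T - t) := by
    rw [div_le_iff₀ (by linarith)]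
    have h6 : Real.exp |ζ.re - t| ≤ Real.exp (11 / 10) * Real.exp (T - t) := by
      rw [← Real.exp_add]
      exact Real.exp_le_exp.2 (by linarith)
    have h7 : 0 < Real.exp (11 / 10) * Real.exp (T - t) := by positivity
    nlinarith
  have h6 : (Real.exp |ζ.re - t| / Real.cos ζ.im) ^ (2 * p) ≤ D * Real.exp (2 * p * (T - t)) := by
    refine (Real.rpow_le_rpow (by positivity) h5 (by positivity)).trans (le_of_eq ?_)
    rw [Real.mul_rpow (by positivity) (by positivity), ← Real.exp_mul]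
    congr 2
    ring
  have h7 : ‖F ζ‖ ≤ C * (c / (2 * (C * D)) * Real.exp (2 * p * t)) *
      (D * Real.exp (2 * p * (T - t))) :=
    h1.trans (mul_le_mul_of_nonneg_left h6 (by positivity))
  have h8 : C * (c / (2 * (C * D)) * Real.exp (2 * p * t)) *
      (D * Real.exp (2 * p * (T - t))) = c / 2 * Real.exp (2 * p * T) := by
    have h9 : Real.exp (2 * p * T) = Real.exp (2 * p * t) * Real.exp (2 * p * (T - t)) := by
      rw [← Real.exp_add]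
      congr 1
      ring
    rw [h9]
    field_simp
  rw [h8] at h7
  have h9 : 0 < c * Real.exp (2 * p * T) := by positivity
  linarith


/-- pigeonhole over disjoint windows -/
private theorem qui_pig {L C₁ σ : ℝ} (hL : 0 < L) (hC : 0 ≤ C₁) (hσ : 0 < σ) : ∃ T₀ : ℝ,
    ∀ T : ℝ, T₀ ≤ T → ∀ f : ℂ → ENNReal,
      ∫⁻ ζ in {ζ | ζ ∈ Str ∧ 1 < ζ.re ∧ ζ.re < T}, f ζ ≤ ENNReal.ofReal C₁ →
      ∃ t : ℝ, T / 3 + L ≤ t ∧ t + L ≤ 2 * T / 3 ∧
        ∫⁻ ζ in {ζ : ℂ | ζ ∈ Str ∧ |ζ.re - t| < L}, f ζ ≤ ENNReal.ofReal σ := by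
  obtain ⟨N, hN⟩ := exists_nat_gt (C₁ / σ)
  rw [div_lt_iff₀ hσ] at hN
  refine ⟨max 3 (6 * L * N), fun T hT f hf => ?_⟩
  have hT3 : 3 ≤ T := (le_max_left _ _).trans hT
  have hTN : 6 * L * N ≤ T := (le_max_right _ _).trans hT
  by_contra hcon
  push Not at hcon
  set t : ℕ → ℝ := fun k => T / 3 + (2 * k + 1) * L with ht
  have ht2 : ∀ k ∈ Finset.range N, T / 3 + L ≤ t k ∧ t k + L ≤ 2 * T / 3 := by
    intro k hk
    rw [Finset.mem_range] at hk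
    have h1 : (k : ℝ) + 1 ≤ N := by exact_mod_cast hk
    have h0 : (0 : ℝ) ≤ k := Nat.cast_nonneg k
    constructor
    · show T / 3 + L ≤ T / 3 + (2 * k + 1) * L
      nlinarith
    · show T / 3 + (2 * k + 1) * L + L ≤ 2 * T / 3
      have : ((k : ℝ) + 1) * L ≤ N * L := mul_le_mul_of_nonneg_right h1 hL.le
      nlinarith
  have hd : Set.PairwiseDisjoint (↑(Finset.range N) : Set ℕ)
      (fun k => {ζ : ℂ | ζ ∈ Str ∧ |ζ.re - t k| < L}) := by
    intro i _ j _ hij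
    rw [Function.onFun, Set.disjoint_left]
    intro ζ h1 h2
    have h3 := abs_lt.1 h1.2
    have h4 := abs_lt.1 h2.2
    have h5 : ((2 * (i : ℝ) + 1) * L) - ((2 * (j : ℝ) + 1) * L) < 2 * L := by
      simp only [ht] at h3 h4
      linarith [h3.1, h3.2, h4.1, h4.2]
    have h6 : ((2 * (j : ℝ) + 1) * L) - ((2 * (i : ℝ) + 1) * L) < 2 * L := by
      simp only [ht] at h3 h4
      linarith [h3.1, h3.2, h4.1, h4.2]
    have h7 : (i : ℝ) - j < 1 := by nlinarith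
    have h8 : (j : ℝ) - i < 1 := by nlinarith
    have h9 : (i : ℤ) - j < 1 := by exact_mod_cast h7
    have h10 : (j : ℤ) - i < 1 := by exact_mod_cast h8
    omega
  have hm : ∀ k ∈ Finset.range N, MeasurableSet {ζ : ℂ | ζ ∈ Str ∧ |ζ.re - t k| < L} := by
    intro k _
    refine isOpen_Str.measurableSet.inter ?_
    exact (isOpen_lt (continuous_abs.comp (Complex.continuous_re.sub continuous_const))
      continuous_const).measurableSet
  have h1 := lintegral_biUnion_finset (μ := volume) hd hm f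
  have h2 : ∫⁻ ζ in ⋃ k ∈ Finset.range N, {ζ : ℂ | ζ ∈ Str ∧ |ζ.re - t k| < L}, f ζ ≤
      ENNReal.ofReal C₁ := by
    refine (lintegral_mono_set ?_).trans hf
    intro ζ hζ
    simp only [mem_iUnion] at hζ
    obtain ⟨k, hk, hζ1, hζ2⟩ := hζ
    obtain ⟨h3, h4⟩ := ht2 k hk
    have h5 := abs_lt.1 hζ2
    exact ⟨hζ1, by linarith [h5.1], by linarith [h5.2]⟩
  rw [h1] at h2
  have h3 : (Finset.range N).card • ENNReal.ofReal σ ≤
      ∑ k ∈ Finset.range N, ∫⁻ ζ in {ζ : ℂ | ζ ∈ Str ∧ |ζ.re - t k| < L}, f ζ :=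
    Finset.card_nsmul_le_sum _ _ _ fun k hk => (hcon (t k) (ht2 k hk).1 (ht2 k hk).2).le
  rw [Finset.card_range, nsmul_eq_mul] at h3
  have h4 : (N : ENNReal) * ENNReal.ofReal σ = ENNReal.ofReal (N * σ) := by
    rw [ENNReal.ofReal_mul (Nat.cast_nonneg N), ENNReal.ofReal_natCast]
  rw [h4] at h3
  have h5 := (ENNReal.ofReal_le_ofReal_iff hC).1 (h3.trans h2)
  linarith

/-- the pointwise inequality behind `quiet_energy` -/
private theorem qui_pt {F : ℂ → ℂ} {p b K E₁ E₂ : ℝ} {ζ : ℂ} (hb : 0 < b)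
    (hd : DifferentiableAt ℂ F ζ) (hK : 0 ≤ K)
    (h1 : ‖F ζ‖ ≤ K * Real.exp (2 * p * ζ.re)) (hE₁ : Real.exp (-(4 * p * ζ.re)) ≤ E₁)
    (hE₂ : Real.exp (4 * p * ζ.re) ≤ E₂) :
    ‖deriv (fun ζ => F ζ * Complex.exp (-(2 * p * ζ))) ζ‖ ^ 2 ≤
      2 * K ^ 2 * ‖dv F 1 b ζ - 2 * p‖ ^ 2 +
        4 * E₁ * (‖deriv F ζ‖ ^ 2 * (1 ^ 4 / (1 ^ 2 + ‖F ζ‖ ^ 2) ^ 2)) +
        4 * (K ^ 4 * E₂ / b ^ 4) * ‖deriv F ζ‖ ^ 2 := by
  have hder : deriv (fun ζ => F ζ * Complex.exp (-(2 * p * ζ))) ζ =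
      (deriv F ζ - 2 * p * F ζ) * Complex.exp (-(2 * p * ζ)) := by
    have e1 : HasDerivAt (fun ζ : ℂ => Complex.exp (-(2 * p * ζ)))
        (Complex.exp (-(2 * p * ζ)) * (-(2 * p))) ζ := by
      have e2 : HasDerivAt (fun ζ : ℂ => -(2 * p * ζ)) (-(2 * p * 1)) ζ :=
        ((hasDerivAt_id ζ).const_mul (2 * (p : ℂ))).neg
      rw [mul_one] at e2
      exact e2.cexp
    rw [(hd.hasDerivAt.fun_mul e1).deriv]
    ring
  set q : ℝ := 1 / (1 ^ 2 + ‖F ζ‖ ^ 2) - 1 / (b ^ 2 + ‖F ζ‖ ^ 2) with hq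
  set l : ℝ := 1 - ‖F ζ‖ ^ 2 * q with hl
  have hsplit : deriv F ζ - 2 * p * F ζ = F ζ * (dv F 1 b ζ - 2 * p) + (l : ℂ) * deriv F ζ := by
    have e1 : dv F 1 b ζ = deriv F ζ * (starRingEnd ℂ) (F ζ) * (q : ℂ) := rfl
    have e2 : F ζ * (starRingEnd ℂ) (F ζ) = ((‖F ζ‖ ^ 2 : ℝ) : ℂ) := by
      rw [Complex.mul_conj, Complex.normSq_eq_norm_sq]
    rw [e1, hl]
    push_cast at e2 ⊢
    linear_combination (-(deriv F ζ * (q : ℂ))) * e2
  have hl0 : 0 ≤ l := by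
    have e1 : l = 1 / (1 ^ 2 + ‖F ζ‖ ^ 2) + ‖F ζ‖ ^ 2 / (b ^ 2 + ‖F ζ‖ ^ 2) := by
      have : (0 : ℝ) < 1 ^ 2 + ‖F ζ‖ ^ 2 := by positivity
      have : (0 : ℝ) < b ^ 2 + ‖F ζ‖ ^ 2 := by positivity
      rw [hl, hq]
      field_simp
      ring
    rw [e1]
    positivity
  have hl1 : l ≤ 1 / (1 ^ 2 + ‖F ζ‖ ^ 2) + ‖F ζ‖ ^ 2 / b ^ 2 := by
    have e1 : l = 1 / (1 ^ 2 + ‖F ζ‖ ^ 2) + ‖F ζ‖ ^ 2 / (b ^ 2 + ‖F ζ‖ ^ 2) := by
      have : (0 : ℝ) < 1 ^ 2 + ‖F ζ‖ ^ 2 := by positivity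
      have : (0 : ℝ) < b ^ 2 + ‖F ζ‖ ^ 2 := by positivity
      rw [hl, hq]
      field_simp
      ring
    rw [e1]
    gcongr
    nlinarith [sq_nonneg ‖F ζ‖]
  have hexp : ‖Complex.exp (-(2 * p * ζ))‖ ^ 2 = Real.exp (-(4 * p * ζ.re)) := by
    rw [Complex.norm_exp, ← Real.exp_nat_mul]
    congr 1
    simp
    ring
  have hn : ‖deriv F ζ - 2 * p * F ζ‖ ^ 2 ≤
      2 * ‖F ζ‖ ^ 2 * ‖dv F 1 b ζ - 2 * p‖ ^ 2 + 2 * l ^ 2 * ‖deriv F ζ‖ ^ 2 := by
    rw [hsplit]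
    have e1 := norm_add_le (F ζ * (dv F 1 b ζ - 2 * p)) ((l : ℂ) * deriv F ζ)
    rw [norm_mul, norm_mul, Complex.norm_real, Real.norm_of_nonneg hl0] at e1
    have e2 := norm_nonneg (F ζ * (dv F 1 b ζ - 2 * p) + (l : ℂ) * deriv F ζ)
    have e3 := pow_le_pow_left₀ e2 e1 2
    refine e3.trans ?_
    nlinarith [sq_nonneg (‖F ζ‖ * ‖dv F 1 b ζ - 2 * p‖ - l * ‖deriv F ζ‖)]
  have hl2 : l ^ 2 ≤ 2 * (1 ^ 4 / (1 ^ 2 + ‖F ζ‖ ^ 2) ^ 2) + 2 * (‖F ζ‖ ^ 4 / b ^ 4) := by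
    have e1 := pow_le_pow_left₀ hl0 hl1 2
    have e2 : 2 * (1 ^ 4 / (1 ^ 2 + ‖F ζ‖ ^ 2) ^ 2) + 2 * (‖F ζ‖ ^ 4 / b ^ 4) =
        2 * (1 / (1 ^ 2 + ‖F ζ‖ ^ 2)) ^ 2 + 2 * (‖F ζ‖ ^ 2 / b ^ 2) ^ 2 := by
      rw [div_pow, div_pow]
      ring
    rw [e2]
    refine e1.trans ?_
    nlinarith [sq_nonneg (1 / (1 ^ 2 + ‖F ζ‖ ^ 2) - ‖F ζ‖ ^ 2 / b ^ 2)]
  have hX := Real.exp_pos (2 * p * ζ.re)
  have hXX : Real.exp (4 * p * ζ.re) = Real.exp (2 * p * ζ.re) ^ 2 := by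
    rw [← Real.exp_nat_mul]
    congr 1
    push_cast
    ring
  have hinv : Real.exp (-(4 * p * ζ.re)) * Real.exp (2 * p * ζ.re) ^ 2 = 1 := by
    rw [← hXX, ← Real.exp_add]
    simp
  have hF2 : ‖F ζ‖ ^ 2 ≤ K ^ 2 * Real.exp (2 * p * ζ.re) ^ 2 := by
    rw [← mul_pow]
    exact pow_le_pow_left₀ (norm_nonneg _) h1 2
  have hF4 : ‖F ζ‖ ^ 4 ≤ K ^ 4 * Real.exp (2 * p * ζ.re) ^ 4 := by
    rw [← mul_pow]
    exact pow_le_pow_left₀ (norm_nonneg _) h1 4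
  set e := Real.exp (-(4 * p * ζ.re)) with he
  have he0 : 0 < e := Real.exp_pos _
  set X := Real.exp (2 * p * ζ.re) with hXd
  have hA : e * ‖F ζ‖ ^ 2 ≤ K ^ 2 := by
    calc e * ‖F ζ‖ ^ 2 ≤ e * (K ^ 2 * X ^ 2) := mul_le_mul_of_nonneg_left hF2 he0.le
      _ = K ^ 2 * (e * X ^ 2) := by ring
      _ = K ^ 2 := by rw [hinv, mul_one]
  have hB : e * ‖F ζ‖ ^ 4 ≤ K ^ 4 * E₂ := by
    calc e * ‖F ζ‖ ^ 4 ≤ e * (K ^ 4 * X ^ 4) := mul_le_mul_of_nonneg_left hF4 he0.le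
      _ = K ^ 4 * ((e * X ^ 2) * X ^ 2) := by ring
      _ = K ^ 4 * Real.exp (4 * p * ζ.re) := by rw [hinv, one_mul, hXX]
      _ ≤ K ^ 4 * E₂ := mul_le_mul_of_nonneg_left hE₂ (by positivity)
  rw [hder, norm_mul, mul_pow, hexp]
  set D := ‖deriv F ζ‖ ^ 2 with hD
  have hD0 : 0 ≤ D := sq_nonneg _
  set S : ℝ := 1 ^ 4 / (1 ^ 2 + ‖F ζ‖ ^ 2) ^ 2 with hS
  have hS0 : 0 ≤ S := by positivity
  set V := ‖dv F 1 b ζ - 2 * p‖ ^ 2 with hV
  have hV0 : 0 ≤ V := sq_nonneg _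
  calc ‖deriv F ζ - 2 * p * F ζ‖ ^ 2 * e ≤ (2 * ‖F ζ‖ ^ 2 * V + 2 * l ^ 2 * D) * e :=
        mul_le_mul_of_nonneg_right hn he0.le
    _ ≤ (2 * ‖F ζ‖ ^ 2 * V + 2 * (2 * S + 2 * (‖F ζ‖ ^ 4 / b ^ 4)) * D) * e := by
        refine mul_le_mul_of_nonneg_right ?_ he0.le
        have := mul_le_mul_of_nonneg_right hl2 hD0
        linarith
    _ = 2 * (e * ‖F ζ‖ ^ 2) * V + 4 * e * (D * S) + 4 * (e * ‖F ζ‖ ^ 4 / b ^ 4) * D := by ring
    _ ≤ 2 * K ^ 2 * V + 4 * E₁ * (D * S) + 4 * (K ^ 4 * E₂ / b ^ 4) * D := by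
        gcongr


/-- energy smallness of `G'` in a window -/
theorem quiet_energy {p c : ℝ} (hp : 0 < p) (hc : 0 < c) {r h τ : ℝ} (hr : 2 ≤ r) (hh : 0 < h)
    (hh1 : h ≤ 1 / 2) (hτ : 0 < τ) : ∃ T₀ : ℝ, ∀ T : ℝ, T₀ ≤ T → ∀ F : ℂ → ℂ, MV Str p F →
      (∀ ζ ∈ Bz 0, ‖F ζ‖ ≤ 1) → (∃ ζ ∈ Bz T, c * Real.exp (2 * p * T) ≤ ‖F ζ‖) →
      ∃ t : ℝ, T / 3 ≤ t ∧ t ≤ 2 * T / 3 ∧
        ∫⁻ ζ in {ζ : ℂ | |ζ.re - t| < r + 2 ∧ |ζ.im| < Real.pi / 2 - h / 2},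
          ENNReal.ofReal (‖deriv (fun ζ => F ζ * Complex.exp (-(2 * p * ζ))) ζ‖ ^ 2) ≤
          ENNReal.ofReal τ := by
  have hpi := Real.pi_pos
  obtain ⟨C₀, hC₀, HG⟩ := grow_core hp
  obtain ⟨Cg, hCg, Hg⟩ := growth hp
  have hs0 : 0 < Real.sin (h / 2) :=
    Real.sin_pos_of_pos_of_lt_pi (by linarith) (by linarith [Real.pi_gt_three])
  set L : ℝ := r + 2 with hL
  have hL0 : 0 < L := by linarith
  set K : ℝ := Cg * (1 / Real.sin (h / 2)) ^ (2 * p) with hK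
  have hK0 : 0 < K := by positivity
  set C₁ : ℝ := 2 * Real.pi * p * |Real.log c| + C₀ with hC₁
  have hC₁0 : 0 ≤ C₁ := by positivity
  obtain ⟨T₁, HT₁⟩ := qui_pig (C₁ := C₁) (σ := τ / (6 * K ^ 2)) hL0 hC₁0 (by positivity)
  obtain ⟨T₂, HT₂⟩ := qui_exp (a := 2 * p) (C := 2 / c) (τ := 1) (by positivity) one_pos
  obtain ⟨T₃, HT₃⟩ := qui_exp (a := 4 * p / 3)
    (C := 4 * Real.exp (0) * (Real.pi * p * 1 ^ 2)) (τ := τ / 3) (by positivity) (by positivity)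
  obtain ⟨T₄, HT₄⟩ := qui_exp (a := 8 * p / 3)
    (C := 4 * (K ^ 4 / c ^ 4) * (Real.pi * p * K ^ 2)) (τ := τ / 3) (by positivity)
    (by positivity)
  refine ⟨max 3 (max T₁ (max T₂ (max T₃ T₄))), fun T hT F hF h0 hT2 => ?_⟩
  simp only [max_le_iff] at hT
  obtain ⟨hT3, hTa, hTb, hTc, hTd⟩ := hT
  obtain ⟨ζT, hζT, hζc⟩ := hT2
  have hFc : ContinuousOn F Str := hF.diff.continuousOn
  obtain ⟨ζ1, hζ1, hmax⟩ := (isCompact_Bz T).exists_isMaxOn ⟨_, real_mem_Bz T⟩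
    (hFc.mono fun ζ hζ => hζ.1).norm
  have hmax' : ∀ ζ ∈ Bz T, ‖F ζ‖ ≤ ‖F ζ1‖ := fun ζ hζ => hmax hζ
  set b : ℝ := ‖F ζ1‖ with hb
  have hbc : c * Real.exp (2 * p * T) ≤ b := hζc.trans (hmax' _ hζT)
  have hb2 : 2 ≤ b := by
    have h1 := HT₂ T hTb
    rw [Real.exp_neg, ← div_eq_mul_inv, div_div, div_le_one (by positivity)] at h1
    exact h1.trans hbc
  have hb0 : 0 < b := by linarith
  have h1 := (HG F hF T b (by linarith) hb2 h0 hmax' ⟨ζ1, hζ1, le_rfl⟩).2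
  have h2 : 2 * Real.pi * p * (2 * p * T - Real.log b) + C₀ ≤ C₁ := by
    have h3 : Real.log c + 2 * p * T ≤ Real.log b := by
      have h4 := Real.log_le_log (by positivity) hbc
      rwa [Real.log_mul hc.ne' (Real.exp_pos _).ne', Real.log_exp] at h4
    have h5 : 2 * p * T - Real.log b ≤ |Real.log c| := by
      linarith [neg_abs_le (Real.log c)]
    have h6 := mul_le_mul_of_nonneg_left h5 (by positivity : 0 ≤ 2 * Real.pi * p)
    linarith
  obtain ⟨t, ht1, ht2, ht3⟩ := HT₁ T hTa _ (h1.trans (ENNReal.ofReal_le_ofReal h2))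
  refine ⟨t, by linarith, by linarith, ?_⟩
  set W : Set ℂ := {ζ : ℂ | |ζ.re - t| < L ∧ |ζ.im| < Real.pi / 2 - h / 2} with hW
  have hWm : MeasurableSet W := by
    refine MeasurableSet.inter ?_ ?_
    · exact (isOpen_lt (continuous_abs.comp (Complex.continuous_re.sub continuous_const))
        continuous_const).measurableSet
    · exact (isOpen_lt (continuous_abs.comp Complex.continuous_im)
        continuous_const).measurableSet
  have hWS : W ⊆ {ζ : ℂ | ζ ∈ Str ∧ |ζ.re - t| < L} := by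
    intro ζ hζ
    refine ⟨?_, hζ.1⟩
    show |ζ.im| < Real.pi / 2
    linarith [hζ.2]
  have hWStr : W ⊆ Str := fun ζ hζ => (hWS hζ).1
  -- growth bound in the bulk
  have hKb : ∀ ζ ∈ W, ‖F ζ‖ ≤ K * Real.exp (2 * p * ζ.re) := by
    intro ζ hζ
    have h3 := Hg F hF 0 1 one_pos h0 ζ (hWStr hζ)
    have h4 := abs_lt.1 hζ.1
    rw [sub_zero, mul_one, abs_of_nonneg (by linarith [h4.1] : 0 ≤ ζ.re)] at h3
    refine h3.trans ?_
    have h5 : Real.sin (h / 2) ≤ Real.cos ζ.im := by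
      rw [← Real.cos_abs, ← Real.cos_pi_div_two_sub]
      refine Real.cos_le_cos_of_nonneg_of_le_pi (abs_nonneg _) (by linarith) ?_
      linarith [hζ.2]
    have h6 : Real.exp ζ.re / Real.cos ζ.im ≤ 1 / Real.sin (h / 2) * Real.exp ζ.re := by
      rw [one_div, mul_comm, ← div_eq_mul_inv]
      exact div_le_div_of_nonneg_left (Real.exp_pos _).le hs0 h5
    have h7 : (Real.exp ζ.re / Real.cos ζ.im) ^ (2 * p) ≤
        (1 / Real.sin (h / 2)) ^ (2 * p) * Real.exp (2 * p * ζ.re) := by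
      refine (Real.rpow_le_rpow (div_nonneg (Real.exp_pos _).le (hs0.le.trans h5)) h6
        (by positivity)).trans (le_of_eq ?_)
      rw [Real.mul_rpow (by positivity) (by positivity), ← Real.exp_mul]
      congr 2
      ring
    rw [hK, mul_assoc]
    exact mul_le_mul_of_nonneg_left h7 (by linarith)
  set E₁ : ℝ := Real.exp (-(4 * p / 3 * T)) with hE₁
  set E₂ : ℝ := Real.exp (8 * p / 3 * T) with hE₂
  have hE₁0 : 0 < E₁ := Real.exp_pos _
  have hE₂0 : 0 < E₂ := Real.exp_pos _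
  have hpt : ∀ ζ ∈ W, ENNReal.ofReal
      (‖deriv (fun ζ => F ζ * Complex.exp (-(2 * p * ζ))) ζ‖ ^ 2) ≤
      ENNReal.ofReal (2 * K ^ 2) * ENNReal.ofReal (‖dv F 1 b ζ - 2 * p‖ ^ 2) +
      ENNReal.ofReal (4 * E₁) *
        ENNReal.ofReal (‖deriv F ζ‖ ^ 2 * (1 ^ 4 / (1 ^ 2 + ‖F ζ‖ ^ 2) ^ 2)) +
      ENNReal.ofReal (4 * (K ^ 4 * E₂ / b ^ 4)) * ENNReal.ofReal (‖deriv F ζ‖ ^ 2) := by
    intro ζ hζ
    have h4 := abs_lt.1 hζ.1
    rw [← ENNReal.ofReal_mul (by positivity), ← ENNReal.ofReal_mul (by positivity),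
      ← ENNReal.ofReal_mul (by positivity), ← ENNReal.ofReal_add (by positivity) (by positivity),
      ← ENNReal.ofReal_add (by positivity) (by positivity)]
    refine ENNReal.ofReal_le_ofReal ?_
    refine qui_pt hb0 ((hF.diff ζ (hWStr hζ)).differentiableAt
      (isOpen_Str.mem_nhds (hWStr hζ))) hK0.le (hKb ζ hζ) ?_ ?_
    · refine Real.exp_le_exp.2 ?_
      nlinarith [h4.1]
    · refine Real.exp_le_exp.2 ?_
      nlinarith [h4.2]
  have hFm : AEMeasurable F (volume.restrict W) := (hFc.mono hWStr).aemeasurable hWm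
  have hDm : AEMeasurable (deriv F) (volume.restrict W) := (measurable_deriv F).aemeasurable
  have hvm : AEMeasurable (dv F 1 b) (volume.restrict W) := by
    unfold dv
    refine (hDm.mul (Complex.continuous_conj.measurable.comp_aemeasurable hFm)).mul
      (Complex.measurable_ofReal.comp_aemeasurable ?_)
    exact (aemeasurable_const.div (aemeasurable_const.add (hFm.norm.pow_const 2))).sub
      (aemeasurable_const.div (aemeasurable_const.add (hFm.norm.pow_const 2)))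
  have hm1 : AEMeasurable (fun ζ => ENNReal.ofReal (2 * K ^ 2) *
      ENNReal.ofReal (‖dv F 1 b ζ - 2 * p‖ ^ 2)) (volume.restrict W) :=
    (((hvm.sub aemeasurable_const).norm.pow_const 2).ennreal_ofReal).const_mul _
  have hm2 : AEMeasurable (fun ζ => ENNReal.ofReal (4 * E₁) *
      ENNReal.ofReal (‖deriv F ζ‖ ^ 2 * (1 ^ 4 / (1 ^ 2 + ‖F ζ‖ ^ 2) ^ 2)))
      (volume.restrict W) :=
    (((hDm.norm.pow_const 2).mul (aemeasurable_const.div
      ((aemeasurable_const.add (hFm.norm.pow_const 2)).pow_const 2))).ennreal_ofReal).const_mul _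
  have hm12 : AEMeasurable (fun ζ => ENNReal.ofReal (2 * K ^ 2) *
      ENNReal.ofReal (‖dv F 1 b ζ - 2 * p‖ ^ 2) + ENNReal.ofReal (4 * E₁) *
      ENNReal.ofReal (‖deriv F ζ‖ ^ 2 * (1 ^ 4 / (1 ^ 2 + ‖F ζ‖ ^ 2) ^ 2)))
      (volume.restrict W) := hm1.add hm2
  refine (setLIntegral_mono' hWm hpt).trans ?_
  rw [lintegral_add_left' hm12, lintegral_add_left' hm1,
    lintegral_const_mul' _ _ ENNReal.ofReal_ne_top, lintegral_const_mul' _ _ ENNReal.ofReal_ne_top,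
    lintegral_const_mul' _ _ ENNReal.ofReal_ne_top]
  have b1 : ENNReal.ofReal (2 * K ^ 2) *
      ∫⁻ ζ in W, ENNReal.ofReal (‖dv F 1 b ζ - 2 * p‖ ^ 2) ≤ ENNReal.ofReal (τ / 3) := by
    refine (mul_le_mul' le_rfl ((lintegral_mono_set hWS).trans ht3)).trans (le_of_eq ?_)
    rw [← ENNReal.ofReal_mul (by positivity)]
    congr 1
    field_simp
    ring
  have b2 : ENNReal.ofReal (4 * E₁) * ∫⁻ ζ in W,
      ENNReal.ofReal (‖deriv F ζ‖ ^ 2 * (1 ^ 4 / (1 ^ 2 + ‖F ζ‖ ^ 2) ^ 2)) ≤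
      ENNReal.ofReal (τ / 3) := by
    refine (mul_le_mul' le_rfl ((lintegral_mono_set hWStr).trans
      (lay_sph isOpen_Str hp.le one_pos hF))).trans ?_
    rw [← ENNReal.ofReal_mul (by positivity)]
    refine ENNReal.ofReal_le_ofReal ?_
    have := HT₃ T hTc
    rw [Real.exp_zero] at this
    linarith
  have b3 : ENNReal.ofReal (4 * (K ^ 4 * E₂ / b ^ 4)) * ∫⁻ ζ in W,
      ENNReal.ofReal (‖deriv F ζ‖ ^ 2) ≤ ENNReal.ofReal (τ / 3) := by
    have h3 : ∫⁻ ζ in W, ENNReal.ofReal (‖deriv F ζ‖ ^ 2) ≤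
        ENNReal.ofReal (Real.pi * p * (K * Real.exp (4 * p / 3 * T)) ^ 2) := by
      refine le_trans ?_ (hF.area _ (by positivity))
      refine lintegral_mono_set fun ζ hζ => ?_
      refine ⟨hWStr hζ, norm_nonneg _, ?_⟩
      refine (hKb ζ hζ).trans_lt ?_
      have h4 := abs_lt.1 hζ.1
      refine mul_lt_mul_of_pos_left (Real.exp_lt_exp.2 ?_) hK0
      nlinarith [h4.2]
    refine (mul_le_mul' le_rfl h3).trans ?_
    rw [← ENNReal.ofReal_mul (by positivity)]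
    refine ENNReal.ofReal_le_ofReal ?_
    refine le_trans ?_ (HT₄ T hTd)
    have hb4 : c ^ 4 * Real.exp (8 * p * T) ≤ b ^ 4 := by
      have h4 := pow_le_pow_left₀ (by positivity) hbc 4
      rw [mul_pow, ← Real.exp_nat_mul] at h4
      refine le_trans (le_of_eq ?_) h4
      congr 2
      push_cast
      ring
    have h5 : K ^ 4 * E₂ / b ^ 4 ≤ K ^ 4 * E₂ / (c ^ 4 * Real.exp (8 * p * T)) :=
      div_le_div_of_nonneg_left (by positivity) (by positivity) hb4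
    have h6 : (K * Real.exp (4 * p / 3 * T)) ^ 2 = K ^ 2 * E₂ := by
      rw [mul_pow, ← Real.exp_nat_mul]
      congr 2
      push_cast
      ring
    rw [h6]
    have h7 : Real.exp (8 * p * T) = E₂ * E₂ * Real.exp (8 * p / 3 * T) := by
      rw [hE₂, ← Real.exp_add, ← Real.exp_add]
      congr 1
      ring
    calc 4 * (K ^ 4 * E₂ / b ^ 4) * (Real.pi * p * (K ^ 2 * E₂)) ≤
          4 * (K ^ 4 * E₂ / (c ^ 4 * Real.exp (8 * p * T))) * (Real.pi * p * (K ^ 2 * E₂)) := by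
          gcongr
      _ = 4 * (K ^ 4 / c ^ 4) * (Real.pi * p * K ^ 2) * Real.exp (-(8 * p / 3 * T)) := by
          rw [h7, Real.exp_neg]
          field_simp
  refine (add_le_add (add_le_add b1 b2) b3).trans (le_of_eq ?_)
  rw [← ENNReal.ofReal_add (by positivity) (by positivity),
    ← ENNReal.ofReal_add (by positivity) (by positivity)]
  congr 1
  ring


theorem quiet {p c : ℝ} (hp : 0 < p) (hc : 0 < c) : ∃ cA CA : ℝ, 0 < cA ∧ 0 < CA ∧
    ∀ r h δ : ℝ, 0 < r → 0 < h → 0 < δ → ∃ T₀ : ℝ, ∀ T : ℝ, T₀ ≤ T → ∀ F : ℂ → ℂ, MV Str p F →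
      (∀ ζ ∈ Bz 0, ‖F ζ‖ ≤ 1) → (∃ ζ ∈ Bz T, c * Real.exp (2 * p * T) ≤ ‖F ζ‖) →
      ∃ (t : ℝ) (A : ℂ), T / 3 ≤ t ∧ t ≤ 2 * T / 3 ∧ cA ≤ ‖A‖ ∧ ‖A‖ ≤ CA ∧
        ∀ ζ : ℂ, |ζ.re - t| ≤ r → |ζ.im| ≤ Real.pi / 2 - h →
          ‖F ζ - A * Complex.exp (2 * p * ζ)‖ ≤ δ * (‖A‖ * Real.exp (2 * p * ζ.re)) := by
  obtain ⟨c₁, hc₁, HL⟩ := qui_low hp hc
  obtain ⟨Cg, hCg, Hg⟩ := growth hp
  set c₂ : ℝ := c₁ * Real.exp (-(2 * p * (11 / 10))) with hc₂
  have hc₂0 : 0 < c₂ := by positivity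
  refine ⟨c₂ / 2, Cg, by positivity, by linarith, fun r' h' δ hr' hh' hδ => ?_⟩
  set r : ℝ := max r' 2 with hr
  set h : ℝ := min h' (1 / 2) with hh
  have hr2 : 2 ≤ r := le_max_right _ _
  have hh2 : h ≤ 1 / 2 := min_le_right _ _
  have hh0 : 0 < h := lt_min hh' (by norm_num)
  set ε : ℝ := min 1 δ * (c₂ / 2) / (r + 2) with hε
  have hmin : 0 < min 1 δ := lt_min one_pos hδ
  have hε0 : 0 < ε := by positivity
  have hε1 : ε * (r + 2) ≤ c₂ / 2 := by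
    rw [hε, div_mul_cancel₀ _ (by linarith : r + 2 ≠ 0)]
    have := mul_le_mul_of_nonneg_right (min_le_left 1 δ) (by positivity : 0 ≤ c₂ / 2)
    linarith
  have hε2 : ε * (r + 2) ≤ δ * (c₂ / 2) := by
    rw [hε, div_mul_cancel₀ _ (by linarith : r + 2 ≠ 0)]
    exact mul_le_mul_of_nonneg_right (min_le_right 1 δ) (by positivity)
  obtain ⟨T₀, HE⟩ := quiet_energy hp hc hr2 hh0 hh2
    (τ := Real.pi * (h / 2) ^ 2 * ε ^ 2) (by positivity)
  refine ⟨max 0 T₀, fun T hT F hF h0 hT2 => ?_⟩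
  have hT0 : 0 ≤ T := (le_max_left _ _).trans hT
  obtain ⟨t, ht1, ht2, ht3⟩ := HE T ((le_max_right _ _).trans hT) F hF h0 hT2
  set G : ℂ → ℂ := fun ζ => F ζ * Complex.exp (-(2 * p * ζ)) with hG
  have hpi := Real.pi_gt_three
  have hpi4 := Real.pi_lt_four
  have hGd : DifferentiableOn ℂ G Str := hF.diff.mul (by fun_prop)
  have hGn : ∀ ζ, ‖G ζ‖ = ‖F ζ‖ * Real.exp (-(2 * p * ζ.re)) := by
    intro ζ
    rw [hG]
    simp only [norm_mul, Complex.norm_exp]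
    congr 2
    simp
  have hFG : ∀ ζ, F ζ = G ζ * Complex.exp (2 * p * ζ) := by
    intro ζ
    rw [hG]
    simp only
    rw [mul_assoc, ← Complex.exp_add, neg_add_cancel, Complex.exp_zero, mul_one]
  -- the closed rectangle
  set R : Set ℂ := {ζ : ℂ | |ζ.re - t| ≤ r ∧ |ζ.im| ≤ Real.pi / 2 - h} with hR
  have hRS : R ⊆ Str := by
    intro ζ hζ
    show |ζ.im| < Real.pi / 2
    linarith [hζ.2]
  have hder : ∀ ζ ∈ R, ‖deriv G ζ‖ ≤ ε := by
    intro ζ hζ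
    have hball : ball ζ (h / 2) ⊆
        {ζ : ℂ | |ζ.re - t| < r + 2 ∧ |ζ.im| < Real.pi / 2 - h / 2} := by
      intro w hw
      rw [mem_ball, dist_eq_norm] at hw
      have e1 := (Complex.abs_re_le_norm (w - ζ)).trans_lt hw
      have e2 := (Complex.abs_im_le_norm (w - ζ)).trans_lt hw
      rw [Complex.sub_re] at e1
      rw [Complex.sub_im] at e2
      have e3 := abs_add_le (w.re - ζ.re) (ζ.re - t)
      have e4 := abs_add_le (w.im - ζ.im) ζ.im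
      rw [sub_add_sub_cancel] at e3
      rw [sub_add_cancel] at e4
      exact ⟨by linarith [hζ.1], by linarith [hζ.2]⟩
    have hbS : ball ζ (h / 2) ⊆ Str := by
      intro w hw
      show |w.im| < Real.pi / 2
      have := (hball hw).2
      linarith
    have hGd' : DifferentiableOn ℂ (deriv G) (ball ζ (h / 2)) :=
      (hGd.deriv isOpen_Str).mono hbS
    have e1 := (qui_mv (by positivity : 0 < h / 2) hGd').trans
      ((lintegral_mono_set hball).trans ht3)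
    rw [ENNReal.ofReal_le_ofReal_iff (by positivity)] at e1
    have e2 : ‖deriv G ζ‖ ^ 2 ≤ ε ^ 2 := le_of_mul_le_mul_left e1 (by positivity)
    exact le_of_sq_le_sq e2 hε0.le
  have hRc : Convex ℝ R := by
    have e1 : R = Complex.re ⁻¹' (Icc (t - r) (t + r)) ∩
        Complex.im ⁻¹' (Icc (-(Real.pi / 2 - h)) (Real.pi / 2 - h)) := by
      ext ζ
      show (|ζ.re - t| ≤ r ∧ |ζ.im| ≤ Real.pi / 2 - h) ↔
        (ζ.re ∈ Icc (t - r) (t + r) ∧ ζ.im ∈ Icc (-(Real.pi / 2 - h)) (Real.pi / 2 - h))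
      rw [abs_le, abs_le, mem_Icc, mem_Icc]
      constructor
      · rintro ⟨⟨a1, a2⟩, a3⟩
        exact ⟨⟨by linarith, by linarith⟩, a3⟩
      · rintro ⟨⟨a1, a2⟩, a3⟩
        exact ⟨⟨by linarith, by linarith⟩, a3⟩
    rw [e1]
    exact ((convex_Icc _ _).linear_preimage Complex.reLm).inter
      ((convex_Icc _ _).linear_preimage Complex.imLm)
  have htR : (t : ℂ) ∈ R := by
    refine ⟨?_, ?_⟩
    · rw [Complex.ofReal_re, sub_self, abs_zero]
      linarith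
    · rw [Complex.ofReal_im, abs_zero]
      linarith
  have hdiff : ∀ ζ ∈ R, ‖G ζ - G t‖ ≤ ε * (r + 2) := by
    intro ζ hζ
    have e1 := hRc.norm_image_sub_le_of_norm_deriv_le (𝕜 := ℂ) (f := G) (C := ε)
      (fun w hw => (hGd w (hRS hw)).differentiableAt (isOpen_Str.mem_nhds (hRS hw)))
      hder htR hζ
    refine e1.trans (mul_le_mul_of_nonneg_left ?_ hε0.le)
    refine (Complex.norm_le_abs_re_add_abs_im _).trans ?_
    rw [Complex.sub_re, Complex.sub_im, Complex.ofReal_re, Complex.ofReal_im, sub_zero]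
    linarith [hζ.1, hζ.2]
  -- lower bound
  obtain ⟨ζ₂, hζ₂, hζ₂c⟩ := HL F hF T hT2 t (by linarith)
  obtain ⟨hn1, hn2⟩ := Bz_near hζ₂
  have hζ₂R : ζ₂ ∈ R := ⟨by linarith, by linarith⟩
  have hG2 : c₂ ≤ ‖G ζ₂‖ := by
    rw [hGn]
    have e1 : Real.exp (-(2 * p * (11 / 10))) ≤
        Real.exp (2 * p * t) * Real.exp (-(2 * p * ζ₂.re)) := by
      rw [← Real.exp_add]
      refine Real.exp_le_exp.2 ?_
      have := (abs_le.1 hn1).2
      nlinarith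
    calc c₂ ≤ c₁ * (Real.exp (2 * p * t) * Real.exp (-(2 * p * ζ₂.re))) :=
          mul_le_mul_of_nonneg_left e1 hc₁.le
      _ = c₁ * Real.exp (2 * p * t) * Real.exp (-(2 * p * ζ₂.re)) := by ring
      _ ≤ ‖F ζ₂‖ * Real.exp (-(2 * p * ζ₂.re)) :=
          mul_le_mul_of_nonneg_right hζ₂c (Real.exp_pos _).le
  have hAlow : c₂ / 2 ≤ ‖G t‖ := by
    have e1 := hdiff ζ₂ hζ₂R
    have e2 := norm_sub_norm_le (G ζ₂) (G t)
    linarith
  have hAup : ‖G t‖ ≤ Cg := by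
    rw [hGn, Complex.ofReal_re]
    have e1 := Hg F hF 0 1 one_pos h0 t (hRS htR)
    rw [Complex.ofReal_re, Complex.ofReal_im, Real.cos_zero, div_one, sub_zero, mul_one,
      abs_of_nonneg (by linarith : 0 ≤ t), ← Real.exp_mul] at e1
    calc ‖F t‖ * Real.exp (-(2 * p * t)) ≤ Cg * Real.exp (t * (2 * p)) * Real.exp (-(2 * p * t)) :=
          mul_le_mul_of_nonneg_right e1 (Real.exp_pos _).le
      _ = Cg := by
          rw [mul_assoc, ← Real.exp_add]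
          have : t * (2 * p) + -(2 * p * t) = 0 := by ring
          rw [this, Real.exp_zero, mul_one]
  refine ⟨t, G t, ht1, ht2, hAlow, hAup, fun ζ hζ1 hζ2 => ?_⟩
  have hζR : ζ ∈ R := ⟨hζ1.trans (le_max_left _ _), hζ2.trans (by
    have := min_le_left h' (1 / 2)
    linarith)⟩
  have e1 : F ζ - G t * Complex.exp (2 * p * ζ) = (G ζ - G t) * Complex.exp (2 * p * ζ) := by
    rw [hFG ζ]
    ring
  have e2 : ‖Complex.exp (2 * p * ζ)‖ = Real.exp (2 * p * ζ.re) := by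
    rw [Complex.norm_exp]
    congr 1
    simp
  rw [e1, norm_mul, e2, ← mul_assoc]
  refine mul_le_mul_of_nonneg_right ?_ (Real.exp_pos _).le
  refine (hdiff ζ hζR).trans (hε2.trans ?_)
  exact mul_le_mul_of_nonneg_left hAlow hδ.le

end MQV
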