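import Pool.Agent.MQV.Ker

set_option autoImplicit false

/-!
# MQV SPL : the additive splitting (Cousin problem) in the zone

If `J` is analytic and bounded on `Zn t H = {|Re w - t| < 1, |Im w| < H}` then
`w ↦ cl (Re w - t) J(w) + E1 t H J w` is ANALYTIC on `Zn t H` (although `cl` is not).

PROOF.  Write `Q = Qr t H`.
`cl J + E1 J = -(1/2π) ∫_Q (J(ω) e^{-(w-ω)²} - J(w)) / (w-ω) dA(ω) + J(w) Φ(w)`,
`Φ(w) = cl(Re w - t) - (1/2π) ∫_Q dA(ω)/(w-ω)`.
(a) The first integral is analytic in `w` (removable singularity at `w = ω`, bounds by the maximum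
principle, `param_int`).
(b) `Φ` is analytic on `|Im w| < H` by an explicit computation: for `x = Re w - τ ≠ 0`,
`∫_{-H}^{H} dη / (w - τ - iη) = i (Log (w-τ-iH) - Log (w-τ+iH)) - 2π [x < 0]`
(principal logarithms; `Im (w-τ-iH) < 0 < Im (w-τ+iH)`), hence
`Φ(w) = 1 - (i/2π) ∫_{t-1/2}^{t+1/2} (Log (w-τ-iH) - Log (w-τ+iH)) dτ`,
because `∫_{t-1/2}^{t+1/2} [Re w < τ] dτ = 1 - cl (Re w - t)`.
-/

open MeasureTheory Metric Set

namespace MQV

/-- The inner integral, `τ < Re w`. -/
theorem inner_pos {w : ℂ} {H τ : ℝ} (hx : τ < w.re) :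
    ∫ η in (-H)..H, (1 : ℂ) / (w - (τ + η * Complex.I)) =
      Complex.I * (Complex.log (w - τ - H * Complex.I) - Complex.log (w - τ + H * Complex.I)) := by
  have hs : ∀ η : ℝ, w - τ - η * Complex.I ∈ Complex.slitPlane := by
    intro η
    left
    simp only [Complex.sub_re, Complex.ofReal_re, Complex.mul_re, Complex.I_re, mul_zero,
      Complex.ofReal_im, Complex.I_im, mul_one, sub_self, sub_zero]
    linarith
  have hne : ∀ η : ℝ, w - τ - η * Complex.I ≠ 0 := fun η => Complex.slitPlane_ne_zero (hs η)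
  have hd : ∀ η ∈ uIcc (-H) H, HasDerivAt
      (fun η : ℝ => Complex.I * Complex.log (w - τ - η * Complex.I))
      ((1 : ℂ) / (w - (τ + η * Complex.I))) η := by
    intro η _
    have h1 : HasDerivAt (fun η : ℝ => w - τ - η * Complex.I) (-Complex.I) η := by
      have h2 := ((hasDerivAt_id η).ofReal_comp.mul_const Complex.I).const_sub (w - τ)
      simpa using h2
    have h3 := (h1.clog_real (hs η)).const_mul Complex.I
    refine h3.congr_deriv ?_
    have h4 := hne η
    have h5 : w - (τ + η * Complex.I) = w - τ - η * Complex.I := by ring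
    rw [h5, mul_div_assoc', mul_neg, Complex.I_mul_I, neg_neg]
  have hc : Continuous fun η : ℝ => (1 : ℂ) / (w - (τ + η * Complex.I)) := by
    refine continuous_const.div (by fun_prop) fun η => ?_
    have h5 : w - (τ + η * Complex.I) = w - τ - η * Complex.I := by ring
    rw [h5]
    exact hne η
  rw [intervalIntegral.integral_eq_sub_of_hasDerivAt hd (hc.intervalIntegrable _ _)]
  rw [← mul_sub]
  congr 3
  push_cast
  ring

/-- The inner integral, `Re w < τ`. -/
theorem inner_neg {w : ℂ} {H τ : ℝ} (h : |w.im| < H) (hx : w.re < τ) :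
    ∫ η in (-H)..H, (1 : ℂ) / (w - (τ + η * Complex.I)) =
      Complex.I * (Complex.log (w - τ - H * Complex.I) - Complex.log (w - τ + H * Complex.I)) -
        2 * Real.pi := by
  have hs : ∀ η : ℝ, -(w - τ - η * Complex.I) ∈ Complex.slitPlane := by
    intro η
    left
    simp only [Complex.neg_re, Complex.sub_re, Complex.ofReal_re, Complex.mul_re, Complex.I_re,
      mul_zero, Complex.ofReal_im, Complex.I_im, mul_one, sub_self, sub_zero]
    linarith
  have hne : ∀ η : ℝ, w - τ - η * Complex.I ≠ 0 := fun η => by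
    have := Complex.slitPlane_ne_zero (hs η)
    exact fun h0 => this (by rw [h0, neg_zero])
  have hd : ∀ η ∈ uIcc (-H) H, HasDerivAt
      (fun η : ℝ => Complex.I * Complex.log (-(w - τ - η * Complex.I)))
      ((1 : ℂ) / (w - (τ + η * Complex.I))) η := by
    intro η _
    have h1 : HasDerivAt (fun η : ℝ => -(w - τ - η * Complex.I)) (Complex.I) η := by
      have h2 : HasDerivAt (fun η : ℝ => (η : ℂ) * Complex.I) Complex.I η := by
        simpa using (hasDerivAt_id η).ofReal_comp.mul_const Complex.I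
      exact ((h2.const_sub (w - τ)).neg).congr_deriv (neg_neg _)
    have h3 := (h1.clog_real (hs η)).const_mul Complex.I
    refine h3.congr_deriv ?_
    have h4 := hne η
    have h5 : w - (τ + η * Complex.I) = w - τ - η * Complex.I := by ring
    rw [h5, mul_div_assoc', Complex.I_mul_I, neg_div_neg_eq]
  have hc : Continuous fun η : ℝ => (1 : ℂ) / (w - (τ + η * Complex.I)) := by
    refine continuous_const.div (by fun_prop) fun η => ?_
    have h5 : w - (τ + η * Complex.I) = w - τ - η * Complex.I := by ring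
    rw [h5]
    exact hne η
  rw [intervalIntegral.integral_eq_sub_of_hasDerivAt hd (hc.intervalIntegrable _ _)]
  rw [abs_lt] at h
  have e1 : Complex.log (-(w - τ - H * Complex.I)) =
      Complex.log (w - τ - H * Complex.I) + Real.pi * Complex.I := by
    have him : (w - τ - H * Complex.I).im < 0 := by
      simp only [Complex.sub_im, Complex.ofReal_im, Complex.mul_im, Complex.I_im, mul_one,
        Complex.ofReal_re, Complex.I_re, mul_zero, add_zero, sub_zero]
      linarith
    rw [Complex.log, Complex.log, norm_neg, Complex.arg_neg_eq_arg_add_pi_of_im_neg him]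
    push_cast
    ring
  have e2 : Complex.log (-(w - τ - ((-H : ℝ) : ℂ) * Complex.I)) =
      Complex.log (w - τ + H * Complex.I) - Real.pi * Complex.I := by
    have him : 0 < (w - τ + H * Complex.I).im := by
      simp only [Complex.add_im, Complex.sub_im, Complex.ofReal_im, Complex.mul_im, Complex.I_im,
        mul_one, Complex.ofReal_re, Complex.I_re, mul_zero, add_zero, sub_zero]
      linarith
    have e3 : w - τ - ((-H : ℝ) : ℂ) * Complex.I = w - τ + H * Complex.I := by push_cast; ring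
    rw [e3, Complex.log, Complex.log, norm_neg, Complex.arg_neg_eq_arg_sub_pi_of_im_pos him]
    push_cast
    ring
  rw [e1, e2]
  linear_combination (2 * (Real.pi : ℂ)) * Complex.I_mul_I

theorem Qr_fubini {t H : ℝ} (f : ℂ → ℂ) (hf : IntegrableOn f (Qr t H)) :
    ∫ ω in Qr t H, f ω = ∫ τ in Ioo (t - 1 / 2) (t + 1 / 2), ∫ η in Ioo (-H) H,
      f (τ + η * Complex.I) := by
  have hmp := Complex.volume_preserving_equiv_real_prod.symm
  have hpre : (Complex.measurableEquivRealProd.symm : ℝ × ℝ → ℂ) ⁻¹' (Qr t H) =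
      Ioo (t - 1 / 2) (t + 1 / 2) ×ˢ Ioo (-H) H := by
    ext ⟨x, y⟩
    change (|x - t| < 1 / 2 ∧ |y| < H) ↔ _
    rw [mem_prod, mem_Ioo, mem_Ioo, abs_lt, abs_lt]
    constructor
    · rintro ⟨⟨h1, h2⟩, h3, h4⟩
      exact ⟨⟨by simp only; linarith, by simp only; linarith⟩, h3, h4⟩
    · rintro ⟨⟨h1, h2⟩, h3, h4⟩
      simp only at h1 h2 h3 h4
      exact ⟨⟨by linarith, by linarith⟩, h3, h4⟩
  rw [← hmp.setIntegral_preimage_emb (MeasurableEquiv.measurableEmbedding _) f (Qr t H), hpre]
  have hint : IntegrableOn (fun p : ℝ × ℝ => f (Complex.measurableEquivRealProd.symm p))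
      (Ioo (t - 1 / 2) (t + 1 / 2) ×ˢ Ioo (-H) H) := by
    rw [← hpre]
    exact (hmp.integrableOn_comp_preimage (MeasurableEquiv.measurableEmbedding _)).2 hf
  rw [Measure.volume_eq_prod] at hint ⊢
  rw [setIntegral_prod _ hint]
  refine setIntegral_congr_fun measurableSet_Ioo fun x _ => ?_
  refine setIntegral_congr_fun measurableSet_Ioo fun y _ => ?_
  congr 1
  rw [← Complex.mk_eq_add_mul_I]
  rfl

theorem cl_int (x t : ℝ) : ∫ τ in Ioo (t - 1 / 2) (t + 1 / 2),
    (if x < τ then (2 * Real.pi : ℂ) else 0) = 2 * Real.pi * (1 - cl (x - t) : ℝ) := by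
  have h1 : ∀ τ : ℝ, (if x < τ then (2 * Real.pi : ℂ) else 0) =
      (Ioi x).indicator (fun _ => (2 * Real.pi : ℂ)) τ := by
    intro τ
    simp only [indicator, mem_Ioi]
  simp only [h1]
  rw [integral_indicator measurableSet_Ioi, Measure.restrict_restrict measurableSet_Ioi,
    setIntegral_const]
  have h2 : Ioi x ∩ Ioo (t - 1 / 2) (t + 1 / 2) = Ioo (max (t - 1 / 2) x) (t + 1 / 2) := by
    ext y
    simp only [mem_inter_iff, mem_Ioi, mem_Ioo, max_lt_iff]
    tauto
  rw [h2, Real.volume_real_Ioo, Complex.real_smul, mul_comm]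
  congr 2
  unfold cl
  rcases le_total x (t - 1 / 2) with h | h
  · rw [max_eq_left h, min_eq_right (by linarith), max_eq_left (a := (0 : ℝ)) (by linarith),
      max_eq_left (by linarith)]
    ring
  · rw [max_eq_right h]
    rcases le_total x (t + 1 / 2) with h' | h'
    · rw [min_eq_right (by linarith), max_eq_right (a := (0 : ℝ)) (by linarith),
        max_eq_left (by linarith)]
      ring
    · rw [min_eq_left (by linarith), max_eq_right (a := (0 : ℝ)) (by linarith),
        max_eq_right (by linarith)]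
      ring

theorem inv_intC (t H : ℝ) (w : ℂ) : IntegrableOn (fun ω : ℂ => (1 : ℂ) / (w - ω)) (Qr t H) := by
  have h1 := inv_int (Qr_meas t H) (Qr_fin t H) w
  refine (integrable_norm_iff ?_).1 (h1.congr (Filter.Eventually.of_forall fun ω => ?_))
  · exact (measurable_const.div (measurable_const.sub measurable_id)).aestronglyMeasurable
  · simp only [one_div, norm_inv]

theorem slit_minus {H : ℝ} {w : ℂ} (hw : |w.im| < H) (τ : ℝ) :
    w - τ - H * Complex.I ∈ Complex.slitPlane := by
  right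
  rw [abs_lt] at hw
  simp only [Complex.sub_im, Complex.ofReal_im, Complex.mul_im, Complex.I_im, mul_one,
    Complex.ofReal_re, Complex.I_re, mul_zero, add_zero, sub_zero]
  linarith

theorem slit_plus {H : ℝ} {w : ℂ} (hw : |w.im| < H) (τ : ℝ) :
    w - τ + H * Complex.I ∈ Complex.slitPlane := by
  right
  rw [abs_lt] at hw
  simp only [Complex.add_im, Complex.sub_im, Complex.ofReal_im, Complex.mul_im, Complex.I_im,
    mul_one, Complex.ofReal_re, Complex.I_re, mul_zero, add_zero, sub_zero]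
  linarith

theorem log_cont {H : ℝ} {w : ℂ} (hw : |w.im| < H) :
    Continuous fun τ : ℝ => Complex.log (w - τ - H * Complex.I) -
      Complex.log (w - τ + H * Complex.I) := by
  refine Continuous.sub ?_ ?_
  · exact Continuous.clog (by fun_prop) (slit_minus hw)
  · exact Continuous.clog (by fun_prop) (slit_plus hw)

theorem Phi_eq {t H : ℝ} (h0 : 0 < H) {w : ℂ} (hw : |w.im| < H) :
    (cl (w.re - t) : ℂ) - (1 / (2 * Real.pi) : ℂ) * ∫ ω in Qr t H, (1 : ℂ) / (w - ω) =
      1 - (Complex.I / (2 * Real.pi)) * ∫ τ in (t - 1 / 2)..(t + 1 / 2),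
        (Complex.log (w - τ - H * Complex.I) - Complex.log (w - τ + H * Complex.I)) := by
  rw [Qr_fubini _ (inv_intC t H w)]
  have h1 : ∀ᵐ τ : ℝ ∂(volume.restrict (Ioo (t - 1 / 2) (t + 1 / 2))),
      (∫ η in Ioo (-H) H, (1 : ℂ) / (w - (τ + η * Complex.I))) =
      Complex.I * (Complex.log (w - τ - H * Complex.I) - Complex.log (w - τ + H * Complex.I)) -
        (if w.re < τ then (2 * Real.pi : ℂ) else 0) := by
    have h2 : ∀ᵐ τ : ℝ ∂(volume.restrict (Ioo (t - 1 / 2) (t + 1 / 2))), τ ≠ w.re := by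
      refine ae_restrict_of_ae ?_
      rw [ae_iff]
      simp
    filter_upwards [h2] with τ hτ
    rw [← integral_Ioc_eq_integral_Ioo, ← intervalIntegral.integral_of_le (by linarith)]
    rcases lt_or_gt_of_ne hτ with h | h
    · rw [inner_pos h, if_neg (by linarith), sub_zero]
    · rw [inner_neg hw h, if_pos h]
  rw [integral_congr_ae h1, integral_sub, integral_const_mul, cl_int,
    ← integral_Ioc_eq_integral_Ioo, ← intervalIntegral.integral_of_le (by linarith)]
  · have hpi : (Real.pi : ℂ) ≠ 0 := Complex.ofReal_ne_zero.2 Real.pi_ne_zero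
    push_cast
    field_simp
    ring
  · rw [← IntegrableOn, ← integrableOn_Ioc_iff_integrableOn_Ioo]
    exact (((log_cont hw).const_smul Complex.I).integrableOn_Icc (a := t - 1 / 2)
      (b := t + 1 / 2)).mono_set Ioc_subset_Icc_self
  · refine Integrable.mono' (g := fun _ => 2 * Real.pi) (integrable_const _) ?_ ?_
    · exact (Measurable.ite measurableSet_Ioi measurable_const
        measurable_const).aestronglyMeasurable
    · refine Filter.Eventually.of_forall fun τ => ?_
      split_ifs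
      · rw [norm_mul, Complex.norm_ofNat, Complex.norm_real, Real.norm_of_nonneg Real.pi_pos.le]
      · rw [norm_zero]
        positivity

theorem Zn_open (t H : ℝ) : IsOpen (Zn t H) :=
  (isOpen_lt (continuous_abs.comp (Complex.continuous_re.sub continuous_const))
    continuous_const).inter
    (isOpen_lt (continuous_abs.comp Complex.continuous_im) continuous_const)

theorem Qr_Zn (t H : ℝ) : Qr t H ⊆ Zn t H := fun _ h => ⟨by linarith [h.1], h.2⟩

/-- The right side of `Phi_eq` is analytic. -/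
theorem Phi_diff {t H : ℝ} {w₀ : ℂ} {r : ℝ} (hr : 0 < r)
    (hb : closedBall w₀ (3 * r) ⊆ {w | |w.im| < H}) :
    DifferentiableAt ℂ (fun w : ℂ => 1 - (Complex.I / (2 * Real.pi)) *
      ∫ τ in (t - 1 / 2)..(t + 1 / 2),
        (Complex.log (w - τ - H * Complex.I) - Complex.log (w - τ + H * Complex.I))) w₀ := by
  refine (DifferentiableAt.const_mul ?_ _).const_sub _
  simp only [intervalIntegral.integral_of_le (show t - 1 / 2 ≤ t + 1 / 2 by linarith)]
  have hc : ContinuousOn (fun p : ℂ × ℝ => Complex.log (p.1 - p.2 - H * Complex.I) -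
      Complex.log (p.1 - p.2 + H * Complex.I)) (closedBall w₀ (3 * r) ×ˢ
        Icc (t - 1 / 2) (t + 1 / 2)) := by
    refine ContinuousOn.sub ?_ ?_
    · refine ContinuousOn.clog (by fun_prop) fun p hp => slit_minus (hb hp.1) _
    · refine ContinuousOn.clog (by fun_prop) fun p hp => slit_plus (hb hp.1) _
  obtain ⟨M, hM⟩ := ((isCompact_closedBall w₀ (3 * r)).prod isCompact_Icc).exists_bound_of_continuousOn
    hc
  have hsub : ball w₀ (3 * r) ⊆ closedBall w₀ (3 * r) := ball_subset_closedBall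
  refine param_int (M := M) hr ?_ ?_ ?_
  · intro z hz
    exact (log_cont (hb (hsub hz))).aestronglyMeasurable
  · refine Filter.Eventually.of_forall fun τ z hz => ?_
    refine DifferentiableAt.differentiableWithinAt ?_
    refine DifferentiableAt.sub ?_ ?_
    · exact DifferentiableAt.clog (by fun_prop) (slit_minus (hb (hsub hz)) _)
    · exact DifferentiableAt.clog (by fun_prop) (slit_plus (hb (hsub hz)) _)
  · refine ae_restrict_of_forall_mem measurableSet_Ioc fun τ hτ z hz => ?_
    exact hM (z, τ) ⟨hsub hz, ⟨hτ.1.le, hτ.2⟩⟩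

theorem split {t H B : ℝ} {J : ℂ → ℂ} (h0 : 0 < H) (hH : H ≤ Real.pi / 2)
    (hJ : DifferentiableOn ℂ J (Zn t H)) (hB : ∀ ω ∈ Zn t H, ‖J ω‖ ≤ B) :
    DifferentiableOn ℂ (fun w => (cl (w.re - t) : ℂ) * J w + E1 t H J w) (Zn t H) := by
  intro w₀ hw₀
  obtain ⟨r₀, hr₀, hball⟩ := Metric.isOpen_iff.1 (Zn_open t H) w₀ hw₀
  obtain ⟨r, hr, hr8⟩ : ∃ r : ℝ, 0 < r ∧ 8 * r = r₀ := ⟨r₀ / 8, by linarith, by ring⟩
  have hB0 : 0 ≤ B := (norm_nonneg _).trans (hB w₀ hw₀)
  have hfin : IsFiniteMeasure (volume.restrict (Qr t H)) := ⟨by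
    rw [Measure.restrict_apply_univ]; exact Qr_fin t H⟩
  have hJc : ContinuousOn J (Qr t H) := (hJ.mono (Qr_Zn t H)).continuousOn
  have hBQ : ∀ ω ∈ Qr t H, ‖J ω‖ ≤ B := fun ω hω => hB ω (Qr_Zn t H hω)
  have hsub3 : ball w₀ (3 * r) ⊆ Zn t H := (ball_subset_ball (by linarith)).trans hball
  have hsub6 : ball w₀ (6 * r) ⊆ Zn t H := (ball_subset_ball (by linarith)).trans hball
  have hexp : ∀ u ∈ Zn t H, ∀ ω ∈ Qr t H,
      ‖Complex.exp (-(u - ω) ^ 2)‖ ≤ Real.exp ((2 * H) ^ 2) := by
    intro u hu ω hω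
    have h1 : |(u - ω).im| ≤ 2 * H := by
      rw [Complex.sub_im]
      have h2 := hω.2
      have h3 := hu.2
      have h4 := abs_sub u.im ω.im
      linarith
    refine (gauss_le h1).trans ?_
    have h2 : Real.exp (-((u - ω).re) ^ 2) ≤ 1 :=
      Real.exp_le_one_iff.2 (by nlinarith [sq_nonneg (u - ω).re])
    exact mul_le_of_le_one_right (Real.exp_pos _).le h2
  set N : ℂ → ℂ → ℂ := fun ω u => J ω * Complex.exp (-(u - ω) ^ 2) - J u with hN
  have hNd : ∀ ω : ℂ, DifferentiableOn ℂ (N ω) (Zn t H) := by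
    intro ω
    refine DifferentiableOn.sub ?_ hJ
    refine Differentiable.differentiableOn ?_
    exact ((((differentiable_id.sub_const ω).pow 2).neg).cexp).const_mul (J ω)
  have hNz : ∀ ω : ℂ, N ω ω = 0 := by
    intro ω
    simp [hN]
  have hNb : ∀ ω ∈ Qr t H, ∀ u ∈ Zn t H, ‖N ω u‖ ≤ B * Real.exp ((2 * H) ^ 2) + B := by
    intro ω hω u hu
    refine (norm_sub_le _ _).trans (add_le_add ?_ (hB u hu))
    rw [norm_mul]
    exact mul_le_mul (hBQ ω hω) (hexp u hu ω hω) (norm_nonneg _) hB0
  have hds : ∀ ω u : ℂ, u ≠ ω → dslope (N ω) ω u = (u - ω)⁻¹ * N ω u := by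
    intro ω u hne
    rw [dslope_of_ne _ hne, slope_def_field, hNz, sub_zero, div_eq_inv_mul]
  have hgd : ∀ ω ∈ Qr t H, DifferentiableOn ℂ (dslope (N ω) ω) (Zn t H) := by
    intro ω hω
    exact (Complex.differentiableOn_dslope ((Zn_open t H).mem_nhds (Qr_Zn t H hω))).2 (hNd ω)
  set M : ℝ := r⁻¹ * (B * Real.exp ((2 * H) ^ 2) + B) with hMdef
  have hfar : ∀ ω ∈ Qr t H, ∀ u ∈ Zn t H, r ≤ ‖u - ω‖ → ‖dslope (N ω) ω u‖ ≤ M := by
    intro ω hω u hu hru
    have hne : u ≠ ω := by
      rintro rfl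
      rw [sub_self, norm_zero] at hru
      linarith
    rw [hds ω u hne, norm_mul, norm_inv]
    exact mul_le_mul (inv_anti₀ hr hru) (hNb ω hω u hu) (norm_nonneg _) (inv_nonneg.2 hr.le)
  have hgb : ∀ ω ∈ Qr t H, ∀ z ∈ ball w₀ (3 * r), ‖dslope (N ω) ω z‖ ≤ M := by
    intro ω hω z hz
    rcases le_or_gt r ‖z - ω‖ with h | h
    · exact hfar ω hω z (hsub3 hz) h
    · have hcl : closedBall ω r ⊆ Zn t H := by
        refine Subset.trans ?_ hsub6
        intro u hu
        rw [mem_closedBall] at hu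
        rw [mem_ball] at hz ⊢
        rw [← dist_eq_norm, dist_comm] at h
        have h1 := dist_triangle u ω z
        have h2 := dist_triangle u z w₀
        linarith
      refine Complex.norm_le_of_forall_mem_frontier_norm_le (U := ball ω r) isBounded_ball
        (((hgd ω hω).mono hcl).diffContOnCl_ball subset_rfl) ?_ ?_
      · intro u hu
        rw [frontier_ball ω hr.ne'] at hu
        refine hfar ω hω u (hcl (sphere_subset_closedBall hu)) ?_
        rw [mem_sphere, dist_eq_norm] at hu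
        exact hu.ge
      · rw [closure_ball ω hr.ne', mem_closedBall, dist_eq_norm]
        exact h.le
  have hae : ∀ z : ℂ, ∀ᵐ ω ∂(volume.restrict (Qr t H)), dslope (N ω) ω z =
      J ω * Complex.exp (-(z - ω) ^ 2) / (z - ω) - J z * (1 / (z - ω)) := by
    intro z
    have h2 : ∀ᵐ ω : ℂ ∂(volume.restrict (Qr t H)), ω ≠ z := by
      refine ae_restrict_of_ae ?_
      rw [ae_iff]
      simp
    filter_upwards [h2] with ω hω
    rw [hds ω z hω.symm]
    simp only [hN]
    ring
  have hgi : ∀ z : ℂ, IntegrableOn (fun ω => J ω * Complex.exp (-(z - ω) ^ 2) / (z - ω) -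
      J z * (1 / (z - ω))) (Qr t H) := fun z =>
    (E1_int hJc hBQ z).sub ((inv_intC t H z).const_mul _)
  have hgm : ∀ z : ℂ, AEStronglyMeasurable (fun ω => dslope (N ω) ω z)
      (volume.restrict (Qr t H)) := fun z =>
    ((hgi z).aestronglyMeasurable).congr (by
      filter_upwards [hae z] with ω hω using hω.symm)
  have key1 : DifferentiableAt ℂ (fun z => ∫ ω in Qr t H, dslope (N ω) ω z) w₀ := by
    refine param_int (M := M) hr (fun z _ => hgm z) ?_ ?_
    · exact ae_restrict_of_forall_mem (Qr_meas t H) fun ω hω => (hgd ω hω).mono hsub3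
    · exact ae_restrict_of_forall_mem (Qr_meas t H) fun ω hω => hgb ω hω
  have key2 := Phi_diff (t := t) (H := H) (w₀ := w₀) hr (fun z hz =>
    (hball (show z ∈ ball w₀ r₀ by
      rw [mem_closedBall] at hz; rw [mem_ball]; linarith)).2)
  have key3 : DifferentiableAt ℂ J w₀ := hJ.differentiableAt ((Zn_open t H).mem_nhds hw₀)
  have key4 := (key1.const_mul (-(1 / (2 * Real.pi) : ℂ))).add (key3.mul key2)
  refine DifferentiableAt.differentiableWithinAt (key4.congr_of_eventuallyEq ?_)
  filter_upwards [(Zn_open t H).mem_nhds hw₀] with z hz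
  simp only [Pi.add_apply, Pi.mul_apply]
  rw [← Phi_eq h0 hz.2, integral_congr_ae (hae z), integral_sub (E1_int hJc hBQ z)
    ((inv_intC t H z).const_mul _), integral_const_mul]
  unfold E1
  ring

end MQV
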