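import Pool.Agent.MQV.Bnd
import Pool.Agent.MQV.Core

set_option autoImplicit false

/-!
# MQV SUR : the surgery theorem

Choose `e`, `a` small (depending on `p, ε, K`), `r` from `prep_exists`, `h, δ, κ` from `core`, `T₀`
from `prep_exists`.  `F₀ = F ∘ om a (a e^{-T})`, `G` from `core`.
Inner: `ζ ∈ Bz 0` (`|Re ζ| ≤ 1.1`, `|Im ζ| ≤ 1`), `G ζ = F₀ w = F (om w)`, `‖w - ζ‖ ≤ e^{-(t-1.1)/2}`,
`‖om w - w‖ ≤ C a e^{1.2}+…` (`om_close`), and `|F'| ≤ C` on `{|Re| ≤ 2, |Im| ≤ 1.2}` (`growth` and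
Cauchy), so `‖G ζ - F ζ‖ ≤ ε`.
Outer: `|Re ζ - T| ≤ K`, `|Im ζ| ≤ π/2 - 1/K`: `G (ζ+s) = e^{2ps} F (om w)`, `‖w - ζ‖ ≤ 10 e`,
`‖om w - w‖ ≤ C a e^{K+1}+…`; `|F| ≤ C(K) e^{2pT}` and `|F'| ≤ C(K) e^{2pT}` near such points.
-/

open MeasureTheory Metric Set

namespace MQV

/-- bound and Lipschitz bound at depth `y` -/
theorem sur_lip {p : ℝ} (hp : 0 < p) {y : ℝ} (hy : 0 < y) (hy1 : y ≤ 1) : ∃ C : ℝ, 1 ≤ C ∧
    ∀ F : ℂ → ℂ, MV Str p F → (∀ ζ ∈ Bz 0, ‖F ζ‖ ≤ 1) → ∀ ζ w : ℂ, |ζ.im| ≤ Real.pi / 2 - y →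
      ‖w - ζ‖ < y / 4 → ‖F w - F ζ‖ ≤ C * Real.exp (2 * p * |ζ.re|) * ‖w - ζ‖ := by
  obtain ⟨C, hC, hg⟩ := growth hp
  have hpi := Real.pi_pos
  have hpi3 := Real.pi_gt_three
  refine ⟨4 / y * (C * (Real.exp 1 * Real.pi / y) ^ (2 * p)), ?_, ?_⟩
  · have h1 : 1 ≤ Real.exp 1 * Real.pi / y := by
      rw [le_div_iff₀ hy]
      nlinarith [Real.add_one_le_exp (1 : ℝ)]
    have h2 : 1 ≤ (Real.exp 1 * Real.pi / y) ^ (2 * p) := Real.one_le_rpow h1 (by positivity)
    have h3 : 1 ≤ 4 / y := by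
      rw [le_div_iff₀ hy]
      linarith
    nlinarith [mul_le_mul hC h2 zero_le_one (by linarith)]
  intro F hF hF0 ζ w hζ hw
  set B : ℝ := C * (Real.exp 1 * Real.pi / y) ^ (2 * p) * Real.exp (2 * p * |ζ.re|) with hB
  have hBpos : 0 ≤ B := by positivity
  have hbd : ∀ z : ℂ, ‖z - ζ‖ ≤ y / 2 → z ∈ Str ∧ ‖F z‖ ≤ B := by
    intro z hz
    have him : |z.im - ζ.im| ≤ y / 2 := by
      have := Complex.abs_im_le_norm (z - ζ)
      rw [Complex.sub_im] at this
      linarith
    have hre : |z.re - ζ.re| ≤ y / 2 := by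
      have := Complex.abs_re_le_norm (z - ζ)
      rw [Complex.sub_re] at this
      linarith
    have him2 : |z.im| ≤ Real.pi / 2 - y / 2 := by
      have := abs_sub_abs_le_abs_sub z.im ζ.im
      linarith
    have hre2 : |z.re| ≤ |ζ.re| + 1 := by
      have := abs_sub_abs_le_abs_sub z.re ζ.re
      linarith
    have hzS : z ∈ Str := by
      show |z.im| < Real.pi / 2
      linarith
    have hcos : y / Real.pi ≤ Real.cos z.im := by
      have h1 := Real.one_sub_mul_le_cos (x := |z.im|) (abs_nonneg _) (by linarith)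
      rw [Real.cos_abs] at h1
      refine le_trans ?_ h1
      have : 2 / Real.pi * |z.im| ≤ 2 / Real.pi * (Real.pi / 2 - y / 2) :=
        mul_le_mul_of_nonneg_left him2 (by positivity)
      have h2 : 2 / Real.pi * (Real.pi / 2 - y / 2) = 1 - y / Real.pi := by
        field_simp
      linarith
    have hcos0 : 0 < Real.cos z.im := lt_of_lt_of_le (by positivity) hcos
    refine ⟨hzS, ?_⟩
    have h3 := hg F hF 0 1 one_pos hF0 z hzS
    refine h3.trans ?_
    rw [mul_one, sub_zero, hB, mul_assoc]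
    refine mul_le_mul_of_nonneg_left ?_ (by linarith)
    rw [show Real.exp (2 * p * |ζ.re|) = (Real.exp |ζ.re|) ^ (2 * p) by
      rw [← Real.exp_mul]; ring_nf, ← Real.mul_rpow (by positivity) (by positivity)]
    refine Real.rpow_le_rpow (by positivity) ?_ (by positivity)
    rw [div_le_iff₀ hcos0]
    have h4 : Real.exp |z.re| ≤ Real.exp 1 * Real.exp |ζ.re| := by
      rw [← Real.exp_add]
      exact Real.exp_le_exp.2 (by linarith)
    have h5 : Real.exp 1 * Real.pi / y * Real.exp |ζ.re| * (y / Real.pi) =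
        Real.exp 1 * Real.exp |ζ.re| := by
      field_simp
    calc Real.exp |z.re| ≤ Real.exp 1 * Real.exp |ζ.re| := h4
      _ = Real.exp 1 * Real.pi / y * Real.exp |ζ.re| * (y / Real.pi) := h5.symm
      _ ≤ _ := mul_le_mul_of_nonneg_left hcos (by positivity)
  have hball : ∀ z ∈ ball ζ (y / 4), ‖deriv F z‖ ≤ B / (y / 4) := by
    intro z hz
    rw [mem_ball, dist_eq_norm] at hz
    have hsub : closedBall z (y / 4) ⊆ Str := by
      intro u hu
      rw [mem_closedBall, dist_eq_norm] at hu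
      refine (hbd u ?_).1
      calc ‖u - ζ‖ = ‖(u - z) + (z - ζ)‖ := by ring_nf
        _ ≤ _ := norm_add_le _ _
        _ ≤ y / 2 := by linarith
    refine Complex.norm_deriv_le_of_forall_mem_sphere_norm_le (by positivity)
      ((hF.diff.mono hsub).diffContOnCl_ball subset_rfl) ?_
    intro u hu
    rw [mem_sphere, dist_eq_norm] at hu
    refine (hbd u ?_).2
    calc ‖u - ζ‖ = ‖(u - z) + (z - ζ)‖ := by ring_nf
      _ ≤ _ := norm_add_le _ _
      _ ≤ y / 2 := by linarith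
  have hdiff : ∀ z ∈ ball ζ (y / 4), DifferentiableAt ℂ F z := by
    intro z hz
    rw [mem_ball, dist_eq_norm] at hz
    exact (hF.diff z (hbd z (by linarith)).1).differentiableAt
      (isOpen_Str.mem_nhds (hbd z (by linarith)).1)
  have hfin := (convex_ball ζ (y / 4)).norm_image_sub_le_of_norm_deriv_le hdiff hball
    (mem_ball_self (by positivity)) (by rw [mem_ball, dist_eq_norm]; exact hw : w ∈ ball ζ (y / 4))
  refine hfin.trans (le_of_eq ?_)
  rw [hB]
  field_simp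

theorem surgery {p c ε K : ℝ} (hp : 0 < p) (hc : 0 < c) (hε : 0 < ε) (hK : 1 ≤ K) : ∃ T₀ : ℝ,
    ∀ T : ℝ, T₀ ≤ T → ∀ F : ℂ → ℂ, MV Str p F → (∀ ζ ∈ Bz 0, ‖F ζ‖ ≤ 1) →
      (∃ ζ ∈ Bz T, c * Real.exp (2 * p * T) ≤ ‖F ζ‖) → ∀ s : ℝ, 10 ≤ s →
      ∃ G : ℂ → ℂ, MV Str p G ∧ (∀ ζ ∈ Bz 0, ‖G ζ - F ζ‖ ≤ ε) ∧
        ∀ ζ : ℂ, |ζ.re - T| ≤ K → |ζ.im| ≤ Real.pi / 2 - 1 / K →
          ‖G (ζ + s) - Real.exp (2 * p * s) * F ζ‖ ≤ ε * Real.exp (2 * p * (T + s)) := by
  have hK0 : 0 < K := by linarith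
  obtain ⟨C₁, hC₁, hL₁⟩ := sur_lip hp (y := 1 / 2) (by norm_num) (by norm_num)
  obtain ⟨C₂, hC₂, hL₂⟩ := sur_lip hp (y := 1 / K) (by positivity)
    (by rw [div_le_one hK0]; exact hK)
  obtain ⟨C, hC, hom⟩ := om_close
  have hC0 : 0 < C := by linarith
  have hC₁0 : 0 < C₁ := by linarith
  have hC₂0 : 0 < C₂ := by linarith
  set η : ℝ := min (min (1 / 10) (1 / (5 * K)))
    (min (ε * Real.exp (-(2 * p * (11 / 10))) / C₁) (ε * Real.exp (-(2 * p * K)) / C₂)) with hη
  have hη0 : 0 < η := by rw [hη]; positivity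
  have hη1 : η ≤ 1 / 10 := (min_le_left _ _).trans (min_le_left _ _)
  have hη2 : η ≤ 1 / (5 * K) := (min_le_left _ _).trans (min_le_right _ _)
  have hη3 : η ≤ ε * Real.exp (-(2 * p * (11 / 10))) / C₁ :=
    (min_le_right _ _).trans (min_le_left _ _)
  have hη4 : η ≤ ε * Real.exp (-(2 * p * K)) / C₂ := (min_le_right _ _).trans (min_le_right _ _)
  set e : ℝ := η / 20 with he
  have he0 : 0 < e := by positivity
  have he1 : e ≤ 1 / 100 := by rw [he]; linarith
  set a : ℝ := η * Real.exp (-(K + 2)) / (4 * C) with ha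
  have ha0 : 0 < a := by positivity
  have hae : a * Real.exp (K + 2) = η / (4 * C) := by
    rw [ha, Real.exp_neg]
    field_simp
  have hae1 : a * Real.exp (K + 2) ≤ 1 / 4 := by
    rw [hae, div_le_div_iff₀ (by positivity) (by norm_num)]
    nlinarith
  have hae2 : 2 * C * (a * Real.exp (K + 2)) = η / 2 := by
    rw [hae]
    field_simp
    ring
  have ha1 : a ≤ 1 := by
    have : 1 ≤ Real.exp (K + 2) := Real.one_le_exp (by linarith)
    nlinarith
  obtain ⟨r, hr, hprep⟩ := prep_exists hp hc he0 he1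
  obtain ⟨h, δ, κ, hh, hδ, hκ, hcore⟩ := core hp he0 he1 hr
  obtain ⟨T₁, hT₁⟩ := hprep a h δ κ ha0 ha1 hh hδ hκ
  refine ⟨max T₁ (max (3 * (K + 3)) (6 * Real.log (2 / η) + 4)), ?_⟩
  intro T hT F hF hF0 hFT s hs
  have hTa : T₁ ≤ T := (le_max_left _ _).trans hT
  have hTb : 3 * (K + 3) ≤ T := ((le_max_left _ _).trans (le_max_right _ _)).trans hT
  have hTc : 6 * Real.log (2 / η) + 4 ≤ T := ((le_max_right _ _).trans (le_max_right _ _)).trans hT
  obtain ⟨t, A, ht1, ht2, hP⟩ := hT₁ T hTa F hF hF0 hFT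
  obtain ⟨G, hG, hGin, hGout⟩ := hcore _ t A hP s hs
  have hb0 : 0 < a * Real.exp (-T) := by positivity
  refine ⟨G, hG, ?_, ?_⟩
  · intro ζ hζ
    obtain ⟨hζ1, hζ2⟩ := Bz_near hζ
    rw [sub_zero] at hζ1
    have hζ3 := abs_le.1 hζ1
    have hζS : ζ ∈ Str := hζ.1
    obtain ⟨w, hwS, hw, hGw⟩ := hGin ζ hζS (by linarith)
    have hexp : Real.exp (-(t - ζ.re) / 2) ≤ η / 2 := by
      rw [← Real.le_log_iff_exp_le (by positivity)]
      have : Real.log (η / 2) = -Real.log (2 / η) := by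
        rw [← Real.log_inv]
        congr 1
        field_simp
      rw [this]
      linarith
    have hw2 : ‖w - ζ‖ ≤ η / 2 := hw.trans hexp
    have hwre : |w.re - ζ.re| ≤ η / 2 := by
      have := Complex.abs_re_le_norm (w - ζ)
      rw [Complex.sub_re] at this
      linarith
    have hwre2 := abs_le.1 hwre
    have e1 : a * Real.exp (-w.re) ≤ a * Real.exp (K + 2) :=
      mul_le_mul_of_nonneg_left (Real.exp_le_exp.2 (by linarith)) ha0.le
    have e2 : a * Real.exp (-T) * Real.exp w.re ≤ a * Real.exp (K + 2) := by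
      rw [mul_assoc, ← Real.exp_add]
      exact mul_le_mul_of_nonneg_left (Real.exp_le_exp.2 (by linarith)) ha0.le
    have hom1 := hom a _ ha0 hb0 w hwS (e1.trans hae1) (e2.trans hae1)
    have hom2 : ‖om a (a * Real.exp (-T)) w - w‖ ≤ η / 2 := by
      refine hom1.trans ?_
      rw [← hae2]
      nlinarith
    have htot : ‖om a (a * Real.exp (-T)) w - ζ‖ ≤ η := by
      calc ‖om a (a * Real.exp (-T)) w - ζ‖
          = ‖(om a (a * Real.exp (-T)) w - w) + (w - ζ)‖ := by ring_nf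
        _ ≤ _ := norm_add_le _ _
        _ ≤ η := by linarith
    have hpi3 := Real.pi_gt_three
    have := hL₁ F hF hF0 ζ (om a (a * Real.exp (-T)) w) (by linarith)
      (by linarith : _ < (1 / 2 : ℝ) / 4)
    rw [hGw]
    refine this.trans ?_
    calc C₁ * Real.exp (2 * p * |ζ.re|) * ‖om a (a * Real.exp (-T)) w - ζ‖
        ≤ C₁ * Real.exp (2 * p * (11 / 10)) * (ε * Real.exp (-(2 * p * (11 / 10))) / C₁) := by
          have h1 : Real.exp (2 * p * |ζ.re|) ≤ Real.exp (2 * p * (11 / 10)) :=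
            Real.exp_le_exp.2 (mul_le_mul_of_nonneg_left hζ1 (by positivity))
          have h2 := htot.trans hη3
          gcongr
      _ = ε := by
          rw [Real.exp_neg]
          field_simp
  · intro ζ hζ1 hζ2
    have hK5 : (1 : ℝ) / (5 * K) ≤ 1 / 5 := by
      rw [div_le_div_iff₀ (by positivity) (by norm_num)]
      linarith
    have hKp : 0 < 1 / K := by positivity
    have hζS : ζ ∈ Str := by
      show |ζ.im| < Real.pi / 2
      linarith
    have hζ3 := abs_le.1 hζ1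
    have hζsS : ζ + s ∈ Str := (Str_add_real s).2 hζS
    obtain ⟨w, hwS, hw, hGw⟩ := hGout (ζ + s) hζsS (by
      rw [Complex.add_re, Complex.ofReal_re]
      linarith)
    rw [add_sub_cancel_right] at hw
    have hw2 : ‖w - ζ‖ ≤ η / 2 := by
      rw [he] at hw
      linarith
    have hwre : |w.re - ζ.re| ≤ η / 2 := by
      have := Complex.abs_re_le_norm (w - ζ)
      rw [Complex.sub_re] at this
      linarith
    have hwre2 := abs_le.1 hwre
    have e1 : a * Real.exp (-w.re) ≤ a * Real.exp (K + 2) :=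
      mul_le_mul_of_nonneg_left (Real.exp_le_exp.2 (by linarith)) ha0.le
    have e2 : a * Real.exp (-T) * Real.exp w.re ≤ a * Real.exp (K + 2) := by
      rw [mul_assoc, ← Real.exp_add]
      exact mul_le_mul_of_nonneg_left (Real.exp_le_exp.2 (by linarith)) ha0.le
    have hom1 := hom a _ ha0 hb0 w hwS (e1.trans hae1) (e2.trans hae1)
    have hom2 : ‖om a (a * Real.exp (-T)) w - w‖ ≤ η / 2 := by
      refine hom1.trans ?_
      rw [← hae2]
      nlinarith
    have htot : ‖om a (a * Real.exp (-T)) w - ζ‖ ≤ η := by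
      calc ‖om a (a * Real.exp (-T)) w - ζ‖
          = ‖(om a (a * Real.exp (-T)) w - w) + (w - ζ)‖ := by ring_nf
        _ ≤ _ := norm_add_le _ _
        _ ≤ η := by linarith
    have h5K : (1 : ℝ) / (5 * K) < 1 / K / 4 := by
      rw [div_div, div_lt_div_iff₀ (by positivity) (by positivity)]
      linarith
    have := hL₂ F hF hF0 ζ (om a (a * Real.exp (-T)) w) hζ2 (by linarith)
    rw [hGw, ← mul_sub, norm_mul, Complex.norm_real, Real.norm_of_nonneg (Real.exp_pos _).le,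
      show 2 * p * (T + s) = 2 * p * s + 2 * p * T by ring, Real.exp_add]
    have habs : |ζ.re| ≤ T + K := by
      rw [abs_le]
      constructor <;> linarith
    calc Real.exp (2 * p * s) * ‖F (om a (a * Real.exp (-T)) w) - F ζ‖
        ≤ Real.exp (2 * p * s) * (C₂ * Real.exp (2 * p * (T + K)) *
            (ε * Real.exp (-(2 * p * K)) / C₂)) := by
          refine mul_le_mul_of_nonneg_left (this.trans ?_) (Real.exp_pos _).le
          have h1 : Real.exp (2 * p * |ζ.re|) ≤ Real.exp (2 * p * (T + K)) :=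
            Real.exp_le_exp.2 (mul_le_mul_of_nonneg_left habs (by positivity))
          have h2 := htot.trans hη4
          gcongr
      _ = ε * (Real.exp (2 * p * s) * Real.exp (2 * p * T)) := by
          rw [show 2 * p * (T + K) = 2 * p * T + 2 * p * K by ring, Real.exp_add, Real.exp_neg]
          field_simp

end MQV
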