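import Pool.Agent.MQV.Sur
import Pool.Agent.MQV.Cdf
import Pool.Agent.MQV.Cvt

set_option autoImplicit false

/-!
# MQV TRA : transplantation of a peak from scale `1/n` to scale `1/m`

PROOF.  `K' = 4K+4`, `C_L` of `sur_lip` with `y = 1/K'`.  `ε₂ > 0` with `2ε₂ < 1/(4K')` (so also
`ε₂ ≤ 1/(4K+4)`) and `2ε₂ C_L e^{2pK'} 2^(2p) ≤ ε/2`; `n₁` of `lg_exp` (`K`, `ε₂`).
`surgery` with `c = δ/2^(2p)`, `ε_s = min ε (ε/(2·2^(2p)))`, `K'`: `T₀`.  `n₀ ≥ n₁` with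
`log (2n₀) ≥ T₀`.
`T = log (2n) ≥ T₀` (`≥ 0`), `e^{2pT} = (2n)^(2p)`.  `F ζ = f (th ζ)`: `MV Str p F` (`MV.toStr`),
`‖F‖ ≤ 1` on `Bz 0`.  `ζ₀ = lg (e^{-x/n}) ∈ Bz T` (`lg_real_mem`), `F ζ₀ = f (e^{-x/n})` (`th_lg`,
`exp_mem`), so `‖F ζ₀‖ ≥ δ n^(2p) = c e^{2pT}`.  `s = log (m/n) ≥ 10`.  `G` from `surgery`,
`g z = G (lg z)` (`MV.toBall`).
* `‖z‖ ≤ 1/2`: `lg z ∈ Bz 0` (`lg_mapsTo`, `th_lg`), so `‖g z - f z‖ ≤ ε_s ≤ ε`.
* `w` as in the statement: `ζ_m = lg (e^{-w/m})`, `ζ_n = lg (e^{-w/n})`, `ζ = ζ_m - s`.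
  `log (2m) = T + s`, so `‖ζ - (T - log w)‖ ≤ ε₂` and `‖ζ_n - (T - log w)‖ ≤ ε₂` (`lg_exp` for `m`
  and `n`; `m ≥ n`); `cvt_pos`: `|Re ζ - T| ≤ K'`, `|Im ζ| ≤ π/2 - 1/K'`.
  `gs g m w = G (ζ + s)`, `gs f n w = F ζ_n`, `e^{2ps} = (m/n)^(2p)`, `e^{2p(T+s)} = (2m)^(2p)`:
  `‖gs g m w - (m/n)^(2p) gs f n w‖ ≤ ‖G (ζ+s) - e^{2ps} F ζ‖ + e^{2ps} ‖F ζ - F ζ_n‖
    ≤ ε_s (2m)^(2p) + e^{2ps} C_L e^{2p(T+K')} 2ε₂ ≤ ε m^(2p)` (`sur_lip`).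
-/

open MeasureTheory Metric Set

namespace MQV

theorem trn_close {p : ℝ} (hp : 0 < p) {δ ε K : ℝ} (hδ : 0 < δ) (hε : 0 < ε) (hK : 1 ≤ K) :
    ∃ n₀ : ℕ, 1 ≤ n₀ ∧ ∀ f : ℂ → ℂ, Nd p f → ∀ n m : ℕ, n₀ ≤ n → Real.exp 10 * n ≤ m →
      (∃ x : ℝ, 1 ≤ x ∧ x ≤ 2 ∧ δ * (n : ℝ) ^ (2 * p) ≤ ‖gs f n x‖) →
      ∃ g : ℂ → ℂ, MV (ball 0 1) p g ∧ (∀ z : ℂ, ‖z‖ ≤ 1 / 2 → ‖g z - f z‖ ≤ ε) ∧
        ∀ w : ℂ, 1 ≤ w.re → w.re ≤ 2 → |w.im| ≤ K →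
          ‖gs g m w - ((((m : ℝ) / n) ^ (2 * p) : ℝ) : ℂ) * gs f n w‖ ≤
            ε * (m : ℝ) ^ (2 * p) := by
  have hK4 : (8 : ℝ) ≤ 4 * K + 4 := by linarith
  have hK0 : (0 : ℝ) < 4 * K + 4 := by linarith
  obtain ⟨CL, hCL, hlip⟩ := sur_lip hp (y := 1 / (4 * K + 4)) (by positivity)
    (by rw [div_le_one hK0]; linarith)
  have hCL0 : 0 < CL := by linarith
  obtain ⟨P, hP⟩ : ∃ P : ℝ, P = (2 : ℝ) ^ (2 * p) := ⟨_, rfl⟩
  have hP1 : 1 ≤ P := by rw [hP]; exact Real.one_le_rpow (by norm_num) (by positivity)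
  have hP0 : 0 < P := by linarith
  obtain ⟨E, hE⟩ : ∃ E : ℝ, E = Real.exp (2 * p * (4 * K + 4)) := ⟨_, rfl⟩
  have hE0 : 0 < E := by rw [hE]; exact Real.exp_pos _
  -- the error `ε₂`
  obtain ⟨e2, he2⟩ : ∃ e2 : ℝ, e2 = min (1 / (16 * (4 * K + 4))) (ε / (4 * (CL * E * P))) :=
    ⟨_, rfl⟩
  have he20 : 0 < e2 := by rw [he2]; positivity
  have he2a : e2 ≤ 1 / (16 * (4 * K + 4)) := by rw [he2]; exact min_le_left _ _
  have he2b : e2 ≤ ε / (4 * (CL * E * P)) := by rw [he2]; exact min_le_right _ _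
  have he2c : 2 * e2 < 1 / (4 * K + 4) / 4 := by
    have h1 : 1 / (16 * (4 * K + 4)) = 1 / (4 * K + 4) / 16 := by
      rw [div_div]; ring_nf
    have h2 : 0 < 1 / (4 * K + 4) := by positivity
    rw [h1] at he2a
    linarith
  have he2d : e2 ≤ 1 / (4 * K + 4) := by
    have h2 : 0 < 1 / (4 * K + 4) := by positivity
    linarith
  have he2e : CL * E * P * (2 * e2) ≤ ε / 2 := by
    have h1 : 0 < 4 * (CL * E * P) := by positivity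
    rw [le_div_iff₀ h1] at he2b
    linarith
  obtain ⟨n₁, hn₁, hlg⟩ := lg_exp (K := K) (ε := e2) (by linarith) he20
  have hes : 0 < ε / (2 * P) := by positivity
  obtain ⟨T₀, hT₀⟩ := surgery (p := p) (c := δ / P) (ε := ε / (2 * P)) (K := 4 * K + 4) hp
    (by positivity) hes (by linarith)
  refine ⟨max n₁ (⌈Real.exp T₀⌉₊ + 1), le_max_of_le_left hn₁, ?_⟩
  intro f hf n m hn hm hx
  have hnn1 : n₁ ≤ n := (le_max_left _ _).trans hn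
  have hnn2 : ⌈Real.exp T₀⌉₊ + 1 ≤ n := (le_max_right _ _).trans hn
  have hn1 : 1 ≤ n := hn₁.trans hnn1
  have hnR : (1 : ℝ) ≤ n := by exact_mod_cast hn1
  have hn0 : (0 : ℝ) < n := by linarith
  have hexp1 : (1 : ℝ) ≤ Real.exp 10 := Real.one_le_exp (by norm_num)
  have hmn : (n : ℝ) ≤ m := by nlinarith
  have hmnN : n ≤ m := by exact_mod_cast hmn
  have hm0 : (0 : ℝ) < m := by linarith
  have hm1 : 1 ≤ m := hn1.trans hmnN
  obtain ⟨T, hT⟩ : ∃ T : ℝ, T = Real.log (2 * n) := ⟨_, rfl⟩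
  have h2n : (0 : ℝ) < 2 * n := by linarith
  have hTT : T₀ ≤ T := by
    rw [hT, Real.le_log_iff_exp_le h2n]
    have h1 := Nat.le_ceil (Real.exp T₀)
    have h2 : ((⌈Real.exp T₀⌉₊ : ℕ) : ℝ) + 1 ≤ n := by exact_mod_cast hnn2
    linarith
  have hT0 : 0 ≤ T := by rw [hT]; exact Real.log_nonneg (by linarith)
  have hexpT : Real.exp (2 * p * T) = P * (n : ℝ) ^ (2 * p) := by
    rw [hP, ← Real.mul_rpow (by norm_num) hn0.le, Real.rpow_def_of_pos h2n, hT]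
    ring_nf
  obtain ⟨s, hs⟩ : ∃ s : ℝ, s = Real.log ((m : ℝ) / n) := ⟨_, rfl⟩
  have hmn0 : (0 : ℝ) < (m : ℝ) / n := by positivity
  have hs10 : 10 ≤ s := by
    rw [hs, Real.le_log_iff_exp_le hmn0, le_div_iff₀ hn0]
    exact hm
  have hexps : Real.exp (2 * p * s) = ((m : ℝ) / n) ^ (2 * p) := by
    rw [Real.rpow_def_of_pos hmn0, hs]
    ring_nf
  have hTs : Real.log (2 * m) = T + s := by
    rw [hT, hs, ← Real.log_mul h2n.ne' hmn0.ne']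
    congr 1
    field_simp
  have h2m : (0 : ℝ) < 2 * m := by linarith
  have hexpTs : Real.exp (2 * p * (T + s)) = P * (m : ℝ) ^ (2 * p) := by
    rw [hP, ← Real.mul_rpow (by norm_num) hm0.le, Real.rpow_def_of_pos h2m, hTs]
    ring_nf
  -- the function in the strip
  obtain ⟨F, hF⟩ : ∃ F : ℂ → ℂ, F = fun ζ => f (th ζ) := ⟨_, rfl⟩
  have hFa : ∀ ζ, F ζ = f (th ζ) := fun ζ => by rw [hF]
  have hFmv : MV Str p F := by rw [hF]; exact hf.mv.toStr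
  have hF1 : ∀ ζ ∈ Bz 0, ‖F ζ‖ ≤ 1 := by
    intro ζ hζ
    rw [hFa]
    refine hf.one _ ?_
    have := hζ.2
    rwa [Complex.ofReal_zero, sub_zero] at this
  have hFlg : ∀ z ∈ ball (0 : ℂ) 1, F (lg z) = f z := fun z hz => by rw [hFa, th_lg hz]
  have hFT : ∃ ζ ∈ Bz T, δ / P * Real.exp (2 * p * T) ≤ ‖F ζ‖ := by
    obtain ⟨x, hx1, hx2, hx3⟩ := hx
    refine ⟨lg (Complex.exp (-(x : ℂ) / n)), ?_, ?_⟩
    · rw [hT]; exact lg_real_mem hx1 hx2 hn1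
    · rw [hFlg _ (exp_mem hn1 (by rw [Complex.ofReal_re]; linarith)), hexpT]
      have h1 : δ / P * (P * (n : ℝ) ^ (2 * p)) = δ * (n : ℝ) ^ (2 * p) := by
        field_simp
      rw [h1]
      exact hx3
  obtain ⟨G, hG, hGin, hGout⟩ := hT₀ T hTT F hFmv hF1 hFT s hs10
  refine ⟨fun z => G (lg z), hG.toBall, ?_, ?_⟩
  · intro z hz
    have hzb : z ∈ ball (0 : ℂ) 1 := by
      rw [mem_ball_zero_iff]; linarith
    have h1 := hGin (lg z) ⟨lg_mapsTo hzb, by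
      rw [Complex.ofReal_zero, sub_zero, th_lg hzb]; exact hz⟩
    rw [hFlg z hzb] at h1
    refine h1.trans ?_
    rw [div_le_iff₀ (by positivity)]
    nlinarith
  · intro w hw1 hw2 hw3
    obtain ⟨ζm, hζm⟩ : ∃ ζm : ℂ, ζm = lg (Complex.exp (-w / m)) := ⟨_, rfl⟩
    obtain ⟨ζn, hζn⟩ : ∃ ζn : ℂ, ζn = lg (Complex.exp (-w / n)) := ⟨_, rfl⟩
    obtain ⟨ζ, hζ⟩ : ∃ ζ : ℂ, ζ = ζm - (s : ℂ) := ⟨_, rfl⟩
    have a1 := hlg m (hnn1.trans hmnN) w hw1 hw2 hw3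
    have a2 := hlg n hnn1 w hw1 hw2 hw3
    rw [← hζm, hTs] at a1
    rw [← hζn, ← hT] at a2
    have a3 : ‖ζ - ((T : ℂ) - Complex.log w)‖ ≤ e2 := by
      have : ζ - ((T : ℂ) - Complex.log w) = ζm - (((T + s : ℝ) : ℂ) - Complex.log w) := by
        rw [hζ]; push_cast; ring
      rw [this]
      exact a1
    obtain ⟨b1, b2⟩ := cvt_pos hK hw1 hw2 hw3 (a3.trans he2d)
    have c1 := hGout ζ b1 b2
    have hζs : ζ + (s : ℂ) = ζm := by rw [hζ]; ring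
    have hdist : ‖ζn - ζ‖ ≤ 2 * e2 := by
      have : ζn - ζ = (ζn - ((T : ℂ) - Complex.log w)) - (ζ - ((T : ℂ) - Complex.log w)) := by
        ring
      rw [this]
      refine (norm_sub_le _ _).trans ?_
      linarith
    have c2 := hlip F hFmv hF1 ζ ζn b2 (lt_of_le_of_lt hdist he2c)
    have hre : |ζ.re| ≤ T + (4 * K + 4) := by
      have h1 := abs_sub_abs_le_abs_sub ζ.re T
      rw [abs_of_nonneg hT0] at h1
      linarith
    have c3 : ‖F ζn - F ζ‖ ≤ CL * (E * Real.exp (2 * p * T)) * (2 * e2) := by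
      refine c2.trans ?_
      have h1 : Real.exp (2 * p * |ζ.re|) ≤ E * Real.exp (2 * p * T) := by
        rw [hE, ← Real.exp_add]
        apply Real.exp_le_exp.2
        have : 2 * p * |ζ.re| ≤ 2 * p * (T + (4 * K + 4)) :=
          mul_le_mul_of_nonneg_left hre (by positivity)
        linarith
      have h2 := mul_le_mul_of_nonneg_left h1 hCL0.le
      exact mul_le_mul h2 hdist (norm_nonneg _) (by positivity)
    have hgm : gs (fun z => G (lg z)) m w = G (ζ + (s : ℂ)) := by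
      rw [hζs, hζm]
      rfl
    have hgn : gs f n w = F ζn := by
      rw [hζn, hFlg _ (exp_mem hn1 (by linarith : 0 < w.re))]
      rfl
    rw [hgm, hgn, ← hexps]
    have hsplit : G (ζ + (s : ℂ)) - ((Real.exp (2 * p * s) : ℝ) : ℂ) * F ζn =
        (G (ζ + (s : ℂ)) - ((Real.exp (2 * p * s) : ℝ) : ℂ) * F ζ) -
          ((Real.exp (2 * p * s) : ℝ) : ℂ) * (F ζn - F ζ) := by ring
    rw [hsplit]
    refine (norm_sub_le _ _).trans ?_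
    rw [norm_mul, Complex.norm_real, Real.norm_of_nonneg (Real.exp_pos _).le]
    have d1 : ε / (2 * P) * Real.exp (2 * p * (T + s)) = ε / 2 * (m : ℝ) ^ (2 * p) := by
      rw [hexpTs]
      field_simp
    rw [d1] at c1
    have d2 : Real.exp (2 * p * s) * ‖F ζn - F ζ‖ ≤ ε / 2 * (m : ℝ) ^ (2 * p) := by
      refine (mul_le_mul_of_nonneg_left c3 (Real.exp_pos _).le).trans ?_
      have h1 : Real.exp (2 * p * s) * (CL * (E * Real.exp (2 * p * T)) * (2 * e2)) =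
          CL * E * (2 * e2) * Real.exp (2 * p * (T + s)) := by
        rw [mul_add (2 * p) T s, Real.exp_add]
        ring
      rw [h1, hexpTs]
      have h2 : CL * E * (2 * e2) * (P * (m : ℝ) ^ (2 * p)) =
          CL * E * P * (2 * e2) * (m : ℝ) ^ (2 * p) := by ring
      rw [h2]
      exact mul_le_mul_of_nonneg_right he2e (by positivity)
    have c1' : ‖G (ζ + (s : ℂ)) - ((Real.exp (2 * p * s) : ℝ) : ℂ) * F ζ‖ ≤
        ε / 2 * (m : ℝ) ^ (2 * p) := c1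
    linarith

end MQV
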