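import Pool.Agent.MQV.Tra
import Pool.Agent.MQV.Pkx
import Pool.Agent.MQV.Pek
import Pool.Agent.MPV.Main

/-!
# MQV TRN : coefficients of the transplanted function

* `co_close`: `co g m K - c co f n K = ∫_1^2 ∫_{-K}^K (gs g m w - c gs f n w) e^w dy dx`
  (continuity: `gs_diff`), `‖e^w‖ ≤ e²`.
* `trn`.  `ε₄ = ε/2`; `peak` (`c`): `δ`, `n₁`; `est_small` (`ε₄`): `η`; `away` (`δ/4`, `η`): `K ≥ 1`;
  `est_small` for this `K`: `n₂`; `ε' = min (min ε 1) (min (δ/2) (ε/(2 K e²)))`; `trn_close`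
  (`δ`, `ε'`, `K`): `n₃`; `n₀ = max`.
  `w₀` from `peak`, `x₀ = Re w₀`, `v = e^{-i Im w₀/n}`, `‖v‖ = 1`, `f₁ z = f (v z)` (`Nd.rot`):
  `gs f₁ n x₀ = gs f n w₀`, `‖coef f₁ n‖ = ‖coef f n‖` (`MPV.coef_comp_mul`).
  `g₁` from `trn_close` for `f₁`; `h = 2⁻¹ g₁` is `Nd` (`Nd.smul`, `‖g₁‖ ≤ ‖f₁‖ + ε' ≤ 2`).
  `away` for `f₁`, `n`, and for `h`, `m`:
  `‖gs h m x₀‖ ≥ ½ ((m/n)^(2p) δ n^(2p) - ε' m^(2p)) ≥ (δ/4) m^(2p)`.
  `est_small` for `f₁`, `n` and `h`, `m`, `co_close` with `c = (m/n)^(2p)`, `B = ε' m^(2p)`: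
  `2πn (m/n)^(2p) ‖coef f₁ n‖ ≤ 2πm ‖coef g₁ m‖ + (3ε₄ + 2Ke²ε') m^(2p)`; divide by `2π m^(2p)`:
  `(3ε₄ + 2Ke²ε')/(2π) ≤ ε`.
  `g z = g₁ (v⁻¹ z)`.
-/

set_option autoImplicit false

open MeasureTheory Metric Set

namespace MQV

/-- the integrand of `co`, cut off at `Re = 1`, so that it is continuous everywhere -/
private noncomputable def tig (f : ℂ → ℂ) (n : ℕ) (x y : ℝ) : ℂ :=
  gs f n (((max x 1 : ℝ) : ℂ) + y * Complex.I) * Complex.exp (((max x 1 : ℝ) : ℂ) + y * Complex.I)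

private theorem tig_cont {f : ℂ → ℂ} (hf : DifferentiableOn ℂ f (ball 0 1)) {n : ℕ} (hn : 1 ≤ n) :
    Continuous (Function.uncurry (tig f n)) := by
  have h1 : Continuous fun q : ℝ × ℝ => ((max q.1 1 : ℝ) : ℂ) + q.2 * Complex.I := by fun_prop
  have h2 : Continuous fun q : ℝ × ℝ => gs f n (((max q.1 1 : ℝ) : ℂ) + q.2 * Complex.I) := by
    refine (gs_diff hf hn).continuousOn.comp_continuous h1 fun q => ?_
    have : (((max q.1 1 : ℝ) : ℂ) + q.2 * Complex.I).re = max q.1 1 := by simp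
    show 0 < (((max q.1 1 : ℝ) : ℂ) + q.2 * Complex.I).re
    rw [this]
    exact lt_of_lt_of_le one_pos (le_max_right _ _)
  exact h2.mul (Complex.continuous_exp.comp h1)

private theorem co_eq (f : ℂ → ℂ) (n : ℕ) (K : ℝ) :
    co f n K = ∫ x in (1 : ℝ)..2, ∫ y in (-K)..K, tig f n x y := by
  unfold co
  refine intervalIntegral.integral_congr fun x hx => ?_
  rw [uIcc_of_le (by norm_num)] at hx
  have h1 : max x 1 = x := max_eq_left hx.1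
  simp only [tig, h1]

theorem co_close {f g : ℂ → ℂ} (hf : DifferentiableOn ℂ f (ball 0 1))
    (hg : DifferentiableOn ℂ g (ball 0 1)) {n m : ℕ} (hn : 1 ≤ n) (hm : 1 ≤ m) {K B : ℝ}
    (hK : 0 ≤ K) {c : ℂ}
    (h : ∀ w : ℂ, 1 ≤ w.re → w.re ≤ 2 → |w.im| ≤ K → ‖gs g m w - c * gs f n w‖ ≤ B) :
    ‖co g m K - c * co f n K‖ ≤ 2 * K * Real.exp 2 * B := by
  have hB : 0 ≤ B := by
    refine (norm_nonneg _).trans (h 1 ?_ ?_ ?_) <;> simp [hK]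
  have cf := tig_cont hf hn
  have cg := tig_cont hg hm
  have cf1 : Continuous fun x : ℝ => ∫ y in (-K)..K, tig f n x y :=
    intervalIntegral.continuous_parametric_intervalIntegral_of_continuous' cf _ _
  have cg1 : Continuous fun x : ℝ => ∫ y in (-K)..K, tig g m x y :=
    intervalIntegral.continuous_parametric_intervalIntegral_of_continuous' cg _ _
  have cfx : ∀ x : ℝ, Continuous fun y : ℝ => tig f n x y := fun x =>
    cf.comp (Continuous.prodMk_right x)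
  have cgx : ∀ x : ℝ, Continuous fun y : ℝ => tig g m x y := fun x =>
    cg.comp (Continuous.prodMk_right x)
  have hin : ∀ x : ℝ, (∫ y in (-K)..K, tig g m x y) - c * (∫ y in (-K)..K, tig f n x y) =
      ∫ y in (-K)..K, (tig g m x y - c * tig f n x y) := by
    intro x
    rw [intervalIntegral.integral_sub ((cgx x).intervalIntegrable _ _)
      (((cfx x).const_mul c).intervalIntegrable _ _), intervalIntegral.integral_const_mul]
  have hout : co g m K - c * co f n K =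
      ∫ x in (1 : ℝ)..2, ∫ y in (-K)..K, (tig g m x y - c * tig f n x y) := by
    rw [co_eq, co_eq, ← intervalIntegral.integral_const_mul,
      ← intervalIntegral.integral_sub (cg1.intervalIntegrable _ _)
      ((cf1.const_mul c).intervalIntegrable _ _)]
    exact intervalIntegral.integral_congr fun x _ => hin x
  rw [hout]
  have hb1 : ∀ x ∈ Set.uIoc (1 : ℝ) 2,
      ‖∫ y in (-K)..K, (tig g m x y - c * tig f n x y)‖ ≤ 2 * K * Real.exp 2 * B := by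
    intro x hx
    rw [uIoc_of_le (by norm_num)] at hx
    have hx1 : max x 1 = x := max_eq_left hx.1.le
    have h1 : ∀ y ∈ Set.uIoc (-K) K, ‖tig g m x y - c * tig f n x y‖ ≤ Real.exp 2 * B := by
      intro y hy
      rw [uIoc_of_le (by linarith)] at hy
      have hre : ((x : ℂ) + y * Complex.I).re = x := by simp
      have him : ((x : ℂ) + y * Complex.I).im = y := by simp
      have h2 := h ((x : ℂ) + y * Complex.I) (by rw [hre]; exact hx.1.le) (by rw [hre]; exact hx.2)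
        (by rw [him, abs_le]; exact ⟨hy.1.le, hy.2⟩)
      have h3 : tig g m x y - c * tig f n x y =
          (gs g m ((x : ℂ) + y * Complex.I) - c * gs f n ((x : ℂ) + y * Complex.I)) *
            Complex.exp ((x : ℂ) + y * Complex.I) := by
        simp only [tig, hx1]
        ring
      rw [h3, norm_mul, Complex.norm_exp, hre, mul_comm]
      exact mul_le_mul (Real.exp_le_exp.mpr hx.2) h2 (norm_nonneg _) (Real.exp_pos _).le
    have h4 := intervalIntegral.norm_integral_le_of_norm_le_const h1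
    have h5 : |K - -K| = 2 * K := by
      rw [show K - -K = 2 * K by ring, abs_of_nonneg (by linarith)]
    rw [h5] at h4
    linarith
  have h6 := intervalIntegral.norm_integral_le_of_norm_le_const hb1
  have h7 : |(2 : ℝ) - 1| = 1 := by norm_num
  rw [h7, mul_one] at h6
  exact h6

private theorem co_const_mul (b : ℂ) (g : ℂ → ℂ) (m : ℕ) (K : ℝ) :
    co (fun z => b * g z) m K = b * co g m K := by
  unfold co gs
  simp only [mul_assoc, intervalIntegral.integral_const_mul]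

/-- the final arithmetic -/
private theorem trn_arith {p : ℝ} {n m : ℕ} (hn : 1 ≤ n) (hm : 1 ≤ m) {a b ε E : ℝ}
    (hE : E ≤ 6 * ε)
    (h : 2 * Real.pi * n * (((m : ℝ) / n) ^ (2 * p)) * a ≤
      2 * Real.pi * m * b + E * (m : ℝ) ^ (2 * p)) (hε : 0 < ε) :
    a * (n : ℝ) ^ (1 - 2 * p) ≤ b * (m : ℝ) ^ (1 - 2 * p) + ε := by
  have hn0 : (0 : ℝ) < n := by exact_mod_cast hn
  have hm0 : (0 : ℝ) < m := by exact_mod_cast hm
  have hpi := Real.pi_gt_three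
  have hM : 0 < (m : ℝ) ^ (2 * p) := Real.rpow_pos_of_pos hm0 _
  have hN : 0 < (n : ℝ) ^ (2 * p) := Real.rpow_pos_of_pos hn0 _
  rw [Real.div_rpow hm0.le hn0.le] at h
  rw [Real.rpow_sub hn0, Real.rpow_sub hm0, Real.rpow_one, Real.rpow_one]
  have h1 : 2 * Real.pi * (m : ℝ) ^ (2 * p) * (a * ((n : ℝ) / (n : ℝ) ^ (2 * p))) ≤
      2 * Real.pi * (m : ℝ) ^ (2 * p) * (b * ((m : ℝ) / (m : ℝ) ^ (2 * p)) + ε) := by
    have e1 : 2 * Real.pi * (m : ℝ) ^ (2 * p) * (a * ((n : ℝ) / (n : ℝ) ^ (2 * p))) =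
        2 * Real.pi * n * ((m : ℝ) ^ (2 * p) / (n : ℝ) ^ (2 * p)) * a := by
      ring
    have e2 : 2 * Real.pi * (m : ℝ) ^ (2 * p) * (b * ((m : ℝ) / (m : ℝ) ^ (2 * p)) + ε) =
        2 * Real.pi * m * b + 2 * Real.pi * ε * (m : ℝ) ^ (2 * p) := by
      field_simp
    rw [e1, e2]
    have e3 : E * (m : ℝ) ^ (2 * p) ≤ 2 * Real.pi * ε * (m : ℝ) ^ (2 * p) := by
      apply mul_le_mul_of_nonneg_right _ hM.le
      nlinarith
    linarith
  exact le_of_mul_le_mul_left h1 (by positivity)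

theorem trn {p : ℝ} (hp : 1 / 4 < p) {c ε : ℝ} (hc : 0 < c) (hε : 0 < ε) : ∃ n₀ : ℕ, 1 ≤ n₀ ∧
    ∀ f : ℂ → ℂ, Nd p f → ∀ n m : ℕ, n₀ ≤ n → Real.exp 10 * n ≤ m →
      c * (n : ℝ) ^ (2 * p - 1) ≤ ‖MPV.coef f n‖ →
      ∃ g : ℂ → ℂ, MV (ball 0 1) p g ∧ (∀ z : ℂ, ‖z‖ ≤ 1 / 2 → ‖g z - f z‖ ≤ ε) ∧
        ‖MPV.coef f n‖ * (n : ℝ) ^ (1 - 2 * p) ≤
          ‖MPV.coef g m‖ * (m : ℝ) ^ (1 - 2 * p) + ε := by
  have hp0 : 0 < p := by linarith
  obtain ⟨δ, hδ, n₁, hn₁, H1⟩ := peak hp hc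
  obtain ⟨η, hη, H2⟩ := est_small hp (show 0 < ε / 2 by positivity)
  obtain ⟨K, hK, H3⟩ := away hp0 (show 0 < δ / 4 by positivity) hη
  obtain ⟨n₂, hn₂, H2'⟩ := H2 K (by linarith)
  have hK0 : 0 < K := by linarith
  obtain ⟨e', he'def⟩ : ∃ e' : ℝ, e' = min (min ε 1) (min (δ / 2) (ε / (2 * K * Real.exp 2))) :=
    ⟨_, rfl⟩
  have he'0 : 0 < e' := by
    rw [he'def]
    exact lt_min (lt_min hε one_pos) (lt_min (by positivity) (by positivity))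
  have he'1 : e' ≤ ε := he'def ▸ (min_le_left _ _).trans (min_le_left _ _)
  have he'2 : e' ≤ 1 := he'def ▸ (min_le_left _ _).trans (min_le_right _ _)
  have he'3 : e' ≤ δ / 2 := he'def ▸ (min_le_right _ _).trans (min_le_left _ _)
  have he'4 : 2 * K * Real.exp 2 * e' ≤ ε := by
    have h1 : e' ≤ ε / (2 * K * Real.exp 2) :=
      he'def ▸ (min_le_right _ _).trans (min_le_right _ _)
    rw [le_div_iff₀ (by positivity)] at h1
    linarith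
  obtain ⟨n₃, hn₃, H4⟩ := trn_close hp0 hδ he'0 hK
  refine ⟨max n₁ (max n₂ n₃), le_trans hn₁ (le_max_left _ _), fun f hf n m hn hnm hcoef => ?_⟩
  have hnn1 : n₁ ≤ n := (le_max_left _ _).trans hn
  have hnn2 : n₂ ≤ n := ((le_max_left _ _).trans (le_max_right _ _)).trans hn
  have hnn3 : n₃ ≤ n := ((le_max_right _ _).trans (le_max_right _ _)).trans hn
  have hn1 : 1 ≤ n := hn₁.trans hnn1
  have hn0 : (0 : ℝ) < n := by exact_mod_cast hn1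
  have hnmR : (n : ℝ) ≤ m := by
    refine le_trans ?_ hnm
    have : (1 : ℝ) ≤ Real.exp 10 := Real.one_le_exp (by norm_num)
    nlinarith
  have hnm' : n ≤ m := by exact_mod_cast hnmR
  have hm1 : 1 ≤ m := hn1.trans hnm'
  have hm0 : (0 : ℝ) < m := by exact_mod_cast hm1
  obtain ⟨w₀, hw1, hw2, -, hw4⟩ := H1 f hf n hnn1 hcoef
  obtain ⟨v, hv⟩ : ∃ v : ℂ, v = Complex.exp (((-(w₀.im / n) : ℝ) : ℂ) * Complex.I) := ⟨_, rfl⟩
  have hvn : ‖v‖ = 1 := by rw [hv, Complex.norm_exp_ofReal_mul_I]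
  have hv0 : v ≠ 0 := by
    rw [← norm_ne_zero_iff, hvn]
    exact one_ne_zero
  have hvn' : ‖v⁻¹‖ = 1 := by rw [norm_inv, hvn, inv_one]
  obtain ⟨f₁, hf₁def⟩ : ∃ f₁ : ℂ → ℂ, f₁ = fun z => f (v * z) := ⟨_, rfl⟩
  have hf₁ : Nd p f₁ := hf₁def ▸ hf.rot hvn
  have hgs : gs f₁ n (w₀.re : ℂ) = gs f n w₀ := by
    rw [hf₁def]
    unfold gs
    show f (v * Complex.exp (-(w₀.re : ℂ) / n)) = f (Complex.exp (-w₀ / n))
    rw [hv, ← Complex.exp_add]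
    congr 2
    conv_rhs => rw [← Complex.re_add_im w₀]
    push_cast
    ring
  have hpk : δ * (n : ℝ) ^ (2 * p) ≤ ‖gs f₁ n (w₀.re : ℂ)‖ := by rw [hgs]; exact hw4
  obtain ⟨g₁, hg₁, hgf, hclose⟩ := H4 f₁ hf₁ n m hnn3 hnm ⟨w₀.re, hw1, hw2, hpk⟩
  have hh : Nd p (fun z => ((2 : ℝ) : ℂ)⁻¹ * g₁ z) := by
    refine Nd.smul hp0.le hg₁ two_pos fun z hz => ?_
    have h1 := hgf z hz
    have h2 := hf₁.one z hz
    have h3 : ‖g₁ z‖ ≤ ‖g₁ z - f₁ z‖ + ‖f₁ z‖ := by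
      have := norm_add_le (g₁ z - f₁ z) (f₁ z)
      rwa [sub_add_cancel] at this
    linarith
  have hN : 0 < (n : ℝ) ^ (2 * p) := Real.rpow_pos_of_pos hn0 _
  have hM : 0 < (m : ℝ) ^ (2 * p) := Real.rpow_pos_of_pos hm0 _
  have hcpos : 0 < ((m : ℝ) / n) ^ (2 * p) := Real.rpow_pos_of_pos (by positivity) _
  have hcN : ((m : ℝ) / n) ^ (2 * p) * (n : ℝ) ^ (2 * p) = (m : ℝ) ^ (2 * p) := by
    rw [← Real.mul_rpow (by positivity) hn0.le, div_mul_cancel₀ _ hn0.ne']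
  have hnormc : ‖((((m : ℝ) / n) ^ (2 * p) : ℝ) : ℂ)‖ = ((m : ℝ) / n) ^ (2 * p) := by
    rw [Complex.norm_real, Real.norm_of_nonneg hcpos.le]
  -- smallness away from the peak
  have A1 := H3 f₁ hf₁ n hn1 ⟨w₀.re, hw1, hw2, by nlinarith⟩
  have A2 := H3 _ hh m hm1 ⟨w₀.re, hw1, hw2, by
    have h1 := hclose (w₀.re : ℂ) (by simpa using hw1) (by simpa using hw2) (by simp [hK0.le])
    have h2 : ‖((((m : ℝ) / n) ^ (2 * p) : ℝ) : ℂ) * gs f₁ n (w₀.re : ℂ)‖ =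
        ((m : ℝ) / n) ^ (2 * p) * ‖gs f₁ n (w₀.re : ℂ)‖ := by rw [norm_mul, hnormc]
    have h3 : ‖((((m : ℝ) / n) ^ (2 * p) : ℝ) : ℂ) * gs f₁ n (w₀.re : ℂ)‖ ≤
        ‖gs g₁ m (w₀.re : ℂ)‖ + ‖gs g₁ m (w₀.re : ℂ) -
          ((((m : ℝ) / n) ^ (2 * p) : ℝ) : ℂ) * gs f₁ n (w₀.re : ℂ)‖ := by
      have := norm_sub_le (gs g₁ m (w₀.re : ℂ)) (gs g₁ m (w₀.re : ℂ) -
          ((((m : ℝ) / n) ^ (2 * p) : ℝ) : ℂ) * gs f₁ n (w₀.re : ℂ))
      rwa [sub_sub_cancel] at this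
    have h4 : ((m : ℝ) / n) ^ (2 * p) * (δ * (n : ℝ) ^ (2 * p)) ≤
        ((m : ℝ) / n) ^ (2 * p) * ‖gs f₁ n (w₀.re : ℂ)‖ :=
      mul_le_mul_of_nonneg_left hpk hcpos.le
    have h5 : ((m : ℝ) / n) ^ (2 * p) * (δ * (n : ℝ) ^ (2 * p)) = δ * (m : ℝ) ^ (2 * p) := by
      rw [← hcN]
      ring
    have h6 : e' * (m : ℝ) ^ (2 * p) ≤ δ / 2 * (m : ℝ) ^ (2 * p) :=
      mul_le_mul_of_nonneg_right he'3 hM.le
    have h7 : ‖gs (fun z => ((2 : ℝ) : ℂ)⁻¹ * g₁ z) m (w₀.re : ℂ)‖ =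
        2⁻¹ * ‖gs g₁ m (w₀.re : ℂ)‖ := by
      show ‖((2 : ℝ) : ℂ)⁻¹ * gs g₁ m (w₀.re : ℂ)‖ = _
      rw [norm_mul, norm_inv, Complex.norm_real, Real.norm_of_nonneg (by norm_num)]
    rw [h7]
    linarith⟩
  have E1 := H2' f₁ hf₁ n hnn2 A1
  have E2 := H2' _ hh m (hnn2.trans hnm') A2
  have E3 := co_close hf₁.mv.diff hg₁.diff hn1 hm1 hK0.le hclose
  rw [co_const_mul, MPV.coef_const_mul _ hg₁.diff] at E2
  have E2' : ‖2 * (Real.pi : ℂ) * m * MPV.coef g₁ m - co g₁ m K‖ ≤ ε * (m : ℝ) ^ (2 * p) := by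
    have h1 : 2 * (Real.pi : ℂ) * m * (((2 : ℝ) : ℂ)⁻¹ * MPV.coef g₁ m) -
        ((2 : ℝ) : ℂ)⁻¹ * co g₁ m K =
        ((2 : ℝ) : ℂ)⁻¹ * (2 * (Real.pi : ℂ) * m * MPV.coef g₁ m - co g₁ m K) := by ring
    rw [h1, norm_mul, norm_inv, Complex.norm_real, Real.norm_of_nonneg (by norm_num)] at E2
    linarith
  have hnorm : ∀ (k : ℕ) (a : ℂ), ‖2 * (Real.pi : ℂ) * k * a‖ = 2 * Real.pi * k * ‖a‖ := by
    intro k a
    rw [norm_mul, norm_mul, norm_mul, Complex.norm_real, Complex.norm_natCast,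
      Real.norm_of_nonneg Real.pi_pos.le]
    norm_num
  have F1 : 2 * Real.pi * n * ‖MPV.coef f₁ n‖ ≤ ‖co f₁ n K‖ + ε / 2 * (n : ℝ) ^ (2 * p) := by
    have h1 := norm_add_le (2 * (Real.pi : ℂ) * n * MPV.coef f₁ n - co f₁ n K) (co f₁ n K)
    rw [sub_add_cancel, hnorm] at h1
    linarith
  have F2 : ‖co g₁ m K‖ ≤ 2 * Real.pi * m * ‖MPV.coef g₁ m‖ + ε * (m : ℝ) ^ (2 * p) := by
    have h1 := norm_sub_le (2 * (Real.pi : ℂ) * m * MPV.coef g₁ m)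
      (2 * (Real.pi : ℂ) * m * MPV.coef g₁ m - co g₁ m K)
    rw [sub_sub_cancel, hnorm] at h1
    linarith
  have F3 : ((m : ℝ) / n) ^ (2 * p) * ‖co f₁ n K‖ ≤ ‖co g₁ m K‖ + ε * (m : ℝ) ^ (2 * p) := by
    have h1 := norm_sub_le (co g₁ m K) (co g₁ m K -
      ((((m : ℝ) / n) ^ (2 * p) : ℝ) : ℂ) * co f₁ n K)
    rw [sub_sub_cancel, norm_mul, hnormc] at h1
    have h2 : 2 * K * Real.exp 2 * (e' * (m : ℝ) ^ (2 * p)) ≤ ε * (m : ℝ) ^ (2 * p) := by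
      rw [← mul_assoc]
      exact mul_le_mul_of_nonneg_right he'4 hM.le
    linarith
  have hcf : ‖MPV.coef f₁ n‖ = ‖MPV.coef f n‖ := by
    rw [hf₁def]
    exact MPV.coef_comp_mul v hf.mv.diff hvn n
  have hcg : ‖MPV.coef (fun z => g₁ (v⁻¹ * z)) m‖ = ‖MPV.coef g₁ m‖ :=
    MPV.coef_comp_mul v⁻¹ hg₁.diff hvn' m
  refine ⟨fun z => g₁ (v⁻¹ * z), hg₁.rot hvn', fun z hz => ?_, ?_⟩
  · have h1 := hgf (v⁻¹ * z) (by rw [norm_mul, hvn', one_mul]; exact hz)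
    have h2 : f₁ (v⁻¹ * z) = f z := by
      rw [hf₁def]
      show f (v * (v⁻¹ * z)) = f z
      rw [mul_inv_cancel_left₀ hv0]
    rw [h2] at h1
    exact h1.trans he'1
  · rw [hcg]
    refine trn_arith hn1 hm1 (E := 5 / 2 * ε) (by linarith) ?_ hε
    rw [← hcf]
    have h1 := mul_le_mul_of_nonneg_left F1 hcpos.le
    have h2 : ((m : ℝ) / n) ^ (2 * p) * (‖co f₁ n K‖ + ε / 2 * (n : ℝ) ^ (2 * p)) =
        ((m : ℝ) / n) ^ (2 * p) * ‖co f₁ n K‖ + ε / 2 * (m : ℝ) ^ (2 * p) := by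
      rw [← hcN]
      ring
    rw [h2] at h1
    linarith

end MQV
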