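import Pool.Agent.MQV.Brx
import Pool.Agent.MQV.Lay

set_option autoImplicit false

/-!
# MQV TWO : there is only one branch

PROOF.  `one_branch` with `κ/2`.  If `‖z₁ - z₂‖ ≥ κ`, the sets `{‖w - z_i‖ < κ/2}` are disjoint, so
with `b = ε e^{2pd}` (`≥ 2` for `d ≥ D₀`, so that `lay_energy` applies with `a = 1`, `Ω = ball 0 1`)
`2 (2πp d - C)²/(πd) ≤ ∫⁻_{ball 0 1} ‖dv f 1 b‖² ≤ 2πp log b + 2πp = 4πp² d + 2πp log ε + 2πp`.
The left hand side is `≥ 8πp² d - 8pC` (`(X - C)² ≥ X² - 2XC`), so `4πp² d ≤ 8pC + 2πp |log ε| + 2πp`,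
false for large `d`.
-/

open MeasureTheory Metric Set

namespace MQV

theorem two_branch {p : ℝ} (hp : 0 < p) {ε κ : ℝ} (hε : 0 < ε) (hκ : 0 < κ) : ∃ D₀ : ℝ, 0 < D₀ ∧
    ∀ f : ℂ → ℂ, Nd p f → ∀ d : ℝ, D₀ ≤ d → ∀ z₁ ∈ ball (0 : ℂ) 1, ∀ z₂ ∈ ball (0 : ℂ) 1,
      (1 + ‖z₁‖) / (1 - ‖z₁‖) ≤ Real.exp d → (1 + ‖z₂‖) / (1 - ‖z₂‖) ≤ Real.exp d →
      ε * Real.exp (2 * p * d) ≤ ‖f z₁‖ → ε * Real.exp (2 * p * d) ≤ ‖f z₂‖ →
      ‖z₁ - z₂‖ < κ := by
  have hpi := Real.pi_pos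
  obtain ⟨C, D₁, hC, hD₁, h1⟩ := one_branch hp hε (half_pos hκ)
  have hA : 0 ≤ |Real.log ε| := abs_nonneg _
  have hle := le_abs_self (Real.log ε)
  have hge := neg_abs_le (Real.log ε)
  have hq1 : 0 ≤ 2 * C / (Real.pi * p) := by positivity
  have hq2 : 0 ≤ (|Real.log ε| + 1) / (2 * p) := by positivity
  refine ⟨D₁ + 2 * C / (Real.pi * p) + (|Real.log ε| + 1) / (2 * p) + 1, by linarith, ?_⟩
  intro f hf d hd z₁ hz₁ z₂ hz₂ he₁ he₂ hb₁ hb₂
  by_contra hcon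
  push Not at hcon
  have hd1 : D₁ ≤ d := by linarith
  have hd0 : 0 < d := by linarith
  set b := ε * Real.exp (2 * p * d) with hb
  have hbpos : 0 < b := by positivity
  have hlogb : Real.log b = Real.log ε + 2 * p * d := by
    rw [hb, Real.log_mul hε.ne' (Real.exp_pos _).ne', Real.log_exp]
  have hd2 : |Real.log ε| + 1 ≤ 2 * p * d := by
    have h2 : (|Real.log ε| + 1) / (2 * p) ≤ d := by linarith
    rw [div_le_iff₀ (by positivity)] at h2
    linarith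
  have hb2 : 2 * 1 ≤ b := by
    have h2 : Real.log 2 ≤ Real.log b := by
      have := Real.log_two_lt_d9
      rw [hlogb]
      linarith
    have h3 := (Real.log_le_log_iff (by norm_num) hbpos).1 h2
    linarith
  obtain ⟨hX, hE1⟩ := h1 f hf d hd1 z₁ hz₁ he₁ hb₁
  obtain ⟨_, hE2⟩ := h1 f hf d hd1 z₂ hz₂ he₂ hb₂
  have hLE := lay_energy isOpen_ball hp.le one_pos hb2 hf.mv
  set S₁ : Set ℂ := {w | w ∈ ball (0 : ℂ) 1 ∧ ‖w - z₁‖ < κ / 2} with hS₁
  set S₂ : Set ℂ := {w | w ∈ ball (0 : ℂ) 1 ∧ ‖w - z₂‖ < κ / 2} with hS₂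
  have hdis : Disjoint S₁ S₂ := by
    rw [Set.disjoint_left]
    rintro w ⟨_, hw1⟩ ⟨_, hw2⟩
    have h3 : ‖z₁ - z₂‖ ≤ ‖w - z₁‖ + ‖w - z₂‖ := by
      have : z₁ - z₂ = (w - z₂) - (w - z₁) := by ring
      rw [this]
      linarith [norm_sub_le (w - z₂) (w - z₁)]
    linarith
  have hm2 : MeasurableSet S₂ := by
    have : S₂ = ball (0 : ℂ) 1 ∩ ball z₂ (κ / 2) := by
      ext w
      rw [hS₂, Set.mem_ofPred_eq, Set.mem_inter_iff, mem_ball_iff_norm (b := w) (a := z₂)]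
    rw [this]
    exact measurableSet_ball.inter measurableSet_ball
  have hsum : ENNReal.ofReal ((2 * Real.pi * p * d - C) ^ 2 / (Real.pi * d)) +
      ENNReal.ofReal ((2 * Real.pi * p * d - C) ^ 2 / (Real.pi * d)) ≤
      ENNReal.ofReal (2 * Real.pi * p * Real.log (b / 1) + 2 * Real.pi * p) := by
    refine (add_le_add hE1 hE2).trans ?_
    rw [← lintegral_union hm2 hdis]
    refine le_trans (lintegral_mono_set ?_) hLE
    exact Set.union_subset (fun w hw => hw.1) (fun w hw => hw.1)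
  have hq0 : 0 ≤ (2 * Real.pi * p * d - C) ^ 2 / (Real.pi * d) := by positivity
  have hlb0 : 0 ≤ Real.log b := by
    rw [hlogb]
    linarith
  rw [← ENNReal.ofReal_add hq0 hq0, div_one,
    ENNReal.ofReal_le_ofReal_iff (by positivity), hlogb] at hsum
  have h4 : 4 * Real.pi * p ^ 2 * d - 4 * p * C ≤ (2 * Real.pi * p * d - C) ^ 2 / (Real.pi * d) := by
    rw [le_div_iff₀ (by positivity)]
    nlinarith [sq_nonneg C]
  have h5 : 4 * Real.pi * p ^ 2 * d ≤ 8 * p * C + 2 * Real.pi * p * (|Real.log ε| + 1) := by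
    have h6 : 2 * Real.pi * p * Real.log ε ≤ 2 * Real.pi * p * |Real.log ε| :=
      mul_le_mul_of_nonneg_left hle (by positivity)
    nlinarith
  have h7 : 2 * C / (Real.pi * p) + (|Real.log ε| + 1) / (2 * p) < d := by linarith
  have h8 : 4 * Real.pi * p ^ 2 * (2 * C / (Real.pi * p) + (|Real.log ε| + 1) / (2 * p)) =
      8 * p * C + 2 * Real.pi * p * (|Real.log ε| + 1) := by
    field_simp
    ring
  have h9 : 4 * Real.pi * p ^ 2 * (2 * C / (Real.pi * p) + (|Real.log ε| + 1) / (2 * p)) <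
      4 * Real.pi * p ^ 2 * d := mul_lt_mul_of_pos_left h7 (by positivity)
  linarith

end MQV
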